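import Pool.Agent.TS.Fn
import Pool.Agent.CSG.FunBasic

/-!
# TS/StepLip: an explicit Lipschitz constant of `Real.smoothTransition`

`S x = f x / (f x + f (1 - x))`, `f x = exp (-1/x)` (`expNegInvGlue`).  For `0 < x < 1`:
`S' = f(x) f(1-x) (1/x^2 + 1/(1-x)^2) / (f x + f (1-x))^2`.  By the symmetry `x ↦ 1 - x` let `x ≤ 1/2`; then
`f(x) f(1-x) / (f x + f(1-x))^2 ≤ f x / f (1-x) = exp (1/(1-x) - 1/x) ≤ exp (2 - 1/x)`, and
`exp (2 - t) t^2 ≤ 4` for `t = 1/x ≥ 2` (`t^2 exp (-t)` is maximal at `t = 2`; or `exp (t - 2) ≥ (t/2)^2` from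
`exp (s) ≥ 1 + s`, `s = t/2 - 1`, squared), so `S' ≤ 4 + 4 = 8`.  Outside `(0,1)` the function is constant.
Mean value inequality.
-/

open scoped Manifold ContDiff Topology
open Complex (I)
open Set Filter

namespace Pool.Agent.TS
open Pool.Agent.CSG

theorem StepLip_aux {x : ℝ} (h0 : 0 < x) (h1 : x < 1) :
    Real.exp (-x⁻¹) * Real.exp (-(1 - x)⁻¹) * (x⁻¹) ^ 2 ≤
      4 * (Real.exp (-x⁻¹) + Real.exp (-(1 - x)⁻¹)) ^ 2 := by
  have hA := Real.exp_pos (-x⁻¹)
  have hB := Real.exp_pos (-(1 - x)⁻¹)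
  rcases le_or_gt x (1 / 2) with h | h
  · have ht : 2 ≤ x⁻¹ := by
      rw [le_inv_comm₀ (by norm_num) h0]
      linarith
    have hs : (1 - x)⁻¹ ≤ 2 := by
      rw [inv_le_comm₀ (by linarith) (by norm_num)]
      linarith
    have h3 : x⁻¹ / 2 ≤ Real.exp (x⁻¹ / 2 - 1) := by
      have := Real.add_one_le_exp (x⁻¹ / 2 - 1)
      linarith
    have h4 : (x⁻¹ / 2) ^ 2 ≤ Real.exp (x⁻¹ - 2) := by
      have h5 : (x⁻¹ / 2) ^ 2 ≤ Real.exp (x⁻¹ / 2 - 1) ^ 2 := by
        apply pow_le_pow_left₀ (by linarith) h3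
      have h6 : Real.exp (x⁻¹ / 2 - 1) ^ 2 = Real.exp (x⁻¹ - 2) := by
        rw [← Real.exp_nat_mul]
        congr 1
        push_cast
        ring
      rw [← h6]
      exact h5
    have h7 : Real.exp (-x⁻¹) * (x⁻¹) ^ 2 ≤ 4 * Real.exp (-(1 - x)⁻¹) := by
      have h8 : Real.exp (-x⁻¹) * (x⁻¹) ^ 2 ≤ 4 * (Real.exp (-x⁻¹) * Real.exp (x⁻¹ - 2)) := by
        have := mul_le_mul_of_nonneg_left h4 hA.le
        nlinarith
      rw [← Real.exp_add] at h8
      have h9 : Real.exp (-x⁻¹ + (x⁻¹ - 2)) ≤ Real.exp (-(1 - x)⁻¹) := by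
        apply Real.exp_le_exp.2
        linarith
      linarith
    have h10 : Real.exp (-x⁻¹) * Real.exp (-(1 - x)⁻¹) * (x⁻¹) ^ 2 ≤
        4 * Real.exp (-(1 - x)⁻¹) ^ 2 := by
      have := mul_le_mul_of_nonneg_left h7 hB.le
      nlinarith
    nlinarith
  · have ht : x⁻¹ ≤ 2 := by
      rw [inv_le_comm₀ h0 (by norm_num)]
      linarith
    have ht0 : 0 < x⁻¹ := inv_pos.2 h0
    have h3 : (x⁻¹) ^ 2 ≤ 4 := by nlinarith
    have h4 : Real.exp (-x⁻¹) * Real.exp (-(1 - x)⁻¹) * (x⁻¹) ^ 2 ≤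
        Real.exp (-x⁻¹) * Real.exp (-(1 - x)⁻¹) * 4 :=
      mul_le_mul_of_nonneg_left h3 (mul_pos hA hB).le
    nlinarith [mul_pos hA hB]

theorem StepLip_deriv (x : ℝ) : |deriv Real.smoothTransition x| ≤ 8 := by
  rcases le_or_gt x 0 with h0 | h0
  · have h : IsLocalMin Real.smoothTransition x := by
      apply Filter.Eventually.of_forall
      intro y
      rw [Real.smoothTransition.zero_of_nonpos h0]
      exact Real.smoothTransition.nonneg y
    rw [h.deriv_eq_zero]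
    norm_num
  rcases le_or_gt 1 x with h1 | h1
  · have h : IsLocalMax Real.smoothTransition x := by
      apply Filter.Eventually.of_forall
      intro y
      rw [Real.smoothTransition.one_of_one_le h1]
      exact Real.smoothTransition.le_one y
    rw [h.deriv_eq_zero]
    norm_num
  have hx' : x ≠ 0 := h0.ne'
  have hx1 : 1 - x ≠ 0 := by linarith
  have hA := Real.exp_pos (-x⁻¹)
  have hB := Real.exp_pos (-(1 - x)⁻¹)
  have hev : Real.smoothTransition =ᶠ[𝓝 x]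
      fun y => Real.exp (-y⁻¹) / (Real.exp (-y⁻¹) + Real.exp (-(1 - y)⁻¹)) := by
    filter_upwards [Ioo_mem_nhds h0 h1] with y hy
    have hy0 : ¬ y ≤ 0 := not_le.2 hy.1
    have hy1 : ¬ (1 - y ≤ 0) := by
      rw [not_le]
      linarith [hy.2]
    simp only [Real.smoothTransition, expNegInvGlue, hy0, hy1, if_false]
  have d1 : HasDerivAt (fun y : ℝ => Real.exp (-y⁻¹)) (Real.exp (-x⁻¹) * (x⁻¹) ^ 2) x := by
    have h := ((hasDerivAt_inv hx').neg).exp
    have e : Real.exp (-x⁻¹) * (x⁻¹) ^ 2 = Real.exp (-x⁻¹) * (- -(x ^ 2)⁻¹) := by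
      rw [neg_neg, inv_pow]
    rw [e]
    exact h
  have d2 : HasDerivAt (fun y : ℝ => Real.exp (-(1 - y)⁻¹))
      (-(Real.exp (-(1 - x)⁻¹) * ((1 - x)⁻¹) ^ 2)) x := by
    have h1' : HasDerivAt (fun y : ℝ => 1 - y) (-1) x := by
      simpa using (hasDerivAt_id x).const_sub 1
    have h := ((h1'.inv hx1).neg).exp
    have e : -(Real.exp (-(1 - x)⁻¹) * ((1 - x)⁻¹) ^ 2) =
        Real.exp (-(1 - x)⁻¹) * (-(- -1 / (1 - x) ^ 2)) := by
      rw [neg_neg, inv_pow]
      ring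
    rw [e]
    exact h
  have hne : Real.exp (-x⁻¹) + Real.exp (-(1 - x)⁻¹) ≠ 0 := by positivity
  have d3 := d1.div (d1.add d2) hne
  have d4 : deriv Real.smoothTransition x =
      Real.exp (-x⁻¹) * Real.exp (-(1 - x)⁻¹) * ((x⁻¹) ^ 2 + ((1 - x)⁻¹) ^ 2) /
        (Real.exp (-x⁻¹) + Real.exp (-(1 - x)⁻¹)) ^ 2 := by
    rw [hev.deriv_eq]
    have := d3.deriv
    have e2 : deriv (fun y => Real.exp (-y⁻¹) / (Real.exp (-y⁻¹) + Real.exp (-(1 - y)⁻¹))) x =
      deriv ((fun y : ℝ => Real.exp (-y⁻¹)) / ((fun y : ℝ => Real.exp (-y⁻¹)) +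
        fun y : ℝ => Real.exp (-(1 - y)⁻¹))) x := rfl
    rw [e2, this]
    congr 1
    simp only [Pi.add_apply]
    ring
  have hpos : 0 < (Real.exp (-x⁻¹) + Real.exp (-(1 - x)⁻¹)) ^ 2 := by positivity
  rw [d4, abs_of_nonneg (by positivity), div_le_iff₀ hpos]
  have a1 := StepLip_aux h0 h1
  have a2 := StepLip_aux (x := 1 - x) (by linarith) (by linarith)
  rw [sub_sub_cancel] at a2
  nlinarith

theorem smoothTransition_lip8 (x y : ℝ) :
    |Real.smoothTransition x - Real.smoothTransition y| ≤ 8 * |x - y| := by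
  have hd : Differentiable ℝ Real.smoothTransition :=
    (Real.smoothTransition.contDiff (n := 1)).differentiable (by norm_num)
  have h := Convex.norm_image_sub_le_of_norm_deriv_le (𝕜 := ℝ) (f := Real.smoothTransition)
    (s := Set.univ) (C := 8) (x := y) (y := x) (fun z _ => hd z)
    (fun z _ => by rw [Real.norm_eq_abs]; exact StepLip_deriv z) convex_univ (mem_univ _)
    (mem_univ _)
  rw [Real.norm_eq_abs, Real.norm_eq_abs] at h
  exact h

theorem stp_lip {a b : ℝ} (hab : a < b) (x y : ℝ) :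
    |stp a b x - stp a b y| ≤ 8 / (b - a) * |x - y| := by
  have hpos : 0 < b - a := by linarith
  have h := smoothTransition_lip8 ((x - a) / (b - a)) ((y - a) / (b - a))
  have e : (x - a) / (b - a) - (y - a) / (b - a) = (x - y) / (b - a) := by
    rw [← sub_div]
    congr 1
    ring
  rw [e, abs_div, abs_of_pos hpos] at h
  unfold stp
  calc _ ≤ _ := h
    _ = _ := by ring

end Pool.Agent.TS
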