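import Pool.Agent.TS.Fn
import Pool.Agent.CSG.FunBasic

/-!
# TS/TwM: the twist function `twc`

`thc x - x` is smooth and 1-periodic; at a point of the negative real axis use `arg` of `-Z` (shifted by `π`).
-/

open scoped Manifold ContDiff Topology
open Complex (I)
open Set Filter

namespace Pool.Agent.TS
open Pool.Agent.CSG

theorem ex_add (x y : ℝ) : ex (x + y) = ex x * ex y := by
  unfold ex
  rw [← Complex.exp_add]
  congr 1
  push_cast
  ring

theorem ex_int (n : ℤ) : ex n = 1 := by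
  unfold ex
  rw [Complex.exp_eq_one_iff]
  exact ⟨n, by push_cast; ring⟩

theorem ex_norm (x : ℝ) : ‖ex x‖ = 1 := by
  unfold ex
  exact Complex.norm_exp_ofReal_mul_I _

theorem ex_smooth : ContDiff ℝ ∞ ex := by
  unfold ex
  have h1 : ContDiff ℝ ∞ fun x : ℝ => ((2 * Real.pi * x : ℝ) : ℂ) * I := by
    apply ContDiff.mul _ contDiff_const
    exact Complex.ofRealCLM.contDiff.comp (contDiff_const.mul contDiff_id)
  exact h1.cexp

theorem ex_eq_iff {x y : ℝ} : ex x = ex y ↔ ∃ n : ℤ, y = x + n := by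
  unfold ex
  rw [eq_comm, Complex.exp_eq_exp_iff_exists_int]
  have hpi : (2 * Real.pi : ℝ) ≠ 0 := by positivity
  constructor
  · rintro ⟨n, hn⟩
    refine ⟨n, ?_⟩
    have h := congrArg Complex.im hn
    simp at h
    have h2 : (2 * Real.pi) * y = (2 * Real.pi) * (x + n) := by linarith
    exact mul_left_cancel₀ hpi h2
  · rintro ⟨n, rfl⟩
    exact ⟨n, by push_cast; ring⟩

theorem ex_arg (Z : ℂ) : (‖Z‖ : ℂ) * ex (Complex.arg Z / (2 * Real.pi)) = Z := by
  unfold ex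
  have hpi : (2 * Real.pi : ℝ) ≠ 0 := by positivity
  rw [mul_div_cancel₀ _ hpi]
  exact Complex.norm_mul_exp_arg_mul_I Z

theorem exists_polar {Z : ℂ} : ∃ u : ℝ, Z = ‖Z‖ * ex u :=
  ⟨_, (ex_arg Z).symm⟩

/-- `thc x - x` -/
noncomputable def TwM_P (x : ℝ) : ℝ := thc x - x

theorem TwM_P_smooth : ContDiff ℝ ∞ TwM_P := thc_smooth.sub contDiff_id

theorem TwM_P_add_int (x : ℝ) (n : ℤ) : TwM_P (x + n) = TwM_P x := by
  unfold TwM_P
  rw [thc_add_int]
  ring

theorem TwM_P_ex {x y : ℝ} (h : ex x = ex y) : TwM_P x = TwM_P y := by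
  obtain ⟨n, rfl⟩ := ex_eq_iff.1 h
  rw [TwM_P_add_int]

theorem TwM_twc_eq (Z : ℂ) : twc Z = TwM_P (Complex.arg Z / (2 * Real.pi)) * stp (1 / 32) (1 / 16) ‖Z‖ :=
  rfl

theorem twc_zero {Z : ℂ} (h : ‖Z‖ ≤ 1 / 32) : twc Z = 0 := by
  rw [TwM_twc_eq, stp_zero (by norm_num) h, mul_zero]

theorem twc_ex {s u : ℝ} (hs : 0 < s) :
    twc (s * ex u) = (thc u - u) * stp (1 / 32) (1 / 16) s := by
  have hn : ‖(s : ℂ) * ex u‖ = s := by
    rw [norm_mul, ex_norm, mul_one, Complex.norm_real, Real.norm_of_nonneg hs.le]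
  have h := ex_arg ((s : ℂ) * ex u)
  rw [hn] at h
  have hs' : (s : ℂ) ≠ 0 := by exact_mod_cast hs.ne'
  have h2 := mul_left_cancel₀ hs' h
  rw [TwM_twc_eq, hn, TwM_P_ex h2]
  rfl

theorem twc_big {s u : ℝ} (hs : 1 / 16 ≤ s) : twc (s * ex u) = thc u - u := by
  rw [twc_ex (by linarith), stp_one (by norm_num) hs, mul_one]

theorem TwM_arg {Z : ℂ} (h : Z ∈ Complex.slitPlane) : ContDiffAt ℝ ∞ Complex.arg Z := by
  have h1 : ContDiffAt ℝ ∞ Complex.log Z := (Complex.contDiffAt_log (n := ∞) h).restrict_scalars ℝ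
  have h2 : ContDiffAt ℝ ∞ (fun z => Complex.imCLM (Complex.log z)) Z :=
    Complex.imCLM.contDiff.contDiffAt.comp Z h1
  have e : (fun z => Complex.imCLM (Complex.log z)) = Complex.arg := by
    funext z
    simp [Complex.log_im]
  rwa [e] at h2

theorem TwM_P_arg {Z : ℂ} (hZ : Z ≠ 0) :
    ContDiffAt ℝ ∞ (fun z => TwM_P (Complex.arg z / (2 * Real.pi))) Z := by
  by_cases h : Z ∈ Complex.slitPlane
  · exact TwM_P_smooth.contDiffAt.comp Z ((TwM_arg h).div_const _)
  · have h' : -Z ∈ Complex.slitPlane := by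
      rw [Complex.mem_slitPlane_iff] at h ⊢
      push Not at h
      left
      have h0 : Z.re ≠ 0 := by
        intro h0
        exact hZ (Complex.ext h0 h.2)
      have h1 : Z.re < 0 := lt_of_le_of_ne h.1 h0
      simpa using h1
    have h2 : ContDiffAt ℝ ∞ (fun z : ℂ => Complex.arg (-z)) Z :=
      (TwM_arg h').comp Z contDiff_neg.contDiffAt
    have h3 : ContDiffAt ℝ ∞ (fun z : ℂ => TwM_P (Complex.arg (-z) / (2 * Real.pi) + 1 / 2)) Z :=
      TwM_P_smooth.contDiffAt.comp Z ((h2.div_const _).add contDiffAt_const)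
    apply h3.congr_of_eventuallyEq
    filter_upwards [isOpen_ne.mem_nhds hZ] with z hz
    apply TwM_P_ex
    have e1 := ex_arg z
    have e2 := ex_arg (-z)
    rw [norm_neg] at e2
    have hz' : (‖z‖ : ℂ) ≠ 0 := by
      have := norm_ne_zero_iff.2 hz
      exact_mod_cast this
    rw [ex_add]
    have e3 : ex (1 / 2) = -1 := by
      unfold ex
      rw [show (2 * Real.pi * (1 / 2) : ℝ) = Real.pi by ring]
      exact Complex.exp_pi_mul_I
    rw [e3]
    apply mul_left_cancel₀ hz'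
    rw [e1, ← mul_assoc, e2]
    ring

theorem twc_smooth : ContDiff ℝ ∞ twc := by
  rw [contDiff_iff_contDiffAt]
  intro Z
  by_cases hZ : ‖Z‖ < 1 / 32
  · have h0 : ContDiffAt ℝ ∞ (fun _ : ℂ => (0 : ℝ)) Z := contDiffAt_const
    apply h0.congr_of_eventuallyEq
    have : {z : ℂ | ‖z‖ < 1 / 32} ∈ 𝓝 Z := (isOpen_lt continuous_norm continuous_const).mem_nhds hZ
    filter_upwards [this] with z hz
    exact twc_zero (le_of_lt hz)
  · have hZ0 : Z ≠ 0 := by
      rintro rfl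
      apply hZ
      norm_num
    have h1 : ContDiffAt ℝ ∞ (fun z : ℂ => stp (1 / 32) (1 / 16) ‖z‖) Z :=
      (stp_smooth _ _).contDiffAt.comp Z (contDiffAt_norm ℝ hZ0)
    exact (TwM_P_arg hZ0).mul h1

end Pool.Agent.TS
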