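import Pool.Agent.TS.Fn
import Pool.Agent.CSG.LD

/-!
# TS/NrB: the euclidean norm `nr` of `R3 = ℝ × ℂ` and inverse stereographic projection `st`
Elementary.  `nr X ^ 2 = X.1 ^ 2 + ‖X.2‖ ^ 2`.
`polar_ld`: `(l, v) ↦ l • st v` has the smooth left inverse `X ↦ (nr X, X.2 / (nr X + X.1))`.
-/

open scoped Manifold ContDiff Topology
open Complex (I)
open Set Filter

namespace Pool.Agent.TS
open Pool.Agent.CSG

theorem nr_nonneg (X : R3) : 0 ≤ nr X := Real.sqrt_nonneg _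

theorem nr_sq (X : R3) : nr X ^ 2 = X.1 ^ 2 + ‖X.2‖ ^ 2 := Real.sq_sqrt (by positivity)

theorem nr_eq_zero {X : R3} : nr X = 0 ↔ X = 0 := by
  constructor
  · intro h
    have h1 := nr_sq X
    rw [h] at h1
    have h2 : X.1 ^ 2 = 0 := by nlinarith [sq_nonneg X.1, sq_nonneg ‖X.2‖]
    have h3 : ‖X.2‖ ^ 2 = 0 := by nlinarith [sq_nonneg X.1, sq_nonneg ‖X.2‖]
    have h4 : X.1 = 0 := pow_eq_zero_iff (two_ne_zero) |>.1 h2
    have h5 : X.2 = 0 := norm_eq_zero.1 (pow_eq_zero_iff (two_ne_zero) |>.1 h3)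
    exact Prod.ext h4 h5
  · rintro rfl
    simp [nr]

theorem nr_pos {X : R3} : 0 < nr X ↔ X ≠ 0 := by
  rw [lt_iff_le_and_ne]
  constructor
  · rintro ⟨_, h⟩ h0
    exact h (nr_eq_zero.2 h0).symm
  · intro h
    exact ⟨nr_nonneg X, fun h0 => h (nr_eq_zero.1 h0.symm)⟩

theorem nr_smul {l : ℝ} (hl : 0 ≤ l) (X : R3) : nr (l • X) = l * nr X := by
  unfold nr
  rw [Prod.smul_fst, Prod.smul_snd, norm_smul, smul_eq_mul, Real.norm_eq_abs, abs_of_nonneg hl]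
  rw [show (l * X.1) ^ 2 + (l * ‖X.2‖) ^ 2 = l ^ 2 * (X.1 ^ 2 + ‖X.2‖ ^ 2) by ring,
    Real.sqrt_mul (sq_nonneg l), Real.sqrt_sq hl]

theorem abs_fst_le_nr (X : R3) : |X.1| ≤ nr X :=
  Real.abs_le_sqrt (by nlinarith [sq_nonneg ‖X.2‖])

theorem norm_snd_le_nr (X : R3) : ‖X.2‖ ≤ nr X :=
  Real.le_sqrt_of_sq_le (by nlinarith [sq_nonneg X.1])

theorem norm_le_nr (X : R3) : ‖X‖ ≤ nr X := by
  rw [Prod.norm_def]
  exact max_le (by rw [Real.norm_eq_abs]; exact abs_fst_le_nr X) (norm_snd_le_nr X)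

theorem nr_le_norm (X : R3) : nr X ≤ 2 * ‖X‖ := by
  have h1 : |X.1| ≤ ‖X‖ := by rw [← Real.norm_eq_abs]; exact norm_fst_le X
  have h2 : ‖X.2‖ ≤ ‖X‖ := norm_snd_le X
  have h3 : X.1 ^ 2 ≤ ‖X‖ ^ 2 := by rw [← sq_abs]; exact pow_le_pow_left₀ (abs_nonneg _) h1 2
  have h4 : ‖X.2‖ ^ 2 ≤ ‖X‖ ^ 2 := pow_le_pow_left₀ (norm_nonneg _) h2 2
  refine Real.sqrt_le_iff.2 ⟨by positivity, ?_⟩
  nlinarith [sq_nonneg ‖X‖]

theorem nr_continuous : Continuous nr := by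
  unfold nr
  fun_prop

theorem NrB_smooth_sq : ContDiff ℝ ∞ fun X : R3 => X.1 ^ 2 + ‖X.2‖ ^ 2 :=
  (contDiff_fst.pow 2).add (contDiff_snd.norm_sq ℝ)

theorem nr_smoothAt {X : R3} (h : X ≠ 0) : ContDiffAt ℝ ∞ nr X := by
  have h1 : (fun X : R3 => X.1 ^ 2 + ‖X.2‖ ^ 2) X ≠ 0 := by
    show X.1 ^ 2 + ‖X.2‖ ^ 2 ≠ 0
    rw [← nr_sq]
    exact pow_ne_zero 2 (nr_pos.2 h).ne'
  exact (NrB_smooth_sq.contDiffAt).sqrt h1

theorem nr_sq_smooth : ContDiff ℝ ∞ fun X : R3 => nr X ^ 2 := by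
  have h : (fun X : R3 => nr X ^ 2) = fun X : R3 => X.1 ^ 2 + ‖X.2‖ ^ 2 := funext nr_sq
  rw [h]
  exact NrB_smooth_sq

/-- `nr X ^ 2` in terms of the coordinates `zc X` and `X.2.re` -/
theorem nr_sq' (X : R3) : nr X ^ 2 = ‖zc X‖ ^ 2 + X.2.re ^ 2 := by
  rw [nr_sq, Complex.sq_norm, Complex.sq_norm, Complex.normSq_apply, Complex.normSq_apply]
  unfold zc
  ring

theorem nr_add_pos {X : R3} (h : X.2 ≠ 0 ∨ 0 < X.1) : 0 < nr X + X.1 := by
  rcases h with h | h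
  · have h1 : 0 < ‖X.2‖ := norm_pos_iff.2 h
    have h2 := nr_sq X
    have h3 := nr_nonneg X
    by_contra h4
    push Not at h4
    nlinarith [sq_nonneg ‖X.2‖, mul_pos h1 h1]
  · have := nr_nonneg X
    linarith

theorem NrB_st_eq (v : ℂ) : st v = (1 + ‖v‖ ^ 2)⁻¹ • ((1 - ‖v‖ ^ 2, 2 * v) : R3) := rfl

theorem NrB_st_fst (v : ℂ) : (st v).1 = (1 - ‖v‖ ^ 2) / (1 + ‖v‖ ^ 2) := by
  rw [NrB_st_eq, Prod.smul_fst, smul_eq_mul, inv_mul_eq_div]

theorem NrB_st_snd (v : ℂ) : (st v).2 = (((1 + ‖v‖ ^ 2)⁻¹ : ℝ) : ℂ) * (2 * v) := by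
  rw [NrB_st_eq, Prod.smul_snd, Complex.real_smul]

theorem nr_st (v : ℂ) : nr (st v) = 1 := by
  have h0 : (0 : ℝ) < 1 + ‖v‖ ^ 2 := by positivity
  rw [NrB_st_eq, nr_smul (inv_nonneg.2 h0.le)]
  have h1 : nr ((1 - ‖v‖ ^ 2, 2 * v) : R3) = 1 + ‖v‖ ^ 2 := by
    unfold nr
    rw [show ((1 - ‖v‖ ^ 2, 2 * v) : R3).1 ^ 2 + ‖((1 - ‖v‖ ^ 2, 2 * v) : R3).2‖ ^ 2 =
      (1 + ‖v‖ ^ 2) ^ 2 from ?_, Real.sqrt_sq h0.le]
    simp only [norm_mul, Complex.norm_ofNat]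
    ring
  rw [h1, inv_mul_cancel₀ h0.ne']

theorem st_smooth : ContDiff ℝ ∞ st := by
  unfold st
  have h1 : ContDiff ℝ ∞ fun v : ℂ => ‖v‖ ^ 2 := contDiff_norm_sq ℝ
  refine ContDiff.smul (ContDiff.inv (contDiff_const.add h1) fun v => ?_)
    ((contDiff_const.sub h1).prodMk (contDiff_const.mul contDiff_id))
  positivity

/-- the coordinate of a point `l • st v` -/
theorem st_coord {l : ℝ} (hl : 0 < l) (v : ℂ) :
    (l • st v).2 / ((nr (l • st v) + (l • st v).1 : ℝ) : ℂ) = v := by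
  have h0 : (0 : ℝ) < 1 + ‖v‖ ^ 2 := by positivity
  rw [nr_smul hl.le, nr_st, Prod.smul_fst, Prod.smul_snd, NrB_st_fst, NrB_st_snd,
    Complex.real_smul, smul_eq_mul]
  have h1 : l * 1 + l * ((1 - ‖v‖ ^ 2) / (1 + ‖v‖ ^ 2)) = 2 * l * (1 + ‖v‖ ^ 2)⁻¹ := by
    field_simp
    ring
  rw [h1]
  have h2 : ((2 * l * (1 + ‖v‖ ^ 2)⁻¹ : ℝ) : ℂ) ≠ 0 := by
    rw [Complex.ofReal_ne_zero]
    positivity
  rw [div_eq_iff h2]
  push_cast
  ring

theorem st_inj {v w : ℂ} (h : st v = st w) : v = w := by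
  have h1 := st_coord one_pos v
  have h2 := st_coord one_pos w
  rw [← h1, ← h2, h]

/-- every point off the negative axis is `nr X • st v` -/
theorem eq_st {X : R3} (h : 0 < nr X + X.1) : X = nr X • st (X.2 / ((nr X + X.1 : ℝ) : ℂ)) := by
  have hX : X ≠ 0 := by
    rintro rfl
    rw [nr_eq_zero.2 rfl] at h
    simp at h
  have hn : 0 < nr X := nr_pos.2 hX
  have hs := nr_sq X
  set D := nr X + X.1 with hD
  have hv : ‖X.2 / ((D : ℝ) : ℂ)‖ ^ 2 = (nr X - X.1) / D := by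
    rw [norm_div, Complex.norm_real, Real.norm_eq_abs, abs_of_pos h, div_pow,
      div_eq_div_iff (by positivity) h.ne']
    have : ‖X.2‖ ^ 2 = (nr X - X.1) * D := by rw [hD]; linear_combination -hs
    rw [this]
    ring
  have h1 : 1 + (nr X - X.1) / D = 2 * nr X / D := by
    field_simp
    rw [hD]; ring
  have h2 : 1 - (nr X - X.1) / D = 2 * X.1 / D := by
    field_simp
    rw [hD]; ring
  apply Prod.ext
  · rw [Prod.smul_fst, NrB_st_fst, hv, h1, h2, smul_eq_mul]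
    field_simp
  · rw [Prod.smul_snd, NrB_st_snd, hv, h1, Complex.real_smul]
    have hn' : ((nr X : ℝ) : ℂ) ≠ 0 := Complex.ofReal_ne_zero.2 hn.ne'
    have hD' : ((D : ℝ) : ℂ) ≠ 0 := Complex.ofReal_ne_zero.2 h.ne'
    push_cast
    field_simp

theorem exists_st {E : R3} (h : nr E = 1) (h1 : E.1 ≠ -1) : ∃ v, E = st v := by
  have h2 := abs_fst_le_nr E
  rw [h, abs_le] at h2
  have h3 : 0 < nr E + E.1 := by
    rw [h]
    have : -1 < E.1 := lt_of_le_of_ne h2.1 (Ne.symm h1)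
    linarith
  have h4 := eq_st h3
  rw [h, one_smul] at h4
  exact ⟨_, h4⟩

theorem st_fst_ne (v : ℂ) : -1 < (st v).1 := by
  rw [NrB_st_fst, lt_div_iff₀ (by positivity)]
  nlinarith

/-- `(st v).1 ≤ (1 - c ^ 2) / (1 + c ^ 2) ↔ c ≤ ‖v‖` -/
theorem st_fst_le {c : ℝ} (hc : 0 ≤ c) (v : ℂ) :
    (st v).1 ≤ (1 - c ^ 2) / (1 + c ^ 2) ↔ c ≤ ‖v‖ := by
  rw [NrB_st_fst, div_le_div_iff₀ (by positivity) (by positivity),
    ← pow_le_pow_iff_left₀ hc (norm_nonneg v) two_ne_zero]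
  constructor
  · intro h; nlinarith
  · intro h; nlinarith

/-- left inverse lemma: a smooth map with a differentiable local left inverse between spaces of
the same dimension is a local diffeomorphism. -/
theorem ld_of_leftInv {V W : Type*} [NormedAddCommGroup V] [NormedSpace ℝ V] [FiniteDimensional ℝ V]
    [NormedAddCommGroup W] [NormedSpace ℝ W] [FiniteDimensional ℝ W]
    (hdim : Module.finrank ℝ V = Module.finrank ℝ W) {f : V → W} {g : W → V} {x : V}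
    (hf : ∀ᶠ y in 𝓝 x, ContDiffAt ℝ ∞ f y) (hg : DifferentiableAt ℝ g (f x))
    (h : ∀ᶠ y in 𝓝 x, g (f y) = y) : IsLocalDiffeomorphAt 𝓘(ℝ, V) 𝓘(ℝ, W) ∞ f x := by
  refine ld_of_fderiv hf hdim fun v hv => ?_
  have hfx : DifferentiableAt ℝ f x := hf.self_of_nhds.differentiableAt (by simp)
  have h1 : HasFDerivAt (fun y => g (f y)) ((fderiv ℝ g (f x)).comp (fderiv ℝ f x)) x :=
    hg.hasFDerivAt.comp x hfx.hasFDerivAt
  have h2 : HasFDerivAt (fun y : V => y) ((fderiv ℝ g (f x)).comp (fderiv ℝ f x)) x :=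
    h1.congr_of_eventuallyEq (by filter_upwards [h] with y hy using hy.symm)
  have h3 := h2.unique (hasFDerivAt_id x)
  have h4 := congrArg (fun L : V →L[ℝ] V => L v) h3
  simp only [ContinuousLinearMap.comp_apply, hv, map_zero, ContinuousLinearMap.id_apply] at h4
  exact h4.symm

theorem polar_ld {l : ℝ} (hl : 0 < l) (v : ℂ) :
    IsLocalDiffeomorphAt 𝓘(ℝ, ℝ × ℂ) 𝓘(ℝ, R3) ∞ (fun a : ℝ × ℂ => a.1 • st a.2) (l, v) := by
  have hsm : ContDiff ℝ ∞ (fun a : ℝ × ℂ => a.1 • st a.2) :=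
    contDiff_fst.smul (st_smooth.comp contDiff_snd)
  have hne : l • st v ≠ 0 := by
    rw [← nr_pos, nr_smul hl.le, nr_st]
    linarith
  have hpos : 0 < nr (l • st v) + (l • st v).1 := by
    rw [nr_smul hl.le, nr_st, Prod.smul_fst, smul_eq_mul]
    have := st_fst_ne v
    nlinarith
  have hdn : DifferentiableAt ℝ nr (l • st v) := (nr_smoothAt hne).differentiableAt (by simp)
  refine ld_of_leftInv rfl (g := fun X : R3 => ((nr X, X.2 / ((nr X + X.1 : ℝ) : ℂ)) : ℝ × ℂ))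
    (Eventually.of_forall fun y => hsm.contDiffAt) ?_ ?_
  · show DifferentiableAt ℝ (fun X : R3 => ((nr X, X.2 / ((nr X + X.1 : ℝ) : ℂ)) : ℝ × ℂ)) (l • st v)
    have hc : DifferentiableAt ℝ (fun X : R3 => ((nr X + X.1 : ℝ) : ℂ)) (l • st v) :=
      Complex.ofRealCLM.differentiableAt.comp (l • st v) (hdn.add differentiableAt_fst)
    have hi : DifferentiableAt ℝ (fun X : R3 => (((nr X + X.1 : ℝ) : ℂ))⁻¹) (l • st v) :=
      hc.inv (Complex.ofReal_ne_zero.2 hpos.ne')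
    have hm : DifferentiableAt ℝ (fun X : R3 => X.2 * (((nr X + X.1 : ℝ) : ℂ))⁻¹) (l • st v) :=
      differentiableAt_snd.mul hi
    simp only [div_eq_mul_inv]
    exact hdn.prodMk hm
  · have hev : ∀ᶠ y : ℝ × ℂ in 𝓝 (l, v), 0 < y.1 :=
      continuous_fst.continuousAt.eventually (lt_mem_nhds hl)
    filter_upwards [hev] with y hy
    apply Prod.ext
    · show nr (y.1 • st y.2) = y.1
      rw [nr_smul hy.le, nr_st, mul_one]
    · exact st_coord hy y.2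

end Pool.Agent.TS
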