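import Pool.Agent.TS.BDef
import Pool.Agent.TS.NrB
import Pool.Agent.TS.TwM
import Pool.Agent.CSG.LD

/-!
# TS/SphM: charts of `S2` and polar coordinates
`polS_ld`: `S2 × (0, ∞) → E3`, `(Y, s) ↦ s Y`, smooth with smooth inverse `z ↦ (sdir z, ‖z‖)` on `z ≠ 0`
(smoothness of maps into the sphere: `ContMDiff.codRestrict_sphere`; see `TRF`/`CSG.SFrame`, `CSG.Radial` for similar
arguments).
`sdir_ld`: `(w, s) ↦ s • g w` is a local diffeomorphism at `(v, 1)` (`ld_of_fderiv`; derivative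
`(w, c) ↦ Dg w + c g v` injective), it equals `polS` composed with `(w, s) ↦ (sdir (g w), s ‖g w‖)`; or: `sdir ∘ g` is
smooth between manifolds of dimension 2 with injective derivative.
The formulas are direct: `‖pt (-sg) ν.re ν.im‖ = √(1 + ‖ν‖^2)`, `‖pt (-σ) (cos) (sin)‖ = √(1 + σ^2)`.
-/

open scoped Manifold ContDiff Topology
open Complex (I)
open Set Filter

namespace Pool.Agent.TS
open Pool.Agent.CSG

theorem SphM_fact : Fact (Module.finrank ℝ E3 = 2 + 1) := ⟨finrank_euclideanSpace_fin⟩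

theorem SphM_coe {z : E3} (hz : z ≠ 0) : ((sdir z : S2) : E3) = ‖z‖⁻¹ • z := by
  unfold sdir
  rw [dif_neg hz]

theorem SphM_sdir_coe (Y : S2) {s : ℝ} (hs : 0 < s) : sdir (s • (Y : E3)) = Y := by
  have hn : ‖(Y : E3)‖ = 1 := by simp
  have hY : (Y : E3) ≠ 0 := by
    intro h
    rw [h, norm_zero] at hn
    exact zero_ne_one hn
  apply Subtype.ext
  rw [SphM_coe (smul_ne_zero hs.ne' hY), norm_smul, hn, mul_one, Real.norm_of_nonneg hs.le,
    smul_smul, inv_mul_cancel₀ hs.ne', one_smul]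

theorem SphM_sdir_smul (z : E3) : ‖z‖ • ((sdir z : S2) : E3) = z := by
  rcases eq_or_ne z 0 with h | h
  · rw [h, norm_zero, zero_smul]
  · rw [SphM_coe h, smul_smul, mul_inv_cancel₀ (norm_ne_zero_iff.2 h), one_smul]

/-- smoothness of `sdir` off the origin -/
theorem SphM_sdir_smooth {z : E3} (hz : z ≠ 0) : ContMDiffAt 𝓘(ℝ, E3) (𝓡 2) ∞ sdir z := by
  have hpos : 0 < ‖z‖ := norm_pos_iff.2 hz
  let b : ContDiffBump z := ⟨‖z‖ / 4, ‖z‖ / 2, by positivity, by linarith⟩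
  let g : E3 → E3 := fun x => z + b x • (x - z)
  have hg : ContDiff ℝ ∞ g := by
    have h1 : ContDiff ℝ ∞ (fun x => b x) := b.contDiff
    exact contDiff_const.add (h1.smul (contDiff_id.sub contDiff_const))
  have hg0 : ∀ x, g x ≠ 0 := by
    intro x h
    have h1 : ‖b x • (x - z)‖ = ‖z‖ := by
      have : b x • (x - z) = -z := by
        have h' : z + b x • (x - z) = 0 := h
        exact (eq_neg_of_add_eq_zero_right h')
      rw [this, norm_neg]
    rcases lt_or_ge (dist x z) (‖z‖ / 2) with hx | hx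
    · rw [norm_smul, Real.norm_of_nonneg b.nonneg, ← dist_eq_norm] at h1
      have h2 := b.le_one (x := x)
      have h3 : 0 ≤ dist x z := dist_nonneg
      nlinarith
    · rw [b.zero_of_le_dist hx, zero_smul, norm_zero] at h1
      linarith
  have hG : ContDiff ℝ ∞ fun x => (‖g x‖)⁻¹ • g x := by
    have h3 : ContDiff ℝ ∞ fun x => ‖g x‖ := hg.norm ℝ hg0
    exact (h3.inv fun x => norm_ne_zero_iff.2 (hg0 x)).smul hg
  have hmem : ∀ x, (‖g x‖)⁻¹ • g x ∈ Metric.sphere (0 : E3) 1 := by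
    intro x
    rw [mem_sphere_zero_iff_norm, norm_smul, norm_inv, norm_norm,
      inv_mul_cancel₀ (norm_ne_zero_iff.2 (hg0 x))]
  have := SphM_fact
  have h4 : ContMDiff 𝓘(ℝ, E3) (𝓡 2) ∞
      (Set.codRestrict (fun x => (‖g x‖)⁻¹ • g x) (Metric.sphere (0 : E3) 1) hmem) :=
    ContMDiff.codRestrict_sphere hG.contMDiff hmem
  refine (h4 z).congr_of_eventuallyEq ?_
  have h5 : ∀ᶠ x in 𝓝 z, x ∈ Metric.closedBall z (‖z‖ / 4) :=
    Metric.closedBall_mem_nhds z (by positivity)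
  have h6 : ∀ᶠ x in 𝓝 z, x ≠ 0 := isOpen_ne.mem_nhds hz
  filter_upwards [h5, h6] with x hx hx0
  apply Subtype.ext
  rw [SphM_coe hx0]
  have hb : b x = 1 := b.one_of_mem_closedBall hx
  show _ = (‖g x‖)⁻¹ • g x
  have hgx : g x = x := by
    show z + b x • (x - z) = x
    rw [hb, one_smul, add_sub_cancel]
  rw [hgx]

theorem SphM_val_smooth : ContMDiff (𝓡 2) 𝓘(ℝ, E3) ∞ (fun Y : S2 => (Y : E3)) := by
  have := SphM_fact
  exact contMDiff_coe_sphere

/-- polar coordinates -/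
noncomputable def SphM_pd :
    PartialDiffeomorph ((𝓡 2).prod 𝓘(ℝ, ℝ)) 𝓘(ℝ, E3) (S2 × ℝ) E3 ∞ where
  toFun := fun a => a.2 • (a.1 : E3)
  invFun := fun z => (sdir z, ‖z‖)
  source := {a | 0 < a.2}
  target := {z | z ≠ 0}
  map_source' := by
    rintro ⟨Y, s⟩ hs
    have hn : ‖(Y : E3)‖ = 1 := by simp
    have hY : (Y : E3) ≠ 0 := by
      intro h
      rw [h, norm_zero] at hn
      exact zero_ne_one hn
    have hs' : 0 < s := hs
    exact smul_ne_zero hs'.ne' hY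
  map_target' := fun z hz => norm_pos_iff.2 hz
  left_inv' := by
    rintro ⟨Y, s⟩ hs
    have hs' : 0 < s := hs
    have hn : ‖(Y : E3)‖ = 1 := by simp
    show (sdir (s • (Y : E3)), ‖s • (Y : E3)‖) = (Y, s)
    rw [SphM_sdir_coe Y hs', norm_smul, hn, mul_one, Real.norm_of_nonneg hs'.le]
  right_inv' := fun z _ => SphM_sdir_smul z
  open_source := isOpen_lt continuous_const continuous_snd
  open_target := isOpen_ne
  contMDiffOn_toFun := by
    apply ContMDiff.contMDiffOn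
    exact contMDiff_snd.smul (SphM_val_smooth.comp contMDiff_fst)
  contMDiffOn_invFun := by
    intro z hz
    have h1 : ContMDiffAt 𝓘(ℝ, E3) (𝓡 2) ∞ sdir z := SphM_sdir_smooth hz
    have h2 : ContMDiffAt 𝓘(ℝ, E3) 𝓘(ℝ, ℝ) ∞ (fun z : E3 => ‖z‖) z :=
      (contDiffAt_norm ℝ hz).contMDiffAt
    exact (h1.prodMk h2).contMDiffWithinAt

theorem polS_ld (Y : S2) {s : ℝ} (hs : 0 < s) :
    IsLocalDiffeomorphAt ((𝓡 2).prod 𝓘(ℝ, ℝ)) 𝓘(ℝ, E3) ∞
      (fun a : S2 × ℝ => a.2 • (a.1 : E3)) (Y, s) :=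
  ⟨SphM_pd, hs, fun _ _ => rfl⟩

/-- A smooth map with a smooth local inverse is a local diffeomorphism. -/
theorem SphM_ld_of_inv {V : Type*} [NormedAddCommGroup V] [NormedSpace ℝ V]
    {f : V → S2} {g : S2 → V} {x : V}
    (hf : ∀ᶠ y in 𝓝 x, ContMDiffAt 𝓘(ℝ, V) (𝓡 2) ∞ f y)
    (hg : ∀ᶠ y in 𝓝 (f x), ContMDiffAt (𝓡 2) 𝓘(ℝ, V) ∞ g y)
    (h1 : ∀ᶠ y in 𝓝 x, g (f y) = y) (h2 : ∀ᶠ y in 𝓝 (f x), f (g y) = y) :
    IsLocalDiffeomorphAt 𝓘(ℝ, V) (𝓡 2) ∞ f x := by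
  obtain ⟨U, hUs, hU, hxU⟩ := mem_nhds_iff.1 (hf.and h1)
  obtain ⟨W, hWs, hW, hxW⟩ := mem_nhds_iff.1 (hg.and h2)
  have hfc : ContinuousOn f U := fun y hy => ((hUs hy).1.continuousAt).continuousWithinAt
  have hgc : ContinuousOn g W := fun y hy => ((hWs hy).1.continuousAt).continuousWithinAt
  refine ⟨{ toFun := f
            invFun := g
            source := U ∩ f ⁻¹' W
            target := W ∩ g ⁻¹' U
            map_source' := ?_
            map_target' := ?_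
            left_inv' := ?_
            right_inv' := ?_
            open_source := hfc.isOpen_inter_preimage hU hW
            open_target := hgc.isOpen_inter_preimage hW hU
            contMDiffOn_toFun := ?_
            contMDiffOn_invFun := ?_ }, ⟨hxU, hxW⟩, fun _ _ => rfl⟩
  · rintro y ⟨hy1, hy2⟩
    refine ⟨hy2, ?_⟩
    show g (f y) ∈ U
    rw [(hUs hy1).2]
    exact hy1
  · rintro y ⟨hy1, hy2⟩
    refine ⟨hy2, ?_⟩
    show f (g y) ∈ W
    rw [(hWs hy1).2]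
    exact hy1
  · rintro y ⟨hy1, hy2⟩
    exact (hUs hy1).2
  · rintro y ⟨hy1, hy2⟩
    exact (hWs hy1).2
  · rintro y ⟨hy1, hy2⟩
    exact (hUs hy1).1.contMDiffWithinAt
  · rintro y ⟨hy1, hy2⟩
    exact (hWs hy1).1.contMDiffWithinAt

theorem sdir_ld {V : Type*} [NormedAddCommGroup V] [NormedSpace ℝ V] [FiniteDimensional ℝ V]
    (hdim : Module.finrank ℝ V = 2) {g : V → E3} {v : V} (hg : ∀ᶠ w in 𝓝 v, ContDiffAt ℝ ∞ g w)
    (h0 : g v ≠ 0) (h : ∀ (w : V) (c : ℝ), fderiv ℝ g v w = c • g v → w = 0) :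
    IsLocalDiffeomorphAt 𝓘(ℝ, V) (𝓡 2) ∞ (fun w => sdir (g w)) v := by
  have hgv : ContDiffAt ℝ ∞ g v := hg.self_of_nhds
  have hgd : DifferentiableAt ℝ g v := hgv.differentiableAt (by simp)
  -- the product map
  let F : V × ℝ → E3 := fun a => a.2 • g a.1
  have hF : IsLocalDiffeomorphAt 𝓘(ℝ, V × ℝ) 𝓘(ℝ, E3) ∞ F (v, 1) := by
    apply ld_of_fderiv
    · have h1 : ∀ᶠ a : V × ℝ in 𝓝 (v, 1), ContDiffAt ℝ ∞ g a.1 :=
        (continuous_fst.tendsto (v, (1 : ℝ))).eventually hg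
      filter_upwards [h1] with a ha
      exact contDiffAt_snd.smul (ContDiffAt.comp (f := Prod.fst) a ha contDiffAt_fst)
    · rw [Module.finrank_prod, hdim, Module.finrank_self, finrank_euclideanSpace_fin]
    · rintro ⟨w, c⟩ hw
      have hd : HasFDerivAt F ((1 : ℝ) • ((fderiv ℝ g v).comp (ContinuousLinearMap.fst ℝ V ℝ)) +
          (ContinuousLinearMap.snd ℝ V ℝ).smulRight (g v)) (v, 1) := by
        have e1 : HasFDerivAt (fun a : V × ℝ => a.2) (ContinuousLinearMap.snd ℝ V ℝ) (v, 1) :=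
          hasFDerivAt_snd
        have e2 : HasFDerivAt (fun a : V × ℝ => g a.1)
            ((fderiv ℝ g v).comp (ContinuousLinearMap.fst ℝ V ℝ)) (v, 1) := by
          have e3 : HasFDerivAt g (fderiv ℝ g v) ((v, (1 : ℝ)).1) := hgd.hasFDerivAt
          exact e3.comp (v, (1 : ℝ)) hasFDerivAt_fst
        exact e1.smul e2
      rw [hd.fderiv] at hw
      have hw' : fderiv ℝ g v w + c • g v = 0 := by
        simpa using hw
      have h2 : fderiv ℝ g v w = (-c) • g v := by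
        rw [neg_smul]
        exact eq_neg_of_add_eq_zero_left hw'
      have h3 := h w (-c) h2
      rw [h3, map_zero, zero_add] at hw'
      have h4 : c = 0 := by
        rcases smul_eq_zero.1 hw' with h5 | h5
        · exact h5
        · exact absurd h5 h0
      rw [h3, h4]
      rfl
  obtain ⟨Φ, hΦ, heq⟩ := hF
  -- local inverse
  let i₀ : S2 → V := fun Y => (Φ.symm (‖g v‖ • (Y : E3))).1
  have hn0 : 0 < ‖g v‖ := norm_pos_iff.2 h0
  have hcF : (Φ : V × ℝ → E3) (v, 1) = g v := by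
    rw [← heq hΦ]
    show (1 : ℝ) • g v = g v
    rw [one_smul]
  have hgt : g v ∈ Φ.target := by
    rw [← hcF]
    exact Φ.map_source hΦ
  have hsv : ‖g v‖ • ((sdir (g v) : S2) : E3) = g v := SphM_sdir_smul _
  have hcont : Continuous fun Y : S2 => ‖g v‖ • (Y : E3) := by
    have h1 : Continuous fun Y : S2 => (Y : E3) := continuous_subtype_val
    exact h1.const_smul ‖g v‖
  have hev1 : ∀ᶠ Y : S2 in 𝓝 (sdir (g v)), ‖g v‖ • (Y : E3) ∈ Φ.target := by
    apply hcont.continuousAt.eventually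
    show Φ.target ∈ 𝓝 (‖g v‖ • ((sdir (g v) : S2) : E3))
    rw [hsv]
    exact Φ.open_target.mem_nhds hgt
  have hΦs : Φ.symm (g v) = (v, 1) := by
    rw [← hcF]
    exact Φ.left_inv hΦ
  have hgcont : ContinuousAt g v := hgv.continuousAt
  apply SphM_ld_of_inv (g := i₀)
  · -- smoothness
    have h1 : ∀ᶠ w in 𝓝 v, g w ≠ 0 := hgcont.eventually (isOpen_ne.mem_nhds h0)
    filter_upwards [hg, h1] with w hw hw0
    exact (SphM_sdir_smooth hw0).comp w hw.contMDiffAt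
  · -- smoothness of the inverse
    filter_upwards [hev1] with Y hY
    have e1 : ContMDiffAt 𝓘(ℝ, E3) 𝓘(ℝ, V × ℝ) ∞ Φ.symm (‖g v‖ • (Y : E3)) :=
      (Φ.contMDiffOn_invFun _ hY).contMDiffAt (Φ.open_target.mem_nhds hY)
    have e2 : ContMDiff (𝓡 2) 𝓘(ℝ, E3) ∞ (fun Y : S2 => ‖g v‖ • (Y : E3)) := by
      have e20 : ContMDiff 𝓘(ℝ, E3) 𝓘(ℝ, E3) ∞ (fun x : E3 => ‖g v‖ • x) :=
        (contDiff_id.const_smul ‖g v‖).contMDiff
      exact e20.comp SphM_val_smooth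
    have e3 : ContMDiff 𝓘(ℝ, V × ℝ) 𝓘(ℝ, V) ∞ (Prod.fst : V × ℝ → V) := contDiff_fst.contMDiff
    have e4 := ContMDiffAt.comp Y e1 (e2 Y)
    exact (e3 _).comp Y e4
  · -- left inverse
    have h1 : ∀ᶠ w in 𝓝 v, g w ≠ 0 := hgcont.eventually (isOpen_ne.mem_nhds h0)
    have hc2 : ContinuousAt (fun w => ((w, ‖g v‖ / ‖g w‖) : V × ℝ)) v := by
      apply continuousAt_id.prodMk
      exact continuousAt_const.div hgcont.norm hn0.ne'
    have h2 : ∀ᶠ w in 𝓝 v, ((w, ‖g v‖ / ‖g w‖) : V × ℝ) ∈ Φ.source := by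
      apply hc2.eventually
      show Φ.source ∈ 𝓝 ((v, ‖g v‖ / ‖g v‖) : V × ℝ)
      rw [div_self hn0.ne']
      exact Φ.open_source.mem_nhds hΦ
    filter_upwards [h1, h2] with w hw0 hw
    show (Φ.symm (‖g v‖ • ((sdir (g w) : S2) : E3))).1 = w
    have e : ‖g v‖ • ((sdir (g w) : S2) : E3) = Φ (w, ‖g v‖ / ‖g w‖) := by
      rw [← heq hw]
      show _ = (‖g v‖ / ‖g w‖) • g w
      rw [SphM_coe hw0, smul_smul, div_eq_mul_inv]
    rw [e]
    have := Φ.left_inv hw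
    exact congrArg Prod.fst this
  · -- right inverse
    have hc3 : ContinuousAt (fun Y : S2 => (Φ.symm (‖g v‖ • (Y : E3))).2) (sdir (g v)) := by
      apply continuous_snd.continuousAt.comp
      apply ContinuousAt.comp (g := Φ.symm)
      · rw [hsv]
        exact (Φ.contMDiffOn_invFun.continuousOn).continuousAt (Φ.open_target.mem_nhds hgt)
      · exact hcont.continuousAt
    have hev2 : ∀ᶠ Y : S2 in 𝓝 (sdir (g v)), 0 < (Φ.symm (‖g v‖ • (Y : E3))).2 := by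
      apply hc3.eventually
      show Ioi (0 : ℝ) ∈ 𝓝 ((Φ.symm (‖g v‖ • ((sdir (g v) : S2) : E3))).2)
      rw [hsv, hΦs]
      exact Ioi_mem_nhds one_pos
    filter_upwards [hev1, hev2] with Y hY hY2
    set a := Φ.symm (‖g v‖ • (Y : E3)) with ha
    have e1 : Φ a = ‖g v‖ • (Y : E3) := Φ.right_inv hY
    have hasrc : a ∈ Φ.source := Φ.map_target hY
    have e2 : a.2 • g a.1 = ‖g v‖ • (Y : E3) := by
      rw [← e1, ← heq hasrc]
    show sdir (g (Φ.symm (‖g v‖ • (Y : E3))).1) = Y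
    rw [← ha]
    have e3 : g a.1 = (‖g v‖ / a.2) • (Y : E3) := by
      rw [div_eq_inv_mul, ← smul_smul, ← e2, smul_smul, inv_mul_cancel₀ hY2.ne', one_smul]
    rw [e3]
    exact SphM_sdir_coe Y (div_pos hn0 hY2)

theorem prod_ld_S2 {V : Type*} [NormedAddCommGroup V] [NormedSpace ℝ V] [FiniteDimensional ℝ V]
    {f : V → S2} {v : V} (hf : IsLocalDiffeomorphAt 𝓘(ℝ, V) (𝓡 2) ∞ f v) (ζ : ℂ) :
    IsLocalDiffeomorphAt 𝓘(ℝ, V × ℂ) ((𝓡 2).prod 𝓘(ℝ, ℂ)) ∞
      (fun a : V × ℂ => (f a.1, a.2)) (v, ζ) := by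
  obtain ⟨Φ, hΦ, heq⟩ := hf
  refine ⟨{ toFun := fun a => (Φ a.1, a.2)
            invFun := fun b => (Φ.symm b.1, b.2)
            source := {a | a.1 ∈ Φ.source}
            target := {b | b.1 ∈ Φ.target}
            map_source' := fun a ha => Φ.map_source ha
            map_target' := fun b hb => Φ.map_target hb
            left_inv' := ?_
            right_inv' := ?_
            open_source := Φ.open_source.preimage continuous_fst
            open_target := Φ.open_target.preimage continuous_fst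
            contMDiffOn_toFun := ?_
            contMDiffOn_invFun := ?_ }, hΦ, ?_⟩
  · rintro ⟨a, b⟩ ha
    have h1 : Φ.symm (Φ a) = a := Φ.left_inv ha
    exact Prod.ext h1 rfl
  · rintro ⟨a, b⟩ ha
    have h1 : Φ (Φ.symm a) = a := Φ.right_inv ha
    exact Prod.ext h1 rfl
  · have h1 : ContMDiffOn 𝓘(ℝ, V × ℂ) (𝓡 2) ∞ (fun a : V × ℂ => Φ a.1)
        {a : V × ℂ | a.1 ∈ Φ.source} :=
      Φ.contMDiffOn_toFun.comp (contDiff_fst.contMDiff.contMDiffOn) fun a ha => ha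
    exact h1.prodMk (contDiff_snd.contMDiff.contMDiffOn)
  · have h1 : ContMDiffOn ((𝓡 2).prod 𝓘(ℝ, ℂ)) 𝓘(ℝ, V) ∞ (fun b : S2 × ℂ => Φ.symm b.1)
        {b : S2 × ℂ | b.1 ∈ Φ.target} :=
      Φ.contMDiffOn_invFun.comp (contMDiff_fst.contMDiffOn) fun b hb => hb
    exact h1.prodMk_space contMDiff_snd.contMDiffOn
  · rintro ⟨a, b⟩ ha
    show (f a, b) = (Φ a, b)
    rw [heq ha]

theorem SphM_pt_smooth {V : Type*} [NormedAddCommGroup V] [NormedSpace ℝ V] {a b c : V → ℝ}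
    (ha : ContDiff ℝ ∞ a) (hb : ContDiff ℝ ∞ b) (hc : ContDiff ℝ ∞ c) :
    ContDiff ℝ ∞ fun v => pt (a v) (b v) (c v) := by
  rw [contDiff_euclidean]
  intro i
  fin_cases i
  · simpa using ha
  · simpa using hb
  · simpa using hc

/-- coordinates of the derivative of a map to `E3` -/
theorem SphM_fderiv_coord {V : Type*} [NormedAddCommGroup V] [NormedSpace ℝ V] {g : V → E3}
    {v : V} (hg : DifferentiableAt ℝ g v) (w : V) (i : Fin 3) {f : V → ℝ} {f' : V →L[ℝ] ℝ}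
    (hf : HasFDerivAt f f' v) (hgf : ∀ x, g x i = f x) : (fderiv ℝ g v w) i = f' w := by
  have h1 : HasFDerivAt (fun x => g x i) ((EuclideanSpace.proj i : E3 →L[ℝ] ℝ).comp
      (fderiv ℝ g v)) v :=
    (EuclideanSpace.proj i : E3 →L[ℝ] ℝ).hasFDerivAt.comp v hg.hasFDerivAt
  have h2 : HasFDerivAt (fun x => g x i) f' v := by
    have : (fun x => g x i) = f := funext hgf
    rw [this]
    exact hf
  have h3 := h1.unique h2
  rw [← h3]
  rfl

theorem SphM_sg_ne {sg : ℝ} (hs : sg ^ 2 = 1) : sg ≠ 0 := by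
  rintro rfl
  norm_num at hs

theorem hS_ld {sg : ℝ} (hs : sg ^ 2 = 1) (ν : ℂ) :
    IsLocalDiffeomorphAt 𝓘(ℝ, ℂ) (𝓡 2) ∞ (hS sg) ν := by
  have hsm : ContDiff ℝ ∞ fun w : ℂ => pt (-sg) w.re w.im :=
    SphM_pt_smooth contDiff_const Complex.reCLM.contDiff Complex.imCLM.contDiff
  have hd : DifferentiableAt ℝ (fun w : ℂ => pt (-sg) w.re w.im) ν :=
    hsm.contDiffAt.differentiableAt (by simp)
  apply sdir_ld (g := fun w : ℂ => pt (-sg) w.re w.im) Complex.finrank_real_complex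
  · exact Eventually.of_forall fun w => hsm.contDiffAt
  · intro h
    have := congrArg (fun x : E3 => x 0) h
    simp only [pt_zero', PiLp.zero_apply, neg_eq_zero] at this
    exact SphM_sg_ne hs this
  · intro w c h
    have c0 : (fderiv ℝ (fun w : ℂ => pt (-sg) w.re w.im) ν w) 0 = (0 : ℂ →L[ℝ] ℝ) w :=
      SphM_fderiv_coord hd w 0 (hasFDerivAt_const (-sg) ν) (fun x => by simp)
    have c1 : (fderiv ℝ (fun w : ℂ => pt (-sg) w.re w.im) ν w) 1 = Complex.reCLM w :=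
      SphM_fderiv_coord hd w 1 Complex.reCLM.hasFDerivAt (fun x => by simp)
    have c2 : (fderiv ℝ (fun w : ℂ => pt (-sg) w.re w.im) ν w) 2 = Complex.imCLM w :=
      SphM_fderiv_coord hd w 2 Complex.imCLM.hasFDerivAt (fun x => by simp)
    rw [h] at c0 c1 c2
    simp only [PiLp.smul_apply, pt_zero', pt_one', pt_two', smul_eq_mul,
      _root_.zero_apply, Complex.reCLM_apply, Complex.imCLM_apply] at c0 c1 c2
    have hc : c = 0 := by
      rcases mul_eq_zero.1 c0 with h1 | h1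
      · exact h1
      · exact absurd (neg_eq_zero.1 h1) (SphM_sg_ne hs)
    rw [hc, zero_mul] at c1 c2
    exact Complex.ext c1.symm c2.symm

theorem SphM_cos_smooth : ContDiff ℝ ∞ fun a : ℝ × ℝ => Real.cos (2 * Real.pi * a.1) :=
  Real.contDiff_cos.comp (contDiff_const.mul contDiff_fst)

theorem SphM_sin_smooth : ContDiff ℝ ∞ fun a : ℝ × ℝ => Real.sin (2 * Real.pi * a.1) :=
  Real.contDiff_sin.comp (contDiff_const.mul contDiff_fst)

theorem bS_ld (a : ℝ × ℝ) : IsLocalDiffeomorphAt 𝓘(ℝ, ℝ × ℝ) (𝓡 2) ∞ bS a := by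
  have hsm : ContDiff ℝ ∞ fun a : ℝ × ℝ =>
      pt (-a.2) (Real.cos (2 * Real.pi * a.1)) (Real.sin (2 * Real.pi * a.1)) :=
    SphM_pt_smooth contDiff_snd.neg SphM_cos_smooth SphM_sin_smooth
  have hd : DifferentiableAt ℝ (fun a : ℝ × ℝ =>
      pt (-a.2) (Real.cos (2 * Real.pi * a.1)) (Real.sin (2 * Real.pi * a.1))) a :=
    hsm.contDiffAt.differentiableAt (by simp)
  have hdim : Module.finrank ℝ (ℝ × ℝ) = 2 := by rw [Module.finrank_prod, Module.finrank_self]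
  apply sdir_ld (g := fun a : ℝ × ℝ =>
      pt (-a.2) (Real.cos (2 * Real.pi * a.1)) (Real.sin (2 * Real.pi * a.1))) hdim
  · exact Eventually.of_forall fun w => hsm.contDiffAt
  · intro h
    have h1 := congrArg (fun x : E3 => x 1) h
    have h2 := congrArg (fun x : E3 => x 2) h
    simp only [pt_one', pt_two', PiLp.zero_apply] at h1 h2
    have h3 := Real.sin_sq_add_cos_sq (2 * Real.pi * a.1)
    rw [h1, h2] at h3
    norm_num at h3
  · intro w c h
    have hlin : HasFDerivAt (fun a : ℝ × ℝ => 2 * Real.pi * a.1)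
        ((2 * Real.pi) • ContinuousLinearMap.fst ℝ ℝ ℝ) a := by
      have := (hasFDerivAt_fst (𝕜 := ℝ) (E := ℝ) (F := ℝ) (p := a)).const_mul (2 * Real.pi)
      exact this
    have c0 : (fderiv ℝ (fun a : ℝ × ℝ =>
      pt (-a.2) (Real.cos (2 * Real.pi * a.1)) (Real.sin (2 * Real.pi * a.1))) a w) 0 =
        (-ContinuousLinearMap.snd ℝ ℝ ℝ) w :=
      SphM_fderiv_coord hd w 0 (hasFDerivAt_snd.neg) (fun x => by simp)
    have c1 : (fderiv ℝ (fun a : ℝ × ℝ =>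
      pt (-a.2) (Real.cos (2 * Real.pi * a.1)) (Real.sin (2 * Real.pi * a.1))) a w) 1 =
        ((-Real.sin (2 * Real.pi * a.1)) • ((2 * Real.pi) • ContinuousLinearMap.fst ℝ ℝ ℝ)) w :=
      SphM_fderiv_coord hd w 1 hlin.cos (fun x => by simp)
    have c2 : (fderiv ℝ (fun a : ℝ × ℝ =>
      pt (-a.2) (Real.cos (2 * Real.pi * a.1)) (Real.sin (2 * Real.pi * a.1))) a w) 2 =
        ((Real.cos (2 * Real.pi * a.1)) • ((2 * Real.pi) • ContinuousLinearMap.fst ℝ ℝ ℝ)) w :=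
      SphM_fderiv_coord hd w 2 hlin.sin (fun x => by simp)
    rw [h] at c0 c1 c2
    simp only [PiLp.smul_apply, pt_zero', pt_one', pt_two', smul_eq_mul,
      _root_.neg_apply, _root_.smul_apply,
      ContinuousLinearMap.coe_fst', ContinuousLinearMap.coe_snd'] at c0 c1 c2
    have h3 := Real.sin_sq_add_cos_sq (2 * Real.pi * a.1)
    have hc : c = 0 := by
      have e1 : c * (Real.sin (2 * Real.pi * a.1) ^ 2 + Real.cos (2 * Real.pi * a.1) ^ 2) = 0 := by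
        linear_combination Real.cos (2 * Real.pi * a.1) * c1 + Real.sin (2 * Real.pi * a.1) * c2
      rw [h3, mul_one] at e1
      exact e1
    rw [hc] at c0 c1 c2
    have hw2 : w.2 = 0 := by linarith
    have hw1 : w.1 = 0 := by
      have e2 : 2 * Real.pi * w.1 *
          (Real.sin (2 * Real.pi * a.1) ^ 2 + Real.cos (2 * Real.pi * a.1) ^ 2) = 0 := by
        linear_combination Real.sin (2 * Real.pi * a.1) * c1 - Real.cos (2 * Real.pi * a.1) * c2
      rw [h3, mul_one] at e2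
      rcases mul_eq_zero.1 e2 with e3 | e3
      · exact absurd e3 (by positivity)
      · exact e3
    exact Prod.ext hw1 hw2

theorem SphM_yc_norm (Y : S2) : ‖yc Y‖ ^ 2 = ((Y : E3) 1) ^ 2 + ((Y : E3) 2) ^ 2 := by
  rw [Complex.sq_norm, Complex.normSq_apply]
  simp [yc]
  ring

theorem S2_sq (Y : S2) : ((Y : E3) 0) ^ 2 + ‖yc Y‖ ^ 2 = 1 := by
  have h : ‖(Y : E3)‖ ^ 2 = 1 := by simp
  rw [EuclideanSpace.norm_sq_eq, Fin.sum_univ_three] at h
  simp only [Real.norm_eq_abs, sq_abs] at h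
  rw [SphM_yc_norm]
  linarith

theorem S2_ext {Y Y' : S2} (h : (Y : E3) 0 = (Y' : E3) 0) (h' : yc Y = yc Y') : Y = Y' := by
  apply Subtype.ext
  ext i
  fin_cases i
  · exact h
  · have := congrArg Complex.re h'
    simpa [yc] using this
  · have := congrArg Complex.im h'
    simpa [yc] using this

theorem SphM_pt_norm (x : ℝ) (ν : ℂ) : ‖pt x ν.re ν.im‖ = √(x ^ 2 + ‖ν‖ ^ 2) := by
  rw [EuclideanSpace.norm_eq, Fin.sum_univ_three]
  congr 1
  simp only [pt_zero', pt_one', pt_two', Real.norm_eq_abs, sq_abs]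
  rw [Complex.sq_norm, Complex.normSq_apply]
  ring

/-- general formula -/
theorem SphM_gen {x : ℝ} {ν : ℂ} (h : x ^ 2 + ‖ν‖ ^ 2 ≠ 0) :
    ((sdir (pt x ν.re ν.im) : S2) : E3) 0 = x / √(x ^ 2 + ‖ν‖ ^ 2) ∧
      yc (sdir (pt x ν.re ν.im)) = ν / (√(x ^ 2 + ‖ν‖ ^ 2) : ℂ) := by
  have hne : pt x ν.re ν.im ≠ 0 := by
    intro h1
    apply h
    have h2 := SphM_pt_norm x ν
    rw [h1, norm_zero] at h2
    have h3 := Real.sqrt_eq_zero (by positivity : (0 : ℝ) ≤ x ^ 2 + ‖ν‖ ^ 2)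
    exact h3.1 h2.symm
  unfold yc
  rw [SphM_coe hne, SphM_pt_norm]
  simp only [PiLp.smul_apply, pt_zero', pt_one', pt_two', smul_eq_mul]
  constructor
  · rw [div_eq_inv_mul]
  · rw [div_eq_inv_mul]
    apply Complex.ext
    · simp [← Complex.ofReal_inv]
    · simp [← Complex.ofReal_inv]

theorem hS_zero {sg : ℝ} (hs : sg ^ 2 = 1) (ν : ℂ) :
    ((hS sg ν : S2) : E3) 0 = -sg / √(1 + ‖ν‖ ^ 2) := by
  have h1 : (-sg) ^ 2 = 1 := by rw [neg_sq, hs]
  have h2 := (SphM_gen (x := -sg) (ν := ν) (by rw [h1]; positivity)).1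
  rw [h1] at h2
  exact h2

theorem hS_yc {sg : ℝ} (hs : sg ^ 2 = 1) (ν : ℂ) : yc (hS sg ν) = ν / (√(1 + ‖ν‖ ^ 2) : ℂ) := by
  have h1 : (-sg) ^ 2 = 1 := by rw [neg_sq, hs]
  have h2 := (SphM_gen (x := -sg) (ν := ν) (by rw [h1]; positivity)).2
  rw [h1] at h2
  exact h2

theorem SphM_ex_re (q : ℝ) : (ex q).re = Real.cos (2 * Real.pi * q) := by
  unfold ex
  exact Complex.exp_ofReal_mul_I_re _

theorem SphM_ex_im (q : ℝ) : (ex q).im = Real.sin (2 * Real.pi * q) := by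
  unfold ex
  exact Complex.exp_ofReal_mul_I_im _

theorem SphM_bS (q σ : ℝ) : bS (q, σ) = sdir (pt (-σ) (ex q).re (ex q).im) := by
  rw [SphM_ex_re, SphM_ex_im]
  rfl

theorem bS_zero (q σ : ℝ) : ((bS (q, σ) : S2) : E3) 0 = -σ / √(1 + σ ^ 2) := by
  have h1 : (-σ) ^ 2 + ‖ex q‖ ^ 2 = 1 + σ ^ 2 := by rw [ex_norm]; ring
  have h2 := (SphM_gen (x := -σ) (ν := ex q) (by rw [h1]; positivity)).1
  rw [h1, ← SphM_bS] at h2
  exact h2

theorem bS_yc (q σ : ℝ) : yc (bS (q, σ)) = ex q / (√(1 + σ ^ 2) : ℂ) := by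
  have h1 : (-σ) ^ 2 + ‖ex q‖ ^ 2 = 1 + σ ^ 2 := by rw [ex_norm]; ring
  have h2 := (SphM_gen (x := -σ) (ν := ex q) (by rw [h1]; positivity)).2
  rw [h1, ← SphM_bS] at h2
  exact h2

theorem eq_hS {Y : S2} (h : (Y : E3) 0 ≠ 0) :
    Y = hS (if 0 < (Y : E3) 0 then -1 else 1) (yc Y / ((|(Y : E3) 0| : ℝ) : ℂ)) := by
  set y := (Y : E3) 0 with hy
  have ha : 0 < |y| := abs_pos.2 h
  have hsq : y ^ 2 + ‖yc Y‖ ^ 2 = 1 := S2_sq Y
  have hn : 1 + ‖yc Y / ((|y| : ℝ) : ℂ)‖ ^ 2 = (1 / |y|) ^ 2 := by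
    rw [norm_div, Complex.norm_real, Real.norm_eq_abs, abs_abs]
    field_simp
    rw [sq_abs]
    linarith
  have hr : √(1 + ‖yc Y / ((|y| : ℝ) : ℂ)‖ ^ 2) = 1 / |y| := by
    rw [hn, Real.sqrt_sq (by positivity)]
  have hsg : (if 0 < y then (-1 : ℝ) else 1) ^ 2 = 1 := by split_ifs <;> norm_num
  apply S2_ext
  · rw [hS_zero hsg, hr, ← hy]
    split_ifs with h1
    · rw [abs_of_pos h1]
      field_simp
    · have h2 : y < 0 := lt_of_le_of_ne (not_lt.1 h1) h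
      rw [abs_of_neg h2]
      field_simp
  · rw [hS_yc hsg, hr]
    have h3 : ((|y| : ℝ) : ℂ) ≠ 0 := by exact_mod_cast ha.ne'
    push_cast
    field_simp

theorem SphM_ex_arg {Z : ℂ} (h : Z ≠ 0) :
    ex (Complex.arg Z / (2 * Real.pi)) = Z / ((‖Z‖ : ℝ) : ℂ) := by
  have h1 := ex_arg Z
  have h2 : ((‖Z‖ : ℝ) : ℂ) ≠ 0 := by exact_mod_cast norm_ne_zero_iff.2 h
  rw [eq_div_iff h2, mul_comm]
  exact h1

theorem eq_bS {Y : S2} (h : yc Y ≠ 0) :
    Y = bS (Complex.arg (yc Y) / (2 * Real.pi), -((Y : E3) 0) / ‖yc Y‖) := by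
  have hn : 0 < ‖yc Y‖ := norm_pos_iff.2 h
  have hsq := S2_sq Y
  have h1 : 1 + (-((Y : E3) 0) / ‖yc Y‖) ^ 2 = (1 / ‖yc Y‖) ^ 2 := by
    field_simp
    linarith
  have hr : √(1 + (-((Y : E3) 0) / ‖yc Y‖) ^ 2) = 1 / ‖yc Y‖ := by
    rw [h1, Real.sqrt_sq (by positivity)]
  apply S2_ext
  · rw [bS_zero, hr]
    field_simp
  · rw [bS_yc, hr, SphM_ex_arg h]
    have h3 : ((‖yc Y‖ : ℝ) : ℂ) ≠ 0 := by exact_mod_cast hn.ne'
    push_cast
    field_simp

theorem hS_eq_bS {sg : ℝ} (hs : sg ^ 2 = 1) {x q : ℝ} (hx : 0 < x) :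
    hS sg (x * ex q) = bS (q, sg / x) := by
  have hn : ‖(x : ℂ) * ex q‖ = x := by
    rw [norm_mul, ex_norm, mul_one, Complex.norm_real, Real.norm_of_nonneg hx.le]
  have h1 : 1 + (sg / x) ^ 2 = (√(1 + x ^ 2) / x) ^ 2 := by
    rw [div_pow, div_pow, Real.sq_sqrt (by positivity), hs]
    field_simp
    try ring
  have hp : 0 < √(1 + x ^ 2) := Real.sqrt_pos.2 (by positivity)
  have hr : √(1 + (sg / x) ^ 2) = √(1 + x ^ 2) / x := by
    rw [h1, Real.sqrt_sq (by positivity)]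
  apply S2_ext
  · rw [hS_zero hs, bS_zero, hn, hr]
    field_simp
  · rw [hS_yc hs, bS_yc, hn, hr]
    have h3 : ((√(1 + x ^ 2) : ℝ) : ℂ) ≠ 0 := by exact_mod_cast hp.ne'
    have h4 : (x : ℂ) ≠ 0 := by exact_mod_cast hx.ne'
    push_cast
    field_simp

theorem hS_inj {sg sg' : ℝ} (hs : sg ^ 2 = 1) (hs' : sg' ^ 2 = 1) {ν ν' : ℂ}
    (h : hS sg ν = hS sg' ν') : sg' = sg ∧ ν' = ν := by
  have h0 := congrArg (fun Y : S2 => (Y : E3) 0) h
  have h1 := congrArg yc h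
  simp only at h0
  rw [hS_zero hs, hS_zero hs'] at h0
  rw [hS_yc hs, hS_yc hs'] at h1
  have hp : 0 < √(1 + ‖ν‖ ^ 2) := Real.sqrt_pos.2 (by positivity)
  have hp' : 0 < √(1 + ‖ν'‖ ^ 2) := Real.sqrt_pos.2 (by positivity)
  have hR : √(1 + ‖ν‖ ^ 2) = √(1 + ‖ν'‖ ^ 2) := by
    have e1 : sg * √(1 + ‖ν'‖ ^ 2) = sg' * √(1 + ‖ν‖ ^ 2) := by
      field_simp at h0
      linarith
    have e2 : (√(1 + ‖ν'‖ ^ 2)) ^ 2 = (√(1 + ‖ν‖ ^ 2)) ^ 2 := by
      have e3 : (sg * √(1 + ‖ν'‖ ^ 2)) ^ 2 = (sg' * √(1 + ‖ν‖ ^ 2)) ^ 2 := by rw [e1]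
      rw [mul_pow, mul_pow, hs, hs', one_mul, one_mul] at e3
      exact e3
    exact ((sq_eq_sq₀ hp'.le hp.le).1 e2).symm
  rw [← hR] at h0 h1
  constructor
  · have e1 : -sg = -sg' := by
      field_simp at h0
      linarith
    linarith
  · have h3 : ((√(1 + ‖ν‖ ^ 2) : ℝ) : ℂ) ≠ 0 := by exact_mod_cast hp.ne'
    exact ((div_left_inj' h3).1 h1).symm

theorem bS_per (q σ : ℝ) (n : ℤ) : bS (q + n, σ) = bS (q, σ) := by
  rw [SphM_bS, SphM_bS, ex_add, ex_int, mul_one]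

theorem bS_inj {q q' σ σ' : ℝ} (h : bS (q, σ) = bS (q', σ')) :
    (∃ n : ℤ, q' = q + n) ∧ σ' = σ := by
  have h0 := congrArg (fun Y : S2 => (Y : E3) 0) h
  have h1 := congrArg yc h
  simp only at h0
  rw [bS_zero, bS_zero] at h0
  rw [bS_yc, bS_yc] at h1
  have hp : 0 < √(1 + σ ^ 2) := Real.sqrt_pos.2 (by positivity)
  have hp' : 0 < √(1 + σ' ^ 2) := Real.sqrt_pos.2 (by positivity)
  have h2 := congrArg (fun z : ℂ => ‖z‖) h1
  simp only [norm_div, ex_norm, Complex.norm_real, Real.norm_of_nonneg hp.le,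
    Real.norm_of_nonneg hp'.le] at h2
  have hR : √(1 + σ ^ 2) = √(1 + σ' ^ 2) := by
    field_simp at h2
    linarith
  rw [← hR] at h0 h1
  constructor
  · have h3 : ((√(1 + σ ^ 2) : ℝ) : ℂ) ≠ 0 := by exact_mod_cast hp.ne'
    exact ex_eq_iff.1 ((div_left_inj' h3).1 h1)
  · have e1 : -σ = -σ' := by
      field_simp at h0
      linarith
    linarith

end Pool.Agent.TS
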