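import Pool.Agent.TS.LSG
import Pool.Agent.TS.SphM
import Pool.Agent.CSG.FunBasic

/-!
# TS/OfCoreM: construction of an `LS` from its coordinate map and the two cores
`jK := jKof ε k G cK`, `jT := jTof ε e G cT`.  `glueK`: `arg (s ex t) / 2π = t - n`, `thc (t - n) = thc t - n`, `G_per`
(the point is in `Wd ρ`: second component has norm `< ε`).  `glueT` similar (first component of norm `< 5 ε < ρ`).
`jK_loc` at `ζ ≠ 0`: near the point `jK = G ∘ m`, `m : S2 × ℂ → ℂ × ℂ`, `(Y, s ex t) ↦ ((1/2 + ε s Y₀) + i t,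
ε s ex (k thc t) yc Y)` with a local choice of `t`: composition of `(Y, s ex t) ↦ (s Y, t) ∈ E3 × ℝ` (polar
coordinates of `ℂ` and `polS_ld`) with a local diffeomorphism `E3 × ℝ → ℂ × ℂ` (linear and a rotation).
`jK_inj`: both `ζ = 0`: `cK_inj`; one: `dK` (`Reg_C`); none: `G_inj`: `ε s Y₀ = ε s' Y'₀` (both `< 1/8`), `t' = t + n`,
`s yc Y = s' yc Y'` (rotations equal), norms: `s = s'`.  `jT_loc`, `jT_inj` similar (`Reg_T`).
-/

open scoped Manifold ContDiff Topology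
open Complex (I)
open Set Filter

namespace Pool.Agent.TS
open Pool.Agent.CSG

section
variable {E F E' F' : Type*} [NormedAddCommGroup E] [NormedSpace ℝ E] [NormedAddCommGroup F]
  [NormedSpace ℝ F] [NormedAddCommGroup E'] [NormedSpace ℝ E'] [NormedAddCommGroup F']
  [NormedSpace ℝ F'] {H₁ H₂ H₁' H₂' : Type*} [TopologicalSpace H₁] [TopologicalSpace H₂]
  [TopologicalSpace H₁'] [TopologicalSpace H₂']
  {I₁ : ModelWithCorners ℝ E H₁} {J₁ : ModelWithCorners ℝ F H₂}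
  {I₂ : ModelWithCorners ℝ E' H₁'} {J₂ : ModelWithCorners ℝ F' H₂'}
  {M N M' N' : Type*} [TopologicalSpace M] [TopologicalSpace N] [TopologicalSpace M']
  [TopologicalSpace N'] [ChartedSpace H₁ M] [ChartedSpace H₂ N] [ChartedSpace H₁' M']
  [ChartedSpace H₂' N']

/-- product of local diffeomorphisms -/
theorem OfCoreM_prod {f : M → N} {g : M' → N'} {x : M} {y : M'}
    (hf : IsLocalDiffeomorphAt I₁ J₁ ∞ f x) (hg : IsLocalDiffeomorphAt I₂ J₂ ∞ g y) :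
    IsLocalDiffeomorphAt (I₁.prod I₂) (J₁.prod J₂) ∞ (Prod.map f g) (x, y) := by
  obtain ⟨Φ, hx, hΦ⟩ := hf
  obtain ⟨Ψ, hy, hΨ⟩ := hg
  refine ⟨{ toPartialEquiv := Φ.toPartialEquiv.prod Ψ.toPartialEquiv
            open_source := Φ.open_source.prod Ψ.open_source
            open_target := Φ.open_target.prod Ψ.open_target
            contMDiffOn_toFun := Φ.contMDiffOn_toFun.prodMap Ψ.contMDiffOn_toFun
            contMDiffOn_invFun := Φ.contMDiffOn_invFun.prodMap Ψ.contMDiffOn_invFun },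
    ⟨hx, hy⟩, ?_⟩
  rintro ⟨a, b⟩ ⟨ha, hb⟩
  exact Prod.ext (hΦ ha) (hΨ hb)

/-- product of local diffeomorphisms, target a vector space -/
theorem OfCoreM_prodV {f : M → F} {g : M' → F'} {x : M} {y : M'}
    (hf : IsLocalDiffeomorphAt I₁ 𝓘(ℝ, F) ∞ f x) (hg : IsLocalDiffeomorphAt I₂ 𝓘(ℝ, F') ∞ g y) :
    IsLocalDiffeomorphAt (I₁.prod I₂) 𝓘(ℝ, F × F') ∞ (Prod.map f g) (x, y) := by
  rw [modelWithCornersSelf_prod, ← chartedSpaceSelf_prod]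
  exact OfCoreM_prod hf hg

end

/-! ### local arguments -/

/-- the argument near `c` -/
noncomputable def OfCoreM_larg (c : ℝ) (Z : ℂ) : ℝ := c + Complex.arg (Z * ex (-c)) / (2 * Real.pi)

theorem OfCoreM_arg_ex {θ : ℝ} (h : |θ| < 1 / 2) {s : ℝ} (hs : 0 < s) :
    Complex.arg (s * ex θ) = 2 * Real.pi * θ := by
  have hpi := Real.pi_pos
  rw [abs_lt] at h
  have e : ex θ = Complex.cos ((2 * Real.pi * θ : ℝ)) +
      Complex.sin ((2 * Real.pi * θ : ℝ)) * I := by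
    unfold ex
    exact Complex.exp_mul_I _
  rw [e, Complex.arg_mul_cos_add_sin_mul_I hs]
  constructor <;> nlinarith

theorem OfCoreM_ex_zero : ex 0 = 1 := by simpa using ex_int 0

theorem OfCoreM_ex_ne (x : ℝ) : ex x ≠ 0 := by
  intro h
  have := ex_norm x
  rw [h, norm_zero] at this
  norm_num at this

theorem OfCoreM_mul (c θ s : ℝ) : (s : ℂ) * ex θ * ex (-c) = s * ex (θ - c) := by
  rw [mul_assoc, ← ex_add, sub_eq_add_neg]

theorem OfCoreM_larg_ex {c θ : ℝ} (h : |θ - c| < 1 / 2) {s : ℝ} (hs : 0 < s) :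
    OfCoreM_larg c (s * ex θ) = θ := by
  unfold OfCoreM_larg
  have hpi := Real.pi_pos
  rw [OfCoreM_mul, OfCoreM_arg_ex h hs]
  field_simp
  ring

theorem OfCoreM_ex_larg (c : ℝ) (Z : ℂ) : (‖Z‖ : ℂ) * ex (OfCoreM_larg c Z) = Z := by
  unfold OfCoreM_larg
  have h := ex_arg (Z * ex (-c))
  rw [norm_mul, ex_norm, mul_one] at h
  rw [ex_add, mul_left_comm, h, mul_left_comm, ← ex_add, add_neg_cancel, OfCoreM_ex_zero, mul_one]

theorem OfCoreM_slit {c θ s : ℝ} (h : |θ - c| < 1 / 2) (hs : 0 < s) :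
    (s : ℂ) * ex θ * ex (-c) ∈ Complex.slitPlane := by
  have hpi := Real.pi_pos
  rw [Complex.mem_slitPlane_iff_arg, OfCoreM_mul, OfCoreM_arg_ex h hs]
  rw [abs_lt] at h
  constructor
  · intro h1
    nlinarith
  · exact mul_ne_zero (by exact_mod_cast hs.ne') (OfCoreM_ex_ne _)

theorem OfCoreM_larg_smooth {c : ℝ} {Z : ℂ} (h : Z * ex (-c) ∈ Complex.slitPlane) :
    ContDiffAt ℝ ∞ (OfCoreM_larg c) Z := by
  unfold OfCoreM_larg
  have h1 : ContDiffAt ℝ ∞ (fun Z : ℂ => Z * ex (-c)) Z := contDiffAt_id.mul contDiffAt_const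
  have h2 : ContDiffAt ℝ ∞ Complex.log (Z * ex (-c)) := (Complex.contDiffAt_log h).restrict_scalars ℝ
  have h3 : ContDiffAt ℝ ∞ (fun Z : ℂ => Complex.log (Z * ex (-c))) Z :=
    ContDiffAt.comp (g := Complex.log) (f := fun Z : ℂ => Z * ex (-c)) Z h2 h1
  have h4 : ContDiffAt ℝ ∞ (fun Z : ℂ => (Complex.log (Z * ex (-c))).im) Z :=
    Complex.imCLM.contDiff.contDiffAt.comp Z h3
  simp only [Complex.log_im] at h4
  exact contDiffAt_const.add (h4.div_const _)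

theorem OfCoreM_slit_open (c : ℝ) {Z : ℂ} (h : Z * ex (-c) ∈ Complex.slitPlane) :
    ∀ᶠ W in 𝓝 Z, W * ex (-c) ∈ Complex.slitPlane := by
  have hc : Continuous fun W : ℂ => W * ex (-c) := continuous_id.mul continuous_const
  exact (Complex.isOpen_slitPlane.preimage hc).mem_nhds h

/-- polar coordinates of `ℂ` with a local argument -/
noncomputable def OfCoreM_pol (c : ℝ) (Z : ℂ) : ℝ × ℝ := (‖Z‖, OfCoreM_larg c Z)

theorem OfCoreM_pol_ld {c s : ℝ} (hs : 0 < s) :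
    IsLocalDiffeomorphAt 𝓘(ℝ, ℂ) 𝓘(ℝ, ℝ × ℝ) ∞ (OfCoreM_pol c) (s * ex c) := by
  have hsl : (s : ℂ) * ex c * ex (-c) ∈ Complex.slitPlane := OfCoreM_slit (by simp) hs
  have hne : (s : ℂ) * ex c ≠ 0 := mul_ne_zero (by exact_mod_cast hs.ne') (OfCoreM_ex_ne _)
  refine ld_of_leftInv (g := fun b : ℝ × ℝ => (b.1 : ℂ) * ex b.2) ?_ ?_ ?_ ?_
  · simp
  · filter_upwards [OfCoreM_slit_open c hsl, isOpen_ne.mem_nhds hne] with W hW hW'
    exact (contDiffAt_norm ℝ hW').prodMk (OfCoreM_larg_smooth hW)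
  · have h1 : Differentiable ℝ fun b : ℝ × ℝ => (b.1 : ℂ) * ex b.2 := by
      have h2 : Differentiable ℝ fun b : ℝ × ℝ => (b.1 : ℂ) :=
        Complex.ofRealCLM.differentiable.comp differentiable_fst
      have h3 : Differentiable ℝ fun b : ℝ × ℝ => ex b.2 :=
        (ex_smooth.differentiable (by simp)).comp differentiable_snd
      exact h2.mul h3
    exact h1 _
  · exact Filter.Eventually.of_forall fun W => OfCoreM_ex_larg c W

/-! ### the map `m₂` -/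

theorem OfCoreM_exc (x : ℝ) (z : ℂ) : ex x * z * ex (-x) = z := by
  rw [mul_right_comm, ← ex_add, add_neg_cancel, OfCoreM_ex_zero, one_mul]

/-- linear coordinates and a rotation -/
noncomputable def OfCoreM_m2 {ε : ℝ} (h0 : 0 < ε) (k : ℤ) : (E3 × ℝ) ≃ (ℂ × ℂ) where
  toFun a := ((1 / 2 + ε * a.1 0 : ℝ) + (a.2 : ℝ) * I,
    ε * (ex (k * thc a.2) * ((a.1 1 : ℂ) + (a.1 2 : ℂ) * I)))
  invFun b := (pt ((b.1.re - 1 / 2) / ε) (((b.2 / ε) * ex (-(k * thc b.1.im))).re)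
    (((b.2 / ε) * ex (-(k * thc b.1.im))).im), b.1.im)
  left_inv a := by
    have hε : (ε : ℂ) ≠ 0 := by exact_mod_cast h0.ne'
    refine Prod.ext ?_ ?_
    · have e1 : (((1 / 2 + ε * a.1 0 : ℝ) : ℂ) + (a.2 : ℝ) * I).im = a.2 := by simp
      have e2 : (((1 / 2 + ε * a.1 0 : ℝ) : ℂ) + (a.2 : ℝ) * I).re = 1 / 2 + ε * a.1 0 := by
        rw [Complex.add_re, Complex.ofReal_re]
        simp
      have e3 : ((ε : ℂ) * (ex (k * thc a.2) * ((a.1 1 : ℂ) + (a.1 2 : ℂ) * I)) / ε) *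
          ex (-(k * thc a.2)) = (a.1 1 : ℂ) + (a.1 2 : ℂ) * I := by
        rw [mul_div_cancel_left₀ _ hε, OfCoreM_exc]
      simp only
      rw [e1, e2, e3]
      ext i
      fin_cases i
      · show (1 / 2 + ε * a.1 0 - 1 / 2) / ε = a.1 0
        field_simp
        ring
      · show ((a.1 1 : ℂ) + (a.1 2 : ℂ) * I).re = a.1 1
        simp
      · show ((a.1 1 : ℂ) + (a.1 2 : ℂ) * I).im = a.1 2
        simp
    · simp
  right_inv b := by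
    have hε : (ε : ℂ) ≠ 0 := by exact_mod_cast h0.ne'
    refine Prod.ext ?_ ?_
    · show ((1 / 2 + ε * ((b.1.re - 1 / 2) / ε) : ℝ) : ℂ) + (b.1.im : ℝ) * I = b.1
      have e : 1 / 2 + ε * ((b.1.re - 1 / 2) / ε) = b.1.re := by
        field_simp
        ring
      rw [e]
      exact Complex.re_add_im _
    · show (ε : ℂ) * (ex (k * thc b.1.im) *
        (((((b.2 / ε) * ex (-(k * thc b.1.im))).re : ℝ) : ℂ) +
          ((((b.2 / ε) * ex (-(k * thc b.1.im))).im : ℝ) : ℂ) * I)) = b.2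
      rw [Complex.re_add_im]
      have := OfCoreM_exc (k * thc b.1.im) (b.2 / ε)
      rw [mul_assoc] at this
      rw [this]
      field_simp

theorem OfCoreM_pt_smooth {V : Type*} [NormedAddCommGroup V] [NormedSpace ℝ V] {f g h : V → ℝ}
    (hf : ContDiff ℝ ∞ f) (hg : ContDiff ℝ ∞ g) (hh : ContDiff ℝ ∞ h) :
    ContDiff ℝ ∞ fun q => pt (f q) (g q) (h q) := by
  rw [contDiff_euclidean]
  intro i
  fin_cases i
  · simpa using hf
  · simpa using hg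
  · simpa using hh

theorem OfCoreM_coord (i : Fin 3) : ContDiff ℝ ∞ fun q : E3 × ℝ => q.1 i :=
  contDiff_euclidean.1 contDiff_fst i

theorem OfCoreM_cc {V : Type*} [NormedAddCommGroup V] [NormedSpace ℝ V] {f : V → ℝ}
    (hf : ContDiff ℝ ∞ f) : ContDiff ℝ ∞ fun q => ((f q : ℝ) : ℂ) :=
  Complex.ofRealCLM.contDiff.comp hf

theorem OfCoreM_m2_ld {ε : ℝ} (h0 : 0 < ε) (k : ℤ) (a : E3 × ℝ) :
    IsLocalDiffeomorphAt 𝓘(ℝ, E3 × ℝ) 𝓘(ℝ, ℂ × ℂ) ∞ (OfCoreM_m2 h0 k) a := by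
  apply ld_of_perm
  · show ContDiff ℝ ∞ fun a : E3 × ℝ => (((1 / 2 + ε * a.1 0 : ℝ) : ℂ) + (a.2 : ℝ) * I,
      (ε : ℂ) * (ex (k * thc a.2) * ((a.1 1 : ℂ) + (a.1 2 : ℂ) * I)))
    have h1 : ContDiff ℝ ∞ fun a : E3 × ℝ => ((1 / 2 + ε * a.1 0 : ℝ) : ℂ) + (a.2 : ℝ) * I :=
      (OfCoreM_cc (contDiff_const.add (contDiff_const.mul (OfCoreM_coord 0)))).add
        ((OfCoreM_cc contDiff_snd).mul contDiff_const)
    have h2 : ContDiff ℝ ∞ fun a : E3 × ℝ => ex (k * thc a.2) :=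
      ex_smooth.comp (contDiff_const.mul (thc_smooth.comp contDiff_snd))
    have h3 : ContDiff ℝ ∞ fun a : E3 × ℝ => (a.1 1 : ℂ) + (a.1 2 : ℂ) * I :=
      (OfCoreM_cc (OfCoreM_coord 1)).add ((OfCoreM_cc (OfCoreM_coord 2)).mul contDiff_const)
    exact h1.prodMk (contDiff_const.mul (h2.mul h3))
  · show ContDiff ℝ ∞ fun b : ℂ × ℂ => (pt ((b.1.re - 1 / 2) / ε)
      (((b.2 / ε) * ex (-(k * thc b.1.im))).re) (((b.2 / ε) * ex (-(k * thc b.1.im))).im), b.1.im)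
    have hre : ContDiff ℝ ∞ fun b : ℂ × ℂ => b.1.re := Complex.reCLM.contDiff.comp contDiff_fst
    have him : ContDiff ℝ ∞ fun b : ℂ × ℂ => b.1.im := Complex.imCLM.contDiff.comp contDiff_fst
    have h2 : ContDiff ℝ ∞ fun b : ℂ × ℂ => ex (-(k * thc b.1.im)) :=
      ex_smooth.comp (contDiff_const.mul (thc_smooth.comp him)).neg
    have h3 : ContDiff ℝ ∞ fun b : ℂ × ℂ => (b.2 / ε) * ex (-(k * thc b.1.im)) :=
      (contDiff_snd.div_const _).mul h2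
    exact (OfCoreM_pt_smooth ((hre.sub contDiff_const).div_const _)
      (Complex.reCLM.contDiff.comp h3) (Complex.imCLM.contDiff.comp h3)).prodMk him

/-! ### the map `m₁` -/

/-- associativity of the product -/
noncomputable def OfCoreM_assoc : Diffeomorph ((𝓡 2).prod 𝓘(ℝ, ℝ × ℝ))
    (((𝓡 2).prod 𝓘(ℝ, ℝ)).prod 𝓘(ℝ, ℝ)) (S2 × (ℝ × ℝ)) ((S2 × ℝ) × ℝ) ∞ where
  toFun a := ((a.1, a.2.1), a.2.2)
  invFun b := (b.1.1, (b.1.2, b.2))
  left_inv a := rfl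
  right_inv b := rfl
  contMDiff_toFun :=
    (contMDiff_fst.prodMk ((contDiff_fst (𝕜 := ℝ) (E := ℝ) (F := ℝ) (n := ∞)).contMDiff.comp
      contMDiff_snd)).prodMk
        ((contDiff_snd (𝕜 := ℝ) (E := ℝ) (F := ℝ) (n := ∞)).contMDiff.comp contMDiff_snd)
  contMDiff_invFun :=
    (contMDiff_fst.comp contMDiff_fst).prodMk
      ((contMDiff_snd.comp contMDiff_fst).prodMk_space contMDiff_snd)

theorem OfCoreM_m1_ld (Y : S2) {s t : ℝ} (hs : 0 < s) :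
    IsLocalDiffeomorphAt ((𝓡 2).prod 𝓘(ℝ, ℂ)) 𝓘(ℝ, E3 × ℝ) ∞
      (fun a : S2 × ℂ => (‖a.2‖ • (a.1 : E3), OfCoreM_larg t a.2)) (Y, s * ex t) := by
  have h1 : IsLocalDiffeomorphAt ((𝓡 2).prod 𝓘(ℝ, ℂ)) ((𝓡 2).prod 𝓘(ℝ, ℝ × ℝ)) ∞
      (Prod.map (id : S2 → S2) (OfCoreM_pol t)) (Y, s * ex t) :=
    OfCoreM_prod (ld_id (I := 𝓡 2) (M := S2) (n := ∞) Y) (OfCoreM_pol_ld hs)
  have e1 : Prod.map (id : S2 → S2) (OfCoreM_pol t) (Y, s * ex t) = (Y, (s, t)) := by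
    simp only [Prod.map, id, OfCoreM_pol]
    rw [norm_mul, ex_norm, mul_one, Complex.norm_real, Real.norm_of_nonneg hs.le,
      OfCoreM_larg_ex (by simp) hs]
  have h2 : IsLocalDiffeomorphAt ((𝓡 2).prod 𝓘(ℝ, ℝ × ℝ))
    (((𝓡 2).prod 𝓘(ℝ, ℝ)).prod 𝓘(ℝ, ℝ)) ∞ OfCoreM_assoc
      (Prod.map (id : S2 → S2) (OfCoreM_pol t) (Y, s * ex t)) := OfCoreM_assoc.isLocalDiffeomorph _
  have h3 := IsLocalDiffeomorphAt.comp (hf := h1) (hg := h2) ..
  have e2 : (OfCoreM_assoc ∘ Prod.map (id : S2 → S2) (OfCoreM_pol t)) (Y, s * ex t) =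
      ((Y, s), t) := by
    rw [Function.comp_apply, e1]
    rfl
  have h4 : IsLocalDiffeomorphAt (((𝓡 2).prod 𝓘(ℝ, ℝ)).prod 𝓘(ℝ, ℝ)) 𝓘(ℝ, E3 × ℝ) ∞
      (Prod.map (fun a : S2 × ℝ => a.2 • (a.1 : E3)) (id : ℝ → ℝ))
      ((OfCoreM_assoc ∘ Prod.map (id : S2 → S2) (OfCoreM_pol t)) (Y, s * ex t)) := by
    rw [e2]
    exact OfCoreM_prodV (polS_ld Y hs) (ld_id (I := 𝓘(ℝ, ℝ)) (M := ℝ) (n := ∞) t)
  exact IsLocalDiffeomorphAt.comp (hf := h3) (hg := h4) ..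

/-! ### the log chart -/

theorem OfCoreM_mT_ld {ε : ℝ} (h0 : 0 < ε) (e : ℤ) (q y : ℝ) {s u : ℝ} (hs : 0 < s) :
    IsLocalDiffeomorphAt 𝓘(ℝ, ℝ × ℝ × ℂ) 𝓘(ℝ, ℂ × ℂ) ∞
      (fun a : ℝ × ℝ × ℂ => ((ε : ℂ) * ‖a.2.2‖ * ex (a.1 + e * OfCoreM_larg u a.2.2),
        (a.2.1 : ℂ) + (OfCoreM_larg u a.2.2 : ℂ) * I)) (q, y, s * ex u) := by
  have hsl : (s : ℂ) * ex u * ex (-u) ∈ Complex.slitPlane := OfCoreM_slit (by simp) hs
  have hne : (s : ℂ) * ex u ≠ 0 := mul_ne_zero (by exact_mod_cast hs.ne') (OfCoreM_ex_ne _)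
  have hlu : OfCoreM_larg u (s * ex u) = u := OfCoreM_larg_ex (by simp) hs
  have hns : ‖(s : ℂ) * ex u‖ = s := by
    rw [norm_mul, ex_norm, mul_one, Complex.norm_real, Real.norm_of_nonneg hs.le]
  have hsnd : ContinuousAt (fun a : ℝ × ℝ × ℂ => a.2.2) (q, y, (s : ℂ) * ex u) :=
    (continuous_snd.comp continuous_snd).continuousAt
  have hlarg : ContinuousAt (fun a : ℝ × ℝ × ℂ => OfCoreM_larg u a.2.2) (q, y, (s : ℂ) * ex u) :=
    ContinuousAt.comp (f := fun a : ℝ × ℝ × ℂ => a.2.2) (x := (q, y, (s : ℂ) * ex u))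
      (OfCoreM_larg_smooth hsl).continuousAt hsnd
  have hθ : ContinuousAt (fun a : ℝ × ℝ × ℂ => |a.1 + e * OfCoreM_larg u a.2.2 - (q + e * u)|)
      (q, y, (s : ℂ) * ex u) :=
    ((continuousAt_fst.add (continuousAt_const.mul hlarg)).sub continuousAt_const).abs
  have hθ2 : ∀ᶠ a : ℝ × ℝ × ℂ in 𝓝 (q, y, (s : ℂ) * ex u),
      |a.1 + e * OfCoreM_larg u a.2.2 - (q + e * u)| < 1 / 2 := by
    apply hθ.eventually_lt_const
    simp only
    rw [hlu, sub_self, abs_zero]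
    norm_num
  refine ld_of_leftInv (g := fun b : ℂ × ℂ => (OfCoreM_larg (q + e * u) b.1 - e * b.2.im, b.2.re,
    ((‖b.1‖ / ε : ℝ) : ℂ) * ex b.2.im)) ?_ ?_ ?_ ?_
  · simp
  · filter_upwards [hsnd.eventually (OfCoreM_slit_open u hsl),
      hsnd.eventually (isOpen_ne.mem_nhds hne)] with a ha ha'
    have c1 : ContDiffAt ℝ ∞ (fun a : ℝ × ℝ × ℂ => a.2.2) a :=
      (contDiff_snd.comp contDiff_snd).contDiffAt
    have c2 : ContDiffAt ℝ ∞ (fun a : ℝ × ℝ × ℂ => OfCoreM_larg u a.2.2) a :=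
      (OfCoreM_larg_smooth ha).comp (f := fun a : ℝ × ℝ × ℂ => a.2.2) a c1
    have c3 : ContDiffAt ℝ ∞ (fun a : ℝ × ℝ × ℂ => ‖a.2.2‖) a :=
      (contDiffAt_norm ℝ ha').comp (f := fun a : ℝ × ℝ × ℂ => a.2.2) a c1
    have c4 : ContDiffAt ℝ ∞ (fun a : ℝ × ℝ × ℂ => ((‖a.2.2‖ : ℝ) : ℂ)) a :=
      Complex.ofRealCLM.contDiff.contDiffAt.comp a c3
    have c5 : ContDiffAt ℝ ∞ (fun a : ℝ × ℝ × ℂ => ex (a.1 + e * OfCoreM_larg u a.2.2)) a :=
      ex_smooth.contDiffAt.comp a (contDiffAt_fst.add (contDiffAt_const.mul c2))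
    have c6 : ContDiffAt ℝ ∞ (fun a : ℝ × ℝ × ℂ => ((a.2.1 : ℝ) : ℂ)) a :=
      Complex.ofRealCLM.contDiff.contDiffAt.comp a (contDiff_fst.comp contDiff_snd).contDiffAt
    have c7 : ContDiffAt ℝ ∞ (fun a : ℝ × ℝ × ℂ => ((OfCoreM_larg u a.2.2 : ℝ) : ℂ)) a :=
      Complex.ofRealCLM.contDiff.contDiffAt.comp a c2
    exact ((contDiffAt_const.mul c4).mul c5).prodMk (c6.add (c7.mul contDiffAt_const))
  · have e0 : ((ε : ℂ) * ‖(s : ℂ) * ex u‖ * ex (q + e * OfCoreM_larg u (s * ex u))) =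
        ((ε * s : ℝ) : ℂ) * ex (q + e * u) := by
      rw [hns, hlu]
      push_cast
      ring
    simp only
    rw [e0]
    have hεs : 0 < ε * s := mul_pos h0 hs
    have g1 : ((ε * s : ℝ) : ℂ) * ex (q + e * u) * ex (-(q + e * u)) ∈ Complex.slitPlane :=
      OfCoreM_slit (by simp) hεs
    have g2 : ((ε * s : ℝ) : ℂ) * ex (q + e * u) ≠ 0 :=
      mul_ne_zero (by exact_mod_cast hεs.ne') (OfCoreM_ex_ne _)
    set B : ℂ × ℂ := (((ε * s : ℝ) : ℂ) * ex (q + e * u),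
      (y : ℂ) + (OfCoreM_larg u (s * ex u) : ℂ) * I) with hB
    have d1 : DifferentiableAt ℝ (fun b : ℂ × ℂ => OfCoreM_larg (q + e * u) b.1) B :=
      DifferentiableAt.comp (f := fun b : ℂ × ℂ => b.1) B
        ((OfCoreM_larg_smooth g1).differentiableAt (by simp)) differentiableAt_fst
    have d2 : DifferentiableAt ℝ (fun b : ℂ × ℂ => b.2.im) B :=
      (Complex.imCLM.differentiable.comp differentiable_snd) B
    have d3 : DifferentiableAt ℝ (fun b : ℂ × ℂ => b.2.re) B :=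
      (Complex.reCLM.differentiable.comp differentiable_snd) B
    have d4 : DifferentiableAt ℝ (fun b : ℂ × ℂ => ‖b.1‖) B :=
      DifferentiableAt.comp (f := fun b : ℂ × ℂ => b.1) B
        ((contDiffAt_norm ℝ g2).differentiableAt (n := 1) (by simp)) differentiableAt_fst
    have d45 : DifferentiableAt ℝ (fun b : ℂ × ℂ => ‖b.1‖ / ε) B := by
      simp only [div_eq_mul_inv]
      exact d4.mul_const _
    have d5 : DifferentiableAt ℝ (fun b : ℂ × ℂ => ((‖b.1‖ / ε : ℝ) : ℂ)) B :=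
      DifferentiableAt.comp (f := fun b : ℂ × ℂ => ‖b.1‖ / ε) B
        (Complex.ofRealCLM.differentiable _) d45
    have d6 : DifferentiableAt ℝ (fun b : ℂ × ℂ => ex b.2.im) B :=
      DifferentiableAt.comp (f := fun b : ℂ × ℂ => b.2.im) B
        ((ex_smooth.differentiable (by simp)) _) d2
    exact (d1.sub (d2.const_mul _)).prodMk (d3.prodMk (d5.mul d6))
  · filter_upwards [hθ2, hsnd.eventually (isOpen_ne.mem_nhds hne)] with a ha ha'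
    have hZ : 0 < ‖a.2.2‖ := norm_pos_iff.2 ha'
    have hεZ : 0 < ε * ‖a.2.2‖ := mul_pos h0 hZ
    have e1 : (ε : ℂ) * ‖a.2.2‖ * ex (a.1 + e * OfCoreM_larg u a.2.2) =
        ((ε * ‖a.2.2‖ : ℝ) : ℂ) * ex (a.1 + e * OfCoreM_larg u a.2.2) := by push_cast; rfl
    have e2 : ((a.2.1 : ℂ) + (OfCoreM_larg u a.2.2 : ℂ) * I).im = OfCoreM_larg u a.2.2 := by simp
    have e3 : ((a.2.1 : ℂ) + (OfCoreM_larg u a.2.2 : ℂ) * I).re = a.2.1 := by simp
    have e4 : ‖((ε * ‖a.2.2‖ : ℝ) : ℂ) * ex (a.1 + e * OfCoreM_larg u a.2.2)‖ = ε * ‖a.2.2‖ := by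
      rw [norm_mul, ex_norm, mul_one, Complex.norm_real, Real.norm_of_nonneg hεZ.le]
    rw [e1, e2, e3, e4, OfCoreM_larg_ex ha hεZ, mul_div_cancel_left₀ _ h0.ne', OfCoreM_ex_larg,
      add_sub_cancel_right]

variable {X : Type*} [TopologicalSpace X] [ChartedSpace E4 X] {ε ρ : ℝ} {k e : ℤ}

theorem OfCoreM_GI_re {a b : ℂ} (h : b - a ∈ GI) (h1 : |b.re - a.re| < 1) : b.re = a.re := by
  obtain ⟨⟨m, hm⟩, -⟩ := mem_GI.1 h
  rw [Complex.sub_re] at hm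
  rw [hm] at h1
  have h2 : |m| < 1 := by exact_mod_cast h1
  rw [Int.abs_lt_one_iff] at h2
  rw [h2] at hm
  push_cast at hm
  linarith

theorem OfCoreM_polar {ζ : ℂ} (h : ζ ≠ 0) {R : ℝ} (hR : ‖ζ‖ < R) :
    ∃ s t : ℝ, 0 < s ∧ s < R ∧ ζ = s * ex t := by
  obtain ⟨t, ht⟩ := exists_polar (Z := ζ)
  exact ⟨‖ζ‖, t, norm_pos_iff.2 h, hR, ht⟩

theorem OfCoreM_norm {s : ℝ} (hs : 0 < s) (t : ℝ) : ‖(s : ℂ) * ex t‖ = s := by
  rw [norm_mul, ex_norm, mul_one, Complex.norm_real, Real.norm_of_nonneg hs.le]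

theorem OfCoreM_ne {s : ℝ} (hs : 0 < s) (t : ℝ) : (s : ℂ) * ex t ≠ 0 :=
  mul_ne_zero (by exact_mod_cast hs.ne') (OfCoreM_ex_ne _)

/-- the argument of `s ex t` -/
theorem OfCoreM_arg {s : ℝ} (hs : 0 < s) (t : ℝ) :
    ∃ n : ℤ, t = Complex.arg ((s : ℂ) * ex t) / (2 * Real.pi) + n := by
  apply ex_eq_iff.1
  have h := ex_arg ((s : ℂ) * ex t)
  rw [OfCoreM_norm hs] at h
  have hs' : (s : ℂ) ≠ 0 := by exact_mod_cast hs.ne'
  exact mul_left_cancel₀ hs' h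

theorem OfCoreM_ex_add_int (x : ℝ) (n : ℤ) : ex (x + n) = ex x := by
  rw [ex_add, ex_int, mul_one]

theorem OfCoreM_ex_mul (x : ℝ) (k n : ℤ) : ex (k * (x + n)) = ex (k * x) := by
  have : (k : ℝ) * (x + n) = k * x + ((k * n : ℤ) : ℝ) := by push_cast; ring
  rw [this, OfCoreM_ex_add_int]

theorem OfCoreM_glueK (h0 : 0 < ε) (h1 : ε ≤ 1 / 1000) (h2 : 5 * ε < ρ) (h3 : ρ ≤ 1 / 8)
    {G : ℂ × ℂ → X} {cK : S2 → X}
    (G_per : ∀ p r a b : ℂ, (p, r) ∈ Wd ρ → a ∈ GI → b ∈ GI → G (p + a, r + b) = G (p, r))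
    (y : S2) (t s : ℝ) (hs : 0 < s) (hs1 : s < 1) :
    jKof ε k G cK (y, s * ex t) =
      G ((1 / 2 + ε * s * (y : E3) 0 : ℝ) + (t : ℝ) * I, ε * s * ex (k * thc t) * yc y) := by
  unfold jKof
  simp only
  rw [if_neg (OfCoreM_ne hs t), OfCoreM_norm hs]
  obtain ⟨n, hn⟩ := OfCoreM_arg hs t
  set θ := Complex.arg ((s : ℂ) * ex t) / (2 * Real.pi) with hθ
  have hR := Reg_C h0 h1 h2 h3 y hs hs1 (t := θ) (ex (k * thc θ)) (ex_norm _)
  have h4 := G_per _ _ (0 + n * I) 0 hR.1 ⟨0, n, by simp⟩ GI_zero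
  have e1 : thc t = thc θ + n := by
    conv_lhs => rw [hn]
    exact thc_add_int _ _
  have e2 : (t : ℂ) = θ + n := by
    conv_lhs => rw [hn]
    push_cast
    rfl
  rw [e1, OfCoreM_ex_mul, e2, ← h4]
  congr 2
  · ring
  · ring

theorem OfCoreM_glueT (h0 : 0 < ε) (h2 : 5 * ε < ρ) (h3 : ρ ≤ 1 / 8)
    {G : ℂ × ℂ → X} {cT : ℝ × ℝ → X}
    (G_per : ∀ p r a b : ℂ, (p, r) ∈ Wd ρ → a ∈ GI → b ∈ GI → G (p + a, r + b) = G (p, r))
    (q y u s : ℝ) (hs : 0 < s) (hs5 : s < 5) :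
    jTof ε e G cT (q, y, s * ex u) =
      G (ε * s * ex (q + e * u), (y : ℝ) + (u : ℝ) * I) := by
  unfold jTof
  simp only
  rw [if_neg (OfCoreM_ne hs u), OfCoreM_norm hs]
  obtain ⟨n, hn⟩ := OfCoreM_arg hs u
  set θ := Complex.arg ((s : ℂ) * ex u) / (2 * Real.pi) with hθ
  have hR := Reg_T h0 h2 h3 (q := q + e * θ) hs hs5 ((y : ℝ) + (θ : ℝ) * I)
  have h4 := G_per _ _ 0 (0 + n * I) hR.1 GI_zero ⟨0, n, by simp⟩
  have e1 : ex (q + e * u) = ex (q + e * θ) := by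
    have : q + e * u = q + e * θ + ((e * n : ℤ) : ℝ) := by
      conv_lhs => rw [hn]
      push_cast
      ring
    rw [this, OfCoreM_ex_add_int]
  have e2 : (u : ℂ) = θ + n := by
    conv_lhs => rw [hn]
    push_cast
    rfl
  rw [e1, e2, ← h4]
  congr 2
  · ring
  · ring

theorem OfCoreM_jK_ld (h0 : 0 < ε) (h1 : ε ≤ 1 / 1000) (h2 : 5 * ε < ρ) (h3 : ρ ≤ 1 / 8)
    {G : ℂ × ℂ → X} {cK : S2 → X}
    (G_per : ∀ p r a b : ℂ, (p, r) ∈ Wd ρ → a ∈ GI → b ∈ GI → G (p + a, r + b) = G (p, r))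
    (G_loc : ∀ p r, Reg ρ p r → IsLocalDiffeomorphAt 𝓘(ℝ, ℂ × ℂ) (𝓡 4) ∞ G (p, r))
    (Y : S2) {s t : ℝ} (hs : 0 < s) (hs1 : s < 1) :
    IsLocalDiffeomorphAt ((𝓡 2).prod 𝓘(ℝ, ℂ)) (𝓡 4) ∞ (jKof ε k G cK) (Y, s * ex t) := by
  have hm1 := OfCoreM_m1_ld Y (t := t) hs
  have hm2 := OfCoreM_m2_ld h0 k
    ((fun a : S2 × ℂ => (‖a.2‖ • (a.1 : E3), OfCoreM_larg t a.2)) (Y, s * ex t))
  have hm := IsLocalDiffeomorphAt.comp (hf := hm1) (hg := hm2) ..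
  have hval : ∀ (y : S2) (ζ : ℂ), OfCoreM_m2 h0 k (‖ζ‖ • (y : E3), OfCoreM_larg t ζ) =
      ((1 / 2 + ε * ‖ζ‖ * (y : E3) 0 : ℝ) + (OfCoreM_larg t ζ : ℝ) * I,
        ε * ‖ζ‖ * ex (k * thc (OfCoreM_larg t ζ)) * yc y) := by
    intro y ζ
    show ((1 / 2 + ε * (‖ζ‖ • (y : E3)) 0 : ℝ) + (OfCoreM_larg t ζ : ℝ) * I,
      (ε : ℂ) * (ex (k * thc (OfCoreM_larg t ζ)) * ((((‖ζ‖ • (y : E3)) 1 : ℝ) : ℂ) +
        (((‖ζ‖ • (y : E3)) 2 : ℝ) : ℂ) * I))) = _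
    simp only [PiLp.smul_apply, smul_eq_mul]
    refine Prod.ext ?_ ?_
    · simp only
      congr 2
      ring
    · simp only [yc]
      push_cast
      ring
  have hlt : OfCoreM_larg t (s * ex t) = t := OfCoreM_larg_ex (by simp) hs
  have hG : IsLocalDiffeomorphAt 𝓘(ℝ, ℂ × ℂ) (𝓡 4) ∞ G
      ((OfCoreM_m2 h0 k ∘ fun a : S2 × ℂ => (‖a.2‖ • (a.1 : E3), OfCoreM_larg t a.2))
        (Y, s * ex t)) := by
    rw [Function.comp_apply, hval, OfCoreM_norm hs, hlt]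
    exact G_loc _ _ (Reg_C h0 h1 h2 h3 Y hs hs1 _ (ex_norm _))
  have h4 := IsLocalDiffeomorphAt.comp (hf := hm) (hg := hG) ..
  refine ld_congr h4 ?_
  have hn : Continuous fun a : S2 × ℂ => ‖a.2‖ := continuous_snd.norm
  filter_upwards [(hn.continuousAt (x := (Y, (s : ℂ) * ex t))).eventually_lt_const
    (show ‖(s : ℂ) * ex t‖ < 1 by rw [OfCoreM_norm hs]; exact hs1),
    (hn.continuousAt (x := (Y, (s : ℂ) * ex t))).eventually_const_lt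
    (show 0 < ‖(s : ℂ) * ex t‖ by rw [OfCoreM_norm hs]; exact hs)] with a ha ha'
  have h5 := OfCoreM_glueK (k := k) (cK := cK) h0 h1 h2 h3 G_per a.1 (OfCoreM_larg t a.2) ‖a.2‖
    ha' ha
  rw [OfCoreM_ex_larg] at h5
  rw [Function.comp_apply, Function.comp_apply, hval]
  exact h5

theorem OfCoreM_jT_ld (h0 : 0 < ε) (h2 : 5 * ε < ρ) (h3 : ρ ≤ 1 / 8)
    {G : ℂ × ℂ → X} {cT : ℝ × ℝ → X}
    (G_per : ∀ p r a b : ℂ, (p, r) ∈ Wd ρ → a ∈ GI → b ∈ GI → G (p + a, r + b) = G (p, r))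
    (G_loc : ∀ p r, Reg ρ p r → IsLocalDiffeomorphAt 𝓘(ℝ, ℂ × ℂ) (𝓡 4) ∞ G (p, r))
    (q y : ℝ) {s u : ℝ} (hs : 0 < s) (hs5 : s < 5) :
    IsLocalDiffeomorphAt 𝓘(ℝ, ℝ × ℝ × ℂ) (𝓡 4) ∞ (jTof ε e G cT) (q, y, s * ex u) := by
  have hm := OfCoreM_mT_ld h0 e q y (u := u) hs
  have hlt : OfCoreM_larg u (s * ex u) = u := OfCoreM_larg_ex (by simp) hs
  have hG : IsLocalDiffeomorphAt 𝓘(ℝ, ℂ × ℂ) (𝓡 4) ∞ G
      ((fun a : ℝ × ℝ × ℂ => ((ε : ℂ) * ‖a.2.2‖ * ex (a.1 + e * OfCoreM_larg u a.2.2),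
        (a.2.1 : ℂ) + (OfCoreM_larg u a.2.2 : ℂ) * I)) (q, y, s * ex u)) := by
    simp only
    rw [OfCoreM_norm hs]
    exact G_loc _ _ (Reg_T h0 h2 h3 hs hs5 _)
  have h4 := IsLocalDiffeomorphAt.comp (hf := hm) (hg := hG) ..
  refine ld_congr h4 ?_
  have hn : Continuous fun a : ℝ × ℝ × ℂ => ‖a.2.2‖ := (continuous_snd.comp continuous_snd).norm
  filter_upwards [(hn.continuousAt (x := (q, y, (s : ℂ) * ex u))).eventually_lt_const
    (show ‖(s : ℂ) * ex u‖ < 5 by rw [OfCoreM_norm hs]; exact hs5),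
    (hn.continuousAt (x := (q, y, (s : ℂ) * ex u))).eventually_const_lt
    (show 0 < ‖(s : ℂ) * ex u‖ by rw [OfCoreM_norm hs]; exact hs)] with a ha ha'
  have h5 := OfCoreM_glueT (e := e) (cT := cT) h0 h2 h3 G_per a.1 a.2.1 (OfCoreM_larg u a.2.2)
    ‖a.2.2‖ ha' ha
  rw [OfCoreM_ex_larg] at h5
  exact h5

theorem OfCoreM_jK_inj (h0 : 0 < ε) (h1 : ε ≤ 1 / 1000) (h2 : 5 * ε < ρ) (h3 : ρ ≤ 1 / 8)
    {G : ℂ × ℂ → X} {cK : S2 → X}
    (G_per : ∀ p r a b : ℂ, (p, r) ∈ Wd ρ → a ∈ GI → b ∈ GI → G (p + a, r + b) = G (p, r))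
    (G_inj : ∀ p r p' r', Reg ρ p r → Reg ρ p' r' → G (p, r) = G (p', r') →
      p' - p ∈ GI ∧ r' - r ∈ GI)
    (cK_inj : Function.Injective cK)
    (dK : ∀ Y p r, Reg ρ p r → cK Y ≠ G (p, r))
    (y y' : S2) (ζ ζ' : ℂ) (hζ : ‖ζ‖ < 1) (hζ' : ‖ζ'‖ < 1)
    (h : jKof ε k G cK (y, ζ) = jKof ε k G cK (y', ζ')) : y = y' ∧ ζ = ζ' := by
  have hz : ∀ y : S2, jKof ε k G cK (y, 0) = cK y := fun y => by simp [jKof]
  by_cases hζ0 : ζ = 0 <;> by_cases hζ0' : ζ' = 0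
  · subst hζ0 hζ0'
    rw [hz, hz] at h
    exact ⟨cK_inj h, rfl⟩
  · subst hζ0
    obtain ⟨s, t, hs, hs1, rfl⟩ := OfCoreM_polar hζ0' hζ'
    rw [hz, OfCoreM_glueK h0 h1 h2 h3 G_per y' t s hs hs1] at h
    exact absurd h (dK _ _ _ (Reg_C h0 h1 h2 h3 y' hs hs1 _ (ex_norm _)))
  · subst hζ0'
    obtain ⟨s, t, hs, hs1, rfl⟩ := OfCoreM_polar hζ0 hζ
    rw [hz, OfCoreM_glueK h0 h1 h2 h3 G_per y t s hs hs1] at h
    exact absurd h.symm (dK _ _ _ (Reg_C h0 h1 h2 h3 y hs hs1 _ (ex_norm _)))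
  · obtain ⟨s, t, hs, hs1, rfl⟩ := OfCoreM_polar hζ0 hζ
    obtain ⟨s', t', hs', hs1', rfl⟩ := OfCoreM_polar hζ0' hζ'
    rw [OfCoreM_glueK h0 h1 h2 h3 G_per y t s hs hs1,
      OfCoreM_glueK h0 h1 h2 h3 G_per y' t' s' hs' hs1'] at h
    obtain ⟨ha, hb⟩ := G_inj _ _ _ _ (Reg_C h0 h1 h2 h3 y hs hs1 _ (ex_norm _))
      (Reg_C h0 h1 h2 h3 y' hs' hs1' _ (ex_norm _)) h
    have hy := S2_sq y
    have hy' := S2_sq y'
    have hy0 : |(y : E3) 0| ≤ 1 := abs_le_one_iff_mul_self_le_one.2 (by nlinarith [sq_nonneg ‖yc y‖])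
    have hy0' : |(y' : E3) 0| ≤ 1 :=
      abs_le_one_iff_mul_self_le_one.2 (by nlinarith [sq_nonneg ‖yc y'‖])
    -- first components
    have e1 : s' * (y' : E3) 0 = s * (y : E3) 0 := by
      have b1 : |ε * s * (y : E3) 0| ≤ ε := by
        rw [abs_mul, abs_of_pos (mul_pos h0 hs)]
        have : ε * s * |(y : E3) 0| ≤ ε * 1 * 1 := by
          apply mul_le_mul _ hy0 (abs_nonneg _) (by positivity)
          exact mul_le_mul_of_nonneg_left hs1.le h0.le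
        linarith
      have b2 : |ε * s' * (y' : E3) 0| ≤ ε := by
        rw [abs_mul, abs_of_pos (mul_pos h0 hs')]
        have : ε * s' * |(y' : E3) 0| ≤ ε * 1 * 1 := by
          apply mul_le_mul _ hy0' (abs_nonneg _) (by positivity)
          exact mul_le_mul_of_nonneg_left hs1'.le h0.le
        linarith
      have b3 := OfCoreM_GI_re ha (by
        rw [abs_le] at b1 b2
        rw [abs_lt]
        simp only [Complex.add_re, Complex.ofReal_re, Complex.mul_re, Complex.I_re, Complex.I_im,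
          Complex.ofReal_im]
        constructor <;> linarith)
      simp only [Complex.add_re, Complex.ofReal_re, Complex.mul_re, Complex.I_re, Complex.I_im,
        Complex.ofReal_im] at b3
      have b4 : ε * (s' * (y' : E3) 0) = ε * (s * (y : E3) 0) := by linarith
      exact mul_left_cancel₀ h0.ne' b4
    obtain ⟨-, n, hn⟩ := mem_GI.1 ha
    have hn' : t' = t + n := by
      simp only [Complex.sub_im, Complex.add_im, Complex.ofReal_im, Complex.mul_im, Complex.I_re,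
        Complex.I_im, Complex.ofReal_re] at hn
      linarith
    have e2 : ex (k * thc t') = ex (k * thc t) := by
      rw [hn', thc_add_int, OfCoreM_ex_mul]
    have e3 : ex t' = ex t := by
      rw [hn', OfCoreM_ex_add_int]
    rw [e2] at hb
    have hyc : ‖yc y‖ ≤ 1 := by nlinarith [norm_nonneg (yc y), sq_nonneg ((y : E3) 0)]
    have hyc' : ‖yc y'‖ ≤ 1 := by nlinarith [norm_nonneg (yc y'), sq_nonneg ((y' : E3) 0)]
    have nb : ∀ (σ : ℝ) (w : S2), 0 < σ → σ < 1 → ‖yc w‖ ≤ 1 →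
        ‖(ε : ℂ) * σ * ex (k * thc t) * yc w‖ ≤ ε := by
      intro σ w hσ hσ1 hw
      rw [norm_mul, norm_mul, norm_mul, ex_norm, mul_one, Complex.norm_real, Complex.norm_real,
        Real.norm_of_nonneg h0.le, Real.norm_of_nonneg hσ.le]
      have : ε * σ * ‖yc w‖ ≤ ε * 1 * 1 := by
        apply mul_le_mul _ hw (norm_nonneg _) (by positivity)
        exact mul_le_mul_of_nonneg_left hσ1.le h0.le
      linarith
    have e4 : (s' : ℂ) * yc y' = s * yc y := by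
      have c1 := GI_norm_lt hb (by
        refine lt_of_le_of_lt (norm_sub_le _ _) ?_
        have := nb s y hs hs1 hyc
        have := nb s' y' hs' hs1' hyc'
        linarith)
      have hε : (ε : ℂ) ≠ 0 := by exact_mod_cast h0.ne'
      have c2 : (ε : ℂ) * ex (k * thc t) * (s' * yc y') = (ε : ℂ) * ex (k * thc t) * (s * yc y) := by
        linear_combination c1
      exact mul_left_cancel₀ (mul_ne_zero hε (OfCoreM_ex_ne _)) c2
    have e5 : s' = s := by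
      have c1 : s' ^ 2 = s ^ 2 := by
        have c2 : ‖(s' : ℂ) * yc y'‖ = ‖(s : ℂ) * yc y‖ := by rw [e4]
        rw [norm_mul, norm_mul, Complex.norm_real, Complex.norm_real, Real.norm_of_nonneg hs.le,
          Real.norm_of_nonneg hs'.le] at c2
        have c3 : s' ^ 2 * (((y' : E3) 0) ^ 2 + ‖yc y'‖ ^ 2) =
            s ^ 2 * (((y : E3) 0) ^ 2 + ‖yc y‖ ^ 2) := by
          have d1 : (s' * (y' : E3) 0) ^ 2 = (s * (y : E3) 0) ^ 2 := by rw [e1]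
          have d2 : (s' * ‖yc y'‖) ^ 2 = (s * ‖yc y‖) ^ 2 := by rw [c2]
          linear_combination d1 + d2
        rw [hy, hy', mul_one, mul_one] at c3
        exact c3
      exact (pow_left_inj₀ hs'.le hs.le (by norm_num)).1 c1
    subst e5
    have hsc : (s' : ℂ) ≠ 0 := by exact_mod_cast hs'.ne'
    refine ⟨S2_ext ?_ ?_, ?_⟩
    · exact (mul_left_cancel₀ hs'.ne' e1).symm
    · exact (mul_left_cancel₀ hsc e4).symm
    · rw [e3]

theorem OfCoreM_jT_inj (h0 : 0 < ε) (h1 : ε ≤ 1 / 1000) (h2 : 5 * ε < ρ) (h3 : ρ ≤ 1 / 8)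
    {G : ℂ × ℂ → X} {cT : ℝ × ℝ → X}
    (G_per : ∀ p r a b : ℂ, (p, r) ∈ Wd ρ → a ∈ GI → b ∈ GI → G (p + a, r + b) = G (p, r))
    (G_inj : ∀ p r p' r', Reg ρ p r → Reg ρ p' r' → G (p, r) = G (p', r') →
      p' - p ∈ GI ∧ r' - r ∈ GI)
    (cT_inj : ∀ q y q' y', cT (q, y) = cT (q', y') → (∃ a : ℤ, q' = q + a) ∧ ∃ b : ℤ, y' = y + b)
    (dT : ∀ a p r, Reg ρ p r → cT a ≠ G (p, r))
    (q y : ℝ) (Z : ℂ) (q' y' : ℝ) (Z' : ℂ) (hZ : ‖Z‖ < 5) (hZ' : ‖Z'‖ < 5)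
    (h : jTof ε e G cT (q, y, Z) = jTof ε e G cT (q', y', Z')) :
    (∃ a : ℤ, q' = q + a) ∧ (∃ b : ℤ, y' = y + b) ∧ Z' = Z := by
  have hz : ∀ q y : ℝ, jTof ε e G cT (q, y, 0) = cT (q, y) := fun q y => by simp [jTof]
  by_cases hZ0 : Z = 0 <;> by_cases hZ0' : Z' = 0
  · subst hZ0 hZ0'
    rw [hz, hz] at h
    obtain ⟨a1, a2⟩ := cT_inj _ _ _ _ h
    exact ⟨a1, a2, rfl⟩
  · subst hZ0
    obtain ⟨s, u, hs, hs5, rfl⟩ := OfCoreM_polar hZ0' hZ'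
    rw [hz, OfCoreM_glueT h0 h2 h3 G_per q' y' u s hs hs5] at h
    exact absurd h (dT _ _ _ (Reg_T h0 h2 h3 hs hs5 _))
  · subst hZ0'
    obtain ⟨s, u, hs, hs5, rfl⟩ := OfCoreM_polar hZ0 hZ
    rw [hz, OfCoreM_glueT h0 h2 h3 G_per q y u s hs hs5] at h
    exact absurd h.symm (dT _ _ _ (Reg_T h0 h2 h3 hs hs5 _))
  · obtain ⟨s, u, hs, hs5, rfl⟩ := OfCoreM_polar hZ0 hZ
    obtain ⟨s', u', hs', hs5', rfl⟩ := OfCoreM_polar hZ0' hZ'
    rw [OfCoreM_glueT h0 h2 h3 G_per q y u s hs hs5,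
      OfCoreM_glueT h0 h2 h3 G_per q' y' u' s' hs' hs5'] at h
    obtain ⟨ha, hb⟩ := G_inj _ _ _ _ (Reg_T h0 h2 h3 hs hs5 _) (Reg_T h0 h2 h3 hs' hs5' _) h
    have nb : ∀ (σ θ : ℝ), 0 < σ → ‖(ε : ℂ) * σ * ex θ‖ = ε * σ := by
      intro σ θ hσ
      rw [norm_mul, norm_mul, ex_norm, mul_one, Complex.norm_real, Complex.norm_real,
        Real.norm_of_nonneg h0.le, Real.norm_of_nonneg hσ.le]
    have e1 := GI_norm_lt ha (by
      refine lt_of_le_of_lt (norm_sub_le _ _) ?_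
      rw [nb _ _ hs, nb _ _ hs']
      nlinarith)
    have e2 : (ε : ℂ) * s' * ex (q' + e * u') = ε * s * ex (q + e * u) := by
      linear_combination e1
    have e3 : s' = s := by
      have c1 : ‖(ε : ℂ) * s' * ex (q' + e * u')‖ = ‖(ε : ℂ) * s * ex (q + e * u)‖ := by rw [e2]
      rw [nb _ _ hs, nb _ _ hs'] at c1
      exact mul_left_cancel₀ h0.ne' c1
    subst e3
    have hsc : (ε : ℂ) * s' ≠ 0 :=
      mul_ne_zero (by exact_mod_cast h0.ne') (by exact_mod_cast hs'.ne')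
    have e4 := mul_left_cancel₀ hsc e2
    obtain ⟨n, hn⟩ := ex_eq_iff.1 e4.symm
    obtain ⟨⟨b, hb1⟩, c, hc1⟩ := mem_GI.1 hb
    simp only [Complex.sub_re, Complex.add_re, Complex.ofReal_re, Complex.mul_re, Complex.I_re,
      Complex.I_im, Complex.ofReal_im] at hb1
    simp only [Complex.sub_im, Complex.add_im, Complex.ofReal_im, Complex.mul_im, Complex.I_re,
      Complex.I_im, Complex.ofReal_re] at hc1
    have hc : u' = u + c := by linarith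
    refine ⟨⟨n - e * c, ?_⟩, ⟨b, by linarith⟩, ?_⟩
    · rw [hc] at hn
      push_cast
      linarith
    · rw [hc, OfCoreM_ex_add_int]

theorem exists_LS (h0 : 0 < ε) (h1 : ε ≤ 1 / 1000) (h2 : 5 * ε < ρ) (h3 : ρ ≤ 1 / 8)
    {G : ℂ × ℂ → X} {cK : S2 → X} {cT : ℝ × ℝ → X}
    (G_per : ∀ p r a b : ℂ, (p, r) ∈ Wd ρ → a ∈ GI → b ∈ GI → G (p + a, r + b) = G (p, r))
    (G_loc : ∀ p r, Reg ρ p r → IsLocalDiffeomorphAt 𝓘(ℝ, ℂ × ℂ) (𝓡 4) ∞ G (p, r))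
    (G_inj : ∀ p r p' r', Reg ρ p r → Reg ρ p' r' → G (p, r) = G (p', r') →
      p' - p ∈ GI ∧ r' - r ∈ GI)
    (cK_inj : Function.Injective cK)
    (cT_per : ∀ (q y : ℝ) (a b : ℤ), cT (q + a, y + b) = cT (q, y))
    (cT_inj : ∀ q y q' y', cT (q, y) = cT (q', y') → (∃ a : ℤ, q' = q + a) ∧ ∃ b : ℤ, y' = y + b)
    (dK : ∀ Y p r, Reg ρ p r → cK Y ≠ G (p, r))
    (dT : ∀ a p r, Reg ρ p r → cT a ≠ G (p, r))
    (dKT : ∀ Y a, cK Y ≠ cT a)
    (locK : ∀ Y, IsLocalDiffeomorphAt ((𝓡 2).prod 𝓘(ℝ, ℂ)) (𝓡 4) ∞ (jKof ε k G cK) (Y, 0))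
    (locT : ∀ q y, IsLocalDiffeomorphAt 𝓘(ℝ, ℝ × ℝ × ℂ) (𝓡 4) ∞ (jTof ε e G cT) (q, y, 0)) :
    ∃ L : LS ε ρ k e X, L.G = G ∧ (∀ Y, L.jK (Y, 0) = cK Y) ∧ ∀ q y, L.jT (q, y, 0) = cT (q, y) := by
  have hzK : ∀ y : S2, jKof ε k G cK (y, 0) = cK y := fun y => by simp [jKof]
  have hzT : ∀ q y : ℝ, jTof ε e G cT (q, y, 0) = cT (q, y) := fun q y => by simp [jTof]
  have hjT : ∀ a : ℝ × ℝ × ℂ, ‖a.2.2‖ < 5 →
      (if ‖a.2.2‖ < 5 then jTof ε e G cT a else G (0, 0)) = jTof ε e G cT a :=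
    fun a ha => if_pos ha
  refine ⟨{
    G := G
    jK := jKof ε k G cK
    jT := fun a => if ‖a.2.2‖ < 5 then jTof ε e G cT a else G (0, 0)
    G_per := G_per
    G_loc := fun p r a b c => G_loc p r ⟨a, b, c⟩
    G_inj := fun p r p' r' a b c a' b' c' => G_inj p r p' r' ⟨a, b, c⟩ ⟨a', b', c'⟩
    jK_loc := ?_
    jK_inj := fun y y' ζ ζ' => OfCoreM_jK_inj h0 h1 h2 h3 G_per G_inj cK_inj dK y y' ζ ζ'
    jT_per := ?_
    jT_loc := ?_
    jT_inj := ?_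
    glueK := OfCoreM_glueK h0 h1 h2 h3 G_per
    glueT := ?_
    disjK := ?_
    disjT := ?_
    disjKT := ?_ }, rfl, hzK, ?_⟩
  · intro y ζ hζ
    by_cases hζ0 : ζ = 0
    · subst hζ0
      exact locK y
    · obtain ⟨s, t, hs, hs1, rfl⟩ := OfCoreM_polar hζ0 hζ
      exact OfCoreM_jK_ld h0 h1 h2 h3 G_per G_loc y hs hs1
  · intro q y Z a b
    by_cases hZ5 : ‖Z‖ < 5
    · simp only [hZ5, if_true]
      by_cases hZ0 : Z = 0
      · subst hZ0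
        rw [hzT, hzT, cT_per]
      · obtain ⟨s, u, hs, hs5, rfl⟩ := OfCoreM_polar hZ0 hZ5
        rw [OfCoreM_glueT h0 h2 h3 G_per _ _ u s hs hs5, OfCoreM_glueT h0 h2 h3 G_per _ _ u s hs hs5]
        have h4 := G_per _ _ 0 (b + 0 * I)
          (Reg_T h0 h2 h3 (q := q + e * u) hs hs5 ((y : ℝ) + (u : ℝ) * I)).1 GI_zero
          ⟨b, 0, by simp⟩
        rw [← h4]
        have e1 : ex (q + a + e * u) = ex (q + e * u) := by
          have : q + a + e * u = q + e * u + a := by ring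
          rw [this, OfCoreM_ex_add_int]
        rw [e1]
        congr 2
        · ring
        · push_cast
          ring
    · simp only [hZ5, if_false]
  · intro q y Z hZ
    have h4 : IsLocalDiffeomorphAt 𝓘(ℝ, ℝ × ℝ × ℂ) (𝓡 4) ∞ (jTof ε e G cT) (q, y, Z) := by
      by_cases hZ0 : Z = 0
      · subst hZ0
        exact locT q y
      · obtain ⟨s, u, hs, hs5, rfl⟩ := OfCoreM_polar hZ0 hZ
        exact OfCoreM_jT_ld h0 h2 h3 G_per G_loc q y hs hs5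
    refine ld_congr h4 ?_
    have hn : Continuous fun a : ℝ × ℝ × ℂ => ‖a.2.2‖ := (continuous_snd.comp continuous_snd).norm
    filter_upwards [(hn.continuousAt (x := (q, y, Z))).eventually_lt_const hZ] with a ha
    exact hjT a ha
  · intro q y Z q' y' Z' hZ hZ' h
    simp only [hZ, hZ', if_true] at h
    exact OfCoreM_jT_inj h0 h1 h2 h3 G_per G_inj cT_inj dT q y Z q' y' Z' hZ hZ' h
  · intro q y u s hs hs5
    have h4 : ‖(s : ℂ) * ex u‖ < 5 := by rw [OfCoreM_norm hs]; exact hs5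
    simp only [h4, if_true]
    exact OfCoreM_glueT h0 h2 h3 G_per q y u s hs hs5
  · intro y p r a b c
    rw [hzK]
    exact dK y p r ⟨a, b, c⟩
  · intro q y p r a b c
    simp only [norm_zero, Nat.ofNat_pos, if_true]
    rw [hzT]
    exact dT _ p r ⟨a, b, c⟩
  · intro y q y'
    simp only [norm_zero, Nat.ofNat_pos, if_true]
    rw [hzK, hzT]
    exact dKT _ _
  · intro q y
    simp only [norm_zero, Nat.ofNat_pos, if_true]
    exact hzT q y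

end Pool.Agent.TS
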