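import Pool.Agent.TS.LSDef
import Pool.Agent.CSG.EDef

/-!
# TS/PDef: P-data (circle surgery on a circle bundle over an open book), and the statement of `swap`

Coordinates `x = pt x0 u y` of `R^3` (`x 0 = x0` the fibre direction of the circle bundle, `x 1 = u`, `x 2 = y`), `t`.
Monodromy `κ` (`H (κ x, t) = H (x, t + 1)`), `κ = 1` near the axis `u = y = 0` and its translates.

* `H` is defined off the axis (`OffAx x`) and off the circle `C` (`x0 = y = 1/2`, `t = 1/2`, direction `u`);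
* `jb (θ, x0, ζ)`: binding.  The `t`-circle bounds: `jb (θ, x0, s e^{2πi(t - 1/2)}) = H (pt x0 (Im r) (Re r), t)`,
  `r = ε s e^{2πi (θ + k (t - 1/2))}`, `0 < s < 5`;
* `jc (Y, ζ)`: surgery of the circle `C` with framing twist `e`:
  `jc (Y, s e^{2πiu}) = H (pt (1/2 + Re z) u (1/2 + ε s Y_0), 1/2 + Im z)`, `z = ε s e^{2πi e thc u} (Y_1 + i Y_2)`, `0 < s < 1`.
-/

open scoped Manifold ContDiff
open Complex (I)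

namespace Pool.Agent.TS
open Pool.Agent.CSG

/-- off the axes -/
def OffAx (x : E3) : Prop := ¬ ((∃ a : ℤ, x 1 = a) ∧ ∃ b : ℤ, x 2 = b)

/-- on the surgered circle -/
def OnC (x : E3) (t : ℝ) : Prop := t = 1 / 2 ∧ (∃ a : ℤ, x 0 = a + 1 / 2) ∧ ∃ b : ℤ, x 2 = b + 1 / 2

structure PD (κ : Equiv.Perm E3) (ε : ℝ) (k e : ℤ) (X : Type*) [TopologicalSpace X]
    [ChartedSpace E4 X] where
  H : E3 × ℝ → X
  jb : ℝ × ℝ × ℂ → X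
  jc : S2 × ℂ → X
  H_loc : ∀ x t, -(1 / 8) < t → t < 9 / 8 → OffAx x → ¬ OnC x t →
    IsLocalDiffeomorphAt 𝓘(ℝ, E3 × ℝ) (𝓡 4) ∞ H (x, t)
  H_per : ∀ x t m, -(1 / 8) < t → t < 9 / 8 → OffAx x → H (x + vec m, t) = H (x, t)
  H_mon : ∀ x t, -(1 / 8) < t → t < 1 / 8 → OffAx x → H (κ x, t) = H (x, t + 1)
  H_inj : ∀ x y s t, OffAx x → ¬ OnC x s → OffAx y → ¬ OnC y t → 0 ≤ s → s < 1 → 0 ≤ t → t < 1 →
    H (x, s) = H (y, t) → s = t ∧ ∃ m, y = x + vec m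
  jb_per : ∀ θ x ζ (a b : ℤ), jb (θ + a, x + b, ζ) = jb (θ, x, ζ)
  jb_loc : ∀ θ x ζ, ‖ζ‖ < 5 → IsLocalDiffeomorphAt 𝓘(ℝ, ℝ × ℝ × ℂ) (𝓡 4) ∞ jb (θ, x, ζ)
  jb_inj : ∀ θ x ζ θ' x' ζ', ‖ζ‖ < 5 → ‖ζ'‖ < 5 → jb (θ, x, ζ) = jb (θ', x', ζ') →
    (∃ a : ℤ, θ' = θ + a) ∧ (∃ b : ℤ, x' = x + b) ∧ ζ' = ζ
  jc_loc : ∀ y ζ, ‖ζ‖ < 1 →
    IsLocalDiffeomorphAt ((𝓡 2).prod 𝓘(ℝ, ℂ)) (𝓡 4) ∞ jc (y, ζ)
  jc_inj : ∀ y y' ζ ζ', ‖ζ‖ < 1 → ‖ζ'‖ < 1 → jc (y, ζ) = jc (y', ζ') → y = y' ∧ ζ = ζ'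
  glueb : ∀ θ x t s : ℝ, -(1 / 8) < t → t < 9 / 8 → 0 < s → s < 5 →
    jb (θ, x, s * ex (t - 1 / 2)) =
      H (pt x (ε * s * ex (θ + k * (t - 1 / 2))).im (ε * s * ex (θ + k * (t - 1 / 2))).re, t)
  gluec : ∀ (y : S2) (u s : ℝ), 0 < s → s < 1 →
    jc (y, s * ex u) = H (pt (1 / 2 + (ε * s * ex (e * thc u) * yc y).re) u (1 / 2 + ε * s * (y : E3) 0),
      1 / 2 + (ε * s * ex (e * thc u) * yc y).im)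
  disjb : ∀ θ x₀ x t, OffAx x → ¬ OnC x t → 0 ≤ t → t < 1 → jb (θ, x₀, 0) ≠ H (x, t)
  disjc : ∀ y x t, OffAx x → ¬ OnC x t → 0 ≤ t → t < 1 → jc (y, 0) ≠ H (x, t)
  disjbc : ∀ y θ x₀, jc (y, 0) ≠ jb (θ, x₀, 0)
  cover : ∀ q : X, (∃ θ x₀, q = jb (θ, x₀, 0)) ∨ (∃ y, q = jc (y, 0)) ∨
    ∃ x t, OffAx x ∧ ¬ OnC x t ∧ 0 ≤ t ∧ t < 1 ∧ q = H (x, t)

/-- `κ` is a monodromy which is the identity within distance `δ` of the axes. -/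
structure AxMono (κ : Equiv.Perm E3) (δ : ℝ) : Prop where
  mono : ∃ A, Mono A κ
  pos : 0 < δ
  axis : ∀ x, |x 1| < δ → |x 2| < δ → κ x = x
  off : ∀ x, OffAx (κ x) ↔ OffAx x

section
variable {X : Type*} [TopologicalSpace X] [ChartedSpace E4 X]

/-- the part of `X` near the two tori -/
def LS.Rg {ε ρ : ℝ} {k e : ℤ} (L : LS ε ρ k e X) : Set X :=
  {q | (∃ p r, (‖fr p‖ < 3 * ε ∨ ‖fr r‖ < 3 * ε) ∧ p ∉ GI ∧ ¬ OnCK p r ∧ q = L.G (p, r)) ∨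
    (∃ y, q = L.jK (y, 0)) ∨ ∃ q₀ y, q = L.jT (q₀, y, 0)}

/-- The local theorem (to be proved in TS/Swap). -/
def SwapStatement (X : Type*) [TopologicalSpace X] [ChartedSpace E4 X] : Prop :=
  ∀ (ε ρ : ℝ) (k e : ℤ), 0 < ε → ε ≤ 1 / 1000 → 5 * ε < ρ → ρ ≤ 1 / 8 → ∀ L : LS ε ρ k e X,
    ∃ L' : LS ε ρ e k X, L'.Rg = L.Rg ∧
      ∀ p r, (p, r) ∈ Wd ρ → 3 * ε ≤ ‖fr p‖ → 3 * ε ≤ ‖fr r‖ → L'.G (r, p) = L.G (p, r)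

end

end Pool.Agent.TS
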