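import Pool.Agent.CSG.Isots
import Pool.Agent.TS.PDef
import Pool.Agent.UNQ.Base

/-!
# TS/AxCut: cutting off linear families near the axes `{u = y = 0} + Z^3`

`axd x` is the distance of `(x 1, x 2)` to `Z^2` (more precisely the norm of `(x 1, x 2)` minus the
vector of nearest integers).

`axcut`: proof of `exists_kappa` (CSG/Kappa) word for word, with `L t τ = M(t, τ)` (the plane part of
`N t τ`) instead of `M (st t * τ)`, with `R` instead of `1/4`, the bounds from compactness of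
`[0,1] × [0,1]` and periodicity (as in UNQ/Tube.radial_loop).  The additional conclusions follow from
`Kappa_red (Kappa_p (χ t x)) = f t (Kappa_red (Kappa_p x))`, where `f t` is a bijection of the plane with
`f t 0 = 0` which is the identity for `‖Z‖ ≥ R` (`hred1` in the proof of `exists_kappa`); `OffAx x` iff
`Kappa_red (Kappa_p x) ≠ 0`.

`exists_kappa'`, `exists_isots'`: the proofs of `exists_kappa` and `exists_isots` with the additional
conclusions.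
-/

open scoped ContDiff
open Set

namespace Pool.Agent.TS
open Pool.Agent.CSG Pool.Agent.UNQ

/-- distance to the axes -/
noncomputable def axd (x : E3) : ℝ := ‖Kappa_red (Kappa_p x)‖

theorem offAx_iff (x : E3) : OffAx x ↔ 0 < axd x := by
  unfold OffAx axd
  rw [norm_pos_iff, not_iff_not]
  constructor
  · rintro ⟨⟨a, ha⟩, b, hb⟩
    ext j
    rw [Kappa_red_apply]
    fin_cases j
    · show Kappa_p x 0 - (round (Kappa_p x 0) : ℝ) = 0
      rw [Kappa_p_zero, ha, round_intCast, sub_self]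
    · show Kappa_p x 1 - (round (Kappa_p x 1) : ℝ) = 0
      rw [Kappa_p_one, hb, round_intCast, sub_self]
  · intro h
    have h0 : Kappa_red (Kappa_p x) 0 = 0 := by rw [h]; rfl
    have h1 : Kappa_red (Kappa_p x) 1 = 0 := by rw [h]; rfl
    rw [Kappa_red_apply, Kappa_p_zero] at h0
    rw [Kappa_red_apply, Kappa_p_one] at h1
    exact ⟨⟨_, sub_eq_zero.1 h0⟩, _, sub_eq_zero.1 h1⟩

theorem AxCut_p_vec (x : E3) (m : Fin 3 → ℤ) :
    Kappa_p (x + vec m) = Kappa_p x + Kappa_z ![m 1, m 2] := by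
  rw [map_add]
  congr 1
  ext j
  fin_cases j
  · show Kappa_p (vec m) 0 = (m 1 : ℝ)
    rw [Kappa_p_zero]
    rfl
  · show Kappa_p (vec m) 1 = (m 2 : ℝ)
    rw [Kappa_p_one]
    rfl

theorem axd_add_vec (x : E3) (m : Fin 3 → ℤ) : axd (x + vec m) = axd x := by
  unfold axd
  rw [AxCut_p_vec, Kappa_red_add]

theorem AxCut_round {a : ℝ} (h : |a| < 1 / 2) : round a = 0 := by
  rw [round_eq_zero_iff, Set.mem_Ico]
  have := abs_lt.1 h
  exact ⟨this.1.le, this.2⟩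

/-- `axd` near the axis itself -/
theorem axd_of_small {x : E3} (h1 : |x 1| < 1 / 2) (h2 : |x 2| < 1 / 2) :
    axd x ^ 2 = x 1 ^ 2 + x 2 ^ 2 := by
  unfold axd
  rw [EuclideanSpace.norm_sq_eq, Fin.sum_univ_two, Kappa_red_apply, Kappa_red_apply, Kappa_p_zero,
    Kappa_p_one, AxCut_round h1, AxCut_round h2, Real.norm_eq_abs, Real.norm_eq_abs, sq_abs, sq_abs]
  simp

theorem AxCut_core {f : ℝ → Equiv.Perm Kappa_F} {D : Kappa_F × ℝ → E3} {R : ℝ} (hR : 0 < R)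
    (hR' : R ≤ 1 / 4) (hfs' : ContDiff ℝ ∞ fun q : Kappa_F × ℝ => (f q.2).symm q.1)
    (hDs : ContDiff ℝ ∞ D) (hD0 : ∀ Z t, R ≤ ‖Z‖ → D (Z, t) = 0)
    (hpD : ∀ Z t, Kappa_p (D (Z, t)) = f t Z - Z) (hf0 : ∀ t, f t 0 = 0) :
    ∃ χ : ℝ → Equiv.Perm E3,
      (ContDiff ℝ ∞ fun q : E3 × ℝ => χ q.2 q.1) ∧
      (ContDiff ℝ ∞ fun q : E3 × ℝ => (χ q.2).symm q.1) ∧
      (∀ t x, χ t x = x + D (Kappa_red (Kappa_p x), t)) ∧
      (∀ t x m, χ t (x + vec m) = χ t x + vec m) ∧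
      (∀ t x, R ≤ axd x → χ t x = x) ∧
      (∀ t x, axd x < R → axd (χ t x) < R) ∧
      (∀ t x, OffAx (χ t x) ↔ OffAx x) := by
  have hf1 : ∀ t Z, R ≤ ‖Z‖ → f t Z = Z := by
    intro t Z hZ
    have h1 := hpD Z t
    rw [hD0 Z t hZ, map_zero] at h1
    exact (sub_eq_zero.1 h1.symm)
  have hf2 : ∀ t Z, ‖Z‖ < R → ‖f t Z‖ < R := by
    intro t Z hZ
    by_contra hcon
    push Not at hcon
    have h1 := hf1 t (f t Z) hcon
    have h2 := (f t).injective h1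
    rw [h2] at hcon
    linarith
  have hf1' : ∀ t W, R ≤ ‖W‖ → (f t).symm W = W := by
    intro t W hW
    rw [Equiv.symm_apply_eq]
    exact (hf1 t W hW).symm
  have hf2' : ∀ t W, ‖W‖ < R → ‖(f t).symm W‖ < R := by
    intro t W hW
    by_contra hcon
    push Not at hcon
    have h1 := hf1 t _ hcon
    rw [Equiv.apply_symm_apply] at h1
    rw [← h1] at hcon
    linarith
  have hsmall : ∀ Z : Kappa_F, ‖Z‖ < R → ∀ j, |Z j| < 1 / 2 := by
    intro Z hZ j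
    linarith [Kappa_coord_le Z j]
  set k : ℝ → E3 → E3 := fun t x => x + D (Kappa_red (Kappa_p x), t) with hk
  set k' : ℝ → E3 → E3 := fun t x => x - D ((f t).symm (Kappa_red (Kappa_p x)), t) with hk'
  have hred1 : ∀ t x, Kappa_red (Kappa_p (k t x)) = f t (Kappa_red (Kappa_p x)) := by
    intro t x
    set Z := Kappa_red (Kappa_p x) with hZ
    set m : Fin 2 → ℤ := fun j => round (Kappa_p x j) with hm
    have h1 : Kappa_p x = Kappa_z m + Z := Kappa_red_eq (Kappa_p x)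
    have h2 : Kappa_p (k t x) = Kappa_z m + f t Z := by
      show Kappa_p (x + D (Z, t)) = _
      rw [map_add, hpD, h1]
      abel
    rcases lt_or_ge ‖Z‖ R with h | h
    · rw [h2, Kappa_red_small (hsmall _ (hf2 t Z h))]
    · rw [h2, hf1 t Z h, ← h1]
  have hred2 : ∀ t x, Kappa_red (Kappa_p (k' t x)) = (f t).symm (Kappa_red (Kappa_p x)) := by
    intro t x
    set W := Kappa_red (Kappa_p x) with hW
    set m : Fin 2 → ℤ := fun j => round (Kappa_p x j) with hm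
    have h1 : Kappa_p x = Kappa_z m + W := Kappa_red_eq (Kappa_p x)
    have h2 : Kappa_p (k' t x) = Kappa_z m + (f t).symm W := by
      show Kappa_p (x - D ((f t).symm W, t)) = _
      rw [map_sub, hpD, h1, Equiv.apply_symm_apply]
      abel
    rcases lt_or_ge ‖W‖ R with h | h
    · rw [h2, Kappa_red_small (hsmall _ (hf2' t W h))]
    · rw [h2, hf1' t W h, ← h1]
  set κ : ℝ → Equiv.Perm E3 := fun t =>
    { toFun := k t
      invFun := k' t
      left_inv := by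
        intro x
        show k t x - D ((f t).symm (Kappa_red (Kappa_p (k t x))), t) = x
        rw [hred1, Equiv.symm_apply_apply]
        show x + D (Kappa_red (Kappa_p x), t) - D (Kappa_red (Kappa_p x), t) = x
        rw [add_sub_cancel_right]
      right_inv := by
        intro x
        show k' t x + D (Kappa_red (Kappa_p (k' t x)), t) = x
        rw [hred2]
        show x - D ((f t).symm (Kappa_red (Kappa_p x)), t) +
          D ((f t).symm (Kappa_red (Kappa_p x)), t) = x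
        rw [sub_add_cancel] } with hκ
  have hκa : ∀ t x, κ t x = x + D (Kappa_red (Kappa_p x), t) := fun t x => rfl
  have haxd : ∀ t x, axd (κ t x) = ‖f t (Kappa_red (Kappa_p x))‖ := by
    intro t x
    show ‖Kappa_red (Kappa_p (k t x))‖ = _
    rw [hred1]
  refine ⟨κ, ?_, ?_, hκa, ?_, ?_, ?_, ?_⟩
  · exact contDiff_fst.add (Kappa_periodize hDs fun Z t hZ => hD0 Z t (hR'.trans hZ))
  · have h1 : ContDiff ℝ ∞ (fun q : Kappa_F × ℝ => D ((f q.2).symm q.1, q.2)) :=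
      hDs.comp (hfs'.prodMk contDiff_snd)
    have h2 := Kappa_periodize h1 (by
      intro Z t hZ
      show D ((f t).symm Z, t) = 0
      rw [hf1' t Z (hR'.trans hZ)]
      exact hD0 Z t (hR'.trans hZ))
    exact contDiff_fst.sub h2
  · intro t x m
    rw [hκa, hκa, AxCut_p_vec, Kappa_red_add]
    abel
  · intro t x hx
    rw [hκa, hD0 _ t hx, add_zero]
  · intro t x hx
    rw [haxd]
    exact hf2 t _ hx
  · intro t x
    rw [offAx_iff, offAx_iff, haxd]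
    unfold axd
    rw [norm_pos_iff, norm_pos_iff, not_iff_not]
    constructor
    · intro h
      apply (f t).injective
      rw [h, hf0]
    · intro h
      rw [h, hf0]

/-- the final computation near the axis -/
theorem AxCut_near {x : E3} {r₀ : ℝ} (hr1 : r₀ < 1 / 4) (hx1 : |x 1| < r₀ / 2)
    (hx2 : |x 2| < r₀ / 2) : ‖Kappa_p x‖ ≤ r₀ ∧ Kappa_red (Kappa_p x) = Kappa_p x := by
  set Z := Kappa_p x with hZ
  have hZ0 : Z 0 = x 1 := Kappa_p_zero x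
  have hZ1 : Z 1 = x 2 := Kappa_p_one x
  have hZn : ‖Z‖ ≤ r₀ := by
    refine (Kappa_norm_le Z).trans ?_
    rw [hZ0, hZ1]
    linarith
  refine ⟨hZn, ?_⟩
  have hz0 : Kappa_z 0 + Z = Z := by
    ext j
    rw [PiLp.add_apply, Kappa_z_apply]
    simp
  have h1 := Kappa_red_small (Z := Z) (by
    intro j
    have := Kappa_coord_le Z j
    linarith) 0
  rwa [hz0] at h1

theorem AxCut_lin (B : E3 ≃L[ℝ] E3) (hB : B e₀ = e₀) (x : E3) :
    x + ((B (Kappa_i (Kappa_p x)) 0) • e₀ +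
      Kappa_i (Kappa_p (B (Kappa_i (Kappa_p x))) - Kappa_p x)) = B x := by
  have h4 := Kappa_decomp (B (Kappa_i (Kappa_p x)))
  have h5 := Kappa_decomp x
  conv_rhs => rw [h5, map_add, map_smul, hB, h4]
  rw [map_sub]
  conv_lhs => enter [1]; rw [h5]
  abel_nf

theorem AxCut_fract {α : Type*} {g : ℝ → α} (h : ∀ a, g (a + 1) = g a) (a : ℝ) :
    g (Int.fract a) = g a := by
  have h1 : Function.Periodic g 1 := h
  have h2 := h1.sub_int_mul_eq (x := a) ⌊a⌋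
  rw [mul_one] at h2
  exact h2

theorem AxCut_bounds {N : ℝ → ℝ → E3 ≃L[ℝ] E3}
    (hN : ContDiff ℝ ∞ fun q : ℝ × ℝ × E3 => N q.1 q.2.1 q.2.2)
    (hper : ∀ t τ z, N (t + 1) τ z = N t τ z) :
    ∃ C : ℝ, 0 ≤ C ∧ (∀ t τ z, 0 ≤ τ → τ ≤ 1 → ‖N t τ z‖ ≤ C * ‖z‖) ∧
      (∀ t τ z, 0 ≤ τ → τ ≤ 1 → ‖(N t τ).symm z‖ ≤ C * ‖z‖) ∧
      (∀ t τ τ' z, 0 ≤ τ → τ ≤ 1 → 0 ≤ τ' → τ' ≤ 1 →
        ‖N t τ z - N t τ' z‖ ≤ C * |τ - τ'| * ‖z‖) := by
  let Mo : ℝ × ℝ → E3 ≃L[ℝ] E3 := fun q => N q.1 q.2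
  have hMo : ContDiff ℝ ∞ fun q : (ℝ × ℝ) × E3 => Mo q.1 q.2 := (fam2_iff N).1 hN
  have hc1 := (fam_iff Mo).1 hMo
  have hc2 := (fam_iff (fun q => (Mo q).symm)).1 (fam_symm hMo)
  have hK : IsCompact (Icc (0 : ℝ) 1 ×ˢ Icc (0 : ℝ) 1) := isCompact_Icc.prod isCompact_Icc
  obtain ⟨B1, hB1⟩ := hK.exists_bound_of_continuousOn hc1.continuous.continuousOn
  obtain ⟨B2, hB2⟩ := hK.exists_bound_of_continuousOn hc2.continuous.continuousOn
  have hd : Continuous (fderiv ℝ fun q : ℝ × ℝ => (Mo q : E3 →L[ℝ] E3)) :=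
    hc1.continuous_fderiv (by simp)
  obtain ⟨B3, hB3⟩ := hK.exists_bound_of_continuousOn (E := ℝ × ℝ →L[ℝ] E3 →L[ℝ] E3)
    (f := fderiv ℝ fun q : ℝ × ℝ => (Mo q : E3 →L[ℝ] E3)) hd.continuousOn
  set C : ℝ := max (max B1 B2) (max B3 0) with hC
  have hCB1 : B1 ≤ C := (le_max_left _ _).trans (le_max_left _ _)
  have hCB2 : B2 ≤ C := (le_max_right _ _).trans (le_max_left _ _)
  have hCB3 : B3 ≤ C := (le_max_left _ _).trans (le_max_right _ _)
  have hC0 : 0 ≤ C := (le_max_right _ _).trans (le_max_right _ _)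
  have hfr : ∀ t τ, N (Int.fract t) τ = N t τ := by
    intro t τ
    exact AxCut_fract (g := fun t => N t τ)
      (fun a => ContinuousLinearEquiv.ext (funext fun z => hper a τ z)) t
  have hfr01 : ∀ t τ, 0 ≤ τ → τ ≤ 1 → (Int.fract t, τ) ∈ Icc (0 : ℝ) 1 ×ˢ Icc (0 : ℝ) 1 :=
    fun t τ a b => ⟨⟨Int.fract_nonneg t, (Int.fract_lt_one t).le⟩, ⟨a, b⟩⟩
  refine ⟨C, hC0, ?_, ?_, ?_⟩
  · intro t τ z a b
    rw [← hfr t τ]
    have h1 := hB1 _ (hfr01 t τ a b)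
    calc ‖N (Int.fract t) τ z‖ = ‖(N (Int.fract t) τ : E3 →L[ℝ] E3) z‖ := rfl
      _ ≤ ‖(N (Int.fract t) τ : E3 →L[ℝ] E3)‖ * ‖z‖ := ContinuousLinearMap.le_opNorm _ _
      _ ≤ C * ‖z‖ := by gcongr; exact h1.trans hCB1
  · intro t τ z a b
    rw [← hfr t τ]
    have h1 := hB2 _ (hfr01 t τ a b)
    calc ‖(N (Int.fract t) τ).symm z‖ = ‖((N (Int.fract t) τ).symm : E3 →L[ℝ] E3) z‖ := rfl
      _ ≤ ‖((N (Int.fract t) τ).symm : E3 →L[ℝ] E3)‖ * ‖z‖ := ContinuousLinearMap.le_opNorm _ _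
      _ ≤ C * ‖z‖ := by gcongr; exact h1.trans hCB2
  · intro t τ τ' z a b a' b'
    rw [← hfr t τ, ← hfr t τ']
    have hconv : Convex ℝ (Icc (0 : ℝ) 1 ×ˢ Icc (0 : ℝ) 1) :=
      (convex_Icc _ _).prod (convex_Icc _ _)
    have h1 := hconv.norm_image_sub_le_of_norm_fderiv_le (𝕜 := ℝ)
      (f := fun q : ℝ × ℝ => (Mo q : E3 →L[ℝ] E3)) (C := B3)
      (fun q _ => (hc1.differentiable (by simp)).differentiableAt) hB3
      (hfr01 t τ' a' b') (hfr01 t τ a b)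
    have h2 : ‖(Int.fract t, τ) - (Int.fract t, τ')‖ = |τ - τ'| := by
      simp [Prod.norm_def]
    rw [h2] at h1
    calc ‖N (Int.fract t) τ z - N (Int.fract t) τ' z‖
        = ‖((N (Int.fract t) τ : E3 →L[ℝ] E3) - (N (Int.fract t) τ' : E3 →L[ℝ] E3)) z‖ := rfl
      _ ≤ ‖(N (Int.fract t) τ : E3 →L[ℝ] E3) - (N (Int.fract t) τ' : E3 →L[ℝ] E3)‖ * ‖z‖ :=
          ContinuousLinearMap.le_opNorm _ _
      _ ≤ (B3 * |τ - τ'|) * ‖z‖ := by gcongr
      _ ≤ C * |τ - τ'| * ‖z‖ := by gcongr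

theorem axcut {N : ℝ → ℝ → E3 ≃L[ℝ] E3}
    (hN : ContDiff ℝ ∞ fun q : ℝ × ℝ × E3 => N q.1 q.2.1 q.2.2)
    (hper : ∀ t τ z, N (t + 1) τ z = N t τ z) (h0 : ∀ t z, N t 0 z = z)
    (he : ∀ t τ, N t τ e₀ = e₀) {R : ℝ} (hR : 0 < R) (hR' : R ≤ 1 / 4) :
    ∃ r₀ : ℝ, 0 < r₀ ∧ ∃ χ : ℝ → Equiv.Perm E3,
      (ContDiff ℝ ∞ fun q : E3 × ℝ => χ q.2 q.1) ∧
      (ContDiff ℝ ∞ fun q : E3 × ℝ => (χ q.2).symm q.1) ∧
      (∀ t x, χ (t + 1) x = χ t x) ∧
      (∀ t x m, χ t (x + vec m) = χ t x + vec m) ∧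
      (∀ t x, R ≤ axd x → χ t x = x) ∧
      (∀ t x, axd x < R → axd (χ t x) < R) ∧
      (∀ t x, OffAx (χ t x) ↔ OffAx x) ∧
      (∀ t x, |x 1| < r₀ → |x 2| < r₀ → χ t x = N t 1 x) := by
  obtain ⟨C, hC0, hC1, hC2, hC3⟩ := AxCut_bounds hN hper
  set L : ℝ → ℝ → Kappa_F ≃L[ℝ] Kappa_F := fun t τ => Kappa_M (N t τ) (he t τ) with hL
  have hLa : ∀ t τ Z, L t τ Z = Kappa_p (N t τ (Kappa_i Z)) := fun t τ Z => rfl
  have hLs : ∀ t τ Z, (L t τ).symm Z = Kappa_p ((N t τ).symm (Kappa_i Z)) := fun t τ Z => rfl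
  have hi : ∀ Z, ‖Kappa_i Z‖ ≤ ‖Kappa_i‖ * ‖Z‖ := fun Z => ContinuousLinearMap.le_opNorm _ _
  have hp : ∀ x, ‖Kappa_p x‖ ≤ ‖Kappa_p‖ * ‖x‖ := fun Z => ContinuousLinearMap.le_opNorm _ _
  have hi0' : 0 ≤ ‖Kappa_i‖ := norm_nonneg _
  have hp0' : 0 ≤ ‖Kappa_p‖ := norm_nonneg _
  obtain ⟨r₀, hr0, hr1, θ, f, hθs, hθm, hθ1, hθ0, hf, hfs, hfs'⟩ := radial L
    (Kappa_p.contDiff.comp (hN.comp (contDiff_fst.prodMk ((contDiff_fst.comp contDiff_snd).prodMk
      (Kappa_i.contDiff.comp (contDiff_snd.comp contDiff_snd))))))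
    (by
      intro t z
      rw [hLa, h0, Kappa_pi]) (‖Kappa_p‖ * (C * ‖Kappa_i‖))
    (by
      intro t τ z a b
      rw [hLa]
      calc ‖Kappa_p (N t τ (Kappa_i z))‖ ≤ ‖Kappa_p‖ * ‖N t τ (Kappa_i z)‖ := hp _
        _ ≤ ‖Kappa_p‖ * (C * ‖Kappa_i z‖) := by gcongr; exact hC1 _ _ _ a b
        _ ≤ ‖Kappa_p‖ * (C * (‖Kappa_i‖ * ‖z‖)) := by gcongr; exact hi z
        _ = ‖Kappa_p‖ * (C * ‖Kappa_i‖) * ‖z‖ := by ring)
    (by
      intro t τ z a b
      rw [hLs]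
      calc ‖Kappa_p ((N t τ).symm (Kappa_i z))‖ ≤ ‖Kappa_p‖ * ‖(N t τ).symm (Kappa_i z)‖ := hp _
        _ ≤ ‖Kappa_p‖ * (C * ‖Kappa_i z‖) := by gcongr; exact hC2 _ _ _ a b
        _ ≤ ‖Kappa_p‖ * (C * (‖Kappa_i‖ * ‖z‖)) := by gcongr; exact hi z
        _ = ‖Kappa_p‖ * (C * ‖Kappa_i‖) * ‖z‖ := by ring)
    (by
      intro t τ τ' z a b a' b'
      rw [hLa, hLa, ← map_sub]
      calc ‖Kappa_p (N t τ (Kappa_i z) - N t τ' (Kappa_i z))‖
          ≤ ‖Kappa_p‖ * ‖N t τ (Kappa_i z) - N t τ' (Kappa_i z)‖ := hp _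
        _ ≤ ‖Kappa_p‖ * (C * |τ - τ'| * ‖Kappa_i z‖) := by
            gcongr; exact hC3 _ _ _ _ a b a' b'
        _ ≤ ‖Kappa_p‖ * (C * |τ - τ'| * (‖Kappa_i‖ * ‖z‖)) := by gcongr; exact hi z
        _ = ‖Kappa_p‖ * (C * ‖Kappa_i‖) * |τ - τ'| * ‖z‖ := by ring)
    R hR
  have hfM : ∀ t z, f t z = Kappa_p (N t (θ z) (Kappa_i z)) := hf
  set D : Kappa_F × ℝ → E3 := fun q =>
    (N q.2 (θ q.1) (Kappa_i q.1)) 0 • e₀ + Kappa_i (f q.2 q.1 - q.1) with hD
  have hDs : ContDiff ℝ ∞ D := by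
    have h1 : ContDiff ℝ ∞ (fun q : Kappa_F × ℝ => N q.2 (θ q.1) (Kappa_i q.1)) :=
      hN.comp (contDiff_snd.prodMk ((hθs.comp contDiff_fst).prodMk
        (Kappa_i.contDiff.comp contDiff_fst)))
    have h2 : ContDiff ℝ ∞ (fun q : Kappa_F × ℝ => (N q.2 (θ q.1) (Kappa_i q.1)) 0) :=
      (contDiff_euclidean.1 h1 0)
    exact (h2.smul contDiff_const).add (Kappa_i.contDiff.comp (hfs.sub contDiff_fst))
  have hi0 : ∀ Z, (Kappa_i Z) 0 = 0 := by
    intro Z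
    rw [Kappa_i_apply, pt_zero']
  have hD0 : ∀ Z t, R ≤ ‖Z‖ → D (Z, t) = 0 := by
    intro Z t hZ
    show (N t (θ Z) (Kappa_i Z)) 0 • e₀ + Kappa_i (f t Z - Z) = 0
    rw [hfM, hθ0 Z hZ, h0, hi0, Kappa_pi, sub_self, map_zero, zero_smul, zero_add]
  have hpD : ∀ Z t, Kappa_p (D (Z, t)) = f t Z - Z := by
    intro Z t
    show Kappa_p ((N t (θ Z) (Kappa_i Z)) 0 • e₀ + Kappa_i (f t Z - Z)) = f t Z - Z
    rw [map_add, map_smul, Kappa_p_e, smul_zero, zero_add, Kappa_pi]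
  obtain ⟨χ, c1, c2, c3, c4, c5, c6, c7⟩ := AxCut_core hR hR' hfs' hDs hD0 hpD
    (by intro t; rw [hfM, map_zero, map_zero, map_zero])
  refine ⟨r₀ / 2, by linarith, χ, c1, c2, ?_, c4, c5, c6, c7, ?_⟩
  · intro t x
    rw [c3, c3]
    congr 1
    show (N (t + 1) (θ _) (Kappa_i _)) 0 • e₀ + Kappa_i (f (t + 1) _ - _) =
      (N t (θ _) (Kappa_i _)) 0 • e₀ + Kappa_i (f t _ - _)
    rw [hfM, hfM, hper]
  · intro t x hx1 hx2
    obtain ⟨hZn, hred⟩ := AxCut_near (hr1.trans_le hR') hx1 hx2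
    rw [c3, hred]
    show x + ((N t (θ (Kappa_p x)) (Kappa_i (Kappa_p x))) 0 • e₀ +
      Kappa_i (f t (Kappa_p x) - Kappa_p x)) = N t 1 x
    rw [hfM, hθ1 _ hZn]
    exact AxCut_lin (N t 1) (he t 1) x

theorem exists_kappa' {B : ℝ → E3 ≃L[ℝ] E3} (hB : ContDiff ℝ ∞ fun q : ℝ × E3 => B q.1 q.2)
    (hB0 : ∀ z, B 0 z = z) (hBe : ∀ τ, B τ e₀ = e₀) :
    ∃ δ : ℝ, 0 < δ ∧ ∃ κ : ℝ → Equiv.Perm E3,
      (ContDiff ℝ ∞ fun q : E3 × ℝ => κ q.2 q.1) ∧
      (ContDiff ℝ ∞ fun q : E3 × ℝ => (κ q.2).symm q.1) ∧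
      (∀ t x m, κ t (x + vec m) = κ t x + vec m) ∧
      (∀ t, t ≤ 1 / 4 → κ t = 1) ∧ (∀ t, 3 / 4 ≤ t → κ t = κ 1) ∧
      (∀ t x, |x 1| < δ → |x 2| < δ → κ t x = B (stp (1 / 4) (3 / 4) t) x) ∧
      (∀ t x, 1 / 4 ≤ axd x → κ t x = x) ∧ (∀ t x, OffAx (κ t x) ↔ OffAx x) := by
  set M : ℝ → Kappa_F ≃L[ℝ] Kappa_F := fun τ => Kappa_M (B τ) (hBe τ) with hMdef
  have hMs : ContDiff ℝ ∞ fun q : ℝ × Kappa_F => M q.1 q.2 :=
    Kappa_p.contDiff.comp (hB.comp (contDiff_fst.prodMk (Kappa_i.contDiff.comp contDiff_snd)))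
  have hM0 : ∀ z, M 0 z = z := by
    intro z
    show Kappa_p (B 0 (Kappa_i z)) = z
    rw [hB0, Kappa_pi]
  obtain ⟨C, hC1, hC2, hC3, hC0⟩ := Kappa_bounds M hMs
  set st : ℝ → ℝ := stp (1 / 4) (3 / 4) with hst
  have hst0 : ∀ t, 0 ≤ st t := fun t => stp_nonneg _ _ _
  have hst1 : ∀ t, st t ≤ 1 := fun t => stp_le_one _ _ _
  have hsts : ContDiff ℝ ∞ st := stp_smooth _ _
  set L : ℝ → ℝ → Kappa_F ≃L[ℝ] Kappa_F := fun t τ => M (st t * τ) with hL
  have hmem : ∀ t τ, 0 ≤ τ → τ ≤ 1 → 0 ≤ st t * τ ∧ st t * τ ≤ 1 := by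
    intro t τ h0 h1
    exact ⟨mul_nonneg (hst0 t) h0, mul_le_one₀ (hst1 t) h0 h1⟩
  obtain ⟨r₀, hr0, hr1, θ, f, hθs, hθm, hθ1, hθ0, hf, hfs, hfs'⟩ := radial L
    (hMs.comp (((hsts.comp contDiff_fst).mul (contDiff_fst.comp contDiff_snd)).prodMk
      (contDiff_snd.comp contDiff_snd)))
    (by
      intro t z
      show M (st t * 0) z = z
      rw [mul_zero, hM0]) C
    (fun t τ z h0 h1 => hC1 _ z (hmem t τ h0 h1).1 (hmem t τ h0 h1).2)
    (fun t τ z h0 h1 => hC2 _ z (hmem t τ h0 h1).1 (hmem t τ h0 h1).2)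
    (by
      intro t τ τ' z h0 h1 h0' h1'
      refine (hC3 _ _ z (hmem t τ h0 h1).1 (hmem t τ h0 h1).2 (hmem t τ' h0' h1').1
        (hmem t τ' h0' h1').2).trans ?_
      apply mul_le_mul_of_nonneg_right _ (norm_nonneg z)
      apply mul_le_mul_of_nonneg_left _ hC0
      rw [← mul_sub, abs_mul, abs_of_nonneg (hst0 t)]
      have := abs_nonneg (τ - τ')
      nlinarith [hst1 t])
    (1 / 4) (by norm_num)
  have hfM : ∀ t z, f t z = M (st t * θ z) z := hf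
  set D : Kappa_F × ℝ → E3 := fun q =>
    (B (st q.2 * θ q.1) (Kappa_i q.1)) 0 • e₀ + Kappa_i (f q.2 q.1 - q.1) with hD
  have hDs : ContDiff ℝ ∞ D := by
    have h1 : ContDiff ℝ ∞ (fun q : Kappa_F × ℝ => B (st q.2 * θ q.1) (Kappa_i q.1)) :=
      hB.comp (((hsts.comp contDiff_snd).mul (hθs.comp contDiff_fst)).prodMk
        (Kappa_i.contDiff.comp contDiff_fst))
    have h2 : ContDiff ℝ ∞ (fun q : Kappa_F × ℝ => (B (st q.2 * θ q.1) (Kappa_i q.1)) 0) :=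
      (contDiff_euclidean.1 h1 0)
    exact (h2.smul contDiff_const).add (Kappa_i.contDiff.comp (hfs.sub contDiff_fst))
  have hf1 : ∀ t Z, 1 / 4 ≤ ‖Z‖ → f t Z = Z := by
    intro t Z hZ
    rw [hfM, hθ0 Z hZ, mul_zero, hM0]
  have hi0 : ∀ Z, (Kappa_i Z) 0 = 0 := by
    intro Z
    rw [Kappa_i_apply, pt_zero']
  have hD0 : ∀ Z t, 1 / 4 ≤ ‖Z‖ → D (Z, t) = 0 := by
    intro Z t hZ
    show (B (st t * θ Z) (Kappa_i Z)) 0 • e₀ + Kappa_i (f t Z - Z) = 0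
    rw [hθ0 Z hZ, mul_zero, hB0, hi0, hf1 t Z hZ, sub_self, map_zero, zero_smul, zero_add]
  have hpD : ∀ Z t, Kappa_p (D (Z, t)) = f t Z - Z := by
    intro Z t
    show Kappa_p ((B (st t * θ Z) (Kappa_i Z)) 0 • e₀ + Kappa_i (f t Z - Z)) = f t Z - Z
    rw [map_add, map_smul, Kappa_p_e, smul_zero, zero_add, Kappa_pi]
  obtain ⟨κ, c1, c2, hκa, c4, c5, c6, c7⟩ := AxCut_core (by norm_num) le_rfl hfs' hDs hD0 hpD
    (by intro t; rw [hfM, map_zero])
  refine ⟨r₀ / 2, by linarith, κ, c1, c2, c4, ?_, ?_, ?_, c5, c7⟩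
  · intro t ht
    apply Equiv.ext
    intro x
    rw [hκa]
    have h1 : st t = 0 := stp_zero (by norm_num) ht
    show x + ((B (st t * θ _) (Kappa_i _)) 0 • e₀ + Kappa_i (f t _ - _)) = x
    rw [hfM, h1, zero_mul, hM0, hB0, hi0, sub_self, map_zero, zero_smul, zero_add, add_zero]
  · intro t ht
    apply Equiv.ext
    intro x
    rw [hκa, hκa]
    have h1 : st t = 1 := stp_one (by norm_num) ht
    have h2 : st 1 = 1 := stp_one (by norm_num) (by norm_num)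
    show x + ((B (st t * θ _) (Kappa_i _)) 0 • e₀ + Kappa_i (f t _ - _)) =
      x + ((B (st 1 * θ _) (Kappa_i _)) 0 • e₀ + Kappa_i (f 1 _ - _))
    rw [hfM, hfM, h1, h2]
  · intro t x hx1 hx2
    obtain ⟨hZn, hred⟩ := AxCut_near hr1 hx1 hx2
    rw [hκa, hred]
    show x + ((B (st t * θ (Kappa_p x)) (Kappa_i (Kappa_p x))) 0 • e₀ +
      Kappa_i (f t (Kappa_p x) - Kappa_p x)) = B (st t) x
    rw [hfM, hθ1 _ hZn, mul_one]
    exact AxCut_lin (B (st t)) (hBe _) x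

theorem AxCut_off {C : Matrix (Fin 3) (Fin 3) ℤ} (hC : C.det = 1) (h0 : C 0 0 = 1)
    (h1 : C 1 0 = 0) (h2 : C 2 0 = 0) (x : E3) : OffAx (act C x) ↔ OffAx x := by
  have hdet : C 1 1 * C 2 2 - C 1 2 * C 2 1 = 1 := by
    rw [Matrix.det_fin_three, h0, h1, h2] at hC
    linarith
  have hdetR : (C 1 1 : ℝ) * C 2 2 - C 1 2 * C 2 1 = 1 := by exact_mod_cast hdet
  have e1 : (act C x) 1 = C 1 1 * x 1 + C 1 2 * x 2 := by
    simp [act, Fin.sum_univ_three, h1]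
  have e2 : (act C x) 2 = C 2 1 * x 1 + C 2 2 * x 2 := by
    simp [act, Fin.sum_univ_three, h2]
  unfold OffAx
  rw [not_iff_not, e1, e2]
  constructor
  · rintro ⟨⟨a, ha⟩, b, hb⟩
    refine ⟨⟨C 2 2 * a - C 1 2 * b, ?_⟩, C 1 1 * b - C 2 1 * a, ?_⟩
    · push_cast
      rw [← ha, ← hb]
      linear_combination (-(x 1)) * hdetR
    · push_cast
      rw [← ha, ← hb]
      linear_combination (-(x 2)) * hdetR
  · rintro ⟨⟨a, ha⟩, b, hb⟩
    refine ⟨⟨C 1 1 * a + C 1 2 * b, ?_⟩, C 2 1 * a + C 2 2 * b, ?_⟩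
    · rw [ha, hb]; push_cast; ring
    · rw [ha, hb]; push_cast; ring

/-- `exists_isots` together with the isotopy from `act C` to `κ₀`, which is linear near the axes. -/
theorem exists_isots' {C : Matrix (Fin 3) (Fin 3) ℤ} (hC : C.det = 1) (h0 : C 0 0 = 1)
    (h1 : C 1 0 = 0) (h2 : C 2 0 = 0) :
    ∃ κ₀ : Equiv.Perm E3, ∃ δ : ℝ, 0 < δ ∧ Mono C κ₀ ∧ AxMono κ₀ δ ∧
      (∃ B : ℝ → E3 ≃L[ℝ] E3, ∃ κ : ℝ → Equiv.Perm E3,
        (ContDiff ℝ ∞ fun q : ℝ × E3 => B q.1 q.2) ∧ (∀ z, B 0 z = z) ∧ (∀ τ, B τ e₀ = e₀) ∧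
        (∀ z, act C (B 1 z) = z) ∧
        (ContDiff ℝ ∞ fun q : E3 × ℝ => κ q.2 q.1) ∧
        (ContDiff ℝ ∞ fun q : E3 × ℝ => (κ q.2).symm q.1) ∧
        (∀ t x m, κ t (x + vec m) = κ t x + vec m) ∧
        (∀ t, t ≤ 1 / 4 → κ t = 1) ∧ (∀ t, 3 / 4 ≤ t → κ t = κ 1) ∧
        (∀ t x, |x 1| < δ → |x 2| < δ → κ t x = B (stp (1 / 4) (3 / 4) t) x) ∧
        (∀ t x, 1 / 4 ≤ axd x → κ t x = x) ∧ (∀ t x, OffAx (κ t x) ↔ OffAx x) ∧
        (∀ x, κ₀ x = act C (κ 1 x))) ∧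
      ∀ (k : ℤ) (B : Equiv.Perm E3),
        (∀ x, B x = act (Matrix.transvection 1 0 k * C) x) →
        ∃ Ψ : Isot, B * Ψ.ψ 1 = sh (fun y _ => k * lam y) * κ₀ := by
  obtain ⟨B, hBs, hB0, hBe, hB1⟩ := exists_path hC h0 h1 h2
  obtain ⟨δ, hδ, κ, hκs, hκs', hκlat, hκstart, hκstop, hκ, hκfar, hκoff⟩ :=
    exists_kappa' hBs hB0 hBe
  obtain ⟨aC, haC, hmC⟩ := exists_actE (A := C) (by rw [hC]; exact isUnit_one)
  obtain ⟨CL, hCL, hCL'⟩ := Isots_exists_clm haC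
  have hst1 : stp (1 / 4) (3 / 4) 1 = 1 := stp_one (by norm_num) (by norm_num)
  have hκ0 : ∀ t, κ t 0 = 0 := by
    intro t
    rw [hκ t 0 (by simpa using hδ) (by simpa using hδ), map_zero]
  have hmκ : Mono 1 (κ 1) :=
    { smooth := hκs.comp (contDiff_id.prodMk contDiff_const)
      smooth_symm := hκs'.comp (contDiff_id.prodMk contDiff_const)
      lat := fun x m => by rw [hκlat, Matrix.one_mulVec]
      zero := hκ0 1
      unit := by simp }
  have haCsymm_lat : ∀ x m, aC.symm (x + vec (C.mulVec m)) = aC.symm x + vec m := by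
    intro x m
    rw [Equiv.symm_apply_eq, hmC.lat, Equiv.apply_symm_apply]
  have hmm : Mono C (aC * κ 1) := by simpa using hmC.mul hmκ
  refine ⟨aC * κ 1, δ, hδ, hmm, ⟨⟨C, hmm⟩, hδ, ?_, ?_⟩,
    ⟨B, κ, hBs, hB0, hBe, hB1, hκs, hκs', hκlat, hκstart, hκstop, hκ, hκfar, hκoff, ?_⟩, ?_⟩
  · intro x hx1 hx2
    show aC (κ 1 x) = x
    rw [hκ 1 x hx1 hx2, hst1, haC, hB1]
  · intro x
    show OffAx (aC (κ 1 x)) ↔ OffAx x
    rw [haC, AxCut_off hC h0 h1 h2, hκoff]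
  · intro x
    show aC (κ 1 x) = act C (κ 1 x)
    rw [haC]
  · intro k B' hB'
    set s : ℝ → ℝ := stp (1 / 4) (3 / 4) with hs
    have hss : ContDiff ℝ ∞ s := stp_smooth _ _
    let F : ℝ → Equiv.Perm E3 := fun t => sh (fun y _ => s t * k * (lam y - y))
    have hF : ∀ t x, F t x = pt (x 0) (x 1 + s t * k * (lam (x 0) - x 0)) (x 2) := fun t x => rfl
    have hF' : ∀ t x, (F t).symm x = pt (x 0) (x 1 - s t * k * (lam (x 0) - x 0)) (x 2) :=
      fun t x => rfl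
    have hFs : ContDiff ℝ ∞ fun q : E3 × ℝ => F q.2 q.1 := by
      simp only [hF]
      have c0 : ContDiff ℝ ∞ fun q : E3 × ℝ => q.1 0 := Isots_coord_smooth contDiff_fst 0
      have c1 : ContDiff ℝ ∞ fun q : E3 × ℝ => q.1 1 := Isots_coord_smooth contDiff_fst 1
      have c2 : ContDiff ℝ ∞ fun q : E3 × ℝ => q.1 2 := Isots_coord_smooth contDiff_fst 2
      exact Isots_pt_smooth c0
        (c1.add (((hss.comp contDiff_snd).mul contDiff_const).mul ((lam_smooth.comp c0).sub c0))) c2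
    have hFs' : ContDiff ℝ ∞ fun q : E3 × ℝ => (F q.2).symm q.1 := by
      simp only [hF']
      have c0 : ContDiff ℝ ∞ fun q : E3 × ℝ => q.1 0 := Isots_coord_smooth contDiff_fst 0
      have c1 : ContDiff ℝ ∞ fun q : E3 × ℝ => q.1 1 := Isots_coord_smooth contDiff_fst 1
      have c2 : ContDiff ℝ ∞ fun q : E3 × ℝ => q.1 2 := Isots_coord_smooth contDiff_fst 2
      exact Isots_pt_smooth c0
        (c1.sub (((hss.comp contDiff_snd).mul contDiff_const).mul ((lam_smooth.comp c0).sub c0))) c2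
    have hFlat : ∀ t x m, F t (x + vec m) = F t x + vec m := by
      intro t x m
      have e0 : (x + vec m) 0 = x 0 + (m 0 : ℤ) := rfl
      rw [hF, hF, e0, lam_add_int]
      ext i
      fin_cases i
      · simp [pt, vec]
      · simp [pt, vec]; ring
      · simp [pt, vec]
    have hFone : ∀ t, t ≤ 1 / 4 → F t = 1 := by
      intro t ht
      have : s t = 0 := stp_zero (by norm_num) ht
      ext1 x
      rw [hF, this]
      show _ = x
      rw [zero_mul, zero_mul, add_zero, pt_eta]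
    have hFstop : ∀ t, 3 / 4 ≤ t → F t = F 1 := by
      intro t ht
      have e1 : s t = 1 := stp_one (by norm_num) ht
      have e2 : s 1 = 1 := hst1
      show sh _ = sh _
      rw [e1, e2]
    let ψ : ℝ → Equiv.Perm E3 := fun t => aC⁻¹ * F t * aC * κ t
    have hψ : ∀ t x, ψ t x = aC.symm (F t (aC (κ t x))) := fun t x => rfl
    have hψ' : ∀ t x, (ψ t).symm x = (κ t).symm (aC.symm ((F t).symm (aC x))) := fun t x => rfl
    -- linearity near the origin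
    have hBc : Continuous fun t : ℝ => (B t : E3 →L[ℝ] E3) := (SIsot_clm hBs).continuous
    obtain ⟨K, hK, hKb⟩ := SIsot_bound hBc 0 1
    have hlin : ∃ ε > 0, ∃ L : ℝ → E3 ≃L[ℝ] E3, (ContDiff ℝ ∞ fun q : ℝ × E3 => L q.1 q.2) ∧
        ∀ t x, ‖x‖ < ε → ψ t x = L t x := by
      set N : ℝ := ‖(CL : E3 →L[ℝ] E3)‖ with hN
      have hN0 : 0 ≤ N := norm_nonneg _
      refine ⟨min δ (9 / 20 / (N * K + 1)), lt_min hδ (by positivity),
        fun t => (B (s t)).trans (CL.trans ((Isots_shL (-(s t * k))).trans CL.symm)), ?_, ?_⟩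
      · show ContDiff ℝ ∞ fun q : ℝ × E3 =>
          CL.symm (Isots_shL (-(s q.1 * k)) (CL (B (s q.1) q.2)))
        refine CL.symm.contDiff.comp ?_
        have hb : ContDiff ℝ ∞ fun q : ℝ × E3 => CL (B (s q.1) q.2) := by
          refine CL.contDiff.comp ?_
          exact hBs.comp ((hss.comp contDiff_fst).prodMk contDiff_snd)
        simp only [Isots_shL_apply]
        have c0 := Isots_coord_smooth hb 0
        have c1 := Isots_coord_smooth hb 1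
        have c2 := Isots_coord_smooth hb 2
        exact Isots_pt_smooth c0
          (c1.add ((((hss.comp contDiff_fst).mul contDiff_const).neg).mul c0)) c2
      · intro t x hx
        have hxδ : ‖x‖ < δ := hx.trans_le (min_le_left _ _)
        have hx2 : ‖x‖ < 9 / 20 / (N * K + 1) := hx.trans_le (min_le_right _ _)
        have a1 : |x 1| < δ := lt_of_le_of_lt (by simpa using PiLp.norm_apply_le x 1) hxδ
        have a2 : |x 2| < δ := lt_of_le_of_lt (by simpa using PiLp.norm_apply_le x 2) hxδ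
        rw [hψ, hκ t x a1 a2]
        show aC.symm (F t (aC (B (s t) x))) = CL.symm (Isots_shL (-(s t * k)) (CL (B (s t) x)))
        rw [hCL', hCL]
        congr 1
        set w : E3 := aC (B (s t) x) with hw
        have hwn : |w 0| ≤ 9 / 20 := by
          have b1 : |w 0| ≤ ‖w‖ := by simpa using PiLp.norm_apply_le w 0
          have b2 : ‖w‖ ≤ N * (K * ‖x‖) := by
            calc ‖w‖ = ‖(CL : E3 →L[ℝ] E3) (B (s t) x)‖ := by
                  rw [hw, ← hCL]; rfl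
              _ ≤ N * ‖B (s t) x‖ := ContinuousLinearMap.le_opNorm _ _
              _ = N * ‖(B (s t) : E3 →L[ℝ] E3) x‖ := rfl
              _ ≤ N * (‖(B (s t) : E3 →L[ℝ] E3)‖ * ‖x‖) := by
                  gcongr; exact ContinuousLinearMap.le_opNorm _ _
              _ ≤ N * (K * ‖x‖) := by
                  gcongr
                  exact hKb _ ⟨stp_nonneg _ _ _, stp_le_one _ _ _⟩
          have b3 : ‖x‖ * (N * K + 1) < 9 / 20 := (lt_div_iff₀ (by positivity)).1 hx2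
          have hx0 : 0 ≤ ‖x‖ := norm_nonneg x
          nlinarith
        have hl : lam (w 0) = 0 := lam_zero (by linarith [neg_abs_le (w 0)])
          (by linarith [le_abs_self (w 0)])
        rw [hF, Isots_shL_apply, hl]
        ext i
        fin_cases i
        · simp [pt]
        · simp [pt]
        · simp [pt]
    refine ⟨⟨ψ, ?_, ?_, ?_, ?_, ?_, hlin⟩, ?_⟩
    · show ContDiff ℝ ∞ fun q : E3 × ℝ => aC.symm (F q.2 (aC (κ q.2 q.1)))
      refine hmC.smooth_symm.comp ?_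
      exact hFs.comp ((hmC.smooth.comp hκs).prodMk contDiff_snd)
    · show ContDiff ℝ ∞ fun q : E3 × ℝ => (κ q.2).symm (aC.symm ((F q.2).symm (aC q.1)))
      have e1 : ContDiff ℝ ∞ fun q : E3 × ℝ => (F q.2).symm (aC q.1) :=
        hFs'.comp ((hmC.smooth.comp contDiff_fst).prodMk contDiff_snd)
      exact hκs'.comp ((hmC.smooth_symm.comp e1).prodMk contDiff_snd)
    · intro t x m
      rw [hψ, hψ, hκlat, hmC.lat, hFlat, haCsymm_lat]
    · intro t ht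
      show aC⁻¹ * F t * aC * κ t = 1
      rw [hFone t ht, hκstart t ht]
      simp
    · intro t ht
      show aC⁻¹ * F t * aC * κ t = aC⁻¹ * F 1 * aC * κ 1
      rw [hFstop t ht, hκstop t ht]
    · show B' * (aC⁻¹ * F 1 * aC * κ 1) = sh (fun y _ => k * lam y) * (aC * κ 1)
      have e1 : B' = sh (fun y _ => k * y) * aC := by
        ext1 x
        show B' x = sh (fun y _ => k * y) (aC x)
        rw [hB', act_mul, haC, Isots_act_transvection]
      have e2 : F 1 = sh (fun y _ => k * (lam y - y)) := by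
        show sh _ = sh _
        have : s 1 = 1 := hst1
        simp only [this, one_mul]
      have e3 : sh (fun y _ => k * y) * F 1 = sh (fun y _ => k * lam y) := by
        rw [e2, sh_mul]
        congr 1
        funext n y
        ring
      rw [e1, ← e3]
      group

end Pool.Agent.TS
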