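import Pool.Agent.TS.BDef
import Pool.Agent.TS.FrC

/-!
# TS/OutDef: inner points of the new structure, outer points of the old structure (definitions only)
-/

open scoped Manifold ContDiff Topology
open Complex (I)
open Set Filter

namespace Pool.Agent.TS
open Pool.Agent.CSG

variable {X : Type*} [TopologicalSpace X] [ChartedSpace E4 X] {ε ρ : ℝ} {k e : ℤ}

/-- inner points of the new structure (reduced arguments) -/
def InB (ε : ℝ) (p r : ℂ) : Prop :=
  (‖r‖ < 3 * ε ∧ InK ε p r) ∨ (3 * ε ≤ ‖r‖ ∧ ‖p‖ < 3 * ε ∧ InT ε p r)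

open Classical in
/-- ball coordinates of an inner point of the new structure (reduced arguments) -/
noncomputable def bB (ε : ℝ) (k e : ℤ) (p r : ℂ) : ℂ × ℂ :=
  if ‖r‖ < 3 * ε then bK ε k p r else bT ε e p r

/-- outer points of the old structure -/
def OutA (ε : ℝ) (P R : ℂ) : Prop :=
  (‖fr R‖ < 3 * ε → |(fr P).re| < 1 / 2 → 3 * ε * ww (nsi ε (fr P).re) ≤ ‖fr R‖) ∧
  (‖fr P‖ < 3 * ε → |(fr R).re| < 1 / 2 →
    3 ≤ nr (X2 ε (nsi ε (fr R).re, zT ε (fr P) (fr R))))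

/-- inner points of the new cores -/
def InCT (ε x : ℝ) : Prop := |(fr (x : ℂ)).re| < 1 / 2 ∧ nr (X2 ε (nsi ε (fr (x : ℂ)).re, 0)) < 3

def InCK (Y : S2) : Prop := ‖yc Y‖ < 3 * |(Y : E3) 0|

end Pool.Agent.TS
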