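import Pool.Agent.TS.SizeM
import Pool.Agent.TS.FrC
import Pool.Agent.TS.OutDef

/-!
# TS/CcM: corner points are inner
`nsi ε p.re = p.re` (`ns_small`, `nsi_ns`), `|p.re| < 1/100`, `s = ‖r‖/ε < 3`.  If `s < 1/8`: `nr X2 ≤ nr io`,
`nr io ^ 2 = s^2 + (MZ sinh (2 π p.re))^2 < 1` (`MZ ≤ 3/20`).  If `s ≥ 1/8`: `nr X2 < 1` or (`X2_nr`, `ya_big`, `ww_small`)
`nr X2 = s / 1 < 3`.  `zT ε P R = zK ε R P` by definition.
-/

open scoped Manifold ContDiff Topology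
open Complex (I)
open Set Filter

namespace Pool.Agent.TS
open Pool.Agent.CSG

variable {X : Type*} [TopologicalSpace X] [ChartedSpace E4 X] {ε ρ : ℝ} {k e : ℤ}

theorem nsi_small (h0 : 0 < ε) (h1 : ε ≤ 1 / 1000) {x : ℝ} (h : |x| ≤ 1 / 5) : nsi ε x = x := by
  have h2 := nsi_ns h0 h1 x
  rwa [ns_small h] at h2

/-- the size of `X2` for `‖zT‖ ≥ 1/8` -/
theorem CcM_X2_big_Z (h0 : 0 < ε) (h1 : ε ≤ 1 / 1000) {s y u : ℝ} (hs : 1 / 8 ≤ s) :
    3 ≤ nr (X2 ε (y, s * ex u)) ↔ 3 * ww y ≤ s := by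
  have hs0 : 0 < s := by linarith
  have hw := ww_pos y
  constructor
  · intro h
    have h2 := (X2_nr h0 h1 hs0 (by linarith)).1
    rw [h2, ya_big hs y, le_div_iff₀ hw] at h
    exact h
  · intro h
    have h3 : 3 ≤ s / ww y := by rwa [le_div_iff₀ hw]
    have hM : MZ (s : ℂ) = s := by
      rw [MZ_big (by rw [Complex.norm_real, Real.norm_eq_abs, abs_of_pos hs0]; exact hs),
        Complex.norm_real, Real.norm_eq_abs, abs_of_pos hs0]
    have h4 := X2_polar h0 h1 (y := y) (y' := y) (u := u) hs0 (by rw [hM]) (by linarith)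
    rw [h4, nr_smul (by positivity), nr_E2 h0 h1, mul_one]
    exact h3

theorem CcM_sinh {x : ℝ} (h : |x| ≤ 1 / 2) : |Real.sinh x| ≤ 1 := by
  rw [Real.abs_sinh]
  have h1 : Real.sinh |x| ≤ Real.sinh (1 / 2) := Real.sinh_le_sinh.2 h
  refine h1.trans ?_
  rw [Real.sinh_eq]
  have h2 : Real.exp (1 / 2) ≤ 2 := by
    have h3 : Real.exp (1 / 2) ^ 2 = Real.exp 1 := by
      rw [← Real.exp_nat_mul]; norm_num
    have h4 := Real.exp_one_lt_d9
    by_contra hc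
    push Not at hc
    nlinarith [Real.exp_pos (1 / 2 : ℝ)]
  have h5 := Real.exp_pos (-(1 / 2) : ℝ)
  linarith

theorem InK_corner (h0 : 0 < ε) (h1 : ε ≤ 1 / 1000) {p r : ℂ} (hp : ‖p‖ < 5 * ε) (hr : ‖r‖ < 3 * ε) :
    InK ε p r := by
  have hre := Complex.abs_re_le_norm p
  have hre' : |p.re| ≤ 1 / 200 := by linarith
  refine ⟨by linarith, ?_⟩
  rw [nsi_small h0 h1 (by linarith), zK]
  have hs : ‖r‖ / ε < 3 := by rw [div_lt_iff₀ h0]; exact hr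
  have hs0 : 0 ≤ ‖r‖ / ε := by positivity
  set s := ‖r‖ / ε with hsdef
  rcases le_or_gt (1 / 8) s with h | h
  · have h2 := CcM_X2_big_Z h0 h1 (y := p.re) (u := p.im) h
    rw [ww_small (by linarith)] at h2
    by_contra hc
    push Not at hc
    have := h2.1 hc
    linarith
  · have h2 := nr_X2_le h0 h1 (p.re, (s : ℂ) * ex p.im)
    have h3 := nr_io (p.re, (s : ℂ) * ex p.im)
    have hn : ‖(s : ℂ) * ex p.im‖ = s := by
      rw [norm_mul, ex_norm, mul_one, Complex.norm_real, Real.norm_eq_abs, abs_of_nonneg hs0]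
    have hM := MZ_le (Z := (s : ℂ) * ex p.im) (by rw [hn]; exact h.le)
    have hM0 := MZ_pos ((s : ℂ) * ex p.im)
    have hsi : |Real.sinh (2 * Real.pi * p.re)| ≤ 1 := by
      apply CcM_sinh
      rw [abs_mul, abs_of_pos (by positivity)]
      have := Real.pi_lt_four
      nlinarith [Real.pi_pos, abs_nonneg p.re]
    have hprod : |MZ ((s : ℂ) * ex p.im) * Real.sinh (2 * Real.pi * p.re)| ≤ 3 / 20 := by
      rw [abs_mul, abs_of_pos hM0]
      calc MZ ((s : ℂ) * ex p.im) * |Real.sinh (2 * Real.pi * p.re)|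
          ≤ MZ ((s : ℂ) * ex p.im) * 1 := mul_le_mul_of_nonneg_left hsi hM0.le
        _ ≤ 3 / 20 := by rw [mul_one]; exact hM
    have hsq : (MZ ((s : ℂ) * ex p.im) * Real.sinh (2 * Real.pi * p.re)) ^ 2 ≤ (3 / 20) ^ 2 := by
      rw [← sq_abs]
      exact pow_le_pow_left₀ (abs_nonneg _) hprod 2
    have h4 : nr (io (p.re, (s : ℂ) * ex p.im)) ^ 2 < 9 := by
      rw [h3]
      show ‖(s : ℂ) * ex p.im‖ ^ 2 +
        (MZ ((s : ℂ) * ex p.im) * Real.sinh (2 * Real.pi * p.re)) ^ 2 < 9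
      rw [hn]
      nlinarith
    have h5 := nr_nonneg (io (p.re, (s : ℂ) * ex p.im))
    have h6 : nr (io (p.re, (s : ℂ) * ex p.im)) < 3 := by
      by_contra hc
      push Not at hc
      nlinarith
    linarith

theorem InK_corner' (h0 : 0 < ε) (h1 : ε ≤ 1 / 1000) {P R : ℂ} (hR : ‖R‖ < 5 * ε)
    (hP : ‖P‖ < 3 * ε) : |R.re| < 1 / 2 ∧ nr (X2 ε (nsi ε R.re, zT ε P R)) < 3 :=
  InK_corner h0 h1 hR hP

/-- the size of `X2` for `‖zT‖ ≥ 1/8` -/
theorem X2_big_Z (h0 : 0 < ε) (h1 : ε ≤ 1 / 1000) {s y u : ℝ} (hs : 1 / 8 ≤ s) :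
    3 ≤ nr (X2 ε (y, s * ex u)) ↔ 3 * ww y ≤ s :=
  CcM_X2_big_Z h0 h1 hs

end Pool.Agent.TS
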