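import Pool.Agent.TS.NsM

/-!
# TS/WwM: the weight `ww`

`aw = 1 + (1 - S) (sech - 1)`, `0 ≤ S ≤ 1`, so `sech ≤ aw ≤ 1`; if `S < 1` then `tanh ^ 2 < 1/25`, so
`sech ^ 2 = 1 - tanh ^ 2 > 24/25`.  `S = 1` for `|y| ≥ 1/30` since `tanh (2 π / 30) > 1/5`
(`2 π / 30 > 0.2094`, `tanh z ≥ z - z^3/3`), `S = 0` for `|y| ≤ 1/64` since `tanh z ≤ z`, `2 π / 64 < 1/10`.
-/

open scoped Manifold ContDiff Topology
open Complex (I)
open Set Filter

namespace Pool.Agent.TS
open Pool.Agent.CSG

theorem WwM_sech_sq (x : ℝ) : sech x ^ 2 = 1 - Real.tanh x ^ 2 := by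
  have h := Real.cosh_pos x
  have h2 := Real.cosh_sq x
  rw [sech, Real.tanh_eq_sinh_div_cosh, inv_pow, div_pow]
  field_simp
  linarith

theorem WwM_tanh_smooth : ContDiff ℝ ∞ Real.tanh := by
  have h : Real.tanh = fun x => Real.sinh x / Real.cosh x := by
    funext x
    exact Real.tanh_eq_sinh_div_cosh x
  rw [h]
  exact Real.contDiff_sinh.div Real.contDiff_cosh fun x => (Real.cosh_pos x).ne'

theorem aw_smooth : ContDiff ℝ ∞ aw := by
  unfold aw
  have hl : ContDiff ℝ ∞ fun y : ℝ => 2 * Real.pi * y := contDiff_const.mul contDiff_id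
  have h1 : ContDiff ℝ ∞ fun y : ℝ => stp (1 / 100) (1 / 25) (Real.tanh (2 * Real.pi * y) ^ 2) :=
    (stp_smooth _ _).comp ((WwM_tanh_smooth.comp hl).pow 2)
  exact contDiff_const.add ((contDiff_const.sub h1).mul ((sech_smooth.comp hl).sub contDiff_const))

theorem aw_le_one (y : ℝ) : aw y ≤ 1 := by
  unfold aw
  have h1 := stp_le_one (1 / 100) (1 / 25) (Real.tanh (2 * Real.pi * y) ^ 2)
  have h2 := sech_le_one (2 * Real.pi * y)
  nlinarith

theorem sech_le_aw (y : ℝ) : sech (2 * Real.pi * y) ≤ aw y := by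
  unfold aw
  have h1 := stp_nonneg (1 / 100) (1 / 25) (Real.tanh (2 * Real.pi * y) ^ 2)
  have h2 := sech_le_one (2 * Real.pi * y)
  nlinarith

theorem half_lt_aw (y : ℝ) : 1 / 2 < aw y := by
  rcases le_or_gt (1 / 25) (Real.tanh (2 * Real.pi * y) ^ 2) with h | h
  · unfold aw
    rw [stp_one (by norm_num) h]
    norm_num
  · have h1 := sech_le_aw y
    have h2 := WwM_sech_sq (2 * Real.pi * y)
    have h3 := sech_pos (2 * Real.pi * y)
    nlinarith

theorem ww_smooth : ContDiff ℝ ∞ ww := by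
  unfold ww
  have hl : ContDiff ℝ ∞ fun y : ℝ => 2 * Real.pi * y := contDiff_const.mul contDiff_id
  exact (sech_smooth.comp hl).div aw_smooth fun y => by
    have := half_lt_aw y
    linarith

theorem ww_pos (y : ℝ) : 0 < ww y := by
  unfold ww
  have := half_lt_aw y
  exact div_pos (sech_pos _) (by linarith)

theorem ww_le_one (y : ℝ) : ww y ≤ 1 := by
  unfold ww
  have := half_lt_aw y
  rw [div_le_one (by linarith)]
  exact sech_le_aw y

theorem sech_le_ww (y : ℝ) : sech (2 * Real.pi * y) ≤ ww y := by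
  unfold ww
  have := half_lt_aw y
  rw [le_div_iff₀ (by linarith)]
  have h2 := aw_le_one y
  have h3 := sech_pos (2 * Real.pi * y)
  nlinarith

theorem WwM_aw_neg (y : ℝ) : aw (-y) = aw y := by
  unfold aw
  rw [mul_neg, Real.tanh_neg, sech_neg, neg_sq]

theorem ww_neg (y : ℝ) : ww (-y) = ww y := by
  unfold ww
  rw [WwM_aw_neg, mul_neg, sech_neg]

/-- `tanh z ≤ z` -/
theorem WwM_tanh_le {z : ℝ} (hz : 0 ≤ z) : Real.tanh z ≤ z := by
  have hmono : Monotone fun z : ℝ => z - Real.tanh z := by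
    apply monotone_of_deriv_nonneg
    · exact differentiable_id.sub (WwM_tanh_smooth.differentiable (by simp))
    · intro x
      have hc := Real.cosh_pos x
      have h1 : HasDerivAt Real.tanh (sech x ^ 2) x := by
        have h := (Real.hasDerivAt_sinh x).div (Real.hasDerivAt_cosh x) hc.ne'
        have e : Real.tanh = Real.sinh / Real.cosh := by
          funext x
          exact Real.tanh_eq_sinh_div_cosh x
        rw [e]
        refine HasDerivAt.congr_deriv h ?_
        rw [sech, inv_pow]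
        have := Real.cosh_sq x
        field_simp
        linarith
      have h2 := ((hasDerivAt_id x).sub h1).deriv
      have e : deriv (fun z : ℝ => z - Real.tanh z) x = 1 - sech x ^ 2 := h2
      rw [e]
      have := sech_pos x
      have := sech_le_one x
      nlinarith
  have h := hmono hz
  simp only [Real.tanh_zero] at h
  linarith

/-- `z - z ^ 3 / 3 ≤ tanh z` -/
theorem WwM_le_tanh {z : ℝ} (hz : 0 ≤ z) : z - z ^ 3 / 3 ≤ Real.tanh z := by
  have hd : ∀ x, HasDerivAt (fun z : ℝ => Real.tanh z - (z - z ^ 3 / 3))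
      (sech x ^ 2 - (1 - x ^ 2)) x := by
    intro x
    have hc := Real.cosh_pos x
    have h1 : HasDerivAt Real.tanh (sech x ^ 2) x := by
      have h := (Real.hasDerivAt_sinh x).div (Real.hasDerivAt_cosh x) hc.ne'
      have e : Real.tanh = Real.sinh / Real.cosh := by
        funext x
        exact Real.tanh_eq_sinh_div_cosh x
      rw [e]
      refine HasDerivAt.congr_deriv h ?_
      rw [sech, inv_pow]
      have := Real.cosh_sq x
      field_simp
      linarith
    have h2 : HasDerivAt (fun z : ℝ => z - z ^ 3 / 3) (1 - x ^ 2) x := by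
      have h3 := (hasDerivAt_id x).sub (((hasDerivAt_id x).pow 3).div_const 3)
      refine HasDerivAt.congr_deriv h3 ?_
      simp
    exact h1.sub h2
  have hmono : MonotoneOn (fun z : ℝ => Real.tanh z - (z - z ^ 3 / 3)) (Ici 0) := by
    apply monotoneOn_of_deriv_nonneg (convex_Ici 0)
    · exact fun x _ => (hd x).continuousAt.continuousWithinAt
    · exact fun x _ => (hd x).differentiableAt.differentiableWithinAt
    · intro x hx
      rw [interior_Ici] at hx
      rw [(hd x).deriv]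
      have h3 := WwM_sech_sq x
      have h4 := WwM_tanh_le (le_of_lt hx)
      have h5 : 0 ≤ Real.tanh x := by
        rw [Real.tanh_eq_sinh_div_cosh]
        exact div_nonneg (Real.sinh_nonneg_iff.2 (le_of_lt hx)) (Real.cosh_pos x).le
      nlinarith
  have h := hmono (mem_Ici.2 le_rfl) (mem_Ici.2 hz) hz
  simp only [Real.tanh_zero] at h
  linarith

theorem WwM_tanh_abs_lt {y : ℝ} (h : |y| ≤ 1 / 64) : Real.tanh (2 * Real.pi * y) ^ 2 ≤ 1 / 100 := by
  have hpi := Real.pi_lt_d2
  have hpi0 := Real.pi_pos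
  have e : Real.tanh (2 * Real.pi * y) ^ 2 = Real.tanh (2 * Real.pi * |y|) ^ 2 := by
    rcases abs_cases y with ⟨h1, _⟩ | ⟨h1, _⟩
    · rw [h1]
    · rw [h1, mul_neg, Real.tanh_neg, neg_sq]
  rw [e]
  have ha := abs_nonneg y
  have h1 : 0 ≤ 2 * Real.pi * |y| := by positivity
  have h2 := WwM_tanh_le h1
  have h5 : 0 ≤ Real.tanh (2 * Real.pi * |y|) := by
    rw [Real.tanh_eq_sinh_div_cosh]
    exact div_nonneg (Real.sinh_nonneg_iff.2 h1) (Real.cosh_pos _).le
  have h3 : 2 * Real.pi * |y| ≤ 1 / 10 := by nlinarith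
  nlinarith

theorem WwM_tanh_mono : Monotone Real.tanh := by
  apply monotone_of_deriv_nonneg
  · exact WwM_tanh_smooth.differentiable (by simp)
  · intro x
    have hc := Real.cosh_pos x
    have h := (Real.hasDerivAt_sinh x).div (Real.hasDerivAt_cosh x) hc.ne'
    have e : Real.tanh = Real.sinh / Real.cosh := by
      funext x
      exact Real.tanh_eq_sinh_div_cosh x
    rw [e, h.deriv]
    have := Real.cosh_sq x
    apply div_nonneg _ (by positivity)
    nlinarith

theorem WwM_tanh_abs_gt {y : ℝ} (h : 1 / 30 ≤ |y|) : 1 / 25 ≤ Real.tanh (2 * Real.pi * y) ^ 2 := by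
  have hpi := Real.pi_gt_d2
  have hpi2 := Real.pi_lt_d2
  have e : Real.tanh (2 * Real.pi * y) ^ 2 = Real.tanh (2 * Real.pi * |y|) ^ 2 := by
    rcases abs_cases y with ⟨h1, _⟩ | ⟨h1, _⟩
    · rw [h1]
    · rw [h1, mul_neg, Real.tanh_neg, neg_sq]
  rw [e]
  have h1 : 2 * Real.pi * (1 / 30) ≤ 2 * Real.pi * |y| := by
    apply mul_le_mul_of_nonneg_left h (by positivity)
  have h2 := WwM_tanh_mono h1
  have h3 := WwM_le_tanh (z := 2 * Real.pi * (1 / 30)) (by positivity)
  have h4 : 1 / 5 ≤ 2 * Real.pi * (1 / 30) - (2 * Real.pi * (1 / 30)) ^ 3 / 3 := by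
    have a1 : 2 * Real.pi * (1 / 30) ≥ 0.2093 := by linarith
    have a2 : 2 * Real.pi * (1 / 30) ≤ 0.21 := by linarith
    have a3 : (2 * Real.pi * (1 / 30)) ^ 3 ≤ 0.21 ^ 3 := pow_le_pow_left₀ (by linarith) a2 3
    norm_num at a3 ⊢
    linarith
  nlinarith

theorem ww_small {y : ℝ} (h : |y| ≤ 1 / 64) : ww y = 1 := by
  have h1 := WwM_tanh_abs_lt h
  unfold ww aw
  rw [stp_zero (by norm_num) h1]
  have h2 := sech_pos (2 * Real.pi * y)
  rw [div_eq_one_iff_eq]
  · ring
  · linarith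

theorem ww_big {y : ℝ} (h : 1 / 30 ≤ |y|) : ww y = sech (2 * Real.pi * y) := by
  have h1 := WwM_tanh_abs_gt h
  unfold ww aw
  rw [stp_one (by norm_num) h1]
  ring

theorem ww_gt {y : ℝ} (h : |y| ≤ 1 / 30) : 9 / 10 < ww y := by
  have h1 := sech_le_ww y
  have hpi2 := Real.pi_lt_d2
  have hpi0 := Real.pi_pos
  have h2 := WwM_sech_sq (2 * Real.pi * y)
  have h3 := sech_pos (2 * Real.pi * y)
  have e : Real.tanh (2 * Real.pi * y) ^ 2 = Real.tanh (2 * Real.pi * |y|) ^ 2 := by
    rcases abs_cases y with ⟨h1, _⟩ | ⟨h1, _⟩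
    · rw [h1]
    · rw [h1, mul_neg, Real.tanh_neg, neg_sq]
  have ha := abs_nonneg y
  have h4 : 0 ≤ 2 * Real.pi * |y| := by positivity
  have h5 := WwM_tanh_le h4
  have h6 : 0 ≤ Real.tanh (2 * Real.pi * |y|) := by
    rw [Real.tanh_eq_sinh_div_cosh]
    exact div_nonneg (Real.sinh_nonneg_iff.2 h4) (Real.cosh_pos _).le
  have h7 : 2 * Real.pi * |y| ≤ 0.21 := by nlinarith
  have h8 : Real.tanh (2 * Real.pi * |y|) ^ 2 ≤ 0.21 ^ 2 :=
    pow_le_pow_left₀ h6 (by linarith) 2
  norm_num at h8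
  nlinarith

/-- `ww y ≤ 1/4` only near the poles -/
theorem ww_le_quarter {y : ℝ} (h : ww y ≤ 1 / 4) : 3 / 10 ≤ |y| := by
  by_contra hy
  push Not at hy
  have h1 := sech_le_ww y
  have hpi2 := Real.pi_lt_d2
  have hpi0 := Real.pi_pos
  have ha := abs_nonneg y
  have e : sech (2 * Real.pi * y) = sech (2 * Real.pi * |y|) := by
    rcases abs_cases y with ⟨h1, _⟩ | ⟨h1, _⟩
    · rw [h1]
    · rw [h1, mul_neg, sech_neg]
  have h4 : 0 ≤ 2 * Real.pi * |y| := by positivity
  have h5 : 2 * Real.pi * |y| ≤ 1.9 := by nlinarith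
  have h6 : Real.cosh (2 * Real.pi * |y|) < 4 := by
    have a1 : Real.exp (2 * Real.pi * |y|) ≤ Real.exp 1.9 := Real.exp_le_exp.2 h5
    have a2 : Real.exp (-(2 * Real.pi * |y|)) ≤ 1 := by
      rw [Real.exp_le_one_iff]
      linarith
    have a3 : Real.exp 1.9 < 7 := by
      have b1 : Real.exp 1.9 ≤ Real.exp 1 ^ 2 * Real.exp (-(1 / 10)) := by
        rw [← Real.exp_nat_mul, ← Real.exp_add]
        apply Real.exp_le_exp.2
        norm_num
      have b2 : Real.exp 1 < 2.7182818286 := Real.exp_one_lt_d9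
      have b3 : Real.exp (-(1 / 10 : ℝ)) ≤ 10 / 11 := by
        rw [Real.exp_neg, inv_le_comm₀ (Real.exp_pos _) (by norm_num)]
        have := Real.add_one_le_exp (1 / 10 : ℝ)
        norm_num at this ⊢
        linarith
      have b4 : Real.exp 1 ^ 2 < 7.4 := by
        have := Real.exp_pos 1
        nlinarith
      have b5 := Real.exp_pos (-(1 / 10 : ℝ))
      nlinarith
    rw [Real.cosh_eq]
    linarith
  have h7 : 1 / 4 < sech (2 * Real.pi * |y|) := by
    rw [sech, lt_inv_comm₀ (by norm_num) (Real.cosh_pos _)]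
    norm_num
    exact h6
  rw [e] at h1
  linarith

end Pool.Agent.TS
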