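import Pool.Agent.TS.LSG
import Pool.Agent.TS.WwM
import Pool.Agent.TS.TwM

/-!
# TS/ACM: the chart `fC` (surgered side) of an `LS`
`fC L = L.G ∘ m`, `m (p, ν) = (ns ε p.re + i p.im, ε ww p.re ex (k thc p.im) ν)`, a local diffeomorphism (`ns_ld`,
triangular, `ww > 0`); the image point is regular (`Reg_K`: `|ns| < 1/2`, `ns = 0` iff `p.re = 0`).
Injectivity: `G_eq`: `ns ε p'.re - ns ε p.re` is an integer of absolute value `< 1`; `p'.im - p.im = n`;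
the second components have norm `< 5 ε < 1/8` and differ by an element of `GI`, so they are equal; `thc (x + n) = thc x + n`.
-/

open scoped Manifold ContDiff Topology
open Complex (I)
open Set Filter

namespace Pool.Agent.TS
open Pool.Agent.CSG

variable {X : Type*} [TopologicalSpace X] [ChartedSpace E4 X] {ε ρ : ℝ} {k e : ℤ}

/-- the factor of the second component -/
noncomputable def ACM_c (ε : ℝ) (k : ℤ) (p : ℂ) : ℂ := (ε * ww p.re : ℝ) * ex (k * thc p.im)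

theorem ACM_c_norm (h0 : 0 < ε) (p : ℂ) : ‖ACM_c ε k p‖ = ε * ww p.re := by
  unfold ACM_c
  rw [norm_mul, ex_norm, mul_one, Complex.norm_real, Real.norm_eq_abs,
    abs_of_pos (mul_pos h0 (ww_pos _))]

theorem ACM_c_ne (h0 : 0 < ε) (p : ℂ) : ACM_c ε k p ≠ 0 := by
  rw [← norm_ne_zero_iff, ACM_c_norm h0]
  exact (mul_pos h0 (ww_pos _)).ne'

theorem ACM_c_smooth (ε : ℝ) (k : ℤ) : ContDiff ℝ ∞ (ACM_c ε k) := by
  unfold ACM_c
  have hre : ContDiff ℝ ∞ (fun p : ℂ => p.re) := Complex.reCLM.contDiff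
  have him : ContDiff ℝ ∞ (fun p : ℂ => p.im) := Complex.imCLM.contDiff
  have h1 : ContDiff ℝ ∞ (fun p : ℂ => ε * ww p.re) := contDiff_const.mul (ww_smooth.comp hre)
  have h2 : ContDiff ℝ ∞ (fun p : ℂ => ((ε * ww p.re : ℝ) : ℂ)) := Complex.ofRealCLM.contDiff.comp h1
  have h3 : ContDiff ℝ ∞ (fun p : ℂ => (k : ℝ) * thc p.im) := contDiff_const.mul (thc_smooth.comp him)
  exact h2.mul (ex_smooth.comp h3)

theorem ACM_c_per (ε : ℝ) (k : ℤ) (p : ℂ) (n : ℤ) : ACM_c ε k (p + n * I) = ACM_c ε k p := by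
  unfold ACM_c
  have h1 : (p + n * I).re = p.re := by simp
  have h2 : (p + n * I).im = p.im + n := by simp
  rw [h1, h2, thc_add_int]
  have h3 : (k : ℝ) * (thc p.im + n) = k * thc p.im + ((k * n : ℤ) : ℝ) := by push_cast; ring
  rw [h3, ex_add, ex_int, mul_one]

theorem ACM_c_lt (h0 : 0 < ε) {p ν : ℂ} (h : ww p.re * ‖ν‖ < 5) : ‖ACM_c ε k p * ν‖ < 5 * ε := by
  rw [norm_mul, ACM_c_norm h0]
  nlinarith

theorem ACM_ns_zero (h0 : 0 < ε) (h1 : ε ≤ 1 / 1000) {x : ℝ} (h : ns ε x = 0) : x = 0 := by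
  have h2 : ns ε 0 = 0 := ns_small (by norm_num)
  exact (ns_strictMono h0 h1).injective (h.trans h2.symm)

theorem fC_Reg (h0 : 0 < ε) (h1 : ε ≤ 1 / 1000) (h2 : 5 * ε < ρ) (h3 : ρ ≤ 1 / 8) {p ν : ℂ}
    (h : ww p.re * ‖ν‖ < 5) (hp : ∀ n : ℤ, p ≠ n * I) :
    Reg ρ ((ns ε p.re : ℂ) + p.im * I) ((ε * ww p.re : ℝ) * ex (k * thc p.im) * ν) := by
  refine Reg_K h0 h2 h3 (ACM_c_lt (k := k) h0 h) ?_ ?_
  · have : ((ns ε p.re : ℂ) + p.im * I).re = ns ε p.re := by simp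
    rw [this]
    exact ns_lt h0 h1 _
  · intro n hn
    have e1 : ns ε p.re = 0 := by simpa using congrArg Complex.re hn
    have e2 : p.im = n := by simpa using congrArg Complex.im hn
    have e3 := ACM_ns_zero h0 h1 e1
    apply hp n
    apply Complex.ext
    · simp [e3]
    · simp [e2]

/-- the first component map -/
noncomputable def ACM_m2 (ε : ℝ) (a : ℂ × ℂ) : ℂ × ℂ := ((ns ε a.1.re : ℂ) + a.1.im * I, a.2)

theorem ACM_m2_smooth (ε : ℝ) : ContDiff ℝ ∞ (ACM_m2 ε) := by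
  unfold ACM_m2
  have hre : ContDiff ℝ ∞ (fun a : ℂ × ℂ => a.1.re) := Complex.reCLM.contDiff.comp contDiff_fst
  have him : ContDiff ℝ ∞ (fun a : ℂ × ℂ => a.1.im) := Complex.imCLM.contDiff.comp contDiff_fst
  have h1 : ContDiff ℝ ∞ (fun a : ℂ × ℂ => ((ns ε a.1.re : ℝ) : ℂ)) :=
    Complex.ofRealCLM.contDiff.comp ((ns_smooth ε).comp hre)
  have h2 : ContDiff ℝ ∞ (fun a : ℂ × ℂ => ((a.1.im : ℝ) : ℂ)) := Complex.ofRealCLM.contDiff.comp him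
  exact (h1.add (h2.mul contDiff_const)).prodMk contDiff_snd

theorem ACM_m2_ld (h0 : 0 < ε) (h1 : ε ≤ 1 / 1000) (a : ℂ × ℂ) :
    IsLocalDiffeomorphAt 𝓘(ℝ, ℂ × ℂ) 𝓘(ℝ, ℂ × ℂ) ∞ (ACM_m2 ε) a := by
  refine ld_of_fderiv (Filter.Eventually.of_forall fun y => (ACM_m2_smooth ε).contDiffAt) rfl ?_
  rintro ⟨v, w⟩ hv
  have hn : (∞ : WithTop ℕ∞) ≠ 0 := by simp
  have hd : HasFDerivAt (ACM_m2 ε) (fderiv ℝ (ACM_m2 ε) a) a :=
    ((ACM_m2_smooth ε).differentiable hn a).hasFDerivAt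
  set D := fderiv ℝ (ACM_m2 ε) a with hD
  have hfst : HasFDerivAt (fun b : ℂ × ℂ => (ACM_m2 ε b).1)
      ((ContinuousLinearMap.fst ℝ ℂ ℂ).comp D) a :=
    (ContinuousLinearMap.fst ℝ ℂ ℂ).hasFDerivAt.comp a hd
  have hsnd : HasFDerivAt (fun b : ℂ × ℂ => (ACM_m2 ε b).2)
      ((ContinuousLinearMap.snd ℝ ℂ ℂ).comp D) a := by
    have h := (ContinuousLinearMap.snd ℝ ℂ ℂ).hasFDerivAt.comp a hd
    exact h
  have e1 : HasFDerivAt (fun b : ℂ × ℂ => ((ACM_m2 ε b).1).re)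
      (Complex.reCLM.comp ((ContinuousLinearMap.fst ℝ ℂ ℂ).comp D)) a :=
    Complex.reCLM.hasFDerivAt.comp a hfst
  have e2 : HasFDerivAt (fun b : ℂ × ℂ => ((ACM_m2 ε b).1).im)
      (Complex.imCLM.comp ((ContinuousLinearMap.fst ℝ ℂ ℂ).comp D)) a :=
    Complex.imCLM.hasFDerivAt.comp a hfst
  have f1 : (fun b : ℂ × ℂ => ((ACM_m2 ε b).1).re) = fun b => ns ε b.1.re := by
    funext b; simp [ACM_m2]
  have f2 : (fun b : ℂ × ℂ => ((ACM_m2 ε b).1).im) = fun b => b.1.im := by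
    funext b; simp [ACM_m2]
  have f3 : (fun b : ℂ × ℂ => (ACM_m2 ε b).2) = fun b => b.2 := rfl
  rw [f1] at e1
  rw [f2] at e2
  rw [f3] at hsnd
  have g0 : HasFDerivAt (fun b : ℂ × ℂ => b.1.re)
      (Complex.reCLM.comp (ContinuousLinearMap.fst ℝ ℂ ℂ)) a :=
    (Complex.reCLM.comp (ContinuousLinearMap.fst ℝ ℂ ℂ)).hasFDerivAt
  have hns : HasDerivAt (ns ε) (deriv (ns ε) a.1.re) a.1.re :=
    ((ns_smooth ε).differentiable hn _).hasDerivAt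
  have g1 : HasFDerivAt (fun b : ℂ × ℂ => ns ε b.1.re)
      (deriv (ns ε) a.1.re • Complex.reCLM.comp (ContinuousLinearMap.fst ℝ ℂ ℂ)) a :=
    by
      have h := hns.comp_hasFDerivAt a g0
      exact h
  have g2 : HasFDerivAt (fun b : ℂ × ℂ => b.1.im)
      (Complex.imCLM.comp (ContinuousLinearMap.fst ℝ ℂ ℂ)) a :=
    (Complex.imCLM.comp (ContinuousLinearMap.fst ℝ ℂ ℂ)).hasFDerivAt
  have g3 : HasFDerivAt (fun b : ℂ × ℂ => b.2) (ContinuousLinearMap.snd ℝ ℂ ℂ) a :=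
    (ContinuousLinearMap.snd ℝ ℂ ℂ).hasFDerivAt
  have i1 := congrArg (fun T : ℂ × ℂ →L[ℝ] ℝ => T (v, w)) (e1.unique g1)
  have i2 := congrArg (fun T : ℂ × ℂ →L[ℝ] ℝ => T (v, w)) (e2.unique g2)
  have i3 := congrArg (fun T : ℂ × ℂ →L[ℝ] ℂ => T (v, w)) (hsnd.unique g3)
  have j1 : deriv (ns ε) a.1.re * v.re = 0 := by
    have : (Complex.reCLM.comp ((ContinuousLinearMap.fst ℝ ℂ ℂ).comp D)) (v, w) = 0 := by
      show Complex.reCLM ((ContinuousLinearMap.fst ℝ ℂ ℂ) (D (v, w))) = 0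
      rw [hv]; simp
    have i1' := i1
    change (Complex.reCLM.comp ((ContinuousLinearMap.fst ℝ ℂ ℂ).comp D)) (v, w) = _ at i1'
    rw [this] at i1'
    exact i1'.symm
  have j2 : v.im = 0 := by
    have : (Complex.imCLM.comp ((ContinuousLinearMap.fst ℝ ℂ ℂ).comp D)) (v, w) = 0 := by
      show Complex.imCLM ((ContinuousLinearMap.fst ℝ ℂ ℂ) (D (v, w))) = 0
      rw [hv]; simp
    have i2' := i2
    change (Complex.imCLM.comp ((ContinuousLinearMap.fst ℝ ℂ ℂ).comp D)) (v, w) = _ at i2'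
    rw [this] at i2'
    exact i2'.symm
  have j3 : w = 0 := by
    have : ((ContinuousLinearMap.snd ℝ ℂ ℂ).comp D) (v, w) = 0 := by
      show (ContinuousLinearMap.snd ℝ ℂ ℂ) (D (v, w)) = 0
      rw [hv]; simp
    have i3' := i3
    change ((ContinuousLinearMap.snd ℝ ℂ ℂ).comp D) (v, w) = _ at i3'
    rw [this] at i3'
    exact i3'.symm
  have j4 : v.re = 0 := by
    rcases mul_eq_zero.1 j1 with h | h
    · exact absurd h (ns_deriv_pos h0 h1 _).ne'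
    · exact h
  have hv0 : v = 0 := Complex.ext j4 j2
  rw [hv0, j3]
  rfl

theorem ACM_m1_ld (h0 : 0 < ε) (k : ℤ) (a : ℂ × ℂ) :
    IsLocalDiffeomorphAt 𝓘(ℝ, ℂ × ℂ) 𝓘(ℝ, ℂ × ℂ) ∞ (fun b : ℂ × ℂ => (b.1, ACM_c ε k b.1 * b.2)) a := by
  have hc : ContDiff ℝ ∞ (fun b : ℂ × ℂ => ACM_c ε k b.1) := (ACM_c_smooth ε k).comp contDiff_fst
  have hci : ContDiff ℝ ∞ (fun b : ℂ × ℂ => (ACM_c ε k b.1)⁻¹) := hc.inv fun b => ACM_c_ne h0 _
  exact ld_of_perm (f := (⟨fun b : ℂ × ℂ => (b.1, ACM_c ε k b.1 * b.2),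
    fun b : ℂ × ℂ => (b.1, (ACM_c ε k b.1)⁻¹ * b.2),
    fun b => by
      ext1
      · rfl
      · show (ACM_c ε k b.1)⁻¹ * (ACM_c ε k b.1 * b.2) = b.2
        rw [inv_mul_cancel_left₀ (ACM_c_ne h0 _)],
    fun b => by
      ext1
      · rfl
      · show ACM_c ε k b.1 * ((ACM_c ε k b.1)⁻¹ * b.2) = b.2
        rw [mul_inv_cancel_left₀ (ACM_c_ne h0 _)]⟩ : ℂ × ℂ ≃ ℂ × ℂ))
    (contDiff_fst.prodMk (hc.mul contDiff_snd)) (contDiff_fst.prodMk (hci.mul contDiff_snd)) a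

theorem fC_ld (h0 : 0 < ε) (h1 : ε ≤ 1 / 1000) (h2 : 5 * ε < ρ) (h3 : ρ ≤ 1 / 8)
    (L : LS ε ρ k e X) {p ν : ℂ} (h : ww p.re * ‖ν‖ < 5) (hp : ∀ n : ℤ, p ≠ n * I) :
    IsLocalDiffeomorphAt 𝓘(ℝ, ℂ × ℂ) (𝓡 4) ∞ (fC L) (p, ν) := by
  have a1 := ACM_m1_ld h0 k (p, ν)
  have a2 := ACM_m2_ld h0 h1 (p, ACM_c ε k p * ν)
  have a3 := G_ld L (fC_Reg (k := k) h0 h1 h2 h3 h hp)
  have a4 : IsLocalDiffeomorphAt 𝓘(ℝ, ℂ × ℂ) 𝓘(ℝ, ℂ × ℂ) ∞
      (ACM_m2 ε ∘ fun b : ℂ × ℂ => (b.1, ACM_c ε k b.1 * b.2)) (p, ν) :=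
    IsLocalDiffeomorphAt.comp (hf := a1) (hg := a2) ..
  have a5 : IsLocalDiffeomorphAt 𝓘(ℝ, ℂ × ℂ) (𝓡 4) ∞
      (L.G ∘ (ACM_m2 ε ∘ fun b : ℂ × ℂ => (b.1, ACM_c ε k b.1 * b.2))) (p, ν) :=
    IsLocalDiffeomorphAt.comp (hf := a4) (hg := a3) ..
  exact a5

theorem ACM_Wd (h0 : 0 < ε) (h2 : 5 * ε < ρ) {p ν : ℂ} (h : ww p.re * ‖ν‖ < 5) (q : ℂ) :
    (q, ACM_c ε k p * ν) ∈ Wd ρ := by
  right
  have h4 := fr_le (z := ACM_c ε k p * ν) GI_zero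
  rw [sub_zero] at h4
  exact lt_of_le_of_lt h4 ((ACM_c_lt h0 h).trans h2)

theorem fC_per (h0 : 0 < ε) (h2 : 5 * ε < ρ) (h3 : ρ ≤ 1 / 8) (L : LS ε ρ k e X) {p ν : ℂ}
    (h : ww p.re * ‖ν‖ < 5) (n : ℤ) : fC L (p + n * I, ν) = fC L (p, ν) := by
  have e1 : fC L (p + n * I, ν) =
      L.G ((ns ε (p + n * I).re : ℂ) + (p + n * I).im * I, ACM_c ε k (p + n * I) * ν) := rfl
  have e2 : fC L (p, ν) = L.G ((ns ε p.re : ℂ) + p.im * I, ACM_c ε k p * ν) := rfl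
  rw [e1, e2, ACM_c_per]
  have h4 : (p + n * I).re = p.re := by simp
  have h5 : (p + n * I).im = p.im + n := by simp
  rw [h4, h5]
  have h6 := L.G_per ((ns ε p.re : ℂ) + p.im * I) (ACM_c ε k p * ν) (n * I) 0
    (ACM_Wd h0 h2 h _) (by simpa using GI_mk 0 n) GI_zero
  rw [← h6]
  congr 2
  · push_cast; ring
  · ring

theorem fC_inj (h0 : 0 < ε) (h1 : ε ≤ 1 / 1000) (h2 : 5 * ε < ρ) (h3 : ρ ≤ 1 / 8)
    (L : LS ε ρ k e X) {p p' ν ν' : ℂ} (h : ww p.re * ‖ν‖ < 5) (h' : ww p'.re * ‖ν'‖ < 5)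
    (hp : ∀ n : ℤ, p ≠ n * I) (hp' : ∀ n : ℤ, p' ≠ n * I) (he : fC L (p, ν) = fC L (p', ν')) :
    (∃ n : ℤ, p' = p + n * I) ∧ ν' = ν := by
  obtain ⟨g1, g2⟩ := (G_eq L (fC_Reg (k := k) h0 h1 h2 h3 h hp)
    (fC_Reg (k := k) h0 h1 h2 h3 h' hp')).1 he
  obtain ⟨⟨a, ha⟩, ⟨n, hn⟩⟩ := mem_GI.1 g1
  have ha' : ns ε p'.re - ns ε p.re = a := by
    rw [← ha]; simp
  have hn' : p'.im - p.im = n := by
    rw [← hn]; simp
  have b1 := abs_lt.1 (ns_lt h0 h1 p.re)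
  have b2 := abs_lt.1 (ns_lt h0 h1 p'.re)
  have b3 : |a| < 1 := by
    have : |(a : ℝ)| < 1 := by
      rw [← ha', abs_lt]
      constructor <;> linarith
    exact_mod_cast this
  rw [Int.abs_lt_one_iff] at b3
  rw [b3] at ha'
  have c1 : p'.re = p.re := by
    apply (ns_strictMono h0 h1).injective
    have : ns ε p'.re - ns ε p.re = 0 := by simpa using ha'
    linarith
  have c2 : p' = p + n * I := by
    apply Complex.ext
    · simp [c1]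
    · simp; linarith
  refine ⟨⟨n, c2⟩, ?_⟩
  have g3 : ACM_c ε k p' * ν' - ACM_c ε k p * ν ∈ GI := g2
  have n1 := ACM_c_lt (k := k) h0 h
  have n2 := ACM_c_lt (k := k) h0 h'
  have g4 := GI_norm_lt g3 (by
    have := norm_sub_le (ACM_c ε k p' * ν') (ACM_c ε k p * ν)
    linarith)
  have c3 : ACM_c ε k p' = ACM_c ε k p := by rw [c2, ACM_c_per]
  rw [c3, ← mul_sub] at g4
  rcases mul_eq_zero.1 g4 with h5 | h5
  · exact absurd h5 (ACM_c_ne h0 _)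
  · exact sub_eq_zero.1 h5

end Pool.Agent.TS
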