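import Pool.Agent.TS.Fn
import Pool.Agent.CSG.FunBasic
import Pool.Agent.CSG.LD

/-!
# TS/NsM: the profile function `ns ε : ℝ → (-1/2, 1/2)`

`x ≥ 0`: `ns = (1 - s) x + s (1/2 - ε sech (2 π x))` with `s = stp (1/5) (3/10) x`; derivative
`(1 - s) + s 2 π ε sech tanh + s' (1/2 - ε sech - x)`, `s' ≥ 0` (`stp_deriv_nonneg`), `s' ≠ 0` only for
`1/5 ≤ x ≤ 3/10`, where `1/2 - ε sech - x > 0`.  `sech ≤ 1`.  Odd.  `ns x → 1/2` as `x → ∞` (`sech → 0`).
-/

open scoped Manifold ContDiff Topology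
open Complex (I)
open Set Filter

namespace Pool.Agent.TS
open Pool.Agent.CSG

variable {ε : ℝ}

theorem sech_pos (x : ℝ) : 0 < sech x := inv_pos.2 (Real.cosh_pos x)

theorem sech_le_one (x : ℝ) : sech x ≤ 1 := inv_le_one_of_one_le₀ (Real.one_le_cosh x)

theorem sech_neg (x : ℝ) : sech (-x) = sech x := by
  rw [sech, Real.cosh_neg, sech]

theorem sech_smooth : ContDiff ℝ ∞ sech := by
  unfold sech
  exact Real.contDiff_cosh.inv fun x => (Real.cosh_pos x).ne'

theorem ns_smooth (ε : ℝ) : ContDiff ℝ ∞ (ns ε) := by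
  unfold ns
  have h1 : ContDiff ℝ ∞ fun x : ℝ => stp (1 / 5) (3 / 10) x := stp_smooth _ _
  have h2 : ContDiff ℝ ∞ fun x : ℝ => stp (1 / 5) (3 / 10) (-x) :=
    (stp_smooth _ _).comp contDiff_neg
  have h3 : ContDiff ℝ ∞ fun x : ℝ => ε * sech (2 * Real.pi * x) :=
    contDiff_const.mul (sech_smooth.comp (contDiff_const.mul contDiff_id))
  exact (contDiff_id.add (h1.mul ((contDiff_const.sub h3).sub contDiff_id))).add
    (h2.mul ((contDiff_const.add h3).sub contDiff_id))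

theorem ns_neg (ε x : ℝ) : ns ε (-x) = -ns ε x := by
  unfold ns
  have h : sech (2 * Real.pi * -x) = sech (2 * Real.pi * x) := by
    rw [mul_neg, sech_neg]
  rw [h, neg_neg]
  ring

theorem ns_small {x : ℝ} (h : |x| ≤ 1 / 5) : ns ε x = x := by
  rw [abs_le] at h
  unfold ns
  rw [stp_zero (by norm_num) h.2, stp_zero (by norm_num) (by linarith [h.1])]
  ring

theorem ns_big {x : ℝ} (h : 3 / 10 ≤ x) : ns ε x = 1 / 2 - ε * sech (2 * Real.pi * x) := by
  unfold ns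
  rw [stp_one (by norm_num) h, stp_zero (by norm_num) (by linarith)]
  ring

theorem ns_big_neg {x : ℝ} (h : x ≤ -(3 / 10)) :
    ns ε x = -(1 / 2) + ε * sech (2 * Real.pi * x) := by
  unfold ns
  rw [stp_zero (by norm_num) (by linarith), stp_one (by norm_num) (by linarith)]
  ring

theorem NsM_sech_deriv (x : ℝ) :
    HasDerivAt (fun y : ℝ => sech (2 * Real.pi * y))
      (-(2 * Real.pi * Real.sinh (2 * Real.pi * x)) * sech (2 * Real.pi * x) ^ 2) x := by
  have h1 : HasDerivAt (fun y : ℝ => 2 * Real.pi * y) (2 * Real.pi) x := by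
    simpa using (hasDerivAt_id x).const_mul (2 * Real.pi)
  have h2 := (h1.cosh).inv (Real.cosh_pos _).ne'
  have e : -(2 * Real.pi * Real.sinh (2 * Real.pi * x)) * sech (2 * Real.pi * x) ^ 2 =
      -(Real.sinh (2 * Real.pi * x) * (2 * Real.pi)) / Real.cosh (2 * Real.pi * x) ^ 2 := by
    rw [sech, inv_pow, div_eq_mul_inv]
    ring
  rw [e]
  exact h2

theorem NsM_deriv_pos_of_pos (h0 : 0 < ε) (h1 : ε ≤ 1 / 1000) {x : ℝ} (hx : 0 < x) :
    0 < deriv (ns ε) x := by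
  have hev : ns ε =ᶠ[𝓝 x] fun y => y + stp (1 / 5) (3 / 10) y *
      (1 / 2 - ε * sech (2 * Real.pi * y) - y) := by
    filter_upwards [lt_mem_nhds hx] with y hy
    unfold ns
    rw [stp_zero (x := -y) (by norm_num) (by linarith)]
    ring
  have hs : HasDerivAt (stp (1 / 5) (3 / 10)) (deriv (stp (1 / 5) (3 / 10)) x) x :=
    ((stp_smooth (1 / 5) (3 / 10)).differentiable (by simp) x).hasDerivAt
  have hd := (hasDerivAt_id x).add (hs.mul ((((NsM_sech_deriv x).const_mul ε).const_sub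
    (1 / 2)).sub (hasDerivAt_id x)))
  have e : deriv (ns ε) x = (1 - stp (1 / 5) (3 / 10) x) +
      stp (1 / 5) (3 / 10) x * (ε * (2 * Real.pi * Real.sinh (2 * Real.pi * x) *
        sech (2 * Real.pi * x) ^ 2)) +
      deriv (stp (1 / 5) (3 / 10)) x * (1 / 2 - ε * sech (2 * Real.pi * x) - x) := by
    rw [hev.deriv_eq]
    refine HasDerivAt.deriv ?_
    refine HasDerivAt.congr_deriv hd ?_
    simp only [Pi.sub_apply, id_eq]
    ring
  rw [e]
  have hst0 := stp_nonneg (1 / 5) (3 / 10) x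
  have hst1 := stp_le_one (1 / 5) (3 / 10) x
  have hpi := Real.pi_pos
  have hsinh : 0 < Real.sinh (2 * Real.pi * x) := Real.sinh_pos_iff.2 (by positivity)
  have hse := sech_pos (2 * Real.pi * x)
  have hse1 := sech_le_one (2 * Real.pi * x)
  have hT : 0 < ε * (2 * Real.pi * Real.sinh (2 * Real.pi * x) * sech (2 * Real.pi * x) ^ 2) := by
    positivity
  have hthird : 0 ≤ deriv (stp (1 / 5) (3 / 10)) x *
      (1 / 2 - ε * sech (2 * Real.pi * x) - x) := by
    rcases le_or_gt x (3 / 10) with h | h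
    · apply mul_nonneg (stp_deriv_nonneg (by norm_num) x)
      have : ε * sech (2 * Real.pi * x) ≤ 1 / 1000 * 1 := by
        apply mul_le_mul h1 hse1 hse.le (by norm_num)
      linarith
    · have hc : stp (1 / 5) (3 / 10) =ᶠ[𝓝 x] fun _ => (1 : ℝ) := by
        filter_upwards [lt_mem_nhds h] with y hy
        exact stp_one (by norm_num) hy.le
      rw [hc.deriv_eq, deriv_const]
      simp
  rcases lt_or_ge (stp (1 / 5) (3 / 10) x) 1 with h | h
  · have h2 : 0 ≤ stp (1 / 5) (3 / 10) x * (ε * (2 * Real.pi * Real.sinh (2 * Real.pi * x) *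
        sech (2 * Real.pi * x) ^ 2)) := mul_nonneg hst0 hT.le
    linarith
  · have h3 : stp (1 / 5) (3 / 10) x = 1 := le_antisymm hst1 h
    rw [h3]
    linarith

theorem ns_deriv_pos (h0 : 0 < ε) (h1 : ε ≤ 1 / 1000) (x : ℝ) : 0 < deriv (ns ε) x := by
  rcases lt_trichotomy x 0 with h | h | h
  · have h2 := NsM_deriv_pos_of_pos h0 h1 (x := -x) (by linarith)
    have h3 : ns ε = fun y => -ns ε (-y) := by
      funext y
      rw [ns_neg, neg_neg]
    have h4 : deriv (ns ε) x = deriv (ns ε) (-x) := by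
      conv_lhs => rw [h3]
      rw [deriv.fun_neg, deriv_comp_neg, neg_neg]
    rw [h4]
    exact h2
  · subst h
    have hev : ns ε =ᶠ[𝓝 0] fun y => y := by
      filter_upwards [Ioo_mem_nhds (a := -(1 / 5 : ℝ)) (b := 1 / 5) (by norm_num)
        (by norm_num)] with y hy
      exact ns_small (abs_le.2 ⟨hy.1.le, hy.2.le⟩)
    rw [hev.deriv_eq]
    simp
  · exact NsM_deriv_pos_of_pos h0 h1 h

theorem ns_strictMono (h0 : 0 < ε) (h1 : ε ≤ 1 / 1000) : StrictMono (ns ε) :=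
  strictMono_of_deriv_pos (ns_deriv_pos h0 h1)

theorem ns_lt (h0 : 0 < ε) (h1 : ε ≤ 1 / 1000) (x : ℝ) : |ns ε x| < 1 / 2 := by
  have hm := ns_strictMono h0 h1
  have ha := abs_nonneg x
  have h2 : ns ε x < ns ε (|x| + 1) := hm (by linarith [le_abs_self x])
  have h3 : ns ε (-(|x| + 1)) < ns ε x := hm (by linarith [neg_abs_le x])
  rw [ns_neg] at h3
  rw [ns_big (x := |x| + 1) (by linarith)] at h2 h3
  have h4 : 0 < ε * sech (2 * Real.pi * (|x| + 1)) := mul_pos h0 (sech_pos _)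
  rw [abs_lt]
  constructor <;> linarith

theorem ns_surj (h0 : 0 < ε) (h1 : ε ≤ 1 / 1000) {y : ℝ} (h : |y| < 1 / 2) : ∃ x, ns ε x = y := by
  have hpi := Real.pi_gt_three
  set d := 1 / 2 - |y| with hd
  have hd0 : 0 < d := by linarith
  set x₀ : ℝ := max (3 / 10) (1 / d) with hx₀
  have hx1 : 3 / 10 ≤ x₀ := le_max_left _ _
  have hx2 : 1 / d ≤ x₀ := le_max_right _ _
  have hx3 : 1 ≤ x₀ * d := by
    rw [div_le_iff₀ hd0] at hx2
    exact hx2
  have hcosh : x₀ ≤ Real.cosh (2 * Real.pi * x₀) := by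
    have a1 : 2 * Real.pi * x₀ + 1 ≤ Real.exp (2 * Real.pi * x₀) := Real.add_one_le_exp _
    have a2 : 0 < Real.exp (-(2 * Real.pi * x₀)) := Real.exp_pos _
    rw [Real.cosh_eq]
    nlinarith
  have hsech : ε * sech (2 * Real.pi * x₀) < d := by
    have b1 : sech (2 * Real.pi * x₀) * Real.cosh (2 * Real.pi * x₀) = 1 :=
      inv_mul_cancel₀ (Real.cosh_pos _).ne'
    have b2 := sech_pos (2 * Real.pi * x₀)
    have b3 : sech (2 * Real.pi * x₀) * x₀ ≤ 1 := by
      rw [← b1]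
      exact mul_le_mul_of_nonneg_left hcosh b2.le
    have b4 : sech (2 * Real.pi * x₀) ≤ d := by
      have : sech (2 * Real.pi * x₀) * 1 ≤ sech (2 * Real.pi * x₀) * (x₀ * d) :=
        mul_le_mul_of_nonneg_left hx3 b2.le
      nlinarith
    nlinarith
  have hc : Continuous (ns ε) := (ns_smooth ε).continuous
  have hr : y ∈ Set.range (ns ε) := by
    apply mem_range_of_exists_le_of_exists_ge hc
    · refine ⟨-x₀, ?_⟩
      rw [ns_neg, ns_big hx1]
      linarith [neg_abs_le y]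
    · refine ⟨x₀, ?_⟩
      rw [ns_big hx1]
      linarith [le_abs_self y]
  exact hr

theorem ns_nsi (h0 : 0 < ε) (h1 : ε ≤ 1 / 1000) {y : ℝ} (h : |y| < 1 / 2) : ns ε (nsi ε y) = y :=
  Function.invFun_eq (ns_surj h0 h1 h)

theorem nsi_ns (h0 : 0 < ε) (h1 : ε ≤ 1 / 1000) (x : ℝ) : nsi ε (ns ε x) = x :=
  Function.leftInverse_invFun (ns_strictMono h0 h1).injective x

theorem ns_ld (h0 : 0 < ε) (h1 : ε ≤ 1 / 1000) (x : ℝ) :
    IsLocalDiffeomorphAt 𝓘(ℝ, ℝ) 𝓘(ℝ, ℝ) ∞ (ns ε) x := by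
  apply ld_of_fderiv
  · exact Filter.Eventually.of_forall fun y => (ns_smooth ε).contDiffAt
  · rfl
  · have hd := ns_deriv_pos h0 h1 x
    intro v hvw
    have e : ∀ u : ℝ, fderiv ℝ (ns ε) x u = u * deriv (ns ε) x := by
      intro u
      rw [← fderiv_apply_one_eq_deriv]
      have := (fderiv ℝ (ns ε) x).map_smul u 1
      rw [smul_eq_mul, smul_eq_mul, mul_one] at this
      exact this
    rw [e] at hvw
    rcases mul_eq_zero.1 hvw with h | h
    · exact h
    · exact absurd h hd.ne'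

theorem nsi_continuousAt (h0 : 0 < ε) (h1 : ε ≤ 1 / 1000) {y : ℝ} (h : |y| < 1 / 2) :
    ContinuousAt (nsi ε) y := by
  have hm := ns_strictMono h0 h1
  rw [abs_lt] at h
  have hs : Ioo (-(1 / 2 : ℝ)) (1 / 2) ∈ 𝓝 y := Ioo_mem_nhds h.1 h.2
  have hmono : StrictMonoOn (nsi ε) (Ioo (-(1 / 2 : ℝ)) (1 / 2)) := by
    intro a ha b hb hab
    rw [← hm.lt_iff_lt, ns_nsi h0 h1 (abs_lt.2 ⟨ha.1, ha.2⟩), ns_nsi h0 h1 (abs_lt.2 ⟨hb.1, hb.2⟩)]
    exact hab
  apply hmono.continuousAt_of_image_mem_nhds hs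
  have : nsi ε '' Ioo (-(1 / 2 : ℝ)) (1 / 2) = univ := by
    apply eq_univ_of_forall
    intro x
    have := ns_lt h0 h1 x
    rw [abs_lt] at this
    exact ⟨ns ε x, this, nsi_ns h0 h1 x⟩
  rw [this]
  exact univ_mem

/-- small values -/
theorem ns_abs_small (h0 : 0 < ε) (h1 : ε ≤ 1 / 1000) {x : ℝ} (h : |ns ε x| ≤ 1 / 5) : |x| ≤ 1 / 5 := by
  have hm := ns_strictMono h0 h1
  have e1 : ns ε (1 / 5) = 1 / 5 := ns_small (by rw [abs_of_pos (by norm_num)])
  have e2 : ns ε (-(1 / 5)) = -(1 / 5) := by rw [ns_neg, e1]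
  rw [abs_le] at h ⊢
  constructor
  · rw [← hm.le_iff_le, e2]
    exact h.1
  · rw [← hm.le_iff_le, e1]
    exact h.2

end Pool.Agent.TS
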