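import Pool.Agent.TS.NrB
import Pool.Agent.TS.NsM

/-!
# TS/IoM: `MZ` and the first step `io`

`io (y, Z) = (Z; MZ Z sinh (2 π y))`, inverse: `Z = zc X`, `y = arsinh (X.2.re / MZ Z) / (2 π)`; both smooth.
-/

open scoped Manifold ContDiff Topology
open Complex (I)
open Set Filter

namespace Pool.Agent.TS
open Pool.Agent.CSG

theorem IoM_arg_pos (Z : ℂ) : 0 < ‖Z‖ ^ 2 + (1 / 400) * (1 - stp (1 / 16) (1 / 8) ‖Z‖) := by
  rcases lt_or_ge ‖Z‖ (1 / 8) with h | h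
  · have h1 := stp_lt_one (a := 1 / 16) (b := 1 / 8) (by norm_num) h
    have h2 := sq_nonneg ‖Z‖
    nlinarith
  · have h1 := stp_le_one (1 / 16) (1 / 8) ‖Z‖
    have h2 : (1 / 8 : ℝ) ^ 2 ≤ ‖Z‖ ^ 2 := pow_le_pow_left₀ (by norm_num) h 2
    nlinarith

theorem MZ_pos (Z : ℂ) : 0 < MZ Z := Real.sqrt_pos.2 (IoM_arg_pos Z)

theorem IoM_stp_smooth : ContDiff ℝ ∞ fun Z : ℂ => stp (1 / 16) (1 / 8) ‖Z‖ := by
  rw [contDiff_iff_contDiffAt]
  intro Z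
  rcases eq_or_ne Z 0 with rfl | h
  · have h1 : (fun Z : ℂ => stp (1 / 16) (1 / 8) ‖Z‖) =ᶠ[𝓝 0] fun _ => (0 : ℝ) := by
      have h2 : ∀ᶠ Z : ℂ in 𝓝 0, ‖Z‖ < 1 / 16 := by
        have h3 : Tendsto (fun Z : ℂ => ‖Z‖) (𝓝 0) (𝓝 ‖(0 : ℂ)‖) := continuous_norm.tendsto 0
        rw [norm_zero] at h3
        exact h3.eventually_lt_const (by norm_num)
      filter_upwards [h2] with Z hZ
      exact stp_zero (by norm_num) hZ.le
    exact contDiffAt_const.congr_of_eventuallyEq h1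
  · exact (stp_smooth _ _).contDiffAt.comp Z (contDiffAt_norm ℝ h)

theorem MZ_smooth : ContDiff ℝ ∞ MZ := by
  unfold MZ
  apply ContDiff.sqrt
  · exact (contDiff_norm_sq ℝ).add (contDiff_const.mul (contDiff_const.sub IoM_stp_smooth))
  · intro Z
    exact (IoM_arg_pos Z).ne'

theorem MZ_big {Z : ℂ} (h : 1 / 8 ≤ ‖Z‖) : MZ Z = ‖Z‖ := by
  unfold MZ
  rw [stp_one (by norm_num) h, sub_self, mul_zero, add_zero, Real.sqrt_sq (norm_nonneg _)]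

theorem norm_le_MZ (Z : ℂ) : ‖Z‖ ≤ MZ Z := by
  unfold MZ
  apply Real.le_sqrt_of_sq_le
  have h1 := stp_le_one (1 / 16) (1 / 8) ‖Z‖
  nlinarith

theorem MZ_le {Z : ℂ} (h : ‖Z‖ ≤ 1 / 8) : MZ Z ≤ 3 / 20 := by
  unfold MZ
  apply Real.sqrt_le_iff.2
  refine ⟨by norm_num, ?_⟩
  have h1 := stp_nonneg (1 / 16) (1 / 8) ‖Z‖
  have h2 : ‖Z‖ ^ 2 ≤ (1 / 8) ^ 2 := pow_le_pow_left₀ (norm_nonneg _) h 2
  nlinarith

theorem MZ_zero : MZ 0 = 1 / 20 := by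
  unfold MZ
  rw [norm_zero, stp_zero (by norm_num) (by norm_num)]
  rw [show ((0 : ℝ) ^ 2 + 1 / 400 * (1 - 0)) = (1 / 20) ^ 2 by norm_num]
  exact Real.sqrt_sq (by norm_num)

theorem MZ_norm {Z W : ℂ} (h : ‖Z‖ = ‖W‖) : MZ Z = MZ W := by
  unfold MZ
  rw [h]

theorem zc_io (a : ℝ × ℂ) : zc (io a) = a.2 := by
  apply Complex.ext <;> rfl

theorem io_re (a : ℝ × ℂ) : (io a).2.re = MZ a.2 * Real.sinh (2 * Real.pi * a.1) := rfl

/-- the inverse of `io` -/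
noncomputable def ioInv (X : R3) : ℝ × ℂ := (Real.arsinh (X.2.re / MZ (zc X)) / (2 * Real.pi), zc X)

theorem ioInv_io (a : ℝ × ℂ) : ioInv (io a) = a := by
  unfold ioInv
  rw [zc_io, io_re, mul_div_cancel_left₀ _ (MZ_pos _).ne', Real.arsinh_sinh,
    mul_div_cancel_left₀ _ (by positivity)]

theorem io_ioInv (X : R3) : io (ioInv X) = X := by
  have h : MZ (zc X) * Real.sinh (2 * Real.pi * (Real.arsinh (X.2.re / MZ (zc X)) / (2 * Real.pi))) =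
      X.2.re := by
    rw [mul_div_cancel₀ _ (by positivity), Real.sinh_arsinh, mul_div_cancel₀ _ (MZ_pos _).ne']
  unfold io ioInv
  simp only
  rw [h]
  rfl

theorem io_bij : Function.Bijective io :=
  Function.bijective_iff_has_inverse.2 ⟨ioInv, ioInv_io, io_ioInv⟩

theorem IoM_mk {V : Type*} [NormedAddCommGroup V] [NormedSpace ℝ V] {f g : V → ℝ}
    (hf : ContDiff ℝ ∞ f) (hg : ContDiff ℝ ∞ g) : ContDiff ℝ ∞ fun x => (⟨f x, g x⟩ : ℂ) := by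
  have h : (fun x => (⟨f x, g x⟩ : ℂ)) = fun x => ((f x : ℂ) + (g x : ℂ) * I) := by
    funext x
    exact Complex.mk_eq_add_mul_I _ _
  rw [h]
  exact (Complex.ofRealCLM.contDiff.comp hf).add
    ((Complex.ofRealCLM.contDiff.comp hg).mul contDiff_const)

theorem io_smooth : ContDiff ℝ ∞ io := by
  unfold io
  have h1 : ContDiff ℝ ∞ fun a : ℝ × ℂ => a.2.re := Complex.reCLM.contDiff.comp contDiff_snd
  have h2 : ContDiff ℝ ∞ fun a : ℝ × ℂ => a.2.im := Complex.imCLM.contDiff.comp contDiff_snd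
  have h3 : ContDiff ℝ ∞ fun a : ℝ × ℂ => MZ a.2 * Real.sinh (2 * Real.pi * a.1) :=
    (MZ_smooth.comp contDiff_snd).mul
      (Real.contDiff_sinh.comp (contDiff_const.mul contDiff_fst))
  exact h1.prodMk (IoM_mk h3 h2)

theorem zc_smooth : ContDiff ℝ ∞ zc := by
  unfold zc
  exact IoM_mk contDiff_fst (Complex.imCLM.contDiff.comp contDiff_snd)

theorem ioInv_smooth : ContDiff ℝ ∞ ioInv := by
  unfold ioInv
  have h1 : ContDiff ℝ ∞ fun X : R3 => X.2.re / MZ (zc X) :=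
    (Complex.reCLM.contDiff.comp contDiff_snd).div (MZ_smooth.comp zc_smooth)
      fun X => (MZ_pos _).ne'
  exact ((Real.contDiff_arsinh.comp h1).div_const _).prodMk zc_smooth

theorem io_ld (a : ℝ × ℂ) : IsLocalDiffeomorphAt 𝓘(ℝ, ℝ × ℂ) 𝓘(ℝ, R3) ∞ io a :=
  ld_of_perm (f := (⟨io, ioInv, ioInv_io, io_ioInv⟩ : (ℝ × ℂ) ≃ R3)) io_smooth ioInv_smooth a

theorem nr_io (a : ℝ × ℂ) :
    nr (io a) ^ 2 = ‖a.2‖ ^ 2 + (MZ a.2 * Real.sinh (2 * Real.pi * a.1)) ^ 2 := by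
  rw [nr_sq', zc_io, io_re]

end Pool.Agent.TS
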