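import Pool.Agent.TS.BDef
import Pool.Agent.TS.IoM
import Pool.Agent.TS.NsM

/-!
# TS/TrM: the transition `TrS`, its inverse `TrSi`, the function `yy`
`(σ₁, ζ₁) = TrS (σ, ζ)`, `N = NN σ ζ > 0`: `√(1 + σ₁^2) = √(N^2 + σ^2)/N`, so `ζ₁/√(1+σ₁^2) = ζ`;
`1 - σ₁^2 ‖ζ‖^2 = (N^2 - σ^2 ‖ζ‖^2)/N^2 = MZ^2/N^2`, so `σ₁ MZ/√(..) = σ`.  Converse similar.
`yy ε` is strictly decreasing (`σ/√(1+σ^2)` increasing); `σ = 1/sinh z`: `σ/√(1+σ^2) = ± sech z`.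
-/

open scoped Manifold ContDiff Topology
open Complex (I)
open Set Filter

namespace Pool.Agent.TS
open Pool.Agent.CSG

variable {ε : ℝ}

theorem NN_sq (σ : ℝ) (ζ : ℂ) : NN σ ζ ^ 2 = ‖ζ‖ ^ 2 * σ ^ 2 + MZ ζ ^ 2 := by
  unfold NN
  exact Real.sq_sqrt (by positivity)

theorem NN_pos (σ : ℝ) (ζ : ℂ) : 0 < NN σ ζ := by
  have := MZ_pos ζ
  unfold NN
  exact Real.sqrt_pos.2 (by positivity)

theorem NN_smooth : ContDiff ℝ ∞ fun a : ℝ × ℂ => NN a.1 a.2 := by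
  unfold NN
  have h1 : ContDiff ℝ ∞ fun a : ℝ × ℂ => ‖a.2‖ ^ 2 * a.1 ^ 2 + MZ a.2 ^ 2 :=
    (((contDiff_norm_sq ℝ).comp contDiff_snd).mul (contDiff_fst.pow 2)).add
      ((MZ_smooth.comp contDiff_snd).pow 2)
  refine h1.sqrt fun a => ?_
  have := MZ_pos a.2
  positivity

theorem sqrt_TrS (a : ℝ × ℂ) :
    √(1 + (TrS a).1 ^ 2) = √(a.1 ^ 2 + NN a.1 a.2 ^ 2) / NN a.1 a.2 := by
  have hN := NN_pos a.1 a.2
  have h1 : 1 + (TrS a).1 ^ 2 = (a.1 ^ 2 + NN a.1 a.2 ^ 2) / NN a.1 a.2 ^ 2 := by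
    simp only [TrS]
    field_simp
    ring
  rw [h1, Real.sqrt_div (by positivity), Real.sqrt_sq hN.le]

theorem TrS_snd_div (a : ℝ × ℂ) : (TrS a).2 / (√(1 + (TrS a).1 ^ 2) : ℂ) = a.2 := by
  have hN := NN_pos a.1 a.2
  have h1 : 0 < √(a.1 ^ 2 + NN a.1 a.2 ^ 2) / NN a.1 a.2 :=
    div_pos (Real.sqrt_pos.2 (by positivity)) hN
  rw [sqrt_TrS]
  simp only [TrS]
  exact mul_div_cancel_left₀ _ (Complex.ofReal_ne_zero.2 h1.ne')

theorem TrSi_TrS (a : ℝ × ℂ) : TrSi (TrS a) = a := by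
  have hN := NN_pos a.1 a.2
  have hM := MZ_pos a.2
  have h1 := TrS_snd_div a
  have h2 : √(1 - (TrS a).1 ^ 2 * ‖a.2‖ ^ 2) = MZ a.2 / NN a.1 a.2 := by
    have : 1 - (TrS a).1 ^ 2 * ‖a.2‖ ^ 2 = (MZ a.2 / NN a.1 a.2) ^ 2 := by
      simp only [TrS]
      have := NN_sq a.1 a.2
      field_simp
      linarith
    rw [this, Real.sqrt_sq (by positivity)]
  unfold TrSi
  rw [h1, h2]
  refine Prod.ext ?_ rfl
  simp only [TrS]
  field_simp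

theorem TrS_TrSi {a : ℝ × ℂ} (h : a.1 ^ 2 * ‖a.2‖ ^ 2 < 1 + a.1 ^ 2) : TrS (TrSi a) = a := by
  obtain ⟨s, z⟩ := a
  simp only at h
  set ζ : ℂ := z / (√(1 + s ^ 2) : ℂ) with hζ
  have hr : 0 < √(1 + s ^ 2) := Real.sqrt_pos.2 (by positivity)
  have hM := MZ_pos ζ
  have hn : ‖ζ‖ ^ 2 = ‖z‖ ^ 2 / (1 + s ^ 2) := by
    rw [hζ, norm_div, Complex.norm_real, Real.norm_of_nonneg hr.le, div_pow,
      Real.sq_sqrt (by positivity)]
  have hlt : 0 < 1 - s ^ 2 * ‖ζ‖ ^ 2 := by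
    rw [hn, ← mul_div_assoc, sub_pos, div_lt_one (by positivity)]
    exact h
  have hD : 0 < √(1 - s ^ 2 * ‖ζ‖ ^ 2) := Real.sqrt_pos.2 hlt
  have hD2 : √(1 - s ^ 2 * ‖ζ‖ ^ 2) ^ 2 = 1 - s ^ 2 * ‖ζ‖ ^ 2 := Real.sq_sqrt hlt.le
  have e1 : TrSi (s, z) = (s * MZ ζ / √(1 - s ^ 2 * ‖ζ‖ ^ 2), ζ) := rfl
  set D := √(1 - s ^ 2 * ‖ζ‖ ^ 2) with hDd
  have e2 : NN (s * MZ ζ / D) ζ = MZ ζ / D := by
    have : ‖ζ‖ ^ 2 * (s * MZ ζ / D) ^ 2 + MZ ζ ^ 2 = (MZ ζ / D) ^ 2 := by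
      field_simp
      rw [hD2]
      ring
    unfold NN
    rw [this, Real.sqrt_sq (by positivity)]
  have e3 : √((s * MZ ζ / D) ^ 2 + (MZ ζ / D) ^ 2) = MZ ζ / D * √(1 + s ^ 2) := by
    have : (s * MZ ζ / D) ^ 2 + (MZ ζ / D) ^ 2 = (MZ ζ / D) ^ 2 * (1 + s ^ 2) := by
      field_simp
      ring
    rw [this, Real.sqrt_mul (by positivity), Real.sqrt_sq (by positivity)]
  rw [e1]
  unfold TrS
  simp only
  rw [e2, e3]
  have e4 : MZ ζ / D * √(1 + s ^ 2) / (MZ ζ / D) = √(1 + s ^ 2) := by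
    field_simp
  rw [e4]
  refine Prod.ext ?_ ?_
  · simp only
    field_simp
  · simp only
    rw [hζ]
    exact mul_div_cancel₀ _ (Complex.ofReal_ne_zero.2 hr.ne')

theorem TrS_smooth : ContDiff ℝ ∞ TrS := by
  have h1 : ContDiff ℝ ∞ fun a : ℝ × ℂ => √(a.1 ^ 2 + NN a.1 a.2 ^ 2) := by
    refine ((contDiff_fst.pow 2).add (NN_smooth.pow 2)).sqrt fun a => ?_
    have := NN_pos a.1 a.2
    positivity
  unfold TrS
  refine ContDiff.prodMk (contDiff_fst.div NN_smooth fun a => (NN_pos _ _).ne') ?_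
  exact ContDiff.mul (Complex.ofRealCLM.contDiff.comp (h1.div NN_smooth fun a => (NN_pos _ _).ne'))
    contDiff_snd

theorem TrSi_smoothAt {a : ℝ × ℂ} (h : a.1 ^ 2 * ‖a.2‖ ^ 2 < 1 + a.1 ^ 2) :
    ContDiffAt ℝ ∞ TrSi a := by
  have h1 : ContDiff ℝ ∞ fun a : ℝ × ℂ => √(1 + a.1 ^ 2) := by
    refine (contDiff_const.add (contDiff_fst.pow 2)).sqrt fun a => ?_
    positivity
  have h2 : ContDiff ℝ ∞ fun a : ℝ × ℂ => a.2 / (√(1 + a.1 ^ 2) : ℂ) := by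
    have h3 : ContDiff ℝ ∞ fun a : ℝ × ℂ => (√(1 + a.1 ^ 2) : ℂ) :=
      Complex.ofRealCLM.contDiff.comp h1
    have h4 : ∀ a : ℝ × ℂ, (√(1 + a.1 ^ 2) : ℂ) ≠ 0 := fun a => by
      have : 0 < √(1 + a.1 ^ 2) := Real.sqrt_pos.2 (by positivity)
      exact Complex.ofReal_ne_zero.2 this.ne'
    have h5 : ContDiff ℝ ∞ fun a : ℝ × ℂ => a.2 * (√(1 + a.1 ^ 2) : ℂ)⁻¹ :=
      contDiff_snd.mul (h3.inv h4)
    simpa only [div_eq_mul_inv] using h5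
  have hr : 0 < √(1 + a.1 ^ 2) := Real.sqrt_pos.2 (by positivity)
  have hlt : 0 < 1 - a.1 ^ 2 * ‖a.2 / (√(1 + a.1 ^ 2) : ℂ)‖ ^ 2 := by
    rw [norm_div, Complex.norm_real, Real.norm_of_nonneg hr.le, div_pow,
      Real.sq_sqrt (by positivity), ← mul_div_assoc, sub_pos, div_lt_one (by positivity)]
    exact h
  unfold TrSi
  refine ContDiffAt.prodMk ?_ h2.contDiffAt
  refine ContDiffAt.div ?_ ?_ (Real.sqrt_pos.2 hlt).ne'
  · exact (contDiff_fst.mul (MZ_smooth.comp h2)).contDiffAt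
  · exact ContDiffAt.sqrt (contDiff_const.sub ((contDiff_fst.pow 2).mul
      ((contDiff_norm_sq ℝ).comp h2))).contDiffAt hlt.ne'

theorem TrS_cond (a : ℝ × ℂ) : (TrS a).1 ^ 2 * ‖(TrS a).2‖ ^ 2 < 1 + (TrS a).1 ^ 2 := by
  have hN := NN_pos a.1 a.2
  have hM := MZ_pos a.2
  have h1 := TrS_snd_div a
  have hr : 0 < √(1 + (TrS a).1 ^ 2) := Real.sqrt_pos.2 (by positivity)
  have h2 : ‖(TrS a).2‖ ^ 2 = (1 + (TrS a).1 ^ 2) * ‖a.2‖ ^ 2 := by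
    have : (TrS a).2 = a.2 * (√(1 + (TrS a).1 ^ 2) : ℂ) := by
      rw [← (div_eq_iff (Complex.ofReal_ne_zero.2 hr.ne')), h1]
    rw [this, norm_mul, Complex.norm_real, Real.norm_of_nonneg hr.le, mul_pow,
      Real.sq_sqrt (by positivity)]
    ring
  have h3 : (TrS a).1 ^ 2 * ‖a.2‖ ^ 2 < 1 := by
    have h4 : (TrS a).1 ^ 2 * ‖a.2‖ ^ 2 = (‖a.2‖ ^ 2 * a.1 ^ 2) / NN a.1 a.2 ^ 2 := by
      simp only [TrS]
      field_simp
    rw [h4, div_lt_one (by positivity), NN_sq]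
    have : 0 < MZ a.2 ^ 2 := by positivity
    linarith
  rw [h2]
  have h5 : 0 < 1 + (TrS a).1 ^ 2 := by positivity
  calc (TrS a).1 ^ 2 * ((1 + (TrS a).1 ^ 2) * ‖a.2‖ ^ 2)
      = (1 + (TrS a).1 ^ 2) * ((TrS a).1 ^ 2 * ‖a.2‖ ^ 2) := by ring
    _ < (1 + (TrS a).1 ^ 2) * 1 := mul_lt_mul_of_pos_left h3 h5
    _ = _ := mul_one _

theorem TrS_ld (a : ℝ × ℂ) : IsLocalDiffeomorphAt 𝓘(ℝ, ℝ × ℂ) 𝓘(ℝ, ℝ × ℂ) ∞ TrS a :=
  ld_of_leftInv rfl (g := TrSi) (Eventually.of_forall fun _ => TrS_smooth.contDiffAt)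
    ((TrSi_smoothAt (TrS_cond a)).differentiableAt (by simp))
    (Eventually.of_forall TrSi_TrS)

theorem TrSi_ld {a : ℝ × ℂ} (h : a.1 ^ 2 * ‖a.2‖ ^ 2 < 1 + a.1 ^ 2) :
    IsLocalDiffeomorphAt 𝓘(ℝ, ℝ × ℂ) 𝓘(ℝ, ℝ × ℂ) ∞ TrSi a := by
  have ho : ∀ᶠ b : ℝ × ℂ in 𝓝 a, b.1 ^ 2 * ‖b.2‖ ^ 2 < 1 + b.1 ^ 2 := by
    apply IsOpen.mem_nhds (isOpen_lt (by fun_prop) (by fun_prop)) h
  exact ld_of_leftInv rfl (g := TrS) (ho.mono fun _ hb => TrSi_smoothAt hb)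
    (TrS_smooth.contDiffAt.differentiableAt (by simp)) (ho.mono fun _ hb => TrS_TrSi hb)

/-- if `‖ζ‖ ≤ 1/4` and `NN ≥ 3 |σ|` then `‖ζ₁‖ < 3/10` -/
theorem norm_TrS {σ : ℝ} {ζ : ℂ} (h : 3 * |σ| ≤ NN σ ζ) (hζ : ‖ζ‖ ≤ 1 / 4) :
    ‖(TrS (σ, ζ)).2‖ < 3 / 10 := by
  have hN := NN_pos σ ζ
  have h1 : √(σ ^ 2 + NN σ ζ ^ 2) / NN σ ζ < 6 / 5 := by
    rw [div_lt_iff₀ hN, Real.sqrt_lt' (by positivity)]
    have h2 : |σ| ≤ NN σ ζ / 3 := by linarith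
    have h3 : σ ^ 2 ≤ (NN σ ζ / 3) ^ 2 := by
      rw [← sq_abs σ]
      exact pow_le_pow_left₀ (abs_nonneg _) h2 2
    nlinarith
  have h0 : 0 ≤ √(σ ^ 2 + NN σ ζ ^ 2) / NN σ ζ := by positivity
  simp only [TrS]
  rw [norm_mul, Complex.norm_real, Real.norm_of_nonneg h0]
  calc √(σ ^ 2 + NN σ ζ ^ 2) / NN σ ζ * ‖ζ‖ ≤ √(σ ^ 2 + NN σ ζ ^ 2) / NN σ ζ * (1 / 4) :=
        mul_le_mul_of_nonneg_left hζ h0
    _ < 6 / 5 * (1 / 4) := by linarith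
    _ = 3 / 10 := by norm_num

theorem yy_smooth (ε : ℝ) : ContDiff ℝ ∞ (yy ε) := by
  unfold yy
  have h1 : ContDiff ℝ ∞ fun σ : ℝ => √(1 + σ ^ 2) := by
    refine (contDiff_const.add (contDiff_id.pow 2)).sqrt fun a => ?_
    positivity
  refine contDiff_const.sub ((contDiff_const.mul contDiff_id).div h1 fun a => ?_)
  exact (Real.sqrt_pos.2 (by positivity)).ne'

theorem sgm_div (σ : ℝ) : sgm (σ / √(1 + σ ^ 2)) = σ := by
  have hr : 0 < √(1 + σ ^ 2) := Real.sqrt_pos.2 (by positivity)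
  have h1 : 1 - (σ / √(1 + σ ^ 2)) ^ 2 = (1 / √(1 + σ ^ 2)) ^ 2 := by
    rw [div_pow, div_pow, Real.sq_sqrt (by positivity)]
    field_simp
    ring
  unfold sgm
  rw [h1, Real.sqrt_sq (by positivity)]
  field_simp

theorem div_sgm {δ : ℝ} (h : |δ| < 1) : sgm δ / √(1 + sgm δ ^ 2) = δ := by
  have h0 : 0 < 1 - δ ^ 2 := by
    have := (sq_lt_one_iff_abs_lt_one δ).2 h
    linarith
  have hr : 0 < √(1 - δ ^ 2) := Real.sqrt_pos.2 h0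
  have h1 : 1 + sgm δ ^ 2 = (1 / √(1 - δ ^ 2)) ^ 2 := by
    unfold sgm
    rw [div_pow, div_pow, Real.sq_sqrt h0.le]
    field_simp
    ring
  rw [h1, Real.sqrt_sq (by positivity)]
  unfold sgm
  field_simp

theorem abs_div_lt_one (σ : ℝ) : |σ / √(1 + σ ^ 2)| < 1 := by
  have hr : 0 < √(1 + σ ^ 2) := Real.sqrt_pos.2 (by positivity)
  rw [abs_div, abs_of_pos hr, div_lt_one hr, ← Real.sqrt_sq_eq_abs]
  exact Real.sqrt_lt_sqrt (by positivity) (by linarith)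

theorem yy_inv (h0 : 0 < ε) (σ : ℝ) : sgm ((1 / 2 - yy ε σ) / ε) = σ := by
  have h : (1 / 2 - yy ε σ) / ε = σ / √(1 + σ ^ 2) := by
    unfold yy
    have hr : 0 < √(1 + σ ^ 2) := Real.sqrt_pos.2 (by positivity)
    field_simp
    ring
  rw [h, sgm_div]

theorem yy_inj (h0 : 0 < ε) {σ σ' : ℝ} (h : yy ε σ = yy ε σ') : σ = σ' := by
  rw [← yy_inv h0 σ, h, yy_inv h0]

theorem yy_lt (h0 : 0 < ε) (σ : ℝ) : |yy ε σ - 1 / 2| < ε := by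
  have h : yy ε σ - 1 / 2 = -(ε * (σ / √(1 + σ ^ 2))) := by
    unfold yy
    ring
  rw [h, abs_neg, abs_mul, abs_of_pos h0]
  exact mul_lt_of_lt_one_right h0 (abs_div_lt_one σ)

theorem sgm_smoothAt {δ : ℝ} (h : |δ| < 1) : ContDiffAt ℝ ∞ sgm δ := by
  have h0 : 0 < 1 - δ ^ 2 := by
    have := (sq_lt_one_iff_abs_lt_one δ).2 h
    linarith
  unfold sgm
  refine ContDiffAt.div contDiffAt_id ?_ (Real.sqrt_pos.2 h0).ne'
  exact ContDiffAt.sqrt (contDiff_const.sub (contDiff_id.pow 2)).contDiffAt h0.ne'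

theorem yy_ld (h0 : 0 < ε) (σ : ℝ) : IsLocalDiffeomorphAt 𝓘(ℝ, ℝ) 𝓘(ℝ, ℝ) ∞ (yy ε) σ := by
  refine ld_of_leftInv rfl (g := fun y => sgm ((1 / 2 - y) / ε))
    (Eventually.of_forall fun _ => (yy_smooth ε).contDiffAt) ?_
    (Eventually.of_forall fun s => yy_inv h0 s)
  have h1 : |(1 / 2 - yy ε σ) / ε| < 1 := by
    rw [abs_div, abs_of_pos h0, div_lt_one h0, abs_sub_comm]
    exact yy_lt h0 σ
  have h2 : DifferentiableAt ℝ sgm ((1 / 2 - yy ε σ) / ε) :=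
    (sgm_smoothAt h1).differentiableAt (by simp)
  have h3 : DifferentiableAt ℝ (fun y : ℝ => (1 / 2 - y) / ε) (yy ε σ) := by fun_prop
  exact DifferentiableAt.comp (g := sgm) (yy ε σ) h2 h3

theorem yy_sgm {δ : ℝ} (h : |δ| < 1) : yy ε (sgm δ) = 1 / 2 - ε * δ := by
  unfold yy
  rw [mul_div_assoc, div_sgm h]

theorem yy_surj (h0 : 0 < ε) {y : ℝ} (h : |y - 1 / 2| < ε) : yy ε (sgm ((1 / 2 - y) / ε)) = y := by
  rw [yy_sgm]
  · field_simp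
    ring
  · rw [abs_div, abs_of_pos h0, div_lt_one h0, abs_sub_comm]
    exact h

theorem sgm_inj {δ δ' : ℝ} (h : |δ| < 1) (h' : |δ'| < 1) (he : sgm δ = sgm δ') : δ = δ' := by
  rw [← div_sgm h, he, div_sgm h']

theorem sinh_aux {z : ℝ} (h : 0 < z) :
    1 / Real.sinh z / √(1 + (1 / Real.sinh z) ^ 2) = sech z := by
  have hs : 0 < Real.sinh z := Real.sinh_pos_iff.2 h
  have hc : 0 < Real.cosh z := Real.cosh_pos z
  have h1 : 1 + (1 / Real.sinh z) ^ 2 = (Real.cosh z / Real.sinh z) ^ 2 := by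
    have := Real.cosh_sq z
    field_simp
    linarith
  rw [h1, Real.sqrt_sq (by positivity)]
  unfold sech
  field_simp

theorem ns_yy {x : ℝ} (h : 3 / 10 ≤ x) : ns ε x = yy ε (1 / Real.sinh (2 * Real.pi * x)) := by
  have hp := Real.pi_pos
  have hz : 0 < 2 * Real.pi * x := by
    have : 0 < x := by linarith
    positivity
  rw [ns_big h]
  unfold yy
  rw [mul_div_assoc, sinh_aux hz]

theorem ns_yy' {x : ℝ} (h : x ≤ -(3 / 10)) :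
    ns ε x = yy ε (1 / Real.sinh (2 * Real.pi * x)) - 1 := by
  have h1 : 3 / 10 ≤ -x := by linarith
  have hp := Real.pi_pos
  have hz : 0 < 2 * Real.pi * -x := by
    have : 0 < -x := by linarith
    positivity
  have h2 := sinh_aux hz
  have h3 : 2 * Real.pi * -x = -(2 * Real.pi * x) := by ring
  rw [h3, Real.sinh_neg, sech_neg, div_neg, neg_sq, neg_div] at h2
  rw [ns_big_neg h]
  unfold yy
  rw [mul_div_assoc]
  linear_combination -ε * h2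

theorem sech_lt_one {z : ℝ} (h : z ≠ 0) : |sech z| < 1 := by
  rw [abs_of_pos (sech_pos z)]
  unfold sech
  exact inv_lt_one_of_one_lt₀ (Real.one_lt_cosh.2 h)

/-- `dl` of a value of `ns` near `± 1/2` -/
theorem dl_ns (h0 : 0 < ε) (h1 : ε ≤ 1 / 1000) {x : ℝ} (h : 3 / 10 ≤ |x|) :
    |dl ε (ns ε x)| < 1 ∧ sgm (dl ε (ns ε x)) = 1 / Real.sinh (2 * Real.pi * x) := by
  have hp := Real.pi_pos
  have hl := sech_le_one (2 * Real.pi * x)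
  have hq := sech_pos (2 * Real.pi * x)
  rcases le_abs.1 h with h | h
  · have hz : 0 < 2 * Real.pi * x := by
      have : 0 < x := by linarith
      positivity
    have h2 : dl ε (ns ε x) = sech (2 * Real.pi * x) := by
      unfold dl
      rw [ns_big h, if_pos (by nlinarith)]
      field_simp
      ring
    rw [h2]
    refine ⟨sech_lt_one hz.ne', ?_⟩
    rw [← sinh_aux hz, sgm_div]
  · have h' : x ≤ -(3 / 10) := by linarith
    have hz : 0 < 2 * Real.pi * -x := by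
      have : 0 < -x := by linarith
      positivity
    have h3 : 2 * Real.pi * -x = -(2 * Real.pi * x) := by ring
    have h2 : dl ε (ns ε x) = -sech (2 * Real.pi * x) := by
      unfold dl
      rw [ns_big_neg h', if_neg (by nlinarith)]
      field_simp
      ring
    rw [h2]
    refine ⟨?_, ?_⟩
    · rw [abs_neg]
      rw [h3] at hz
      exact sech_lt_one (by intro h5; rw [h5] at hz; simp at hz)
    · have h4 : -sech (2 * Real.pi * x) =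
          1 / Real.sinh (2 * Real.pi * x) / √(1 + (1 / Real.sinh (2 * Real.pi * x)) ^ 2) := by
        have h2 := sinh_aux hz
        rw [h3, Real.sinh_neg, sech_neg, div_neg, neg_sq, neg_div] at h2
        rw [← h2, neg_neg]
      rw [h4, sgm_div]

end Pool.Agent.TS
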