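import Pool.Agent.TS.LSG
import Pool.Agent.TS.TrM
import Pool.Agent.TS.TwM

/-!
# TS/ATM: the chart `fT` (log side) of an `LS`
`fT L (q, y, Z) = L.jT (q + e twc Z, ns ε y, Z)`: `jT_loc` composed with the diffeomorphism
`(q, y, Z) ↦ (q + e twc Z, ns ε y, Z)` (`twc_smooth`, `ns_ld`); injectivity from `jT_inj`: `ns ε y' = ns ε y + b`,
`|ns| < 1/2` gives `b = 0`; `glueT`: `Z = s ex u`; `twc (s ex u) + u = thc u` for `s ≥ 1/16`.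
-/

open scoped Manifold ContDiff Topology
open Complex (I)
open Set Filter

namespace Pool.Agent.TS
open Pool.Agent.CSG

variable {X : Type*} [TopologicalSpace X] [ChartedSpace E4 X] {ε ρ : ℝ} {k e : ℤ}

/-- the coordinate change -/
noncomputable def ATM_phi (ε : ℝ) (e : ℤ) (a : ℝ × ℝ × ℂ) : ℝ × ℝ × ℂ :=
  (a.1 + e * twc a.2.2, ns ε a.2.1, a.2.2)

theorem ATM_phi_smooth (ε : ℝ) (e : ℤ) : ContDiff ℝ ∞ (ATM_phi ε e) := by
  unfold ATM_phi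
  have h1 : ContDiff ℝ ∞ fun a : ℝ × ℝ × ℂ => a.2.2 := contDiff_snd.comp contDiff_snd
  have h2 : ContDiff ℝ ∞ fun a : ℝ × ℝ × ℂ => a.2.1 := contDiff_fst.comp contDiff_snd
  exact (contDiff_fst.add (contDiff_const.mul (twc_smooth.comp h1))).prodMk
    (((ns_smooth ε).comp h2).prodMk h1)

theorem ATM_phi_ld (h0 : 0 < ε) (h1 : ε ≤ 1 / 1000) (e : ℤ) (a : ℝ × ℝ × ℂ) :
    IsLocalDiffeomorphAt 𝓘(ℝ, ℝ × ℝ × ℂ) 𝓘(ℝ, ℝ × ℝ × ℂ) ∞ (ATM_phi ε e) a := by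
  have hn : (∞ : WithTop ℕ∞) ≠ 0 := by simp
  apply ld_of_fderiv
  · exact Filter.Eventually.of_forall fun y => (ATM_phi_smooth ε e).contDiffAt
  · rfl
  · intro v hv
    have d1 : HasFDerivAt (fun a : ℝ × ℝ × ℂ => a.2.2)
        ((ContinuousLinearMap.snd ℝ ℝ ℂ).comp (ContinuousLinearMap.snd ℝ ℝ (ℝ × ℂ))) a :=
      ((ContinuousLinearMap.snd ℝ ℝ ℂ).comp (ContinuousLinearMap.snd ℝ ℝ (ℝ × ℂ))).hasFDerivAt
    have d2 : HasFDerivAt (fun a : ℝ × ℝ × ℂ => a.2.1)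
        ((ContinuousLinearMap.fst ℝ ℝ ℂ).comp (ContinuousLinearMap.snd ℝ ℝ (ℝ × ℂ))) a :=
      ((ContinuousLinearMap.fst ℝ ℝ ℂ).comp (ContinuousLinearMap.snd ℝ ℝ (ℝ × ℂ))).hasFDerivAt
    have d3 : HasFDerivAt (fun a : ℝ × ℝ × ℂ => a.1)
        (ContinuousLinearMap.fst ℝ ℝ (ℝ × ℂ)) a :=
      (ContinuousLinearMap.fst ℝ ℝ (ℝ × ℂ)).hasFDerivAt
    have t1 : HasFDerivAt twc (fderiv ℝ twc a.2.2) a.2.2 :=
      (twc_smooth.differentiable hn a.2.2).hasFDerivAt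
    have n1 : HasDerivAt (ns ε) (deriv (ns ε) a.2.1) a.2.1 :=
      ((ns_smooth ε).differentiable hn a.2.1).hasDerivAt
    have f1 : HasFDerivAt (fun a : ℝ × ℝ × ℂ => a.1 + e * twc a.2.2) _ a :=
      d3.add ((t1.comp a d1).const_mul (e : ℝ))
    have f2 : HasFDerivAt (fun a : ℝ × ℝ × ℂ => ns ε a.2.1) (deriv (ns ε) a.2.1 •
        ((ContinuousLinearMap.fst ℝ ℝ ℂ).comp (ContinuousLinearMap.snd ℝ ℝ (ℝ × ℂ)))) a :=
      HasDerivAt.comp_hasFDerivAt (h₂ := ns ε) (f := fun a : ℝ × ℝ × ℂ => a.2.1) a n1 d2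
    have f3 : HasFDerivAt (ATM_phi ε e) _ a := f1.prodMk (f2.prodMk d1)
    rw [f3.fderiv] at hv
    have k3 : v.2.2 = 0 := congrArg (fun w : ℝ × ℝ × ℂ => w.2.2) hv
    have k2 : deriv (ns ε) a.2.1 * v.2.1 = 0 := congrArg (fun w : ℝ × ℝ × ℂ => w.2.1) hv
    have k1 : v.1 + (e : ℝ) * (fderiv ℝ twc a.2.2 v.2.2) = 0 :=
      congrArg (fun w : ℝ × ℝ × ℂ => w.1) hv
    have hd := ns_deriv_pos h0 h1 a.2.1
    have k2' : v.2.1 = 0 := by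
      rcases mul_eq_zero.1 k2 with h | h
      · exact absurd h hd.ne'
      · exact h
    rw [k3, map_zero, mul_zero, add_zero] at k1
    exact Prod.ext k1 (Prod.ext k2' k3)

theorem fT_ld (h0 : 0 < ε) (h1 : ε ≤ 1 / 1000) (L : LS ε ρ k e X) {a : ℝ × ℝ × ℂ}
    (h : ‖a.2.2‖ < 5) : IsLocalDiffeomorphAt 𝓘(ℝ, ℝ × ℝ × ℂ) (𝓡 4) ∞ (fT L) a := by
  have h2 := ATM_phi_ld h0 h1 e a
  have h3 : IsLocalDiffeomorphAt 𝓘(ℝ, ℝ × ℝ × ℂ) (𝓡 4) ∞ L.jT (ATM_phi ε e a) :=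
    L.jT_loc (a.1 + e * twc a.2.2) (ns ε a.2.1) a.2.2 h
  have h4 : IsLocalDiffeomorphAt 𝓘(ℝ, ℝ × ℝ × ℂ) (𝓡 4) ∞ (L.jT ∘ ATM_phi ε e) a :=
    IsLocalDiffeomorphAt.comp (hf := h2) (hg := h3) ..
  exact h4

theorem fT_per (L : LS ε ρ k e X) (q y : ℝ) (Z : ℂ) (n : ℤ) : fT L (q + n, y, Z) = fT L (q, y, Z) := by
  have h := L.jT_per (q + e * twc Z) (ns ε y) Z n 0
  have e1 : q + n + e * twc Z = q + e * twc Z + n := by ring
  show L.jT (q + n + e * twc Z, ns ε y, Z) = L.jT (q + e * twc Z, ns ε y, Z)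
  rw [e1, ← h]
  simp

theorem fT_inj (h0 : 0 < ε) (h1 : ε ≤ 1 / 1000) (L : LS ε ρ k e X) {q q' y y' : ℝ} {Z Z' : ℂ}
    (hZ : ‖Z‖ < 5) (hZ' : ‖Z'‖ < 5) (h : fT L (q, y, Z) = fT L (q', y', Z')) :
    (∃ n : ℤ, q' = q + n) ∧ y' = y ∧ Z' = Z := by
  obtain ⟨⟨a, ha⟩, ⟨b, hb⟩, hZZ⟩ := L.jT_inj (q + e * twc Z) (ns ε y) Z (q' + e * twc Z')
    (ns ε y') Z' hZ hZ' h
  subst hZZ
  have hy := abs_lt.1 (ns_lt h0 h1 y)
  have hy' := abs_lt.1 (ns_lt h0 h1 y')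
  have hb0 : b = 0 := by
    have h2 : (b : ℝ) < 1 := by linarith [hy.1, hy'.2]
    have h3 : (-1 : ℝ) < b := by linarith [hy.2, hy'.1]
    have h4 : b < 1 := by exact_mod_cast h2
    have h5 : -1 < b := by exact_mod_cast h3
    omega
  subst hb0
  refine ⟨⟨a, by linarith⟩, ?_, rfl⟩
  apply (ns_strictMono h0 h1).injective
  rw [hb]
  simp

theorem fT_G (L : LS ε ρ k e X) (q y u : ℝ) {s : ℝ} (hs : 0 < s) (hs' : s < 5) :
    fT L (q, y, s * ex u) =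
      L.G (ε * s * ex (q + e * twc (s * ex u) + e * u), (ns ε y : ℝ) + (u : ℝ) * I) :=
  L.glueT (q + e * twc (s * ex u)) (ns ε y) u s hs hs'

theorem fT_G' (L : LS ε ρ k e X) (q y u : ℝ) {s : ℝ} (hs : 1 / 16 ≤ s) (hs' : s < 5) :
    fT L (q, y, s * ex u) = L.G (ε * s * ex (q + e * thc u), (ns ε y : ℝ) + (u : ℝ) * I) := by
  rw [fT_G L q y u (by linarith) hs', twc_big hs]
  have e1 : q + e * (thc u - u) + e * u = q + e * thc u := by ring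
  rw [e1]

theorem fT_core (L : LS ε ρ k e X) (q y : ℝ) : fT L (q, y, 0) = L.jT (q, ns ε y, 0) := by
  show L.jT (q + e * twc 0, ns ε y, 0) = L.jT (q, ns ε y, 0)
  rw [twc_zero (by rw [norm_zero]; norm_num), mul_zero, add_zero]

theorem fT_jTb (L : LS ε ρ k e X) (q : ℝ) {y : ℝ} (Z : ℂ) (h : 3 / 10 ≤ |y|) :
    fT L (q, y, Z) = jTb L (q, 1 / Real.sinh (2 * Real.pi * y), Z) := by
  show L.jT (q + e * twc Z, ns ε y, Z) =
    L.jT (q + e * twc Z, yy ε (1 / Real.sinh (2 * Real.pi * y)), Z)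
  rcases le_abs.1 h with h2 | h2
  · rw [ns_yy h2]
  · rw [ns_yy' (by linarith)]
    have h3 := L.jT_per (q + e * twc Z) (yy ε (1 / Real.sinh (2 * Real.pi * y))) Z 0 (-1)
    rw [← h3]
    congr 2
    · push_cast
      ring
    · congr 1
      push_cast
      ring

end Pool.Agent.TS
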