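import Pool.Agent.TS.NrB
import Pool.Agent.CSG.FunBasic

/-!
# TS/DDM: the fourth step `DD`

`Mb η (x • st v) = x • st (v / η)` and `Mb η (x • (-1, 0)) = x • (-1, 0)` (`x > 0`, `η > 0`); `Mb 1 = id`;
`nr (Mb η X) = nr X`; `Mb η⁻¹ (Mb η X) = X`; `(1 + η^2) nr X - (1 - η^2) X.1 > 0` for `X ≠ 0`, `0 < η`.
`DD` is smooth off `0` and equals the identity for `nr X ≤ 1/2`; the inverse is `X ↦ Mb (eta (nr X))⁻¹ X`.
`π ε ≤ eta ≤ 1`.
-/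

open scoped Manifold ContDiff Topology
open Complex (I)
open Set Filter

namespace Pool.Agent.TS
open Pool.Agent.CSG

variable {ε : ℝ}

theorem DDM_pi_le (h1 : ε ≤ 1 / 1000) : Real.pi * ε ≤ 1 / 100 := by
  have h3 := Real.pi_lt_four
  have h4 := Real.pi_pos
  nlinarith

theorem eta_pos (h0 : 0 < ε) (h1 : ε ≤ 1 / 1000) (x : ℝ) : 0 < eta ε x := by
  have h2 := stp_nonneg (1 / 2) 1 x
  have h3 := stp_le_one (1 / 2) 1 x
  have h4 := DDM_pi_le h1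
  have h5 : 0 < Real.pi * ε := mul_pos Real.pi_pos h0
  unfold eta tau
  nlinarith

theorem eta_big {x : ℝ} (h : 1 ≤ x) : eta ε x = Real.pi * ε := by
  unfold eta tau
  rw [stp_one (by norm_num) h]
  ring

theorem DDM_eta_small {x : ℝ} (h : x ≤ 1 / 2) : eta ε x = 1 := by
  unfold eta tau
  rw [stp_zero (by norm_num) h]
  ring

theorem Mb_den {η : ℝ} (hη : 0 < η) {X : R3} (h : X ≠ 0) :
    0 < (1 + η ^ 2) * nr X - (1 - η ^ 2) * X.1 := by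
  have h1 := nr_pos.2 h
  have h2 := abs_le.1 (abs_fst_le_nr X)
  have h3 : 0 < η ^ 2 := by positivity
  have h4 : 0 ≤ nr X + X.1 := by linarith [h2.1]
  rcases h4.lt_or_eq with h5 | h5
  · nlinarith [mul_pos h3 h5, h2.2]
  · have h6 : X.1 = -nr X := by linarith
    rw [h6]
    nlinarith

theorem Mb_zero (η : ℝ) : Mb η 0 = 0 := by
  have h : nr 0 = 0 := nr_eq_zero.2 rfl
  unfold Mb
  rw [h]
  simp

theorem Mb_st {η : ℝ} (hη : 0 < η) {x : ℝ} (hx : 0 < x) (v : ℂ) :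
    Mb η (x • st v) = x • st (v / (η : ℂ)) := by
  have hn : nr (x • st v) = x := by rw [nr_smul hx.le, nr_st, mul_one]
  have hs : (0 : ℝ) ≤ ‖v‖ ^ 2 := by positivity
  have hd : (0 : ℝ) < 1 + ‖v‖ ^ 2 := by positivity
  have hη2 : (0 : ℝ) < η ^ 2 := by positivity
  have hse : (0 : ℝ) < ‖v‖ ^ 2 + η ^ 2 := by positivity
  have hnv : ‖v / (η : ℂ)‖ = ‖v‖ / η := by
    rw [norm_div, Complex.norm_real, Real.norm_of_nonneg hη.le]
  unfold Mb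
  rw [hn]
  have h1 : (x • st v).1 = x * ((1 - ‖v‖ ^ 2) / (1 + ‖v‖ ^ 2)) := by
    show x * ((1 + ‖v‖ ^ 2)⁻¹ * (1 - ‖v‖ ^ 2)) = _
    rw [div_eq_inv_mul]
  have h2 : (x • st v).2 = ((x * (2 / (1 + ‖v‖ ^ 2)) : ℝ) : ℂ) * v := by
    show (x : ℝ) • (((1 + ‖v‖ ^ 2)⁻¹ : ℝ) • (2 * v)) = _
    rw [Complex.real_smul, Complex.real_smul, div_eq_inv_mul]
    push_cast
    ring
  have hD : (1 + η ^ 2) * x - (1 - η ^ 2) * (x * ((1 - ‖v‖ ^ 2) / (1 + ‖v‖ ^ 2))) =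
      2 * x * (‖v‖ ^ 2 + η ^ 2) / (1 + ‖v‖ ^ 2) := by
    field_simp
    ring
  rw [h1, h2, hD]
  apply Prod.ext
  · show x / (2 * x * (‖v‖ ^ 2 + η ^ 2) / (1 + ‖v‖ ^ 2)) *
        ((1 + η ^ 2) * (x * ((1 - ‖v‖ ^ 2) / (1 + ‖v‖ ^ 2))) - (1 - η ^ 2) * x) =
      x * ((1 + ‖v / (η : ℂ)‖ ^ 2)⁻¹ * (1 - ‖v / (η : ℂ)‖ ^ 2))
    rw [hnv]
    have h3 : (1 + (‖v‖ / η) ^ 2) = (η ^ 2 + ‖v‖ ^ 2) / η ^ 2 := by
      field_simp
    rw [h3]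
    field_simp
    ring
  · show (x / (2 * x * (‖v‖ ^ 2 + η ^ 2) / (1 + ‖v‖ ^ 2)) : ℝ) •
        (((2 * η : ℝ) : ℂ) * (((x * (2 / (1 + ‖v‖ ^ 2)) : ℝ) : ℂ) * v)) =
      x • ((1 + ‖v / (η : ℂ)‖ ^ 2)⁻¹ • (2 * (v / (η : ℂ))))
    rw [hnv, Complex.real_smul, Complex.real_smul, Complex.real_smul]
    have hηc : (η : ℂ) ≠ 0 := by exact_mod_cast hη.ne'
    have h4 : (x / (2 * x * (‖v‖ ^ 2 + η ^ 2) / (1 + ‖v‖ ^ 2))) * (2 * η) *
        (x * (2 / (1 + ‖v‖ ^ 2))) = x * (1 + (‖v‖ / η) ^ 2)⁻¹ * 2 / η := by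
      have h3 : (1 + (‖v‖ / η) ^ 2) = (‖v‖ ^ 2 + η ^ 2) / η ^ 2 := by
        field_simp
        ring
      rw [h3]
      field_simp
    have h5 : ((x / (2 * x * (‖v‖ ^ 2 + η ^ 2) / (1 + ‖v‖ ^ 2)) : ℝ) : ℂ) * ((2 * η : ℝ) : ℂ) *
        ((x * (2 / (1 + ‖v‖ ^ 2)) : ℝ) : ℂ) = (x : ℂ) * (((1 + (‖v‖ / η) ^ 2)⁻¹ : ℝ) : ℂ) * 2 / (η : ℂ) := by
      rw [← Complex.ofReal_mul, ← Complex.ofReal_mul, h4]
      push_cast
      ring
    calc _ = (((x / (2 * x * (‖v‖ ^ 2 + η ^ 2) / (1 + ‖v‖ ^ 2)) : ℝ) : ℂ) * ((2 * η : ℝ) : ℂ) *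
        ((x * (2 / (1 + ‖v‖ ^ 2)) : ℝ) : ℂ)) * v := by ring
      _ = _ := by rw [h5]; ring

theorem nr_Mb {η : ℝ} (hη : 0 < η) (X : R3) : nr (Mb η X) = nr X := by
  by_cases h : X = 0
  · rw [h, Mb_zero]
  have hD := Mb_den hη h
  have hn := nr_pos.2 h
  have hsq := nr_sq X
  have h1 : nr (Mb η X) ^ 2 = nr X ^ 2 := by
    rw [nr_sq (Mb η X)]
    have ha : (Mb η X).1 = nr X / ((1 + η ^ 2) * nr X - (1 - η ^ 2) * X.1) *
        ((1 + η ^ 2) * X.1 - (1 - η ^ 2) * nr X) := rfl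
    have hb : ‖(Mb η X).2‖ ^ 2 = (nr X / ((1 + η ^ 2) * nr X - (1 - η ^ 2) * X.1)) ^ 2 *
        (4 * η ^ 2 * ‖X.2‖ ^ 2) := by
      have : (Mb η X).2 = (nr X / ((1 + η ^ 2) * nr X - (1 - η ^ 2) * X.1)) •
          (((2 * η : ℝ) : ℂ) * X.2) := rfl
      rw [this, norm_smul, norm_mul, Complex.norm_real, Real.norm_eq_abs, Real.norm_eq_abs,
        mul_pow, mul_pow, sq_abs, sq_abs]
      ring
    rw [ha, hb]
    have hb2 : ‖X.2‖ ^ 2 = nr X ^ 2 - X.1 ^ 2 := by linarith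
    rw [hb2]
    set D := (1 + η ^ 2) * nr X - (1 - η ^ 2) * X.1 with hDdef
    have e : ((1 + η ^ 2) * X.1 - (1 - η ^ 2) * nr X) ^ 2 + 4 * η ^ 2 * (nr X ^ 2 - X.1 ^ 2) =
        D ^ 2 := by
      rw [hDdef]; ring
    calc _ = (nr X / D) ^ 2 * (((1 + η ^ 2) * X.1 - (1 - η ^ 2) * nr X) ^ 2 +
          4 * η ^ 2 * (nr X ^ 2 - X.1 ^ 2)) := by ring
      _ = (nr X / D) ^ 2 * D ^ 2 := by rw [e]
      _ = nr X ^ 2 := by field_simp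
  have h2 := nr_nonneg (Mb η X)
  have h3 := hn.le
  exact (pow_left_inj₀ h2 h3 (by norm_num)).1 h1

theorem Mb_Mb {η : ℝ} (hη : 0 < η) (X : R3) : Mb η⁻¹ (Mb η X) = X := by
  by_cases h : X = 0
  · rw [h, Mb_zero, Mb_zero]
  have hD := Mb_den hη h
  have hn := nr_pos.2 h
  have hnr := nr_Mb hη X
  have ha : (Mb η X).1 = nr X / ((1 + η ^ 2) * nr X - (1 - η ^ 2) * X.1) *
      ((1 + η ^ 2) * X.1 - (1 - η ^ 2) * nr X) := rfl
  have hb : (Mb η X).2 = ((nr X / ((1 + η ^ 2) * nr X - (1 - η ^ 2) * X.1) * (2 * η) : ℝ) : ℂ) *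
      X.2 := by
    show (nr X / ((1 + η ^ 2) * nr X - (1 - η ^ 2) * X.1) : ℝ) • (((2 * η : ℝ) : ℂ) * X.2) = _
    rw [Complex.real_smul]
    push_cast
    ring
  set D := (1 + η ^ 2) * nr X - (1 - η ^ 2) * X.1 with hDdef
  have hD' : (1 + η⁻¹ ^ 2) * nr X - (1 - η⁻¹ ^ 2) * (nr X / D *
      ((1 + η ^ 2) * X.1 - (1 - η ^ 2) * nr X)) = 4 * nr X ^ 2 / D := by
    field_simp
    rw [hDdef]
    ring
  have hN' : (1 + η⁻¹ ^ 2) * (nr X / D * ((1 + η ^ 2) * X.1 - (1 - η ^ 2) * nr X)) -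
      (1 - η⁻¹ ^ 2) * nr X = 4 * nr X * X.1 / D := by
    field_simp
    rw [hDdef]
    ring
  have hE : Mb η⁻¹ (Mb η X) = (nr X / (4 * nr X ^ 2 / D)) • ((4 * nr X * X.1 / D,
      ((2 * η⁻¹ : ℝ) : ℂ) * (((nr X / D * (2 * η) : ℝ) : ℂ) * X.2)) : R3) := by
    conv_lhs => rw [Mb]
    rw [hnr, ha, hb, hD', hN']
  rw [hE]
  apply Prod.ext
  · show nr X / (4 * nr X ^ 2 / D) * (4 * nr X * X.1 / D) = X.1
    field_simp
  · show (nr X / (4 * nr X ^ 2 / D) : ℝ) • (((2 * η⁻¹ : ℝ) : ℂ) *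
      (((nr X / D * (2 * η) : ℝ) : ℂ) * X.2)) = X.2
    rw [Complex.real_smul, ← mul_assoc, ← mul_assoc, ← Complex.ofReal_mul, ← Complex.ofReal_mul]
    have : nr X / (4 * nr X ^ 2 / D) * (2 * η⁻¹) * (nr X / D * (2 * η)) = 1 := by
      field_simp
      norm_num
    rw [this]
    simp

theorem Mb_smul {η : ℝ} (hη : 0 < η) {l : ℝ} (hl : 0 < l) (X : R3) : Mb η (l • X) = l • Mb η X := by
  by_cases h : X = 0
  · rw [h, smul_zero, Mb_zero, smul_zero]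
  have hD := Mb_den hη h
  have hn := nr_pos.2 h
  have h1 : (l • X).1 = l * X.1 := rfl
  have h2 : (l • X).2 = (l : ℂ) * X.2 := by
    show l • X.2 = _
    rw [Complex.real_smul]
  unfold Mb
  rw [nr_smul hl.le, h1, h2]
  have h3 : l * nr X / ((1 + η ^ 2) * (l * nr X) - (1 - η ^ 2) * (l * X.1)) =
      nr X / ((1 + η ^ 2) * nr X - (1 - η ^ 2) * X.1) := by
    have : (1 + η ^ 2) * (l * nr X) - (1 - η ^ 2) * (l * X.1) =
        l * ((1 + η ^ 2) * nr X - (1 - η ^ 2) * X.1) := by ring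
    rw [this, mul_div_mul_left _ _ hl.ne']
  rw [h3, smul_comm]
  congr 1
  apply Prod.ext
  · show (1 + η ^ 2) * (l * X.1) - (1 - η ^ 2) * (l * nr X) =
      l * ((1 + η ^ 2) * X.1 - (1 - η ^ 2) * nr X)
    ring
  · show ((2 * η : ℝ) : ℂ) * ((l : ℂ) * X.2) = l • (((2 * η : ℝ) : ℂ) * X.2)
    rw [Complex.real_smul]
    ring

theorem Mb_smoothAt {η : ℝ} (hη : 0 < η) {X : R3} (h : X ≠ 0) :
    ContDiffAt ℝ ∞ (fun a : ℝ × R3 => Mb a.1 a.2) (η, X) := by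
  have hD := Mb_den hη h
  have hfst : ContDiffAt ℝ ∞ (fun a : ℝ × R3 => a.1) (η, X) := contDiffAt_fst
  have hsnd : ContDiffAt ℝ ∞ (fun a : ℝ × R3 => a.2) (η, X) := contDiffAt_snd
  have hnr : ContDiffAt ℝ ∞ (fun a : ℝ × R3 => nr a.2) (η, X) :=
    ContDiffAt.comp (η, X) (g := nr) (f := fun a : ℝ × R3 => a.2) (nr_smoothAt h) hsnd
  have h1 : ContDiffAt ℝ ∞ (fun a : ℝ × R3 => a.2.1) (η, X) := hsnd.fst
  have h2 : ContDiffAt ℝ ∞ (fun a : ℝ × R3 => a.2.2) (η, X) := hsnd.snd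
  have hc : ContDiffAt ℝ ∞ (fun a : ℝ × R3 => (((2 * a.1 : ℝ)) : ℂ)) (η, X) :=
    Complex.ofRealCLM.contDiff.contDiffAt.comp (η, X) (contDiffAt_const.mul hfst)
  have hden : ContDiffAt ℝ ∞ (fun a : ℝ × R3 => (1 + a.1 ^ 2) * nr a.2 - (1 - a.1 ^ 2) * a.2.1)
      (η, X) :=
    ((contDiffAt_const.add (hfst.pow 2)).mul hnr).sub ((contDiffAt_const.sub (hfst.pow 2)).mul h1)
  have hnum : ContDiffAt ℝ ∞ (fun a : ℝ × R3 => (1 + a.1 ^ 2) * a.2.1 - (1 - a.1 ^ 2) * nr a.2)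
      (η, X) :=
    ((contDiffAt_const.add (hfst.pow 2)).mul h1).sub ((contDiffAt_const.sub (hfst.pow 2)).mul hnr)
  unfold Mb
  exact (hnr.div hden hD.ne').smul (hnum.prodMk (hc.mul h2))

theorem DD_small {X : R3} (h : nr X ≤ 1 / 2) : DD ε X = X := by
  by_cases h0 : X = 0
  · rw [h0]; exact Mb_zero _
  have hn := nr_pos.2 h0
  unfold DD
  rw [DDM_eta_small h]
  unfold Mb
  have h1 : nr X / ((1 + 1 ^ 2) * nr X - (1 - 1 ^ 2) * X.1) = 1 / 2 := by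
    field_simp
    ring
  rw [h1]
  apply Prod.ext
  · show 1 / 2 * ((1 + 1 ^ 2) * X.1 - (1 - 1 ^ 2) * nr X) = X.1
    ring
  · show (1 / 2 : ℝ) • (((2 * 1 : ℝ) : ℂ) * X.2) = X.2
    rw [Complex.real_smul]
    push_cast
    ring

theorem DD_big {X : R3} (h : 1 ≤ nr X) : DD ε X = Mb (Real.pi * ε) X := by
  unfold DD
  rw [eta_big h]

theorem nr_DD (h0 : 0 < ε) (h1 : ε ≤ 1 / 1000) (X : R3) : nr (DD ε X) = nr X :=
  nr_Mb (eta_pos h0 h1 _) X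

theorem DD_bij (h0 : 0 < ε) (h1 : ε ≤ 1 / 1000) : Function.Bijective (DD ε) := by
  constructor
  · intro X Y hXY
    have hn : nr X = nr Y := by
      rw [← nr_DD h0 h1 X, ← nr_DD h0 h1 Y, hXY]
    have hp := eta_pos h0 h1 (nr X)
    have h2 : Mb (eta ε (nr X)) X = Mb (eta ε (nr X)) Y := by
      have : DD ε Y = Mb (eta ε (nr X)) Y := by unfold DD; rw [hn]
      rw [← this]
      exact hXY
    rw [← Mb_Mb hp X, h2, Mb_Mb hp Y]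
  · intro X
    have hp := eta_pos h0 h1 (nr X)
    have hp' := inv_pos.2 hp
    refine ⟨Mb (eta ε (nr X))⁻¹ X, ?_⟩
    unfold DD
    rw [nr_Mb hp' X]
    have := Mb_Mb hp' X
    rwa [inv_inv] at this

theorem DDM_eta_smooth : ContDiff ℝ ∞ (eta ε) := by
  unfold eta tau
  exact contDiff_const.sub ((stp_smooth _ _).mul contDiff_const)

theorem DDM_smoothAt (h0 : 0 < ε) (h1 : ε ≤ 1 / 1000) {X : R3} (h : X ≠ 0) :
    ContDiffAt ℝ ∞ (DD ε) X := by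
  have h2 : ContDiffAt ℝ ∞ (fun Y : R3 => (eta ε (nr Y), Y)) X :=
    (ContDiffAt.comp X (g := eta ε) (f := nr) DDM_eta_smooth.contDiffAt (nr_smoothAt h)).prodMk
      contDiffAt_id
  exact ContDiffAt.comp X (g := fun a : ℝ × R3 => Mb a.1 a.2)
    (f := fun Y : R3 => (eta ε (nr Y), Y)) (Mb_smoothAt (eta_pos h0 h1 _) h) h2

theorem DDM_inv_smoothAt (h0 : 0 < ε) (h1 : ε ≤ 1 / 1000) {X : R3} (h : X ≠ 0) :
    ContDiffAt ℝ ∞ (fun Y : R3 => Mb (eta ε (nr Y))⁻¹ Y) X := by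
  have hp := eta_pos h0 h1 (nr X)
  have h2 : ContDiffAt ℝ ∞ (fun Y : R3 => ((eta ε (nr Y))⁻¹, Y)) X :=
    ((ContDiffAt.comp X (g := eta ε) (f := nr) DDM_eta_smooth.contDiffAt (nr_smoothAt h)).inv
      hp.ne').prodMk contDiffAt_id
  exact ContDiffAt.comp X (g := fun a : ℝ × R3 => Mb a.1 a.2)
    (f := fun Y : R3 => ((eta ε (nr Y))⁻¹, Y)) (Mb_smoothAt (inv_pos.2 hp) h) h2

theorem DD_ld (h0 : 0 < ε) (h1 : ε ≤ 1 / 1000) (X : R3) :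
    IsLocalDiffeomorphAt 𝓘(ℝ, R3) 𝓘(ℝ, R3) ∞ (DD ε) X := by
  by_cases h : X = 0
  · refine ld_congr (ld_id X) ?_
    have h2 : nr X < 1 / 2 := by
      rw [h, nr_eq_zero.2 rfl]
      norm_num
    filter_upwards [nr_continuous.continuousAt.eventually_lt continuousAt_const h2] with Y hY
    exact DD_small hY.le
  · have hne : DD ε X ≠ 0 := by
      rw [← nr_pos, nr_DD h0 h1]
      exact nr_pos.2 h
    refine ld_of_leftInv rfl (g := fun Y : R3 => Mb (eta ε (nr Y))⁻¹ Y) ?_ ?_ ?_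
    · filter_upwards [isOpen_ne.mem_nhds h] with Y hY
      exact DDM_smoothAt h0 h1 hY
    · exact (DDM_inv_smoothAt h0 h1 hne).differentiableAt (by norm_num)
    · refine Eventually.of_forall fun Y => ?_
      show Mb (eta ε (nr (DD ε Y)))⁻¹ (DD ε Y) = Y
      rw [nr_DD h0 h1]
      exact Mb_Mb (eta_pos h0 h1 _) Y

theorem DD_st (h0 : 0 < ε) (h1 : ε ≤ 1 / 1000) {x : ℝ} (hx : 1 ≤ x) (v : ℂ) :
    DD ε (x • st v) = x • st (v / ((Real.pi * ε : ℝ) : ℂ)) := by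
  have hx0 : 0 < x := by linarith
  have hn : nr (x • st v) = x := by rw [nr_smul hx0.le, nr_st, mul_one]
  rw [DD_big (by rw [hn]; exact hx), Mb_st (mul_pos Real.pi_pos h0) hx0]

theorem DD_smul (h0 : 0 < ε) (h1 : ε ≤ 1 / 1000) {X : R3} (h : 1 ≤ nr X) {l : ℝ} (hl : 1 ≤ l) :
    DD ε (l • X) = l • DD ε X := by
  have hl0 : 0 < l := by linarith
  have hn : 1 ≤ nr (l • X) := by
    rw [nr_smul hl0.le]
    nlinarith
  rw [DD_big hn, DD_big h, Mb_smul (mul_pos Real.pi_pos h0) hl0]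

end Pool.Agent.TS
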