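import Pool.Agent.TS.VVM
import Pool.Agent.TS.DDM
import Pool.Agent.TS.NsM

/-!
# TS/PolM: the sphere near the poles

`Ep sg Z` (`sg = ± 1`, `‖Z‖ < 1/4`) is a unit vector `(s, c)` with `s = Re Z`, `c = sg √(1 - ‖Z‖^2) + i Im Z`, so
`‖c‖ ≥ 9/10`, `|s| < 1/4`: not in the cone of `VV`.  `DD ε (Ep sg Z) = Mb (π ε) (Ep sg Z)`; with `h = π ε`:
`aa = 2 h c / ((1 - h^2) - (1 + h^2) s)`, norm `< 1/50`, first coordinate of `DD ε (Ep sg Z)` negative.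
`aaEp_ld`: left inverse: `a ↦ zc (Mb h⁻¹ ((√(1 + ‖a‖^2))⁻¹ • (-1, a)))`, smooth.
-/

open scoped Manifold ContDiff Topology
open Complex (I)
open Set Filter

namespace Pool.Agent.TS
open Pool.Agent.CSG

variable {ε : ℝ}

theorem PolM_nsq (z : ℂ) : ‖z‖ ^ 2 = z.re ^ 2 + z.im ^ 2 := by
  rw [Complex.sq_norm, Complex.normSq_apply]
  ring

theorem nr_Ep {sg : ℝ} (hs : sg ^ 2 = 1) {Z : ℂ} (h : ‖Z‖ < 1 / 4) : nr (Ep sg Z) = 1 := by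
  have h1 : ‖Z‖ ^ 2 ≤ 1 := by
    have := norm_nonneg Z
    nlinarith
  have h2 : nr (Ep sg Z) ^ 2 = 1 := by
    rw [nr_sq, PolM_nsq]
    unfold Ep
    simp only
    rw [mul_pow, hs, Real.sq_sqrt (by linarith), PolM_nsq]
    ring
  have h3 := nr_nonneg (Ep sg Z)
  nlinarith

theorem zc_Ep (sg : ℝ) (Z : ℂ) : zc (Ep sg Z) = Z := by
  apply Complex.ext <;> rfl

theorem PolM_ne {sg : ℝ} (hs : sg ^ 2 = 1) {Z : ℂ} (h : ‖Z‖ < 1 / 4) : Ep sg Z ≠ 0 := by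
  intro h0
  have h1 := nr_Ep hs h
  rw [nr_eq_zero.2 h0] at h1
  norm_num at h1

theorem PolM_re {Z : ℂ} (h : ‖Z‖ < 1 / 4) : |Z.re| < 1 / 4 :=
  lt_of_le_of_lt (Complex.abs_re_le_norm Z) h

theorem PolM_snd {sg : ℝ} (hs : sg ^ 2 = 1) {Z : ℂ} (h : ‖Z‖ < 1 / 4) :
    9 / 10 ≤ ‖(Ep sg Z).2‖ ∧ ‖(Ep sg Z).2‖ ≤ 1 := by
  have h1 := nr_sq (Ep sg Z)
  rw [nr_Ep hs h] at h1
  have h2 : (Ep sg Z).1 = Z.re := rfl
  rw [h2] at h1
  have h3 := PolM_re h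
  have h4 : Z.re ^ 2 < (1 / 4) ^ 2 := by
    rw [← sq_abs]
    exact pow_lt_pow_left₀ h3 (abs_nonneg _) (by norm_num)
  have h5 := norm_nonneg (Ep sg Z).2
  constructor
  · nlinarith
  · nlinarith [sq_nonneg Z.re]

theorem VV_Ep {sg : ℝ} (hs : sg ^ 2 = 1) {Z : ℂ} (h : ‖Z‖ < 1 / 4) {l : ℝ} (hl : 0 < l) :
    VV (l • Ep sg Z) = l • Ep sg Z := by
  apply VV_id
  rw [nr_smul hl.le, nr_Ep hs h]
  have h1 : (l • Ep sg Z).1 = l * Z.re := rfl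
  have h2 : (l • Ep sg Z).2 = l • (Ep sg Z).2 := rfl
  rw [h1, h2, norm_smul, Real.norm_eq_abs, abs_of_pos hl]
  have h3 := (abs_lt.1 (PolM_re h)).2
  have h4 := (PolM_snd hs h).1
  have h5 : l * Z.re ≤ l * (1 / 4) := mul_le_mul_of_nonneg_left h3.le hl.le
  have h6 : l * (9 / 10) ≤ l * ‖(Ep sg Z).2‖ := mul_le_mul_of_nonneg_left h4 hl.le
  nlinarith

theorem PolM_ex (t : ℝ) : ex t = ⟨Real.cos (2 * Real.pi * t), Real.sin (2 * Real.pi * t)⟩ := by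
  unfold ex
  rw [Complex.exp_mul_I, ← Complex.ofReal_cos, ← Complex.ofReal_sin]
  exact (Complex.mk_eq_add_mul_I _ _).symm

theorem EE_eq_Ep {p : ℂ} {sg : ℝ} (hs : sg ^ 2 = 1) (h : 0 < sg * p.re) :
    EE p = Ep sg (sech (2 * Real.pi * p.re) * ex p.im) := by
  have hZ : ((sech (2 * Real.pi * p.re) : ℂ) * ex p.im) =
      ⟨sech (2 * Real.pi * p.re) * Real.cos (2 * Real.pi * p.im),
        sech (2 * Real.pi * p.re) * Real.sin (2 * Real.pi * p.im)⟩ := by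
    rw [PolM_ex]
    apply Complex.ext <;> simp
  rw [hZ]
  unfold EE Ep
  have hn : ‖(⟨sech (2 * Real.pi * p.re) * Real.cos (2 * Real.pi * p.im),
        sech (2 * Real.pi * p.re) * Real.sin (2 * Real.pi * p.im)⟩ : ℂ)‖ ^ 2 =
      sech (2 * Real.pi * p.re) ^ 2 := by
    rw [PolM_nsq]
    simp only
    have := Real.sin_sq_add_cos_sq (2 * Real.pi * p.im)
    linear_combination (sech (2 * Real.pi * p.re) ^ 2) * this
  have ht : 1 - sech (2 * Real.pi * p.re) ^ 2 = Real.tanh (2 * Real.pi * p.re) ^ 2 := by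
    unfold sech
    rw [Real.tanh_eq_sinh_div_cosh]
    have h1 := Real.cosh_pos (2 * Real.pi * p.re)
    have h2 := Real.cosh_sq (2 * Real.pi * p.re)
    field_simp
    linarith
  have hsg : sg = 1 ∨ sg = -1 := by
    have : (sg - 1) * (sg + 1) = 0 := by ring_nf; linarith
    rcases mul_eq_zero.1 this with h | h
    · left; linarith
    · right; linarith
  have h3 : sg * √(1 - sech (2 * Real.pi * p.re) ^ 2) = Real.tanh (2 * Real.pi * p.re) := by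
    rw [ht, Real.sqrt_sq_eq_abs]
    rcases hsg with rfl | rfl
    · have h4 : 0 < Real.tanh (2 * Real.pi * p.re) := by
        rw [Real.tanh_eq_sinh_div_cosh]
        apply div_pos _ (Real.cosh_pos _)
        apply Real.sinh_pos_iff.2
        have : 0 < p.re := by linarith
        positivity
      rw [abs_of_pos h4, one_mul]
    · have h4 : Real.tanh (2 * Real.pi * p.re) < 0 := by
        rw [Real.tanh_eq_sinh_div_cosh]
        apply div_neg_of_neg_of_pos _ (Real.cosh_pos _)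
        apply Real.sinh_neg_iff.2
        have : p.re < 0 := by linarith
        have hpi := Real.pi_pos
        nlinarith
      rw [abs_of_neg h4]
      ring
  rw [hn, h3]

theorem PolM_DD {sg : ℝ} (hs : sg ^ 2 = 1) {Z : ℂ} (h : ‖Z‖ < 1 / 4) :
    DD ε (Ep sg Z) = Mb (Real.pi * ε) (Ep sg Z) := DD_big (nr_Ep hs h).ge

theorem PolM_eps (h0 : 0 < ε) (h1 : ε ≤ 1 / 1000) :
    0 < Real.pi * ε ∧ Real.pi * ε ≤ 1 / 250 := by
  have h2 := Real.pi_pos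
  have h3 := Real.pi_lt_four
  constructor
  · positivity
  · nlinarith

theorem PolM_den (h0 : 0 < ε) (h1 : ε ≤ 1 / 1000) {Z : ℂ} (h : ‖Z‖ < 1 / 4) :
    0 < (1 + (Real.pi * ε) ^ 2) * 1 - (1 - (Real.pi * ε) ^ 2) * Z.re := by
  obtain ⟨h2, h3⟩ := PolM_eps h0 h1
  obtain ⟨h4, h5⟩ := abs_lt.1 (PolM_re h)
  nlinarith [sq_nonneg (Real.pi * ε)]

theorem PolM_fst {sg : ℝ} (hs : sg ^ 2 = 1) {Z : ℂ} (h : ‖Z‖ < 1 / 4) :
    (DD ε (Ep sg Z)).1 = ((1 + (Real.pi * ε) ^ 2) * Z.re - (1 - (Real.pi * ε) ^ 2)) /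
      ((1 + (Real.pi * ε) ^ 2) * 1 - (1 - (Real.pi * ε) ^ 2) * Z.re) := by
  rw [PolM_DD hs h]
  unfold Mb
  rw [nr_Ep hs h]
  have h1 : (Ep sg Z).1 = Z.re := rfl
  rw [h1]
  simp only [Prod.smul_mk, smul_eq_mul]
  ring

theorem PolM_snd' {sg : ℝ} (hs : sg ^ 2 = 1) {Z : ℂ} (h : ‖Z‖ < 1 / 4) :
    (DD ε (Ep sg Z)).2 = ((1 / ((1 + (Real.pi * ε) ^ 2) * 1 - (1 - (Real.pi * ε) ^ 2) * Z.re) : ℝ) : ℂ) *
      (((2 * (Real.pi * ε) : ℝ) : ℂ) * (Ep sg Z).2) := by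
  rw [PolM_DD hs h]
  unfold Mb
  rw [nr_Ep hs h]
  have h1 : (Ep sg Z).1 = Z.re := rfl
  rw [h1]
  simp only [Prod.smul_mk, Complex.real_smul]

theorem DD_Ep_neg (h0 : 0 < ε) (h1 : ε ≤ 1 / 1000) {sg : ℝ} (hs : sg ^ 2 = 1) {Z : ℂ}
    (h : ‖Z‖ < 1 / 4) : (DD ε (Ep sg Z)).1 < -(9 / 10) := by
  rw [PolM_fst hs h, div_lt_iff₀ (PolM_den h0 h1 h)]
  obtain ⟨h2, h3⟩ := PolM_eps h0 h1
  obtain ⟨h4, h5⟩ := abs_lt.1 (PolM_re h)
  have h6 : (Real.pi * ε) ^ 2 ≤ (1 / 250) ^ 2 := pow_le_pow_left₀ h2.le h3 2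
  have h7 := sq_nonneg (Real.pi * ε)
  nlinarith

theorem aa_Ep (h0 : 0 < ε) (h1 : ε ≤ 1 / 1000) {sg : ℝ} (hs : sg ^ 2 = 1) {Z : ℂ}
    (h : ‖Z‖ < 1 / 4) : ‖aa (DD ε (Ep sg Z))‖ < 1 / 50 := by
  have hneg := DD_Ep_neg h0 h1 hs h
  obtain ⟨h2, h3⟩ := PolM_eps h0 h1
  obtain ⟨h4, h5⟩ := abs_lt.1 (PolM_re h)
  have hden := PolM_den h0 h1 h
  have h6 : (Real.pi * ε) ^ 2 ≤ (1 / 250) ^ 2 := pow_le_pow_left₀ h2.le h3 2
  have h7 := sq_nonneg (Real.pi * ε)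
  unfold aa
  rw [norm_neg, norm_div, Complex.norm_real, Real.norm_eq_abs, abs_of_neg (by linarith)]
  rw [div_lt_iff₀ (by linarith)]
  have h8 : ‖(DD ε (Ep sg Z)).2‖ ≤ 1 / 70 := by
    rw [PolM_snd' hs h, norm_mul, norm_mul, Complex.norm_real, Complex.norm_real,
      Real.norm_eq_abs, Real.norm_eq_abs, abs_of_pos (by positivity), abs_of_pos (by positivity)]
    rw [one_div, inv_mul_le_iff₀ hden]
    have h9 := (PolM_snd hs h).2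
    have h10 := (PolM_snd hs h).1
    have h11 : 2 * (Real.pi * ε) * ‖(Ep sg Z).2‖ ≤ 2 * (1 / 250) * 1 := by
      apply mul_le_mul (by linarith) h9 (norm_nonneg _) (by norm_num)
    nlinarith
  nlinarith

theorem PolM_sqrt_pos {Z : ℂ} (h : ‖Z‖ < 1 / 4) : 0 < √(1 - ‖Z‖ ^ 2) := by
  apply Real.sqrt_pos.2
  have := norm_nonneg Z
  nlinarith

theorem Ep_inj {sg sg' : ℝ} (hs : sg ^ 2 = 1) (hs' : sg' ^ 2 = 1) {Z Z' : ℂ} (h : ‖Z‖ < 1 / 4)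
    (h' : ‖Z'‖ < 1 / 4) (he : Ep sg Z = Ep sg' Z') : sg = sg' ∧ Z = Z' := by
  have h1 : Z = Z' := by
    rw [← zc_Ep sg Z, he, zc_Ep]
  subst h1
  refine ⟨?_, rfl⟩
  have h2 : sg * √(1 - ‖Z‖ ^ 2) = sg' * √(1 - ‖Z‖ ^ 2) :=
    congrArg (fun X : R3 => X.2.re) he
  exact mul_right_cancel₀ (PolM_sqrt_pos h).ne' h2

theorem PolM_mk {V : Type*} [NormedAddCommGroup V] [NormedSpace ℝ V] {f g : V → ℝ} {x : V}
    (hf : ContDiffAt ℝ ∞ f x) (hg : ContDiffAt ℝ ∞ g x) :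
    ContDiffAt ℝ ∞ (fun x => (⟨f x, g x⟩ : ℂ)) x := by
  have h : (fun x => (⟨f x, g x⟩ : ℂ)) = fun x => ((f x : ℂ) + (g x : ℂ) * I) := by
    funext x
    exact Complex.mk_eq_add_mul_I _ _
  rw [h]
  exact (Complex.ofRealCLM.contDiff.contDiffAt.comp x hf).add
    ((Complex.ofRealCLM.contDiff.contDiffAt.comp x hg).mul contDiffAt_const)

theorem PolM_Ep_smooth (sg : ℝ) {Z : ℂ} (h : ‖Z‖ < 1 / 4) : ContDiffAt ℝ ∞ (Ep sg) Z := by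
  unfold Ep
  have h1 : ContDiffAt ℝ ∞ (fun Z : ℂ => √(1 - ‖Z‖ ^ 2)) Z := by
    apply ContDiffAt.sqrt
    · exact contDiffAt_const.sub (contDiff_norm_sq ℝ).contDiffAt
    · have := norm_nonneg Z
      nlinarith
  exact Complex.reCLM.contDiff.contDiffAt.prodMk
    (PolM_mk (contDiffAt_const.mul h1) Complex.imCLM.contDiff.contDiffAt)

theorem PolM_aa_smooth {E : R3} (h : E.1 ≠ 0) : ContDiffAt ℝ ∞ aa E := by
  unfold aa
  apply ContDiffAt.neg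
  simp only [div_eq_mul_inv]
  apply ContDiffAt.mul contDiffAt_snd
  apply ContDiffAt.inv (Complex.ofRealCLM.contDiff.contDiffAt.comp E contDiffAt_fst)
  show ((E.1 : ℝ) : ℂ) ≠ 0
  exact_mod_cast h

theorem PolM_F_smooth (h0 : 0 < ε) (h1 : ε ≤ 1 / 1000) {sg : ℝ} (hs : sg ^ 2 = 1) {Z : ℂ}
    (h : ‖Z‖ < 1 / 4) : ContDiffAt ℝ ∞ (fun Z => aa (DD ε (Ep sg Z))) Z := by
  have h2 : (fun Z => aa (DD ε (Ep sg Z))) =ᶠ[𝓝 Z] fun Z => aa (Mb (Real.pi * ε) (Ep sg Z)) := by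
    have h3 : ∀ᶠ W : ℂ in 𝓝 Z, ‖W‖ < 1 / 4 :=
      (continuous_norm.tendsto Z).eventually_lt_const h
    filter_upwards [h3] with W hW
    rw [PolM_DD hs hW]
  apply ContDiffAt.congr_of_eventuallyEq _ h2
  have h4 : ContDiffAt ℝ ∞ (fun Z => Mb (Real.pi * ε) (Ep sg Z)) Z := by
    have h5 := Mb_smoothAt (PolM_eps h0 h1).1 (PolM_ne hs h)
    exact ContDiffAt.comp (g := fun a : ℝ × R3 => Mb a.1 a.2)
      (f := fun Z => ((Real.pi * ε, Ep sg Z) : ℝ × R3)) Z h5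
      (contDiffAt_const.prodMk (PolM_Ep_smooth sg h))
  have h6 : (Mb (Real.pi * ε) (Ep sg Z)).1 ≠ 0 := by
    have := DD_Ep_neg h0 h1 hs h
    rw [PolM_DD hs h] at this
    exact ne_of_lt (by linarith)
  exact ContDiffAt.comp (g := aa) (f := fun Z => Mb (Real.pi * ε) (Ep sg Z)) Z
    (PolM_aa_smooth h6) h4

/-- the left inverse -/
noncomputable def PolMInv (ε : ℝ) (a : ℂ) : ℂ :=
  zc (Mb (Real.pi * ε)⁻¹ ((√(1 + ‖a‖ ^ 2))⁻¹ • ((-1, a) : R3)))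

theorem PolM_recover {E : R3} (h : nr E = 1) (hn : E.1 < 0) :
    (√(1 + ‖aa E‖ ^ 2))⁻¹ • ((-1, aa E) : R3) = E := by
  have h1 : 1 + ‖aa E‖ ^ 2 = (1 / -E.1) ^ 2 := by
    have h2 := nr_sq E
    rw [h] at h2
    unfold aa
    rw [norm_neg, norm_div, Complex.norm_real, Real.norm_eq_abs, abs_of_neg hn]
    have hn' : E.1 ≠ 0 := by linarith
    field_simp
    linarith
  have h3 : √(1 + ‖aa E‖ ^ 2) = 1 / -E.1 := by
    rw [h1, Real.sqrt_sq]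
    apply one_div_nonneg.2
    linarith
  rw [h3]
  have hn' : -E.1 ≠ 0 := by linarith
  have hn'' : E.1 ≠ 0 := by linarith
  have hnc : (E.1 : ℂ) ≠ 0 := by exact_mod_cast hn''
  apply Prod.ext
  · simp [Prod.smul_mk, one_div]
  · rw [Prod.smul_snd]
    unfold aa
    rw [one_div, inv_inv, Complex.real_smul]
    push_cast
    field_simp

theorem PolM_left (h0 : 0 < ε) (h1 : ε ≤ 1 / 1000) {sg : ℝ} (hs : sg ^ 2 = 1) {Z : ℂ}
    (h : ‖Z‖ < 1 / 4) : PolMInv ε (aa (DD ε (Ep sg Z))) = Z := by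
  have h2 := DD_Ep_neg h0 h1 hs h
  have h3 : nr (DD ε (Ep sg Z)) = 1 := by rw [nr_DD h0 h1, nr_Ep hs h]
  unfold PolMInv
  rw [PolM_recover h3 (by linarith), PolM_DD hs h, Mb_Mb (PolM_eps h0 h1).1, zc_Ep]

theorem PolMInv_smooth (h0 : 0 < ε) (h1 : ε ≤ 1 / 1000) (a : ℂ) : ContDiffAt ℝ ∞ (PolMInv ε) a := by
  have h2 : ContDiffAt ℝ ∞ (fun a : ℂ => (√(1 + ‖a‖ ^ 2))⁻¹ • ((-1, a) : R3)) a := by
    have h3 : ContDiffAt ℝ ∞ (fun a : ℂ => √(1 + ‖a‖ ^ 2)) a := by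
      apply ContDiffAt.sqrt
      · exact contDiffAt_const.add (contDiff_norm_sq ℝ).contDiffAt
      · positivity
    have h4 : √(1 + ‖a‖ ^ 2) ≠ 0 := by positivity
    exact (h3.inv h4).smul (contDiffAt_const.prodMk contDiffAt_id)
  have h5 : (√(1 + ‖a‖ ^ 2))⁻¹ • ((-1, a) : R3) ≠ 0 := by
    intro h6
    have h7 := congrArg Prod.fst h6
    simp only [Prod.smul_mk, smul_eq_mul, Prod.fst_zero, mul_neg, mul_one, neg_eq_zero] at h7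
    have h8 : 0 < (√(1 + ‖a‖ ^ 2))⁻¹ := by positivity
    linarith
  have h9 := Mb_smoothAt (η := (Real.pi * ε)⁻¹) (inv_pos.2 (PolM_eps h0 h1).1) h5
  have h10 : ContDiffAt ℝ ∞
      (fun a : ℂ => Mb (Real.pi * ε)⁻¹ ((√(1 + ‖a‖ ^ 2))⁻¹ • ((-1, a) : R3))) a :=
    ContDiffAt.comp (g := fun a : ℝ × R3 => Mb a.1 a.2)
      (f := fun a : ℂ => (((Real.pi * ε)⁻¹, (√(1 + ‖a‖ ^ 2))⁻¹ • ((-1, a) : R3)) : ℝ × R3)) a h9
      (contDiffAt_const.prodMk h2)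
  have h11 : ContDiff ℝ ∞ zc := by
    rw [contDiff_iff_contDiffAt]
    intro X
    unfold zc
    exact PolM_mk contDiffAt_fst
      (Complex.imCLM.contDiff.contDiffAt.comp X contDiffAt_snd)
  exact h11.contDiffAt.comp a h10

theorem aaEp_ld (h0 : 0 < ε) (h1 : ε ≤ 1 / 1000) {sg : ℝ} (hs : sg ^ 2 = 1) {Z : ℂ}
    (h : ‖Z‖ < 1 / 4) :
    IsLocalDiffeomorphAt 𝓘(ℝ, ℂ) 𝓘(ℝ, ℂ) ∞ (fun Z => aa (DD ε (Ep sg Z))) Z := by
  have h3 : ∀ᶠ W : ℂ in 𝓝 Z, ‖W‖ < 1 / 4 :=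
    (continuous_norm.tendsto Z).eventually_lt_const h
  apply ld_of_leftInv rfl (g := PolMInv ε)
  · filter_upwards [h3] with W hW
    exact PolM_F_smooth h0 h1 hs hW
  · exact (PolMInv_smooth h0 h1 _).differentiableAt (by simp)
  · filter_upwards [h3] with W hW
    exact PolM_left h0 h1 hs hW

theorem PolM_div {ν ζ : ℂ} (h : ‖ζ‖ < 1 / 4) : ‖ζ / (√(1 + ‖ν‖ ^ 2) : ℂ)‖ < 1 / 4 := by
  rw [norm_div, Complex.norm_real, Real.norm_eq_abs, abs_of_nonneg (Real.sqrt_nonneg _)]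
  have h1 : 1 ≤ √(1 + ‖ν‖ ^ 2) := by
    apply Real.one_le_sqrt.2
    have := sq_nonneg ‖ν‖
    linarith
  rw [div_lt_iff₀ (by linarith)]
  linarith

/-- the coordinate change `(ν, ζ) ↦ (ν, aa (..))` of the polar chart -/
theorem polchart_ld (h0 : 0 < ε) (h1 : ε ≤ 1 / 1000) {sg : ℝ} (hs : sg ^ 2 = 1) {ν ζ : ℂ}
    (h : ‖ζ‖ < 1 / 4) : IsLocalDiffeomorphAt 𝓘(ℝ, ℂ × ℂ) 𝓘(ℝ, ℂ × ℂ) ∞
      (fun a : ℂ × ℂ => (aa (DD ε (Ep sg (a.2 / (√(1 + ‖a.1‖ ^ 2) : ℂ)))), a.1)) (ν, ζ) := by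
  have h3 : ∀ᶠ a : ℂ × ℂ in 𝓝 (ν, ζ), ‖a.2‖ < 1 / 4 := by
    have h4 : Tendsto (fun a : ℂ × ℂ => ‖a.2‖) (𝓝 (ν, ζ)) (𝓝 ‖ζ‖) :=
      (continuous_norm.comp continuous_snd).tendsto (ν, ζ)
    exact h4.eventually_lt_const h
  have hsq : ContDiff ℝ ∞ (fun ν : ℂ => ((√(1 + ‖ν‖ ^ 2) : ℝ) : ℂ)) := by
    apply Complex.ofRealCLM.contDiff.comp
    apply ContDiff.sqrt
    · exact contDiff_const.add (contDiff_norm_sq ℝ)
    · intro ν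
      positivity
  have hne : ∀ ν : ℂ, ((√(1 + ‖ν‖ ^ 2) : ℝ) : ℂ) ≠ 0 := by
    intro ν
    have : √(1 + ‖ν‖ ^ 2) ≠ 0 := by positivity
    exact_mod_cast this
  apply ld_of_leftInv rfl
    (g := fun b : ℂ × ℂ => ((b.2, PolMInv ε b.1 * ((√(1 + ‖b.2‖ ^ 2) : ℝ) : ℂ)) : ℂ × ℂ))
  · filter_upwards [h3] with a ha
    have h5 : ContDiffAt ℝ ∞ (fun a : ℂ × ℂ => a.2 / ((√(1 + ‖a.1‖ ^ 2) : ℝ) : ℂ)) a := by
      simp only [div_eq_mul_inv]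
      apply ContDiffAt.mul contDiffAt_snd
      exact ContDiffAt.inv (hsq.contDiffAt.comp a contDiffAt_fst) (hne _)
    have h6 := PolM_F_smooth h0 h1 hs (PolM_div (ν := a.1) ha)
    exact (ContDiffAt.comp (g := fun Z => aa (DD ε (Ep sg Z)))
      (f := fun a : ℂ × ℂ => a.2 / ((√(1 + ‖a.1‖ ^ 2) : ℝ) : ℂ)) a h6 h5).prodMk contDiffAt_fst
  · have h7 : ContDiffAt ℝ ∞
        (fun b : ℂ × ℂ => ((b.2, PolMInv ε b.1 * ((√(1 + ‖b.2‖ ^ 2) : ℝ) : ℂ)) : ℂ × ℂ))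
        (aa (DD ε (Ep sg (ζ / (√(1 + ‖ν‖ ^ 2) : ℂ)))), ν) := by
      apply contDiffAt_snd.prodMk
      apply ContDiffAt.mul
      · exact ContDiffAt.comp (g := PolMInv ε) (f := fun b : ℂ × ℂ => b.1) _
          (PolMInv_smooth h0 h1 _) contDiffAt_fst
      · exact hsq.contDiffAt.comp _ contDiffAt_snd
    exact h7.differentiableAt (by simp)
  · filter_upwards [h3] with a ha
    have h8 := PolM_left h0 h1 hs (PolM_div (ν := a.1) ha)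
    rw [h8]
    apply Prod.ext
    · rfl
    · exact div_mul_cancel₀ _ (hne a.1)

end Pool.Agent.TS
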