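import Pool.Agent.TS.SphM
import Pool.Agent.TS.ACM
import Pool.Agent.TS.ATM
import Pool.Agent.TS.PolM

/-!
# TS/APM: the chart `fP` (poles of the surgered sphere) of an `LS`
`fP L sg = L.jK ∘ (hS sg × id)`: `jK_loc`, `hS_ld`, `prod_ld_S2`; `jK_inj`, `hS_inj`.
`fP_eq_fC`: put `n = √(1 + ‖ν‖^2)`, `ζ = s ex t`.  `EE p = Ep sg (ζ/n)` gives `sg p.re > 0`,
`sech (2 π p.re) = s/n < 1/4`, `ex p.im = ex t` (so `s > 0`), hence `|p.re| ≥ 3/10`, `ww = sech`,
`ns ε p.re = sg (1/2 - ε s/n)`.  `glueK`: `jK (hS sg ν, s ex t) = G (1/2 - ε s sg/n + i t, ε s ex (k thc t) ν/n)`;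
periodicity.
`fP_fC`: converse: if `ζ = 0` impossible (`disjK`); else `G_eq`: `1/2 - ε s sg / n = ns ε p.re` modulo `Z`, so
`|ns| > 1/2 - ε/4`, `sech (2 π p.re) = s/n` and the sign of `p.re` is `sg` (`ns_big`; monotonicity for `|x| ≤ 3/10`:
`|ns| ≤ 1/2 - ε sech (3π/5)`, `sech (3 π/5) > 1/4`), etc.
`jK_ne_fT`: `Re` of the first component is within `ε` of `1/2`, respectively within `5 ε` of `0`, modulo `Z`; cores: `disjK`,
`disjT`, `disjKT`.
-/

open scoped Manifold ContDiff Topology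
open Complex (I)
open Set Filter

namespace Pool.Agent.TS
open Pool.Agent.CSG

variable {X : Type*} [TopologicalSpace X] [ChartedSpace E4 X] {ε ρ : ℝ} {k e : ℤ}

theorem fP_ld (L : LS ε ρ k e X) {sg : ℝ} (hs : sg ^ 2 = 1) (ν : ℂ) {ζ : ℂ} (h : ‖ζ‖ < 1) :
    IsLocalDiffeomorphAt 𝓘(ℝ, ℂ × ℂ) (𝓡 4) ∞ (fP L sg) (ν, ζ) := by
  have h1 := prod_ld_S2 (hS_ld hs ν) ζ
  have h2 := L.jK_loc (hS sg ν) ζ h
  exact h1.comp (hg := h2)

theorem fP_inj (L : LS ε ρ k e X) {sg sg' : ℝ} (hs : sg ^ 2 = 1) (hs' : sg' ^ 2 = 1)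
    {ν ν' ζ ζ' : ℂ} (h : ‖ζ‖ < 1) (h' : ‖ζ'‖ < 1) (he : fP L sg (ν, ζ) = fP L sg' (ν', ζ')) :
    sg' = sg ∧ ν' = ν ∧ ζ' = ζ := by
  obtain ⟨h1, h2⟩ := L.jK_inj _ _ _ _ h h' he
  obtain ⟨h3, h4⟩ := hS_inj hs hs' h1
  exact ⟨h3, h4, h2.symm⟩

theorem APM_sq {sg : ℝ} (hs : sg ^ 2 = 1) : sg = 1 ∨ sg = -1 := by
  have : (sg - 1) * (sg + 1) = 0 := by nlinarith
  rcases mul_eq_zero.mp this with h | h
  · left; linarith
  · right; linarith

theorem APM_sech {y : ℝ} (h : |y| ≤ 3 / 10) : 1 / 4 < sech (2 * Real.pi * y) := by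
  have hpi := Real.pi_lt_d2
  have hpi0 := Real.pi_pos
  have h1 : |2 * Real.pi * y| ≤ |(2 : ℝ)| := by
    rw [abs_mul, abs_of_pos (by positivity : 0 < 2 * Real.pi), abs_of_pos (by norm_num : (0:ℝ) < 2)]
    nlinarith [abs_nonneg y]
  have h2 : Real.cosh (2 * Real.pi * y) ≤ Real.cosh 2 := Real.cosh_le_cosh.mpr h1
  have h3 : Real.cosh 2 < 4 := by
    rw [Real.cosh_eq]
    have e1 : Real.exp 2 = Real.exp 1 ^ 2 := by
      rw [← Real.exp_nat_mul]; norm_num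
    have e2 := Real.exp_one_lt_d9
    have e3 : Real.exp (-2) ≤ Real.exp (-1) := Real.exp_le_exp.mpr (by norm_num)
    have e4 := Real.exp_neg_one_lt_d9
    have e5 := Real.exp_pos 1
    nlinarith
  unfold sech
  rw [lt_inv_comm₀ (by norm_num) (Real.cosh_pos _)]
  linarith

theorem APM_big {y : ℝ} (h : sech (2 * Real.pi * y) ≤ 1 / 4) : 3 / 10 < |y| := by
  by_contra hc
  exact absurd h (not_le.mpr (APM_sech (not_lt.mp hc)))

theorem APM_zc (p : ℂ) : zc (EE p) = (sech (2 * Real.pi * p.re) : ℂ) * ex p.im := by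
  have h1 : ex p.im = ⟨Real.cos (2 * Real.pi * p.im), Real.sin (2 * Real.pi * p.im)⟩ := by
    unfold ex
    apply Complex.ext
    · rw [Complex.exp_ofReal_mul_I_re]
    · rw [Complex.exp_ofReal_mul_I_im]
  rw [h1]
  apply Complex.ext
  · simp [zc, EE]
  · simp [zc, EE]

theorem APM_nu (ν : ℂ) : 0 < √(1 + ‖ν‖ ^ 2) ∧ 1 ≤ √(1 + ‖ν‖ ^ 2) ∧ ‖ν‖ < √(1 + ‖ν‖ ^ 2) := by
  have h0 : 0 ≤ ‖ν‖ := norm_nonneg ν
  have h1 : 1 ≤ √(1 + ‖ν‖ ^ 2) := by
    rw [Real.one_le_sqrt]; nlinarith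
  refine ⟨by linarith, h1, ?_⟩
  exact Real.lt_sqrt_of_sq_lt (by linarith)

theorem APM_glue (L : LS ε ρ k e X) {sg : ℝ} (hs : sg ^ 2 = 1) (ν : ℂ) {s t : ℝ} (h0 : 0 < s) (h1 : s < 1) :
    fP L sg (ν, s * ex t) = L.G ((1 / 2 - ε * s * sg / √(1 + ‖ν‖ ^ 2) : ℝ) + (t : ℝ) * I,
      ε * s * ex (k * thc t) * (ν / (√(1 + ‖ν‖ ^ 2) : ℂ))) := by
  unfold fP
  rw [L.glueK (hS sg ν) t s h0 h1, hS_zero hs, hS_yc hs]
  congr 3
  norm_num
  ring

theorem fP_eq_fC (h0 : 0 < ε) (h1 : ε ≤ 1 / 1000) (h2 : 5 * ε < ρ) (h3 : ρ ≤ 1 / 8)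
    (L : LS ε ρ k e X) {sg : ℝ} (hs : sg ^ 2 = 1) {p ν ζ : ℂ} (hζ : ‖ζ‖ < 1 / 4)
    (h : EE p = Ep sg (ζ / (√(1 + ‖ν‖ ^ 2) : ℂ))) : fP L sg (ν, ζ) = fC L (p, ν) := by
  obtain ⟨hn0, hn1, hn2⟩ := APM_nu ν
  obtain ⟨n, hn⟩ : ∃ n : ℝ, n = √(1 + ‖ν‖ ^ 2) := ⟨_, rfl⟩
  rw [← hn] at h hn0 hn1 hn2
  have hnC : (n : ℂ) ≠ 0 := by exact_mod_cast hn0.ne'
  have hz : ζ / (n : ℂ) = (sech (2 * Real.pi * p.re) : ℂ) * ex p.im := by
    have e1 := APM_zc p
    rw [h, zc_Ep] at e1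
    exact e1
  obtain ⟨c, hc⟩ : ∃ c : ℝ, c = sech (2 * Real.pi * p.re) := ⟨_, rfl⟩
  have hc0 : 0 < c := by rw [hc]; exact sech_pos _
  rw [← hc] at hz
  have hζeq : ζ = ((n * c : ℝ) : ℂ) * ex p.im := by
    rw [div_eq_iff hnC] at hz
    rw [hz]; push_cast; ring
  have hnorm : ‖ζ‖ = n * c := by
    rw [hζeq, norm_mul, ex_norm, mul_one, Complex.norm_real, Real.norm_of_nonneg (by positivity)]
  have hnc : n * c < 1 / 4 := by rw [← hnorm]; exact hζ
  have hc4 : c < 1 / 4 := by nlinarith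
  have hbig : 3 / 10 < |p.re| := APM_big (by rw [← hc]; exact hc4.le)
  have hww : ww p.re = c := by rw [ww_big (by linarith), hc]
  have hsgn : (1 : ℝ) / 10 < sg * p.re := by
    have e1 : (EE p).2.re = Real.tanh (2 * Real.pi * p.re) := rfl
    have e2 : (EE p).2.re = sg * √(1 - ‖ζ / (n : ℂ)‖ ^ 2) := by rw [h]; rfl
    have e3 : ‖ζ / (n : ℂ)‖ = c := by
      rw [hz, norm_mul, ex_norm, mul_one, Complex.norm_real, Real.norm_of_nonneg hc0.le]
    rw [e1, e3] at e2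
    have e4 : 0 < √(1 - c ^ 2) := Real.sqrt_pos.mpr (by nlinarith)
    rcases APM_sq hs with rfl | rfl
    · rw [one_mul] at e2 ⊢
      have e5 : 0 < Real.tanh (2 * Real.pi * p.re) := by rw [e2]; exact e4
      have e6 : 0 < p.re := by
        by_contra hcon
        have e7 : Real.tanh (2 * Real.pi * p.re) ≤ 0 := by
          rw [Real.tanh_eq_sinh_div_cosh]
          apply div_nonpos_of_nonpos_of_nonneg _ (Real.cosh_pos _).le
          rw [Real.sinh_nonpos_iff]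
          nlinarith [Real.pi_pos]
        linarith
      rw [abs_of_pos e6] at hbig
      linarith
    · have e5 : Real.tanh (2 * Real.pi * p.re) < 0 := by rw [e2]; linarith
      have e6 : p.re < 0 := by
        by_contra hcon
        have e7 : 0 ≤ Real.tanh (2 * Real.pi * p.re) := by
          rw [Real.tanh_eq_sinh_div_cosh]
          apply div_nonneg _ (Real.cosh_pos _).le
          rw [Real.sinh_nonneg_iff]
          nlinarith [Real.pi_pos]
        linarith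
      rw [abs_of_neg e6] at hbig
      linarith
  have hglue := APM_glue (k := k) (e := e) L hs ν (s := n * c) (t := p.im) (by positivity) (by linarith)
  rw [← hn] at hglue
  rw [hζeq, hglue]
  unfold fC
  have hsec : (ε : ℂ) * ((n * c : ℝ) : ℂ) * ex (k * thc p.im) * (ν / (n : ℂ)) =
      ((ε * ww p.re : ℝ) : ℂ) * ex (k * thc p.im) * ν := by
    rw [hww]
    push_cast
    field_simp
  have hfst : ((1 / 2 - ε * (n * c) * sg / n : ℝ) : ℂ) + (p.im : ℝ) * I =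
      ((1 / 2 - ε * c * sg : ℝ) : ℂ) + (p.im : ℝ) * I := by
    congr 2
    field_simp
  rw [hsec, hfst]
  have hr : ‖((ε * ww p.re : ℝ) : ℂ) * ex (k * thc p.im) * ν‖ < ρ := by
    rw [norm_mul, norm_mul, ex_norm, mul_one, Complex.norm_real, hww,
      Real.norm_of_nonneg (by positivity)]
    have e1 : c * ‖ν‖ ≤ n * c := by nlinarith
    nlinarith
  have hWd : ∀ q : ℂ, (q, ((ε * ww p.re : ℝ) : ℂ) * ex (k * thc p.im) * ν) ∈ Wd ρ := by
    intro q
    right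
    have e1 := fr_le (z := ((ε * ww p.re : ℝ) : ℂ) * ex (k * thc p.im) * ν) GI_zero
    rw [sub_zero] at e1
    exact lt_of_le_of_lt e1 hr
  rcases APM_sq hs with rfl | rfl
  · rw [one_mul] at hsgn
    have e1 : ns ε p.re = 1 / 2 - ε * c := by
      rw [ns_big (by rw [abs_of_pos (by linarith)] at hbig; exact hbig.le), hc]
    rw [e1, mul_one]
  · have e1 : ns ε p.re = -(1 / 2) + ε * c := by
      rw [ns_big_neg (by rw [abs_of_neg (by linarith)] at hbig; linarith), hc]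
    rw [e1]
    have e2 := L.G_per (((-(1 / 2) + ε * c : ℝ) : ℂ) + (p.im : ℝ) * I) _ 1 0 (hWd _)
      (by have := GI_mk 1 0; simpa using this) GI_zero
    rw [add_zero] at e2
    rw [← e2]
    congr 2
    push_cast
    ring

theorem APM_reg (h0 : 0 < ε) (h1 : ε ≤ 1 / 1000) (h2 : 5 * ε < ρ) (h3 : ρ ≤ 1 / 8) {sg : ℝ}
    (hs : sg ^ 2 = 1) (ν : ℂ) {s t : ℝ} (hs0 : 0 < s) (hs1 : s < 1) :
    Reg ρ ((1 / 2 - ε * s * sg / √(1 + ‖ν‖ ^ 2) : ℝ) + (t : ℝ) * I)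
      (ε * s * ex (k * thc t) * (ν / (√(1 + ‖ν‖ ^ 2) : ℂ))) := by
  have e1 := Reg_C h0 h1 h2 h3 (hS sg ν) hs0 hs1 (t := t) (ex (k * thc t)) (ex_norm _)
  rw [hS_zero hs, hS_yc hs] at e1
  have e2 : (1 / 2 + ε * s * (-sg / √(1 + ‖ν‖ ^ 2)) : ℝ) = 1 / 2 - ε * s * sg / √(1 + ‖ν‖ ^ 2) := by
    ring
  rw [e2] at e1
  exact e1

theorem fP_fC (h0 : 0 < ε) (h1 : ε ≤ 1 / 1000) (h2 : 5 * ε < ρ) (h3 : ρ ≤ 1 / 8)
    (L : LS ε ρ k e X) {sg : ℝ} (hs : sg ^ 2 = 1) {p ν ν' ζ : ℂ} (hζ : ‖ζ‖ < 1 / 4)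
    (hν : ww p.re * ‖ν'‖ < 5) (hp : ∀ n : ℤ, p ≠ n * I) (h : fP L sg (ν, ζ) = fC L (p, ν')) :
    ν' = ν ∧ EE p = Ep sg (ζ / (√(1 + ‖ν‖ ^ 2) : ℂ)) := by
  have hReg := fC_Reg (k := k) h0 h1 h2 h3 hν hp
  have hζ0 : ζ ≠ 0 := by
    rintro rfl
    exact L.disjK (hS sg ν) _ _ hReg.1 hReg.2.1 hReg.2.2 h
  obtain ⟨t, ht⟩ := exists_polar (Z := ζ)
  obtain ⟨s, hsd⟩ : ∃ s : ℝ, s = ‖ζ‖ := ⟨_, rfl⟩
  have hs0 : 0 < s := by rw [hsd]; exact norm_pos_iff.mpr hζ0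
  rw [← hsd] at ht hζ
  obtain ⟨hn0, hn1, hn2⟩ := APM_nu ν
  have hReg2 := APM_reg (k := k) h0 h1 h2 h3 hs ν (t := t) hs0 (by linarith)
  have hgl := APM_glue L hs ν (t := t) hs0 (by linarith)
  obtain ⟨n, hn⟩ : ∃ n : ℝ, n = √(1 + ‖ν‖ ^ 2) := ⟨_, rfl⟩
  rw [← hn] at hn0 hn1 hn2 hReg2 hgl ⊢
  have hnC : (n : ℂ) ≠ 0 := by exact_mod_cast hn0.ne'
  obtain ⟨c, hc⟩ : ∃ c : ℝ, c = s / n := ⟨_, rfl⟩
  have hc0 : 0 < c := by rw [hc]; positivity
  have hc4 : c < 1 / 4 := by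
    rw [hc, div_lt_iff₀ hn0]; nlinarith
  have hsc : s = c * n := by rw [hc]; field_simp
  rw [ht] at h
  rw [hgl] at h
  unfold fC at h
  have hGeq := (G_eq L hReg2 hReg).mp h
  obtain ⟨hA, hB⟩ := hGeq
  obtain ⟨⟨a, ha⟩, ⟨b, hb⟩⟩ := mem_GI.mp hA
  have ha' : ns ε p.re - (1 / 2 - ε * c * sg) = a := by
    have : (((ns ε p.re : ℂ) + p.im * I) - ((1 / 2 - ε * s * sg / n : ℝ) + (t : ℝ) * I)).re =
        ns ε p.re - (1 / 2 - ε * s * sg / n) := by
      simp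
    rw [this] at ha
    rw [← ha, hsc]
    field_simp
  have hb' : p.im = t + b := by
    have : (((ns ε p.re : ℂ) + p.im * I) - ((1 / 2 - ε * s * sg / n : ℝ) + (t : ℝ) * I)).im =
        p.im - t := by
      simp
    rw [this] at hb
    linarith
  have hns := ns_lt h0 h1 p.re
  rw [abs_lt] at hns
  have hεc : ε * c < 1 / 4000 := by nlinarith
  have hεc0 : 0 < ε * c := by positivity
  have hnsv : ns ε p.re = sg * (1 / 2 - ε * c) := by
    rcases APM_sq hs with rfl | rfl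
    · have e1 : (a : ℝ) < 1 := by linarith
      have e2 : (-1 : ℝ) < a := by linarith
      have e3 : a = 0 := by
        have e4 : a < 1 := by exact_mod_cast e1
        have e5 : -1 < a := by exact_mod_cast e2
        omega
      rw [e3] at ha'
      push_cast at ha'
      linarith
    · have e1 : (a : ℝ) < 0 := by linarith
      have e2 : (-2 : ℝ) < a := by linarith
      have e3 : a = -1 := by
        have e4 : a < 0 := by exact_mod_cast e1
        have e5 : -2 < a := by exact_mod_cast e2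
        omega
      rw [e3] at ha'
      push_cast at ha'
      linarith
  have hmono := ns_strictMono h0 h1
  have h310 : ns ε (3 / 10) < 1 / 2 - ε / 4 := by
    rw [ns_big le_rfl]
    have := APM_sech (y := 3 / 10) (by rw [abs_of_pos (by norm_num)])
    nlinarith
  have hεc2 : ε * c < ε / 4 := by nlinarith
  have hsech : sech (2 * Real.pi * p.re) = c ∧ 3 / 10 ≤ |p.re| ∧ 0 < sg * p.re := by
    rcases APM_sq hs with rfl | rfl
    · have e1 : 3 / 10 ≤ p.re := by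
        by_contra hcon
        have e2 := hmono (not_le.mp hcon)
        linarith
      have e3 := ns_big (ε := ε) e1
      refine ⟨?_, by rw [abs_of_pos (by linarith)]; exact e1, by linarith⟩
      have e4 : ε * sech (2 * Real.pi * p.re) = ε * c := by linarith
      exact mul_left_cancel₀ h0.ne' e4
    · have e1 : p.re ≤ -(3 / 10) := by
        by_contra hcon
        have e2 := hmono (not_le.mp hcon)
        rw [ns_neg] at e2
        linarith
      have e3 := ns_big_neg (ε := ε) e1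
      refine ⟨?_, by rw [abs_of_neg (by linarith)]; linarith, by linarith⟩
      have e4 : ε * sech (2 * Real.pi * p.re) = ε * c := by linarith
      exact mul_left_cancel₀ h0.ne' e4
  obtain ⟨hse, hbig, hsgp⟩ := hsech
  have hww : ww p.re = c := by rw [ww_big (by linarith), hse]
  have hexb : ex p.im = ex t := by
    rw [hb', ex_add, ex_int, mul_one]
  have hexk : ex (k * thc p.im) = ex (k * thc t) := by
    rw [hb', thc_add_int]
    have : (k : ℝ) * (thc t + b) = k * thc t + ((k * b : ℤ) : ℝ) := by push_cast; ring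
    rw [this, ex_add, ex_int, mul_one]
  constructor
  · have hd : ‖((ε * ww p.re : ℝ) : ℂ) * ex (k * thc p.im) * ν' -
        ε * s * ex (k * thc t) * (ν / (n : ℂ))‖ < 1 := by
      refine lt_of_le_of_lt (norm_sub_le _ _) ?_
      have e1 : ‖((ε * ww p.re : ℝ) : ℂ) * ex (k * thc p.im) * ν'‖ = ε * (ww p.re * ‖ν'‖) := by
        rw [norm_mul, norm_mul, ex_norm, mul_one, Complex.norm_real,
          Real.norm_of_nonneg (mul_nonneg h0.le (ww_pos _).le)]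
        ring
      have e2 : ‖(ε : ℂ) * s * ex (k * thc t) * (ν / (n : ℂ))‖ = ε * s * (‖ν‖ / n) := by
        rw [norm_mul, norm_mul, norm_mul, ex_norm, mul_one, Complex.norm_real, Complex.norm_real,
          norm_div, Complex.norm_real, Real.norm_of_nonneg h0.le, Real.norm_of_nonneg hs0.le,
          Real.norm_of_nonneg hn0.le]
      rw [e1, e2]
      have e3 : ‖ν‖ / n ≤ 1 := by rw [div_le_one hn0]; exact hn2.le
      have e4 : 0 ≤ ‖ν‖ / n := by positivity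
      have e5 : ε * s * (‖ν‖ / n) ≤ ε * s := by
        have : 0 ≤ ε * s := by positivity
        nlinarith
      nlinarith
    have hz := GI_norm_lt hB hd
    rw [sub_eq_zero, hww, hexk] at hz
    have e1 : ((ε * c : ℝ) : ℂ) * ex (k * thc t) ≠ 0 := by
      apply mul_ne_zero
      · exact_mod_cast hεc0.ne'
      · intro h
        have := ex_norm (k * thc t)
        rw [h] at this
        simp at this
    have e2 : ((ε * c : ℝ) : ℂ) * ex (k * thc t) * ν' = ((ε * c : ℝ) : ℂ) * ex (k * thc t) * ν := by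
      rw [hz, hsc]
      push_cast
      field_simp
    exact mul_left_cancel₀ e1 e2
  · rw [EE_eq_Ep hs hsgp, hse, hexb, ht, hsc]
    congr 1
    push_cast
    field_simp

theorem jK_ne_fT (h0 : 0 < ε) (h1 : ε ≤ 1 / 1000) (h2 : 5 * ε < ρ) (h3 : ρ ≤ 1 / 8)
    (L : LS ε ρ k e X) {Y : S2} {ζ : ℂ} (hζ : ‖ζ‖ < 1) {q y : ℝ} {Z : ℂ} (hZ : ‖Z‖ < 5) :
    L.jK (Y, ζ) ≠ fT L (q, y, Z) := by
  intro h
  obtain ⟨t, ht⟩ := exists_polar (Z := ζ)
  obtain ⟨u, hu⟩ := exists_polar (Z := Z)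
  by_cases hZ0 : Z = 0
  · subst hZ0
    rw [fT_core] at h
    by_cases hζ0 : ζ = 0
    · subst hζ0
      exact L.disjKT _ _ _ h
    · have hs0 : 0 < ‖ζ‖ := norm_pos_iff.mpr hζ0
      have hR := Reg_C h0 h1 h2 h3 Y hs0 hζ (t := t) (ex (k * thc t)) (ex_norm _)
      rw [ht, L.glueK Y t ‖ζ‖ hs0 hζ] at h
      exact L.disjT _ _ _ _ hR.1 hR.2.1 hR.2.2 h.symm
  · have hz0 : 0 < ‖Z‖ := norm_pos_iff.mpr hZ0
    rw [hu, fT_G L q y u hz0 hZ] at h
    have hR' := Reg_T h0 h2 h3 (q := q + e * twc ((‖Z‖ : ℂ) * ex u) + e * u) hz0 hZ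
      (((ns ε y : ℝ) : ℂ) + (u : ℝ) * I)
    by_cases hζ0 : ζ = 0
    · subst hζ0
      exact L.disjK _ _ _ hR'.1 hR'.2.1 hR'.2.2 h
    · have hs0 : 0 < ‖ζ‖ := norm_pos_iff.mpr hζ0
      have hR := Reg_C h0 h1 h2 h3 Y hs0 hζ (t := t) (ex (k * thc t)) (ex_norm _)
      rw [ht, L.glueK Y t ‖ζ‖ hs0 hζ] at h
      obtain ⟨hA, _⟩ := (G_eq L hR hR').mp h
      obtain ⟨⟨a, ha⟩, _⟩ := mem_GI.mp hA
      rw [Complex.sub_re] at ha
      have e1 : (((1 / 2 + ε * ‖ζ‖ * (Y : E3) 0 : ℝ) : ℂ) + (t : ℝ) * I).re =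
          1 / 2 + ε * ‖ζ‖ * (Y : E3) 0 := by simp
      rw [e1] at ha
      have e2 : |((ε : ℂ) * ‖Z‖ * ex (q + e * twc ((‖Z‖ : ℂ) * ex u) + e * u)).re| ≤ ε * 5 := by
        refine (Complex.abs_re_le_norm _).trans ?_
        rw [norm_mul, norm_mul, ex_norm, mul_one, Complex.norm_real, Complex.norm_real, norm_norm,
          Real.norm_of_nonneg h0.le]
        exact mul_le_mul_of_nonneg_left hZ.le h0.le
      have e3 : |(Y : E3) 0| ≤ 1 := by
        have := S2_sq Y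
        rw [abs_le_one_iff_mul_self_le_one]
        nlinarith [sq_nonneg ‖yc Y‖]
      have e4 : |ε * ‖ζ‖ * (Y : E3) 0| ≤ ε := by
        rw [abs_mul, abs_mul, abs_of_pos h0, abs_norm]
        have : ε * ‖ζ‖ * |(Y : E3) 0| ≤ ε * 1 * 1 := by
          apply mul_le_mul _ e3 (abs_nonneg _) (by linarith)
          exact mul_le_mul_of_nonneg_left hζ.le h0.le
        linarith
      rw [abs_le] at e2 e4
      have e5 : (-1 : ℝ) < a := by linarith
      have e6 : (a : ℝ) < 0 := by linarith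
      have e7 : -1 < a := by exact_mod_cast e5
      have e8 : a < 0 := by exact_mod_cast e6
      omega

end Pool.Agent.TS
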