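import Pool.Agent.TS.TCM

/-!
# TS/CovM: covering of the complement of the far region
`b.1 ≠ 0`: `b = T0 (q, Gm (X2 ε (y, Z)))` (`T0_surj`, `Gm_bij`, `X2_bij`).  If `x = nr X2 < R`: first case.  Otherwise
`X2 = x • E`, `nr E = 1`, not `Far R` gives `E.1 > -(R^2-1)/(R^2+1) > -1`, so `E = st ν` (`exists_st`), `‖ν‖ < R`
(`st_fst_le`), and `b = S0 (aa E', ν)` with `E' = st (x ex q)` (O1), `E'.1 ≤ -(R^2-1)/(R^2+1)` (`x ≥ R`).
`E2_surj` for `E'`: either `E' = E2 ε p`, second case, or `E' = DD ε (Ep sg 0)`, third case with `ζ = 0`.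
`b.1 = 0`: `b = S0 (a, ν)` (`S0_surj`), then `a = 0` (first component of `S0` is a positive multiple of `a`), `‖ν‖ < R`
(`far_S`), `E' = (-1, 0)`, `aa E' = 0`, again `E2_surj`.
-/

open scoped Manifold ContDiff Topology
open Complex (I)
open Set Filter

namespace Pool.Agent.TS
open Pool.Agent.CSG

variable {ε : ℝ}

theorem CovM_aux (h0 : 0 < ε) (h1 : ε ≤ 1 / 1000) {R : ℝ} {b : ℂ × ℂ} {ν : ℂ} (hν : ‖ν‖ < R)
    {E : R3} (hE : nr E = 1) (hE1 : E.1 ≤ -((R ^ 2 - 1) / (R ^ 2 + 1))) (hb : b = S0 (aa E, ν)) :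
    (∃ q y Z, nr (X2 ε (y, Z)) < R ∧ b = OmT ε (q, y, Z)) ∨
    (∃ p ν, ‖ν‖ < R ∧ (E2 ε p).1 ≤ -((R ^ 2 - 1) / (R ^ 2 + 1)) ∧ b = OmC ε (p, ν)) ∨
    (∃ (sg : ℝ) (ν : ℂ), sg ^ 2 = 1 ∧ ‖ν‖ < R ∧ b = OmP ε sg (ν, 0)) := by
  right
  rcases E2_surj h0 h1 hE with ⟨p, hp⟩ | hp | hp
  · left
    exact ⟨p, ν, hν, by rw [hp]; exact hE1, by rw [hb]; simp only [OmC, hp]⟩
  · right
    refine ⟨1, ν, by norm_num, hν, ?_⟩
    rw [hb]
    simp only [OmP, zero_div, hp]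
  · right
    refine ⟨-1, ν, by norm_num, hν, ?_⟩
    rw [hb]
    simp only [OmP, zero_div, hp]

theorem cover (h0 : 0 < ε) (h1 : ε ≤ 1 / 1000) {R : ℝ} (hR : 2 < R) (hR' : R ≤ 4) {b : ℂ × ℂ}
    (h : ¬ Far R b) :
    (∃ q y Z, nr (X2 ε (y, Z)) < R ∧ b = OmT ε (q, y, Z)) ∨
    (∃ p ν, ‖ν‖ < R ∧ (E2 ε p).1 ≤ -((R ^ 2 - 1) / (R ^ 2 + 1)) ∧ b = OmC ε (p, ν)) ∨
    (∃ (sg : ℝ) (ν : ℂ), sg ^ 2 = 1 ∧ ‖ν‖ < R ∧ b = OmP ε sg (ν, 0)) := by
  have hc : (1 - R ^ 2) / (1 + R ^ 2) = -((R ^ 2 - 1) / (R ^ 2 + 1)) := by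
    rw [← neg_div, add_comm (1 : ℝ)]
    ring_nf
  have hc1 : (R ^ 2 - 1) / (R ^ 2 + 1) < 1 := by
    rw [div_lt_one (by positivity)]
    linarith
  by_cases hb : b.1 = 0
  · obtain ⟨⟨a, ν⟩, ha⟩ := S0_surj (b := b) (Or.inr (by rw [hb, norm_zero]; exact one_pos))
    have hnr : nr ((1 - ‖ν‖ ^ 2, 2 * ν) : R3) + ((1 - ‖ν‖ ^ 2, 2 * ν) : R3).1 > 0 := by
      apply nr_add_pos
      by_cases hν : ν = 0
      · right
        rw [hν]
        simp
      · left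
        exact mul_ne_zero two_ne_zero hν
    have hk := St_key (c := gg ν * a) (X := (1 - ‖ν‖ ^ 2, 2 * ν)) (Or.inr hnr)
    have ha0 : a = 0 := by
      have h2 := hk.2.1
      have h3 : St (gg ν * a) (1 - ‖ν‖ ^ 2, 2 * ν) = b := ha
      rw [h3, hb, mul_zero] at h2
      have h4 : (((2 / (√(‖(gg ν : ℂ) * a‖ ^ 2 + nr ((1 - ‖ν‖ ^ 2, 2 * ν) : R3) ^ 2) +
        ((1 - ‖ν‖ ^ 2, 2 * ν) : R3).1) : ℝ)) : ℂ) ≠ 0 := by
        have := hk.1
        exact_mod_cast (div_pos two_pos this).ne'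
      have h5 : (gg ν : ℂ) * a = 0 := by
        rcases mul_eq_zero.1 h2.symm with h6 | h6
        · exact absurd h6 h4
        · exact h6
      rcases mul_eq_zero.1 h5 with h6 | h6
      · exact absurd (by exact_mod_cast h6) (gg_pos ν).ne'
      · exact h6
    subst ha0
    have hν : ‖ν‖ < R := by
      by_contra hcon
      apply h
      rw [← ha]
      exact (far_S hR.le _ _).2 ⟨not_lt.1 hcon, by rw [norm_zero]; exact (kap_pos hR.le).le⟩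
    have hE : nr ((-1, 0) : R3) = 1 := by
      simp [nr]
    exact CovM_aux h0 h1 hν hE (by simp only; linarith) (by rw [← ha]; simp [aa])
  · obtain ⟨q, Y, hY⟩ := T0_surj hb
    obtain ⟨X, hX⟩ := Gm_bij.2 Y
    obtain ⟨⟨y, Z⟩, hyZ⟩ := (X2_bij h0 h1).2 X
    subst hX
    by_cases hx : nr X < R
    · left
      refine ⟨q, y, Z, by rw [hyZ]; exact hx, ?_⟩
      simp only [OmT, hyZ, hY]
    · push Not at hx
      have hx0 : 0 < nr X := by linarith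
      have hXE : X = nr X • ((nr X)⁻¹ • X) := by
        rw [smul_smul, mul_inv_cancel₀ hx0.ne', one_smul]
      have hE : nr ((nr X)⁻¹ • X) = 1 := by
        rw [nr_smul (inv_nonneg.2 hx0.le), inv_mul_cancel₀ hx0.ne']
      have hlt : -((R ^ 2 - 1) / (R ^ 2 + 1)) < ((nr X)⁻¹ • X).1 := by
        by_contra hcon
        apply h
        rw [← hY]
        refine (far_T hR.le q X).2 ⟨hx, ?_⟩
        have h3 : ((nr X)⁻¹ • X).1 ≤ -((R ^ 2 - 1) / (R ^ 2 + 1)) := not_lt.1 hcon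
        have h4 : X.1 = ((nr X)⁻¹ • X).1 * nr X := by
          rw [Prod.smul_fst, smul_eq_mul]
          field_simp
        rw [h4]
        exact mul_le_mul_of_nonneg_right h3 hx0.le
      obtain ⟨ν, hν⟩ := exists_st hE (by intro hcon; rw [hcon] at hlt; linarith)
      have hνR : ‖ν‖ < R := by
        by_contra hcon
        have h3 := (st_fst_le (by linarith : (0 : ℝ) ≤ R) ν).2 (not_lt.1 hcon)
        rw [hν, hc.symm] at hlt
        linarith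
      have hw : ‖((nr X : ℝ) : ℂ) * ex q‖ = nr X := TCM_norm hx0.le q
      refine CovM_aux h0 h1 hνR (E := st (nr X * ex q)) (nr_st _) ?_ ?_
      · rw [← hc, st_fst_le (by linarith : (0 : ℝ) ≤ R), hw]
        exact hx
      · rw [← O1 (by linarith) q ν, ← hν, ← hXE, hY]

end Pool.Agent.TS
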