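import Pool.Agent.TS.Fn

/-!
# TS/BDef: definitions for the charts near the poles, the map `F`, and the new structure

Input: `L : LS ε ρ k e X` (A-structure: `K` surgered, `T` with log transform).  `F : ℂ × ℂ → X` is the map of the ball
model (`IsF L F`).  The new structure is given by `GB` (mirror arguments: `L'.G (r, p) = GB (p, r)`), and the cores
`cTB` (log transform of `K`), `cKB` (surgery of `T`).
-/

open scoped Manifold ContDiff
open Complex (I)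

namespace Pool.Agent.TS
open Pool.Agent.CSG

/-- the direction of a vector (junk value for `z = 0`) -/
noncomputable def sdir (z : E3) : S2 :=
  if h : z = 0 then ⟨EuclideanSpace.single 0 1, by simp⟩ else
    ⟨‖z‖⁻¹ • z, by simp [norm_smul, norm_ne_zero_iff.2 h]⟩

/-- hemisphere chart of `S2` (`sg = ± 1`): `Y₀` has the sign of `-sg`, `yc Y / |Y₀| = ν` -/
noncomputable def hS (sg : ℝ) (ν : ℂ) : S2 := sdir (pt (-sg) ν.re ν.im)

/-- band chart of `S2`: `Y₀ / ‖yc Y‖ = -σ`, `yc Y / ‖yc Y‖ = ex q` -/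
noncomputable def bS (a : ℝ × ℝ) : S2 :=
  sdir (pt (-a.2) (Real.cos (2 * Real.pi * a.1)) (Real.sin (2 * Real.pi * a.1)))

noncomputable def NN (σ : ℝ) (ζ : ℂ) : ℝ := √(‖ζ‖ ^ 2 * σ ^ 2 + MZ ζ ^ 2)

/-- transition from the coordinates `(σ, ζ)` of a log transform near `y = 1/2` to the coordinates `(σ₁, ζ₁)` of
a surgery (band chart) -/
noncomputable def TrS (a : ℝ × ℂ) : ℝ × ℂ :=
  (a.1 / NN a.1 a.2, ((√(a.1 ^ 2 + NN a.1 a.2 ^ 2) / NN a.1 a.2 : ℝ) : ℂ) * a.2)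

/-- its inverse -/
noncomputable def TrSi (a : ℝ × ℂ) : ℝ × ℂ :=
  (a.1 * MZ (a.2 / (√(1 + a.1 ^ 2) : ℂ)) / √(1 - a.1 ^ 2 * ‖a.2 / (√(1 + a.1 ^ 2) : ℂ)‖ ^ 2),
    a.2 / (√(1 + a.1 ^ 2) : ℂ))

/-- the coordinate `y` near `1/2` as a function of `σ` -/
noncomputable def yy (ε σ : ℝ) : ℝ := 1 / 2 - ε * σ / √(1 + σ ^ 2)

/-- for `x ∈ [-1/2, 1/2)` close to `± 1/2`: the scaled signed distance to `1/2` modulo `1` -/
noncomputable def dl (ε x : ℝ) : ℝ := (if 0 < x then 1 / 2 - x else -(1 / 2) - x) / ε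

noncomputable def sgm (δ : ℝ) : ℝ := δ / √(1 - δ ^ 2)

/-- ball coordinates of the new structure near `K` (`p`, `r` reduced, `r ≠ 0`, `|Re p| < 1/2`) -/
noncomputable def zK (ε : ℝ) (p r : ℂ) : ℂ := ((‖r‖ / ε : ℝ) : ℂ) * ex p.im

noncomputable def qK (ε : ℝ) (k : ℤ) (p r : ℂ) : ℝ :=
  Complex.arg r / (2 * Real.pi) - k * p.im - k * twc (zK ε p r)

noncomputable def bK (ε : ℝ) (k : ℤ) (p r : ℂ) : ℂ × ℂ :=
  sw (OmT ε (qK ε k p r, nsi ε p.re, zK ε p r))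

/-- the normal coordinate `ν'` of the new structure near `T` -/
noncomputable def nT (ε : ℝ) (e : ℤ) (p r : ℂ) : ℂ :=
  p * ex (-(e * thc r.im)) / ((ε * ww (nsi ε r.re) : ℝ) : ℂ)

/-- ball coordinates of the new structure near `T` (`p`, `r` reduced, `|Re r| < 1/2`) -/
noncomputable def bT (ε : ℝ) (e : ℤ) (p r : ℂ) : ℂ × ℂ :=
  sw (OmC ε ((nsi ε r.re : ℂ) + r.im * I, nT ε e p r))

/-- `Z` and (linearised) `q` of the A-structure near `T` -/
noncomputable def zT (ε : ℝ) (p r : ℂ) : ℂ := ((‖p‖ / ε : ℝ) : ℂ) * ex r.im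

noncomputable def qT (e : ℤ) (p r : ℂ) : ℝ := Complex.arg p / (2 * Real.pi) - e * thc r.im

section
variable {X : Type*} [TopologicalSpace X] [ChartedSpace E4 X] {ε ρ : ℝ} {k e : ℤ}

/-- the surgery chart in hemisphere coordinates -/
noncomputable def fP (L : LS ε ρ k e X) (sg : ℝ) (a : ℂ × ℂ) : X := L.jK (hS sg a.1, a.2)

/-- the surgery chart in band coordinates -/
noncomputable def jKb (L : LS ε ρ k e X) (a : ℝ × ℝ × ℂ) : X := L.jK (bS (a.1, a.2.1), a.2.2)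

/-- the log chart near `y = 1/2` in the coordinate `σ` -/
noncomputable def jTb (L : LS ε ρ k e X) (a : ℝ × ℝ × ℂ) : X :=
  L.jT (a.1 + e * twc a.2.2, yy ε a.2.1, a.2.2)

/-- `F` is the map from the ball model. -/
structure IsF (L : LS ε ρ k e X) (F : ℂ × ℂ → X) : Prop where
  T : ∀ q y Z, nr (X2 ε (y, Z)) < 4 → F (OmT ε (q, y, Z)) = fT L (q, y, Z)
  C : ∀ p ν, ‖ν‖ < 4 → (E2 ε p).1 < -(3 / 5) → F (OmC ε (p, ν)) = fC L (p, ν)
  P : ∀ sg ν ζ, sg ^ 2 = 1 → ‖ν‖ < 4 → ‖ζ‖ < 1 / 4 → F (OmP ε sg (ν, ζ)) = fP L sg (ν, ζ)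
  loc : ∀ b, ¬ Far 4 b → IsLocalDiffeomorphAt 𝓘(ℝ, ℂ × ℂ) (𝓡 4) ∞ F b
  inj : ∀ b b', ¬ Far 4 b → ¬ Far 4 b' → F b = F b' → b = b'

/-- outer formula near `K` (`p`, `r` reduced) -/
noncomputable def oK (L : LS ε ρ k e X) (p r : ℂ) : X :=
  if ‖r‖ < ε / 8 then
    jKb L (qK ε k p r, TrS (sgm (dl ε p.re), zK ε p r))
  else L.G (p, r)

/-- outer formula near `T` (`p`, `r` reduced) -/
noncomputable def oT (L : LS ε ρ k e X) (p r : ℂ) : X :=
  if ‖p‖ < ε / 8 then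
    jTb L (qT e p r, sgm (dl ε r.re) * MZ (zT ε p r) / ‖zT ε p r‖, zT ε p r)
  else L.G (p, r)

/-- inner points near `K` -/
def InK (ε : ℝ) (p r : ℂ) : Prop :=
  |p.re| < 1 / 2 ∧ nr (X2 ε (nsi ε p.re, zK ε p r)) < 3

/-- inner points near `T` -/
def InT (ε : ℝ) (p r : ℂ) : Prop :=
  |r.re| < 1 / 2 ∧ ‖p‖ < 3 * ε * ww (nsi ε r.re)

open Classical in
/-- the new coordinate map, reduced arguments -/
noncomputable def GB₀ (L : LS ε ρ k e X) (F : ℂ × ℂ → X) (p r : ℂ) : X :=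
  if ‖r‖ < 3 * ε then (if InK ε p r then F (bK ε k p r) else oK L p r)
  else if ‖p‖ < 3 * ε then (if InT ε p r then F (bT ε e p r) else oT L p r)
  else L.G (p, r)

/-- the new coordinate map; `L'.G (r, p) = GB (p, r)` -/
noncomputable def GB (L : LS ε ρ k e X) (F : ℂ × ℂ → X) (a : ℂ × ℂ) : X := GB₀ L F (fr a.1) (fr a.2)

open Classical in
/-- the core of the new log transform (of `K`) -/
noncomputable def cTB (L : LS ε ρ k e X) (F : ℂ × ℂ → X) (a : ℝ × ℝ) : X :=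
  if |(fr (a.2 : ℂ)).re| < 1 / 2 ∧ nr (X2 ε (nsi ε (fr (a.2 : ℂ)).re, 0)) < 3 then
    F (sw (OmT ε (a.1, nsi ε (fr (a.2 : ℂ)).re, 0)))
  else jKb L (a.1, TrS (sgm (dl ε (fr (a.2 : ℂ)).re), 0))

open Classical in
/-- the core of the new surgery (of `T`) -/
noncomputable def cKB (L : LS ε ρ k e X) (F : ℂ × ℂ → X) (Y : S2) : X :=
  if ‖yc Y‖ < 3 * |(Y : E3) 0| then
    F (sw (OmP ε (if 0 < (Y : E3) 0 then -1 else 1) (yc Y / ((|(Y : E3) 0| : ℝ) : ℂ), 0)))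
  else jTb L (Complex.arg (yc Y) / (2 * Real.pi), TrSi (-((Y : E3) 0) / ‖yc Y‖, 0))

end

/-- points where the coordinate map of a structure is defined and regular -/
def Reg (ρ : ℝ) (p r : ℂ) : Prop := (p, r) ∈ Wd ρ ∧ p ∉ GI ∧ ¬ OnCK p r

/-- the same for the mirror structure -/
def RegB (ρ : ℝ) (p r : ℂ) : Prop := (p, r) ∈ Wd ρ ∧ r ∉ GI ∧ ¬ OnCK r p

section
variable {X : Type*} [TopologicalSpace X]

/-- the surgery chart obtained from the coordinate map and its core -/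
noncomputable def jKof (ε : ℝ) (k : ℤ) (G : ℂ × ℂ → X) (c : S2 → X) (a : S2 × ℂ) : X :=
  if a.2 = 0 then c a.1 else
    G ((1 / 2 + ε * ‖a.2‖ * (a.1 : E3) 0 : ℝ) + (Complex.arg a.2 / (2 * Real.pi) : ℝ) * I,
      ε * ‖a.2‖ * ex (k * thc (Complex.arg a.2 / (2 * Real.pi))) * yc a.1)

/-- the log chart obtained from the coordinate map and its core -/
noncomputable def jTof (ε : ℝ) (e : ℤ) (G : ℂ × ℂ → X) (c : ℝ × ℝ → X) (a : ℝ × ℝ × ℂ) : X :=
  if a.2.2 = 0 then c (a.1, a.2.1) else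
    G (ε * ‖a.2.2‖ * ex (a.1 + e * (Complex.arg a.2.2 / (2 * Real.pi))),
      (a.2.1 : ℝ) + (Complex.arg a.2.2 / (2 * Real.pi) : ℝ) * I)

end

end Pool.Agent.TS
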