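import Pool.Agent.TS.StB

/-!
# TS/FarM: the far regions

With `b = St c X` (`St_key`): `Far R b ↔ ‖c‖ ≤ kap R * (-X.1) ∧ ‖X.2‖ ≤ kap R * (-X.1)`.
`far_S`: `b = S0 (a, ν)`: `2 ‖ν‖ ≤ kap R (‖ν‖^2 - 1) ↔ R ≤ ‖ν‖`, then (as `‖ν‖ ≥ 2`, `gg ν = ‖ν‖^2 - 1`)
`gg ν ‖a‖ ≤ kap R (‖ν‖^2 - 1) ↔ ‖a‖ ≤ kap R`.
`far_T`: `b = T0 (q, Gm X)`, `X = x • (s, c)`, triple `(ex q; X / Gam X)`.  Second condition:
`‖c‖ ≤ kap R (-s) ↔ s ≤ -(R^2-1)/(R^2+1)` (so `-s ≥ 3/5`, `P5 (-s) = -s`); first: `Gam X ≤ kap R (-s) x`; for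
`x < 2` false by `Gam_lt` (`kap R ≤ 4/3`), for `x ≥ 2`: `2 x / (x^2 - 1) ≤ kap R ↔ R ≤ x`.
-/

open scoped Manifold ContDiff Topology
open Complex (I)
open Set Filter

namespace Pool.Agent.TS
open Pool.Agent.CSG

theorem kap_pos {R : ℝ} (hR : 2 ≤ R) : 0 < kap R := by
  unfold kap
  have h1 : 0 < R ^ 2 - 1 := by nlinarith
  have h2 : 0 < 2 * R := by linarith
  exact div_pos h2 h1

theorem kap_anti {R R' : ℝ} (hR : 2 ≤ R) (h : R < R') : kap R' < kap R := by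
  unfold kap
  have h1 : 0 < R ^ 2 - 1 := by nlinarith
  have h2 : 0 < R' ^ 2 - 1 := by nlinarith
  rw [div_lt_div_iff₀ h2 h1]
  have h3 : 0 < (R' - R) * (R * R' + 1) := by
    apply mul_pos (by linarith)
    nlinarith
  nlinarith

/-- `a = 2 w / (‖w‖^2 - 1)` has norm `≤ kap R` iff `R ≤ ‖w‖` -/
theorem kap_le {R x : ℝ} (hR : 2 ≤ R) (hx : 1 < x) : 2 * x / (x ^ 2 - 1) ≤ kap R ↔ R ≤ x := by
  unfold kap
  have h1 : 0 < R ^ 2 - 1 := by nlinarith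
  have h2 : 0 < x ^ 2 - 1 := by nlinarith
  rw [div_le_div_iff₀ h2 h1]
  have h3 : 0 < R * x + 1 := by nlinarith
  have e : 2 * R * (x ^ 2 - 1) - 2 * x * (R ^ 2 - 1) = 2 * ((x - R) * (R * x + 1)) := by ring
  constructor
  · intro h
    by_contra hc
    push Not at hc
    have : (x - R) * (R * x + 1) < 0 := mul_neg_of_neg_of_pos (by linarith) h3
    linarith
  · intro h
    have : 0 ≤ (x - R) * (R * x + 1) := mul_nonneg (by linarith) h3.le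
    linarith

theorem far_sw {R : ℝ} {b : ℂ × ℂ} : Far R (sw b) ↔ Far R b := by
  unfold Far sw
  constructor
  · rintro ⟨h1, h2⟩
    simp only at h1 h2
    rw [add_comm (‖b.2‖ ^ 2)] at h1 h2
    exact ⟨h2, h1⟩
  · rintro ⟨h1, h2⟩
    simp only
    rw [add_comm (‖b.2‖ ^ 2)]
    exact ⟨h2, h1⟩

theorem far_closed {R : ℝ} : IsClosed {b : ℂ × ℂ | Far R b} := by
  have h1 : IsClosed {b : ℂ × ℂ | 2 * ‖b.1‖ ≤ kap R * (‖b.1‖ ^ 2 + ‖b.2‖ ^ 2 - 1)} :=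
    isClosed_le (by fun_prop) (by fun_prop)
  have h2 : IsClosed {b : ℂ × ℂ | 2 * ‖b.2‖ ≤ kap R * (‖b.1‖ ^ 2 + ‖b.2‖ ^ 2 - 1)} :=
    isClosed_le (by fun_prop) (by fun_prop)
  exact h1.inter h2

theorem FarM_Q {R : ℝ} (hR : 2 ≤ R) {b : ℂ × ℂ} (hb : Far R b) : 0 < ‖b.1‖ ^ 2 + ‖b.2‖ ^ 2 - 1 := by
  have hk := kap_pos hR
  obtain ⟨h1, h2⟩ := hb
  have hn1 := norm_nonneg b.1
  have hn2 := norm_nonneg b.2
  by_contra hc
  push Not at hc
  have h3 : kap R * (‖b.1‖ ^ 2 + ‖b.2‖ ^ 2 - 1) ≤ 0 := mul_nonpos_of_nonneg_of_nonpos hk.le hc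
  have e1 : ‖b.1‖ = 0 := by linarith
  have e2 : ‖b.2‖ = 0 := by linarith
  rw [e1, e2] at h1
  norm_num at h1
  linarith

theorem far_mono {R R' : ℝ} (hR : 2 ≤ R) (h : R ≤ R') {b : ℂ × ℂ} (hb : Far R' b) : Far R b := by
  rcases h.eq_or_lt with rfl | h
  · exact hb
  · have hQ := FarM_Q (by linarith) hb
    have hk := (kap_anti hR h).le
    have := mul_le_mul_of_nonneg_right hk hQ.le
    exact ⟨hb.1.trans this, hb.2.trans this⟩

/-- a point of the far region `R'` is interior to the far region `R < R'` -/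
theorem far_interior {R R' : ℝ} (hR : 2 ≤ R) (h : R < R') {b : ℂ × ℂ} (hb : Far R' b) :
    ∀ᶠ b' in 𝓝 b, Far R b' := by
  have hQ := FarM_Q (by linarith) hb
  have hk := kap_anti hR h
  have h3 := mul_lt_mul_of_pos_right hk hQ
  have o1 : IsOpen {b : ℂ × ℂ | 2 * ‖b.1‖ < kap R * (‖b.1‖ ^ 2 + ‖b.2‖ ^ 2 - 1)} :=
    isOpen_lt (by fun_prop) (by fun_prop)
  have o2 : IsOpen {b : ℂ × ℂ | 2 * ‖b.2‖ < kap R * (‖b.1‖ ^ 2 + ‖b.2‖ ^ 2 - 1)} :=
    isOpen_lt (by fun_prop) (by fun_prop)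
  have m1 : b ∈ {b : ℂ × ℂ | 2 * ‖b.1‖ < kap R * (‖b.1‖ ^ 2 + ‖b.2‖ ^ 2 - 1)} :=
    hb.1.trans_lt h3
  have m2 : b ∈ {b : ℂ × ℂ | 2 * ‖b.2‖ < kap R * (‖b.1‖ ^ 2 + ‖b.2‖ ^ 2 - 1)} :=
    hb.2.trans_lt h3
  filter_upwards [o1.mem_nhds m1, o2.mem_nhds m2] with b' h1 h2
  exact ⟨le_of_lt h1, le_of_lt h2⟩

theorem FarM_St {R : ℝ} {c : ℂ} {X : R3} (h : c ≠ 0 ∨ 0 < nr X + X.1) :
    Far R (St c X) ↔ ‖c‖ ≤ kap R * (-X.1) ∧ ‖X.2‖ ≤ kap R * (-X.1) := by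
  obtain ⟨hD, k1, k2, k3⟩ := St_key h
  set D := √(‖c‖ ^ 2 + nr X ^ 2) + X.1 with hDdef
  have hD2 : 0 < 2 / D := by positivity
  have n1 : 2 * ‖(St c X).1‖ = 2 / D * ‖c‖ := by
    have := congrArg norm k1
    rw [norm_mul, norm_mul, Complex.norm_real, Real.norm_of_nonneg hD2.le] at this
    simpa using this
  have n2 : 2 * ‖(St c X).2‖ = 2 / D * ‖X.2‖ := by
    have := congrArg norm k3
    rw [norm_mul, norm_mul, Complex.norm_real, Real.norm_of_nonneg hD2.le] at this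
    simpa using this
  have n3 : kap R * (‖(St c X).1‖ ^ 2 + ‖(St c X).2‖ ^ 2 - 1) = 2 / D * (kap R * (-X.1)) := by
    have : ‖(St c X).1‖ ^ 2 + ‖(St c X).2‖ ^ 2 - 1 = 2 / D * (-X.1) := by linarith
    rw [this]
    ring
  unfold Far
  rw [n1, n2, n3, mul_le_mul_iff_right₀ hD2, mul_le_mul_iff_right₀ hD2]

theorem far_S {R : ℝ} (hR : 2 ≤ R) (a ν : ℂ) : Far R (S0 (a, ν)) ↔ R ≤ ‖ν‖ ∧ ‖a‖ ≤ kap R := by
  have hk := kap_pos hR
  have hn := norm_nonneg ν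
  have hnr : nr ((1 - ‖ν‖ ^ 2, 2 * ν) : R3) = 1 + ‖ν‖ ^ 2 := by
    have h1 := nr_sq ((1 - ‖ν‖ ^ 2, 2 * ν) : R3)
    have h2 := nr_nonneg ((1 - ‖ν‖ ^ 2, 2 * ν) : R3)
    simp only [norm_mul, Complex.norm_ofNat] at h1
    have h3 : nr ((1 - ‖ν‖ ^ 2, 2 * ν) : R3) ^ 2 = (1 + ‖ν‖ ^ 2) ^ 2 := by
      rw [h1]
      ring
    exact (pow_left_inj₀ h2 (by positivity) two_ne_zero).1 h3
  have h0 : (gg ν : ℂ) * a ≠ 0 ∨ 0 < nr ((1 - ‖ν‖ ^ 2, 2 * ν) : R3) + ((1 - ‖ν‖ ^ 2, 2 * ν) : R3).1 := by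
    right
    rw [hnr]
    simp only
    linarith
  have key := FarM_St (R := R) h0
  have e : S0 (a, ν) = St ((gg ν : ℂ) * a) (1 - ‖ν‖ ^ 2, 2 * ν) := rfl
  rw [e, key]
  simp only [norm_mul, Complex.norm_ofNat, Complex.norm_real, Real.norm_of_nonneg (gg_pos ν).le,
    neg_sub]
  have hsec : 2 * ‖ν‖ ≤ kap R * (‖ν‖ ^ 2 - 1) ↔ R ≤ ‖ν‖ := by
    rcases le_or_gt ‖ν‖ 1 with h1 | h1
    · constructor
      · intro h
        exfalso
        have h2 : ‖ν‖ ^ 2 - 1 ≤ 0 := by nlinarith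
        have h3 := mul_nonpos_of_nonneg_of_nonpos hk.le h2
        have h4 : ‖ν‖ = 0 := by linarith
        rw [h4] at h
        norm_num at h
        linarith
      · intro h
        exfalso
        linarith
    · rw [← kap_le hR h1, div_le_iff₀ (by nlinarith)]
  rw [hsec, and_comm]
  apply and_congr_right
  intro h
  rw [gg_big (by linarith)]
  have h2 : 0 < ‖ν‖ ^ 2 - 1 := by nlinarith
  rw [mul_comm (kap R), mul_le_mul_iff_right₀ h2]

theorem far_T {R : ℝ} (hR : 2 ≤ R) (q : ℝ) (X : R3) :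
    Far R (T0 (q, Gm X)) ↔ R ≤ nr X ∧ X.1 ≤ -((R ^ 2 - 1) / (R ^ 2 + 1)) * nr X := by
  have hk := kap_pos hR
  have hG := Gam_pos X
  have hG' : 0 < (Gam X)⁻¹ := inv_pos.2 hG
  have hex : ex q ≠ 0 := by
    intro h
    have := ex_norm q
    rw [h] at this
    norm_num at this
  have key := FarM_St (R := R) (c := ex q) (X := Gm X) (Or.inl hex)
  have e : T0 (q, Gm X) = St (ex q) (Gm X) := rfl
  have e1 : (Gm X).1 = (Gam X)⁻¹ * X.1 := rfl
  have e2 : ‖(Gm X).2‖ = (Gam X)⁻¹ * ‖X.2‖ := by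
    have : (Gm X).2 = (Gam X)⁻¹ • X.2 := rfl
    rw [this, norm_smul, Real.norm_of_nonneg hG'.le]
  rw [e, key, e1, e2, ex_norm]
  have c1 : 1 ≤ kap R * -((Gam X)⁻¹ * X.1) ↔ Gam X ≤ kap R * (-X.1) := by
    have : kap R * -((Gam X)⁻¹ * X.1) = (kap R * (-X.1)) / Gam X := by
      rw [div_eq_mul_inv]
      ring
    rw [this, one_le_div hG]
  have c2 : (Gam X)⁻¹ * ‖X.2‖ ≤ kap R * -((Gam X)⁻¹ * X.1) ↔ ‖X.2‖ ≤ kap R * (-X.1) := by
    have : kap R * -((Gam X)⁻¹ * X.1) = (Gam X)⁻¹ * (kap R * (-X.1)) := by ring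
    rw [this, mul_le_mul_iff_right₀ hG']
  rw [c1, c2]
  have hx := nr_nonneg X
  have hsq := nr_sq X
  have hn2 := norm_nonneg X.2
  have hR1 : 0 < R ^ 2 - 1 := by nlinarith
  have hR2 : 0 < R ^ 2 + 1 := by positivity
  have hkap : kap R * (R ^ 2 - 1) = 2 * R := by
    unfold kap
    field_simp
  -- second condition
  have c3 : ‖X.2‖ ≤ kap R * (-X.1) ↔ X.1 ≤ -((R ^ 2 - 1) / (R ^ 2 + 1)) * nr X := by
    have e3 : -((R ^ 2 - 1) / (R ^ 2 + 1)) * nr X = -(((R ^ 2 - 1) * nr X) / (R ^ 2 + 1)) := by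
      ring
    rw [e3, le_neg, div_le_iff₀ hR2]
    constructor
    · intro h
      have ht : 0 ≤ -X.1 := by
        by_contra hc
        push Not at hc
        have := mul_neg_of_pos_of_neg hk hc
        linarith
      have h4 : ‖X.2‖ * (R ^ 2 - 1) ≤ 2 * R * (-X.1) := by
        have := mul_le_mul_of_nonneg_right h hR1.le
        have e4 : kap R * -X.1 * (R ^ 2 - 1) = (kap R * (R ^ 2 - 1)) * (-X.1) := by ring
        rw [e4, hkap] at this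
        exact this
      have h5 : (‖X.2‖ * (R ^ 2 - 1)) ^ 2 ≤ (2 * R * (-X.1)) ^ 2 :=
        pow_le_pow_left₀ (by positivity) h4 2
      have h6 : ((R ^ 2 - 1) * nr X) ^ 2 ≤ (-X.1 * (R ^ 2 + 1)) ^ 2 := by
        have e5 : ((R ^ 2 - 1) * nr X) ^ 2 = (R ^ 2 - 1) ^ 2 * (nr X ^ 2) := by ring
        rw [e5, hsq]
        nlinarith
      exact (pow_le_pow_iff_left₀ (by positivity) (by positivity) two_ne_zero).1 h6
    · intro h
      have ht : 0 ≤ -X.1 := by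
        have h7 : 0 ≤ -X.1 * (R ^ 2 + 1) := le_trans (by positivity) h
        by_contra hc
        push Not at hc
        have := mul_neg_of_neg_of_pos hc hR2
        linarith
      have h6 : ((R ^ 2 - 1) * nr X) ^ 2 ≤ (-X.1 * (R ^ 2 + 1)) ^ 2 :=
        pow_le_pow_left₀ (by positivity) h 2
      have h5 : (‖X.2‖ * (R ^ 2 - 1)) ^ 2 ≤ (2 * R * (-X.1)) ^ 2 := by
        have e5 : ((R ^ 2 - 1) * nr X) ^ 2 = (R ^ 2 - 1) ^ 2 * (nr X ^ 2) := by ring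
        rw [e5, hsq] at h6
        nlinarith
      have h4 : ‖X.2‖ * (R ^ 2 - 1) ≤ 2 * R * (-X.1) :=
        (pow_le_pow_iff_left₀ (by positivity) (by positivity) two_ne_zero).1 h5
      have e4 : 2 * R * (-X.1) = (kap R * -X.1) * (R ^ 2 - 1) := by
        rw [← hkap]
        ring
      rw [e4] at h4
      exact le_of_mul_le_mul_right h4 hR1
  rw [c3]
  apply and_congr_left
  intro hB
  have hkle : kap R ≤ 4 / 3 := by
    unfold kap
    rw [div_le_iff₀ hR1]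
    nlinarith
  rcases eq_or_ne X 0 with rfl | hX0
  · have hz : nr (0 : R3) = 0 := nr_eq_zero.2 rfl
    rw [Gam_small (by rw [hz]; norm_num), hz]
    constructor
    · intro h
      simp at h
      linarith
    · intro h
      linarith
  · have hxp : 0 < nr X := nr_pos.2 hX0
    set σ := -X.1 / nr X with hσ
    have hσx : -X.1 = σ * nr X := by
      rw [hσ]
      field_simp
    have hσge : 3 / 5 ≤ σ := by
      have h1 : (R ^ 2 - 1) / (R ^ 2 + 1) ≤ σ := by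
        rw [hσ, le_div_iff₀ hxp]
        linarith
      have h2 : (3 : ℝ) / 5 ≤ (R ^ 2 - 1) / (R ^ 2 + 1) := by
        rw [div_le_div_iff₀ (by norm_num) hR2]
        nlinarith
      linarith
    have hP : P5 σ = σ := P5_big (by linarith)
    rcases lt_or_ge (nr X) 2 with h2 | h2
    · have hlt := Gam_lt hX0 h2
      rw [← hσ, hP] at hlt
      constructor
      · intro h
        exfalso
        have h3 : kap R * (-X.1) ≤ 4 / 3 * (σ * nr X) := by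
          rw [hσx]
          exact mul_le_mul_of_nonneg_right hkle (by positivity)
        linarith
      · intro h
        exfalso
        linarith
    · rw [Gam_big h2, ← hσ, hP, hσx]
      have hx1 : 0 < nr X ^ 2 - 1 := by nlinarith
      have e6 : 2 * nr X ^ 2 / (nr X ^ 2 - 1) * σ = (2 * nr X / (nr X ^ 2 - 1)) * (σ * nr X) := by
        field_simp
      rw [e6, mul_le_mul_iff_left₀ (by positivity), kap_le hR (by linarith)]

end Pool.Agent.TS
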