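import Pool.Agent.TS.EEM
import Pool.Agent.TS.PolM
import Pool.Agent.TS.FarM

/-!
# TS/OmCM: the charts `OmC` and `OmP` of the ball model
`S0_ld`, `S0_inj`, `aaE2_ld`, `aa_inj`, `E2_inj`, `nr_E2`; `polchart_ld`, `aa_Ep`, `DD_Ep_neg`, `nr_Ep`, `nr_DD`;
far: `far_S` with `aa_norm` (`(15/17) < 9/10`, `kap R ≥ kap 4 = 8/15 > 1/50`).
`OmC_eq_OmP`: `S0_inj`, `aa_inj`, `DD_bij`, `VV_bij` with `VV_Ep`.
-/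

open scoped Manifold ContDiff Topology
open Complex (I)
open Set Filter

namespace Pool.Agent.TS
open Pool.Agent.CSG

section
variable {E F E' F' : Type*} [NormedAddCommGroup E] [NormedSpace ℝ E] [NormedAddCommGroup F]
  [NormedSpace ℝ F] [NormedAddCommGroup E'] [NormedSpace ℝ E'] [NormedAddCommGroup F']
  [NormedSpace ℝ F'] {H₁ H₂ H₁' H₂' : Type*} [TopologicalSpace H₁] [TopologicalSpace H₂]
  [TopologicalSpace H₁'] [TopologicalSpace H₂']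
  {I₁ : ModelWithCorners ℝ E H₁} {J₁ : ModelWithCorners ℝ F H₂}
  {I₂ : ModelWithCorners ℝ E' H₁'} {J₂ : ModelWithCorners ℝ F' H₂'}
  {M N M' N' : Type*} [TopologicalSpace M] [TopologicalSpace N] [TopologicalSpace M']
  [TopologicalSpace N'] [ChartedSpace H₁ M] [ChartedSpace H₂ N] [ChartedSpace H₁' M']
  [ChartedSpace H₂' N']

theorem OmCM_prod {f : M → N} {g : M' → N'} {x : M} {y : M'}
    (hf : IsLocalDiffeomorphAt I₁ J₁ ∞ f x) (hg : IsLocalDiffeomorphAt I₂ J₂ ∞ g y) :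
    IsLocalDiffeomorphAt (I₁.prod I₂) (J₁.prod J₂) ∞ (Prod.map f g) (x, y) := by
  obtain ⟨Φ, hx, hΦ⟩ := hf
  obtain ⟨Ψ, hy, hΨ⟩ := hg
  refine ⟨{ toPartialEquiv := Φ.toPartialEquiv.prod Ψ.toPartialEquiv
            open_source := Φ.open_source.prod Ψ.open_source
            open_target := Φ.open_target.prod Ψ.open_target
            contMDiffOn_toFun := Φ.contMDiffOn_toFun.prodMap Ψ.contMDiffOn_toFun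
            contMDiffOn_invFun := Φ.contMDiffOn_invFun.prodMap Ψ.contMDiffOn_invFun },
    ⟨hx, hy⟩, ?_⟩
  rintro ⟨a, b⟩ ⟨ha, hb⟩
  exact Prod.ext (hΦ ha) (hΨ hb)

theorem OmCM_prodV {f : E → F} {g : E' → F'} {x : E} {y : E'}
    (hf : IsLocalDiffeomorphAt 𝓘(ℝ, E) 𝓘(ℝ, F) ∞ f x)
    (hg : IsLocalDiffeomorphAt 𝓘(ℝ, E') 𝓘(ℝ, F') ∞ g y) :
    IsLocalDiffeomorphAt 𝓘(ℝ, E × E') 𝓘(ℝ, F × F') ∞ (Prod.map f g) (x, y) := by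
  rw [modelWithCornersSelf_prod, modelWithCornersSelf_prod, ← chartedSpaceSelf_prod,
    ← chartedSpaceSelf_prod]
  exact OmCM_prod hf hg

end

variable {ε : ℝ}

theorem OmCM_sqrt_pos (ν : ℂ) : 0 < √(1 + ‖ν‖ ^ 2) := by positivity

theorem OmCM_norm (ν : ℂ) {ζ : ℂ} (h : ‖ζ‖ < 1 / 4) : ‖ζ / (√(1 + ‖ν‖ ^ 2) : ℂ)‖ < 1 / 4 := by
  have h1 : 1 ≤ √(1 + ‖ν‖ ^ 2) := by
    rw [Real.one_le_sqrt]
    nlinarith [sq_nonneg ‖ν‖]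
  have h2 : ‖((√(1 + ‖ν‖ ^ 2) : ℝ) : ℂ)‖ = √(1 + ‖ν‖ ^ 2) := by
    rw [Complex.norm_real, Real.norm_eq_abs, abs_of_pos (OmCM_sqrt_pos ν)]
  rw [norm_div, h2]
  exact lt_of_le_of_lt (div_le_self (norm_nonneg _) h1) h

theorem OmC_ld (h0 : 0 < ε) (h1 : ε ≤ 1 / 1000) {p : ℂ} (ν : ℂ) (h : (E2 ε p).1 < 0) :
    IsLocalDiffeomorphAt 𝓘(ℝ, ℂ × ℂ) 𝓘(ℝ, ℂ × ℂ) ∞ (OmC ε) (p, ν) := by
  have e1 := aaE2_ld h0 h1 h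
  have e2 : IsLocalDiffeomorphAt 𝓘(ℝ, ℂ) 𝓘(ℝ, ℂ) ∞ (id : ℂ → ℂ) ν := ld_id ν
  have e3 := OmCM_prodV e1 e2
  have e4 := S0_ld (Prod.map (fun p => aa (E2 ε p)) id (p, ν))
  exact IsLocalDiffeomorphAt.comp (hf := e3) (hg := e4) ..

theorem OmC_per (p ν : ℂ) (n : ℤ) : OmC ε (p + n * I, ν) = OmC ε (p, ν) := by
  simp only [OmC, E2_per]

theorem OmC_inj (h0 : 0 < ε) (h1 : ε ≤ 1 / 1000) {p p' ν ν' : ℂ} (h : (E2 ε p).1 < 0)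
    (h' : (E2 ε p').1 < 0) (he : OmC ε (p, ν) = OmC ε (p', ν')) :
    (∃ n : ℤ, p' = p + n * I) ∧ ν' = ν := by
  have h2 := S0_inj he
  rw [Prod.mk.injEq] at h2
  exact ⟨E2_inj h0 h1 (aa_inj (nr_E2 h0 h1 p) (nr_E2 h0 h1 p') h h' h2.1), h2.2.symm⟩

theorem OmC_far (h0 : 0 < ε) (h1 : ε ≤ 1 / 1000) {R : ℝ} (hR : 2 ≤ R) {p : ℂ} (ν : ℂ)
    (h : (E2 ε p).1 < 0) :
    Far R (OmC ε (p, ν)) ↔ R ≤ ‖ν‖ ∧ (E2 ε p).1 ≤ -((R ^ 2 - 1) / (R ^ 2 + 1)) := by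
  rw [← aa_norm (nr_E2 h0 h1 p) h (by linarith : (1 : ℝ) < R)]
  exact far_S hR _ _

theorem OmP_ld (h0 : 0 < ε) (h1 : ε ≤ 1 / 1000) {sg : ℝ} (hs : sg ^ 2 = 1) (ν : ℂ) {ζ : ℂ}
    (h : ‖ζ‖ < 1 / 4) :
    IsLocalDiffeomorphAt 𝓘(ℝ, ℂ × ℂ) 𝓘(ℝ, ℂ × ℂ) ∞ (OmP ε sg) (ν, ζ) := by
  have e3 := polchart_ld h0 h1 hs (ν := ν) h
  have e4 := S0_ld ((fun a : ℂ × ℂ =>
    (aa (DD ε (Ep sg (a.2 / (√(1 + ‖a.1‖ ^ 2) : ℂ)))), a.1)) (ν, ζ))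
  exact IsLocalDiffeomorphAt.comp (hf := e3) (hg := e4) ..

theorem OmP_inj (h0 : 0 < ε) (h1 : ε ≤ 1 / 1000) {sg sg' : ℝ} (hs : sg ^ 2 = 1) (hs' : sg' ^ 2 = 1)
    {ν ν' ζ ζ' : ℂ} (h : ‖ζ‖ < 1 / 4) (h' : ‖ζ'‖ < 1 / 4)
    (he : OmP ε sg (ν, ζ) = OmP ε sg' (ν', ζ')) : sg' = sg ∧ ν' = ν ∧ ζ' = ζ := by
  have h2 := S0_inj he
  rw [Prod.mk.injEq] at h2
  obtain ⟨h3, h4⟩ := h2
  simp only at h3 h4
  subst h4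
  have hz := OmCM_norm ν h
  have hz' := OmCM_norm ν h'
  have h5 := aa_inj (by rw [nr_DD h0 h1, nr_Ep hs hz]) (by rw [nr_DD h0 h1, nr_Ep hs' hz'])
    (by linarith [DD_Ep_neg h0 h1 hs hz]) (by linarith [DD_Ep_neg h0 h1 hs' hz']) h3
  obtain ⟨h6, h7⟩ := Ep_inj hs hs' hz hz' ((DD_bij h0 h1).1 h5)
  refine ⟨h6.symm, rfl, ?_⟩
  have hne : ((√(1 + ‖ν‖ ^ 2) : ℝ) : ℂ) ≠ 0 := by exact_mod_cast (OmCM_sqrt_pos ν).ne'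
  rw [div_left_inj' hne] at h7
  exact h7.symm

theorem OmP_far (h0 : 0 < ε) (h1 : ε ≤ 1 / 1000) {R : ℝ} (hR : 2 ≤ R) (hR' : R ≤ 4) {sg : ℝ}
    (hs : sg ^ 2 = 1) (ν : ℂ) {ζ : ℂ} (h : ‖ζ‖ < 1 / 4) : Far R (OmP ε sg (ν, ζ)) ↔ R ≤ ‖ν‖ := by
  have h2 : ‖aa (DD ε (Ep sg (ζ / (√(1 + ‖ν‖ ^ 2) : ℂ))))‖ ≤ kap R := by
    have h3 := aa_Ep h0 h1 hs (OmCM_norm ν h)
    have h4 : (1 : ℝ) / 50 ≤ kap R := by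
      rw [kap, le_div_iff₀ (by nlinarith)]
      nlinarith
    linarith
  constructor
  · intro h3
    exact ((far_S hR _ _).1 h3).1
  · intro h3
    exact (far_S hR _ _).2 ⟨h3, h2⟩

theorem OmC_eq_OmP (h0 : 0 < ε) (h1 : ε ≤ 1 / 1000) {p ν ν' ζ : ℂ} {sg : ℝ} (hs : sg ^ 2 = 1)
    (h : (E2 ε p).1 < 0) (hζ : ‖ζ‖ < 1 / 4) :
    OmC ε (p, ν) = OmP ε sg (ν', ζ) ↔ ν' = ν ∧ EE p = Ep sg (ζ / (√(1 + ‖ν‖ ^ 2) : ℂ)) := by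
  constructor
  · intro he
    have h2 := S0_inj he
    rw [Prod.mk.injEq] at h2
    obtain ⟨h3, h4⟩ := h2
    simp only at h3 h4
    subst h4
    refine ⟨rfl, ?_⟩
    have hz := OmCM_norm ν hζ
    have h5 := aa_inj (nr_E2 h0 h1 p) (by rw [nr_DD h0 h1, nr_Ep hs hz]) h
      (by linarith [DD_Ep_neg h0 h1 hs hz]) h3
    have h6 : VV (EE p) = Ep sg (ζ / (√(1 + ‖ν‖ ^ 2) : ℂ)) := (DD_bij h0 h1).1 h5
    have h7 := VV_Ep hs hz one_pos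
    rw [one_smul] at h7
    rw [← h7] at h6
    exact VV_bij.1 h6
  · rintro ⟨rfl, h2⟩
    have h7 := VV_Ep hs (OmCM_norm ν' hζ) one_pos
    rw [one_smul] at h7
    simp only [OmC, OmP, E2, h2, h7]

end Pool.Agent.TS
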