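import Pool.Agent.TS.X2M
import Pool.Agent.TS.FarM

/-!
# TS/OmTM: the chart `OmT` of the ball model
Composition of `T0` (T0_ld, T0_inj), `Gm` (Gm_ld, Gm_bij), `X2` (X2_ld, X2_bij).
-/

open scoped Manifold ContDiff Topology
open Complex (I)
open Set Filter

namespace Pool.Agent.TS
open Pool.Agent.CSG

variable {ε : ℝ}

/-- the product of the identity with a local diffeomorphism -/
theorem OmTM_prod {V W : Type*} [NormedAddCommGroup V] [NormedSpace ℝ V] [FiniteDimensional ℝ V]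
    [NormedAddCommGroup W] [NormedSpace ℝ W] [FiniteDimensional ℝ W]
    (hdim : Module.finrank ℝ V = Module.finrank ℝ W) {f : V → W} {x : V} (q : ℝ)
    (hf : IsLocalDiffeomorphAt 𝓘(ℝ, V) 𝓘(ℝ, W) ∞ f x) :
    IsLocalDiffeomorphAt 𝓘(ℝ, ℝ × V) 𝓘(ℝ, ℝ × W) ∞ (fun a : ℝ × V => (a.1, f a.2)) (q, x) := by
  have hcont : Tendsto (fun a : ℝ × V => a.2) (𝓝 (q, x)) (𝓝 x) :=
    continuous_snd.continuousAt
  refine ld_of_leftInv (g := fun b : ℝ × W => ((b.1, hf.localInverse b.2) : ℝ × V)) ?_ ?_ ?_ ?_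
  · rw [Module.finrank_prod, Module.finrank_prod, hdim]
  · have h1 := hcont.eventually (ld_eventually hf)
    filter_upwards [h1] with y hy
    have h2 : ContDiffAt ℝ ∞ f y.2 := hy.contMDiffAt.contDiffAt
    exact contDiffAt_fst.prodMk (h2.comp y contDiffAt_snd)
  · have h2 : DifferentiableAt ℝ hf.localInverse (f x) :=
      (hf.localInverse_contMDiffAt.contDiffAt).differentiableAt (by simp)
    have h3 : DifferentiableAt ℝ (fun b : ℝ × W => hf.localInverse b.2) (q, f x) :=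
      DifferentiableAt.comp (q, f x) h2 differentiableAt_snd
    exact differentiableAt_fst.prodMk h3
  · have h1 := hcont.eventually hf.localInverse_eventuallyEq_left
    filter_upwards [h1] with y hy
    have hy' : hf.localInverse (f y.2) = y.2 := hy
    simp [hy']

theorem OmT_ld (h0 : 0 < ε) (h1 : ε ≤ 1 / 1000) (a : ℝ × ℝ × ℂ) :
    IsLocalDiffeomorphAt 𝓘(ℝ, ℝ × ℝ × ℂ) 𝓘(ℝ, ℂ × ℂ) ∞ (OmT ε) a := by
  obtain ⟨q, b⟩ := a
  have h2 : IsLocalDiffeomorphAt 𝓘(ℝ, ℝ × ℂ) 𝓘(ℝ, R3) ∞ (Gm ∘ X2 ε) b :=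
    IsLocalDiffeomorphAt.comp (hf := X2_ld h0 h1 b) (hg := Gm_ld (X2 ε b)) ..
  have h3 := OmTM_prod rfl q h2
  exact IsLocalDiffeomorphAt.comp (hf := h3) (hg := T0_ld _) ..

theorem OmT_per (q y : ℝ) (Z : ℂ) (n : ℤ) : OmT ε (q + n, y, Z) = OmT ε (q, y, Z) :=
  T0_per q _ n

theorem OmT_inj (h0 : 0 < ε) (h1 : ε ≤ 1 / 1000) {q q' y y' : ℝ} {Z Z' : ℂ}
    (h : OmT ε (q, y, Z) = OmT ε (q', y', Z')) : (∃ n : ℤ, q' = q + n) ∧ y' = y ∧ Z' = Z := by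
  obtain ⟨h2, h3⟩ := T0_inj h
  have h4 := (X2_bij h0 h1).1 (Gm_bij.1 h3)
  exact ⟨h2, congrArg Prod.fst h4, congrArg Prod.snd h4⟩

theorem OmT_far {R : ℝ} (hR : 2 ≤ R) (q y : ℝ) (Z : ℂ) :
    Far R (OmT ε (q, y, Z)) ↔ R ≤ nr (X2 ε (y, Z)) ∧
      (X2 ε (y, Z)).1 ≤ -((R ^ 2 - 1) / (R ^ 2 + 1)) * nr (X2 ε (y, Z)) :=
  far_T hR q _

end Pool.Agent.TS
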