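import Pool.Agent.TS.X2M
import Pool.Agent.TS.TrM
import Pool.Agent.TS.OmTM
import Pool.Agent.TS.OmCM
import Pool.Agent.TS.WwM
import Pool.Agent.TS.BDef

/-!
# TS/SizeM: sizes of `X2`
`ya s y`: `s sinh (2 π ya) = MZ s sinh (2 π y)`; `ya s y = y` for `s ≥ 1/8`.
`X2_nr`: `io (y, s ex u) = s cosh (2 π ya) • EE (ya + i u)`, `x := nr io = s cosh (2 π ya)`;
`nr X2 = nr (Rd io) = (1/2 + tau x (aw ya - 1/2)) x ≤ x`, so `1 ≤ nr X2` gives `x ≥ 1`, `Rd = aw • io`,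
`nr X2 = aw ya * x = s / ww ya`; then `X2_polar`.
`X2_core`: `io (y, 0) = (0; sinh (2 π y) / 20)`, `AX = 1`; `X2_pole`.
`X2_big`: `nr X2 ≤ nr io` (`nr_Rd_le`), `nr io ^ 2 = ‖ζ‖^2 + (MZ sinh)^2 ≥ 9`, `MZ ≤ 3/20`, so `|sinh (2 π y)| > 19`,
`|y| ≥ 3/10`; `NN σ ζ = |σ| nr (io (y, ζ))` for `σ = 1 / sinh (2 π y)`.
`nr_X2_zero`: `X2 (0, Z)`: `ya = 0`, `ww 0 = 1`: `nr X2 = ‖Z‖` if `≥ 1`, and `nr X2 ≤ nr io = ‖Z‖` always.
-/

open scoped Manifold ContDiff Topology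
open Complex (I)
open Set Filter

namespace Pool.Agent.TS
open Pool.Agent.CSG

variable {ε : ℝ}

noncomputable def ya (s y : ℝ) : ℝ :=
  Real.arsinh (MZ (s : ℂ) / s * Real.sinh (2 * Real.pi * y)) / (2 * Real.pi)

theorem SizeM_ex_re (u : ℝ) : (ex u).re = Real.cos (2 * Real.pi * u) := by
  unfold ex; rw [Complex.exp_ofReal_mul_I_re]

theorem SizeM_ex_im (u : ℝ) : (ex u).im = Real.sin (2 * Real.pi * u) := by
  unfold ex; rw [Complex.exp_ofReal_mul_I_im]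

theorem SizeM_io_polar {s y y' u : ℝ} (hs : 0 < s)
    (hy : MZ (s : ℂ) * Real.sinh (2 * Real.pi * y) = s * Real.sinh (2 * Real.pi * y')) :
    io (y, s * ex u) = (s * Real.cosh (2 * Real.pi * y')) • EE ((y' : ℂ) + u * I) := by
  have hM : MZ ((s : ℂ) * ex u) = MZ (s : ℂ) := by
    apply MZ_norm
    rw [norm_mul, ex_norm, mul_one]
  have hc : Real.cosh (2 * Real.pi * y') ≠ 0 := (Real.cosh_pos _).ne'
  have hre : ((y' : ℂ) + u * I).re = y' := by simp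
  have him : ((y' : ℂ) + u * I).im = u := by simp
  have e1 : ((s : ℂ) * ex u).re = s * Real.cos (2 * Real.pi * u) := by
    rw [Complex.re_ofReal_mul, SizeM_ex_re]
  have e2 : ((s : ℂ) * ex u).im = s * Real.sin (2 * Real.pi * u) := by
    rw [Complex.im_ofReal_mul, SizeM_ex_im]
  unfold io EE sech
  simp only [hre, him]
  refine Prod.ext ?_ (Complex.ext ?_ ?_)
  · simp only [Prod.smul_fst, smul_eq_mul]
    rw [e1]
    field_simp
  · simp only [Prod.smul_snd]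
    rw [hM, Complex.smul_re, smul_eq_mul, Real.tanh_eq_sinh_div_cosh]
    simp only
    rw [hy]
    field_simp
  · simp only [Prod.smul_snd]
    rw [Complex.smul_im, smul_eq_mul]
    simp only
    rw [e2]
    field_simp

theorem SizeM_MZ {s : ℝ} (hs : 1 / 8 ≤ s) : MZ (s : ℂ) = s := by
  have hn : ‖(s : ℂ)‖ = s := by
    rw [Complex.norm_real, Real.norm_eq_abs, abs_of_pos (by linarith)]
  rw [MZ_big (by rw [hn]; exact hs), hn]

theorem ya_big {s : ℝ} (hs : 1 / 8 ≤ s) (y : ℝ) : ya s y = y := by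
  have hs0 : s ≠ 0 := by linarith
  have hpi : (2 * Real.pi) ≠ 0 := by positivity
  unfold ya
  rw [SizeM_MZ hs, div_self hs0, one_mul, Real.arsinh_sinh]
  field_simp

theorem sinh_ya {s : ℝ} (hs : 0 < s) (y : ℝ) :
    s * Real.sinh (2 * Real.pi * ya s y) = MZ (s : ℂ) * Real.sinh (2 * Real.pi * y) := by
  have hpi : (2 * Real.pi) ≠ 0 := by positivity
  unfold ya
  rw [mul_div_cancel₀ _ hpi, Real.sinh_arsinh]
  field_simp

theorem SizeM_X2 (h0 : 0 < ε) (h1 : ε ≤ 1 / 1000) (a : ℝ × ℂ) :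
    nr (X2 ε a) = nr (Rd (io a)) := by
  unfold X2
  rw [nr_DD h0 h1, nr_VV]

theorem X2_nr (h0 : 0 < ε) (h1 : ε ≤ 1 / 1000) {s y u : ℝ} (hs : 0 < s)
    (h : 1 ≤ nr (X2 ε (y, s * ex u))) :
    nr (X2 ε (y, s * ex u)) = s / ww (ya s y) ∧
      X2 ε (y, s * ex u) = (s / ww (ya s y)) • E2 ε ((ya s y : ℂ) + u * I) := by
  have hsinh := (sinh_ya hs y).symm
  generalize ya s y = y' at hsinh ⊢
  have hio := SizeM_io_polar (u := u) hs hsinh
  have hc : 0 < Real.cosh (2 * Real.pi * y') := Real.cosh_pos _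
  have hX : 0 < s * Real.cosh (2 * Real.pi * y') := mul_pos hs hc
  have hnr : nr (io (y, s * ex u)) = s * Real.cosh (2 * Real.pi * y') := by
    rw [hio, nr_smul hX.le, nr_EE, mul_one]
  have h2 : 1 ≤ nr (io (y, s * ex u)) := by
    refine h.trans ?_
    rw [SizeM_X2 h0 h1]
    exact nr_Rd_le _
  have hre : ((y' : ℂ) + u * I).re = y' := by simp
  have hAX : AX (io (y, s * ex u)) = aw y' := by
    rw [hio, AX_smul hX, AX_EE, hre]
  have haw : 0 < aw y' := by have := half_lt_aw y'; linarith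
  have e1 : aw y' * (s * Real.cosh (2 * Real.pi * y')) = s / ww y' := by
    unfold ww sech
    field_simp
  have e2 : nr (X2 ε (y, s * ex u)) = s / ww y' := by
    rw [SizeM_X2 h0 h1, Rd_big h2, hAX, nr_smul haw.le, hnr, e1]
  exact ⟨e2, X2_polar h0 h1 hs hsinh (by rw [← e2]; exact h)⟩

/-- for `‖Z‖ ≥ 1` there is no condition -/
theorem X2_nr' (h0 : 0 < ε) (h1 : ε ≤ 1 / 1000) {s y u : ℝ} (hs : 1 ≤ s) :
    nr (X2 ε (y, s * ex u)) = s / ww y ∧ X2 ε (y, s * ex u) = (s / ww y) • E2 ε ((y : ℂ) + u * I) := by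
  have hw := ww_pos y
  have hw1 := ww_le_one y
  have h1' : 1 ≤ s / ww y := by
    rw [le_div_iff₀ hw]
    linarith
  have e := X2_polar (u := u) (y := y) (y' := y) h0 h1 (by linarith : 0 < s)
    (by rw [SizeM_MZ (by linarith)]) h1'
  refine ⟨?_, e⟩
  rw [e, nr_smul (by linarith), nr_E2 h0 h1, mul_one]

theorem nr_X2_le (h0 : 0 < ε) (h1 : ε ≤ 1 / 1000) (a : ℝ × ℂ) : nr (X2 ε a) ≤ nr (io a) := by
  rw [SizeM_X2 h0 h1]
  exact nr_Rd_le _

theorem X2_core (h0 : 0 < ε) (h1 : ε ≤ 1 / 1000) {y : ℝ} {sg : ℝ} (hs : sg ^ 2 = 1) (hy : 0 < sg * y)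
    (h : 1 ≤ nr (X2 ε (y, 0))) :
    nr (X2 ε (y, 0)) = sg * Real.sinh (2 * Real.pi * y) / 20 ∧
      X2 ε (y, 0) = (sg * Real.sinh (2 * Real.pi * y) / 20) • DD ε (Ep sg 0) := by
  have hpi := Real.pi_pos
  have hsm : 0 < sg * Real.sinh (2 * Real.pi * y) := by
    have hsq : sg = 1 ∨ sg = -1 := by
      have : (sg - 1) * (sg + 1) = 0 := by linear_combination hs
      rcases mul_eq_zero.1 this with h | h
      · left; linarith
      · right; linarith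
    rcases hsq with h | h
    · subst h
      rw [one_mul] at hy ⊢
      exact Real.sinh_pos_iff.2 (by positivity)
    · subst h
      have hy' : y < 0 := by linarith
      have : Real.sinh (2 * Real.pi * y) < 0 := Real.sinh_neg_iff.2 (by nlinarith)
      linarith
  have hn := nr_io (y, 0)
  simp only [MZ_zero, norm_zero] at hn
  have hn' : nr (io (y, 0)) = sg * Real.sinh (2 * Real.pi * y) / 20 := by
    have h3 : nr (io (y, 0)) ^ 2 = (sg * Real.sinh (2 * Real.pi * y) / 20) ^ 2 := by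
      rw [hn]
      linear_combination (-(Real.sinh (2 * Real.pi * y) / 20) ^ 2) * hs
    exact (pow_left_inj₀ (nr_nonneg _) (by positivity) two_ne_zero).1 h3
  have h2 : 1 ≤ nr (io (y, 0)) := h.trans (nr_X2_le h0 h1 _)
  have e := X2_pole h0 h1 (y := y) (Z := 0) h2 (by rw [norm_zero]; linarith) hs hy
  rw [zero_div] at e
  rw [hn'] at e h2
  refine ⟨?_, e⟩
  rw [e, nr_smul (by linarith), nr_DD h0 h1, nr_Ep hs (by rw [norm_zero]; norm_num), mul_one]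

theorem SizeM_MZ_le {ζ : ℂ} (hζ : ‖ζ‖ ≤ 1 / 7) : MZ ζ ≤ 3 / 20 := by
  rcases le_total ‖ζ‖ (1 / 8) with h | h
  · exact MZ_le h
  · rw [MZ_big h]
    linarith

theorem SizeM_sinh {y : ℝ} (h : |y| < 3 / 10) : |Real.sinh (2 * Real.pi * y)| < 4 := by
  have hpi := Real.pi_pos
  have hpi2 : Real.pi < 315 / 100 := by linarith [Real.pi_lt_d2]
  have e1 : |Real.sinh (2 * Real.pi * y)| = Real.sinh |2 * Real.pi * y| := Real.abs_sinh _
  have e2 : |2 * Real.pi * y| = 2 * Real.pi * |y| := by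
    rw [abs_mul, abs_of_pos (by positivity)]
  have hb : 2 * Real.pi * |y| ≤ 2 := by
    have := abs_nonneg y
    nlinarith
  rw [e1, e2]
  have h3 : Real.sinh (2 * Real.pi * |y|) ≤ Real.sinh 2 := Real.sinh_le_sinh.2 hb
  refine lt_of_le_of_lt h3 ?_
  rw [Real.sinh_eq]
  have h4 : Real.exp 2 < 8 := by
    have h5 : Real.exp 2 = Real.exp 1 * Real.exp 1 := by
      rw [← Real.exp_add]
      norm_num
    have h6 := Real.exp_one_lt_d9
    have h7 := Real.exp_pos 1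
    rw [h5]
    nlinarith
  have h8 := Real.exp_pos (-2)
  linarith

theorem SizeM_NN {y : ℝ} {ζ : ℂ} (hy : Real.sinh (2 * Real.pi * y) ≠ 0) :
    NN (1 / Real.sinh (2 * Real.pi * y)) ζ =
      |1 / Real.sinh (2 * Real.pi * y)| * nr (io (y, ζ)) := by
  have h1 : 0 ≤ |1 / Real.sinh (2 * Real.pi * y)| * nr (io (y, ζ)) :=
    mul_nonneg (abs_nonneg _) (nr_nonneg _)
  unfold NN
  rw [← Real.sqrt_sq h1]
  congr 1
  rw [mul_pow, sq_abs, nr_io]
  field_simp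

theorem X2_big (h0 : 0 < ε) (h1 : ε ≤ 1 / 1000) {y : ℝ} {ζ : ℂ} (hζ : ‖ζ‖ ≤ 1 / 7)
    (h : 3 ≤ nr (X2 ε (y, ζ))) :
    3 / 10 ≤ |y| ∧ 3 * |1 / Real.sinh (2 * Real.pi * y)| ≤ NN (1 / Real.sinh (2 * Real.pi * y)) ζ := by
  have h3 : 3 ≤ nr (io (y, ζ)) := h.trans (nr_X2_le h0 h1 _)
  have hn := nr_io (y, ζ)
  simp only at hn
  have hM := SizeM_MZ_le hζ
  have hM0 := MZ_pos ζ
  have hζ0 := norm_nonneg ζ
  have hbig : 9 - 1 / 49 ≤ (MZ ζ * Real.sinh (2 * Real.pi * y)) ^ 2 := by nlinarith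
  have hs : 16 ≤ Real.sinh (2 * Real.pi * y) ^ 2 := by
    rw [mul_pow] at hbig
    have hM2 : MZ ζ ^ 2 ≤ (3 / 20) ^ 2 := by nlinarith
    have := sq_nonneg (Real.sinh (2 * Real.pi * y))
    nlinarith
  have hs0 : Real.sinh (2 * Real.pi * y) ≠ 0 := by
    intro h
    rw [h] at hs
    norm_num at hs
  constructor
  · by_contra hlt
    have h4 := SizeM_sinh (not_le.1 hlt)
    have h5 : Real.sinh (2 * Real.pi * y) ^ 2 < 4 ^ 2 := by
      rw [← sq_abs]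
      exact pow_lt_pow_left₀ h4 (abs_nonneg _) two_ne_zero
    linarith
  · rw [SizeM_NN hs0, mul_comm]
    exact mul_le_mul_of_nonneg_left h3 (abs_nonneg _)

theorem nr_X2_zero (h0 : 0 < ε) (h1 : ε ≤ 1 / 1000) (Z : ℂ) : nr (X2 ε (0, Z)) ≤ ‖Z‖ := by
  refine (nr_X2_le h0 h1 _).trans ?_
  have hn := nr_io (0, Z)
  simp only [mul_zero, Real.sinh_zero] at hn
  have h2 : nr (io (0, Z)) ^ 2 ≤ ‖Z‖ ^ 2 := by rw [hn]; simp
  exact (pow_le_pow_iff_left₀ (nr_nonneg _) (norm_nonneg _) two_ne_zero).1 h2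

/-- if `s / ww y ≥ 2` and `s ≤ 1/7` then we are near the pole: `ww y = sech`, `|y| ≥ 3/10` -/
theorem ww_pole {s y : ℝ} (hs : 0 < s) (hs' : s ≤ 1 / 7) (h : 2 ≤ s / ww y) :
    3 / 10 ≤ |y| ∧ ww y = sech (2 * Real.pi * y) := by
  have hw := ww_pos y
  rw [le_div_iff₀ hw] at h
  have h3 := ww_le_quarter (y := y) (by linarith)
  exact ⟨h3, ww_big (by linarith)⟩

/-- conversely the size of `X2` from `σ` -/
theorem X2_of_sigma (h0 : 0 < ε) (h1 : ε ≤ 1 / 1000) {s y u : ℝ} (hs : 0 < s) (hs' : s ≤ 1 / 7)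
    {σ : ℝ} (hσ : σ ≠ 0) (hy : Real.sinh (2 * Real.pi * y) = 1 / σ) (h : 3 * |σ| ≤ NN σ (s : ℂ)) :
    3 ≤ nr (X2 ε (y, s * ex u)) := by
  have hσ0 : 0 < |σ| := abs_pos.2 hσ
  have hne : Real.sinh (2 * Real.pi * y) ≠ 0 := by
    rw [hy]
    exact one_div_ne_zero hσ
  have hσe : σ = 1 / Real.sinh (2 * Real.pi * y) := by
    rw [hy, one_div_one_div]
  have hN := SizeM_NN (y := y) (ζ := (s : ℂ)) hne
  rw [← hσe] at hN
  rw [hN] at h
  have hnio : nr (io (y, s * ex u)) = nr (io (y, (s : ℂ))) := by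
    have e1 : ‖(s : ℂ) * ex u‖ = ‖(s : ℂ)‖ := by rw [norm_mul, ex_norm, mul_one]
    have e2 : nr (io (y, s * ex u)) ^ 2 = nr (io (y, (s : ℂ))) ^ 2 := by
      rw [nr_io, nr_io]
      simp only
      rw [MZ_norm e1, e1]
    exact (pow_left_inj₀ (nr_nonneg _) (nr_nonneg _) two_ne_zero).1 e2
  have h3 : 3 ≤ nr (io (y, s * ex u)) := by
    rw [hnio]
    have : |σ| * 3 ≤ |σ| * nr (io (y, (s : ℂ))) := by linarith
    exact le_of_mul_le_mul_left this hσ0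
  have hn := nr_io (y, s * ex u)
  have hre := io_re (y, s * ex u)
  simp only at hn hre
  have hζ : ‖(s : ℂ) * ex u‖ = s := by
    rw [norm_mul, ex_norm, mul_one, Complex.norm_real, Real.norm_eq_abs, abs_of_pos hs]
  have hAX : AX (io (y, s * ex u)) = 1 := by
    apply AX_axis
    · rw [hre]
      rw [hζ] at hn
      nlinarith
    · apply nr_pos.1
      linarith
  rw [SizeM_X2 h0 h1, Rd_big (by linarith), hAX, one_smul]
  exact h3

/-- `E2 ε p` far from the corner -/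
theorem E2_ge (h0 : 0 < ε) (h1 : ε ≤ 1 / 1000) {c : ℝ} (hc : 0 < c) (hc' : c ≤ 497 / 100) {p : ℂ}
    (h : ∀ n : ℤ, c * ε ≤ ‖p - n * I‖) : (E2 ε p).1 ≤ -((c ^ 2 - 1) / (c ^ 2 + 1)) := by
  by_contra hlt
  have e : -((c ^ 2 - 1) / (c ^ 2 + 1)) = (1 - c ^ 2) / (1 + c ^ 2) := by
    rw [← neg_div, add_comm (c ^ 2) 1]
    congr 1
    ring
  rw [e, not_le] at hlt
  obtain ⟨n, hn⟩ := (E2_far h0 h1 hc hc' p).1 hlt
  exact absurd (h n) (not_le.2 hn)

end Pool.Agent.TS
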