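import Pool.Agent.TS.OutDef
import Pool.Agent.TS.CovM
import Pool.Agent.TS.APM
import Pool.Agent.TS.ATM
import Pool.Agent.TS.SizeM

/-!
# TS/FneM: values of `F` off `Far 3` are not outer points of the old structure
`cover` (`R = 3`): (T) `F b = fT L (q, y, Z)`, `nr X2 < 3`; (C) `F b = fC L (p, ν)`, `‖ν‖ < 3`, `(E2 ε p).1 ≤ -4/5`;
(P) `F b = fP L sg (ν, 0) = L.jK (hS sg ν, 0)`, `‖ν‖ < 3`.
`F_cases` records this.  `‖Z‖ < 3` in (T): `norm_Z_le`.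
versus `L.G (P, R)`, `OutA`: (T): `Z = 0`: `disjT`; `Z = s ex u`: `fT_G`, `G_eq`: `fr P = ε s ex (..)`,
`‖fr P‖ = ε s < 3 ε`; `(fr R).re = ns ε y` (`|ns| < 1/2`), `nsi = y`, `(fr R).im - u ∈ Z`, `zT (fr P) (fr R) = Z`:
contradiction with the second clause.  (C): `G_eq`: `fr R = ε ww ex ν` of norm `< 3 ε ww ≤ 3 ε`, `(fr P).re = ns ε p.re`:
contradiction with the first clause (`p ≠ n i` as `E2 ε (n i) = (1, 0)`).  (P): `disjK`.
versus `L.jK (Y, 0)` with `3 |Y₀| ≤ ‖yc Y‖`: (T): `jK_ne_fT`; (C): `disjK` (`fC_Reg`); (P): `jK_inj`, `hS_zero`, `hS_yc`.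
versus `L.jT (q', y', 0)` outer: (T): `jT_inj`: `Z = 0`, `y' = ns ε y + b`; (C): `disjT`; (P): `disjKT`.
`F_G`: values of `F` off `Far 3` which are regular are near `K ∪ T`.
-/

open scoped Manifold ContDiff Topology
open Complex (I)
open Set Filter

namespace Pool.Agent.TS
open Pool.Agent.CSG

variable {X : Type*} [TopologicalSpace X] [ChartedSpace E4 X] {ε ρ : ℝ} {k e : ℤ}

theorem FneM_E2_ne (h0 : 0 < ε) (h1 : ε ≤ 1 / 1000) {p : ℂ} (h : (E2 ε p).1 ≤ -(4 / 5)) (n : ℤ) :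
    p ≠ n * I := by
  rintro rfl
  have h2 : E2 ε (0 + n * I) = E2 ε 0 := E2_per 0 n
  rw [zero_add] at h2
  have h3 : E2 ε 0 = st (0 / ε) := E2_corner h0 h1 (by rw [norm_zero]; positivity)
  rw [h2, h3, zero_div] at h
  have h4 : (st 0).1 = 1 := by
    unfold st
    simp
  rw [h4] at h
  norm_num at h

/-- `fr` of a number congruent to a number with small norm -/
theorem FneM_fr_small {z w : ℂ} (h : z - w ∈ GI) (hw : ‖w‖ < 1 / 2) : fr z = w := by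
  have h2 : fr (w + (z - w)) = fr w := fr_add h
  rw [add_sub_cancel, fr_self' hw] at h2
  exact h2

theorem FneM_fr_eq {z w : ℂ} (h : z - w ∈ GI) : fr z = fr w := by
  have h2 : fr (w + (z - w)) = fr w := fr_add h
  rwa [add_sub_cancel] at h2

theorem FneM_fr_ns (h0 : 0 < ε) (h1 : ε ≤ 1 / 1000) (y u : ℝ) :
    (fr ((ns ε y : ℝ) + (u : ℝ) * I)).re = ns ε y ∧
      ex (fr ((ns ε y : ℝ) + (u : ℝ) * I)).im = ex u := by
  have hn := abs_lt.1 (ns_lt h0 h1 y)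
  have hre : ((ns ε y : ℂ) + (u : ℂ) * I).re = ns ε y := by simp
  have him : ((ns ε y : ℂ) + (u : ℂ) * I).im = u := by simp
  constructor
  · rw [fr_re, hre, rd_self hn.1.le hn.2]
    simp
  · rw [fr_im, him]
    exact ex_eq_iff.2 ⟨round u, by ring⟩

theorem FneM_norm_G (h0 : 0 < ε) {s : ℝ} (hs : 0 < s) (q : ℝ) : ‖(ε * s * ex q : ℂ)‖ = ε * s := by
  rw [norm_mul, norm_mul, ex_norm, mul_one, Complex.norm_real, Complex.norm_real,
    Real.norm_of_nonneg h0.le, Real.norm_of_nonneg hs.le]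

theorem FneM_norm_C (h0 : 0 < ε) (x : ℝ) (t : ℝ) (ν : ℂ) :
    ‖((ε * ww x : ℝ) * ex t * ν : ℂ)‖ = ε * ww x * ‖ν‖ := by
  rw [norm_mul, norm_mul, ex_norm, mul_one, Complex.norm_real,
    Real.norm_of_nonneg (mul_pos h0 (ww_pos x)).le]

theorem FneM_ww5 {x : ℝ} {ν : ℂ} (h : ‖ν‖ < 3) : ww x * ‖ν‖ < 5 := by
  have h2 := ww_pos x
  have h3 := ww_le_one x
  have h4 := norm_nonneg ν
  nlinarith

theorem F_cases (h0 : 0 < ε) (h1 : ε ≤ 1 / 1000) {L : LS ε ρ k e X} {F : ℂ × ℂ → X} (hF : IsF L F)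
    {b : ℂ × ℂ} (hb : ¬ Far 3 b) :
    (∃ q y Z, nr (X2 ε (y, Z)) < 3 ∧ ‖Z‖ < 3 ∧ b = OmT ε (q, y, Z) ∧ F b = fT L (q, y, Z)) ∨
    (∃ p ν, ‖ν‖ < 3 ∧ (E2 ε p).1 ≤ -(4 / 5) ∧ b = OmC ε (p, ν) ∧ F b = fC L (p, ν)) ∨
    (∃ (sg : ℝ) (ν : ℂ), sg ^ 2 = 1 ∧ ‖ν‖ < 3 ∧ b = OmP ε sg (ν, 0) ∧ F b = fP L sg (ν, 0)) := by
  rcases cover h0 h1 (R := 3) (by norm_num) (by norm_num) hb with
    ⟨q, y, Z, hn, hbT⟩ | ⟨p, ν, hν, hE, hbC⟩ | ⟨sg, ν, hs, hν, hbP⟩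
  · left
    refine ⟨q, y, Z, hn, ?_, hbT, ?_⟩
    · rcases lt_or_ge ‖Z‖ 1 with h | h
      · linarith
      · exact lt_of_le_of_lt (norm_Z_le h0 h1 y Z h) hn
    · rw [hbT]
      exact hF.T q y Z (by linarith)
  · right; left
    have hE' : (E2 ε p).1 ≤ -(4 / 5) := by
      norm_num at hE ⊢
      linarith
    refine ⟨p, ν, hν, hE', hbC, ?_⟩
    rw [hbC]
    exact hF.C p ν (by linarith) (by linarith)
  · right; right
    refine ⟨sg, ν, hs, hν, hbP, ?_⟩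
    rw [hbP]
    exact hF.P sg ν 0 hs (by linarith) (by rw [norm_zero]; norm_num)

theorem F_ne_G (h0 : 0 < ε) (h1 : ε ≤ 1 / 1000) (h2 : 5 * ε < ρ) (h3 : ρ ≤ 1 / 8)
    {L : LS ε ρ k e X} {F : ℂ × ℂ → X} (hF : IsF L F) {b : ℂ × ℂ} (hb : ¬ Far 3 b) {P R : ℂ}
    (hR : Reg ρ P R) (hO : OutA ε P R) : F b ≠ L.G (P, R) := by
  intro hE
  rcases F_cases h0 h1 hF hb with ⟨q, y, Z, hn, hZ, _, hFb⟩ | ⟨p, ν, hν, hEp, _, hFb⟩ |
    ⟨sg, ν, hs, hν, _, hFb⟩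
  · rw [hFb] at hE
    by_cases hZ0 : Z = 0
    · subst hZ0
      rw [fT_core] at hE
      exact L.disjT _ _ _ _ hR.1 hR.2.1 hR.2.2 hE
    · have hs : 0 < ‖Z‖ := norm_pos_iff.2 hZ0
      obtain ⟨u, hu⟩ := exists_polar (Z := Z)
      rw [hu, fT_G L q y u hs (by linarith)] at hE
      have hreg := Reg_T h0 h2 h3 hs (by linarith : ‖Z‖ < 5)
        (q := q + e * twc (‖Z‖ * ex u) + e * u) ((ns ε y : ℝ) + (u : ℝ) * I)
      obtain ⟨g1, g2⟩ := (G_eq L hreg hR).1 hE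
      have hsm : ε * ‖Z‖ < 3 * ε := by nlinarith
      have hP : fr P = ε * ‖Z‖ * ex (q + e * twc (‖Z‖ * ex u) + e * u) := by
        apply FneM_fr_small g1
        rw [FneM_norm_G h0 hs]
        linarith
      have hnP : ‖fr P‖ = ε * ‖Z‖ := by rw [hP, FneM_norm_G h0 hs]
      have hRr : fr R = fr ((ns ε y : ℝ) + (u : ℝ) * I) := FneM_fr_eq g2
      obtain ⟨r1, r2⟩ := FneM_fr_ns h0 h1 y u
      have hc := hO.2 (by rw [hnP]; exact hsm) (by rw [hRr, r1]; exact ns_lt h0 h1 y)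
      have hz : zT ε (fr P) (fr R) = Z := by
        unfold zT
        rw [hnP, hRr, r2, mul_div_cancel_left₀ _ h0.ne']
        exact hu.symm
      rw [hz, hRr, r1, nsi_ns h0 h1] at hc
      linarith
  · rw [hFb] at hE
    have hp := FneM_E2_ne h0 h1 hEp
    have hreg := fC_Reg (k := k) h0 h1 h2 h3 (FneM_ww5 (x := p.re) hν) hp
    have hE' : L.G ((ns ε p.re : ℂ) + p.im * I, (ε * ww p.re : ℝ) * ex (k * thc p.im) * ν) =
        L.G (P, R) := hE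
    obtain ⟨g1, g2⟩ := (G_eq L hreg hR).1 hE'
    have hw := ww_pos p.re
    have hw1 := ww_le_one p.re
    have hνn := norm_nonneg ν
    have hsm : ε * ww p.re * ‖ν‖ < 3 * ε * ww p.re := by
      have : 0 < ε * ww p.re := mul_pos h0 hw
      nlinarith
    have hsm' : 3 * ε * ww p.re ≤ 3 * ε := by nlinarith
    have hRr : fr R = (ε * ww p.re : ℝ) * ex (k * thc p.im) * ν := by
      apply FneM_fr_small g2
      rw [FneM_norm_C h0]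
      linarith
    have hnR : ‖fr R‖ = ε * ww p.re * ‖ν‖ := by rw [hRr, FneM_norm_C h0]
    have hPr : fr P = fr ((ns ε p.re : ℝ) + (p.im : ℝ) * I) := FneM_fr_eq g1
    obtain ⟨r1, _⟩ := FneM_fr_ns h0 h1 p.re p.im
    have hc := hO.1 (by rw [hnR]; linarith) (by rw [hPr, r1]; exact ns_lt h0 h1 _)
    rw [hPr, r1, nsi_ns h0 h1, hnR] at hc
    linarith
  · rw [hFb] at hE
    exact L.disjK _ _ _ hR.1 hR.2.1 hR.2.2 hE

theorem F_ne_jK (h0 : 0 < ε) (h1 : ε ≤ 1 / 1000) (h2 : 5 * ε < ρ) (h3 : ρ ≤ 1 / 8)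
    {L : LS ε ρ k e X} {F : ℂ × ℂ → X} (hF : IsF L F) {b : ℂ × ℂ} (hb : ¬ Far 3 b) {Y : S2}
    (hY : 3 * |(Y : E3) 0| ≤ ‖yc Y‖) : F b ≠ L.jK (Y, 0) := by
  intro hE
  rcases F_cases h0 h1 hF hb with ⟨q, y, Z, hn, hZ, _, hFb⟩ | ⟨p, ν, hν, hEp, _, hFb⟩ |
    ⟨sg, ν, hs, hν, _, hFb⟩
  · rw [hFb] at hE
    exact jK_ne_fT h0 h1 h2 h3 L (by rw [norm_zero]; norm_num) (by linarith) hE.symm
  · rw [hFb] at hE
    have hreg := fC_Reg (k := k) h0 h1 h2 h3 (FneM_ww5 (x := p.re) hν) (FneM_E2_ne h0 h1 hEp)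
    exact L.disjK _ _ _ hreg.1 hreg.2.1 hreg.2.2 hE.symm
  · rw [hFb] at hE
    have h5 := (L.jK_inj _ _ _ _ (by rw [norm_zero]; norm_num) (by rw [norm_zero]; norm_num) hE).1
    have h5' : hS sg ν = Y := h5
    rw [← h5', hS_zero hs, hS_yc hs] at hY
    have hq : 0 < √(1 + ‖ν‖ ^ 2) := Real.sqrt_pos.2 (by positivity)
    have hsa : |sg| = 1 := by
      have : |sg| ^ 2 = 1 := by rw [sq_abs]; exact hs
      have h6 := abs_nonneg sg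
      nlinarith
    rw [abs_div, abs_neg, hsa, abs_of_pos hq, norm_div, Complex.norm_real,
      Real.norm_of_nonneg hq.le, mul_one_div, div_le_div_iff_of_pos_right hq] at hY
    linarith

theorem F_ne_jT (h0 : 0 < ε) (h1 : ε ≤ 1 / 1000) (h2 : 5 * ε < ρ) (h3 : ρ ≤ 1 / 8)
    {L : LS ε ρ k e X} {F : ℂ × ℂ → X} (hF : IsF L F) {b : ℂ × ℂ} (hb : ¬ Far 3 b) {q y : ℝ}
    (hy : ¬ InCT ε y) : F b ≠ L.jT (q, y, 0) := by
  intro hE
  rcases F_cases h0 h1 hF hb with ⟨q', y', Z, hn, hZ, _, hFb⟩ | ⟨p, ν, hν, hEp, _, hFb⟩ |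
    ⟨sg, ν, hs, hν, _, hFb⟩
  · rw [hFb] at hE
    have hE' : L.jT (q' + e * twc Z, ns ε y', Z) = L.jT (q, y, 0) := hE
    obtain ⟨_, ⟨m, hm⟩, hz⟩ := L.jT_inj _ _ _ _ _ _ (by linarith) (by rw [norm_zero]; norm_num) hE'
    apply hy
    have hre : (fr (y : ℂ)).re = ns ε y' := by
      have hd : (y : ℂ) - ((ns ε y' : ℝ) + (0 : ℝ) * I) ∈ GI := by
        refine ⟨m, 0, ?_⟩
        rw [hm]
        push_cast
        ring
      rw [FneM_fr_eq hd]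
      exact (FneM_fr_ns h0 h1 y' 0).1
    refine ⟨by rw [hre]; exact ns_lt h0 h1 y', ?_⟩
    rw [hre, nsi_ns h0 h1, hz]
    exact hn
  · rw [hFb] at hE
    have hreg := fC_Reg (k := k) h0 h1 h2 h3 (FneM_ww5 (x := p.re) hν) (FneM_E2_ne h0 h1 hEp)
    exact L.disjT _ _ _ _ hreg.1 hreg.2.1 hreg.2.2 hE.symm
  · rw [hFb] at hE
    exact L.disjKT _ _ _ hE

/-- the values of `F` off `Far 3` lie in the region `L.Rg` -/
theorem F_mem_Rg (h0 : 0 < ε) (h1 : ε ≤ 1 / 1000) (h2 : 5 * ε < ρ) (h3 : ρ ≤ 1 / 8)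
    {L : LS ε ρ k e X} {F : ℂ × ℂ → X} (hF : IsF L F) {b : ℂ × ℂ} (hb : ¬ Far 3 b) :
    F b ∈ L.Rg := by
  rcases F_cases h0 h1 hF hb with ⟨q, y, Z, hn, hZ, _, hFb⟩ | ⟨p, ν, hν, hEp, _, hFb⟩ |
    ⟨sg, ν, hs, hν, _, hFb⟩
  · rw [hFb]
    by_cases hZ0 : Z = 0
    · subst hZ0
      rw [fT_core]
      exact Or.inr (Or.inr ⟨_, _, rfl⟩)
    · have hs : 0 < ‖Z‖ := norm_pos_iff.2 hZ0
      obtain ⟨u, hu⟩ := exists_polar (Z := Z)
      have hreg := Reg_T h0 h2 h3 hs (by linarith : ‖Z‖ < 5)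
        (q := q + e * twc (‖Z‖ * ex u) + e * u) ((ns ε y : ℝ) + (u : ℝ) * I)
      have hsm : ε * ‖Z‖ < 3 * ε := by nlinarith
      left
      refine ⟨_, _, Or.inl ?_, hreg.2.1, hreg.2.2, ?_⟩
      · rw [fr_self' (by rw [FneM_norm_G h0 hs]; linarith), FneM_norm_G h0 hs]
        exact hsm
      · have h5 := fT_G L q y u hs (by linarith)
        rw [← hu] at h5
        rw [h5, ← hu]
  · rw [hFb]
    have hreg := fC_Reg (k := k) h0 h1 h2 h3 (FneM_ww5 (x := p.re) hν) (FneM_E2_ne h0 h1 hEp)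
    have hw := ww_pos p.re
    have hw1 := ww_le_one p.re
    have hνn := norm_nonneg ν
    have hsm : ε * ww p.re * ‖ν‖ < 3 * ε * ww p.re := by
      have : 0 < ε * ww p.re := mul_pos h0 hw
      nlinarith
    have hsm' : 3 * ε * ww p.re ≤ 3 * ε := by nlinarith
    left
    refine ⟨_, _, Or.inr ?_, hreg.2.1, hreg.2.2, rfl⟩
    rw [fr_self' (by rw [FneM_norm_C h0]; linarith), FneM_norm_C h0]
    linarith
  · rw [hFb]
    exact Or.inr (Or.inl ⟨_, rfl⟩)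

end Pool.Agent.TS
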