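import Pool.Agent.TS.BDef
import Pool.Agent.TS.FrC
import Pool.Agent.TS.TwM

/-!
# TS/LSG: basic facts on `LS`
`G_per`, `G_loc`, `G_inj`; `Wd`, `GI`, `OnCK` are invariant under translations by `GI` (`fr_add`); `Reg` is an open
condition: `‖fr ·‖` is continuous, `GI` is closed, `{(p, r) | OnCK p r}` is closed.
-/

open scoped Manifold ContDiff Topology
open Complex (I)
open Set Filter

namespace Pool.Agent.TS
open Pool.Agent.CSG

variable {X : Type*} [TopologicalSpace X] [ChartedSpace E4 X] {ε ρ : ℝ} {k e : ℤ}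

theorem Wd_add {p r a b : ℂ} (ha : a ∈ GI) (hb : b ∈ GI) : (p + a, r + b) ∈ Wd ρ ↔ (p, r) ∈ Wd ρ := by
  show ‖fr (p + a)‖ < ρ ∨ ‖fr (r + b)‖ < ρ ↔ ‖fr p‖ < ρ ∨ ‖fr r‖ < ρ
  rw [fr_add ha, fr_add hb]

theorem LSG_GI {p a : ℂ} (ha : a ∈ GI) : p + a ∈ GI ↔ p ∈ GI := by
  constructor
  · intro h
    have := GI_sub h ha
    rwa [add_sub_cancel_right] at this
  · intro h
    exact GI_add h ha

theorem LSG_OnCK {p r a b : ℂ} (ha : a ∈ GI) (hb : b ∈ GI) : OnCK (p + a) (r + b) ↔ OnCK p r := by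
  obtain ⟨⟨m, hm⟩, -⟩ := mem_GI.1 ha
  unfold OnCK
  rw [LSG_GI hb]
  refine and_congr_right fun _ => ?_
  constructor
  · rintro ⟨c, hc⟩
    refine ⟨c - m, ?_⟩
    rw [Complex.add_re, hm] at hc
    push_cast
    linarith
  · rintro ⟨c, hc⟩
    refine ⟨c + m, ?_⟩
    rw [Complex.add_re, hm]
    push_cast
    linarith

theorem Reg_add {p r a b : ℂ} (ha : a ∈ GI) (hb : b ∈ GI) : Reg ρ (p + a) (r + b) ↔ Reg ρ p r := by
  unfold Reg
  rw [Wd_add ha hb, LSG_GI ha, LSG_OnCK ha hb]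

theorem RegB_iff {p r : ℂ} : RegB ρ p r ↔ Reg ρ r p := by
  unfold RegB Reg
  have : (p, r) ∈ Wd ρ ↔ (r, p) ∈ Wd ρ := Or.comm
  rw [this]

theorem Reg_fr {p r : ℂ} : Reg ρ (fr p) (fr r) ↔ Reg ρ p r := by
  have h := Reg_add (ρ := ρ) (p := fr p) (r := fr r) (sub_fr_mem p) (sub_fr_mem r)
  rw [add_sub_cancel, add_sub_cancel] at h
  exact h.symm

theorem LSG_closed_half : IsClosed {x : ℝ | ∃ n : ℤ, x = n + 1 / 2} := by
  have h : {x : ℝ | ∃ n : ℤ, x = n + 1 / 2} = (fun x : ℝ => x - 1 / 2) ⁻¹' range ((↑) : ℤ → ℝ) := by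
    ext x
    constructor
    · rintro ⟨n, hn⟩
      exact ⟨n, by show (n : ℝ) = x - 1 / 2; rw [hn]; ring⟩
    · rintro ⟨n, hn⟩
      have hn' : (n : ℝ) = x - 1 / 2 := hn
      exact ⟨n, by rw [hn']; ring⟩
  rw [h]
  exact Int.isClosedEmbedding_coe_real.isClosed_range.preimage (by fun_prop)

theorem Reg_open {p r : ℂ} (h : Reg ρ p r) : ∀ᶠ a : ℂ × ℂ in 𝓝 (p, r), Reg ρ a.1 a.2 := by
  obtain ⟨h1, h2, h3⟩ := h
  have e1 : ∀ᶠ a : ℂ × ℂ in 𝓝 (p, r), (a.1, a.2) ∈ Wd ρ := by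
    have ho : IsOpen {a : ℂ × ℂ | ‖fr a.1‖ < ρ ∨ ‖fr a.2‖ < ρ} :=
      (isOpen_lt (fr_continuous.comp continuous_fst) continuous_const).union
        (isOpen_lt (fr_continuous.comp continuous_snd) continuous_const)
    exact ho.mem_nhds h1
  have e2 : ∀ᶠ a : ℂ × ℂ in 𝓝 (p, r), a.1 ∉ GI := by
    have ho : IsOpen {a : ℂ × ℂ | a.1 ∉ GI} := (isClosed_GI.preimage continuous_fst).isOpen_compl
    exact ho.mem_nhds h2
  have e3 : ∀ᶠ a : ℂ × ℂ in 𝓝 (p, r), ¬ OnCK a.1 a.2 := by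
    have ho : IsOpen {a : ℂ × ℂ | ¬ OnCK a.1 a.2} := by
      have hc : IsClosed {a : ℂ × ℂ | OnCK a.1 a.2} := by
        have hre : Continuous fun a : ℂ × ℂ => a.1.re := Complex.continuous_re.comp continuous_fst
        exact (isClosed_GI.preimage continuous_snd).inter (LSG_closed_half.preimage hre)
      exact hc.isOpen_compl
    exact ho.mem_nhds h3
  filter_upwards [e1, e2, e3] with a a1 a2 a3
  exact ⟨a1, a2, a3⟩

theorem G_eq (L : LS ε ρ k e X) {p r p' r' : ℂ} (h : Reg ρ p r) (h' : Reg ρ p' r') :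
    L.G (p, r) = L.G (p', r') ↔ p' - p ∈ GI ∧ r' - r ∈ GI := by
  constructor
  · exact L.G_inj p r p' r' h.1 h.2.1 h.2.2 h'.1 h'.2.1 h'.2.2
  · rintro ⟨h1, h2⟩
    have := L.G_per p r (p' - p) (r' - r) h.1 h1 h2
    rw [add_sub_cancel, add_sub_cancel] at this
    exact this.symm

theorem G_fr (L : LS ε ρ k e X) {p r : ℂ} (h : (p, r) ∈ Wd ρ) : L.G (fr p, fr r) = L.G (p, r) := by
  have := L.G_per p r (-rnd p) (-rnd r) h (GI_neg (rnd_mem p)) (GI_neg (rnd_mem r))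
  rw [← sub_eq_add_neg, ← sub_eq_add_neg] at this
  exact this

theorem G_ld (L : LS ε ρ k e X) {p r : ℂ} (h : Reg ρ p r) :
    IsLocalDiffeomorphAt 𝓘(ℝ, ℂ × ℂ) (𝓡 4) ∞ L.G (p, r) :=
  L.G_loc p r h.1 h.2.1 h.2.2

theorem LSG_half {x : ℝ} (h : |x| < 1 / 2) (a : ℤ) : x ≠ a + 1 / 2 := by
  intro he
  rw [abs_lt] at h
  have h1 : (a : ℝ) < 0 := by linarith [h.2]
  have h2 : (-1 : ℝ) < a := by linarith [h.1]
  have h3 : a < 0 := by exact_mod_cast h1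
  have h4 : -1 < a := by exact_mod_cast h2
  omega

/-- a point near `T` -/
theorem Reg_T (h0 : 0 < ε) (h2 : 5 * ε < ρ) (h3 : ρ ≤ 1 / 8) {s q : ℝ} (hs : 0 < s) (hs' : s < 5)
    (r : ℂ) : Reg ρ (ε * s * ex q) r := by
  have hn : ‖((ε * s * ex q : ℂ))‖ = ε * s := by
    rw [norm_mul, norm_mul, ex_norm, Complex.norm_real, Complex.norm_real, Real.norm_eq_abs,
      Real.norm_eq_abs, abs_of_pos h0, abs_of_pos hs, mul_one]
  have hlt : ε * s < 5 * ε := by nlinarith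
  have hpos : 0 < ε * s := mul_pos h0 hs
  refine ⟨Or.inl ?_, ?_, ?_⟩
  · show ‖fr (ε * s * ex q : ℂ)‖ < ρ
    rw [fr_self' (by rw [hn]; linarith), hn]
    linarith
  · intro hm
    have := GI_norm_lt hm (by rw [hn]; linarith)
    rw [this, norm_zero] at hn
    linarith
  · rintro ⟨-, a, ha⟩
    refine LSG_half ?_ a ha
    refine lt_of_le_of_lt (Complex.abs_re_le_norm _) ?_
    rw [hn]
    linarith

/-- a point near `K`, not on `T` and not on the surgered circle -/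
theorem Reg_K (h0 : 0 < ε) (h2 : 5 * ε < ρ) (h3 : ρ ≤ 1 / 8) {p r : ℂ} (hr : ‖r‖ < 5 * ε)
    (hp : |p.re| < 1 / 2) (hp' : ∀ n : ℤ, p ≠ n * I) : Reg ρ p r := by
  have _ := h0
  refine ⟨Or.inr ?_, ?_, ?_⟩
  · show ‖fr r‖ < ρ
    rw [fr_self' (by linarith)]
    linarith
  · intro hm
    obtain ⟨⟨a, ha⟩, ⟨b, hb⟩⟩ := mem_GI.1 hm
    have ha' : |(a : ℝ)| < 1 / 2 := by rw [← ha]; exact hp
    have ha0 : a = 0 := by
      have h5 : |(a : ℝ)| < 1 := by linarith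
      have h6 : |a| < 1 := by exact_mod_cast h5
      exact Int.abs_lt_one_iff.1 h6
    refine hp' b ?_
    apply Complex.ext
    · rw [ha, ha0]; simp
    · rw [hb]; simp
  · rintro ⟨-, a, ha⟩
    exact LSG_half hp a ha

theorem LSG_S2 (Y : S2) : ((Y : E3) 0) ^ 2 + ‖yc Y‖ ^ 2 = 1 := by
  have h1 : ‖(Y : E3)‖ = 1 := by
    have := Y.2
    simpa using this
  have h2 : ‖(Y : E3)‖ ^ 2 = ((Y : E3) 0) ^ 2 + ((Y : E3) 1) ^ 2 + ((Y : E3) 2) ^ 2 := by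
    rw [EuclideanSpace.norm_sq_eq, Fin.sum_univ_three]
    simp only [Real.norm_eq_abs, sq_abs]
  rw [h1] at h2
  have h3 : ‖yc Y‖ ^ 2 = ((Y : E3) 1) ^ 2 + ((Y : E3) 2) ^ 2 := by
    rw [Complex.sq_norm, Complex.normSq_apply]
    simp [yc]
    ring
  rw [h3]
  linarith

/-- a point of the boundary of the surgery tube -/
theorem Reg_C (h0 : 0 < ε) (h1 : ε ≤ 1 / 1000) (h2 : 5 * ε < ρ) (h3 : ρ ≤ 1 / 8) (Y : S2) {s t : ℝ}
    (hs : 0 < s) (hs' : s < 1) (c : ℂ) (hc : ‖c‖ = 1) :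
    Reg ρ ((1 / 2 + ε * s * (Y : E3) 0 : ℝ) + (t : ℝ) * I) (ε * s * c * yc Y) := by
  have hS := LSG_S2 Y
  have hy0 : |(Y : E3) 0| ≤ 1 := by
    rw [← sq_le_one_iff_abs_le_one]
    nlinarith [sq_nonneg ‖yc Y‖]
  have hyc : ‖yc Y‖ ≤ 1 := by
    have := norm_nonneg (yc Y)
    nlinarith [sq_nonneg ((Y : E3) 0)]
  have hpos : 0 < ε * s := mul_pos h0 hs
  have hlt : ε * s < ε := by nlinarith
  have hn : ‖((ε * s * c * yc Y : ℂ))‖ = ε * s * ‖yc Y‖ := by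
    rw [norm_mul, norm_mul, norm_mul, hc, Complex.norm_real, Complex.norm_real, Real.norm_eq_abs,
      Real.norm_eq_abs, abs_of_pos h0, abs_of_pos hs, mul_one]
  have hn' : ε * s * ‖yc Y‖ < ε := by nlinarith [norm_nonneg (yc Y)]
  have hre : (((1 / 2 + ε * s * (Y : E3) 0 : ℝ) : ℂ) + (t : ℝ) * I).re = 1 / 2 + ε * s * (Y : E3) 0 := by
    simp
  have hb : |ε * s * (Y : E3) 0| < 1 / 1000 := by
    rw [abs_mul, abs_of_pos hpos]
    nlinarith [abs_nonneg ((Y : E3) 0)]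
  rw [abs_lt] at hb
  refine ⟨Or.inr ?_, ?_, ?_⟩
  · show ‖fr (ε * s * c * yc Y : ℂ)‖ < ρ
    rw [fr_self' (by rw [hn]; linarith), hn]
    linarith
  · intro hm
    obtain ⟨⟨a, ha⟩, -⟩ := mem_GI.1 hm
    rw [hre] at ha
    have h5 : (0 : ℝ) < a := by linarith [hb.1]
    have h6 : (a : ℝ) < 1 := by linarith [hb.2]
    have h7 : 0 < a := by exact_mod_cast h5
    have h8 : a < 1 := by exact_mod_cast h6
    omega
  · rintro ⟨hm, a, ha⟩
    rw [hre] at ha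
    have h5 := GI_norm_lt hm (by rw [hn]; linarith)
    rw [h5, norm_zero] at hn
    have h6 : ‖yc Y‖ = 0 := by
      rcases mul_eq_zero.1 hn.symm with h | h
      · exact absurd h hpos.ne'
      · exact h
    rw [h6] at hS
    have h7 : (ε * s * (Y : E3) 0) ^ 2 = (ε * s) ^ 2 := by
      have : ((Y : E3) 0) ^ 2 = 1 := by linarith
      rw [mul_pow, this, mul_one]
    have h8 : ε * s * (Y : E3) 0 = a := by linarith
    rw [h8] at hb h7
    have h9 : (-1 : ℝ) < a := by linarith [hb.1]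
    have h10 : (a : ℝ) < 1 := by linarith [hb.2]
    have h11 : -1 < a := by exact_mod_cast h9
    have h12 : a < 1 := by exact_mod_cast h10
    have h13 : a = 0 := by omega
    rw [h13] at h7
    have h14 : 0 < (ε * s) ^ 2 := by positivity
    rw [← h7] at h14
    norm_num at h14

end Pool.Agent.TS
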