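import Pool.Agent.TS.SphM
import Pool.Agent.TS.TrM
import Pool.Agent.TS.LSG

/-!
# TS/JbM: the band charts `jKb`, `jTb`
`jKb L = L.jK ∘ (bS × id)` (`bS_ld`, `prod_ld_S2`, `jK_loc`).  `jKb_G`: `glueK` with `bS_zero`, `bS_yc`.
`jKb_TrS`: with `(σ₁, ζ₁) = TrS (σ, ζ)`, `ζ = s ex t`, `s₁ = ‖ζ₁‖`: `s₁/√(1+σ₁^2) = s` (`sqrt_TrS`),
`ε s₁ σ₁/√(1+σ₁^2) = ε s σ/NN = 1/2 - yy ε (σ s / MZ)`.
`jTb L (q, σ, Z) = L.jT (q + e twc Z, yy ε σ, Z)`.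
-/

open scoped Manifold ContDiff Topology
open Complex (I)
open Set Filter

namespace Pool.Agent.TS
open Pool.Agent.CSG

variable {X : Type*} [TopologicalSpace X] [ChartedSpace E4 X] {ε ρ : ℝ} {k e : ℤ}

theorem jKb_ld (L : LS ε ρ k e X) {a : ℝ × ℝ × ℂ} (h : ‖a.2.2‖ < 1) :
    IsLocalDiffeomorphAt 𝓘(ℝ, ℝ × ℝ × ℂ) (𝓡 4) ∞ (jKb L) a := by
  obtain ⟨q, σ, ζ⟩ := a
  have h1 : IsLocalDiffeomorphAt 𝓘(ℝ, ℝ × ℝ × ℂ) 𝓘(ℝ, (ℝ × ℝ) × ℂ) ∞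
      (fun a : ℝ × ℝ × ℂ => ((a.1, a.2.1), a.2.2)) (q, σ, ζ) :=
    ld_of_perm (f := (Equiv.prodAssoc ℝ ℝ ℂ).symm)
      (by
        show ContDiff ℝ ∞ fun a : ℝ × ℝ × ℂ => ((a.1, a.2.1), a.2.2)
        fun_prop)
      (by
        show ContDiff ℝ ∞ fun a : (ℝ × ℝ) × ℂ => (a.1.1, a.1.2, a.2)
        fun_prop) (q, σ, ζ)
  have h2 := prod_ld_S2 (bS_ld (q, σ)) ζ
  have h3 := L.jK_loc (bS (q, σ)) ζ h
  have h4 := IsLocalDiffeomorphAt.comp (hf := h1) (hg := h2) ..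
  exact IsLocalDiffeomorphAt.comp (hf := h4) (hg := h3) ..

theorem jKb_per (L : LS ε ρ k e X) (q : ℝ) (a : ℝ × ℂ) (n : ℤ) : jKb L (q + n, a) = jKb L (q, a) := by
  unfold jKb
  simp only
  rw [bS_per]

theorem jKb_inj (L : LS ε ρ k e X) {q q' σ σ' : ℝ} {ζ ζ' : ℂ} (h : ‖ζ‖ < 1) (h' : ‖ζ'‖ < 1)
    (he : jKb L (q, σ, ζ) = jKb L (q', σ', ζ')) : (∃ n : ℤ, q' = q + n) ∧ σ' = σ ∧ ζ' = ζ := by
  obtain ⟨h1, h2⟩ := L.jK_inj _ _ _ _ h h' he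
  obtain ⟨h3, h4⟩ := bS_inj h1
  exact ⟨h3, h4, h2.symm⟩

theorem jKb_G (L : LS ε ρ k e X) (q σ t : ℝ) {s : ℝ} (hs : 0 < s) (hs' : s < 1) :
    jKb L (q, σ, s * ex t) =
      L.G ((1 / 2 - ε * s * σ / √(1 + σ ^ 2) : ℝ) + (t : ℝ) * I,
        ε * (s / √(1 + σ ^ 2) : ℝ) * ex (q + k * thc t)) := by
  show L.jK (bS (q, σ), s * ex t) = _
  rw [L.glueK _ _ _ hs hs', bS_zero, bS_yc]
  congr 1
  refine Prod.ext ?_ ?_
  · simp only
    congr 2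
    ring
  · simp only
    rw [ex_add]
    push_cast
    ring

theorem jKb_TrS (L : LS ε ρ k e X) (q σ t : ℝ) {s : ℝ} (hs : 0 < s)
    (h : ‖(TrS (σ, (s : ℂ) * ex t)).2‖ < 1) :
    jKb L (q, TrS (σ, (s : ℂ) * ex t)) =
      L.G ((yy ε (σ * s / MZ (s : ℂ)) : ℝ) + (t : ℝ) * I, ε * s * ex (q + k * thc t)) := by
  have hns : ‖(s : ℂ) * ex t‖ = s := by
    rw [norm_mul, ex_norm, mul_one, Complex.norm_real, Real.norm_of_nonneg hs.le]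
  have hM : MZ ((s : ℂ) * ex t) = MZ (s : ℂ) := by
    apply MZ_norm
    rw [hns, Complex.norm_real, Real.norm_of_nonneg hs.le]
  have hMp := MZ_pos (s : ℂ)
  have hN := NN_pos σ ((s : ℂ) * ex t)
  have hN2 : NN σ ((s : ℂ) * ex t) ^ 2 = s ^ 2 * σ ^ 2 + MZ (s : ℂ) ^ 2 := by
    rw [← hM]
    unfold NN
    rw [Real.sq_sqrt (by positivity), hns]
  have hq := sqrt_TrS (σ, (s : ℂ) * ex t)
  set N := NN σ ((s : ℂ) * ex t) with hNd
  set R := √(σ ^ 2 + N ^ 2) with hR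
  have hRp : 0 < R := Real.sqrt_pos.2 (by positivity)
  have e1 : TrS (σ, (s : ℂ) * ex t) = (σ / N, ((R / N * s : ℝ) : ℂ) * ex t) := by
    refine Prod.ext rfl ?_
    show ((R / N : ℝ) : ℂ) * ((s : ℂ) * ex t) = _
    push_cast
    ring
  rw [e1] at h hq ⊢
  simp only at hq
  have hs1 : 0 < R / N * s := by positivity
  simp only at h
  rw [norm_mul, ex_norm, mul_one, Complex.norm_real, Real.norm_of_nonneg hs1.le] at h
  rw [jKb_G L q (σ / N) t hs1 h]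
  have hq' : √(1 + (σ / N) ^ 2) = R / N := hq
  have hy : yy ε (σ * s / MZ (s : ℂ)) = 1 / 2 - ε * s * σ / N := by
    unfold yy
    have : 1 + (σ * s / MZ (s : ℂ)) ^ 2 = (N / MZ (s : ℂ)) ^ 2 := by
      rw [div_pow, div_pow, hN2]
      field_simp
      ring
    rw [this, Real.sqrt_sq (by positivity)]
    field_simp
  rw [hq', hy]
  congr 1
  refine Prod.ext ?_ ?_
  · simp only
    congr 3
    field_simp
  · simp only
    congr 3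
    field_simp

/-- the hemisphere chart in band coordinates -/
theorem fP_eq_jKb (L : LS ε ρ k e X) {sg : ℝ} (hs : sg ^ 2 = 1) {x : ℝ} (hx : 0 < x) (q : ℝ) (ζ : ℂ) :
    fP L sg (x * ex q, ζ) = jKb L (q, sg / x, ζ) := by
  unfold fP jKb
  simp only
  rw [hS_eq_bS hs hx]

theorem jTb_ld (h0 : 0 < ε) (L : LS ε ρ k e X) {a : ℝ × ℝ × ℂ} (h : ‖a.2.2‖ < 5) :
    IsLocalDiffeomorphAt 𝓘(ℝ, ℝ × ℝ × ℂ) (𝓡 4) ∞ (jTb L) a := by
  obtain ⟨q, σ, Z⟩ := a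
  have h1 : IsLocalDiffeomorphAt 𝓘(ℝ, ℝ × ℝ × ℂ) 𝓘(ℝ, ℝ × ℝ × ℂ) ∞
      (fun a : ℝ × ℝ × ℂ => (a.1 + e * twc a.2.2, yy ε a.2.1, a.2.2)) (q, σ, Z) := by
    refine ld_of_leftInv rfl
      (g := fun b => (b.1 - e * twc b.2.2, sgm ((1 / 2 - b.2.1) / ε), b.2.2))
      (Eventually.of_forall fun b => ?_) ?_ (Eventually.of_forall fun b => ?_)
    · refine ContDiff.contDiffAt ?_
      have h2 : ContDiff ℝ ∞ fun a : ℝ × ℝ × ℂ => twc a.2.2 :=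
        twc_smooth.comp (contDiff_snd.comp contDiff_snd)
      have h3 : ContDiff ℝ ∞ fun a : ℝ × ℝ × ℂ => yy ε a.2.1 :=
        (yy_smooth ε).comp (contDiff_fst.comp contDiff_snd)
      exact (contDiff_fst.add (contDiff_const.mul h2)).prodMk
        (h3.prodMk (contDiff_snd.comp contDiff_snd))
    · have hlt : |(1 / 2 - yy ε σ) / ε| < 1 := by
        rw [abs_div, abs_of_pos h0, div_lt_one h0, abs_sub_comm]
        exact yy_lt h0 σ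
      have h2 : ContDiff ℝ ∞ fun a : ℝ × ℝ × ℂ => twc a.2.2 :=
        twc_smooth.comp (contDiff_snd.comp contDiff_snd)
      have h3 : DifferentiableAt ℝ (fun b : ℝ × ℝ × ℂ => (1 / 2 - b.2.1) / ε)
          (q + e * twc Z, yy ε σ, Z) := by fun_prop
      have h4 : DifferentiableAt ℝ sgm
          ((fun b : ℝ × ℝ × ℂ => (1 / 2 - b.2.1) / ε) (q + e * twc Z, yy ε σ, Z)) :=
        (sgm_smoothAt hlt).differentiableAt (by simp)
      have h5 := DifferentiableAt.comp (g := sgm) (q + e * twc Z, yy ε σ, Z) h4 h3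
      have h6 : DifferentiableAt ℝ (fun b : ℝ × ℝ × ℂ => b.1 - e * twc b.2.2)
          (q + e * twc Z, yy ε σ, Z) :=
        ((contDiff_fst.sub (contDiff_const.mul h2)).differentiable (by simp)).differentiableAt
      exact h6.prodMk (h5.prodMk (by fun_prop))
    · obtain ⟨b1, b2, b3⟩ := b
      simp only
      rw [yy_inv h0, add_sub_cancel_right]
  have h3 := L.jT_loc (q + e * twc Z) (yy ε σ) Z h
  exact IsLocalDiffeomorphAt.comp (hf := h1) (hg := h3) ..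

theorem jTb_per (L : LS ε ρ k e X) (q : ℝ) (a : ℝ × ℂ) (n : ℤ) : jTb L (q + n, a) = jTb L (q, a) := by
  unfold jTb
  simp only
  have := L.jT_per (q + e * twc a.2) (yy ε a.1) a.2 n 0
  rw [Int.cast_zero, add_zero] at this
  rw [← this]
  congr 2
  ring

theorem jTb_inj (h0 : 0 < ε) (h1 : ε ≤ 1 / 1000) (L : LS ε ρ k e X) {q q' σ σ' : ℝ} {Z Z' : ℂ}
    (h : ‖Z‖ < 5) (h' : ‖Z'‖ < 5) (he : jTb L (q, σ, Z) = jTb L (q', σ', Z')) :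
    (∃ n : ℤ, q' = q + n) ∧ σ' = σ ∧ Z' = Z := by
  obtain ⟨⟨a, ha⟩, ⟨b, hb⟩, hZ⟩ := L.jT_inj _ _ _ _ _ _ h h' he
  refine ⟨⟨a, ?_⟩, ?_, hZ⟩
  · rw [hZ] at ha
    linarith
  · have h2 := abs_lt.1 (yy_lt h0 σ)
    have h3 := abs_lt.1 (yy_lt h0 σ')
    have h4 : (b : ℝ) < 1 := by linarith [h2.1, h3.2]
    have h5 : (-1 : ℝ) < b := by linarith [h2.2, h3.1]
    have h6 : b < 1 := by exact_mod_cast h4
    have h7 : -1 < b := by exact_mod_cast h5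
    have h8 : b = 0 := by omega
    rw [h8, Int.cast_zero, add_zero] at hb
    exact yy_inj h0 hb

theorem jTb_G (L : LS ε ρ k e X) (q σ u : ℝ) {s : ℝ} (hs : 0 < s) (hs' : s < 5) :
    jTb L (q, σ, s * ex u) =
      L.G (ε * s * ex (q + e * twc (s * ex u) + e * u), (yy ε σ : ℝ) + (u : ℝ) * I) := by
  unfold jTb
  exact L.glueT _ _ _ _ hs hs'

end Pool.Agent.TS
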