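import Pool.Agent.TS.LSG
import Pool.Agent.TS.TwM
import Pool.Agent.TS.OmTM
import Pool.Agent.TS.OmCM
import Pool.Agent.TS.JbM

/-!
# TS/PerM: periodicity of the ball coordinates and of `GB`
`zK (p + n i) r = zK p r` (`ex`), `qK` changes by the integer `- k n`, etc. (`OmT_per`, `jKb_per`, `thc_add_int`,
`OmC_per`).  `GB L F (p, r) = GB₀ L F (fr p) (fr r)`; if `‖r‖ < 3 ε` then `fr r = r`; if `|p.re| < 1/2` then
`fr p = p - n i`.  `L.G (p - n i, r) = L.G (p, r)` (`(p, r) ∈ Wd ρ`).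
For `c = ± 1/2`: if `|p.re - c| < 1/4` then `dl ε (fr p).re = (c - p.re) / ε`.
-/

open scoped Manifold ContDiff Topology
open Complex (I)
open Set Filter

namespace Pool.Agent.TS
open Pool.Agent.CSG

variable {X : Type*} [TopologicalSpace X] [ChartedSpace E4 X] {ε ρ : ℝ} {k e : ℤ}

theorem PerM_ex (x : ℝ) (n : ℤ) : ex (x + n) = ex x := by
  rw [ex_add, ex_int, mul_one]

theorem PerM_im (p : ℂ) (n : ℤ) : (p + n * I).im = p.im + n := by simp

theorem PerM_re (p : ℂ) (n : ℤ) : (p + n * I).re = p.re := by simp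

/-- dependence on `p` through `p.im` modulo 1 only -/
theorem PerM_zK (ε : ℝ) {p p' : ℂ} (r : ℂ) {n : ℤ} (h : p'.im = p.im + n) :
    zK ε p' r = zK ε p r := by
  rw [zK, zK, h, PerM_ex]

theorem PerM_qK (ε : ℝ) (k : ℤ) {p p' : ℂ} (r : ℂ) {n : ℤ} (h : p'.im = p.im + n) :
    qK ε k p' r = qK ε k p r - k * n := by
  rw [qK, qK, PerM_zK ε r h, h]
  ring

theorem PerM_zT (ε : ℝ) (p : ℂ) {r r' : ℂ} {n : ℤ} (h : r'.im = r.im + n) :
    zT ε p r' = zT ε p r := by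
  rw [zT, zT, h, PerM_ex]

theorem PerM_qT (e : ℤ) (p : ℂ) {r r' : ℂ} {n : ℤ} (h : r'.im = r.im + n) :
    qT e p r' = qT e p r - e * n := by
  rw [qT, qT, h, thc_add_int]
  ring

theorem zK_per (ε : ℝ) (p r : ℂ) (n : ℤ) : zK ε (p + n * I) r = zK ε p r :=
  PerM_zK ε r (PerM_im p n)

theorem qK_per (ε : ℝ) (k : ℤ) (p r : ℂ) (n : ℤ) : qK ε k (p + n * I) r = qK ε k p r - k * n :=
  PerM_qK ε k r (PerM_im p n)

theorem bK_per (ε : ℝ) (k : ℤ) (p r : ℂ) (n : ℤ) : bK ε k (p + n * I) r = bK ε k p r := by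
  rw [bK, bK, qK_per, zK_per, PerM_re]
  have h := OmT_per (ε := ε) (qK ε k p r) (nsi ε p.re) (zK ε p r) (-(k * n))
  have h2 : qK ε k p r + ((-(k * n) : ℤ) : ℝ) = qK ε k p r - k * n := by push_cast; ring
  rw [h2] at h
  rw [h]

theorem InK_per (ε : ℝ) (p r : ℂ) (n : ℤ) : InK ε (p + n * I) r ↔ InK ε p r := by
  rw [InK, InK, zK_per, PerM_re]

theorem zT_per (ε : ℝ) (p r : ℂ) (n : ℤ) : zT ε p (r + n * I) = zT ε p r :=
  PerM_zT ε p (PerM_im r n)

theorem qT_per (e : ℤ) (p r : ℂ) (n : ℤ) : qT e p (r + n * I) = qT e p r - e * n :=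
  PerM_qT e p (PerM_im r n)

theorem nT_per (ε : ℝ) (e : ℤ) (p r : ℂ) (n : ℤ) : nT ε e p (r + n * I) = nT ε e p r := by
  rw [nT, nT, PerM_im, PerM_re, thc_add_int]
  have h2 : -((e : ℝ) * (thc r.im + n)) = -(e * thc r.im) + ((-(e * n) : ℤ) : ℝ) := by
    push_cast; ring
  rw [h2, PerM_ex]

theorem bT_per (ε : ℝ) (e : ℤ) (p r : ℂ) (n : ℤ) : bT ε e p (r + n * I) = bT ε e p r := by
  rw [bT, bT, nT_per, PerM_im, PerM_re]
  have h := OmC_per (ε := ε) ((nsi ε r.re : ℂ) + r.im * I) (nT ε e p r) n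
  have h2 : (nsi ε r.re : ℂ) + ((r.im + n : ℝ) : ℂ) * I = (nsi ε r.re : ℂ) + r.im * I + n * I := by
    push_cast; ring
  rw [h2, h]

theorem InT_per (ε : ℝ) (p r : ℂ) (n : ℤ) : InT ε p (r + n * I) ↔ InT ε p r := by
  rw [InT, InT, PerM_re]

theorem GB_add (L : LS ε ρ k e X) (F : ℂ × ℂ → X) {p r a b : ℂ} (ha : a ∈ GI) (hb : b ∈ GI) :
    GB L F (p + a, r + b) = GB L F (p, r) := by
  simp only [GB, fr_add ha, fr_add hb]

/-- if `|Re p| < 1/2`, then `fr p` is a vertical translate of `p` -/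
theorem PerM_fr {p : ℂ} (hp : |p.re| < 1 / 2) : fr p = p + (-(round p.im) : ℤ) * I := by
  have h := abs_lt.1 hp
  apply Complex.ext
  · rw [PerM_re, fr_re, rd_self h.1.le h.2]
    simp
  · rw [PerM_im, fr_im]
    push_cast
    ring

theorem PerM_oK (h0 : 0 < ε) (h2 : 5 * ε < ρ) (h3 : ρ ≤ 1 / 8) (L : LS ε ρ k e X)
    {p r : ℂ} (hr : ‖r‖ < 3 * ε) (n : ℤ) : oK L (p + n * I) r = oK L p r := by
  rw [oK, oK]
  split_ifs with h
  · rw [qK_per, zK_per, PerM_re]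
    have h1 := jKb_per L (qK ε k p r) (TrS (sgm (dl ε p.re), zK ε p r)) (-(k * n))
    have h4 : qK ε k p r + ((-(k * n) : ℤ) : ℝ) = qK ε k p r - k * n := by push_cast; ring
    rw [h4] at h1
    rw [h1]
  · have hW : (p, r) ∈ Wd ρ := by
      right
      show ‖fr r‖ < ρ
      rw [fr_self' (by linarith)]
      linarith
    have hn : (n : ℂ) * I ∈ GI := by
      have := GI_mk 0 n
      simpa using this
    have h1 := L.G_per p r (n * I) 0 hW hn GI_zero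
    rw [add_zero] at h1
    exact h1

theorem PerM_oT (h0 : 0 < ε) (h2 : 5 * ε < ρ) (h3 : ρ ≤ 1 / 8) (L : LS ε ρ k e X)
    {p r : ℂ} (hp : ‖p‖ < 3 * ε) (n : ℤ) : oT L p (r + n * I) = oT L p r := by
  rw [oT, oT]
  split_ifs with h
  · rw [qT_per, zT_per, PerM_re]
    have h1 := jTb_per L (qT e p r) (sgm (dl ε r.re) * MZ (zT ε p r) / ‖zT ε p r‖, zT ε p r)
      (-(e * n))
    have h4 : qT e p r + ((-(e * n) : ℤ) : ℝ) = qT e p r - e * n := by push_cast; ring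
    rw [h4] at h1
    rw [h1]
  · have hW : (p, r) ∈ Wd ρ := by
      left
      show ‖fr p‖ < ρ
      rw [fr_self' (by linarith)]
      linarith
    have hn : (n : ℂ) * I ∈ GI := by
      have := GI_mk 0 n
      simpa using this
    have h1 := L.G_per p r 0 (n * I) hW GI_zero hn
    rw [add_zero] at h1
    exact h1

open Classical in
theorem GB_eq_K (h0 : 0 < ε) (h2 : 5 * ε < ρ) (h3 : ρ ≤ 1 / 8) (L : LS ε ρ k e X) (F : ℂ × ℂ → X)
    {p r : ℂ} (hr : ‖r‖ < 3 * ε) (hp : |p.re| < 1 / 2) :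
    GB L F (p, r) = if InK ε p r then F (bK ε k p r) else oK L p r := by
  have h1 : fr r = r := fr_self' (by linarith)
  rw [GB, GB₀]
  simp only [h1]
  rw [if_pos hr, PerM_fr hp, bK_per, PerM_oK h0 h2 h3 L hr]
  simp only [InK_per]

open Classical in
theorem GB_eq_T (h0 : 0 < ε) (h2 : 5 * ε < ρ) (h3 : ρ ≤ 1 / 8) (L : LS ε ρ k e X) (F : ℂ × ℂ → X)
    {p r : ℂ} (hr : 3 * ε ≤ ‖fr r‖) (hp : ‖p‖ < 3 * ε) (hr' : |r.re| < 1 / 2) :
    GB L F (p, r) = if InT ε p r then F (bT ε e p r) else oT L p r := by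
  have h1 : fr p = p := fr_self' (by linarith)
  rw [GB, GB₀]
  simp only [h1]
  rw [if_neg (not_lt.2 hr), if_pos hp, PerM_fr hr', bT_per, PerM_oT h0 h2 h3 L hp]
  simp only [InT_per]

/-- the scaled distance to `± 1/2` -/
theorem PerM_dl {z : ℂ} {c : ℝ} (hc : c = 1 / 2 ∨ c = -(1 / 2)) (h : |z.re - c| < 1 / 4) :
    dl ε (fr z).re = (c - z.re) / ε ∧ 1 / 4 < |(fr z).re| := by
  have h' := abs_lt.1 h
  rcases hc with rfl | rfl
  · by_cases h1 : z.re < 1 / 2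
    · have h4 : (fr z).re = z.re := by
        rw [fr_re, rd_self (by linarith) h1]; simp
      rw [h4, dl, if_pos (by linarith)]
      exact ⟨rfl, lt_of_lt_of_le (by linarith) (le_abs_self _)⟩
    · have h5 : round z.re = 1 := by
        rw [round_eq, Int.floor_eq_iff]
        push_cast
        constructor <;> linarith
      have h4 : (fr z).re = z.re - 1 := by
        rw [fr_re, h5]; simp
      rw [h4, dl, if_neg (by linarith)]
      refine ⟨by ring, lt_of_lt_of_le (by linarith) (neg_le_abs _)⟩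
  · by_cases h1 : z.re < -(1 / 2)
    · have h5 : round z.re = -1 := by
        rw [round_eq, Int.floor_eq_iff]
        push_cast
        constructor <;> linarith
      have h4 : (fr z).re = z.re + 1 := by
        rw [fr_re, h5]; simp
      rw [h4, dl, if_pos (by linarith)]
      refine ⟨by ring, lt_of_lt_of_le (by linarith) (le_abs_self _)⟩
    · have h4 : (fr z).re = z.re := by
        rw [fr_re, rd_self (by linarith) (by linarith)]; simp
      rw [h4, dl, if_neg (by linarith)]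
      exact ⟨rfl, lt_of_lt_of_le (by linarith) (neg_le_abs _)⟩

theorem PerM_frim (z : ℂ) : (fr z).im = z.im + (-(round z.im) : ℤ) := by
  rw [fr_im]
  push_cast
  ring

/-- near `Re p = ± 1/2`: outer formula -/
theorem GB_eq_oK (h0 : 0 < ε) (h2 : 5 * ε < ρ) (h3 : ρ ≤ 1 / 8) (L : LS ε ρ k e X) (F : ℂ × ℂ → X)
    {p r : ℂ} (hr : ‖r‖ < ε / 8) {c : ℝ} (hc : c = 1 / 2 ∨ c = -(1 / 2)) (hp : |p.re - c| < 1 / 4)
    (hout : ¬ InK ε (fr p) r) :
    GB L F (p, r) = jKb L (qK ε k p r, TrS (sgm ((c - p.re) / ε), zK ε p r)) := by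
  have h1 : fr r = r := fr_self' (by linarith)
  have hr3 : ‖r‖ < 3 * ε := by linarith
  rw [GB, GB₀]
  simp only [h1]
  rw [if_pos hr3, if_neg (by rw [h1]; exact hout), oK, if_pos hr, (PerM_dl hc hp).1,
    PerM_zK ε r (PerM_frim p), PerM_qK ε k r (PerM_frim p)]
  have h5 := jKb_per L (qK ε k p r) (TrS (sgm ((c - p.re) / ε), zK ε p r)) (-(k * -(round p.im)))
  have h4 : qK ε k p r + ((-(k * -(round p.im)) : ℤ) : ℝ) =
      qK ε k p r - k * ((-(round p.im) : ℤ) : ℝ) := by push_cast; ring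
  rw [h4] at h5
  rw [h5]

theorem GB_eq_oT (h0 : 0 < ε) (h2 : 5 * ε < ρ) (h3 : ρ ≤ 1 / 8) (L : LS ε ρ k e X) (F : ℂ × ℂ → X)
    {p r : ℂ} (hp : ‖p‖ < ε / 8) {c : ℝ} (hc : c = 1 / 2 ∨ c = -(1 / 2)) (hr : |r.re - c| < 1 / 4)
    (hout : ¬ InT ε p (fr r)) :
    GB L F (p, r) = jTb L (qT e p r, sgm ((c - r.re) / ε) * MZ (zT ε p r) / ‖zT ε p r‖, zT ε p r) := by
  have h1 : fr p = p := fr_self' (by linarith)
  have hp3 : ‖p‖ < 3 * ε := by linarith
  have hr3 : ¬ ‖fr r‖ < 3 * ε := by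
    have h5 := (PerM_dl (ε := ε) hc hr).2
    have h6 := Complex.abs_re_le_norm (fr r)
    intro h7
    linarith
  rw [GB, GB₀]
  simp only [h1]
  rw [if_neg hr3, if_pos hp3, if_neg (by rw [h1]; exact hout), oT, if_pos hp, (PerM_dl hc hr).1,
    PerM_zT ε p (PerM_frim r), PerM_qT e p (PerM_frim r)]
  have h5 := jTb_per L (qT e p r) (sgm ((c - r.re) / ε) * MZ (zT ε p r) / ‖zT ε p r‖, zT ε p r)
    (-(e * -(round r.im)))
  have h4 : qT e p r + ((-(e * -(round r.im)) : ℤ) : ℝ) =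
      qT e p r - e * ((-(round r.im) : ℤ) : ℝ) := by push_cast; ring
  rw [h4] at h5
  rw [h5]

/-- plain outer points near `K`, resp. `T` -/
theorem GB_eq_G (h0 : 0 < ε) (h2 : 5 * ε < ρ) (h3 : ρ ≤ 1 / 8) (L : LS ε ρ k e X) (F : ℂ × ℂ → X)
    {p r : ℂ} (hW : (p, r) ∈ Wd ρ)
    (hr : ‖fr r‖ < 3 * ε → ε / 8 ≤ ‖fr r‖ ∧ ¬ InK ε (fr p) (fr r))
    (hp : 3 * ε ≤ ‖fr r‖ → ‖fr p‖ < 3 * ε → ε / 8 ≤ ‖fr p‖ ∧ ¬ InT ε (fr p) (fr r)) :
    GB L F (p, r) = L.G (p, r) := by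
  rw [← G_fr L hW]
  show GB₀ L F (fr p) (fr r) = L.G (fr p, fr r)
  rw [GB₀]
  by_cases h : ‖fr r‖ < 3 * ε
  · rw [if_pos h, if_neg (hr h).2, oK, if_neg (not_lt.2 (hr h).1)]
  · rw [if_neg h]
    by_cases h' : ‖fr p‖ < 3 * ε
    · rw [if_pos h', if_neg (hp (not_lt.1 h) h').2, oT, if_neg (not_lt.2 (hp (not_lt.1 h) h').1)]
    · rw [if_neg h']

end Pool.Agent.TS
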