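import Pool.Agent.TS.OmTM
import Pool.Agent.TS.OmCM

/-!
# TS/TCM: relations between the charts `OmT` and `OmC`, `OmP`
`OmT_eq_OmC`: `aa_norm` (`R = 2`: `kap 2 = 4/3`), `TC`, `aa_st`, `aa_inj` (`st (x ex q)` has first coordinate
`(1 - x^2)/(1 + x^2) < 0`).
`OmT_eq_OmP`: `TC` and `aa_Ep`: `2 x/(x^2-1) < 1/50` and `x ≥ 2` give `x > 10`.
`OmT_corner`: (O1).  `OmT_sw`, `OmT_swP`: (O3) (`nr_E2`, `nr_DD`, `nr_Ep`, `DD_Ep_neg`); `(x : ℂ) * ex q` has norm `x`.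
-/

open scoped Manifold ContDiff Topology
open Complex (I)
open Set Filter

namespace Pool.Agent.TS
open Pool.Agent.CSG

variable {ε : ℝ}

theorem TCM_norm_ex (q : ℝ) : ‖ex q‖ = 1 := by
  rw [ex, Complex.norm_exp]
  simp

theorem TCM_norm {x : ℝ} (hx : 0 ≤ x) (q : ℝ) : ‖(x : ℂ) * ex q‖ = x := by
  rw [norm_mul, TCM_norm_ex, mul_one, Complex.norm_real, Real.norm_eq_abs, abs_of_nonneg hx]

theorem TCM_st_neg {w : ℂ} (h : 1 < ‖w‖) : (st w).1 < 0 := by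
  have h1 : (st w).1 ≤ (1 - ‖w‖ ^ 2) / (1 + ‖w‖ ^ 2) := (st_fst_le (norm_nonneg w) w).2 le_rfl
  have h2 : (1 - ‖w‖ ^ 2) / (1 + ‖w‖ ^ 2) < 0 := by
    apply div_neg_of_neg_of_pos <;> nlinarith
  linarith

theorem OmT_eq_OmC (h0 : 0 < ε) (h1 : ε ≤ 1 / 1000) {q y : ℝ} {Z p ν : ℂ}
    (hp : (E2 ε p).1 ≤ -(3 / 5)) (h : OmT ε (q, y, Z) = OmC ε (p, ν)) :
    2 ≤ nr (X2 ε (y, Z)) ∧ X2 ε (y, Z) = nr (X2 ε (y, Z)) • st ν ∧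
      E2 ε p = st (nr (X2 ε (y, Z)) * ex q) := by
  have hneg : (E2 ε p).1 < 0 := by linarith
  have hk : kap 2 = 4 / 3 := by rw [kap]; norm_num
  have ha : ‖aa (E2 ε p)‖ ≤ 4 / 3 := by
    rw [← hk, aa_norm (nr_E2 h0 h1 p) hneg (by norm_num : (1 : ℝ) < 2)]
    norm_num
    linarith
  obtain ⟨h2, h3, h4⟩ := TC (X := X2 ε (y, Z)) (q := q) ha h.symm
  refine ⟨h2, h3, ?_⟩
  have hw : ‖((nr (X2 ε (y, Z)) : ℝ) : ℂ) * ex q‖ = nr (X2 ε (y, Z)) := TCM_norm (by linarith) q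
  have hw1 : 1 < ‖((nr (X2 ε (y, Z)) : ℝ) : ℂ) * ex q‖ := by rw [hw]; linarith
  apply aa_inj (nr_E2 h0 h1 p) (nr_st _) hneg (TCM_st_neg hw1)
  rw [aa_st hw1, h4, hw]
  push_cast
  ring

theorem OmT_eq_OmP (h0 : 0 < ε) (h1 : ε ≤ 1 / 1000) {sg : ℝ} (hs : sg ^ 2 = 1) {q y : ℝ}
    {Z ν ζ : ℂ} (hζ : ‖ζ‖ < 1 / 4) (h : OmT ε (q, y, Z) = OmP ε sg (ν, ζ)) :
    10 < nr (X2 ε (y, Z)) := by
  have ha := aa_Ep h0 h1 hs (OmCM_norm ν hζ)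
  obtain ⟨h2, -, h4⟩ := TC (X := X2 ε (y, Z)) (q := q) (by linarith) h.symm
  have h5 : 0 < nr (X2 ε (y, Z)) ^ 2 - 1 := by nlinarith
  rw [h4, norm_mul, TCM_norm_ex, mul_one, Complex.norm_real, Real.norm_eq_abs,
    abs_of_pos (by positivity), div_lt_iff₀ h5] at ha
  nlinarith

theorem OmT_corner {q y x : ℝ} {Z p ν : ℂ} (hx : 2 ≤ x) (hX : X2 ε (y, Z) = x • st ν)
    (hE : E2 ε p = st (x * ex q)) : OmT ε (q, y, Z) = OmC ε (p, ν) := by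
  simp only [OmT, OmC, hX, hE]
  exact O1 hx q ν

theorem OmT_sw (h0 : 0 < ε) (h1 : ε ≤ 1 / 1000) {q y x : ℝ} {Z p : ℂ} (hx : 2 ≤ x)
    (hX : X2 ε (y, Z) = x • E2 ε p) (hE : (E2 ε p).1 ≤ -(3 / 5)) :
    OmT ε (q, y, Z) = sw (OmC ε (p, x * ex q)) := by
  simp only [OmT, OmC, hX]
  exact O3 hx q (nr_E2 h0 h1 p) hE

theorem OmT_swP (h0 : 0 < ε) (h1 : ε ≤ 1 / 1000) {sg : ℝ} (hs : sg ^ 2 = 1) {q y x : ℝ}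
    {Z ζ : ℂ} (hx : 2 ≤ x) (hζ : ‖ζ‖ < 1 / 4)
    (hX : X2 ε (y, Z) = x • DD ε (Ep sg (ζ / (√(1 + x ^ 2) : ℂ)))) :
    OmT ε (q, y, Z) = sw (OmP ε sg (x * ex q, ζ)) := by
  have hw : ‖(x : ℂ) * ex q‖ = x := TCM_norm (by linarith) q
  have hz := OmCM_norm ((x : ℂ) * ex q) hζ
  rw [hw] at hz
  simp only [OmT, OmP, hX, hw]
  apply O3 hx q
  · rw [nr_DD h0 h1, nr_Ep hs hz]
  · linarith [DD_Ep_neg h0 h1 hs hz]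

end Pool.Agent.TS
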