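import Pool.Agent.TS.SizeM
import Pool.Agent.TS.APM
import Pool.Agent.TS.JbM
import Pool.Agent.TS.TCM
import Pool.Agent.TS.PerM

/-!
# TS/ConsKM: near `K` the inner formula agrees with the outer formula
Let `s = ‖zK‖ = ‖r‖/ε ∈ (0, 3)`, `x̂ = nsi ε p.re`, `y' = ya s x̂`, `n = nr X2 = s / ww y'` (`X2_nr`),
`X2 = n • E2 ε (y' + i Im p)`, `q = qK`.
`bK_eq` : if `2 ≤ n` and `(E2 ε (y' + i Im p)).1 ≤ -3/5` then `bK = sw (OmT ..) = OmC ε (y' + i Im p, n ex q)`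
(`OmT_sw`, `sw (sw b) = b`).
`fC_out`: `fC L (y' + i t, n ex q) = L.G (ns ε y' + i t, ε s ex (k thc t + q))` (`ww y' n = s`), and this is
`oK L p r`: if `‖r‖ ≥ ε/8`: `y' = x̂`, `ns ε x̂ = p.re`, `q + k thc t = arg r / 2π` modulo `1` (`twc (s ex t) = thc t - t`
modulo `1` for `s ≥ 1/16`), so `= L.G (p, r)`.  If `‖r‖ < ε/8` (`n ≥ 3`): `X2_big`: `|x̂| ≥ 3/10`, `dl_ns`:
`σ := sgm (dl ε p.re) = 1 / sinh (2 π x̂)`, `|dl| < 1`; `jKb_TrS` (`norm_TrS`):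
`oK = L.G (yy ε (σ s/MZ) + i t, ε s ex (q + k thc t))` and `σ s / MZ = 1 / sinh (2 π y')`, `ns_yy`, `ns_yy'` with
`|y'| ≥ 3/10` (`ww_pole`); periodicity (`G_per`).
`ConsK` (`n ≥ 3`): `s < 3` gives `ww y' < 1`, so `|y'| > 1/64` (`ww_small`), `E2_ge` with `c = 497/100`:
`(E2 ..).1 ≤ -15/17`.  So `bK = OmC ε (y' + i t, n ex q)`; not far: `OmC_far` (`R = 4`) gives `n < 4`; `hF.C`.
`ConsK'` : the same when `2 ≤ n < 4` is known and `(E2 ..).1 < -3/5`.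
-/

open scoped Manifold ContDiff Topology
open Complex (I)
open Set Filter

namespace Pool.Agent.TS
open Pool.Agent.CSG

variable {X : Type*} [TopologicalSpace X] [ChartedSpace E4 X] {ε ρ : ℝ} {k e : ℤ}

theorem ConsKM_re (y t : ℝ) : ((y : ℂ) + t * I).re = y := by simp
theorem ConsKM_im (y t : ℝ) : ((y : ℂ) + t * I).im = t := by simp

theorem ConsKM_fC (L : LS ε ρ k e X) (y t : ℝ) (ν : ℂ) :
    fC L ((y : ℂ) + t * I, ν) =
      L.G ((ns ε y : ℂ) + t * I, (ε * ww y : ℝ) * ex (k * thc t) * ν) := by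
  unfold fC
  simp only [ConsKM_re, ConsKM_im]

theorem fC_out (h0 : 0 < ε) (h1 : ε ≤ 1 / 1000) (h2 : 5 * ε < ρ) (h3 : ρ ≤ 1 / 8)
    (L : LS ε ρ k e X) {p r : ℂ} (hr0 : r ≠ 0) (hr : ‖r‖ < 3 * ε) (hp : |p.re| < 1 / 2)
    (hn : 2 ≤ nr (X2 ε (nsi ε p.re, zK ε p r))) (hn' : ‖r‖ < ε / 8 → 3 ≤ nr (X2 ε (nsi ε p.re, zK ε p r))) :
    fC L ((ya (‖r‖ / ε) (nsi ε p.re) : ℂ) + p.im * I,
      nr (X2 ε (nsi ε p.re, zK ε p r)) * ex (qK ε k p r)) = oK L p r := by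
  have hε : (ε : ℂ) ≠ 0 := by exact_mod_cast h0.ne'
  have hrn : 0 < ‖r‖ := norm_pos_iff.2 hr0
  have hs : 0 < ‖r‖ / ε := div_pos hrn h0
  have hX := (X2_nr h0 h1 (y := nsi ε p.re) (u := p.im) hs (by
    have : 1 ≤ nr (X2 ε (nsi ε p.re, zK ε p r)) := by linarith
    exact this)).1
  have hX' : nr (X2 ε (nsi ε p.re, zK ε p r)) =
      ‖r‖ / ε / ww (ya (‖r‖ / ε) (nsi ε p.re)) := hX
  set y' := ya (‖r‖ / ε) (nsi ε p.re) with hy'
  have hw : (ww y' : ℂ) ≠ 0 := by exact_mod_cast (ww_pos _).ne'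
  have hns : ‖(((‖r‖ / ε : ℝ)) : ℂ)‖ = ‖r‖ / ε := by
    rw [Complex.norm_real, Real.norm_eq_abs, abs_of_pos hs]
  have hz : ‖zK ε p r‖ = ‖r‖ / ε := by
    unfold zK
    rw [norm_mul, ex_norm, mul_one, hns]
  rw [ConsKM_fC]
  have e1 : (((ε * ww y' : ℝ)) : ℂ) * ex (k * thc p.im) *
      ((nr (X2 ε (nsi ε p.re, zK ε p r)) : ℝ) * ex (qK ε k p r)) =
      (ε : ℂ) * ((‖r‖ / ε : ℝ) : ℂ) * ex (qK ε k p r + k * thc p.im) := by
    rw [hX', ex_add]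
    push_cast
    field_simp
  rw [e1]
  unfold oK
  by_cases h8 : ‖r‖ < ε / 8
  · rw [if_pos h8]
    have hs7 : ‖r‖ / ε ≤ 1 / 7 := by rw [div_le_iff₀ h0]; linarith
    obtain ⟨hx3, hNN⟩ := X2_big h0 h1 (by rw [hz]; exact hs7) (hn' h8)
    have hd := dl_ns h0 h1 hx3
    rw [ns_nsi h0 h1 hp] at hd
    rw [hd.2]
    set σ := 1 / Real.sinh (2 * Real.pi * nsi ε p.re) with hσ
    have hT := norm_TrS hNN (by rw [hz]; linarith)
    have hJ := jKb_TrS L (qK ε k p r) σ p.im hs (by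
      have : ‖(TrS (σ, zK ε p r)).2‖ < 1 := by linarith
      exact this)
    have hJ' : jKb L (qK ε k p r, TrS (σ, zK ε p r)) =
      L.G ((yy ε (σ * (‖r‖ / ε) / MZ ((‖r‖ / ε : ℝ) : ℂ)) : ℝ) + (p.im : ℝ) * I,
        ε * ((‖r‖ / ε : ℝ) : ℂ) * ex (qK ε k p r + k * thc p.im)) := hJ
    rw [hJ']
    have hsy := sinh_ya hs (nsi ε p.re)
    rw [← hy'] at hsy
    have hM0 := MZ_pos (((‖r‖ / ε : ℝ)) : ℂ)
    obtain ⟨hy3, _⟩ := ww_pole (y := y') hs hs7 (by rw [← hX']; exact hn)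
    have hpi := Real.pi_pos
    have hsinh : Real.sinh (2 * Real.pi * y') ≠ 0 := by
      rw [Ne, Real.sinh_eq_zero]
      intro h
      have : y' = 0 := by
        rcases mul_eq_zero.1 h with h | h
        · linarith
        · exact h
      rw [this] at hy3
      norm_num at hy3
    have hsinh' : Real.sinh (2 * Real.pi * nsi ε p.re) ≠ 0 := by
      intro h
      rw [h, mul_zero] at hsy
      rcases mul_eq_zero.1 hsy with h | h
      · exact hs.ne' h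
      · exact hsinh h
    have e2 : σ * (‖r‖ / ε) / MZ ((‖r‖ / ε : ℝ) : ℂ) = 1 / Real.sinh (2 * Real.pi * y') := by
      rw [hσ, div_mul_eq_mul_div, one_mul, div_div, div_eq_div_iff (by positivity) hsinh, one_mul,
        hsy]
      ring
    rw [e2]
    rcases le_or_gt 0 y' with h4 | h4
    · rw [abs_of_nonneg h4] at hy3
      rw [ns_yy hy3]
    · rw [abs_of_neg h4] at hy3
      rw [ns_yy' (by linarith)]
      have e3 : ((yy ε (1 / Real.sinh (2 * Real.pi * y')) - 1 : ℝ) : ℂ) + (p.im : ℂ) * I =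
          ((yy ε (1 / Real.sinh (2 * Real.pi * y')) : ℝ) : ℂ) + (p.im : ℝ) * I + (-1) := by
        push_cast; ring
      have hm1 : (-1 : ℂ) ∈ GI := ⟨-1, 0, by push_cast; ring⟩
      have hnorm : ‖(ε : ℂ) * ((‖r‖ / ε : ℝ) : ℂ) * ex (qK ε k p r + k * thc p.im)‖ = ‖r‖ := by
        rw [norm_mul, ex_norm, mul_one, norm_mul, hns, Complex.norm_real, Real.norm_eq_abs,
          abs_of_pos h0]
        field_simp
      have hper := L.G_per (((yy ε (1 / Real.sinh (2 * Real.pi * y')) : ℝ) : ℂ) + (p.im : ℝ) * I)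
        ((ε : ℂ) * ((‖r‖ / ε : ℝ) : ℂ) * ex (qK ε k p r + k * thc p.im)) (-1) 0
        (by
          right
          show ‖fr _‖ < ρ
          rw [fr_self' (by rw [hnorm]; linarith), hnorm]
          linarith) hm1 GI_zero
      rw [add_zero] at hper
      rw [← hper, e3]
  · push Not at h8
    rw [if_neg (not_lt.2 h8)]
    have hs8 : 1 / 8 ≤ ‖r‖ / ε := by rw [le_div_iff₀ h0]; linarith
    have hyy : y' = nsi ε p.re := by rw [hy', ya_big hs8]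
    have etw : twc (zK ε p r) = thc p.im - p.im := by
      unfold zK
      exact twc_big (by linarith)
    have eq : qK ε k p r + k * thc p.im = Complex.arg r / (2 * Real.pi) := by
      unfold qK
      rw [etw]
      ring
    have er : (ε : ℂ) * ((‖r‖ / ε : ℝ) : ℂ) = (‖r‖ : ℂ) := by
      push_cast
      field_simp
    rw [eq, er, ex_arg, hyy, ns_nsi h0 h1 hp, Complex.re_add_im]

/-- `E2` in the strict form, far from the corner -/
theorem ConsKM_E2 (h0 : 0 < ε) (h1 : ε ≤ 1 / 1000) {r : ℂ} (hr : |r.re| < 1 / 2)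
    (h : 2 * ε < ‖fr r‖) :
    (E2 ε ((nsi ε r.re : ℂ) + r.im * I)).1 < -(3 / 5) := by
  set c : ℝ := min (‖fr r‖ / ε) (497 / 100) with hc
  have hc2 : 2 < c := by
    rw [hc, lt_min_iff]
    refine ⟨?_, by norm_num⟩
    rw [lt_div_iff₀ h0]
    exact h
  have hc3 : c ≤ 497 / 100 := min_le_right _ _
  have hc4 : c * ε ≤ ‖fr r‖ := by
    have : c ≤ ‖fr r‖ / ε := min_le_left _ _
    rwa [le_div_iff₀ h0] at this
  have key : (E2 ε ((nsi ε r.re : ℂ) + r.im * I)).1 ≤ -((c ^ 2 - 1) / (c ^ 2 + 1)) := by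
    apply E2_ge h0 h1 (by linarith) hc3
    intro n
    have hns := ns_nsi h0 h1 hr
    by_cases hs : |r.re| ≤ 1 / 5
    · have h2 : |nsi ε r.re| ≤ 1 / 5 := ns_abs_small h0 h1 (by rw [hns]; exact hs)
      have h3 : nsi ε r.re = r.re := by
        rw [ns_small h2] at hns
        exact hns
      rw [h3, Complex.re_add_im]
      refine hc4.trans ?_
      have := GI_mk 0 n
      simp only [Int.cast_zero, zero_add] at this
      exact fr_le this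
    · push Not at hs
      have h2 : 1 / 5 < |nsi ε r.re| := by
        by_contra hcon
        push Not at hcon
        rw [ns_small hcon] at hns
        rw [hns] at hcon
        linarith
      have h3 := Complex.abs_re_le_norm ((nsi ε r.re : ℂ) + r.im * I - n * I)
      have h4 : ((nsi ε r.re : ℂ) + r.im * I - n * I).re = nsi ε r.re := by simp
      rw [h4] at h3
      nlinarith
  refine lt_of_le_of_lt key ?_
  rw [neg_lt_neg_iff, lt_div_iff₀ (by positivity)]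
  nlinarith

theorem ConsKM_b (h0 : 0 < ε) (h1 : ε ≤ 1 / 1000) {p r : ℂ} (hr0 : r ≠ 0)
    (hn : 2 ≤ nr (X2 ε (nsi ε p.re, zK ε p r)))
    (hE : (E2 ε ((ya (‖r‖ / ε) (nsi ε p.re) : ℂ) + p.im * I)).1 ≤ -(3 / 5)) :
    bK ε k p r = OmC ε ((ya (‖r‖ / ε) (nsi ε p.re) : ℂ) + p.im * I,
      nr (X2 ε (nsi ε p.re, zK ε p r)) * ex (qK ε k p r)) := by
  have hrn : 0 < ‖r‖ := norm_pos_iff.2 hr0
  have hs : 0 < ‖r‖ / ε := div_pos hrn h0
  have hX := X2_nr h0 h1 (y := nsi ε p.re) (u := p.im) hs (by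
    have : 1 ≤ nr (X2 ε (nsi ε p.re, zK ε p r)) := by linarith
    exact this)
  have hX1 : nr (X2 ε (nsi ε p.re, zK ε p r)) =
      ‖r‖ / ε / ww (ya (‖r‖ / ε) (nsi ε p.re)) := hX.1
  have hX2 : X2 ε (nsi ε p.re, zK ε p r) =
      (‖r‖ / ε / ww (ya (‖r‖ / ε) (nsi ε p.re))) •
        E2 ε ((ya (‖r‖ / ε) (nsi ε p.re) : ℂ) + p.im * I) := hX.2
  rw [← hX1] at hX2
  have h2 := OmT_sw h0 h1 (q := qK ε k p r) hn hX2 hE
  unfold bK
  rw [h2]
  rfl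

theorem ConsK (h0 : 0 < ε) (h1 : ε ≤ 1 / 1000) (h2 : 5 * ε < ρ) (h3 : ρ ≤ 1 / 8)
    {L : LS ε ρ k e X} {F : ℂ × ℂ → X} (hF : IsF L F) {p r : ℂ} (hr0 : r ≠ 0) (hr : ‖r‖ < 3 * ε)
    (hp : |p.re| < 1 / 2) (hn : 3 ≤ nr (X2 ε (nsi ε p.re, zK ε p r)))
    (hb : ¬ Far 4 (bK ε k p r)) : F (bK ε k p r) = oK L p r := by
  have hrn : 0 < ‖r‖ := norm_pos_iff.2 hr0
  have hs : 0 < ‖r‖ / ε := div_pos hrn h0
  have hs3 : ‖r‖ / ε < 3 := by rw [div_lt_iff₀ h0]; linarith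
  have hX := (X2_nr h0 h1 (y := nsi ε p.re) (u := p.im) hs (by
    have : 1 ≤ nr (X2 ε (nsi ε p.re, zK ε p r)) := by linarith
    exact this)).1
  have hX1 : nr (X2 ε (nsi ε p.re, zK ε p r)) =
      ‖r‖ / ε / ww (ya (‖r‖ / ε) (nsi ε p.re)) := hX
  have hn3 := hn
  rw [hX1] at hn3
  have hw := ww_pos (ya (‖r‖ / ε) (nsi ε p.re))
  have hw1 : ww (ya (‖r‖ / ε) (nsi ε p.re)) < 1 := by
    rw [le_div_iff₀ hw] at hn3
    linarith
  have hy64 : 1 / 64 < |ya (‖r‖ / ε) (nsi ε p.re)| := by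
    by_contra hcon
    push Not at hcon
    rw [ww_small hcon] at hw1
    exact lt_irrefl _ hw1
  have hE1 : (E2 ε ((ya (‖r‖ / ε) (nsi ε p.re) : ℂ) + p.im * I)).1 ≤
      -(((497 / 100 : ℝ) ^ 2 - 1) / ((497 / 100 : ℝ) ^ 2 + 1)) := by
    apply E2_ge h0 h1 (by norm_num) le_rfl
    intro n
    have h4 := Complex.abs_re_le_norm ((ya (‖r‖ / ε) (nsi ε p.re) : ℂ) + p.im * I - n * I)
    have h5 : ((ya (‖r‖ / ε) (nsi ε p.re) : ℂ) + p.im * I - n * I).re =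
      ya (‖r‖ / ε) (nsi ε p.re) := by simp
    rw [h5] at h4
    nlinarith
  have hE2 : (E2 ε ((ya (‖r‖ / ε) (nsi ε p.re) : ℂ) + p.im * I)).1 ≤ -(15 / 17) :=
    hE1.trans (by norm_num)
  have hbe := ConsKM_b (k := k) h0 h1 (p := p) hr0 (by linarith) (by linarith)
  have hnorm : ‖((nr (X2 ε (nsi ε p.re, zK ε p r)) : ℝ) : ℂ) * ex (qK ε k p r)‖ =
      nr (X2 ε (nsi ε p.re, zK ε p r)) := by
    rw [norm_mul, ex_norm, mul_one, Complex.norm_real, Real.norm_eq_abs, abs_of_nonneg (by linarith)]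
  have hn4 : nr (X2 ε (nsi ε p.re, zK ε p r)) < 4 := by
    by_contra hcon
    push Not at hcon
    apply hb
    rw [hbe, OmC_far h0 h1 (by norm_num) _ (by linarith), hnorm]
    exact ⟨hcon, hE2.trans (by norm_num)⟩
  rw [hbe, hF.C _ _ (by rw [hnorm]; exact hn4) (by linarith)]
  exact fC_out h0 h1 h2 h3 L hr0 hr hp (by linarith) (fun _ => hn)

theorem ConsK' (h0 : 0 < ε) (h1 : ε ≤ 1 / 1000) (h2 : 5 * ε < ρ) (h3 : ρ ≤ 1 / 8)
    {L : LS ε ρ k e X} {F : ℂ × ℂ → X} (hF : IsF L F) {p r : ℂ} (hr : 2 * ε < ‖r‖)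
    (hr' : ‖r‖ < 3 * ε) (hp : |p.re| < 1 / 2) (hn : nr (X2 ε (nsi ε p.re, zK ε p r)) < 4)
    (hp' : 2 * ε < ‖fr p‖) : F (bK ε k p r) = L.G (p, r) := by
  have hr0 : r ≠ 0 := by
    rintro rfl
    rw [norm_zero] at hr
    linarith
  have hs2 : 2 < ‖r‖ / ε := by rw [lt_div_iff₀ h0]; linarith
  have hX := (X2_nr' h0 h1 (y := nsi ε p.re) (u := p.im) (s := ‖r‖ / ε) (by linarith)).1
  have hX1 : nr (X2 ε (nsi ε p.re, zK ε p r)) = ‖r‖ / ε / ww (nsi ε p.re) := hX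
  have hw := ww_pos (nsi ε p.re)
  have hw1 := ww_le_one (nsi ε p.re)
  have hn2 : 2 ≤ nr (X2 ε (nsi ε p.re, zK ε p r)) := by
    rw [hX1, le_div_iff₀ hw]
    nlinarith
  have hya : ya (‖r‖ / ε) (nsi ε p.re) = nsi ε p.re := ya_big (by linarith) _
  have hE := ConsKM_E2 h0 h1 hp hp'
  have hbe := ConsKM_b (k := k) h0 h1 (p := p) hr0 hn2 (by rw [hya]; exact hE.le)
  have hnorm : ‖((nr (X2 ε (nsi ε p.re, zK ε p r)) : ℝ) : ℂ) * ex (qK ε k p r)‖ =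
      nr (X2 ε (nsi ε p.re, zK ε p r)) := by
    rw [norm_mul, ex_norm, mul_one, Complex.norm_real, Real.norm_eq_abs, abs_of_nonneg (by linarith)]
  rw [hbe, hF.C _ _ (by rw [hnorm]; exact hn) (by rw [hya]; exact hE),
    fC_out h0 h1 h2 h3 L hr0 hr' hp hn2 (fun h => by exfalso; linarith)]
  unfold oK
  rw [if_neg (by linarith)]

/-- near `K` the new coordinate map is `F ∘ bK` as long as this is defined -/
theorem GB_K (h0 : 0 < ε) (h1 : ε ≤ 1 / 1000) (h2 : 5 * ε < ρ) (h3 : ρ ≤ 1 / 8)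
    {L : LS ε ρ k e X} {F : ℂ × ℂ → X} (hF : IsF L F) {p r : ℂ} (hr0 : r ≠ 0) (hr : ‖r‖ < 3 * ε)
    (hp : |p.re| < 1 / 2) (hb : ¬ Far 4 (bK ε k p r)) : GB L F (p, r) = F (bK ε k p r) := by
  classical
  rw [GB_eq_K h0 h2 h3 L F hr hp]
  by_cases hin : InK ε p r
  · rw [if_pos hin]
  · rw [if_neg hin]
    have hn : 3 ≤ nr (X2 ε (nsi ε p.re, zK ε p r)) := by
      by_contra hcon
      exact hin ⟨hp, not_le.1 hcon⟩
    exact (ConsK h0 h1 h2 h3 hF hr0 hr hp hn hb).symm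

end Pool.Agent.TS
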