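import Pool.Agent.TS.SizeM
import Pool.Agent.TS.ATM
import Pool.Agent.TS.JbM
import Pool.Agent.TS.TCM
import Pool.Agent.TS.PerM

/-!
# TS/ConsTM: near `T` the inner formula agrees with the outer formula
Let `s = ‖p‖/ε`, `Z = zT ε p r = s ex (Im r)`, `ŷ = nsi ε r.re`, `n = s / ww ŷ = ‖nT‖`, `q = qT e p r`:
`nT ε e p r = n ex q`.  Let `y'` be the solution of `MZ sinh (2 π y') = s sinh (2 π ŷ)`
(`y' = arsinh (s / MZ sinh (2 π ŷ)) / 2π`; `y' = ŷ` if `s ≥ 1/8`).  `X2_polar` (with `y := y'`, `y' := ŷ`): if `n ≥ 1`: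
`X2 ε (y', Z) = n • E2 ε (ŷ + i Im r)`.  `OmT_sw` (`n ≥ 2`, `(E2 ..).1 ≤ -3/5`): `OmT ε (q, y', Z) = bT ε e p r`.
`hF.T` (`n < 4`): `F (bT) = fT L (q, y', Z)`.
This is `oT L p r`: if `s ≥ 1/8`, `fT_G'`: `L.G (ε s ex (q + e thc Im r), ns ε ŷ + i Im r) = L.G (p, r)`; if `s < 1/8`
(`n ≥ 3`): `ww_pole`: `|ŷ| ≥ 3/10`, `dl_ns`: `sgm (dl ε r.re) = 1 / sinh (2 π ŷ)`; `(MZ sinh (2 π y'))^2 = s^2 sinh^2 (2 π ŷ)
= n^2 - s^2 ≥ 8`, `MZ ≤ 3/20`, so `|y'| ≥ 3/10`, `fT_jTb` and `1 / sinh (2 π y') = sgm (dl ..) MZ / s`.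
`ConsT` (`n ≥ 3`, i.e. `3 ε ww ŷ ≤ ‖p‖`): `s < 3` gives `ww ŷ < 1`, `|ŷ| > 1/64`, `E2_ge` (`c = 497/100`), so not far
(`OmC_far`, `far_sw`) gives `n < 4`.
`ConsT'`: `2 < s < 3` and `n < 4` known, `‖fr r‖ ≥ 3 ε` gives `(E2 ..).1 ≤ -4/5` (`E2_ge`; `|Re ŷ|` large if `ŷ ≠ r.re`).
`GB_T`: `GB_eq_T` and `ConsT`.
-/

open scoped Manifold ContDiff Topology
open Complex (I)
open Set Filter

namespace Pool.Agent.TS
open Pool.Agent.CSG

variable {X : Type*} [TopologicalSpace X] [ChartedSpace E4 X] {ε ρ : ℝ} {k e : ℤ}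

theorem ConsTM_re (y t : ℝ) : ((y : ℂ) + t * I).re = y := by simp
theorem ConsTM_im (y t : ℝ) : ((y : ℂ) + t * I).im = t := by simp

/-- far from the corner -/
theorem E2_T (h0 : 0 < ε) (h1 : ε ≤ 1 / 1000) {r : ℂ} (hr : |r.re| < 1 / 2) {c : ℝ} (hc : 0 < c)
    (hc' : c ≤ 497 / 100) (h : c * ε ≤ ‖fr r‖) :
    (E2 ε ((nsi ε r.re : ℂ) + r.im * I)).1 ≤ -((c ^ 2 - 1) / (c ^ 2 + 1)) := by
  apply E2_ge h0 h1 hc hc'
  intro n
  have hns := ns_nsi h0 h1 hr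
  by_cases hs : |r.re| ≤ 1 / 5
  · have h2 : |nsi ε r.re| ≤ 1 / 5 := ns_abs_small h0 h1 (by rw [hns]; exact hs)
    have h3 : nsi ε r.re = r.re := by
      rw [ns_small h2] at hns
      exact hns
    rw [h3, Complex.re_add_im]
    refine h.trans ?_
    have := GI_mk 0 n
    simp only [Int.cast_zero, zero_add] at this
    exact fr_le this
  · push Not at hs
    have h2 : 1 / 5 < |nsi ε r.re| := by
      by_contra hcon
      push Not at hcon
      rw [ns_small hcon] at hns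
      rw [hns] at hcon
      linarith
    have h3 := Complex.abs_re_le_norm ((nsi ε r.re : ℂ) + r.im * I - n * I)
    have h4 : ((nsi ε r.re : ℂ) + r.im * I - n * I).re = nsi ε r.re := by simp
    rw [h4] at h3
    nlinarith

theorem ConsTM_nT (h0 : 0 < ε) (p r : ℂ) :
    nT ε e p r = ((‖p‖ / ε / ww (nsi ε r.re) : ℝ) : ℂ) * ex (qT e p r) := by
  have hp := ex_arg p
  have hw : (ww (nsi ε r.re) : ℂ) ≠ 0 := by exact_mod_cast (ww_pos _).ne'
  have hε : (ε : ℂ) ≠ 0 := by exact_mod_cast h0.ne'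
  have key : p * ex (-(e * thc r.im)) =
      (‖p‖ : ℂ) * (ex (Complex.arg p / (2 * Real.pi)) * ex (-(e * thc r.im))) := by
    rw [← mul_assoc, hp]
  unfold nT qT
  rw [key, sub_eq_add_neg, ex_add]
  push_cast
  field_simp

theorem ConsTM_ex (h0 : 0 < ε) (p r : ℂ) :
    (ε : ℂ) * ((‖p‖ / ε : ℝ) : ℂ) * ex (qT e p r + e * thc r.im) = p := by
  have hε : (ε : ℂ) ≠ 0 := by exact_mod_cast h0.ne'
  have e1 : qT e p r + e * thc r.im = Complex.arg p / (2 * Real.pi) := by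
    unfold qT
    ring
  rw [e1]
  have e2 : (ε : ℂ) * ((‖p‖ / ε : ℝ) : ℂ) = (‖p‖ : ℂ) := by
    push_cast
    field_simp
  rw [e2]
  exact ex_arg p

theorem ConsTM_core (h0 : 0 < ε) (h1 : ε ≤ 1 / 1000) {L : LS ε ρ k e X} {F : ℂ × ℂ → X}
    (hF : IsF L F) {p r : ℂ} (hp : 0 < ‖p‖) (hr : |r.re| < 1 / 2)
    (hn2 : 2 ≤ ‖p‖ / ε / ww (nsi ε r.re)) (hn4 : ‖p‖ / ε / ww (nsi ε r.re) < 4)
    (hE : (E2 ε ((nsi ε r.re : ℂ) + r.im * I)).1 ≤ -(3 / 5)) {y' : ℝ}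
    (hy : MZ (((‖p‖ / ε : ℝ)) : ℂ) * Real.sinh (2 * Real.pi * y') =
      ‖p‖ / ε * Real.sinh (2 * Real.pi * nsi ε r.re)) :
    F (bT ε e p r) = fT L (qT e p r, y', zT ε p r) := by
  have hs : 0 < ‖p‖ / ε := div_pos hp h0
  have hX := X2_polar h0 h1 (u := r.im) hs hy (by linarith)
  have hnr : nr (X2 ε (y', ((‖p‖ / ε : ℝ) : ℂ) * ex r.im)) = ‖p‖ / ε / ww (nsi ε r.re) := by
    rw [hX, nr_smul (by linarith), nr_E2 h0 h1, mul_one]
  have h2 := OmT_sw h0 h1 (q := qT e p r) hn2 hX hE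
  have h3 := hF.T (qT e p r) y' (((‖p‖ / ε : ℝ) : ℂ) * ex r.im) (by rw [hnr]; exact hn4)
  unfold bT
  rw [ConsTM_nT h0, ← h2, h3]
  rfl

theorem ConsTM_G (h0 : 0 < ε) (h1 : ε ≤ 1 / 1000) {L : LS ε ρ k e X} {F : ℂ × ℂ → X}
    (hF : IsF L F) {p r : ℂ} (hp : ε / 8 ≤ ‖p‖) (hp' : ‖p‖ < 3 * ε) (hr : |r.re| < 1 / 2)
    (hn2 : 2 ≤ ‖p‖ / ε / ww (nsi ε r.re)) (hn4 : ‖p‖ / ε / ww (nsi ε r.re) < 4)
    (hE : (E2 ε ((nsi ε r.re : ℂ) + r.im * I)).1 ≤ -(3 / 5)) :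
    F (bT ε e p r) = L.G (p, r) := by
  have hp0 : 0 < ‖p‖ := by linarith
  have hs : 1 / 8 ≤ ‖p‖ / ε := by rw [le_div_iff₀ h0]; linarith
  have hs' : ‖p‖ / ε < 5 := by rw [div_lt_iff₀ h0]; linarith
  have hns : ‖(((‖p‖ / ε : ℝ)) : ℂ)‖ = ‖p‖ / ε := by
    rw [Complex.norm_real, Real.norm_eq_abs, abs_of_pos (by linarith)]
  have hM : MZ (((‖p‖ / ε : ℝ)) : ℂ) = ‖p‖ / ε := by
    rw [MZ_big (by rw [hns]; exact hs), hns]
  rw [ConsTM_core h0 h1 hF hp0 hr hn2 hn4 hE (y' := nsi ε r.re) (by rw [hM])]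
  unfold zT
  rw [fT_G' L _ _ _ (by linarith) hs', ConsTM_ex h0, ns_nsi h0 h1 hr, Complex.re_add_im]

theorem ConsT (h0 : 0 < ε) (h1 : ε ≤ 1 / 1000) (h2 : 5 * ε < ρ) (h3 : ρ ≤ 1 / 8)
    {L : LS ε ρ k e X} {F : ℂ × ℂ → X} (hF : IsF L F) {p r : ℂ} (hp : ‖p‖ < 3 * ε)
    (hr : |r.re| < 1 / 2) (hn : 3 * ε * ww (nsi ε r.re) ≤ ‖p‖)
    (hb : ¬ Far 4 (bT ε e p r)) : F (bT ε e p r) = oT L p r := by
  have hw := ww_pos (nsi ε r.re)
  have hp0 : 0 < ‖p‖ := lt_of_lt_of_le (by positivity) hn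
  have hs : 0 < ‖p‖ / ε := div_pos hp0 h0
  have hs3 : ‖p‖ / ε < 3 := by rw [div_lt_iff₀ h0]; linarith
  have hn3 : 3 ≤ ‖p‖ / ε / ww (nsi ε r.re) := by
    rw [le_div_iff₀ hw, le_div_iff₀ h0]
    linarith
  have hw1 : ww (nsi ε r.re) < 1 := by
    have : ww (nsi ε r.re) * 3 ≤ ‖p‖ / ε := by
      rw [le_div_iff₀ h0]; linarith
    linarith
  have hy64 : 1 / 64 < |nsi ε r.re| := by
    by_contra hcon
    push Not at hcon
    rw [ww_small hcon] at hw1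
    exact lt_irrefl _ hw1
  have hE1 : (E2 ε ((nsi ε r.re : ℂ) + r.im * I)).1 ≤
      -(((497 / 100 : ℝ) ^ 2 - 1) / ((497 / 100 : ℝ) ^ 2 + 1)) := by
    apply E2_ge h0 h1 (by norm_num) le_rfl
    intro n
    have h4 := Complex.abs_re_le_norm ((nsi ε r.re : ℂ) + r.im * I - n * I)
    have h5 : ((nsi ε r.re : ℂ) + r.im * I - n * I).re = nsi ε r.re := by simp
    rw [h5] at h4
    nlinarith
  have hE2 : (E2 ε ((nsi ε r.re : ℂ) + r.im * I)).1 ≤ -(15 / 17) := hE1.trans (by norm_num)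
  have hn4 : ‖p‖ / ε / ww (nsi ε r.re) < 4 := by
    by_contra hcon
    push Not at hcon
    apply hb
    unfold bT
    rw [far_sw, OmC_far h0 h1 (by norm_num) _ (by linarith), ConsTM_nT h0, norm_mul, ex_norm,
      mul_one, Complex.norm_real, Real.norm_eq_abs, abs_of_pos (by positivity)]
    exact ⟨hcon, hE2.trans (by norm_num)⟩
  by_cases h8 : ‖p‖ < ε / 8
  · -- near the pole
    have hs7 : ‖p‖ / ε ≤ 1 / 7 := by rw [div_le_iff₀ h0]; linarith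
    obtain ⟨hy3, hwy⟩ := ww_pole hs hs7 (by linarith)
    have hd := dl_ns h0 h1 hy3
    rw [ns_nsi h0 h1 hr] at hd
    have hns : ‖(((‖p‖ / ε : ℝ)) : ℂ)‖ = ‖p‖ / ε := by
      rw [Complex.norm_real, Real.norm_eq_abs, abs_of_pos hs]
    have hM0 := MZ_pos (((‖p‖ / ε : ℝ)) : ℂ)
    have hM1 : MZ (((‖p‖ / ε : ℝ)) : ℂ) ≤ 3 / 20 := MZ_le (by
      rw [hns, div_le_iff₀ h0]; linarith)
    set M := MZ (((‖p‖ / ε : ℝ)) : ℂ) with hM
    set s := ‖p‖ / ε with hsd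
    set y := nsi ε r.re with hyd
    set y' : ℝ := Real.arsinh (s / M * Real.sinh (2 * Real.pi * y)) / (2 * Real.pi) with hy'
    have hpi := Real.pi_pos
    have e1 : 2 * Real.pi * y' = Real.arsinh (s / M * Real.sinh (2 * Real.pi * y)) := by
      rw [hy']; field_simp
    have e2 : M * Real.sinh (2 * Real.pi * y') = s * Real.sinh (2 * Real.pi * y) := by
      rw [e1, Real.sinh_arsinh]; field_simp
    have hsinh0 : Real.sinh (2 * Real.pi * y) ≠ 0 := by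
      rw [Ne, Real.sinh_eq_zero]
      intro h
      have : y = 0 := by
        rcases mul_eq_zero.1 h with h | h
        · linarith
        · exact h
      rw [this] at hy64
      norm_num at hy64
    have hcosh := Real.cosh_sq (2 * Real.pi * y)
    have hn9 : 9 ≤ (s * Real.cosh (2 * Real.pi * y)) ^ 2 := by
      have : s / ww y = s * Real.cosh (2 * Real.pi * y) := by
        rw [hwy]; unfold sech; rw [div_inv_eq_mul]
      rw [this] at hn3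
      nlinarith
    have hy'3 : 3 / 10 ≤ |y'| := by
      by_contra hcon
      push Not at hcon
      have h5 : |Real.sinh (2 * Real.pi * y')| ≤ 10 := by
        rw [Real.abs_sinh]
        have h6 : |2 * Real.pi * y'| ≤ 2 := by
          rw [abs_mul, abs_of_pos (by positivity : (0:ℝ) < 2 * Real.pi)]
          have := Real.pi_lt_d2
          nlinarith [abs_nonneg y']
        have h7 : Real.sinh |2 * Real.pi * y'| ≤ Real.exp 2 := by
          have e3 := Real.sinh_lt_cosh |2 * Real.pi * y'|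
          have e4 := Real.cosh_add_sinh |2 * Real.pi * y'|
          have e5 := Real.exp_le_exp.2 h6
          have e6 : 0 ≤ Real.sinh |2 * Real.pi * y'| := Real.sinh_nonneg_iff.2 (abs_nonneg _)
          linarith [Real.cosh_pos |2 * Real.pi * y'|]
        have h8 : Real.exp 2 ≤ 10 := by
          have e7 := Real.exp_one_lt_d9
          have e8 : Real.exp 2 = Real.exp 1 * Real.exp 1 := by rw [← Real.exp_add]; norm_num
          rw [e8]
          nlinarith [Real.exp_pos 1]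
        linarith
      have h9 : (M * Real.sinh (2 * Real.pi * y')) ^ 2 ≤ 9 / 4 := by
        have : |M * Real.sinh (2 * Real.pi * y')| ≤ 3 / 2 := by
          rw [abs_mul, abs_of_pos hM0]
          nlinarith [abs_nonneg (Real.sinh (2 * Real.pi * y'))]
        rw [← sq_abs]
        nlinarith [abs_nonneg (M * Real.sinh (2 * Real.pi * y'))]
      rw [e2] at h9
      have h10 : (s * Real.cosh (2 * Real.pi * y)) ^ 2 =
          (s * Real.sinh (2 * Real.pi * y)) ^ 2 + s ^ 2 := by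
        rw [mul_pow, mul_pow, hcosh]; ring
      have h11 : s ^ 2 ≤ 1 := by nlinarith
      linarith
    rw [ConsTM_core h0 h1 hF hp0 hr (by linarith) hn4 (by linarith) (y' := y') e2,
      fT_jTb L _ _ hy'3]
    unfold oT
    rw [if_pos h8, hd.2]
    have hz : ‖zT ε p r‖ = s := by
      unfold zT
      rw [norm_mul, ex_norm, mul_one, hns]
    have hMz : MZ (zT ε p r) = M := by
      rw [hM]
      apply MZ_norm
      rw [hz, hns]
    rw [hz, hMz]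
    congr 3
    have hsinh0' : Real.sinh (2 * Real.pi * y') ≠ 0 := by
      intro h
      rw [h, mul_zero] at e2
      rcases mul_eq_zero.1 e2.symm with h | h
      · exact hs.ne' h
      · exact hsinh0 h
    rw [eq_div_iff hs.ne', one_div, one_div, inv_mul_eq_div, inv_mul_eq_div,
      div_eq_div_iff hsinh0' hsinh0]
    linarith
  · push Not at h8
    rw [ConsTM_G h0 h1 hF h8 hp hr (by linarith) hn4 (by linarith)]
    unfold oT
    rw [if_neg (not_lt.2 h8)]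

theorem ConsT' (h0 : 0 < ε) (h1 : ε ≤ 1 / 1000) (h2 : 5 * ε < ρ) (h3 : ρ ≤ 1 / 8)
    {L : LS ε ρ k e X} {F : ℂ × ℂ → X} (hF : IsF L F) {p r : ℂ} (hp : ‖p‖ < 3 * ε)
    (hp' : 2 * ε < ‖p‖) (hr : |r.re| < 1 / 2) (hr' : 3 * ε ≤ ‖fr r‖)
    (hn : ‖p‖ < 4 * ε * ww (nsi ε r.re)) : F (bT ε e p r) = L.G (p, r) := by
  have hw := ww_pos (nsi ε r.re)
  have hw1 := ww_le_one (nsi ε r.re)
  have hE := E2_T h0 h1 hr (c := 3) (by norm_num) (by norm_num) hr'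
  have hE' : (E2 ε ((nsi ε r.re : ℂ) + r.im * I)).1 ≤ -(3 / 5) := hE.trans (by norm_num)
  have h2' : 2 ≤ ‖p‖ / ε / ww (nsi ε r.re) := by
    rw [le_div_iff₀ hw, le_div_iff₀ h0]
    nlinarith
  have h4' : ‖p‖ / ε / ww (nsi ε r.re) < 4 := by
    rw [div_lt_iff₀ hw, div_lt_iff₀ h0]
    nlinarith
  exact ConsTM_G h0 h1 hF (by linarith) hp hr h2' h4' hE'

/-- near `T` the new coordinate map is `F ∘ bT` as long as this is defined -/
theorem GB_T (h0 : 0 < ε) (h1 : ε ≤ 1 / 1000) (h2 : 5 * ε < ρ) (h3 : ρ ≤ 1 / 8)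
    {L : LS ε ρ k e X} {F : ℂ × ℂ → X} (hF : IsF L F) {p r : ℂ} (hr' : 3 * ε ≤ ‖fr r‖)
    (hp : ‖p‖ < 3 * ε) (hr : |r.re| < 1 / 2) (hb : ¬ Far 4 (bT ε e p r)) :
    GB L F (p, r) = F (bT ε e p r) := by
  classical
  rw [GB_eq_T h0 h2 h3 L F hr' hp hr]
  by_cases hin : InT ε p r
  · rw [if_pos hin]
  · rw [if_neg hin]
    have hn : 3 * ε * ww (nsi ε r.re) ≤ ‖p‖ := by
      by_contra hcon
      exact hin ⟨hr, not_le.1 hcon⟩
    exact (ConsT h0 h1 h2 h3 hF hp hr hn hb).symm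

end Pool.Agent.TS
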