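import Pool.Agent.TS.OutDef
import Pool.Agent.TS.CcM
import Pool.Agent.TS.ConsKM
import Pool.Agent.TS.ConsTM

/-!
# TS/OutGM: the value at an outer point of the new structure is an outer regular point of the old structure
`(p, r)` reduced, `RegB ρ p r` (so `r ≠ 0` and not (`p = 0` and `r.re = -1/2`)), not `InB`.
(1) `‖r‖ < 3 ε`, `ε/8 ≤ ‖r‖`: value `L.G (p, r)`, `(P, R) = (p, r)`.  `p ≠ 0`: otherwise `nr X2 ≤ ‖zK‖ < 3`
(`nr_X2_zero`), `InK`.  First clause: `|p.re| < 1/2`, `nr X2 ≥ 3`, `= ‖zK‖ / ww` (`X2_nr`, `ya_big`).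
Second clause vacuous: `‖p‖ < 3 ε` gives `nsi = p.re`, `ww = 1`, `nr X2 = ‖zK‖ < 3` or `nr X2 < 1`: `InK`.
(2) `‖r‖ < ε/8`: `s = ‖r‖/ε`, `σ = sgm (dl ε p.re)`; value `jKb L (qK, TrS (σ, zK)) = L.G (P, R)`,
`P = yy ε (σ s/MZ) + i p.im`, `R = ε s ex (qK + k thc p.im)` (`jKb_TrS`, `norm_TrS`, `X2_big`, `dl_ns`; for
`p.re = -1/2` `σ = 0`).  `‖fr R‖ = ‖R‖ = ‖r‖`.  First clause: `|(fr P).re| < 1/2` means `σ ≠ 0`; with
`y' = nsi ε (fr P).re`: `1 / sinh (2 π y') = σ s / MZ` (`ns_yy`, `ns_yy'`, injectivity of `ns`), i.e. `y' = ya s (nsi ε p.re)`,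
and `nr X2 = s / ww y' ≥ 3`.  Second clause: `‖fr P‖ ≥ 1/4`.
(3) `‖r‖ ≥ 3 ε`, `‖p‖ < 3 ε`, `ε/8 ≤ ‖p‖`: value `L.G (p, r)`; first clause vacuous; second:
`nr X2 ε (ŷ, zT) = ‖zT‖ / ww ŷ` if `≥ 1` (`X2_nr`, `ya_big`; here `‖zT‖/ww ≥ 3`, use `X2_polar`).
(4) `‖p‖ < ε/8`: `s = ‖p‖/ε > 0`; value `jTb L (qT, σ', zT) = L.G (P, R)`, `σ' = σ MZ/s`, `P = ε s ex (..)`,
`R = yy ε σ' + i r.im` (`jTb_G`).  First clause: `‖fr R‖ ≥ 1/4`.  Second: `y' = nsi ε (fr R).re`,
`1 / sinh (2 π y') = σ'`, `zT (fr P) (fr R) = zT p r`; `X2_polar`: `nr X2 = s / ww ŷ ≥ 3`, `ŷ = nsi ε r.re`.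
(5) otherwise value `L.G (p, r)`, both clauses vacuous.
The last conclusion: the point stays within `3 ε`.
-/

open scoped Manifold ContDiff Topology
open Complex (I)
open Set Filter

namespace Pool.Agent.TS
open Pool.Agent.CSG

variable {X : Type*} [TopologicalSpace X] [ChartedSpace E4 X] {ε ρ : ℝ} {k e : ℤ}

theorem OutGM_fr_re {z : ℂ} {x : ℝ} (n : ℤ) (h : z.re = x + n) (hx : |x| < 1 / 2) :
    (fr z).re = x := by
  have hx' := abs_lt.1 hx
  rw [fr_re, h, round_add_intCast, rd_self hx'.1.le hx'.2]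
  push_cast
  ring

theorem OutGM_half {z : ℂ} {ε : ℝ} (h : |z.re - 1 / 2| < ε) : 1 / 2 - ε < |(fr z).re| := by
  rw [fr_re]
  have h' := abs_lt.1 h
  rcases le_or_gt (round z.re) 0 with hm | hm
  · have : (round z.re : ℝ) ≤ 0 := by exact_mod_cast hm
    have h3 := le_abs_self (z.re - round z.re)
    linarith
  · have : (1 : ℝ) ≤ (round z.re : ℝ) := by exact_mod_cast hm
    have h3 := neg_abs_le (z.re - round z.re)
    linarith

theorem OutGM_half' (h1 : ε ≤ 1 / 1000) {z : ℂ} (h : |z.re - 1 / 2| < ε) : ¬ ‖fr z‖ < 3 * ε := by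
  intro h2
  have h3 := OutGM_half h
  have h4 := Complex.abs_re_le_norm (fr z)
  linarith

theorem OutGM_notGI (h1 : ε ≤ 1 / 1000) {z : ℂ} (h : |z.re - 1 / 2| < ε) : z ∉ GI := by
  intro h2
  have h3 := OutGM_half h
  rw [fr_eq_zero.2 h2] at h3
  simp at h3
  linarith

theorem OutGM_nsi (h0 : 0 < ε) (h1 : ε ≤ 1 / 1000) {z : ℂ} {y : ℝ} (hy : 3 / 10 ≤ |y|)
    (hz : z.re = yy ε (1 / Real.sinh (2 * Real.pi * y))) :
    (fr z).re = ns ε y ∧ nsi ε (fr z).re = y := by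
  have h2 : (fr z).re = ns ε y := by
    rcases le_abs.1 hy with h | h
    · exact OutGM_fr_re 0 (by rw [hz, ns_yy h]; simp) (ns_lt h0 h1 y)
    · exact OutGM_fr_re 1 (by rw [hz, ns_yy' (by linarith)]; simp) (ns_lt h0 h1 y)
  exact ⟨h2, by rw [h2, nsi_ns h0 h1]⟩

theorem OutGM_sgm0 : sgm 0 = 0 := by simp [sgm]

theorem OutGM_yy0 : yy ε 0 = 1 / 2 := by simp [yy]

theorem OutGM_dl {x : ℝ} (h : x = -(1 / 2)) : sgm (dl ε x) = 0 := by
  have : dl ε x = 0 := by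
    rw [dl, if_neg (by linarith), h]
    simp
  rw [this, OutGM_sgm0]

theorem OutGM_halfcase {z : ℂ} (hz : fr z = z) : |z.re| < 1 / 2 ∨ z.re = -(1 / 2) := by
  have h := fr_re_mem z
  rw [hz] at h
  rcases eq_or_lt_of_le h.1 with h2 | h2
  · exact Or.inr h2.symm
  · exact Or.inl (abs_lt.2 ⟨h2, h.2⟩)

theorem OutGM_norm (h0 : 0 < ε) {s : ℝ} (hs : 0 ≤ s) (q : ℝ) : ‖(ε : ℂ) * s * ex q‖ = ε * s := by
  rw [norm_mul, norm_mul, ex_norm, mul_one, Complex.norm_real, Complex.norm_real,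
    Real.norm_of_nonneg h0.le, Real.norm_of_nonneg hs]

theorem OutGM_K (h0 : 0 < ε) (h1 : ε ≤ 1 / 1000) (h2 : 5 * ε < ρ) (h3 : ρ ≤ 1 / 8)
    (L : LS ε ρ k e X) {p r : ℂ} (hp : fr p = p) (hr0 : r ≠ 0) (hrs : ‖r‖ < ε / 8)
    (hin : ¬ InK ε p r) :
    ∃ P R, Reg ρ P R ∧ OutA ε P R ∧ oK L p r = L.G (P, R) ∧ ‖fr R‖ < 3 * ε := by
  have hrpos : 0 < ‖r‖ := norm_pos_iff.2 hr0
  obtain ⟨s, hs⟩ : ∃ s : ℝ, s = ‖r‖ / ε := ⟨_, rfl⟩
  have hs0 : 0 < s := by rw [hs]; positivity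
  have hs8 : s < 1 / 8 := by rw [hs, div_lt_iff₀ h0]; linarith
  have hrs' : ‖r‖ = ε * s := by rw [hs]; field_simp
  have hzK : zK ε p r = (s : ℂ) * ex p.im := by rw [zK, ← hs]
  have hzn : ‖zK ε p r‖ = s := by
    rw [hzK, norm_mul, ex_norm, mul_one, Complex.norm_real, Real.norm_of_nonneg hs0.le]
  -- the basic bound
  have key : 3 * |sgm (dl ε p.re)| ≤ NN (sgm (dl ε p.re)) (zK ε p r) ∧
      (|p.re| < 1 / 2 → 3 ≤ nr (X2 ε (nsi ε p.re, zK ε p r)) ∧
        sgm (dl ε p.re) = 1 / Real.sinh (2 * Real.pi * nsi ε p.re)) := by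
    rcases OutGM_halfcase hp with h | h
    · have h5 : 3 ≤ nr (X2 ε (nsi ε p.re, zK ε p r)) := by
        by_contra hc
        exact hin ⟨h, not_le.1 hc⟩
      have h6 := X2_big h0 h1 (by rw [hzn]; linarith) h5
      have h7 := dl_ns h0 h1 h6.1
      rw [ns_nsi h0 h1 h] at h7
      rw [h7.2]
      exact ⟨h6.2, fun _ => ⟨h5, rfl⟩⟩
    · rw [OutGM_dl h]
      refine ⟨?_, fun h' => ?_⟩
      · rw [abs_zero, mul_zero]
        exact (NN_pos _ _).le
      · rw [h, abs_neg, abs_of_pos (by norm_num)] at h'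
        exact absurd h' (lt_irrefl _)
  obtain ⟨key1, key2⟩ := key
  have hT : ‖(TrS (sgm (dl ε p.re), zK ε p r)).2‖ < 1 := by
    have := norm_TrS key1 (by rw [hzn]; linarith)
    linarith
  obtain ⟨σ, hσ⟩ : ∃ σ, σ = sgm (dl ε p.re) := ⟨_, rfl⟩
  rw [← hσ] at hT key2
  obtain ⟨σ', hσ'⟩ : ∃ σ', σ' = σ * s / MZ (s : ℂ) := ⟨_, rfl⟩
  have hval : oK L p r = L.G ((yy ε σ' : ℝ) + (p.im : ℝ) * I,
      ε * s * ex (qK ε k p r + k * thc p.im)) := by
    rw [oK, if_pos hrs, ← hσ, hσ', hzK]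
    rw [hzK] at hT
    exact jKb_TrS L _ _ _ hs0 hT
  have hRn : ‖(ε : ℂ) * s * ex (qK ε k p r + k * thc p.im)‖ = ε * s := OutGM_norm h0 hs0.le _
  have hRs : ε * s < ε / 8 := by rw [← hrs']; exact hrs
  have hRpos : 0 < ε * s := by positivity
  have hfrR : fr ((ε : ℂ) * s * ex (qK ε k p r + k * thc p.im)) =
      (ε : ℂ) * s * ex (qK ε k p r + k * thc p.im) := fr_self' (by rw [hRn]; linarith)
  have hPre : ((yy ε σ' : ℝ) + (p.im : ℝ) * I : ℂ).re = yy ε σ' := by simp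
  have hyy := yy_lt h0 σ'
  rw [← hPre] at hyy
  refine ⟨_, _, ⟨Or.inr ?_, OutGM_notGI h1 hyy, ?_⟩, ⟨fun _ hlt => ?_, fun h => ?_⟩, hval, ?_⟩
  · show ‖fr _‖ < ρ
    rw [hfrR, hRn]
    linarith
  · rintro ⟨h, -⟩
    have := GI_norm_lt h (by rw [hRn]; linarith)
    rw [this, norm_zero] at hRn
    linarith
  · rw [hfrR, hRn]
    have hσ0 : σ' ≠ 0 := by
      rintro h
      have h5 : (fr ((yy ε σ' : ℝ) + (p.im : ℝ) * I : ℂ)).re = -(1 / 2) := by
        rw [fr_re, hPre, h, OutGM_yy0]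
        have : round (1 / 2 : ℝ) = 1 := by
          rw [round_eq]; norm_num
        rw [this]; norm_num
      rw [h5, abs_neg, abs_of_pos (by norm_num)] at hlt
      exact absurd hlt (lt_irrefl _)
    have hσ1 : σ ≠ 0 := by
      rintro h
      exact hσ0 (by rw [hσ', h]; simp)
    have hpre : |p.re| < 1 / 2 := by
      rcases OutGM_halfcase hp with h | h
      · exact h
      · exact absurd (by rw [hσ, OutGM_dl h]) hσ1
    obtain ⟨h5, h6⟩ := key2 hpre
    rw [hzK] at h5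
    have h7 := (X2_nr h0 h1 hs0 (by linarith)).1
    obtain ⟨y', hy'⟩ : ∃ y', y' = ya s (nsi ε p.re) := ⟨_, rfl⟩
    have h8 := sinh_ya hs0 (nsi ε p.re)
    rw [← hy'] at h7 h8
    rw [h7] at h5
    have h9 := ww_pole hs0 (by linarith) (show 2 ≤ s / ww y' by linarith)
    have hM := MZ_pos (s : ℂ)
    have hsh : Real.sinh (2 * Real.pi * nsi ε p.re) ≠ 0 := by
      intro hc
      apply hσ1
      rw [h6, hc]; simp
    have h10 : σ' = 1 / Real.sinh (2 * Real.pi * y') := by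
      have : Real.sinh (2 * Real.pi * y') =
          MZ (s : ℂ) * Real.sinh (2 * Real.pi * nsi ε p.re) / s := by
        rw [← h8]; field_simp
      rw [hσ', h6, this]
      field_simp
    have h11 := OutGM_nsi h0 h1 h9.1 (z := ((yy ε σ' : ℝ) + (p.im : ℝ) * I : ℂ)) (by rw [hPre, h10])
    rw [h11.2]
    have hw := ww_pos y'
    rw [le_div_iff₀ hw] at h5
    nlinarith
  · exact absurd h (OutGM_half' h1 hyy)
  · rw [hfrR, hRn]
    linarith

theorem OutGM_T (h0 : 0 < ε) (h1 : ε ≤ 1 / 1000) (h2 : 5 * ε < ρ) (h3 : ρ ≤ 1 / 8)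
    (L : LS ε ρ k e X) {p r : ℂ} (hr : fr r = r) (hp0 : p ≠ 0) (hps : ‖p‖ < ε / 8)
    (hin : ¬ InT ε p r) :
    ∃ P R, Reg ρ P R ∧ OutA ε P R ∧ oT L p r = L.G (P, R) ∧ ‖fr P‖ < 3 * ε := by
  have hppos : 0 < ‖p‖ := norm_pos_iff.2 hp0
  obtain ⟨s, hs⟩ : ∃ s : ℝ, s = ‖p‖ / ε := ⟨_, rfl⟩
  have hs0 : 0 < s := by rw [hs]; positivity
  have hs8 : s < 1 / 8 := by rw [hs, div_lt_iff₀ h0]; linarith
  have hps' : ‖p‖ = ε * s := by rw [hs]; field_simp
  have hzT : zT ε p r = (s : ℂ) * ex r.im := by rw [zT, ← hs]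
  have hzn : ‖zT ε p r‖ = s := by
    rw [hzT, norm_mul, ex_norm, mul_one, Complex.norm_real, Real.norm_of_nonneg hs0.le]
  obtain ⟨σ, hσ⟩ : ∃ σ, σ = sgm (dl ε r.re) := ⟨_, rfl⟩
  have hMZ : MZ (zT ε p r) = MZ (s : ℂ) := MZ_norm (by
    rw [hzn, Complex.norm_real, Real.norm_of_nonneg hs0.le])
  obtain ⟨σ', hσ'⟩ : ∃ σ', σ' = σ * MZ (s : ℂ) / s := ⟨_, rfl⟩
  have hval : oT L p r = L.G (ε * s * ex (qT e p r + e * twc (s * ex r.im) + e * r.im),
      (yy ε σ' : ℝ) + (r.im : ℝ) * I) := by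
    rw [oT, if_pos hps, ← hσ, hMZ, hzn, ← hσ', hzT]
    exact jTb_G L _ _ _ hs0 (by linarith)
  obtain ⟨q, hq⟩ : ∃ q, q = qT e p r + e * twc (s * ex r.im) + e * r.im := ⟨_, rfl⟩
  rw [← hq] at hval
  have hPn : ‖(ε : ℂ) * s * ex q‖ = ε * s := OutGM_norm h0 hs0.le _
  have hPs : ε * s < ε / 8 := by rw [← hps']; exact hps
  have hPpos : 0 < ε * s := by positivity
  have hfrP : fr ((ε : ℂ) * s * ex q) = (ε : ℂ) * s * ex q := fr_self' (by rw [hPn]; linarith)
  have hRre : ((yy ε σ' : ℝ) + (r.im : ℝ) * I : ℂ).re = yy ε σ' := by simp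
  have hRim : (fr ((yy ε σ' : ℝ) + (r.im : ℝ) * I : ℂ)).im = r.im := by
    have h := fr_im r
    rw [hr] at h
    rw [fr_im]
    have : ((yy ε σ' : ℝ) + (r.im : ℝ) * I : ℂ).im = r.im := by simp
    rw [this]
    exact h.symm
  have hyy := yy_lt h0 σ'
  rw [← hRre] at hyy
  refine ⟨_, _, Reg_T h0 h2 h3 hs0 (by linarith) _, ⟨fun h => ?_, fun _ hlt => ?_⟩, hval, ?_⟩
  · exact absurd h (OutGM_half' h1 hyy)
  · have hσ0 : σ' ≠ 0 := by
      rintro h
      have h5 : (fr ((yy ε σ' : ℝ) + (r.im : ℝ) * I : ℂ)).re = -(1 / 2) := by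
        rw [fr_re, hRre, h, OutGM_yy0]
        have : round (1 / 2 : ℝ) = 1 := by
          rw [round_eq]; norm_num
        rw [this]; norm_num
      rw [h5, abs_neg, abs_of_pos (by norm_num)] at hlt
      exact absurd hlt (lt_irrefl _)
    have hσ1 : σ ≠ 0 := by
      rintro h
      exact hσ0 (by rw [hσ', h]; simp)
    have hrre : |r.re| < 1 / 2 := by
      rcases OutGM_halfcase hr with h | h
      · exact h
      · exact absurd (by rw [hσ, OutGM_dl h]) hσ1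
    obtain ⟨yh, hyh⟩ : ∃ yh, yh = nsi ε r.re := ⟨_, rfl⟩
    have hw := ww_pos yh
    have h5 : 3 ≤ s / ww yh := by
      rw [le_div_iff₀ hw]
      by_contra hc
      refine hin ⟨hrre, ?_⟩
      rw [hps', ← hyh]
      have := not_le.1 hc
      nlinarith
    obtain ⟨h6, h6'⟩ := ww_pole hs0 (by linarith) (show 2 ≤ s / ww yh by linarith)
    have h7 := dl_ns h0 h1 h6
    rw [hyh, ns_nsi h0 h1 hrre, ← hσ, ← hyh] at h7
    have h8 : σ = 1 / Real.sinh (2 * Real.pi * yh) := h7.2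
    have hsh : Real.sinh (2 * Real.pi * yh) ≠ 0 := by
      intro hc
      apply hσ1
      rw [h8, hc]; simp
    have hM := MZ_pos (s : ℂ)
    obtain ⟨y', hy'⟩ : ∃ y', y' =
        Real.arsinh (s * Real.sinh (2 * Real.pi * yh) / MZ (s : ℂ)) / (2 * Real.pi) := ⟨_, rfl⟩
    have hpi := Real.pi_pos
    have h9 : Real.sinh (2 * Real.pi * y') = s * Real.sinh (2 * Real.pi * yh) / MZ (s : ℂ) := by
      have : 2 * Real.pi * y' = Real.arsinh (s * Real.sinh (2 * Real.pi * yh) / MZ (s : ℂ)) := by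
        rw [hy']; field_simp
      rw [this, Real.sinh_arsinh]
    have h10 : MZ (s : ℂ) * Real.sinh (2 * Real.pi * y') = s * Real.sinh (2 * Real.pi * yh) := by
      rw [h9]; field_simp
    have h11 : σ' = 1 / Real.sinh (2 * Real.pi * y') := by
      rw [hσ', h8, h9]
      field_simp
    have hMle : MZ (s : ℂ) ≤ 3 / 20 := MZ_le (by
      rw [Complex.norm_real, Real.norm_of_nonneg hs0.le]; linarith)
    -- `|y'| ≥ 3/10`
    have h12 : 3 / 10 ≤ |y'| := by
      by_contra hc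
      have hc := abs_lt.1 (not_le.1 hc)
      have hpi2 : Real.pi < 3.15 := Real.pi_lt_d2
      have h13 : |Real.sinh (2 * Real.pi * y')| ≤ Real.sinh 2 := by
        rw [abs_le]
        constructor
        · rw [← Real.sinh_neg]
          apply Real.sinh_le_sinh.2
          nlinarith
        · apply Real.sinh_le_sinh.2
          nlinarith
      have h14 : Real.sinh 2 < 4 := by
        rw [Real.sinh_eq]
        have e1 : Real.exp 2 < 8 := by
          have h := Real.exp_one_lt_d9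
          have h' : Real.exp 2 = Real.exp 1 * Real.exp 1 := by
            rw [← Real.exp_add]; norm_num
          rw [h']
          have := Real.exp_pos 1
          nlinarith
        have e2 := Real.exp_pos (-2)
        linarith
      have h15 : (MZ (s : ℂ) * Real.sinh (2 * Real.pi * y')) ^ 2 < 1 := by
        rw [mul_pow]
        have a1 : Real.sinh (2 * Real.pi * y') ^ 2 ≤ 16 := by
          rw [← sq_abs]
          have := abs_nonneg (Real.sinh (2 * Real.pi * y'))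
          nlinarith
        have a2 : MZ (s : ℂ) ^ 2 ≤ 9 / 400 := by nlinarith
        have a3 := sq_nonneg (Real.sinh (2 * Real.pi * y'))
        nlinarith
      rw [h10, mul_pow] at h15
      have h16 := Real.cosh_sq (2 * Real.pi * yh)
      have h17 : s * Real.cosh (2 * Real.pi * yh) = s / ww yh := by
        rw [h6', sech]
        field_simp
      have h18 : (s * Real.cosh (2 * Real.pi * yh)) ^ 2 ≥ 9 := by
        rw [h17]; nlinarith
      rw [mul_pow, h16] at h18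
      nlinarith
    have h13 := OutGM_nsi h0 h1 h12 (z := ((yy ε σ' : ℝ) + (r.im : ℝ) * I : ℂ))
      (by rw [hRre, h11])
    have h14 : zT ε (fr ((ε : ℂ) * s * ex q)) (fr ((yy ε σ' : ℝ) + (r.im : ℝ) * I : ℂ)) =
        (s : ℂ) * ex r.im := by
      rw [zT, hfrP, hPn, hRim]
      congr 2
      field_simp
    rw [h13.2, h14, X2_polar h0 h1 hs0 h10 (by linarith), nr_smul (by linarith), nr_E2 h0 h1, mul_one]
    exact h5
  · rw [hfrP, hPn]
    linarith

theorem out_G (h0 : 0 < ε) (h1 : ε ≤ 1 / 1000) (h2 : 5 * ε < ρ) (h3 : ρ ≤ 1 / 8)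
    (L : LS ε ρ k e X) (F : ℂ × ℂ → X) {p r : ℂ} (hp : fr p = p) (hr : fr r = r) (hR : RegB ρ p r)
    (hout : ¬ InB ε p r) : ∃ P R, Reg ρ P R ∧ OutA ε P R ∧ GB₀ L F p r = L.G (P, R) ∧
      ((‖p‖ < 3 * ε ∨ ‖r‖ < 3 * ε) → (‖fr P‖ < 3 * ε ∨ ‖fr R‖ < 3 * ε)) := by
  obtain ⟨hW, hrG, hC⟩ := hR
  have hr0 : r ≠ 0 := by
    rintro h
    exact hrG (by rw [h]; exact GI_zero)
  have hpGI : p ≠ 0 → p ∉ GI := by
    intro h h'
    rw [← fr_eq_zero, hp] at h'
    exact h h'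
  have hC' : ¬ OnCK p r := fun h => hrG h.1
  by_cases hr3 : ‖r‖ < 3 * ε
  · have hin : ¬ InK ε p r := fun h => hout (Or.inl ⟨hr3, h⟩)
    have hval : GB₀ L F p r = oK L p r := by
      rw [GB₀, if_pos hr3, if_neg hin]
    by_cases hrs : ‖r‖ < ε / 8
    · obtain ⟨P, R, a1, a2, a3, a4⟩ := OutGM_K h0 h1 h2 h3 L hp hr0 hrs hin
      exact ⟨P, R, a1, a2, by rw [hval, a3], fun _ => Or.inr a4⟩
    · have hval' : GB₀ L F p r = L.G (p, r) := by
        rw [hval, oK, if_neg hrs]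
      refine ⟨p, r, ⟨hW, hpGI ?_, hC'⟩, ⟨fun _ hlt => ?_, fun h => ?_⟩, hval', fun _ => ?_⟩
      · rintro h
        exact hin (InK_corner h0 h1 (by rw [h, norm_zero]; linarith) hr3)
      · rw [hp] at hlt ⊢
        rw [hr]
        have h5 : 3 ≤ nr (X2 ε (nsi ε p.re, zK ε p r)) := by
          by_contra hc
          exact hin ⟨hlt, not_le.1 hc⟩
        rw [zK, X2_big_Z h0 h1 (by rw [le_div_iff₀ h0]; linarith), le_div_iff₀ h0] at h5
        linarith
      · rw [hp] at h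
        exact absurd (InK_corner h0 h1 (by linarith) hr3) hin
      · right
        rw [hr]
        exact hr3
  · by_cases hp3 : ‖p‖ < 3 * ε
    · have hin : ¬ InT ε p r := fun h => hout (Or.inr ⟨not_lt.1 hr3, hp3, h⟩)
      have hval : GB₀ L F p r = oT L p r := by
        rw [GB₀, if_neg hr3, if_pos hp3, if_neg hin]
      have hp0 : p ≠ 0 := by
        rintro h
        rcases OutGM_halfcase hr with h' | h'
        · refine hin ⟨h', ?_⟩
          rw [h, norm_zero]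
          have := ww_pos (nsi ε r.re)
          positivity
        · refine hC ⟨by rw [h]; exact GI_zero, -1, ?_⟩
          rw [h']
          push_cast
          norm_num
      by_cases hps : ‖p‖ < ε / 8
      · obtain ⟨P, R, a1, a2, a3, a4⟩ := OutGM_T h0 h1 h2 h3 L hr hp0 hps hin
        exact ⟨P, R, a1, a2, by rw [hval, a3], fun _ => Or.inl a4⟩
      · have hval' : GB₀ L F p r = L.G (p, r) := by
          rw [hval, oT, if_neg hps]
        refine ⟨p, r, ⟨hW, hpGI hp0, hC'⟩, ⟨fun h => ?_, fun _ hlt => ?_⟩, hval', fun _ => ?_⟩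
        · rw [hr] at h
          exact absurd h hr3
        · rw [hr] at hlt
          rw [hp, hr, zT, X2_big_Z h0 h1 (by rw [le_div_iff₀ h0]; linarith), le_div_iff₀ h0]
          by_contra hc
          refine hin ⟨hlt, ?_⟩
          have := not_le.1 hc
          linarith
        · left
          rw [hp]
          exact hp3
    · have hval : GB₀ L F p r = L.G (p, r) := by
        rw [GB₀, if_neg hr3, if_neg hp3]
      refine ⟨p, r, ⟨hW, hpGI ?_, hC'⟩, ⟨fun h => ?_, fun h => ?_⟩, hval, fun h => ?_⟩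
      · rintro h
        apply hp3
        rw [h, norm_zero]
        linarith
      · rw [hr] at h
        exact absurd h hr3
      · rw [hp] at h
        exact absurd h hp3
      · rcases h with h | h
        · exact absurd h hp3
        · exact absurd h hr3

end Pool.Agent.TS
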