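import Pool.Agent.TS.InnM
import Pool.Agent.TS.FneM
import Pool.Agent.TS.OutGM
import Pool.Agent.TS.SizeM
import Pool.Agent.TS.CcM

/-!
# TS/CorMid: the cores of the new structure
`cTB (q, x)`: inner (`InCT ε x`): `F (sw (OmT (q, x̂, 0)))`; outer: `jKb L (q, TrS (σ, 0)) = L.jK (bS (q, 20 σ), 0)`,
`σ = sgm (dl ε x₀)`, `NN σ 0 = 1/20`, `3 |σ| ≤ 1/20` (`X2_big`, `dl_ns`, or `σ = 0`), so `Y = bS (q, 20 σ)` satisfies
`3 |Y₀| ≤ ‖yc Y‖` (`bS_zero`, `bS_yc`).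
`cKB Y`: inner (`InCK Y`): `F (sw (OmP sg (ν, 0)))`, `‖ν‖ < 3`; outer: `jTb L (q, TrSi (σ₁, 0)) = L.jT (q, yy ε (σ₁/20), 0)`,
`σ₁ = -Y₀/‖yc Y‖`, `|σ₁| ≤ 1/3`; `y = yy ε (σ₁/20)` is not `InCT`: `σ₁ = 0`: `(fr y).re = -1/2`; else with
`ŷ = nsi ε (fr y).re`: `1 / sinh (2 π ŷ) = σ₁/20`, `nr X2 (ŷ, 0) = |sinh|/20 = 1/|σ₁| ≥ 3` (`X2_of_sigma` is for
`s > 0`; here `io (ŷ, 0)` directly: `Rd_big`, `AX_axis`).
Injectivity: inner/inner: `hF.inj`, `OmT_inj` resp. `OmP_inj` (`eq_hS`); outer/outer: `jKb_inj`, `TrSi_TrS`, `sgm_inj`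
(then `x' - x ∈ Z`) resp. `jTb_inj`, `eq_bS`; mixed: `F_ne_jK`, `F_ne_jT`.
versus `GB`: inner/inner: `bB_ne_coreT`, `bB_ne_coreK`; inner core/outer point: `F_ne_G`, `out_G`; outer core/inner point:
`F_ne_jK`, `F_ne_jT`, `bB_notFar`; outer/outer: `disjK`, `disjT`.
`cKB` versus `cTB`: `coreT_ne_coreK`, `F_ne_jK`, `F_ne_jT`, `disjKT`.
-/

open scoped Manifold ContDiff Topology
open Complex (I)
open Set Filter

namespace Pool.Agent.TS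
open Pool.Agent.CSG

variable {X : Type*} [TopologicalSpace X] [ChartedSpace E4 X] {ε ρ : ℝ} {k e : ℤ}

theorem CoreM_NN0 (σ : ℝ) : NN σ 0 = 1 / 20 := by
  rw [NN, MZ_zero, norm_zero]
  rw [show (0 : ℝ) ^ 2 * σ ^ 2 + (1 / 20) ^ 2 = (1 / 20) ^ 2 by ring]
  exact Real.sqrt_sq (by norm_num)

theorem CoreM_TrS0 (σ : ℝ) : TrS (σ, 0) = (20 * σ, 0) := by
  have h := CoreM_NN0 σ
  refine Prod.ext ?_ ?_
  · show σ / NN σ 0 = 20 * σ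
    rw [h]; ring
  · show _ * (0 : ℂ) = 0
    simp

theorem CoreM_TrSi0 (σ : ℝ) : TrSi (σ, 0) = (σ / 20, 0) := by
  refine Prod.ext ?_ ?_
  · show σ * MZ ((0 : ℂ) / (√(1 + σ ^ 2) : ℂ)) / √(1 - σ ^ 2 * ‖(0 : ℂ) / (√(1 + σ ^ 2) : ℂ)‖ ^ 2) = σ / 20
    rw [zero_div, MZ_zero, norm_zero]
    simp only [ne_eq, OfNat.ofNat_ne_zero, not_false_eq_true, zero_pow, mul_zero, sub_zero,
      Real.sqrt_one, div_one]
    ring
  · show (0 : ℂ) / _ = 0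
    simp

theorem CoreM_bS (q : ℝ) {σ : ℝ} (h : 3 * |σ| ≤ 1) :
    3 * |((bS (q, σ) : S2) : E3) 0| ≤ ‖yc (bS (q, σ))‖ := by
  have h1 : (0 : ℝ) < √(1 + σ ^ 2) := Real.sqrt_pos.2 (by positivity)
  rw [bS_zero, bS_yc, abs_div, abs_neg, norm_div, ex_norm, Complex.norm_real, abs_of_pos h1,
    Real.norm_of_nonneg h1.le]
  rw [← mul_div_assoc]
  exact div_le_div_of_nonneg_right h h1.le

theorem CoreM_frre (x : ℝ) : -(1 / 2) ≤ (fr (x : ℂ)).re ∧ (fr (x : ℂ)).re < 1 / 2 :=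
  fr_re_mem _

/-- the value of `σ` at an outer point of the new log core -/
theorem CoreM_sig (h0 : 0 < ε) (h1 : ε ≤ 1 / 1000) {x : ℝ} (h : ¬ InCT ε x) :
    |dl ε (fr (x : ℂ)).re| < 1 ∧ 3 * |20 * sgm (dl ε (fr (x : ℂ)).re)| ≤ 1 := by
  obtain ⟨ha, hb⟩ := CoreM_frre x
  set x0 : ℝ := (fr (x : ℂ)).re with hx0
  by_cases hc : |x0| < 1 / 2
  · have h3 : 3 ≤ nr (X2 ε (nsi ε x0, 0)) := by
      by_contra hcon
      exact h ⟨hc, not_le.1 hcon⟩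
    obtain ⟨h4, h5⟩ := X2_big h0 h1 (ζ := 0) (by simp) h3
    have h6 := dl_ns h0 h1 h4
    rw [ns_nsi h0 h1 hc] at h6
    refine ⟨h6.1, ?_⟩
    rw [h6.2, abs_mul, abs_of_pos (by norm_num : (0 : ℝ) < 20)]
    rw [CoreM_NN0] at h5
    linarith
  · have h7 : x0 = -(1 / 2) := by
      rcases le_or_gt x0 (-(1 / 2)) with h8 | h8
      · linarith
      · exact absurd (abs_lt.2 ⟨h8, hb⟩) hc
    have h8 : dl ε x0 = 0 := by
      rw [h7, dl]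
      norm_num
    rw [h8]
    simp [sgm]

theorem CoreM_cTB_o (L : LS ε ρ k e X) (F : ℂ × ℂ → X) {q x : ℝ} (h : ¬ InCT ε x) :
    cTB L F (q, x) = jKb L (q, TrS (sgm (dl ε (fr (x : ℂ)).re), 0)) := by
  unfold cTB
  exact if_neg h

theorem CoreM_cTB_in (L : LS ε ρ k e X) (F : ℂ × ℂ → X) {q x : ℝ}
    (h : InCT ε x) : cTB L F (q, x) = F (sw (OmT ε (q, nsi ε (fr (x : ℂ)).re, 0))) := by
  unfold cTB
  exact if_pos h

theorem CoreM_cKB_o (L : LS ε ρ k e X) (F : ℂ × ℂ → X) {Y : S2} (h : ¬ InCK Y) :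
    cKB L F Y = jTb L (Complex.arg (yc Y) / (2 * Real.pi), TrSi (-((Y : E3) 0) / ‖yc Y‖, 0)) := by
  unfold cKB
  exact if_neg h

theorem CoreM_cKB_i (L : LS ε ρ k e X) (F : ℂ × ℂ → X) {Y : S2} (h : InCK Y) :
    cKB L F Y = F (sw (OmP ε (if 0 < (Y : E3) 0 then -1 else 1)
      (yc Y / ((|(Y : E3) 0| : ℝ) : ℂ), 0))) := by
  unfold cKB
  exact if_pos h

theorem cTB_out (h0 : 0 < ε) (h1 : ε ≤ 1 / 1000) (L : LS ε ρ k e X) (F : ℂ × ℂ → X) {q x : ℝ}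
    (h : ¬ InCT ε x) : ∃ Y : S2, 3 * |(Y : E3) 0| ≤ ‖yc Y‖ ∧ cTB L F (q, x) = L.jK (Y, 0) := by
  obtain ⟨-, h3⟩ := CoreM_sig h0 h1 h
  refine ⟨bS (q, 20 * sgm (dl ε (fr (x : ℂ)).re)), CoreM_bS q h3, ?_⟩
  rw [CoreM_cTB_o L F h, CoreM_TrS0, jKb]

/-- if `sinh (2 π y) = 1 / σ` and `|σ| ≤ 1/60`, then `y` is near the pole and `X2` is big -/
theorem CoreM_X2 (h0 : 0 < ε) (h1 : ε ≤ 1 / 1000) {y σ : ℝ} (hσ : σ ≠ 0) (hσ' : |σ| ≤ 1 / 60)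
    (hy : Real.sinh (2 * Real.pi * y) = 1 / σ) : 3 ≤ nr (X2 ε (y, 0)) := by
  have hs : 60 ≤ |Real.sinh (2 * Real.pi * y)| := by
    rw [hy, abs_div, abs_one, le_div_iff₀ (abs_pos.2 hσ)]
    linarith
  have h2 : nr (io (y, 0)) = |Real.sinh (2 * Real.pi * y)| / 20 := by
    have h3 := nr_io (y, (0 : ℂ))
    simp only [norm_zero, MZ_zero] at h3
    have h4 : nr (io (y, 0)) ^ 2 = (|Real.sinh (2 * Real.pi * y)| / 20) ^ 2 := by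
      rw [h3, div_pow, sq_abs]; ring
    have h5 : 0 ≤ nr (io (y, 0)) := nr_nonneg _
    exact (sq_eq_sq₀ h5 (by positivity)).1 h4
  have h3 : 3 ≤ nr (io (y, 0)) := by rw [h2]; linarith
  have hy0 : y ≠ 0 := by
    rintro rfl
    simp at hs
    linarith
  obtain ⟨sg, hsg, hsy⟩ : ∃ sg : ℝ, sg ^ 2 = 1 ∧ 0 < sg * y := by
    rcases lt_or_gt_of_ne hy0 with h | h
    · exact ⟨-1, by norm_num, by linarith⟩
    · exact ⟨1, by norm_num, by linarith⟩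
  have h4 := X2_pole h0 h1 (y := y) (Z := 0) (by linarith) (by rw [norm_zero]; linarith) hsg hsy
  rw [h4, nr_smul (nr_nonneg _), nr_DD h0 h1, nr_Ep hsg (by simp), mul_one]
  exact h3

theorem CoreM_yy (h0 : 0 < ε) (h1 : ε ≤ 1 / 1000) {σ : ℝ} (hσ' : |σ| ≤ 1 / 60) :
    ¬ InCT ε (yy ε σ) := by
  rintro ⟨ha, hb⟩
  by_cases hσ : σ = 0
  · subst hσ
    have h2 : yy ε 0 = 1 / 2 := by simp [yy]
    rw [h2] at ha
    have h3 : (fr ((1 / 2 : ℝ) : ℂ)).re = -(1 / 2) := by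
      rw [fr_re, Complex.ofReal_re]
      have : round (1 / 2 : ℝ) = 1 := by
        rw [round_eq]; norm_num
      rw [this]; norm_num
    rw [h3] at ha
    norm_num at ha
  · set y := Real.arsinh (1 / σ) / (2 * Real.pi) with hy
    have hpi := Real.pi_pos
    have h2 : Real.sinh (2 * Real.pi * y) = 1 / σ := by
      rw [hy, mul_div_cancel₀ _ (by positivity), Real.sinh_arsinh]
    have h3 := CoreM_X2 h0 h1 hσ hσ' h2
    obtain ⟨h4, -⟩ := X2_big h0 h1 (ζ := 0) (by simp) h3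
    have h5 : 1 / Real.sinh (2 * Real.pi * y) = σ := by rw [h2, one_div_one_div]
    have h6 := yy_lt h0 σ
    rw [abs_lt] at h6
    have h7 : (fr ((yy ε σ : ℝ) : ℂ)).re = ns ε y := by
      have hn := abs_lt.1 (ns_lt h0 h1 y)
      rw [fr_re, Complex.ofReal_re]
      rcases le_abs.1 h4 with h8 | h8
      · have h9 := ns_yy (ε := ε) h8
        rw [h5] at h9
        rw [← h9, rd_self hn.1.le hn.2]
        simp
      · have h9 := ns_yy' (ε := ε) (x := y) (by linarith)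
        rw [h5] at h9
        have h10 : yy ε σ = ns ε y + 1 := by rw [h9]; ring
        have h11 : round (yy ε σ) = 1 := by
          rw [h10, round_eq]
          have : ⌊ns ε y + 1 + 1 / 2⌋ = 1 := by
            rw [Int.floor_eq_iff]
            push_cast
            constructor <;> linarith [hn.1, hn.2]
          exact this
        rw [h11, h10]; simp
    rw [h7, nsi_ns h0 h1] at hb
    linarith

theorem CoreM_cKB_out (L : LS ε ρ k e X) (F : ℂ × ℂ → X) {Y : S2}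
    (h : ¬ InCK Y) : cKB L F Y =
      jTb L (Complex.arg (yc Y) / (2 * Real.pi), (-((Y : E3) 0) / ‖yc Y‖) / 20, 0) := by
  rw [CoreM_cKB_o L F h, CoreM_TrSi0]

theorem CoreM_yc_pos {Y : S2} (h : ¬ InCK Y) : 0 < ‖yc Y‖ := by
  have h2 : 3 * |(Y : E3) 0| ≤ ‖yc Y‖ := not_lt.1 h
  have h3 := S2_sq Y
  by_contra hcon
  have h4 : ‖yc Y‖ = 0 := le_antisymm (not_lt.1 hcon) (norm_nonneg _)
  rw [h4] at h2 h3
  have h5 : |(Y : E3) 0| = 0 := le_antisymm (by linarith) (abs_nonneg _)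
  rw [abs_eq_zero] at h5
  rw [h5] at h3
  norm_num at h3

theorem CoreM_s1 {Y : S2} (h : ¬ InCK Y) : |(-((Y : E3) 0) / ‖yc Y‖) / 20| ≤ 1 / 60 := by
  have h2 : 3 * |(Y : E3) 0| ≤ ‖yc Y‖ := not_lt.1 h
  have h3 := CoreM_yc_pos h
  rw [abs_div, abs_div, abs_neg, abs_of_pos h3, abs_of_pos (by norm_num : (0 : ℝ) < 20), div_div,
    div_le_div_iff₀ (by positivity) (by norm_num)]
  linarith

theorem cKB_out (h0 : 0 < ε) (h1 : ε ≤ 1 / 1000) (L : LS ε ρ k e X) (F : ℂ × ℂ → X) {Y : S2}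
    (h : ¬ InCK Y) : ∃ q y : ℝ, ¬ InCT ε y ∧ cKB L F Y = L.jT (q, y, 0) := by
  refine ⟨Complex.arg (yc Y) / (2 * Real.pi) + e * twc 0, _, CoreM_yy h0 h1 (CoreM_s1 h), ?_⟩
  rw [CoreM_cKB_out L F h, jTb]

theorem CoreM_cKB_in (L : LS ε ρ k e X) (F : ℂ × ℂ → X) {Y : S2}
    (h : InCK Y) : ∃ (sg : ℝ) (ν : ℂ), sg ^ 2 = 1 ∧ ‖ν‖ < 3 ∧ Y = hS sg ν ∧
      cKB L F Y = F (sw (OmP ε sg (ν, 0))) := by
  have h2 : ‖yc Y‖ < 3 * |(Y : E3) 0| := h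
  have h3 : 0 < |(Y : E3) 0| := by
    have := norm_nonneg (yc Y)
    by_contra hcon
    linarith [not_lt.1 hcon]
  refine ⟨if 0 < (Y : E3) 0 then -1 else 1, yc Y / ((|(Y : E3) 0| : ℝ) : ℂ), ?_, ?_,
    eq_hS (abs_pos.1 h3), ?_⟩
  · split_ifs <;> norm_num
  · rw [norm_div, Complex.norm_real, Real.norm_eq_abs, abs_abs, div_lt_iff₀ h3]
    exact h2
  · exact CoreM_cKB_i L F h

theorem cTB_per (L : LS ε ρ k e X) (F : ℂ × ℂ → X) (q x : ℝ) (a b : ℤ) :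
    cTB L F (q + a, x + b) = cTB L F (q, x) := by
  have h : fr (((x + b : ℝ)) : ℂ) = fr (x : ℂ) := by
    have h2 : (((x + b : ℝ)) : ℂ) = (x : ℂ) + ((b : ℂ) + (0 : ℤ) * I) := by push_cast; ring
    rw [h2, fr_add (GI_mk b 0)]
  rw [cTB, cTB]
  simp only [h]
  split_ifs
  · rw [OmT_per]
  · rw [jKb_per]

theorem CoreM_sw_inj {a b : ℂ × ℂ} (h : sw a = sw b) : a = b := by
  have h1 := congrArg Prod.fst h
  have h2 := congrArg Prod.snd h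
  exact Prod.ext h2 h1

theorem CoreM_not4 {b : ℂ × ℂ} (h : ¬ Far 3 b) : ¬ Far 4 b :=
  fun h' => h (far_mono (by norm_num) (by norm_num) h')

theorem CoreM_fr_eq {x x' : ℝ} (h : (fr (x : ℂ)).re = (fr (x' : ℂ)).re) : ∃ b : ℤ, x' = x + b := by
  rw [fr_re, fr_re, Complex.ofReal_re, Complex.ofReal_re] at h
  refine ⟨round x' - round x, ?_⟩
  push_cast
  linarith

theorem cTB_inj (h0 : 0 < ε) (h1 : ε ≤ 1 / 1000) (h2 : 5 * ε < ρ) (h3 : ρ ≤ 1 / 8)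
    {L : LS ε ρ k e X} {F : ℂ × ℂ → X} (hF : IsF L F) {q x q' x' : ℝ}
    (he : cTB L F (q, x) = cTB L F (q', x')) : (∃ a : ℤ, q' = q + a) ∧ ∃ b : ℤ, x' = x + b := by
  by_cases hx : InCT ε x
  · by_cases hx' : InCT ε x'
    · rw [CoreM_cTB_in L F hx, CoreM_cTB_in L F hx'] at he
      have h4 := hF.inj _ _ (CoreM_not4 (coreT_notFar h0 h1 (q := q) hx.2))
        (CoreM_not4 (coreT_notFar h0 h1 (q := q') hx'.2)) he
      obtain ⟨h5, h6, -⟩ := OmT_inj h0 h1 (CoreM_sw_inj h4)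
      refine ⟨h5, CoreM_fr_eq ?_⟩
      rw [← ns_nsi h0 h1 hx.1, ← ns_nsi h0 h1 hx'.1, h6]
    · exfalso
      obtain ⟨Y, hY, hY'⟩ := cTB_out h0 h1 L F (q := q') hx'
      rw [CoreM_cTB_in L F hx, hY'] at he
      exact F_ne_jK h0 h1 h2 h3 hF (coreT_notFar h0 h1 hx.2) hY he
  · by_cases hx' : InCT ε x'
    · exfalso
      obtain ⟨Y, hY, hY'⟩ := cTB_out h0 h1 L F (q := q) hx
      rw [CoreM_cTB_in L F hx', hY'] at he
      exact F_ne_jK h0 h1 h2 h3 hF (coreT_notFar h0 h1 hx'.2) hY he.symm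
    · have hs := CoreM_sig h0 h1 hx
      have hs' := CoreM_sig h0 h1 hx'
      rw [CoreM_cTB_o L F hx, CoreM_cTB_o L F hx', CoreM_TrS0, CoreM_TrS0] at he
      obtain ⟨h5, h6, -⟩ := jKb_inj L (by simp) (by simp) he
      refine ⟨h5, CoreM_fr_eq ?_⟩
      have h7 : sgm (dl ε (fr (x : ℂ)).re) = sgm (dl ε (fr (x' : ℂ)).re) := by linarith
      have h8 := sgm_inj hs.1 hs'.1 h7
      obtain ⟨ha, hb⟩ := CoreM_frre x
      obtain ⟨ha', hb'⟩ := CoreM_frre x'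
      rw [dl, dl, div_left_inj' h0.ne'] at h8
      split_ifs at h8 with h9 h10 h10 <;> linarith

theorem cKB_inj (h0 : 0 < ε) (h1 : ε ≤ 1 / 1000) (h2 : 5 * ε < ρ) (h3 : ρ ≤ 1 / 8)
    {L : LS ε ρ k e X} {F : ℂ × ℂ → X} (hF : IsF L F) : Function.Injective (cKB L F) := by
  intro Y Y' he
  by_cases hY : InCK Y
  · obtain ⟨sg, ν, hs, hν, hYe, hc⟩ := CoreM_cKB_in L F hY
    by_cases hY' : InCK Y'
    · obtain ⟨sg', ν', hs', hν', hYe', hc'⟩ := CoreM_cKB_in L F hY'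
      rw [hc, hc'] at he
      have h4 := hF.inj _ _ (CoreM_not4 (coreK_notFar h0 h1 hs hν))
        (CoreM_not4 (coreK_notFar h0 h1 hs' hν')) he
      obtain ⟨h5, h6, -⟩ := OmP_inj h0 h1 hs hs' (by simp) (by simp) (CoreM_sw_inj h4)
      rw [hYe, hYe', h5, h6]
    · exfalso
      obtain ⟨q, y, hy, hy'⟩ := cKB_out h0 h1 L F hY'
      rw [hc, hy'] at he
      exact F_ne_jT h0 h1 h2 h3 hF (coreK_notFar h0 h1 hs hν) hy he
  · by_cases hY' : InCK Y'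
    · exfalso
      obtain ⟨sg', ν', hs', hν', hYe', hc'⟩ := CoreM_cKB_in L F hY'
      obtain ⟨q, y, hy, hy'⟩ := cKB_out h0 h1 L F hY
      rw [hc', hy'] at he
      exact F_ne_jT h0 h1 h2 h3 hF (coreK_notFar h0 h1 hs' hν') hy he.symm
    · rw [CoreM_cKB_out L F hY, CoreM_cKB_out L F hY'] at he
      obtain ⟨⟨n, h5⟩, h6, -⟩ := jTb_inj h0 h1 L (by simp) (by simp) he
      have h7 := eq_bS (norm_pos_iff.1 (CoreM_yc_pos hY))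
      have h8 := eq_bS (norm_pos_iff.1 (CoreM_yc_pos hY'))
      have h9 : -((Y' : E3) 0) / ‖yc Y'‖ = -((Y : E3) 0) / ‖yc Y‖ := by linarith
      rw [h7, h8, h9, h5, bS_per]

theorem CoreM_Reg {p r : ℂ} (h : RegB ρ p r) : RegB ρ (fr p) (fr r) :=
  RegB_iff.2 (Reg_fr.2 (RegB_iff.1 h))

theorem CoreM_r0 {p r : ℂ} (h : RegB ρ p r) : r ≠ 0 := by
  rintro rfl
  exact h.2.1 GI_zero

/-- values of `GB` at regular points: inner or outer -/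
theorem CoreM_GB (h0 : 0 < ε) (h1 : ε ≤ 1 / 1000) (h2 : 5 * ε < ρ) (h3 : ρ ≤ 1 / 8)
    (L : LS ε ρ k e X) (F : ℂ × ℂ → X) {p r : ℂ} (h : RegB ρ p r) :
    (∃ p₀ r₀, fr p₀ = p₀ ∧ fr r₀ = r₀ ∧ InB ε p₀ r₀ ∧ r₀ ≠ 0 ∧ ¬ Far 3 (bB ε k e p₀ r₀) ∧
      GB L F (p, r) = F (bB ε k e p₀ r₀)) ∨
    ∃ P R, Reg ρ P R ∧ OutA ε P R ∧ GB L F (p, r) = L.G (P, R) := by
  have hR := CoreM_Reg h
  by_cases hin : InB ε (fr p) (fr r)
  · refine Or.inl ⟨fr p, fr r, fr_fr p, fr_fr r, hin, CoreM_r0 hR,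
      bB_notFar h0 h1 (fr_fr p) (fr_fr r) hin, ?_⟩
    rw [GB]
    exact GB₀_in hin
  · obtain ⟨P, R, h4, h5, h6, -⟩ := out_G h0 h1 h2 h3 L F (fr_fr p) (fr_fr r) hR hin
    exact Or.inr ⟨P, R, h4, h5, h6⟩

theorem cTB_ne_GB (h0 : 0 < ε) (h1 : ε ≤ 1 / 1000) (h2 : 5 * ε < ρ) (h3 : ρ ≤ 1 / 8)
    {L : LS ε ρ k e X} {F : ℂ × ℂ → X} (hF : IsF L F) (a : ℝ × ℝ) {p r : ℂ} (h : RegB ρ p r) :
    cTB L F a ≠ GB L F (p, r) := by
  obtain ⟨q, x⟩ := a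
  intro he
  by_cases hx : InCT ε x
  · rw [CoreM_cTB_in L F hx] at he
    rcases CoreM_GB h0 h1 h2 h3 L F h with ⟨p₀, r₀, hp, hr, hin, hr0, hfar, hG⟩ | ⟨P, R, hR, hO, hG⟩
    · rw [hG] at he
      have h4 := hF.inj _ _ (CoreM_not4 (coreT_notFar h0 h1 (q := q) hx.2)) (CoreM_not4 hfar) he
      exact bB_ne_coreT h0 h1 hp hr hin hr0 hx.2 h4.symm
    · rw [hG] at he
      exact F_ne_G h0 h1 h2 h3 hF (coreT_notFar h0 h1 hx.2) hR hO he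
  · obtain ⟨Y, hY, hY'⟩ := cTB_out h0 h1 L F (q := q) hx
    rw [hY'] at he
    rcases CoreM_GB h0 h1 h2 h3 L F h with ⟨p₀, r₀, hp, hr, hin, hr0, hfar, hG⟩ | ⟨P, R, hR, hO, hG⟩
    · rw [hG] at he
      exact F_ne_jK h0 h1 h2 h3 hF hfar hY he.symm
    · rw [hG] at he
      exact L.disjK Y P R hR.1 hR.2.1 hR.2.2 he

theorem cKB_ne_GB (h0 : 0 < ε) (h1 : ε ≤ 1 / 1000) (h2 : 5 * ε < ρ) (h3 : ρ ≤ 1 / 8)
    {L : LS ε ρ k e X} {F : ℂ × ℂ → X} (hF : IsF L F) (Y : S2) {p r : ℂ} (h : RegB ρ p r) :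
    cKB L F Y ≠ GB L F (p, r) := by
  intro he
  by_cases hY : InCK Y
  · obtain ⟨sg, ν, hs, hν, hYe, hc⟩ := CoreM_cKB_in L F hY
    rw [hc] at he
    rcases CoreM_GB h0 h1 h2 h3 L F h with ⟨p₀, r₀, hp, hr, hin, hr0, hfar, hG⟩ | ⟨P, R, hR, hO, hG⟩
    · rw [hG] at he
      have h4 := hF.inj _ _ (CoreM_not4 (coreK_notFar h0 h1 hs hν)) (CoreM_not4 hfar) he
      exact bB_ne_coreK h0 h1 hp hr hin hs hν h4.symm
    · rw [hG] at he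
      exact F_ne_G h0 h1 h2 h3 hF (coreK_notFar h0 h1 hs hν) hR hO he
  · obtain ⟨q, y, hy, hy'⟩ := cKB_out h0 h1 L F hY
    rw [hy'] at he
    rcases CoreM_GB h0 h1 h2 h3 L F h with ⟨p₀, r₀, hp, hr, hin, hr0, hfar, hG⟩ | ⟨P, R, hR, hO, hG⟩
    · rw [hG] at he
      exact F_ne_jT h0 h1 h2 h3 hF hfar hy he.symm
    · rw [hG] at he
      exact L.disjT q y P R hR.1 hR.2.1 hR.2.2 he

theorem cKB_ne_cTB (h0 : 0 < ε) (h1 : ε ≤ 1 / 1000) (h2 : 5 * ε < ρ) (h3 : ρ ≤ 1 / 8)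
    {L : LS ε ρ k e X} {F : ℂ × ℂ → X} (hF : IsF L F) (Y : S2) (a : ℝ × ℝ) :
    cKB L F Y ≠ cTB L F a := by
  obtain ⟨q, x⟩ := a
  intro he
  by_cases hY : InCK Y
  · obtain ⟨sg, ν, hs, hν, hYe, hc⟩ := CoreM_cKB_in L F hY
    rw [hc] at he
    by_cases hx : InCT ε x
    · rw [CoreM_cTB_in L F hx] at he
      have h4 := hF.inj _ _ (CoreM_not4 (coreK_notFar h0 h1 hs hν))
        (CoreM_not4 (coreT_notFar h0 h1 hx.2)) he
      exact coreT_ne_coreK h0 h1 hx.2 hs ν h4.symm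
    · obtain ⟨Y', hY', hY''⟩ := cTB_out h0 h1 L F (q := q) hx
      rw [hY''] at he
      exact F_ne_jK h0 h1 h2 h3 hF (coreK_notFar h0 h1 hs hν) hY' he
  · obtain ⟨q', y, hy, hy'⟩ := cKB_out h0 h1 L F hY
    rw [hy'] at he
    by_cases hx : InCT ε x
    · rw [CoreM_cTB_in L F hx] at he
      exact F_ne_jT h0 h1 h2 h3 hF (coreT_notFar h0 h1 hx.2) hy he.symm
    · obtain ⟨Y', hY', hY''⟩ := cTB_out h0 h1 L F (q := q) hx
      rw [hY''] at he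
      exact L.disjKT Y' q' y he.symm

end Pool.Agent.TS
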