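import Pool.Agent.TS.VVM
import Pool.Agent.TS.DDM
import Pool.Agent.TS.NsM

/-!
# TS/EEM: the sphere of the surgered torus

`EE p = (sech cos, tanh + i sech sin)` (arguments `2 π p.re`, `2 π p.im`), a unit vector, `zc (EE p) = sech * ex p.im`,
`(EE p).2.re = tanh (2 π p.re)`; `EE p = EE p'` iff `p' - p ∈ i Z`.
If `cosh (2 π p.re) + cos (2 π p.im) ≠ 0`: `EE p = st (tanh (π p))`
(`tanh (π p) = (sinh 2πx + i sin 2πt) / (cosh 2πx + cos 2πt)`).
`E2 = DD ∘ VV ∘ EE`: `DD`, `VV` preserve `nr` and are bijective.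
`E2_corner`: `‖π p‖ ≤ 0.01562`, so `v₁ = tanh (π p)` has norm `≤ 1/60`, `VV (EE p) = st (artanh v₁) = st (π p)`,
`DD ε (st (π p)) = st (p / ε)`.
`E2_far`: if `(1 - c^2)/(1 + c^2) < (E2 ε p).1` then `E2 ε p = st w`, `‖w‖ < c`, so `VV (EE p) = st (π ε w)`
(`DD_bij`), `EE p = st v₁` with `v₁ + bb v₁ = π ε w`, `‖v₁‖ ≤ 1/60` (`bb_bound`), so `artanh v₁ = π ε w`,
`EE p = st (tanh (π ε w)) = EE (ε w)`, `p = ε w` mod `i`.  Conversely `E2_corner`.
`aaE2_ld`: `(l, p) ↦ DD ε (VV (l • EE p))` is a local diffeomorphism `ℝ × ℂ → R3` at `(2, p)` (polar coordinates,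
`VV_ld`, `DD_ld`), and equals `l • E2 ε p` near (`VV_smul`, `DD_smul` with `1 ≤ l`); for `(E2 ε p).1 < 0` compose
with `X ↦ (nr X, aa X)` (local diffeomorphism on `X.1 < 0`: left inverse
`(r, a) ↦ (r / √(1 + ‖a‖^2)) • (-1, a)`): `(l, p) ↦ (l, aa (E2 ε p))` is a local diffeomorphism, hence its
second component is.
-/

open scoped Manifold ContDiff Topology
open Complex (I)
open Set Filter

namespace Pool.Agent.TS
open Pool.Agent.CSG

variable {ε : ℝ}

theorem EEM_sq (x : ℝ) : sech x ^ 2 + Real.tanh x ^ 2 = 1 := by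
  unfold sech
  rw [Real.tanh_eq_sinh_div_cosh, div_pow, inv_pow]
  have h := Real.cosh_sq x
  have h1 : Real.cosh x ^ 2 ≠ 0 := (pow_pos (Real.cosh_pos x) 2).ne'
  field_simp
  linarith

theorem EEM_ex_re (x : ℝ) : (ex x).re = Real.cos (2 * Real.pi * x) := by
  unfold ex
  rw [Complex.exp_ofReal_mul_I_re]

theorem EEM_ex_im (x : ℝ) : (ex x).im = Real.sin (2 * Real.pi * x) := by
  unfold ex
  rw [Complex.exp_ofReal_mul_I_im]

/-- equality from the coordinates `zc X`, `X.2.re` -/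
theorem EEM_ext {X Y : R3} (h : zc X = zc Y) (h' : X.2.re = Y.2.re) : X = Y := by
  unfold zc at h
  rw [Complex.mk.injEq] at h
  exact Prod.ext h.1 (Complex.ext h' h.2)

theorem nr_EE (p : ℂ) : nr (EE p) = 1 := by
  have h : nr (EE p) ^ 2 = 1 := by
    rw [nr_sq]
    simp only [EE]
    rw [Complex.sq_norm, Complex.normSq_mk]
    linear_combination sech (2 * Real.pi * p.re) ^ 2 *
      Real.cos_sq_add_sin_sq (2 * Real.pi * p.im) + EEM_sq (2 * Real.pi * p.re)
  exact (pow_eq_one_iff_of_nonneg (nr_nonneg _) two_ne_zero).1 h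

theorem zc_EE (p : ℂ) : zc (EE p) = sech (2 * Real.pi * p.re) * ex p.im := by
  apply Complex.ext
  · rw [Complex.re_ofReal_mul, EEM_ex_re]
    rfl
  · rw [Complex.im_ofReal_mul, EEM_ex_im]
    rfl

theorem EE_per (p : ℂ) (n : ℤ) : EE (p + n * I) = EE p := by
  have h1 : (p + n * I).re = p.re := by simp
  have h2 : (p + n * I).im = p.im + n := by simp
  have h3 : 2 * Real.pi * (p.im + n) = 2 * Real.pi * p.im + n * (2 * Real.pi) := by ring
  unfold EE
  rw [h1, h2, h3, Real.cos_add_int_mul_two_pi, Real.sin_add_int_mul_two_pi]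

theorem EE_inj {p p' : ℂ} (h : EE p = EE p') : ∃ n : ℤ, p' = p + n * I := by
  have h1 : Real.tanh (2 * Real.pi * p.re) = Real.tanh (2 * Real.pi * p'.re) := by
    have := congrArg (fun X : R3 => X.2.re) h
    exact this
  have h2 : p.re = p'.re := by
    have h3 := Real.tanh_injective h1
    exact mul_left_cancel₀ (by positivity) h3
  have h3 : ex p'.im = ex p.im := by
    have := congrArg zc h
    rw [zc_EE, zc_EE, ← h2] at this
    have h4 : (sech (2 * Real.pi * p.re) : ℂ) ≠ 0 := by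
      exact_mod_cast (sech_pos _).ne'
    exact (mul_left_cancel₀ h4 this).symm
  unfold ex at h3
  obtain ⟨n, hn⟩ := Complex.exp_eq_exp_iff_exists_int.1 h3
  refine ⟨n, Complex.ext (by simp [h2]) ?_⟩
  have h5 := congrArg Complex.im hn
  simp at h5
  have h6 : (2 * Real.pi) * p'.im = (2 * Real.pi) * (p.im + n) := by
    rw [h5]; ring
  have h7 := mul_left_cancel₀ (show (2 * Real.pi : ℝ) ≠ 0 by positivity) h6
  rw [h7]
  simp

theorem EE_surj {E : R3} (h : nr E = 1) (h0 : zc E ≠ 0) : ∃ p, EE p = E := by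
  have hz : 0 < ‖zc E‖ := norm_pos_iff.2 h0
  have h1 := nr_sq' E
  rw [h] at h1
  have hy : E.2.re ∈ Ioo (-1 : ℝ) 1 := by
    constructor <;> nlinarith [pow_pos hz 2]
  refine ⟨⟨Real.artanh E.2.re / (2 * Real.pi), Complex.arg (zc E) / (2 * Real.pi)⟩, ?_⟩
  have e1 : 2 * Real.pi * (Real.artanh E.2.re / (2 * Real.pi)) = Real.artanh E.2.re := by
    field_simp
  have e2 : 2 * Real.pi * (Complex.arg (zc E) / (2 * Real.pi)) = Complex.arg (zc E) := by
    field_simp
  have hs : sech (Real.artanh E.2.re) = ‖zc E‖ := by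
    have h2 := EEM_sq (Real.artanh E.2.re)
    rw [Real.tanh_artanh hy] at h2
    have h3 := sech_pos (Real.artanh E.2.re)
    have h4 : sech (Real.artanh E.2.re) ^ 2 = ‖zc E‖ ^ 2 := by linarith
    exact (pow_left_inj₀ h3.le hz.le two_ne_zero).1 h4
  apply EEM_ext
  · rw [zc_EE]
    simp only
    rw [e1, hs]
    unfold ex
    rw [e2, Complex.norm_mul_exp_arg_mul_I]
  · show Real.tanh (2 * Real.pi * (Real.artanh E.2.re / (2 * Real.pi))) = _
    rw [e1, Real.tanh_artanh hy]

theorem EEM_mk_smooth {V : Type*} [NormedAddCommGroup V] [NormedSpace ℝ V] {f g : V → ℝ}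
    (hf : ContDiff ℝ ∞ f) (hg : ContDiff ℝ ∞ g) : ContDiff ℝ ∞ fun x => (⟨f x, g x⟩ : ℂ) := by
  have h : ContDiff ℝ ∞ (Complex.equivRealProdCLM.symm ∘ fun x => (f x, g x)) :=
    Complex.equivRealProdCLM.symm.contDiff.comp (hf.prodMk hg)
  have e : (fun x => (⟨f x, g x⟩ : ℂ)) = Complex.equivRealProdCLM.symm ∘ fun x => (f x, g x) := by
    funext x
    apply Complex.ext <;> simp
  rw [e]
  exact h

theorem EEM_re_smooth : ContDiff ℝ ∞ fun p : ℂ => 2 * Real.pi * p.re :=
  contDiff_const.mul Complex.reCLM.contDiff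

theorem EEM_im_smooth : ContDiff ℝ ∞ fun p : ℂ => 2 * Real.pi * p.im :=
  contDiff_const.mul Complex.imCLM.contDiff

theorem EEM_tanh_smooth : ContDiff ℝ ∞ Real.tanh := by
  have h : ContDiff ℝ ∞ fun x => Real.sinh x * sech x := Real.contDiff_sinh.mul sech_smooth
  have e : Real.tanh = fun x => Real.sinh x * sech x := by
    funext x
    unfold sech
    rw [Real.tanh_eq_sinh_div_cosh, div_eq_mul_inv]
  rw [e]
  exact h

theorem EE_smooth : ContDiff ℝ ∞ EE := by
  have h1 : ContDiff ℝ ∞ fun p : ℂ => sech (2 * Real.pi * p.re) := sech_smooth.comp EEM_re_smooth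
  have h2 : ContDiff ℝ ∞ fun p : ℂ => Real.tanh (2 * Real.pi * p.re) :=
    EEM_tanh_smooth.comp EEM_re_smooth
  have h3 : ContDiff ℝ ∞ fun p : ℂ => Real.cos (2 * Real.pi * p.im) :=
    Real.contDiff_cos.comp EEM_im_smooth
  have h4 : ContDiff ℝ ∞ fun p : ℂ => Real.sin (2 * Real.pi * p.im) :=
    Real.contDiff_sin.comp EEM_im_smooth
  exact (h1.mul h3).prodMk (EEM_mk_smooth h2 (h1.mul h4))

theorem EE_tanh {p : ℂ} (h : |p.im| < 1 / 4) : EE p = st (Complex.tanh (Real.pi * p)) := by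
  set a : ℝ := Real.pi * p.re with ha
  set b : ℝ := Real.pi * p.im with hb
  have hz : (Real.pi * p : ℂ) = (a : ℂ) + (b : ℂ) * I := by
    apply Complex.ext <;> simp [ha, hb]
  have ea : 2 * Real.pi * p.re = 2 * a := by rw [ha]; ring
  have eb : 2 * Real.pi * p.im = 2 * b := by rw [hb]; ring
  have hc : 0 < Real.cos (2 * b) := by
    apply Real.cos_pos_of_mem_Ioo
    have := abs_lt.1 h
    have hpi := Real.pi_pos
    constructor <;> rw [hb] <;> nlinarith [this.1, this.2]
  have hC : 0 < Real.cosh (2 * a) := Real.cosh_pos _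
  have e1 : Real.cosh (2 * a) = Real.cosh a ^ 2 + Real.sinh a ^ 2 := Real.cosh_two_mul a
  have e2 : Real.sinh (2 * a) = 2 * Real.sinh a * Real.cosh a := Real.sinh_two_mul a
  have e3 : Real.cos (2 * b) = Real.cos b ^ 2 - Real.sin b ^ 2 := Real.cos_two_mul' b
  have e4 : Real.sin (2 * b) = 2 * Real.sin b * Real.cos b := Real.sin_two_mul b
  have e5 := Real.cosh_sq a
  have e6 := Real.cos_sq_add_sin_sq b
  have hD : 0 < Real.cosh (2 * a) + Real.cos (2 * b) := by linarith
  have hT : Complex.tanh (Real.pi * p) =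
      (⟨Real.sinh (2 * a) / (Real.cosh (2 * a) + Real.cos (2 * b)),
        Real.sin (2 * b) / (Real.cosh (2 * a) + Real.cos (2 * b))⟩ : ℂ) := by
    have hsi : Complex.sinh (Real.pi * p) = ⟨Real.sinh a * Real.cos b, Real.cosh a * Real.sin b⟩ := by
      rw [hz, Complex.sinh_add, Complex.sinh_mul_I, Complex.cosh_mul_I]
      rw [← Complex.ofReal_sinh, ← Complex.ofReal_cosh, ← Complex.ofReal_sin, ← Complex.ofReal_cos]
      apply Complex.ext <;>
        simp only [Complex.add_re, Complex.add_im, Complex.mul_re, Complex.mul_im,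
          Complex.ofReal_re, Complex.ofReal_im, Complex.I_re, Complex.I_im] <;> ring1
    have hco : Complex.cosh (Real.pi * p) = ⟨Real.cosh a * Real.cos b, Real.sinh a * Real.sin b⟩ := by
      rw [hz, Complex.cosh_add, Complex.sinh_mul_I, Complex.cosh_mul_I]
      rw [← Complex.ofReal_sinh, ← Complex.ofReal_cosh, ← Complex.ofReal_sin, ← Complex.ofReal_cos]
      apply Complex.ext <;>
        simp only [Complex.add_re, Complex.add_im, Complex.mul_re, Complex.mul_im,
          Complex.ofReal_re, Complex.ofReal_im, Complex.I_re, Complex.I_im] <;> ring1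
    have hco0 : Complex.cosh (Real.pi * p) ≠ 0 := by
      intro h0
      rw [hco] at h0
      have r1 := congrArg Complex.re h0
      have r2 := congrArg Complex.im h0
      simp only [Complex.zero_re, Complex.zero_im] at r1 r2
      have : Real.cosh (2 * a) + Real.cos (2 * b)
          = 2 * ((Real.cosh a * Real.cos b) ^ 2 + (Real.sinh a * Real.sin b) ^ 2) := by
        rw [e1, e3]
        linear_combination (1 - 2 * Real.cos b ^ 2) * e5 - (1 + 2 * Real.sinh a ^ 2) * e6
      rw [r1, r2] at this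
      norm_num at this
      linarith
    rw [Complex.tanh_eq_sinh_div_cosh, div_eq_iff hco0, hsi, hco]
    apply Complex.ext
    · simp only [Complex.mul_re]
      rw [div_mul_eq_mul_div, div_mul_eq_mul_div, ← sub_div, eq_div_iff hD.ne', e1, e2, e3, e4]
      linear_combination (-Real.sinh a * Real.cos b) * (e5 - e6)
    · simp only [Complex.mul_im]
      rw [div_mul_eq_mul_div, div_mul_eq_mul_div, ← add_div, eq_div_iff hD.ne', e1, e2, e3, e4]
      linear_combination (Real.cosh a * Real.sin b) * (e5 - e6)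
  have e7 := Real.cosh_sq (2 * a)
  have e8 := Real.cos_sq_add_sin_sq (2 * b)
  have hN : ‖Complex.tanh (Real.pi * p)‖ ^ 2 = (Real.cosh (2 * a) - Real.cos (2 * b)) /
      (Real.cosh (2 * a) + Real.cos (2 * b)) := by
    rw [hT, Complex.sq_norm, Complex.normSq_mk]
    field_simp
    linear_combination -e7 + e8
  have hT1 : 1 + ‖Complex.tanh (Real.pi * p)‖ ^ 2 = 2 * Real.cosh (2 * a) /
      (Real.cosh (2 * a) + Real.cos (2 * b)) := by
    rw [hN]; field_simp; ring
  have hT2 : 1 - ‖Complex.tanh (Real.pi * p)‖ ^ 2 = 2 * Real.cos (2 * b) /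
      (Real.cosh (2 * a) + Real.cos (2 * b)) := by
    rw [hN]; field_simp; ring
  have h2r : ∀ z : ℂ, (2 * z).re = 2 * z.re := by intro z; simp
  have h2i : ∀ z : ℂ, (2 * z).im = 2 * z.im := by intro z; simp
  unfold st EE sech
  rw [ea, eb, hT1, hT2, hT, Real.tanh_eq_sinh_div_cosh]
  apply Prod.ext
  · simp only [Prod.smul_fst, smul_eq_mul]
    field_simp
  · simp only [Prod.smul_snd]
    rw [Complex.real_smul]
    apply Complex.ext
    · rw [Complex.re_ofReal_mul, h2r]
      simp only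
      field_simp
    · rw [Complex.im_ofReal_mul, h2i]
      simp only
      field_simp

theorem EEM_div {V : Type*} [NormedAddCommGroup V] [NormedSpace ℝ V] {f g : V → ℝ} {x : V}
    (hf : DifferentiableAt ℝ f x) (hg : DifferentiableAt ℝ g x) (h : g x ≠ 0) :
    DifferentiableAt ℝ (fun y => f y / g y) x := by
  have h1 : DifferentiableAt ℝ (fun y => (g y)⁻¹) x := hg.fun_inv h
  have h2 : DifferentiableAt ℝ (fun y => f y * (g y)⁻¹) x := hf.mul h1
  simpa only [div_eq_mul_inv] using h2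

theorem EEM_log {l : ℝ} (hl : 0 < l) (x : ℝ) :
    Real.log ((l + l * Real.tanh x) / (l - l * Real.tanh x)) = 2 * x := by
  have h1 : Real.exp x ≠ 0 := (Real.exp_pos x).ne'
  have e : (l + l * Real.tanh x) / (l - l * Real.tanh x) = Real.exp (2 * x) := by
    have hc := (Real.cosh_pos x).ne'
    have h2 : l + l * Real.tanh x = l * Real.exp x / Real.cosh x := by
      rw [Real.tanh_eq_sinh_div_cosh, ← Real.cosh_add_sinh]
      field_simp
    have h3 : l - l * Real.tanh x = l * Real.exp (-x) / Real.cosh x := by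
      rw [Real.tanh_eq_sinh_div_cosh, ← Real.cosh_sub_sinh]
      field_simp
    have h4 : Real.exp (2 * x) = Real.exp x / Real.exp (-x) := by
      rw [← Real.exp_sub]; ring_nf
    have h5 := (Real.exp_pos (-x)).ne'
    rw [h2, h3, h4]
    field_simp
  rw [e, Real.log_exp]

theorem EEM_log_im {l u : ℝ} (hl : 0 < l) (hu : |u| < 1 / 2) :
    (Complex.log ((l : ℂ) * ex u)).im = 2 * Real.pi * u := by
  rw [Complex.log_im]
  unfold ex
  rw [Complex.exp_mul_I]
  have hpi := Real.pi_pos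
  have hu' := abs_lt.1 hu
  have h := Complex.arg_mul_cos_add_sin_mul_I (r := l) hl (θ := 2 * Real.pi * u)
    ⟨by nlinarith, by nlinarith⟩
  exact h

theorem polarEE_ld {l : ℝ} (hl : 0 < l) (p : ℂ) :
    IsLocalDiffeomorphAt 𝓘(ℝ, ℝ × ℂ) 𝓘(ℝ, R3) ∞ (fun a : ℝ × ℂ => a.1 • EE a.2) (l, p) := by
  have hex : ∀ a b : ℝ, ex a * ex b = ex (a + b) := by
    intro a b
    unfold ex
    rw [← Complex.exp_add]
    congr 1
    push_cast
    ring
  have hnr : ∀ (l' : ℝ) (p' : ℂ), 0 < l' → nr (l' • EE p') = l' := by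
    intro l' p' hl'
    rw [nr_smul hl'.le, nr_EE, mul_one]
  have hre : ∀ (l' : ℝ) (p' : ℂ), (l' • EE p').2.re = l' * Real.tanh (2 * Real.pi * p'.re) := by
    intro l' p'
    simp [EE]
  have hzc : ∀ (l' : ℝ) (p' : ℂ), zc (l' • EE p') * ex (-p.im) =
      ((l' * sech (2 * Real.pi * p'.re) : ℝ) : ℂ) * ex (p'.im - p.im) := by
    intro l' p'
    have e : zc (l' • EE p') = (l' : ℂ) * zc (EE p') := by
      unfold zc
      apply Complex.ext <;> simp
    rw [e, zc_EE, sub_eq_add_neg, ← hex]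
    push_cast
    ring
  set g : R3 → ℝ × ℂ := fun X => (nr X,
    ((Real.log ((nr X + X.2.re) / (nr X - X.2.re)) / (4 * Real.pi) : ℝ) : ℂ) +
      ((p.im + (Complex.log (zc X * ex (-p.im))).im / (2 * Real.pi) : ℝ) : ℂ) * I) with hg
  have hX : l • EE p ≠ 0 := by
    rw [← nr_pos, hnr l p hl]
    exact hl
  refine ld_of_leftInv (g := g) rfl ?_ ?_ ?_
  · refine Eventually.of_forall fun y => ?_
    exact (contDiff_fst.smul (EE_smooth.comp contDiff_snd)).contDiffAt
  · have hn : DifferentiableAt ℝ nr (l • EE p) := (nr_smoothAt hX).differentiableAt (by simp)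
    have hr : DifferentiableAt ℝ (fun X : R3 => X.2.re) (l • EE p) :=
      (Complex.reCLM.differentiableAt).comp _ differentiableAt_snd
    have hc := Real.cosh_pos (2 * Real.pi * p.re)
    have ht : |Real.tanh (2 * Real.pi * p.re)| < 1 := by
      rw [abs_lt]
      have := EEM_sq (2 * Real.pi * p.re)
      have h2 := sech_pos (2 * Real.pi * p.re)
      constructor <;> nlinarith
    have ht' := abs_lt.1 ht
    have hd1 : nr (l • EE p) + (l • EE p).2.re ≠ 0 := by
      rw [hnr l p hl, hre]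
      nlinarith
    have hd2 : nr (l • EE p) - (l • EE p).2.re ≠ 0 := by
      rw [hnr l p hl, hre]
      nlinarith
    have hadd : DifferentiableAt ℝ (fun X : R3 => nr X + X.2.re) (l • EE p) := hn.add hr
    have hsub : DifferentiableAt ℝ (fun X : R3 => nr X - X.2.re) (l • EE p) := hn.sub hr
    have hdiv : DifferentiableAt ℝ (fun X : R3 => (nr X + X.2.re) / (nr X - X.2.re))
        (l • EE p) := by
      have hd3 : (fun X : R3 => nr X - X.2.re) (l • EE p) ≠ 0 := hd2
      exact EEM_div hadd hsub hd3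
    have hlog : DifferentiableAt ℝ
        (fun X : R3 => Real.log ((nr X + X.2.re) / (nr X - X.2.re)) / (4 * Real.pi)) (l • EE p) :=
      EEM_div (hdiv.log (div_ne_zero hd1 hd2)) (differentiableAt_const _) (by positivity)
    have hz : DifferentiableAt ℝ (fun X : R3 => zc X * ex (-p.im)) (l • EE p) := by
      have e : (fun X : R3 => zc X * ex (-p.im)) =
          fun X : R3 => ((X.1 : ℂ) + (X.2.im : ℂ) * I) * ex (-p.im) := by
        funext X
        congr 1
        unfold zc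
        apply Complex.ext <;> simp
      rw [e]
      have h1 : DifferentiableAt ℝ (fun X : R3 => (X.1 : ℂ)) (l • EE p) :=
        (Complex.ofRealCLM.differentiableAt).comp _ differentiableAt_fst
      have h2 : DifferentiableAt ℝ (fun X : R3 => (X.2.im : ℂ)) (l • EE p) :=
        (Complex.ofRealCLM.differentiableAt).comp _
          ((Complex.imCLM.differentiableAt).comp _ differentiableAt_snd)
      exact (h1.add (h2.mul_const _)).mul_const _
    have hsl : zc (l • EE p) * ex (-p.im) ∈ Complex.slitPlane := by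
      rw [hzc, sub_self]
      have : ex 0 = 1 := by unfold ex; simp
      rw [this, mul_one]
      rw [Complex.ofReal_mem_slitPlane]
      exact mul_pos hl (sech_pos _)
    have hlc : DifferentiableAt ℝ Complex.log (zc (l • EE p) * ex (-p.im)) :=
      (Complex.differentiableAt_log hsl).restrictScalars ℝ
    have hzz : DifferentiableAt ℝ (fun X : R3 => (Complex.log (zc X * ex (-p.im))).im)
        (l • EE p) := by
      have hlc' : DifferentiableAt ℝ Complex.log
          ((fun X : R3 => zc X * ex (-p.im)) (l • EE p)) := hlc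
      have h3 : DifferentiableAt ℝ (Complex.log ∘ fun X : R3 => zc X * ex (-p.im)) (l • EE p) :=
        hlc'.comp (l • EE p) hz
      exact (Complex.imCLM.differentiableAt).comp _ h3
    have hA : DifferentiableAt ℝ (fun X : R3 =>
        ((Real.log ((nr X + X.2.re) / (nr X - X.2.re)) / (4 * Real.pi) : ℝ) : ℂ)) (l • EE p) :=
      (Complex.ofRealCLM.differentiableAt).comp _ hlog
    have hB : DifferentiableAt ℝ (fun X : R3 =>
        ((p.im + (Complex.log (zc X * ex (-p.im))).im / (2 * Real.pi) : ℝ) : ℂ)) (l • EE p) :=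
      (Complex.ofRealCLM.differentiableAt).comp _
        ((EEM_div hzz (differentiableAt_const _) (by positivity)).const_add _)
    exact hn.prodMk (hA.add (hB.mul_const _))
  · have h1 : ∀ᶠ y : ℝ × ℂ in 𝓝 (l, p), 0 < y.1 :=
      (continuous_fst.tendsto (l, p)).eventually (Ioi_mem_nhds hl)
    have h2 : ∀ᶠ y : ℝ × ℂ in 𝓝 (l, p), |y.2.im - p.im| < 1 / 2 := by
      have hc : Continuous fun y : ℝ × ℂ => |y.2.im - p.im| :=
        ((Complex.continuous_im.comp continuous_snd).sub continuous_const).abs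
      refine (hc.tendsto (l, p)).eventually (Iio_mem_nhds ?_)
      simp
    filter_upwards [h1, h2] with y hy1 hy2
    have e2 := EEM_log hy1 (2 * Real.pi * y.2.re)
    have e3 := EEM_log_im (mul_pos hy1 (sech_pos (2 * Real.pi * y.2.re))) hy2
    rw [hg]
    simp only
    rw [hnr _ _ hy1, hre, hzc, e2, e3]
    have hpi := Real.pi_pos.ne'
    apply Prod.ext
    · rfl
    · apply Complex.ext
      · rw [Complex.add_re, Complex.ofReal_re, Complex.re_ofReal_mul, Complex.I_re]
        field_simp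
        ring
      · rw [Complex.add_im, Complex.ofReal_im, Complex.im_ofReal_mul, Complex.I_im]
        field_simp
        ring

theorem nr_E2 (h0 : 0 < ε) (h1 : ε ≤ 1 / 1000) (p : ℂ) : nr (E2 ε p) = 1 := by
  unfold E2
  rw [nr_DD h0 h1, nr_VV, nr_EE]

theorem E2_per (p : ℂ) (n : ℤ) : E2 ε (p + n * I) = E2 ε p := by
  unfold E2
  rw [EE_per]

theorem E2_inj (h0 : 0 < ε) (h1 : ε ≤ 1 / 1000) {p p' : ℂ} (h : E2 ε p = E2 ε p') :
    ∃ n : ℤ, p' = p + n * I :=
  EE_inj (VV_bij.injective ((DD_bij h0 h1).injective h))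

theorem E2_smooth (h0 : 0 < ε) (h1 : ε ≤ 1 / 1000) : ContDiff ℝ ∞ (E2 ε) := by
  have hD : ContDiff ℝ ∞ (DD ε) := by
    rw [← contMDiff_iff_contDiff]
    intro x
    exact (DD_ld h0 h1 x).contMDiffAt
  have hV : ContDiff ℝ ∞ VV := by
    rw [← contMDiff_iff_contDiff]
    intro x
    exact (VV_ld x).contMDiffAt
  exact hD.comp (hV.comp EE_smooth)

/-- every point of the sphere, except the two poles -/
theorem E2_surj (h0 : 0 < ε) (h1 : ε ≤ 1 / 1000) {E : R3} (h : nr E = 1) :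
    (∃ p, E2 ε p = E) ∨ E = DD ε (Ep 1 0) ∨ E = DD ε (Ep (-1) 0) := by
  obtain ⟨E', rfl⟩ := (DD_bij h0 h1).surjective E
  rw [nr_DD h0 h1] at h
  obtain ⟨E'', rfl⟩ := VV_bij.surjective E'
  rw [nr_VV] at h
  by_cases hz : zc E'' = 0
  · right
    have h2 := nr_sq' E''
    rw [h, hz, norm_zero] at h2
    have h3 : (E''.2.re - 1) * (E''.2.re + 1) = 0 := by nlinarith
    unfold zc at hz
    have h4 := congrArg Complex.re hz
    have h5 := congrArg Complex.im hz
    simp only [Complex.zero_re, Complex.zero_im] at h4 h5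
    have hid : VV E'' = E'' := by
      apply VV_id
      rw [h, h4]
      have h8 := Complex.abs_re_le_norm E''.2
      have h7 : |E''.2.re| = 1 := by
        rcases mul_eq_zero.1 h3 with h6 | h6
        · rw [show E''.2.re = 1 by linarith, abs_one]
        · rw [show E''.2.re = -1 by linarith, abs_neg, abs_one]
      rw [h7] at h8
      linarith
    rw [hid]
    have hEp : ∀ sg : ℝ, Ep sg 0 = (0, ⟨sg, 0⟩) := by
      intro sg
      unfold Ep
      simp
    rcases mul_eq_zero.1 h3 with h6 | h6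
    · left
      rw [hEp]
      congr 1
      exact Prod.ext h4 (Complex.ext (by simp only; linarith) h5)
    · right
      rw [hEp]
      congr 1
      exact Prod.ext h4 (Complex.ext (by simp only; linarith) h5)
  · left
    obtain ⟨p, rfl⟩ := EE_surj h hz
    exact ⟨p, rfl⟩

theorem EEM_tanh_le {z : ℂ} (h : ‖z‖ ≤ 1562 / 100000) : ‖Complex.tanh z‖ ≤ 1 / 60 := by
  have hA := Complex.norm_exp_sub_one_sub_id_le (x := z) (by linarith)
  have hB := Complex.norm_exp_sub_one_sub_id_le (x := -z) (by rw [norm_neg]; linarith)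
  rw [norm_neg] at hB
  have h0 := norm_nonneg z
  have hs : ‖Complex.sinh z‖ ≤ ‖z‖ + ‖z‖ ^ 2 := by
    have e : Complex.sinh z = z + ((Complex.exp z - 1 - z) - (Complex.exp (-z) - 1 - -z)) / 2 := by
      unfold Complex.sinh
      ring
    rw [e]
    refine (norm_add_le _ _).trans ?_
    rw [norm_div]
    have := norm_sub_le (Complex.exp z - 1 - z) (Complex.exp (-z) - 1 - -z)
    have h2 : ‖(2 : ℂ)‖ = 2 := by simp
    rw [h2]
    linarith
  have hc : 1 - ‖z‖ ^ 2 ≤ ‖Complex.cosh z‖ := by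
    have e : Complex.cosh z = 1 - -(((Complex.exp z - 1 - z) + (Complex.exp (-z) - 1 - -z)) / 2) := by
      unfold Complex.cosh
      ring
    rw [e]
    refine le_trans ?_ (norm_sub_norm_le _ _)
    rw [norm_neg, norm_div]
    have := norm_add_le (Complex.exp z - 1 - z) (Complex.exp (-z) - 1 - -z)
    have h2 : ‖(2 : ℂ)‖ = 2 := by simp
    rw [h2, norm_one]
    linarith
  have hc0 : 0 < ‖Complex.cosh z‖ := by nlinarith
  rw [Complex.tanh_eq_sinh_div_cosh, norm_div, div_le_iff₀ hc0]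
  nlinarith

theorem E2_corner (h0 : 0 < ε) (h1 : ε ≤ 1 / 1000) {p : ℂ} (h : ‖p‖ ≤ 497 / 100 * ε) :
    E2 ε p = st (p / ε) := by
  have hpi := Real.pi_pos
  have hpi' := Real.pi_lt_d4
  have hz : ‖(Real.pi * p : ℂ)‖ ≤ 1562 / 100000 := by
    rw [norm_mul, Complex.norm_real, Real.norm_eq_abs, abs_of_pos hpi]
    calc Real.pi * ‖p‖ ≤ 3.1416 * (497 / 100 * (1 / 1000)) := by
          apply mul_le_mul hpi'.le _ (norm_nonneg _) (by norm_num)
          linarith
      _ ≤ _ := by norm_num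
  have hv := EEM_tanh_le hz
  have him : |p.im| < 1 / 4 := by
    have := Complex.abs_im_le_norm p
    linarith
  have htau : tau 1 = 1 := by
    unfold tau
    exact stp_one (by norm_num) le_rfl
  have h2 : VV (EE p) = st (Real.pi * p) := by
    have h3 := VV_st one_pos (Complex.tanh (Real.pi * p))
    rw [one_smul, one_smul, htau, bb_small hv, artanh_tanh (z := Real.pi * p)] at h3
    · rw [EE_tanh him, h3]
      congr 1
      push_cast
      ring
    · have : (Real.pi * p : ℂ).im = Real.pi * p.im := by simp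
      rw [this, abs_mul, abs_of_pos hpi]
      nlinarith [him]
  unfold E2
  rw [h2]
  have h4 := DD_st h0 h1 le_rfl (Real.pi * p)
  rw [one_smul, one_smul] at h4
  rw [h4]
  congr 1
  push_cast
  have : (Real.pi : ℂ) ≠ 0 := by exact_mod_cast hpi.ne'
  have : (ε : ℂ) ≠ 0 := by exact_mod_cast h0.ne'
  field_simp

theorem E2_far (h0 : 0 < ε) (h1 : ε ≤ 1 / 1000) {c : ℝ} (hc : 0 < c) (hc' : c ≤ 497 / 100)
    (p : ℂ) : (1 - c ^ 2) / (1 + c ^ 2) < (E2 ε p).1 ↔ ∃ n : ℤ, ‖p - n * I‖ < c * ε := by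
  have hε : (ε : ℂ) ≠ 0 := by exact_mod_cast h0.ne'
  constructor
  · intro h
    have h2 : (E2 ε p).1 ≠ -1 := by
      intro h3
      rw [h3, div_lt_iff₀ (by positivity)] at h
      nlinarith
    obtain ⟨w, hw⟩ := exists_st (nr_E2 h0 h1 p) h2
    have h3 : ‖w‖ < c := by
      by_contra hcon
      have := (st_fst_le hc.le w).2 (not_lt.1 hcon)
      rw [← hw] at this
      linarith
    have h4 : ‖(ε * w : ℂ)‖ < c * ε := by
      rw [norm_mul, Complex.norm_real, Real.norm_eq_abs, abs_of_pos h0]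
      nlinarith
    have h5 : E2 ε (ε * w) = st w := by
      rw [E2_corner h0 h1 (h4.le.trans (mul_le_mul_of_nonneg_right hc' h0.le))]
      congr 1
      field_simp
    obtain ⟨n, hn⟩ := E2_inj h0 h1 (hw.trans h5.symm)
    refine ⟨-n, ?_⟩
    have : p - ((-n : ℤ) : ℂ) * I = ε * w := by
      rw [hn]; push_cast; ring
    rw [this]
    exact h4
  · rintro ⟨n, hn⟩
    have h2 : E2 ε p = E2 ε (p - n * I) := by
      have := E2_per (ε := ε) (p - n * I) n
      rw [← this]
      congr 1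
      ring
    rw [h2, E2_corner h0 h1 (hn.le.trans (mul_le_mul_of_nonneg_right hc' h0.le))]
    by_contra hcon
    have h3 := (st_fst_le hc.le _).1 (not_lt.1 hcon)
    rw [norm_div, Complex.norm_real, Real.norm_eq_abs, abs_of_pos h0, le_div_iff₀ h0] at h3
    linarith

theorem EEM_inv {X : R3} (h : X.1 < 0) :
    (nr X / √(1 + ‖aa X‖ ^ 2)) • ((-1, aa X) : R3) = X := by
  have h1 : 1 + ‖aa X‖ ^ 2 = (nr X / (-X.1)) ^ 2 := by
    unfold aa
    rw [norm_neg, norm_div, Complex.norm_real, Real.norm_eq_abs, div_pow, div_pow, nr_sq, sq_abs]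
    have : X.1 ≠ 0 := h.ne
    field_simp
  have h2 : 0 < nr X := by
    have := abs_fst_le_nr X
    rw [abs_of_neg h] at this
    linarith
  rw [h1, Real.sqrt_sq (by apply div_nonneg h2.le; linarith)]
  have h3 : nr X / (nr X / (-X.1)) = -X.1 := by
    have : X.1 ≠ 0 := h.ne
    field_simp
  rw [h3]
  apply Prod.ext
  · simp
  · unfold aa
    simp only [Prod.smul_snd]
    have : (X.1 : ℂ) ≠ 0 := by exact_mod_cast h.ne
    rw [Complex.real_smul]
    push_cast
    field_simp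

theorem EEM_aa_smoothAt {X : R3} (h : X.1 ≠ 0) : ContDiffAt ℝ ∞ aa X := by
  have h1 : ContDiffAt ℝ ∞ (fun X : R3 => (X.1 : ℂ)) X :=
    (Complex.ofRealCLM.contDiff.comp contDiff_fst).contDiffAt
  have h2 : ContDiffAt ℝ ∞ (fun X : R3 => X.2) X := contDiff_snd.contDiffAt
  have h3 := (h2.mul (h1.inv (by exact_mod_cast h))).neg
  have e : aa = fun X : R3 => -(X.2 * (X.1 : ℂ)⁻¹) := by
    funext X
    unfold aa
    rw [div_eq_mul_inv]
  rw [e]
  exact h3

theorem EEM_neg_ld {X : R3} (h : X.1 < 0) :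
    IsLocalDiffeomorphAt 𝓘(ℝ, R3) 𝓘(ℝ, ℝ × ℂ) ∞ (fun X : R3 => (nr X, aa X)) X := by
  have hev : ∀ᶠ Y : R3 in 𝓝 X, Y.1 < 0 :=
    (continuous_fst.tendsto X).eventually (Iio_mem_nhds h)
  refine ld_of_leftInv (g := fun b : ℝ × ℂ => (b.1 / √(1 + ‖b.2‖ ^ 2)) • ((-1, b.2) : R3)) rfl
    ?_ ?_ ?_
  · filter_upwards [hev] with Y hY
    have hY0 : Y ≠ 0 := by
      rintro rfl
      exact lt_irrefl _ hY
    exact (nr_smoothAt hY0).prodMk (EEM_aa_smoothAt hY.ne)
  · have h1 : DifferentiableAt ℝ (fun b : ℝ × ℂ => 1 + ‖b.2‖ ^ 2) (nr X, aa X) := by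
      have : ContDiff ℝ ∞ fun b : ℝ × ℂ => 1 + ‖b.2‖ ^ 2 :=
        contDiff_const.add (contDiff_snd.norm_sq ℝ)
      exact this.differentiable (by simp) _
    have h2 : DifferentiableAt ℝ (fun b : ℝ × ℂ => √(1 + ‖b.2‖ ^ 2)) (nr X, aa X) :=
      h1.sqrt (by positivity)
    have h3 : DifferentiableAt ℝ (fun b : ℝ × ℂ => b.1 / √(1 + ‖b.2‖ ^ 2)) (nr X, aa X) :=
      by
      have hd3 : (fun b : ℝ × ℂ => √(1 + ‖b.2‖ ^ 2)) (nr X, aa X) ≠ 0 :=
        Real.sqrt_ne_zero'.2 (by positivity)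
      exact EEM_div differentiableAt_fst h2 hd3
    exact h3.smul ((differentiableAt_const _).prodMk differentiableAt_snd)
  · filter_upwards [hev] with Y hY
    exact EEM_inv hY

theorem aaE2_ld (h0 : 0 < ε) (h1 : ε ≤ 1 / 1000) {p : ℂ} (h : (E2 ε p).1 < 0) :
    IsLocalDiffeomorphAt 𝓘(ℝ, ℂ) 𝓘(ℝ, ℂ) ∞ (fun p => aa (E2 ε p)) p := by
  have hid : ∀ (l : ℝ) (q : ℂ), 1 ≤ l → DD ε (VV (l • EE q)) = l • E2 ε q := by
    intro l q hl
    rw [VV_smul (by rw [nr_EE]) hl, DD_smul h0 h1 (by rw [nr_VV, nr_EE]) hl]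
    rfl
  have hneg : (DD ε (VV ((2 : ℝ) • EE p))).1 < 0 := by
    rw [hid 2 p (by norm_num)]
    show 2 * (E2 ε p).1 < 0
    linarith
  have k1 := polarEE_ld (l := 2) two_pos p
  have k2 : IsLocalDiffeomorphAt 𝓘(ℝ, ℝ × ℂ) 𝓘(ℝ, R3) ∞
      (VV ∘ fun a : ℝ × ℂ => a.1 • EE a.2) (2, p) :=
    IsLocalDiffeomorphAt.comp (hf := k1) (hg := VV_ld _) ..
  have k3 : IsLocalDiffeomorphAt 𝓘(ℝ, ℝ × ℂ) 𝓘(ℝ, R3) ∞
      (DD ε ∘ VV ∘ fun a : ℝ × ℂ => a.1 • EE a.2) (2, p) :=
    IsLocalDiffeomorphAt.comp (hf := k2) (hg := DD_ld h0 h1 _) ..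
  have k4 : IsLocalDiffeomorphAt 𝓘(ℝ, ℝ × ℂ) 𝓘(ℝ, ℝ × ℂ) ∞
      ((fun X : R3 => (nr X, aa X)) ∘ DD ε ∘ VV ∘ fun a : ℝ × ℂ => a.1 • EE a.2) (2, p) :=
    IsLocalDiffeomorphAt.comp (hf := k3) (hg := EEM_neg_ld hneg) ..
  have k5 : IsLocalDiffeomorphAt 𝓘(ℝ, ℝ × ℂ) 𝓘(ℝ, ℝ × ℂ) ∞
      (fun a : ℝ × ℂ => (a.1, aa (E2 ε a.2))) (2, p) := by
    refine ld_congr k4 ?_
    have hev : ∀ᶠ a : ℝ × ℂ in 𝓝 ((2 : ℝ), p), 1 < a.1 :=
      (continuous_fst.tendsto ((2 : ℝ), p)).eventually (Ioi_mem_nhds (by norm_num))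
    filter_upwards [hev] with a ha
    have ha0 : (a.1 : ℂ) ≠ 0 := by
      have : a.1 ≠ 0 := by linarith
      exact_mod_cast this
    show (a.1, aa (E2 ε a.2)) = (nr (DD ε (VV (a.1 • EE a.2))), aa (DD ε (VV (a.1 • EE a.2))))
    rw [hid a.1 a.2 ha.le, nr_smul (by linarith), nr_E2 h0 h1, mul_one]
    congr 1
    unfold aa
    simp only [Prod.smul_fst, Prod.smul_snd, smul_eq_mul, Complex.real_smul]
    push_cast
    rw [mul_div_mul_left _ _ ha0]
  have hcont : Continuous (E2 ε) := (E2_smooth h0 h1).continuous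
  refine ld_of_leftInv (g := fun b : ℂ => (k5.localInverse (2, b)).2) rfl ?_ ?_ ?_
  · have hev : ∀ᶠ q : ℂ in 𝓝 p, (E2 ε q).1 < 0 :=
      ((continuous_fst.comp hcont).tendsto p).eventually (Iio_mem_nhds h)
    filter_upwards [hev] with q hq
    exact (EEM_aa_smoothAt hq.ne).comp q (E2_smooth h0 h1).contDiffAt
  · have h3 := (contMDiffAt_iff_contDiffAt.1 k5.localInverse_contMDiffAt).differentiableAt
      (by simp)
    have h4 : DifferentiableAt ℝ (fun b : ℂ => ((2 : ℝ), b)) (aa (E2 ε p)) :=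
      (differentiableAt_const _).prodMk differentiableAt_id
    exact (h3.comp (aa (E2 ε p)) h4).snd
  · have h5 := k5.localInverse_eventuallyEq_left
    have hc : Tendsto (fun q : ℂ => ((2 : ℝ), q)) (𝓝 p) (𝓝 ((2 : ℝ), p)) :=
      (continuous_const.prodMk continuous_id).tendsto p
    filter_upwards [hc.eventually h5] with q hq
    have h6 : k5.localInverse (2, aa (E2 ε q)) = (2, q) := hq
    show (k5.localInverse (2, aa (E2 ε q))).2 = q
    rw [h6]

/-- a unit vector with negative first coordinate is determined by `aa` -/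
theorem aa_inj {E E' : R3} (h : nr E = 1) (h' : nr E' = 1) (hn : E.1 < 0) (hn' : E'.1 < 0)
    (ha : aa E = aa E') : E = E' := by
  rw [← EEM_inv hn, ← EEM_inv hn', h, h', ha]

theorem aa_norm {E : R3} (h : nr E = 1) (hn : E.1 < 0) {R : ℝ} (hR : 1 < R) :
    ‖aa E‖ ≤ kap R ↔ E.1 ≤ -((R ^ 2 - 1) / (R ^ 2 + 1)) := by
  have hR1 : 0 < R ^ 2 - 1 := by nlinarith
  have hR2 : 0 < R ^ 2 + 1 := by positivity
  have h1 := nr_sq E
  rw [h] at h1
  set y := -E.1 with hy
  have hy0 : 0 < y := by linarith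
  have hk : 0 ≤ kap R := by
    unfold kap
    exact div_nonneg (by linarith) hR1.le
  have ha : ‖aa E‖ ^ 2 = (1 - y ^ 2) / y ^ 2 := by
    unfold aa
    rw [norm_neg, norm_div, Complex.norm_real, Real.norm_eq_abs, div_pow, sq_abs]
    have : ‖E.2‖ ^ 2 = 1 - y ^ 2 := by rw [hy]; linarith
    rw [this]
    congr 1
    rw [hy]
    ring
  rw [← sq_le_sq₀ (norm_nonneg _) hk, ha, div_le_iff₀ (by positivity)]
  have e1 : kap R ^ 2 + 1 = ((R ^ 2 + 1) / (R ^ 2 - 1)) ^ 2 := by
    unfold kap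
    field_simp
    ring
  have e2 : (1 - y ^ 2 ≤ kap R ^ 2 * y ^ 2) ↔ 1 ^ 2 ≤ ((R ^ 2 + 1) / (R ^ 2 - 1) * y) ^ 2 := by
    rw [mul_pow, ← e1]
    constructor <;> intro h <;> linarith
  rw [e2, sq_le_sq₀ zero_le_one (by positivity)]
  constructor
  · intro h3
    have h4 : (R ^ 2 - 1) / (R ^ 2 + 1) ≤ y := by
      rw [div_le_iff₀ hR2]
      rw [div_mul_eq_mul_div, le_div_iff₀ hR1] at h3
      linarith
    linarith
  · intro h3
    have h4 : (R ^ 2 - 1) / (R ^ 2 + 1) ≤ y := by linarith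
    rw [div_le_iff₀ hR2] at h4
    rw [div_mul_eq_mul_div, le_div_iff₀ hR1]
    linarith

end Pool.Agent.TS
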