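import Pool.Agent.TS.BDef
import Pool.Agent.TS.TwM
import Pool.Agent.TS.NsM
import Pool.Agent.TS.WwM
import Pool.Agent.TS.EEM
import Pool.Agent.TS.OmTM
import Pool.Agent.TS.OmCM
import Pool.Agent.TS.SphM

/-!
# TS/BrM: local diffeomorphism property of the coordinate maps (with local branches of the argument)
`coordK_ld`: `α (p, r) = β (r) - k Im p - k twc (zK p r)` with `β` a smooth local branch of `arg r / 2π` near `r₁`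
(`β r = β₀ + arg (r / ex β₀ ..) / 2π`); the map `(p, r) ↦ (α, Re p, (‖r‖/ε) ex (Im p))` has the smooth local left
inverse `(q, x, ζ) ↦ (x + i τ, ε ‖ζ‖ ex (q + k τ + k twc ζ))`, `τ` a branch of `arg ζ / 2π` (`ld_of_leftInv`).
`coordT_ld` similar (inverse `p = ε ‖Z‖ ex (q + e thc τ)`, `r = y + i τ`).
`bK_ld`: `bK = sw ∘ OmT ∘ (coordinates)` up to periods (`OmT_per`), with `x ↦ nsi ε x` a local diffeomorphism (inverse
of `ns`: `ns_ld`, `nsi_continuousAt`).  `bT_ld`: `bT = sw ∘ OmC ∘ (r̂, ν')`, `(p, r) ↦ (nsi ε Re r + i Im r, nT)` has the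
inverse `(r̂, ν) ↦ (ε ww(Re r̂) ex (e thc Im r̂) ν, ns ε Re r̂ + i Im r̂)`.
`sgm_ld`: `δ ↦ δ / √(1 - δ^2)` on `|δ| < 1`, inverse `σ ↦ σ / √(1 + σ^2)`.
-/

open scoped Manifold ContDiff Topology
open Complex (I)
open Set Filter

namespace Pool.Agent.TS
open Pool.Agent.CSG

variable {ε : ℝ} {k e : ℤ}

theorem BrM_arg {Z : ℂ} (h : Z ∈ Complex.slitPlane) : ContDiffAt ℝ ∞ Complex.arg Z := by
  have h1 : ContDiffAt ℝ ∞ Complex.log Z := (Complex.contDiffAt_log (n := ∞) h).restrict_scalars ℝ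
  have h2 : ContDiffAt ℝ ∞ (fun z => Complex.imCLM (Complex.log z)) Z :=
    Complex.imCLM.contDiff.contDiffAt.comp Z h1
  have e : (fun z => Complex.imCLM (Complex.log z)) = Complex.arg := by
    funext z
    simp [Complex.log_im]
  rwa [e] at h2

/-- local branch of `arg / 2π` near `z₁`, with value `u₁` at `z₁` -/
noncomputable def BrM_br (z₁ : ℂ) (u₁ : ℝ) (z : ℂ) : ℝ :=
  u₁ + Complex.arg (z / z₁) / (2 * Real.pi)

theorem BrM_br_smooth {z₁ : ℂ} (h : z₁ ≠ 0) (u₁ : ℝ) :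
    ∀ᶠ z in 𝓝 z₁, z ≠ 0 ∧ ContDiffAt ℝ ∞ (BrM_br z₁ u₁) z := by
  have h1 : ∀ᶠ z in 𝓝 z₁, z / z₁ ∈ Complex.slitPlane := by
    have hc : ContinuousAt (fun z : ℂ => z / z₁) z₁ := by
      apply ContinuousAt.div continuousAt_id continuousAt_const h
    apply hc.eventually_mem
    rw [div_self h]
    exact Complex.isOpen_slitPlane.mem_nhds Complex.one_mem_slitPlane
  have h2 : ∀ᶠ z in 𝓝 z₁, z ≠ 0 := isOpen_ne.mem_nhds h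
  filter_upwards [h1, h2] with z hz hz2
  refine ⟨hz2, ?_⟩
  unfold BrM_br
  have h3 : ContDiffAt ℝ ∞ (fun z : ℂ => z / z₁) z := by
    simp only [div_eq_mul_inv]
    exact contDiffAt_id.mul contDiffAt_const
  have h4 : ContDiffAt ℝ ∞ (fun z : ℂ => Complex.arg (z / z₁)) z :=
    ContDiffAt.comp (g := Complex.arg) (f := fun z : ℂ => z / z₁) z (BrM_arg hz) h3
  exact contDiffAt_const.add (h4.div_const _)

theorem BrM_br_ex {z₁ z : ℂ} (h : z₁ ≠ 0) {u₁ : ℝ} (hu : z₁ = ‖z₁‖ * ex u₁) :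
    (‖z‖ : ℂ) * ex (BrM_br z₁ u₁ z) = z := by
  unfold BrM_br
  rw [ex_add]
  have h1 := ex_arg (z / z₁)
  have hn : (‖z₁‖ : ℂ) ≠ 0 := by
    exact_mod_cast norm_ne_zero_iff.2 h
  rw [norm_div] at h1
  push_cast at h1
  have h2 : (‖z‖ : ℂ) * ex (Complex.arg (z / z₁) / (2 * Real.pi)) = z / z₁ * ‖z₁‖ := by
    calc (‖z‖ : ℂ) * ex (Complex.arg (z / z₁) / (2 * Real.pi))
        = (‖z‖ : ℂ) / ‖z₁‖ * ex (Complex.arg (z / z₁) / (2 * Real.pi)) * ‖z₁‖ := by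
          field_simp
      _ = z / z₁ * ‖z₁‖ := by rw [h1]
  calc (‖z‖ : ℂ) * (ex u₁ * ex (Complex.arg (z / z₁) / (2 * Real.pi)))
      = ex u₁ * ((‖z‖ : ℂ) * ex (Complex.arg (z / z₁) / (2 * Real.pi))) := by ring
    _ = ex u₁ * (z / z₁ * ‖z₁‖) := by rw [h2]
    _ = z / z₁ * (‖z₁‖ * ex u₁) := by ring
    _ = z := by rw [← hu, div_mul_cancel₀ _ h]

theorem BrM_ex_ne (u : ℝ) : ex u ≠ 0 := by
  unfold ex
  exact Complex.exp_ne_zero _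

theorem BrM_arg_ex {v : ℝ} (hv : |v| < 1 / 2) {l : ℝ} (hl : 0 < l) :
    Complex.arg ((l : ℂ) * ex v) = 2 * Real.pi * v := by
  have hpi := Real.pi_pos
  rw [Complex.arg_real_mul _ hl]
  unfold ex
  rw [Complex.exp_mul_I]
  have h1 := abs_lt.1 hv
  exact_mod_cast Complex.arg_cos_add_sin_mul_I (θ := 2 * Real.pi * v)
    ⟨by nlinarith, by nlinarith⟩

theorem BrM_br_pol {z₁ : ℂ} {u₁ s₁ s u : ℝ} (hs₁ : 0 < s₁) (hz : z₁ = s₁ * ex u₁) (hs : 0 < s)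
    (hu : |u - u₁| < 1 / 2) : BrM_br z₁ u₁ (s * ex u) = u := by
  unfold BrM_br
  have hpi := Real.pi_pos
  have e : (s : ℂ) * ex u / z₁ = ((s / s₁ : ℝ) : ℂ) * ex (u - u₁) := by
    have h1 : ex u = ex u₁ * ex (u - u₁) := by
      rw [← ex_add]
      congr 1
      ring
    have h2 : (s₁ : ℂ) ≠ 0 := by exact_mod_cast hs₁.ne'
    have h3 := BrM_ex_ne u₁
    rw [hz, h1]
    push_cast
    field_simp
  rw [e, BrM_arg_ex hu (div_pos hs hs₁)]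
  field_simp
  ring

theorem BrM_norm_smooth {z : ℂ} (h : z ≠ 0) : ContDiffAt ℝ ∞ (fun z : ℂ => ‖z‖) z :=
  contDiffAt_norm ℝ h

theorem BrM_ofReal {V : Type*} [NormedAddCommGroup V] [NormedSpace ℝ V] {f : V → ℝ} {x : V}
    (hf : ContDiffAt ℝ ∞ f x) : ContDiffAt ℝ ∞ (fun y => ((f y : ℝ) : ℂ)) x :=
  Complex.ofRealCLM.contDiff.contDiffAt.comp x hf

theorem BrM_ofReal_diff {V : Type*} [NormedAddCommGroup V] [NormedSpace ℝ V] {f : V → ℝ} {x : V}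
    (hf : DifferentiableAt ℝ f x) : DifferentiableAt ℝ (fun y => ((f y : ℝ) : ℂ)) x :=
  Complex.ofRealCLM.differentiableAt.comp x hf

theorem BrM_re_smooth : ContDiff ℝ ∞ (fun z : ℂ => z.re) := Complex.reCLM.contDiff

theorem BrM_im_smooth : ContDiff ℝ ∞ (fun z : ℂ => z.im) := Complex.imCLM.contDiff

theorem BrM_zK_smooth (ε : ℝ) {a : ℂ × ℂ} (h : a.2 ≠ 0) :
    ContDiffAt ℝ ∞ (fun a : ℂ × ℂ => zK ε a.1 a.2) a := by
  unfold zK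
  have h1 : ContDiffAt ℝ ∞ (fun a : ℂ × ℂ => ‖a.2‖) a :=
    (BrM_norm_smooth h).comp a contDiffAt_snd
  have h2 : ContDiffAt ℝ ∞ (fun a : ℂ × ℂ => ex a.1.im) a :=
    (ex_smooth.comp (BrM_im_smooth.comp contDiff_fst)).contDiffAt
  exact (BrM_ofReal (h1.div_const ε)).mul h2

theorem BrM_dim : Module.finrank ℝ (ℂ × ℂ) = Module.finrank ℝ (ℝ × ℝ × ℂ) := by
  simp [Module.finrank_prod, Complex.finrank_real_complex]

theorem BrM_gen (h0 : 0 < ε) {T : ℝ × ℂ → ℝ} (hT : ContDiff ℝ ∞ T) {p₁ r₁ : ℂ} (hr : r₁ ≠ 0) :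
    IsLocalDiffeomorphAt 𝓘(ℝ, ℂ × ℂ) 𝓘(ℝ, ℝ × ℝ × ℂ) ∞
      (fun a : ℂ × ℂ => (BrM_br r₁ (Complex.arg r₁ / (2 * Real.pi)) a.2 -
        T (a.1.im, zK ε a.1 a.2), a.1.re, zK ε a.1 a.2)) (p₁, r₁) := by
  have hpol : r₁ = ‖r₁‖ * ex (Complex.arg r₁ / (2 * Real.pi)) := (ex_arg r₁).symm
  have hn₁ : 0 < ‖r₁‖ / ε := div_pos (norm_pos_iff.2 hr) h0
  have hz₁ : zK ε p₁ r₁ = ((‖r₁‖ / ε : ℝ) : ℂ) * ex p₁.im := rfl
  have hz₁0 : zK ε p₁ r₁ ≠ 0 := by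
    rw [hz₁]
    exact mul_ne_zero (by exact_mod_cast hn₁.ne') (BrM_ex_ne _)
  have hbr := BrM_br_smooth hr (Complex.arg r₁ / (2 * Real.pi))
  have hev : ∀ᶠ a : ℂ × ℂ in 𝓝 (p₁, r₁), a.2 ≠ 0 ∧
      ContDiffAt ℝ ∞ (BrM_br r₁ (Complex.arg r₁ / (2 * Real.pi))) a.2 :=
    ((continuous_snd.tendsto (p₁, r₁)) :
      Tendsto (Prod.snd : ℂ × ℂ → ℂ) (𝓝 (p₁, r₁)) (𝓝 r₁)).eventually hbr
  have hsm : ∀ a : ℂ × ℂ, a.2 ≠ 0 →
      ContDiffAt ℝ ∞ (BrM_br r₁ (Complex.arg r₁ / (2 * Real.pi))) a.2 →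
      ContDiffAt ℝ ∞ (fun a : ℂ × ℂ => ((BrM_br r₁ (Complex.arg r₁ / (2 * Real.pi)) a.2 -
        T (a.1.im, zK ε a.1 a.2), a.1.re, zK ε a.1 a.2) : ℝ × ℝ × ℂ)) a := by
    intro a ha hb
    have h1 := BrM_zK_smooth ε ha
    have h2 : ContDiffAt ℝ ∞ (fun a : ℂ × ℂ => a.1.im) a :=
      (BrM_im_smooth.comp contDiff_fst).contDiffAt
    have h3 : ContDiffAt ℝ ∞ (fun a : ℂ × ℂ => a.1.re) a :=
      (BrM_re_smooth.comp contDiff_fst).contDiffAt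
    have h4 : ContDiffAt ℝ ∞ (fun a : ℂ × ℂ =>
        BrM_br r₁ (Complex.arg r₁ / (2 * Real.pi)) a.2) a := hb.comp a contDiffAt_snd
    have h5 : ContDiffAt ℝ ∞ (fun a : ℂ × ℂ => T (a.1.im, zK ε a.1 a.2)) a :=
      hT.contDiffAt.comp a (h2.prodMk h1)
    exact (h4.sub h5).prodMk (h3.prodMk h1)
  refine ld_of_leftInv BrM_dim
    (g := fun b : ℝ × ℝ × ℂ => (((b.2.1 : ℝ) : ℂ) + ((BrM_br (zK ε p₁ r₁) p₁.im b.2.2 : ℝ) : ℂ) * I,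
      ((ε * ‖b.2.2‖ : ℝ) : ℂ) * ex (b.1 + T (BrM_br (zK ε p₁ r₁) p₁.im b.2.2, b.2.2)))) ?_ ?_ ?_
  · filter_upwards [hev] with a ha
    exact hsm a ha.1 ha.2
  · obtain ⟨-, hτ⟩ := (BrM_br_smooth hz₁0 p₁.im).self_of_nhds
    have hτ' : DifferentiableAt ℝ (BrM_br (zK ε p₁ r₁) p₁.im) (zK ε p₁ r₁) :=
      hτ.differentiableAt (by simp)
    set b₁ : ℝ × ℝ × ℂ := (BrM_br r₁ (Complex.arg r₁ / (2 * Real.pi)) (p₁, r₁).2 -
        T ((p₁, r₁).1.im, zK ε (p₁, r₁).1 (p₁, r₁).2), (p₁, r₁).1.re,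
          zK ε (p₁, r₁).1 (p₁, r₁).2) with hb₁
    have hb₁2 : b₁.2.2 = zK ε p₁ r₁ := rfl
    have d22 : DifferentiableAt ℝ (fun b : ℝ × ℝ × ℂ => b.2.2) b₁ :=
      differentiableAt_snd.snd
    have d21 : DifferentiableAt ℝ (fun b : ℝ × ℝ × ℂ => b.2.1) b₁ :=
      differentiableAt_snd.fst
    have d1 : DifferentiableAt ℝ (fun b : ℝ × ℝ × ℂ => b.1) b₁ := differentiableAt_fst
    have dτ : DifferentiableAt ℝ (fun b : ℝ × ℝ × ℂ => BrM_br (zK ε p₁ r₁) p₁.im b.2.2) b₁ :=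
      DifferentiableAt.comp (g := BrM_br (zK ε p₁ r₁) p₁.im) (f := fun b : ℝ × ℝ × ℂ => b.2.2)
        b₁ (by rw [hb₁2]; exact hτ') d22
    have dn : DifferentiableAt ℝ (fun b : ℝ × ℝ × ℂ => ‖b.2.2‖) b₁ :=
      DifferentiableAt.comp (g := fun z : ℂ => ‖z‖) (f := fun b : ℝ × ℝ × ℂ => b.2.2)
        b₁ (by rw [hb₁2]; exact (BrM_norm_smooth hz₁0).differentiableAt (by simp)) d22
    have dT : DifferentiableAt ℝ (fun b : ℝ × ℝ × ℂ =>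
        T (BrM_br (zK ε p₁ r₁) p₁.im b.2.2, b.2.2)) b₁ :=
      DifferentiableAt.comp (g := T)
        (f := fun b : ℝ × ℝ × ℂ => (BrM_br (zK ε p₁ r₁) p₁.im b.2.2, b.2.2))
        b₁ (hT.differentiable (by simp) _) (dτ.prodMk d22)
    have dex : DifferentiableAt ℝ (fun b : ℝ × ℝ × ℂ =>
        ex (b.1 + T (BrM_br (zK ε p₁ r₁) p₁.im b.2.2, b.2.2))) b₁ :=
      DifferentiableAt.comp (g := ex)
        (f := fun b : ℝ × ℝ × ℂ => b.1 + T (BrM_br (zK ε p₁ r₁) p₁.im b.2.2, b.2.2))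
        b₁ (ex_smooth.differentiable (by simp) _) (d1.add dT)
    exact ((BrM_ofReal_diff d21).add ((BrM_ofReal_diff dτ).mul_const I)).prodMk
      ((BrM_ofReal_diff (dn.const_mul ε)).mul dex)
  · have hev2 : ∀ᶠ a : ℂ × ℂ in 𝓝 (p₁, r₁), |a.1.im - p₁.im| < 1 / 2 := by
      have hc : ContinuousAt (fun a : ℂ × ℂ => |a.1.im - p₁.im|) (p₁, r₁) := by fun_prop
      have : (fun a : ℂ × ℂ => |a.1.im - p₁.im|) (p₁, r₁) < 1 / 2 := by simp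
      exact hc.eventually (gt_mem_nhds this)
    filter_upwards [hev, hev2] with a ha ha2
    have hna : 0 < ‖a.2‖ / ε := div_pos (norm_pos_iff.2 ha.1) h0
    have hza : zK ε a.1 a.2 = ((‖a.2‖ / ε : ℝ) : ℂ) * ex a.1.im := rfl
    have hτ : BrM_br (zK ε p₁ r₁) p₁.im (zK ε a.1 a.2) = a.1.im := by
      rw [hza]
      exact BrM_br_pol hn₁ hz₁ hna ha2
    have hnz : ε * ‖zK ε a.1 a.2‖ = ‖a.2‖ := by
      rw [hza, norm_mul, ex_norm, mul_one, Complex.norm_real, Real.norm_eq_abs, abs_of_pos hna]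
      field_simp
    rw [hτ, hnz, sub_add_cancel, BrM_br_ex hr hpol]
    exact Prod.ext (Complex.re_add_im _) rfl

theorem BrM_branch {z₁ z : ℂ} (h : z₁ ≠ 0) (hz : z ≠ 0) : ∃ n : ℤ,
    BrM_br z₁ (Complex.arg z₁ / (2 * Real.pi)) z = Complex.arg z / (2 * Real.pi) + n := by
  have h1 := BrM_br_ex (z := z) h (ex_arg z₁).symm
  have h2 := ex_arg z
  have hn : (‖z‖ : ℂ) ≠ 0 := by exact_mod_cast norm_ne_zero_iff.2 hz
  exact ex_eq_iff.1 (mul_left_cancel₀ hn (h2.trans h1.symm))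

theorem BrM_sw (b : ℂ × ℂ) : IsLocalDiffeomorphAt 𝓘(ℝ, ℂ × ℂ) 𝓘(ℝ, ℂ × ℂ) ∞ sw b := by
  have hs : ContDiff ℝ ∞ sw := contDiff_snd.prodMk contDiff_fst
  exact ld_of_leftInv rfl (g := sw) (Eventually.of_forall fun y => hs.contDiffAt)
    (hs.differentiable (by simp) _) (Eventually.of_forall fun y => rfl)

theorem coordK_ld (h0 : 0 < ε) (k : ℤ) {p₁ r₁ : ℂ} (hr : r₁ ≠ 0) : ∃ α : ℂ × ℂ → ℝ,
    (∀ᶠ a in 𝓝 (p₁, r₁), ∃ n : ℤ, α a = qK ε k a.1 a.2 + n) ∧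
    IsLocalDiffeomorphAt 𝓘(ℝ, ℂ × ℂ) 𝓘(ℝ, ℝ × ℝ × ℂ) ∞
      (fun a => (α a, a.1.re, zK ε a.1 a.2)) (p₁, r₁) := by
  have hT : ContDiff ℝ ∞ (fun b : ℝ × ℂ => (k : ℝ) * b.1 + k * twc b.2) :=
    (contDiff_const.mul contDiff_fst).add (contDiff_const.mul (twc_smooth.comp contDiff_snd))
  refine ⟨fun a => BrM_br r₁ (Complex.arg r₁ / (2 * Real.pi)) a.2 -
    ((k : ℝ) * a.1.im + k * twc (zK ε a.1 a.2)), ?_, BrM_gen h0 hT hr⟩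
  have hev : ∀ᶠ a : ℂ × ℂ in 𝓝 (p₁, r₁), a.2 ≠ 0 :=
    ((continuous_snd.tendsto (p₁, r₁)) :
      Tendsto (Prod.snd : ℂ × ℂ → ℂ) (𝓝 (p₁, r₁)) (𝓝 r₁)).eventually
      (isOpen_ne.mem_nhds hr)
  filter_upwards [hev] with a ha
  obtain ⟨n, hn⟩ := BrM_branch hr ha
  refine ⟨n, ?_⟩
  rw [hn]
  unfold qK
  ring

theorem coordT_ld (h0 : 0 < ε) (e : ℤ) {p₁ r₁ : ℂ} (hp : p₁ ≠ 0) : ∃ α : ℂ × ℂ → ℝ,
    (∀ᶠ a in 𝓝 (p₁, r₁), ∃ n : ℤ, α a = qT e a.1 a.2 + n) ∧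
    IsLocalDiffeomorphAt 𝓘(ℝ, ℂ × ℂ) 𝓘(ℝ, ℝ × ℝ × ℂ) ∞
      (fun a => (α a, a.2.re, zT ε a.1 a.2)) (p₁, r₁) := by
  have hT : ContDiff ℝ ∞ (fun b : ℝ × ℂ => (e : ℝ) * thc b.1) :=
    contDiff_const.mul (thc_smooth.comp contDiff_fst)
  refine ⟨fun a => BrM_br p₁ (Complex.arg p₁ / (2 * Real.pi)) a.1 - (e : ℝ) * thc a.2.im, ?_, ?_⟩
  · have hev : ∀ᶠ a : ℂ × ℂ in 𝓝 (p₁, r₁), a.1 ≠ 0 :=
      ((continuous_fst.tendsto (p₁, r₁)) :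
        Tendsto (Prod.fst : ℂ × ℂ → ℂ) (𝓝 (p₁, r₁)) (𝓝 p₁)).eventually
        (isOpen_ne.mem_nhds hp)
    filter_upwards [hev] with a ha
    obtain ⟨n, hn⟩ := BrM_branch hp ha
    refine ⟨n, ?_⟩
    rw [hn]
    unfold qT
    ring
  · have h1 := BrM_gen (p₁ := r₁) h0 hT hp
    exact IsLocalDiffeomorphAt.comp (hf := BrM_sw (p₁, r₁)) (hg := h1) ..

theorem nsi_ld (h0 : 0 < ε) (h1 : ε ≤ 1 / 1000) {x : ℝ} (hx : |x| < 1 / 2) :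
    IsLocalDiffeomorphAt 𝓘(ℝ, ℝ) 𝓘(ℝ, ℝ) ∞ (nsi ε) x := by
  obtain ⟨Φ, hΦ, hE⟩ := ns_ld h0 h1 (nsi ε x)
  have hx' : ns ε (nsi ε x) = x := ns_nsi h0 h1 hx
  have hΦx : Φ (nsi ε x) = x := by rw [← hE hΦ, hx']
  refine ⟨Φ.symm, ?_, ?_⟩
  · show x ∈ Φ.target
    rw [← hΦx]
    exact Φ.map_source' hΦ
  · intro z hz
    have hz' : z ∈ Φ.target := hz
    have hw : Φ.symm z ∈ Φ.source := Φ.map_target' hz'
    have h2 : Φ (Φ.symm z) = z := Φ.right_inv' hz'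
    have h3 : ns ε (Φ.symm z) = z := by rw [hE hw, h2]
    rw [← h3, nsi_ns h0 h1, h3]

theorem BrM_nsi_smooth (h0 : 0 < ε) (h1 : ε ≤ 1 / 1000) {x : ℝ} (hx : |x| < 1 / 2) :
    ContDiffAt ℝ ∞ (nsi ε) x :=
  (nsi_ld h0 h1 hx).contMDiffAt.contDiffAt

theorem BrM_mid (h0 : 0 < ε) (h1 : ε ≤ 1 / 1000) {b : ℝ × ℝ × ℂ} (hb : |b.2.1| < 1 / 2) :
    IsLocalDiffeomorphAt 𝓘(ℝ, ℝ × ℝ × ℂ) 𝓘(ℝ, ℝ × ℝ × ℂ) ∞
      (fun b : ℝ × ℝ × ℂ => (b.1, nsi ε b.2.1, b.2.2)) b := by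
  have hev : ∀ᶠ c : ℝ × ℝ × ℂ in 𝓝 b, |c.2.1| < 1 / 2 := by
    have hc : ContinuousAt (fun c : ℝ × ℝ × ℂ => |c.2.1|) b := by fun_prop
    exact hc.eventually (gt_mem_nhds hb)
  refine ld_of_leftInv rfl (g := fun b : ℝ × ℝ × ℂ => (b.1, ns ε b.2.1, b.2.2)) ?_ ?_ ?_
  · filter_upwards [hev] with c hc
    have h2 : ContDiffAt ℝ ∞ (fun b : ℝ × ℝ × ℂ => nsi ε b.2.1) c :=
      ContDiffAt.comp (g := nsi ε) (f := fun b : ℝ × ℝ × ℂ => b.2.1) c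
        (BrM_nsi_smooth h0 h1 hc) (contDiff_fst.comp contDiff_snd).contDiffAt
    exact contDiffAt_fst.prodMk (h2.prodMk (contDiff_snd.comp contDiff_snd).contDiffAt)
  · have h2 : ContDiff ℝ ∞ (fun b : ℝ × ℝ × ℂ => ((b.1, ns ε b.2.1, b.2.2) : ℝ × ℝ × ℂ)) :=
      contDiff_fst.prodMk (((ns_smooth ε).comp (contDiff_fst.comp contDiff_snd)).prodMk
        (contDiff_snd.comp contDiff_snd))
    exact h2.differentiable (by simp) _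
  · filter_upwards [hev] with c hc
    rw [ns_nsi h0 h1 hc]

theorem bK_ld (h0 : 0 < ε) (h1 : ε ≤ 1 / 1000) (k : ℤ) {p r : ℂ} (hr : r ≠ 0) (hp : |p.re| < 1 / 2) :
    IsLocalDiffeomorphAt 𝓘(ℝ, ℂ × ℂ) 𝓘(ℝ, ℂ × ℂ) ∞ (fun a => bK ε k a.1 a.2) (p, r) := by
  obtain ⟨α, hα, hld⟩ := coordK_ld (p₁ := p) h0 k hr
  have e2 : IsLocalDiffeomorphAt 𝓘(ℝ, ℂ × ℂ) 𝓘(ℝ, ℝ × ℝ × ℂ) ∞
      ((fun b : ℝ × ℝ × ℂ => (b.1, nsi ε b.2.1, b.2.2)) ∘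
        (fun a : ℂ × ℂ => (α a, a.1.re, zK ε a.1 a.2))) (p, r) :=
    IsLocalDiffeomorphAt.comp (hf := hld)
      (hg := BrM_mid (b := (α (p, r), p.re, zK ε p r)) h0 h1 hp) ..
  have e3 : IsLocalDiffeomorphAt 𝓘(ℝ, ℂ × ℂ) 𝓘(ℝ, ℂ × ℂ) ∞
      (OmT ε ∘ ((fun b : ℝ × ℝ × ℂ => (b.1, nsi ε b.2.1, b.2.2)) ∘
        (fun a : ℂ × ℂ => (α a, a.1.re, zK ε a.1 a.2)))) (p, r) :=
    IsLocalDiffeomorphAt.comp (hf := e2) (hg := OmT_ld h0 h1 _) ..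
  have e4 : IsLocalDiffeomorphAt 𝓘(ℝ, ℂ × ℂ) 𝓘(ℝ, ℂ × ℂ) ∞
      (sw ∘ (OmT ε ∘ ((fun b : ℝ × ℝ × ℂ => (b.1, nsi ε b.2.1, b.2.2)) ∘
        (fun a : ℂ × ℂ => (α a, a.1.re, zK ε a.1 a.2))))) (p, r) :=
    IsLocalDiffeomorphAt.comp (hf := e3) (hg := BrM_sw _) ..
  refine ld_congr e4 ?_
  filter_upwards [hα] with a ha
  obtain ⟨n, hn⟩ := ha
  simp only [Function.comp_apply]
  rw [hn, OmT_per]
  rfl

theorem bT_ld (h0 : 0 < ε) (h1 : ε ≤ 1 / 1000) (e : ℤ) {p r : ℂ} (hr : |r.re| < 1 / 2)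
    (hE : (E2 ε ((nsi ε r.re : ℂ) + r.im * I)).1 < 0) :
    IsLocalDiffeomorphAt 𝓘(ℝ, ℂ × ℂ) 𝓘(ℝ, ℂ × ℂ) ∞ (fun a => bT ε e a.1 a.2) (p, r) := by
  have hev : ∀ᶠ c : ℂ × ℂ in 𝓝 (p, r), |c.2.re| < 1 / 2 := by
    have hc : ContinuousAt (fun c : ℂ × ℂ => |c.2.re|) (p, r) := by fun_prop
    exact hc.eventually (gt_mem_nhds hr)
  have hcoord : IsLocalDiffeomorphAt 𝓘(ℝ, ℂ × ℂ) 𝓘(ℝ, ℂ × ℂ) ∞
      (fun a : ℂ × ℂ => (((nsi ε a.2.re : ℝ) : ℂ) + a.2.im * I, nT ε e a.1 a.2)) (p, r) := by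
    refine ld_of_leftInv rfl (g := fun b : ℂ × ℂ =>
      (((ε * ww b.1.re : ℝ) : ℂ) * ex (e * thc b.1.im) * b.2,
        ((ns ε b.1.re : ℝ) : ℂ) + ((b.1.im : ℝ) : ℂ) * I)) ?_ ?_ ?_
    · filter_upwards [hev] with c hc
      have h2 : ContDiffAt ℝ ∞ (fun a : ℂ × ℂ => nsi ε a.2.re) c :=
        ContDiffAt.comp (g := nsi ε) (f := fun a : ℂ × ℂ => a.2.re) c
          (BrM_nsi_smooth h0 h1 hc) (BrM_re_smooth.comp contDiff_snd).contDiffAt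
      have h3 : ContDiffAt ℝ ∞ (fun a : ℂ × ℂ => a.2.im) c :=
        (BrM_im_smooth.comp contDiff_snd).contDiffAt
      have h4 : ContDiffAt ℝ ∞ (fun a : ℂ × ℂ => ex (-(e * thc a.2.im))) c :=
        ContDiffAt.comp (g := ex) (f := fun a : ℂ × ℂ => -(e * thc a.2.im)) c
          ex_smooth.contDiffAt ((contDiffAt_const.mul (thc_smooth.contDiffAt.comp c h3)).neg)
      have h5 : ContDiffAt ℝ ∞ (fun a : ℂ × ℂ => ε * ww (nsi ε a.2.re)) c :=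
        contDiffAt_const.mul (ww_smooth.contDiffAt.comp c h2)
      have h6 : ((ε * ww (nsi ε c.2.re) : ℝ) : ℂ) ≠ 0 := by
        have := ww_pos (nsi ε c.2.re)
        exact_mod_cast (mul_pos h0 this).ne'
      have h7 : ContDiffAt ℝ ∞ (fun a : ℂ × ℂ => (((ε * ww (nsi ε a.2.re) : ℝ) : ℂ))⁻¹) c :=
        (BrM_ofReal h5).inv h6
      have h8 : ContDiffAt ℝ ∞ (fun a : ℂ × ℂ => nT ε e a.1 a.2) c := by
        unfold nT
        simp only [div_eq_mul_inv]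
        exact (contDiffAt_fst.mul h4).mul h7
      exact ((BrM_ofReal h2).add ((BrM_ofReal h3).mul contDiffAt_const)).prodMk h8
    · have g1 : ContDiff ℝ ∞ (fun b : ℂ × ℂ => b.1.re) := BrM_re_smooth.comp contDiff_fst
      have g2 : ContDiff ℝ ∞ (fun b : ℂ × ℂ => b.1.im) := BrM_im_smooth.comp contDiff_fst
      have g3 : ContDiff ℝ ∞ (fun b : ℂ × ℂ => ((ε * ww b.1.re : ℝ) : ℂ)) :=
        Complex.ofRealCLM.contDiff.comp (contDiff_const.mul (ww_smooth.comp g1))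
      have g4 : ContDiff ℝ ∞ (fun b : ℂ × ℂ => ex (e * thc b.1.im)) :=
        ex_smooth.comp (contDiff_const.mul (thc_smooth.comp g2))
      have g5 : ContDiff ℝ ∞ (fun b : ℂ × ℂ => ((ns ε b.1.re : ℝ) : ℂ)) :=
        Complex.ofRealCLM.contDiff.comp ((ns_smooth ε).comp g1)
      have g6 : ContDiff ℝ ∞ (fun b : ℂ × ℂ => ((b.1.im : ℝ) : ℂ)) :=
        Complex.ofRealCLM.contDiff.comp g2
      have g7 : ContDiff ℝ ∞ (fun b : ℂ × ℂ =>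
          ((((ε * ww b.1.re : ℝ) : ℂ) * ex (e * thc b.1.im) * b.2,
          ((ns ε b.1.re : ℝ) : ℂ) + ((b.1.im : ℝ) : ℂ) * I) : ℂ × ℂ)) :=
        ((g3.mul g4).mul contDiff_snd).prodMk (g5.add (g6.mul contDiff_const))
      exact g7.differentiable (by simp) _
    · filter_upwards [hev] with c hc
      have hre : ((((nsi ε c.2.re : ℝ) : ℂ) + c.2.im * I).re) = nsi ε c.2.re := by simp
      have him : ((((nsi ε c.2.re : ℝ) : ℂ) + c.2.im * I).im) = c.2.im := by simp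
      have h6 : ((ε * ww (nsi ε c.2.re) : ℝ) : ℂ) ≠ 0 := by
        have := ww_pos (nsi ε c.2.re)
        exact_mod_cast (mul_pos h0 this).ne'
      have hex : ex (e * thc c.2.im) * ex (-(e * thc c.2.im)) = 1 := by
        rw [← ex_add, add_neg_cancel]
        simpa using ex_int 0
      rw [hre, him, ns_nsi h0 h1 hc]
      refine Prod.ext ?_ (Complex.re_add_im _)
      simp only
      unfold nT
      generalize ((ε * ww (nsi ε c.2.re) : ℝ) : ℂ) = w at h6 ⊢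
      calc w * ex (e * thc c.2.im) * (c.1 * ex (-(e * thc c.2.im)) / w)
          = (ex (e * thc c.2.im) * ex (-(e * thc c.2.im))) * c.1 * (w / w) := by ring
        _ = c.1 := by rw [hex, div_self h6]; ring
  have e3 : IsLocalDiffeomorphAt 𝓘(ℝ, ℂ × ℂ) 𝓘(ℝ, ℂ × ℂ) ∞
      (OmC ε ∘ (fun a : ℂ × ℂ => (((nsi ε a.2.re : ℝ) : ℂ) + a.2.im * I, nT ε e a.1 a.2)))
        (p, r) :=
    IsLocalDiffeomorphAt.comp (hf := hcoord) (hg := OmC_ld h0 h1 _ hE) ..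
  exact IsLocalDiffeomorphAt.comp (hf := e3) (hg := BrM_sw _) ..

theorem BrM_sgm_smooth {δ : ℝ} (h : |δ| < 1) : ContDiffAt ℝ ∞ sgm δ := by
  have hpos : 0 < 1 - δ ^ 2 := by
    have := (sq_lt_one_iff_abs_lt_one δ).2 h
    linarith
  unfold sgm
  have h1 : ContDiffAt ℝ ∞ (fun δ : ℝ => 1 - δ ^ 2) δ :=
    contDiffAt_const.sub (contDiffAt_id.pow 2)
  have h2 : ContDiffAt ℝ ∞ (fun δ : ℝ => √(1 - δ ^ 2)) δ := h1.sqrt hpos.ne'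
  exact contDiffAt_id.div h2 (Real.sqrt_pos.2 hpos).ne'

theorem sgm_ld {δ : ℝ} (h : |δ| < 1) : IsLocalDiffeomorphAt 𝓘(ℝ, ℝ) 𝓘(ℝ, ℝ) ∞ sgm δ := by
  have hev : ∀ᶠ x : ℝ in 𝓝 δ, |x| < 1 := by
    have hc : ContinuousAt (fun x : ℝ => |x|) δ := by fun_prop
    exact hc.eventually (gt_mem_nhds h)
  refine ld_of_leftInv rfl (g := fun x : ℝ => x / √(1 + x ^ 2)) ?_ ?_ ?_
  · filter_upwards [hev] with x hx
    exact BrM_sgm_smooth hx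
  · have h1 : ContDiff ℝ ∞ (fun x : ℝ => √(1 + x ^ 2)) :=
      (contDiff_const.add (contDiff_id.pow 2)).sqrt (fun x => by positivity)
    have h2 : ContDiff ℝ ∞ (fun x : ℝ => x / √(1 + x ^ 2)) :=
      contDiff_id.div h1 (fun x => by positivity)
    exact h2.differentiable (by simp) _
  · filter_upwards [hev] with x hx
    have hpos : 0 < 1 - x ^ 2 := by
      have := (sq_lt_one_iff_abs_lt_one x).2 hx
      linarith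
    have hs := Real.sqrt_pos.2 hpos
    unfold sgm
    have e1 : 1 + (x / √(1 - x ^ 2)) ^ 2 = (1 / √(1 - x ^ 2)) ^ 2 := by
      rw [div_pow, div_pow, Real.sq_sqrt hpos.le]
      field_simp
      ring
    rw [e1, Real.sqrt_sq (by positivity)]
    field_simp

theorem sw_ld (b : ℂ × ℂ) : IsLocalDiffeomorphAt 𝓘(ℝ, ℂ × ℂ) 𝓘(ℝ, ℂ × ℂ) ∞ sw b := BrM_sw b

end Pool.Agent.TS
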