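import Pool.Agent.TS.CornM
import Pool.Agent.TS.BrM

/-!
# TS/LocInM: `GB` is a local diffeomorphism at inner points
The conditions are open (`bK_ld`, `bT_ld` give continuity, `far_closed`), so `GB = F ∘ bK` (`GB_K`), resp. `F ∘ bT`
(`GB_T'`), near the point; `hF.loc`, `bK_ld`, `bT_ld`, composition, `ld_congr`.
(`E2_T` with `c = 2`: the condition of `bT_ld`.)
-/

open scoped Manifold ContDiff Topology
open Complex (I)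
open Set Filter

namespace Pool.Agent.TS
open Pool.Agent.CSG

variable {X : Type*} [TopologicalSpace X] [ChartedSpace E4 X] {ε ρ : ℝ} {k e : ℤ}

theorem LocInM_open {ρ : ℝ} : IsOpen (Wd ρ) := by
  have h1 : Continuous fun a : ℂ × ℂ => ‖fr a.1‖ := fr_continuous.comp continuous_fst
  have h2 : Continuous fun a : ℂ × ℂ => ‖fr a.2‖ := fr_continuous.comp continuous_snd
  exact (isOpen_lt h1 continuous_const).union (isOpen_lt h2 continuous_const)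

theorem GB_ld_K (h0 : 0 < ε) (h1 : ε ≤ 1 / 1000) (h2 : 5 * ε < ρ) (h3 : ρ ≤ 1 / 8)
    {L : LS ε ρ k e X} {F : ℂ × ℂ → X} (hF : IsF L F) {p r : ℂ} (hr0 : r ≠ 0) (hr : ‖r‖ < 3 * ε)
    (hp : |p.re| < 1 / 2) (hb : ¬ Far 4 (bK ε k p r)) :
    IsLocalDiffeomorphAt 𝓘(ℝ, ℂ × ℂ) (𝓡 4) ∞ (GB L F) (p, r) := by
  have hb1 := bK_ld h0 h1 k hr0 hp
  have hcomp : IsLocalDiffeomorphAt 𝓘(ℝ, ℂ × ℂ) (𝓡 4) ∞ (F ∘ fun a : ℂ × ℂ => bK ε k a.1 a.2)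
      (p, r) := IsLocalDiffeomorphAt.comp (hf := hb1) (hg := hF.loc _ hb) ..
  refine ld_congr hcomp ?_
  have c1 : ∀ᶠ a : ℂ × ℂ in 𝓝 (p, r), a.2 ≠ 0 :=
    continuous_snd.continuousAt.eventually_ne hr0
  have c2 : ∀ᶠ a : ℂ × ℂ in 𝓝 (p, r), ‖a.2‖ < 3 * ε :=
    (continuous_snd.norm.continuousAt (x := (p, r))).eventually_lt_const hr
  have c3 : ∀ᶠ a : ℂ × ℂ in 𝓝 (p, r), |a.1.re| < 1 / 2 :=
    ((by fun_prop : Continuous fun a : ℂ × ℂ => |a.1.re|).continuousAt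
      (x := (p, r))).eventually_lt_const hp
  have c4 : ∀ᶠ a : ℂ × ℂ in 𝓝 (p, r), ¬ Far 4 (bK ε k a.1 a.2) :=
    (ld_continuousAt hb1).eventually (far_closed.isOpen_compl.mem_nhds hb)
  filter_upwards [c1, c2, c3, c4] with a a1 a2 a3 a4
  exact GB_K h0 h1 h2 h3 hF a1 a2 a3 a4

theorem GB_ld_T (h0 : 0 < ε) (h1 : ε ≤ 1 / 1000) (h2 : 5 * ε < ρ) (h3 : ρ ≤ 1 / 8)
    {L : LS ε ρ k e X} {F : ℂ × ℂ → X} (hF : IsF L F) {p r : ℂ} (hr' : 2 * ε < ‖fr r‖)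
    (hp : ‖p‖ < 3 * ε) (hr : |r.re| < 1 / 2) (hb : ¬ Far 4 (bT ε e p r)) :
    IsLocalDiffeomorphAt 𝓘(ℝ, ℂ × ℂ) (𝓡 4) ∞ (GB L F) (p, r) := by
  have hE : (E2 ε ((nsi ε r.re : ℂ) + r.im * I)).1 < 0 := by
    have := E2_T h0 h1 hr (c := 2) (by norm_num) (by norm_num) hr'.le
    refine lt_of_le_of_lt this (by norm_num)
  have hb1 := bT_ld h0 h1 e (p := p) hr hE
  have hcomp : IsLocalDiffeomorphAt 𝓘(ℝ, ℂ × ℂ) (𝓡 4) ∞ (F ∘ fun a : ℂ × ℂ => bT ε e a.1 a.2)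
      (p, r) := IsLocalDiffeomorphAt.comp (hf := hb1) (hg := hF.loc _ hb) ..
  refine ld_congr hcomp ?_
  have c1 : ∀ᶠ a : ℂ × ℂ in 𝓝 (p, r), 2 * ε < ‖fr a.2‖ :=
    ((fr_continuous.comp continuous_snd).continuousAt (x := (p, r))).eventually_const_lt hr'
  have c2 : ∀ᶠ a : ℂ × ℂ in 𝓝 (p, r), ‖a.1‖ < 3 * ε :=
    (continuous_fst.norm.continuousAt (x := (p, r))).eventually_lt_const hp
  have c3 : ∀ᶠ a : ℂ × ℂ in 𝓝 (p, r), |a.2.re| < 1 / 2 :=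
    ((by fun_prop : Continuous fun a : ℂ × ℂ => |a.2.re|).continuousAt
      (x := (p, r))).eventually_lt_const hr
  have c4 : ∀ᶠ a : ℂ × ℂ in 𝓝 (p, r), ¬ Far 4 (bT ε e a.1 a.2) :=
    (ld_continuousAt hb1).eventually (far_closed.isOpen_compl.mem_nhds hb)
  filter_upwards [c1, c2, c3, c4] with a a1 a2 a3 a4
  exact GB_T' h0 h1 h2 h3 hF a1 a2 a3 a4

theorem GB_ld_G (h0 : 0 < ε) (h1 : ε ≤ 1 / 1000) (h2 : 5 * ε < ρ) (h3 : ρ ≤ 1 / 8)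
    {L : LS ε ρ k e X} {F : ℂ × ℂ → X} (hF : IsF L F) {p r : ℂ} (hW : (p, r) ∈ Wd ρ)
    (hp : 2 * ε < ‖fr p‖) (hr : 2 * ε < ‖fr r‖) :
    IsLocalDiffeomorphAt 𝓘(ℝ, ℂ × ℂ) (𝓡 4) ∞ (GB L F) (p, r) := by
  have hReg : Reg ρ p r := by
    refine ⟨hW, ?_, ?_⟩
    · intro h
      rw [fr_eq_zero.2 h, norm_zero] at hp
      linarith
    · rintro ⟨h, -⟩
      rw [fr_eq_zero.2 h, norm_zero] at hr
      linarith
  refine ld_congr (G_ld L hReg) ?_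
  have c1 : ∀ᶠ a : ℂ × ℂ in 𝓝 (p, r), 2 * ε < ‖fr a.1‖ :=
    ((fr_continuous.comp continuous_fst).continuousAt (x := (p, r))).eventually_const_lt hp
  have c2 : ∀ᶠ a : ℂ × ℂ in 𝓝 (p, r), 2 * ε < ‖fr a.2‖ :=
    ((fr_continuous.comp continuous_snd).continuousAt (x := (p, r))).eventually_const_lt hr
  have c3 : ∀ᶠ a : ℂ × ℂ in 𝓝 (p, r), a ∈ Wd ρ := LocInM_open.mem_nhds hW
  filter_upwards [c1, c2, c3] with a a1 a2 a3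
  exact GB_G0 h0 h1 h2 h3 hF a3 a1 a2

end Pool.Agent.TS
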