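import Pool.Agent.TS.PerM
import Pool.Agent.TS.BrM
import Pool.Agent.TS.ConsKM

/-!
# TS/LocKOutM: `GB` is a local diffeomorphism at outer points near `K`
Let `(p₁, r₁)` be the point, `0 < ‖r₁‖ < 3 ε`, `-1/2 ≤ Re p₁ < 1/2`, and `Re p₁ = -1/2` or `Far 4 (bK p₁ r₁)`.
STEP 1: near the point all points are outer: `¬ InK ε (fr p) r`.  If `|Re p₁| < 1/2`: `far_interior` (`R = 3`), continuity
of `bK`, `OmT_far`: `Far 3 (bK p r)` implies `3 ≤ nr X2`; `InK_per`.  If `Re p₁ = -1/2`: for `Re p` close to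
`-1/2`: `fr p` has real part `x` close to `± 1/2`, `|nsi ε x|` is large (`> 2`, `ns` monotone), and
`nr X2 (y, ζ) ≥ nr io / 2 ≥ MZ |sinh (2 π y)| / 2 ≥ 3` (`half_nr_le_nr_Rd`, `MZ ≥ 1/20`).
STEP 2: `‖r₁‖ > ε/8`: near the point `GB = L.G` (`GB_eq_G`); `G_ld`: `Reg ρ p₁ r₁` (`p₁ ∉ GI`: if `|Re p₁| < 1/2`
and `p₁ = n i` then `nr X2 ≤ ‖zK‖ < 3` (`nr_X2_zero`, `nsi 0 = 0`)).
STEP 3: `‖r₁‖ ≤ ε/8`: near the point (`‖r‖ < ε/7`) `GB (p, r) = jKb L (qK, TrS (sgm ((c - Re p)/ε), zK))` with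
`c = ± 1/2` (`c = -1/2` if `Re p₁ ≤ 0`; `|c - Re p₁| < ε` by `X2_big` and `dl_ns`): for `‖r‖ < ε/8` `GB_eq_oK`; for
`ε/8 ≤ ‖r‖ < ε/7` `GB_eq_G` and `jKb_TrS` with `MZ = ‖zK‖`, `yy_sgm`, `norm_TrS`
(`3 |σ| ≤ NN`: from `X2_big`, or `σ` small near `Re p = ± 1/2`, since `NN ≥ MZ ≥ 1/20`), periodicity.
This is a composition of `coordK_ld`, `x ↦ sgm ((c - x)/ε)` (`sgm_ld`), `TrS_ld`, `jKb_ld` (`jKb_per` for the branch).
-/

open scoped Manifold ContDiff Topology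
open Complex (I)
open Set Filter

namespace Pool.Agent.TS
open Pool.Agent.CSG

variable {X : Type*} [TopologicalSpace X] [ChartedSpace E4 X] {ε ρ : ℝ} {k e : ℤ}

/-- product of local diffeomorphisms of vector spaces -/
theorem LocKOut_prod {V W V' W' : Type*} [NormedAddCommGroup V] [NormedSpace ℝ V]
    [FiniteDimensional ℝ V] [NormedAddCommGroup W] [NormedSpace ℝ W] [FiniteDimensional ℝ W]
    [NormedAddCommGroup V'] [NormedSpace ℝ V'] [FiniteDimensional ℝ V']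
    [NormedAddCommGroup W'] [NormedSpace ℝ W'] [FiniteDimensional ℝ W']
    (hd : Module.finrank ℝ V = Module.finrank ℝ V') (hd' : Module.finrank ℝ W = Module.finrank ℝ W')
    {f : V → V'} {g : W → W'} {x : V} {y : W}
    (hf : IsLocalDiffeomorphAt 𝓘(ℝ, V) 𝓘(ℝ, V') ∞ f x)
    (hg : IsLocalDiffeomorphAt 𝓘(ℝ, W) 𝓘(ℝ, W') ∞ g y) :
    IsLocalDiffeomorphAt 𝓘(ℝ, V × W) 𝓘(ℝ, V' × W') ∞ (fun a : V × W => (f a.1, g a.2)) (x, y) := by
  refine ld_of_leftInv (g := fun b : V' × W' => (hf.localInverse b.1, hg.localInverse b.2)) ?_ ?_ ?_ ?_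
  · rw [Module.finrank_prod, Module.finrank_prod, hd, hd']
  · have h1 := (ld_eventually hf).prod_nhds (ld_eventually hg)
    filter_upwards [h1] with a ha
    have e1 : ContDiffAt ℝ ∞ f a.1 := ha.1.contMDiffAt.contDiffAt
    have e2 : ContDiffAt ℝ ∞ g a.2 := ha.2.contMDiffAt.contDiffAt
    exact (e1.comp a contDiffAt_fst).prodMk (e2.comp a contDiffAt_snd)
  · have e1 : ContDiffAt ℝ ∞ hf.localInverse (f x) := hf.localInverse_contMDiffAt.contDiffAt
    have e2 : ContDiffAt ℝ ∞ hg.localInverse (g y) := hg.localInverse_contMDiffAt.contDiffAt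
    have e3 : ContDiffAt ℝ ∞ (fun b : V' × W' => (hf.localInverse b.1, hg.localInverse b.2))
        (f x, g y) :=
      (ContDiffAt.comp (f x, g y) e1 contDiffAt_fst).prodMk
        (ContDiffAt.comp (f x, g y) e2 contDiffAt_snd)
    exact e3.differentiableAt (by simp)
  · have h1 := (hf.localInverse_eventuallyEq_left).prod_nhds (hg.localInverse_eventuallyEq_left)
    filter_upwards [h1] with a ha
    exact Prod.ext ha.1 ha.2

theorem LocKOut_fr {z : ℂ} (h : |z.re| < 1 / 2) : ∃ n : ℤ, fr z = z + n * I := by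
  refine ⟨-round z.im, ?_⟩
  rw [abs_lt] at h
  unfold fr rnd
  rw [rd_self h.1.le h.2]
  push_cast
  ring

theorem LocKOut_MZ (Z : ℂ) : 1 / 20 ≤ MZ Z := by
  rcases le_or_gt (1 / 16) ‖Z‖ with h | h
  · have := norm_le_MZ Z
    linarith
  · unfold MZ
    rw [stp_zero (by norm_num) h.le]
    apply Real.le_sqrt_of_sq_le
    nlinarith [sq_nonneg ‖Z‖]

theorem LocKOut_X2 (h0 : 0 < ε) (h1 : ε ≤ 1 / 1000) {y : ℝ} (hy : 4 < |y|) (ζ : ℂ) :
    3 ≤ nr (X2 ε (y, ζ)) := by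
  have e1 : nr (X2 ε (y, ζ)) = nr (Rd (io (y, ζ))) := by
    unfold X2
    rw [nr_DD h0 h1, nr_VV]
  have e2 := half_nr_le_nr_Rd (io (y, ζ))
  have e3 := nr_io (y, ζ)
  have e4 := LocKOut_MZ ζ
  have e5 : 156 ≤ |Real.sinh (2 * Real.pi * y)| := by
    rw [Real.abs_sinh, abs_mul, abs_of_pos (by positivity : 0 < 2 * Real.pi)]
    have h24 : 24 ≤ 2 * Real.pi * |y| := by nlinarith [Real.pi_gt_three]
    have hq := Real.quadratic_le_exp_of_nonneg (show (0:ℝ) ≤ 2 * Real.pi * |y| by linarith)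
    have hn : Real.exp (-(2 * Real.pi * |y|)) ≤ 1 := Real.exp_le_one_iff.2 (by linarith)
    rw [Real.sinh_eq]
    have : (313 : ℝ) ≤ 1 + 2 * Real.pi * |y| + (2 * Real.pi * |y|) ^ 2 / 2 := by nlinarith
    linarith
  have e6 : 7 ≤ |MZ ζ * Real.sinh (2 * Real.pi * y)| := by
    rw [abs_mul, abs_of_pos (MZ_pos ζ)]
    nlinarith
  have e7 : 7 ≤ nr (io (y, ζ)) := by
    have h7 : (7:ℝ) ^ 2 ≤ nr (io (y, ζ)) ^ 2 := by
      rw [e3]
      have : (7:ℝ) ^ 2 ≤ (MZ ζ * Real.sinh (2 * Real.pi * y)) ^ 2 := by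
        rw [← sq_abs (MZ ζ * Real.sinh (2 * Real.pi * y))]
        exact pow_le_pow_left₀ (by norm_num) e6 2
      have h8 : 0 ≤ ‖ζ‖ ^ 2 := by positivity
      change (7:ℝ) ^ 2 ≤ ‖ζ‖ ^ 2 + (MZ ζ * Real.sinh (2 * Real.pi * y)) ^ 2
      linarith
    exact (pow_le_pow_iff_left₀ (by norm_num) (nr_nonneg _) two_ne_zero).1 h7
  rw [e1]
  linarith

/-- near `± 1/2` the value of `nsi` is large -/
theorem LocKOut_nsi (h0 : 0 < ε) (h1 : ε ≤ 1 / 1000) {x : ℝ} (hx : |x| < 1 / 2)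
    (hx' : 1 / 2 - ε * sech (2 * Real.pi * 4) < |x|) : 4 < |nsi ε x| := by
  by_contra hc
  rw [not_lt, abs_le] at hc
  have h4 : ns ε 4 = 1 / 2 - ε * sech (2 * Real.pi * 4) := ns_big (by norm_num)
  have e1 : ns ε (nsi ε x) = x := ns_nsi h0 h1 hx
  have e2 : ns ε (nsi ε x) ≤ ns ε 4 := (ns_strictMono h0 h1).monotone hc.2
  have e3 : ns ε (-4) ≤ ns ε (nsi ε x) := (ns_strictMono h0 h1).monotone hc.1
  rw [ns_neg, h4, e1] at e3
  rw [h4, e1] at e2
  have : |x| ≤ 1 / 2 - ε * sech (2 * Real.pi * 4) := abs_le.2 ⟨by linarith, by linarith⟩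
  linarith

/-- inner points have `nr X2 ≥ 3` near a far point -/
theorem LocKOut_far (h0 : 0 < ε) (h1 : ε ≤ 1 / 1000) (k : ℤ) {p r : ℂ} (hr0 : r ≠ 0)
    (hp : |p.re| < 1 / 2) (hf : Far 4 (bK ε k p r)) :
    ∀ᶠ a : ℂ × ℂ in 𝓝 (p, r), |a.1.re| < 1 / 2 ∧ 3 ≤ nr (X2 ε (nsi ε a.1.re, zK ε a.1 a.2)) := by
  have c1 := (ld_continuousAt (bK_ld h0 h1 k hr0 hp)).eventually
    (far_interior (R := 3) (by norm_num) (by norm_num) hf)
  have c3 : ∀ᶠ a : ℂ × ℂ in 𝓝 (p, r), |a.1.re| < 1 / 2 :=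
    ((by fun_prop : Continuous fun a : ℂ × ℂ => |a.1.re|).continuousAt
      (x := (p, r))).eventually_lt_const hp
  filter_upwards [c1, c3] with a a1 a3
  refine ⟨a3, ?_⟩
  have e : bK ε k a.1 a.2 = sw (OmT ε (qK ε k a.1 a.2, nsi ε a.1.re, zK ε a.1 a.2)) := rfl
  rw [e, far_sw, OmT_far (by norm_num)] at a1
  exact a1.1

theorem LocKOut_outer (h0 : 0 < ε) (h1 : ε ≤ 1 / 1000) (k : ℤ) {p r : ℂ} (hr0 : r ≠ 0)
    (hp : -(1 / 2) ≤ p.re) (hp' : p.re < 1 / 2) (hout : p.re = -(1 / 2) ∨ Far 4 (bK ε k p r)) :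
    ∀ᶠ a : ℂ × ℂ in 𝓝 (p, r), ¬ InK ε (fr a.1) a.2 := by
  by_cases hc : p.re = -(1 / 2)
  · have hs := sech_pos (2 * Real.pi * 4)
    have hs1 := sech_le_one (2 * Real.pi * 4)
    set δ := ε * sech (2 * Real.pi * 4) with hδ
    have hδ0 : 0 < δ := by positivity
    have hδ1 : δ ≤ 1 / 1000 := by nlinarith
    have c1 : ∀ᶠ a : ℂ × ℂ in 𝓝 (p, r), |a.1.re - p.re| < δ :=
      ((by fun_prop : Continuous fun a : ℂ × ℂ => |a.1.re - p.re|).continuousAt
        (x := (p, r))).eventually_lt_const (by simpa using hδ0)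
    filter_upwards [c1] with a a1 hin
    obtain ⟨i1, i2⟩ := hin
    rw [hc, abs_lt] at a1
    have hx := fr_re a.1
    have hm := fr_re_mem a.1
    have hbig : 1 / 2 - δ < |(fr a.1).re| := by
      set x := (fr a.1).re with hxd
      set m := round a.1.re with hmd
      have m1 : (m : ℝ) < 1 := by linarith
      have m2 : (-2 : ℝ) < m := by linarith
      have m3 : m < 1 := by exact_mod_cast m1
      have m4 : -2 < m := by exact_mod_cast m2
      have m5 : m = 0 ∨ m = -1 := by omega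
      rcases m5 with m5 | m5
      · rw [m5] at hx
        push_cast at hx
        rw [lt_abs]
        right
        linarith
      · rw [m5] at hx
        push_cast at hx
        rw [lt_abs]
        left
        linarith
    have h4 := LocKOut_nsi h0 h1 i1 hbig
    have h5 := LocKOut_X2 h0 h1 h4 (zK ε (fr a.1) a.2)
    linarith
  · have hp2 : |p.re| < 1 / 2 := by
      rw [abs_lt]
      exact ⟨lt_of_le_of_ne hp (Ne.symm hc), hp'⟩
    have hf : Far 4 (bK ε k p r) := by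
      rcases hout with h | h
      · exact absurd h hc
      · exact h
    filter_upwards [LocKOut_far h0 h1 k hr0 hp2 hf] with a ha
    obtain ⟨n, hn⟩ := LocKOut_fr ha.1
    rw [hn, InK_per]
    rintro ⟨-, i2⟩
    linarith [ha.2]

/-- sizes of `σ` near the point -/
theorem LocKOut_size (h0 : 0 < ε) (h1 : ε ≤ 1 / 1000) (k : ℤ) {p r : ℂ} (hr0 : r ≠ 0)
    (hr : ‖r‖ ≤ ε / 8)
    (hp : -(1 / 2) ≤ p.re) (hp' : p.re < 1 / 2) (hout : p.re = -(1 / 2) ∨ Far 4 (bK ε k p r)) :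
    ∃ c : ℝ, (c = 1 / 2 ∨ c = -(1 / 2)) ∧ ∀ᶠ a : ℂ × ℂ in 𝓝 (p, r), |(c - a.1.re) / ε| < 1 ∧
      ‖a.2‖ < ε / 7 ∧
      3 * |sgm ((c - a.1.re) / ε)| ≤ NN (sgm ((c - a.1.re) / ε)) (zK ε a.1 a.2) := by
  have c2 : ∀ᶠ a : ℂ × ℂ in 𝓝 (p, r), ‖a.2‖ < ε / 7 :=
    (continuous_snd.norm.continuousAt (x := (p, r))).eventually_lt_const
      (show ‖(p, r).2‖ < ε / 7 by change ‖r‖ < ε / 7; linarith)
  by_cases hc : p.re = -(1 / 2)
  · refine ⟨-(1 / 2), Or.inr rfl, ?_⟩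
    have hz : |(-(1 / 2) - p.re) / ε| < 1 := by
      rw [hc]; simp
    have c1 : ∀ᶠ a : ℂ × ℂ in 𝓝 (p, r), |(-(1 / 2) - a.1.re) / ε| < 1 :=
      ((by fun_prop : Continuous fun a : ℂ × ℂ => |(-(1 / 2) - a.1.re) / ε|).continuousAt
        (x := (p, r))).eventually_lt_const hz
    have hσ : ContinuousAt (fun a : ℂ × ℂ => sgm ((-(1 / 2) - a.1.re) / ε)) (p, r) := by
      have e1 : ContinuousAt sgm ((-(1 / 2) - p.re) / ε) := (sgm_smoothAt hz).continuousAt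
      exact ContinuousAt.comp (x := (p, r)) (g := sgm)
        (f := fun a : ℂ × ℂ => (-(1 / 2) - a.1.re) / ε) e1
        (by fun_prop : Continuous fun a : ℂ × ℂ => (-(1 / 2) - a.1.re) / ε).continuousAt
    have hσ0 : sgm ((-(1 / 2) - p.re) / ε) = 0 := by
      rw [hc]; simp [sgm]
    have c3 : ∀ᶠ a : ℂ × ℂ in 𝓝 (p, r), 3 * |sgm ((-(1 / 2) - a.1.re) / ε)| < 1 / 20 := by
      have := (continuousAt_const (y := (3:ℝ))).mul hσ.abs
      refine this.eventually_lt_const ?_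
      change 3 * |sgm ((-(1 / 2) - p.re) / ε)| < 1 / 20
      rw [hσ0]; norm_num
    filter_upwards [c1, c2, c3] with a a1 a2 a3
    refine ⟨a1, a2, a3.le.trans ?_⟩
    refine (LocKOut_MZ (zK ε a.1 a.2)).trans ?_
    unfold NN
    apply Real.le_sqrt_of_sq_le
    nlinarith [mul_nonneg (sq_nonneg ‖zK ε a.1 a.2‖) (sq_nonneg (sgm ((-(1 / 2) - a.1.re) / ε)))]
  · have hp2 : |p.re| < 1 / 2 := by
      rw [abs_lt]
      exact ⟨lt_of_le_of_ne hp (Ne.symm hc), hp'⟩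
    have hf : Far 4 (bK ε k p r) := by
      rcases hout with h | h
      · exact absurd h hc
      · exact h
    have hfar := LocKOut_far h0 h1 k hr0 hp2 hf
    have key : ∀ a : ℂ × ℂ, ‖a.2‖ < ε / 7 → (|a.1.re| < 1 / 2 ∧
        3 ≤ nr (X2 ε (nsi ε a.1.re, zK ε a.1 a.2))) → |dl ε a.1.re| < 1 ∧
          3 * |sgm (dl ε a.1.re)| ≤ NN (sgm (dl ε a.1.re)) (zK ε a.1 a.2) := by
      intro a a2 a3
      have hz : ‖zK ε a.1 a.2‖ ≤ 1 / 7 := by
        unfold zK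
        rw [norm_mul, ex_norm, Complex.norm_real, Real.norm_eq_abs, mul_one,
          abs_of_nonneg (by positivity), div_le_iff₀ h0]
        linarith
      obtain ⟨b1, b2⟩ := X2_big h0 h1 hz a3.2
      obtain ⟨d1, d2⟩ := dl_ns h0 h1 b1
      rw [ns_nsi h0 h1 a3.1] at d1 d2
      rw [d2]
      exact ⟨d1, b2⟩
    have hr7 : ‖(p, r).2‖ < ε / 7 := by change ‖r‖ < ε / 7; linarith
    have hself := key (p, r) hr7 hfar.self_of_nhds
    change |dl ε p.re| < 1 ∧ _ at hself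
    have hd : ∀ (c x : ℝ), (c = 1 / 2 ∨ c = -(1 / 2)) → |x - c| < 1 / 4 → dl ε x = (c - x) / ε := by
      intro c x hc hx
      rw [abs_lt] at hx
      unfold dl
      rcases hc with hc | hc
      · rw [if_pos (by rw [hc] at hx; linarith), hc]
      · rw [if_neg (by rw [hc] at hx; linarith), hc]
    obtain ⟨c, hcc, hcp⟩ : ∃ c : ℝ, (c = 1 / 2 ∨ c = -(1 / 2)) ∧ |p.re - c| < 1 / 4 := by
      have hs := hself.1
      unfold dl at hs
      rw [abs_div, abs_of_pos h0, div_lt_one h0] at hs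
      by_cases h : 0 < p.re
      · refine ⟨1 / 2, Or.inl rfl, ?_⟩
        rw [if_pos h] at hs
        rw [abs_sub_comm]
        linarith
      · refine ⟨-(1 / 2), Or.inr rfl, ?_⟩
        rw [if_neg h] at hs
        rw [abs_sub_comm]
        linarith
    refine ⟨c, hcc, ?_⟩
    have c4 : ∀ᶠ a : ℂ × ℂ in 𝓝 (p, r), |a.1.re - c| < 1 / 4 :=
      ((by fun_prop : Continuous fun a : ℂ × ℂ => |a.1.re - c|).continuousAt
        (x := (p, r))).eventually_lt_const hcp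
    filter_upwards [c2, hfar, c4] with a a2 a3 a4
    have h5 := key a a2 a3
    rw [hd c a.1.re hcc a4] at h5
    exact ⟨h5.1, a2, h5.2⟩

theorem LocKOut_psi (h0 : 0 < ε) (c q : ℝ) {x : ℝ} (hx : |(c - x) / ε| < 1) (ζ : ℂ) :
    IsLocalDiffeomorphAt 𝓘(ℝ, ℝ × ℝ × ℂ) 𝓘(ℝ, ℝ × ℝ × ℂ) ∞
      (fun a : ℝ × ℝ × ℂ => (a.1, TrS (sgm ((c - a.2.1) / ε), a.2.2))) (q, x, ζ) := by
  have h1 : IsLocalDiffeomorphAt 𝓘(ℝ, ℝ) 𝓘(ℝ, ℝ) ∞ (fun x : ℝ => (c - x) / ε) x := by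
    refine ld_of_leftInv (g := fun y => c - ε * y) rfl ?_ ?_ ?_
    · refine Eventually.of_forall fun y => ?_
      exact ((contDiff_const.sub contDiff_id).div_const _).contDiffAt
    · fun_prop
    · refine Eventually.of_forall fun y => ?_
      field_simp
      ring
  have h2 : IsLocalDiffeomorphAt 𝓘(ℝ, ℝ) 𝓘(ℝ, ℝ) ∞ (sgm ∘ fun x : ℝ => (c - x) / ε) x :=
    IsLocalDiffeomorphAt.comp (hf := h1) (hg := sgm_ld hx) ..
  have h3 := LocKOut_prod rfl rfl h2 (ld_id (I := 𝓘(ℝ, ℂ)) (n := ∞) ζ)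
  have h4 := IsLocalDiffeomorphAt.comp (hf := h3) (hg := TrS_ld _) ..
  exact LocKOut_prod rfl rfl (ld_id (I := 𝓘(ℝ, ℝ)) (n := ∞) q) h4

theorem GB_ld_Kout (h0 : 0 < ε) (h1 : ε ≤ 1 / 1000) (h2 : 5 * ε < ρ) (h3 : ρ ≤ 1 / 8)
    (L : LS ε ρ k e X) (F : ℂ × ℂ → X) {p r : ℂ} (hr0 : r ≠ 0) (hr : ‖r‖ < 3 * ε)
    (hp : -(1 / 2) ≤ p.re) (hp' : p.re < 1 / 2) (hout : p.re = -(1 / 2) ∨ Far 4 (bK ε k p r)) :
    IsLocalDiffeomorphAt 𝓘(ℝ, ℂ × ℂ) (𝓡 4) ∞ (GB L F) (p, r) := by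
  have hoff := LocKOut_outer h0 h1 k hr0 hp hp' hout
  have d0 : ∀ᶠ a : ℂ × ℂ in 𝓝 (p, r), a.2 ≠ 0 := continuous_snd.continuousAt.eventually_ne hr0
  have d1 : ∀ᶠ a : ℂ × ℂ in 𝓝 (p, r), ‖a.2‖ < 3 * ε :=
    (continuous_snd.norm.continuousAt (x := (p, r))).eventually_lt_const hr
  have hfrr : ∀ z : ℂ, ‖z‖ < 3 * ε → fr z = z := fun z hz => fr_self' (by linarith)
  have hW : ∀ a : ℂ × ℂ, ‖a.2‖ < 3 * ε → a ∈ Wd ρ := by
    intro a ha
    right
    rw [hfrr _ ha]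
    linarith
  have hG : ∀ a : ℂ × ℂ, ‖a.2‖ < 3 * ε → ε / 8 ≤ ‖a.2‖ → ¬ InK ε (fr a.1) a.2 →
      GB L F (a.1, a.2) = L.G (a.1, a.2) := by
    intro a ha ha2 ha3
    apply GB_eq_G h0 h2 h3 L F (hW a ha)
    · intro _
      rw [hfrr _ ha]
      exact ⟨ha2, ha3⟩
    · intro hh
      rw [hfrr _ ha] at hh
      linarith
  by_cases hr8 : ε / 8 < ‖r‖
  · -- step 2
    have d2 : ∀ᶠ a : ℂ × ℂ in 𝓝 (p, r), ε / 8 < ‖a.2‖ :=
      (continuous_snd.norm.continuousAt (x := (p, r))).eventually_const_lt hr8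
    have hReg : Reg ρ p r := by
      refine ⟨hW (p, r) hr, ?_, ?_⟩
      · intro hpG
        obtain ⟨⟨m, hm⟩, ⟨n, hn⟩⟩ := mem_GI.1 hpG
        have hm0 : p.re = 0 := by
          have m1 : (m : ℝ) < 1 := by linarith
          have m2 : (-1 : ℝ) < m := by linarith
          have m3 : m < 1 := by exact_mod_cast m1
          have m4 : -1 < m := by exact_mod_cast m2
          have m5 : m = 0 := by omega
          rw [hm, m5]; simp
        rcases hout with h | h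
        · rw [hm0] at h; norm_num at h
        · have e : bK ε k p r = sw (OmT ε (qK ε k p r, nsi ε p.re, zK ε p r)) := rfl
          rw [e, far_sw, OmT_far (by norm_num)] at h
          have hn0 : nsi ε p.re = 0 := by
            have := nsi_ns h0 h1 0
            rw [ns_small (by simp)] at this
            rw [hm0]; exact this
          rw [hn0] at h
          have h5 := nr_X2_zero h0 h1 (zK ε p r)
          have h6 : ‖zK ε p r‖ < 3 := by
            unfold zK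
            rw [norm_mul, ex_norm, Complex.norm_real, Real.norm_eq_abs, mul_one,
              abs_of_nonneg (by positivity), div_lt_iff₀ h0]
            exact hr
          linarith [h.1]
      · rintro ⟨hrG, -⟩
        exact hr0 (GI_norm_lt hrG (by linarith))
    refine ld_congr (G_ld L hReg) ?_
    filter_upwards [hoff, d1, d2] with a a1 a2 a3
    exact hG a a2 a3.le a1
  · -- step 3
    rw [not_lt] at hr8
    obtain ⟨c, hcc, hev⟩ := LocKOut_size h0 h1 k hr0 hr8 hp hp' hout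
    obtain ⟨α, hα, hαld⟩ := coordK_ld h0 k (p₁ := p) hr0
    have hself := hev.self_of_nhds
    have hψ := LocKOut_psi h0 c (α (p, r)) hself.1 (zK ε p r)
    have hz : ∀ a : ℂ × ℂ, ‖zK ε a.1 a.2‖ = ‖a.2‖ / ε := by
      intro a
      unfold zK
      rw [norm_mul, ex_norm, Complex.norm_real, Real.norm_eq_abs, mul_one,
        abs_of_nonneg (by positivity)]
    have hz4 : ∀ a : ℂ × ℂ, ‖a.2‖ < ε / 7 → ‖zK ε a.1 a.2‖ ≤ 1 / 4 := by
      intro a ha
      rw [hz, div_le_iff₀ h0]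
      linarith
    have hj : IsLocalDiffeomorphAt 𝓘(ℝ, ℝ × ℝ × ℂ) (𝓡 4) ∞ (jKb L)
        (α (p, r), TrS (sgm ((c - p.re) / ε), zK ε p r)) := by
      apply jKb_ld
      have := norm_TrS hself.2.2 (hz4 _ hself.2.1)
      refine lt_trans this (by norm_num)
    have e1 := IsLocalDiffeomorphAt.comp (hf := hαld) (hg := hψ) ..
    have e2 := IsLocalDiffeomorphAt.comp (hf := e1) (hg := hj) ..
    refine ld_congr e2 ?_
    filter_upwards [hoff, d0, d1, hα, hev] with a a1 a0 a2 a3 a4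
    obtain ⟨n, hn⟩ := a3
    change GB L F (a.1, a.2) = jKb L (α a, TrS (sgm ((c - a.1.re) / ε), zK ε a.1 a.2))
    rw [hn, jKb_per]
    have hca : |a.1.re - c| < 1 / 4 := by
      have := a4.1
      rw [abs_div, abs_of_pos h0, div_lt_one h0, abs_sub_comm] at this
      linarith
    by_cases h8 : ‖a.2‖ < ε / 8
    · exact GB_eq_oK h0 h2 h3 L F h8 hcc hca a1
    · rw [not_lt] at h8
      rw [hG a a2 h8 a1]
      have hs0 : 0 < ‖a.2‖ / ε := by
        have : 0 < ‖a.2‖ := norm_pos_iff.2 a0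
        positivity
      have hs8 : 1 / 8 ≤ ‖a.2‖ / ε := by
        rw [le_div_iff₀ h0]; linarith
      have hzK : zK ε a.1 a.2 = ((‖a.2‖ / ε : ℝ) : ℂ) * ex a.1.im := rfl
      have hT := norm_TrS a4.2.2 (hz4 _ a4.2.1)
      rw [hzK] at hT
      have hjT := jKb_TrS L (qK ε k a.1 a.2) (sgm ((c - a.1.re) / ε)) a.1.im hs0
        (lt_trans hT (by norm_num))
      have hMZ : MZ (((‖a.2‖ / ε : ℝ) : ℂ)) = ‖a.2‖ / ε := by
        rw [MZ_big] <;> rw [Complex.norm_real, Real.norm_eq_abs, abs_of_pos hs0]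
        exact hs8
      rw [hzK, hjT, hMZ, mul_div_assoc, div_self hs0.ne', mul_one, yy_sgm a4.1]
      have ht : twc (((‖a.2‖ / ε : ℝ) : ℂ) * ex a.1.im) = thc a.1.im - a.1.im :=
        twc_big (by linarith)
      have hq : qK ε k a.1 a.2 + k * thc a.1.im = Complex.arg a.2 / (2 * Real.pi) := by
        unfold qK
        rw [hzK, ht]
        ring
      have hsec : (ε : ℂ) * ((‖a.2‖ / ε : ℝ) : ℂ) * ex (qK ε k a.1 a.2 + k * thc a.1.im) = a.2 := by
        rw [hq]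
        have hεc : (ε : ℂ) ≠ 0 := by exact_mod_cast h0.ne'
        have : (ε : ℂ) * ((‖a.2‖ / ε : ℝ) : ℂ) = (‖a.2‖ : ℂ) := by
          push_cast; field_simp
        rw [this, ex_arg]
      rw [hsec]
      have hfst : ((1 / 2 - ε * ((c - a.1.re) / ε) : ℝ) : ℂ) + (a.1.im : ℝ) * I =
          a.1 + ((1 / 2 - c : ℝ) : ℂ) := by
        apply Complex.ext
        · simp
          field_simp
          ring
        · simp
      rw [hfst]
      have hgi : ((1 / 2 - c : ℝ) : ℂ) ∈ GI := by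
        rcases hcc with h | h
        · rw [h]; refine ⟨0, 0, ?_⟩; simp
        · rw [h]; refine ⟨1, 0, ?_⟩; norm_num
      have := L.G_per a.1 a.2 _ 0 (hW a a2) hgi GI_zero
      rw [add_zero] at this
      exact this.symm

end Pool.Agent.TS
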