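import Pool.Agent.TS.PerM
import Pool.Agent.TS.BrM
import Pool.Agent.TS.ConsTM
import Pool.Agent.TS.LocKOutM

/-!
# TS/LocTOutM: `GB` is a local diffeomorphism at outer points near `T`
Let `(p₁, r₁)` be the point, `0 < ‖p₁‖ < 3 ε`, `-1/2 ≤ Re r₁ < 1/2`, `3 ε ≤ ‖fr r₁‖`, and `Re r₁ = -1/2` or
`Far 4 (bT p₁ r₁)`.  In the second case `‖nT‖ ≥ 4 > ‖p₁‖/ε`, so `ww < 1`, `|nsi| > 1/64`, hence `‖fr r₁‖ > 3 ε`.
STEP 1: near the point `3 ε < ‖fr r‖` and `¬ InT ε p (fr r)` (`InT` means `‖nT‖ < 3`; near `Re r = ± 1/2` `ww → 0`,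
`‖p‖ ≥ ‖p₁‖/2`).
STEP 2: `‖p₁‖ > ε/8`: near the point `GB = L.G` (`GB_eq_G`), `G_ld`, `Reg_T`.
STEP 3: `‖p₁‖ ≤ ε/8`: near the point (`‖p‖ < ε/7`) `GB (p, r) = jTb L (qT, sgm ((c - Re r)/ε) MZ/‖zT‖, zT)`, `c = ± 1/2`
(`|c - Re r₁| < ε`: `ww_pole`, `dl_ns`): `GB_eq_oT`, resp. for `ε/8 ≤ ‖p‖ < ε/7` `GB_eq_G` and `jTb_G` with `MZ = ‖zT‖`,
`yy_sgm`, `twc (s ex u) + u = thc u`.  Composition of `coordT_ld` (`zT ≠ 0`), `sgm_ld`,
`(q, σ, Z) ↦ (q, σ MZ Z / ‖Z‖, Z)` (`Z ≠ 0`), `jTb_ld`.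
-/

open scoped Manifold ContDiff Topology
open Complex (I)
open Set Filter

namespace Pool.Agent.TS
open Pool.Agent.CSG

variable {X : Type*} [TopologicalSpace X] [ChartedSpace E4 X] {ε ρ : ℝ} {k e : ℤ}

/-- near `± 1/2` the value of `nsi` is large -/
theorem LocTOut_nsi (h0 : 0 < ε) (h1 : ε ≤ 1 / 1000) {x Y : ℝ} (hY : 3 / 10 ≤ Y) (hx : |x| < 1 / 2)
    (hx' : 1 / 2 - ε * sech (2 * Real.pi * Y) < |x|) : Y < |nsi ε x| := by
  by_contra hc
  rw [not_lt, abs_le] at hc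
  have h4 : ns ε Y = 1 / 2 - ε * sech (2 * Real.pi * Y) := ns_big hY
  have e1 : ns ε (nsi ε x) = x := ns_nsi h0 h1 hx
  have e2 : ns ε (nsi ε x) ≤ ns ε Y := (ns_strictMono h0 h1).monotone hc.2
  have e3 : ns ε (-Y) ≤ ns ε (nsi ε x) := (ns_strictMono h0 h1).monotone hc.1
  rw [ns_neg, h4, e1] at e3
  rw [h4, e1] at e2
  have : |x| ≤ 1 / 2 - ε * sech (2 * Real.pi * Y) := abs_le.2 ⟨by linarith, by linarith⟩
  linarith

/-- near `± 1/2` the weight is small -/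
theorem LocTOut_ww (h0 : 0 < ε) (h1 : ε ≤ 1 / 1000) {η : ℝ} (hη : 0 < η) :
    ∃ δ : ℝ, 0 < δ ∧ δ ≤ 1 / 1000 ∧ ∀ x : ℝ, |x| < 1 / 2 → 1 / 2 - δ < |x| → ww (nsi ε x) ≤ η := by
  set Y : ℝ := max (3 / 10) (1 / η) with hY
  have hY1 : 3 / 10 ≤ Y := le_max_left _ _
  have hY2 : 1 / η ≤ Y := le_max_right _ _
  have hs := sech_pos (2 * Real.pi * Y)
  have hs1 := sech_le_one (2 * Real.pi * Y)
  refine ⟨ε * sech (2 * Real.pi * Y), by positivity, by nlinarith, ?_⟩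
  intro x hx hx'
  have h := LocTOut_nsi h0 h1 hY1 hx hx'
  have hw : ww (nsi ε x) = sech (2 * Real.pi * nsi ε x) := ww_big (by linarith)
  rw [hw]
  unfold sech
  have hcosh : 1 / η ≤ Real.cosh (2 * Real.pi * nsi ε x) := by
    rw [← Real.cosh_abs, abs_mul, abs_of_pos (by positivity : 0 < 2 * Real.pi)]
    have h5 : |nsi ε x| ≤ 2 * Real.pi * |nsi ε x| := by
      nlinarith [Real.pi_gt_three, abs_nonneg (nsi ε x)]
    have h6 : ∀ z : ℝ, 0 ≤ z → z ≤ Real.cosh z := by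
      intro z hz
      have h7 := Real.quadratic_le_exp_of_nonneg hz
      have h8 : 0 < Real.exp (-z) := Real.exp_pos _
      rw [Real.cosh_eq]
      nlinarith [sq_nonneg (z - 1)]
    have h9 := h6 (2 * Real.pi * |nsi ε x|) (by positivity)
    linarith
  have hη' : 0 < 1 / η := by positivity
  calc (Real.cosh (2 * Real.pi * nsi ε x))⁻¹ ≤ (1 / η)⁻¹ := inv_anti₀ hη' hcosh
    _ = η := by simp

theorem LocTOut_norm_nT (h0 : 0 < ε) (e : ℤ) (p r : ℂ) :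
    ‖nT ε e p r‖ = ‖p‖ / ε / ww (nsi ε r.re) := by
  have hw := ww_pos (nsi ε r.re)
  unfold nT
  rw [norm_div, norm_mul, ex_norm, Complex.norm_real, Real.norm_eq_abs, mul_one,
    abs_of_pos (by positivity)]
  field_simp

theorem LocTOut_far (h0 : 0 < ε) (h1 : ε ≤ 1 / 1000) {p r : ℂ} (hr' : 3 * ε ≤ ‖fr r‖)
    (hr : |r.re| < 1 / 2) (hf : Far 4 (bT ε e p r)) : 4 ≤ ‖p‖ / ε / ww (nsi ε r.re) := by
  have hE : (E2 ε ((nsi ε r.re : ℂ) + r.im * I)).1 < 0 := by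
    have := E2_T h0 h1 hr (c := 3) (by norm_num) (by norm_num) hr'
    refine lt_of_le_of_lt this (by norm_num)
  have e1 : bT ε e p r = sw (OmC ε ((nsi ε r.re : ℂ) + r.im * I, nT ε e p r)) := rfl
  rw [e1, far_sw, OmC_far h0 h1 (by norm_num) _ hE, LocTOut_norm_nT h0] at hf
  exact hf.1

theorem LocTOut_outer (h0 : 0 < ε) (h1 : ε ≤ 1 / 1000) {p r : ℂ} (hp0 : p ≠ 0)
    (hp : ‖p‖ < 3 * ε) (hr' : 3 * ε ≤ ‖fr r‖) (hr : -(1 / 2) ≤ r.re) (hr1 : r.re < 1 / 2)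
    (hout : r.re = -(1 / 2) ∨ Far 4 (bT ε e p r)) :
    3 * ε < ‖fr r‖ ∧ ∀ᶠ a : ℂ × ℂ in 𝓝 (p, r), ¬ InT ε a.1 (fr a.2) := by
  have hpn : 0 < ‖p‖ := norm_pos_iff.2 hp0
  by_cases hc : r.re = -(1 / 2)
  · constructor
    · have h5 := Complex.abs_re_le_norm (fr r)
      have h6 : |(fr r).re| = 1 / 2 := by
        rw [fr_re, rd_self hr hr1, hc]; norm_num
      linarith
    obtain ⟨δ, hδ0, hδ1, hδ⟩ := LocTOut_ww h0 h1 (show 0 < ‖p‖ / (6 * ε) by positivity)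
    have c1 : ∀ᶠ a : ℂ × ℂ in 𝓝 (p, r), |a.2.re - r.re| < δ :=
      ((by fun_prop : Continuous fun a : ℂ × ℂ => |a.2.re - r.re|).continuousAt
        (x := (p, r))).eventually_lt_const (by simpa using hδ0)
    have c2 : ∀ᶠ a : ℂ × ℂ in 𝓝 (p, r), ‖p‖ / 2 < ‖a.1‖ :=
      (continuous_fst.norm.continuousAt (x := (p, r))).eventually_const_lt
        (show ‖p‖ / 2 < ‖(p, r).1‖ by change ‖p‖ / 2 < ‖p‖; linarith)
    filter_upwards [c1, c2] with a a1 a2 hin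
    obtain ⟨i1, i2⟩ := hin
    rw [hc, abs_lt] at a1
    have hx := fr_re a.2
    have hm := fr_re_mem a.2
    have hbig : 1 / 2 - δ < |(fr a.2).re| := by
      set x := (fr a.2).re with hxd
      set m := round a.2.re with hmd
      have m1 : (m : ℝ) < 1 := by linarith
      have m2 : (-2 : ℝ) < m := by linarith
      have m3 : m < 1 := by exact_mod_cast m1
      have m4 : -2 < m := by exact_mod_cast m2
      have m5 : m = 0 ∨ m = -1 := by omega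
      rcases m5 with m5 | m5
      · rw [m5] at hx
        push_cast at hx
        rw [lt_abs]
        right
        linarith
      · rw [m5] at hx
        push_cast at hx
        rw [lt_abs]
        left
        linarith
    have h4 := hδ _ i1 hbig
    have h5 : 3 * ε * ww (nsi ε (fr a.2).re) ≤ ‖p‖ / 2 := by
      calc 3 * ε * ww (nsi ε (fr a.2).re) ≤ 3 * ε * (‖p‖ / (6 * ε)) :=
            mul_le_mul_of_nonneg_left h4 (by positivity)
        _ = ‖p‖ / 2 := by field_simp; ring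
    linarith
  · have hr2 : |r.re| < 1 / 2 := by
      rw [abs_lt]
      exact ⟨lt_of_le_of_ne hr (Ne.symm hc), hr1⟩
    have hf : Far 4 (bT ε e p r) := by
      rcases hout with h | h
      · exact absurd h hc
      · exact h
    have h4 := LocTOut_far h0 h1 hr' hr2 hf
    have hw := ww_pos (nsi ε r.re)
    rw [le_div_iff₀ hw, le_div_iff₀ h0] at h4
    constructor
    · have h5 : 1 / 64 < |nsi ε r.re| := by
        by_contra hcon
        rw [ww_small (not_lt.1 hcon)] at h4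
        linarith
      have h6 : 1 / 64 ≤ |r.re| := by
        by_contra hcon
        rw [not_le] at hcon
        have h7 : nsi ε r.re = r.re := by
          have e1 := nsi_ns h0 h1 r.re
          rw [ns_small (by linarith)] at e1
          exact e1
        rw [h7] at h5
        linarith
      have h8 := Complex.abs_re_le_norm (fr r)
      rw [fr_re, rd_self hr hr1] at h8
      simp only [Int.cast_zero, sub_zero] at h8
      linarith
    · have cw : ContinuousAt (fun a : ℂ × ℂ => 3 * ε * ww (nsi ε a.2.re) - ‖a.1‖) (p, r) := by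
        have e1 : ContinuousAt (fun a : ℂ × ℂ => nsi ε a.2.re) (p, r) :=
          ContinuousAt.comp (x := (p, r)) (g := nsi ε) (f := fun a : ℂ × ℂ => a.2.re)
            (nsi_continuousAt h0 h1 hr2)
            (by fun_prop : Continuous fun a : ℂ × ℂ => a.2.re).continuousAt
        have e2 : ContinuousAt (fun a : ℂ × ℂ => ww (nsi ε a.2.re)) (p, r) :=
          ContinuousAt.comp (x := (p, r)) (g := ww) (f := fun a : ℂ × ℂ => nsi ε a.2.re)
            ww_smooth.continuous.continuousAt e1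
        exact (continuousAt_const.mul e2).sub continuous_fst.norm.continuousAt
      have c1 : ∀ᶠ a : ℂ × ℂ in 𝓝 (p, r), 3 * ε * ww (nsi ε a.2.re) - ‖a.1‖ < 0 := by
        apply cw.eventually_lt_const
        change 3 * ε * ww (nsi ε r.re) - ‖p‖ < 0
        have : 0 < ε * ww (nsi ε r.re) := by positivity
        nlinarith
      have c3 : ∀ᶠ a : ℂ × ℂ in 𝓝 (p, r), |a.2.re| < 1 / 2 :=
        ((by fun_prop : Continuous fun a : ℂ × ℂ => |a.2.re|).continuousAt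
          (x := (p, r))).eventually_lt_const hr2
      filter_upwards [c1, c3] with a a1 a3
      obtain ⟨n, hn⟩ := LocKOut_fr a3
      rw [hn, InT_per]
      rintro ⟨-, i2⟩
      linarith

/-- the coordinate `σ` near the point -/
theorem LocTOut_size (h0 : 0 < ε) (h1 : ε ≤ 1 / 1000) {p r : ℂ} (hp0 : p ≠ 0)
    (hp : ‖p‖ ≤ ε / 8) (hr' : 3 * ε ≤ ‖fr r‖) (hr : -(1 / 2) ≤ r.re) (hr1 : r.re < 1 / 2)
    (hout : r.re = -(1 / 2) ∨ Far 4 (bT ε e p r)) :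
    ∃ c : ℝ, (c = 1 / 2 ∨ c = -(1 / 2)) ∧ ∀ᶠ a : ℂ × ℂ in 𝓝 (p, r), |(c - a.2.re) / ε| < 1 := by
  have hpn : 0 < ‖p‖ := norm_pos_iff.2 hp0
  obtain ⟨c, hcc, hcp⟩ : ∃ c : ℝ, (c = 1 / 2 ∨ c = -(1 / 2)) ∧ |(c - r.re) / ε| < 1 := by
    by_cases hc : r.re = -(1 / 2)
    · refine ⟨-(1 / 2), Or.inr rfl, ?_⟩
      rw [hc]; simp
    · have hr2 : |r.re| < 1 / 2 := by
        rw [abs_lt]
        exact ⟨lt_of_le_of_ne hr (Ne.symm hc), hr1⟩
      have hf : Far 4 (bT ε e p r) := by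
        rcases hout with h | h
        · exact absurd h hc
        · exact h
      have h4 := LocTOut_far h0 h1 hr' hr2 hf
      have hs7 : ‖p‖ / ε ≤ 1 / 7 := by
        rw [div_le_iff₀ h0]; linarith
      obtain ⟨b1, -⟩ := ww_pole (by positivity) hs7 (by linarith : 2 ≤ ‖p‖ / ε / ww (nsi ε r.re))
      obtain ⟨d1, -⟩ := dl_ns h0 h1 b1
      rw [ns_nsi h0 h1 hr2] at d1
      unfold dl at d1
      by_cases h : 0 < r.re
      · rw [if_pos h] at d1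
        exact ⟨1 / 2, Or.inl rfl, d1⟩
      · rw [if_neg h] at d1
        exact ⟨-(1 / 2), Or.inr rfl, d1⟩
  refine ⟨c, hcc, ?_⟩
  exact ((by fun_prop : Continuous fun a : ℂ × ℂ => |(c - a.2.re) / ε|).continuousAt
    (x := (p, r))).eventually_lt_const hcp

theorem LocTOut_psi (h0 : 0 < ε) (c q : ℝ) {x : ℝ} (hx : |(c - x) / ε| < 1) {Z : ℂ} (hZ : Z ≠ 0) :
    IsLocalDiffeomorphAt 𝓘(ℝ, ℝ × ℝ × ℂ) 𝓘(ℝ, ℝ × ℝ × ℂ) ∞
      (fun a : ℝ × ℝ × ℂ => (a.1, sgm ((c - a.2.1) / ε) * MZ a.2.2 / ‖a.2.2‖, a.2.2)) (q, x, Z) := by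
  have h1 : IsLocalDiffeomorphAt 𝓘(ℝ, ℝ) 𝓘(ℝ, ℝ) ∞ (fun x : ℝ => (c - x) / ε) x := by
    refine ld_of_leftInv (g := fun y => c - ε * y) rfl ?_ ?_ ?_
    · refine Eventually.of_forall fun y => ?_
      exact ((contDiff_const.sub contDiff_id).div_const _).contDiffAt
    · fun_prop
    · refine Eventually.of_forall fun y => ?_
      field_simp
      ring
  have h2 : IsLocalDiffeomorphAt 𝓘(ℝ, ℝ) 𝓘(ℝ, ℝ) ∞ (sgm ∘ fun x : ℝ => (c - x) / ε) x :=
    IsLocalDiffeomorphAt.comp (hf := h1) (hg := sgm_ld hx) ..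
  have h3 := LocKOut_prod rfl rfl h2 (ld_id (I := 𝓘(ℝ, ℂ)) (n := ∞) Z)
  have hnn : ∀ b : ℝ × ℂ, b.2 ≠ 0 → ContDiffAt ℝ ∞ (fun b : ℝ × ℂ => ‖b.2‖) b := fun b hb =>
    contDiffAt_snd.norm ℝ hb
  have hMs : ContDiff ℝ ∞ (fun b : ℝ × ℂ => MZ b.2) := MZ_smooth.comp contDiff_snd
  have h5 : IsLocalDiffeomorphAt 𝓘(ℝ, ℝ × ℂ) 𝓘(ℝ, ℝ × ℂ) ∞
      (fun b : ℝ × ℂ => (b.1 * MZ b.2 / ‖b.2‖, b.2)) (sgm ((c - x) / ε), Z) := by
    refine ld_of_leftInv (g := fun b : ℝ × ℂ => (b.1 * ‖b.2‖ / MZ b.2, b.2)) rfl ?_ ?_ ?_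
    · have c1 : ∀ᶠ b : ℝ × ℂ in 𝓝 (sgm ((c - x) / ε), Z), b.2 ≠ 0 :=
        continuous_snd.continuousAt.eventually_ne hZ
      filter_upwards [c1] with b hb
      apply ContDiffAt.prodMk
      · apply ContDiffAt.div
        · exact contDiffAt_fst.mul hMs.contDiffAt
        · exact hnn b hb
        · exact norm_ne_zero_iff.2 hb
      · exact contDiffAt_snd
    · have e : ContDiffAt ℝ ∞ (fun b : ℝ × ℂ => (b.1 * ‖b.2‖ / MZ b.2, b.2))
          (sgm ((c - x) / ε) * MZ Z / ‖Z‖, Z) := by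
        apply ContDiffAt.prodMk
        · apply ContDiffAt.div
          · exact contDiffAt_fst.mul (hnn _ hZ)
          · exact hMs.contDiffAt
          · exact (MZ_pos _).ne'
        · exact contDiffAt_snd
      exact e.differentiableAt (by simp)
    · have c1 : ∀ᶠ b : ℝ × ℂ in 𝓝 (sgm ((c - x) / ε), Z), b.2 ≠ 0 :=
        continuous_snd.continuousAt.eventually_ne hZ
      filter_upwards [c1] with b hb
      have hb' : ‖b.2‖ ≠ 0 := norm_ne_zero_iff.2 hb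
      have hM := (MZ_pos b.2).ne'
      apply Prod.ext
      · change b.1 * MZ b.2 / ‖b.2‖ * ‖b.2‖ / MZ b.2 = b.1
        field_simp
      · rfl
  have h4 := IsLocalDiffeomorphAt.comp (hf := h3) (hg := h5) ..
  exact LocKOut_prod rfl rfl (ld_id (I := 𝓘(ℝ, ℝ)) (n := ∞) q) h4

theorem GB_ld_Tout (h0 : 0 < ε) (h1 : ε ≤ 1 / 1000) (h2 : 5 * ε < ρ) (h3 : ρ ≤ 1 / 8)
    (L : LS ε ρ k e X) (F : ℂ × ℂ → X) {p r : ℂ} (hp0 : p ≠ 0) (hp : ‖p‖ < 3 * ε)
    (hr' : 3 * ε ≤ ‖fr r‖) (hr : -(1 / 2) ≤ r.re) (hr1 : r.re < 1 / 2)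
    (hout : r.re = -(1 / 2) ∨ Far 4 (bT ε e p r)) :
    IsLocalDiffeomorphAt 𝓘(ℝ, ℂ × ℂ) (𝓡 4) ∞ (GB L F) (p, r) := by
  obtain ⟨h3r, hoff⟩ := LocTOut_outer (e := e) h0 h1 hp0 hp hr' hr hr1 hout
  have d0 : ∀ᶠ a : ℂ × ℂ in 𝓝 (p, r), a.1 ≠ 0 := continuous_fst.continuousAt.eventually_ne hp0
  have d1 : ∀ᶠ a : ℂ × ℂ in 𝓝 (p, r), ‖a.1‖ < 3 * ε :=
    (continuous_fst.norm.continuousAt (x := (p, r))).eventually_lt_const hp
  have d3 : ∀ᶠ a : ℂ × ℂ in 𝓝 (p, r), 3 * ε < ‖fr a.2‖ :=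
    ((fr_continuous.comp continuous_snd).continuousAt (x := (p, r))).eventually_const_lt h3r
  have hfrr : ∀ z : ℂ, ‖z‖ < 3 * ε → fr z = z := fun z hz => fr_self' (by linarith)
  have hW : ∀ a : ℂ × ℂ, ‖a.1‖ < 3 * ε → a ∈ Wd ρ := by
    intro a ha
    left
    rw [hfrr _ ha]
    linarith
  have hG : ∀ a : ℂ × ℂ, ‖a.1‖ < 3 * ε → ε / 8 ≤ ‖a.1‖ → 3 * ε < ‖fr a.2‖ →
      ¬ InT ε a.1 (fr a.2) → GB L F (a.1, a.2) = L.G (a.1, a.2) := by
    intro a ha ha2 ha4 ha3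
    apply GB_eq_G h0 h2 h3 L F (hW a ha)
    · intro hh
      linarith
    · intro _ _
      rw [hfrr _ ha]
      exact ⟨ha2, ha3⟩
  by_cases hp8 : ε / 8 < ‖p‖
  · have d2 : ∀ᶠ a : ℂ × ℂ in 𝓝 (p, r), ε / 8 < ‖a.1‖ :=
      (continuous_fst.norm.continuousAt (x := (p, r))).eventually_const_lt hp8
    have hReg : Reg ρ p r := by
      refine ⟨hW (p, r) hp, ?_, ?_⟩
      · intro hpG
        exact hp0 (GI_norm_lt hpG (by linarith))
      · rintro ⟨hrG, -⟩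
        rw [fr_eq_zero.2 hrG, norm_zero] at h3r
        linarith
    refine ld_congr (G_ld L hReg) ?_
    filter_upwards [hoff, d1, d2, d3] with a a1 a2 a3 a4
    exact hG a a2 a3.le a4 a1
  · rw [not_lt] at hp8
    obtain ⟨c, hcc, hev⟩ := LocTOut_size (e := e) h0 h1 hp0 hp8 hr' hr hr1 hout
    obtain ⟨α, hα, hαld⟩ := coordT_ld h0 e (r₁ := r) hp0
    have hself := hev.self_of_nhds
    have hz : ∀ a : ℂ × ℂ, ‖zT ε a.1 a.2‖ = ‖a.1‖ / ε := by
      intro a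
      unfold zT
      rw [norm_mul, ex_norm, Complex.norm_real, Real.norm_eq_abs, mul_one,
        abs_of_nonneg (by positivity)]
    have hzne : ∀ a : ℂ × ℂ, a.1 ≠ 0 → zT ε a.1 a.2 ≠ 0 := by
      intro a ha
      rw [← norm_pos_iff, hz]
      have : 0 < ‖a.1‖ := norm_pos_iff.2 ha
      positivity
    have hψ := LocTOut_psi h0 c (α (p, r)) hself (hzne (p, r) hp0)
    have hj : IsLocalDiffeomorphAt 𝓘(ℝ, ℝ × ℝ × ℂ) (𝓡 4) ∞ (jTb L)
        (α (p, r), sgm ((c - r.re) / ε) * MZ (zT ε p r) / ‖zT ε p r‖, zT ε p r) := by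
      apply jTb_ld h0
      change ‖zT ε p r‖ < 5
      have := hz (p, r)
      change ‖zT ε p r‖ = ‖p‖ / ε at this
      rw [this, div_lt_iff₀ h0]
      linarith
    have e1 := IsLocalDiffeomorphAt.comp (hf := hαld) (hg := hψ) ..
    have e2 := IsLocalDiffeomorphAt.comp (hf := e1) (hg := hj) ..
    refine ld_congr e2 ?_
    have d7 : ∀ᶠ a : ℂ × ℂ in 𝓝 (p, r), ‖a.1‖ < ε / 7 :=
      (continuous_fst.norm.continuousAt (x := (p, r))).eventually_lt_const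
        (show ‖(p, r).1‖ < ε / 7 by change ‖p‖ < ε / 7; linarith)
    filter_upwards [hoff, d0, d1, d3, hα, hev, d7] with a a1 a0 a2 a5 a3 a4 a7
    obtain ⟨n, hn⟩ := a3
    change GB L F (a.1, a.2) = jTb L (α a, sgm ((c - a.2.re) / ε) * MZ (zT ε a.1 a.2) /
      ‖zT ε a.1 a.2‖, zT ε a.1 a.2)
    rw [hn, jTb_per]
    have hca : |a.2.re - c| < 1 / 4 := by
      have := a4
      rw [abs_div, abs_of_pos h0, div_lt_one h0, abs_sub_comm] at this
      linarith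
    by_cases h8 : ‖a.1‖ < ε / 8
    · exact GB_eq_oT h0 h2 h3 L F h8 hcc hca a1
    · rw [not_lt] at h8
      rw [hG a a2 h8 a5 a1]
      have hs0 : 0 < ‖a.1‖ / ε := by
        have : 0 < ‖a.1‖ := norm_pos_iff.2 a0
        positivity
      have hs8 : 1 / 8 ≤ ‖a.1‖ / ε := by
        rw [le_div_iff₀ h0]; linarith
      have hzT : zT ε a.1 a.2 = ((‖a.1‖ / ε : ℝ) : ℂ) * ex a.2.im := rfl
      have hs5 : ‖a.1‖ / ε < 5 := by
        rw [div_lt_iff₀ h0]; linarith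
      have hjT := jTb_G L (qT e a.1 a.2) (sgm ((c - a.2.re) / ε)) a.2.im hs0 hs5
      have hMZ : MZ (zT ε a.1 a.2) = ‖zT ε a.1 a.2‖ := MZ_big (by rw [hz]; exact hs8)
      have hzn : ‖zT ε a.1 a.2‖ ≠ 0 := norm_ne_zero_iff.2 (hzne a a0)
      rw [hMZ, mul_div_assoc, div_self hzn, mul_one, hzT, hjT, yy_sgm a4]
      have ht : twc (((‖a.1‖ / ε : ℝ) : ℂ) * ex a.2.im) = thc a.2.im - a.2.im :=
        twc_big (by linarith)
      have hq : qT e a.1 a.2 + e * twc (((‖a.1‖ / ε : ℝ) : ℂ) * ex a.2.im) + e * a.2.im =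
          Complex.arg a.1 / (2 * Real.pi) := by
        unfold qT
        rw [ht]
        ring
      have hfst : (ε : ℂ) * ((‖a.1‖ / ε : ℝ) : ℂ) *
          ex (qT e a.1 a.2 + e * twc (((‖a.1‖ / ε : ℝ) : ℂ) * ex a.2.im) + e * a.2.im) = a.1 := by
        rw [hq]
        have hεc : (ε : ℂ) ≠ 0 := by exact_mod_cast h0.ne'
        have : (ε : ℂ) * ((‖a.1‖ / ε : ℝ) : ℂ) = (‖a.1‖ : ℂ) := by
          push_cast; field_simp
        rw [this, ex_arg]
      rw [hfst]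
      have hsec : ((1 / 2 - ε * ((c - a.2.re) / ε) : ℝ) : ℂ) + (a.2.im : ℝ) * I =
          a.2 + ((1 / 2 - c : ℝ) : ℂ) := by
        apply Complex.ext
        · simp
          field_simp
          ring
        · simp
      rw [hsec]
      have hgi : ((1 / 2 - c : ℝ) : ℂ) ∈ GI := by
        rcases hcc with h | h
        · rw [h]; refine ⟨0, 0, ?_⟩; simp
        · rw [h]; refine ⟨1, 0, ?_⟩; norm_num
      have := L.G_per a.1 a.2 0 _ (hW a a2) GI_zero hgi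
      rw [add_zero] at this
      exact this.symm

end Pool.Agent.TS
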