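import Pool.Agent.TS.OutDef
import Pool.Agent.TS.CcM
import Pool.Agent.TS.ConsKM
import Pool.Agent.TS.ConsTM
import Pool.Agent.TS.OutGM

/-!
# TS/OutInjM: injectivity of the new coordinate map on outer points
Types of an outer point: (K) `‖r‖ < ε/8`; (T) `‖r‖ ≥ 3 ε`, `‖p‖ < ε/8`; (P) otherwise, value `L.G (p, r)` (regular, see
OutGM).  (K),(K): `jKb_inj` (`norm_TrS`), `TrSi_TrS`: `sgm (dl ε p.re)` equal, `|dl| < 1` (`X2_big`, `dl_ns`; `dl = 0` for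
`p.re = -1/2`), `sgm_inj`, so `p.re = p'.re` (reduced); `zK` equal: `‖r‖ = ‖r'‖`, `p.im = p'.im`; `qK' = qK + n`:
`arg r = arg r'`.  (T),(T): `jTb_inj`, `σ MZ/‖Z‖` equal and `Z` equal.  (P),(P): `G_eq`.
(K),(T): `jKb_TrS`, `jTb_G`, `G_eq`: `‖fr P‖ ≥ 1/4` and `‖fr P‖ < ε/8`.  (K),(P): second components: `‖fr R‖ = ‖r‖ < ε/8`,
but `‖r'‖ ≥ ε/8`.  (T),(P): `‖fr P‖ = ‖p‖ < ε/8 `, `‖p'‖ = ‖fr P‖`: if `‖r'‖ < 3 ε` then `(p', r')` is inner
(`nr X2 = ‖zK‖ < 3`), if `‖r'‖ ≥ 3 ε` then `‖p'‖ ≥ ε/8`.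
-/

open scoped Manifold ContDiff Topology
open Complex (I)
open Set Filter

namespace Pool.Agent.TS
open Pool.Agent.CSG

variable {X : Type*} [TopologicalSpace X] [ChartedSpace E4 X] {ε ρ : ℝ} {k e : ℤ}

theorem OutInjM_norm_zK (h0 : 0 < ε) (p r : ℂ) : ‖zK ε p r‖ = ‖r‖ / ε := by
  unfold zK
  rw [norm_mul, ex_norm, mul_one, Complex.norm_real, Real.norm_of_nonneg (by positivity)]

theorem OutInjM_norm_zT (h0 : 0 < ε) (p r : ℂ) : ‖zT ε p r‖ = ‖p‖ / ε := by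
  unfold zT
  rw [norm_mul, ex_norm, mul_one, Complex.norm_real, Real.norm_of_nonneg (by positivity)]

theorem OutInjM_re {z : ℂ} (h : fr z = z) : -(1 / 2) ≤ z.re ∧ z.re < 1 / 2 := by
  have := fr_re_mem z
  rwa [h] at this

theorem OutInjM_im {z : ℂ} (h : fr z = z) : -(1 / 2) ≤ z.im ∧ z.im < 1 / 2 := by
  have := fr_im_mem z
  rwa [h] at this

theorem OutInjM_dl_half (h0 : 0 < ε) : dl ε (-(1 / 2)) = 0 := by
  unfold dl
  rw [if_neg (by norm_num)]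
  simp

theorem OutInjM_dl_inj (h0 : 0 < ε) {x x' : ℝ} (hx : -(1 / 2) ≤ x ∧ x < 1 / 2)
    (hx' : -(1 / 2) ≤ x' ∧ x' < 1 / 2) (h : dl ε x = dl ε x') : x = x' := by
  unfold dl at h
  rw [div_left_inj' h0.ne'] at h
  split_ifs at h <;> linarith

theorem OutInjM_type (h0 : 0 < ε) (h1 : ε ≤ 1 / 1000)
    (L : LS ε ρ k e X) (F : ℂ × ℂ → X) {p r : ℂ} (hp : fr p = p) (hr : fr r = r)
    (hR : RegB ρ p r) (hout : ¬ InB ε p r) :
    (‖r‖ < ε / 8 ∧ r ≠ 0 ∧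
      GB₀ L F p r = jKb L (qK ε k p r, TrS (sgm (dl ε p.re), zK ε p r)) ∧ |dl ε p.re| < 1 ∧
      3 * |sgm (dl ε p.re)| ≤ NN (sgm (dl ε p.re)) (zK ε p r)) ∨
    (3 * ε ≤ ‖r‖ ∧ ‖p‖ < ε / 8 ∧ p ≠ 0 ∧
      GB₀ L F p r = jTb L (qT e p r, sgm (dl ε r.re) * MZ (zT ε p r) / ‖zT ε p r‖, zT ε p r) ∧
      |dl ε r.re| < 1) ∨
    (ε / 8 ≤ ‖r‖ ∧ (3 * ε ≤ ‖r‖ → ε / 8 ≤ ‖p‖) ∧ (‖r‖ < 3 * ε → ¬ InK ε p r) ∧ Reg ρ p r ∧
      GB₀ L F p r = L.G (p, r)) := by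
  obtain ⟨hW, hrG, hC⟩ := hR
  have hr0 : r ≠ 0 := by
    rintro rfl
    exact hrG GI_zero
  unfold InB at hout
  rw [not_or] at hout
  obtain ⟨ho1, ho2⟩ := hout
  have hpre := OutInjM_re hp
  have hrre := OutInjM_re hr
  have hrOn : ¬ OnCK p r := by
    rintro ⟨h, _⟩
    exact hrG h
  by_cases hK : ‖r‖ < ε / 8
  · left
    have hr3 : ‖r‖ < 3 * ε := by linarith
    have hnK : ¬ InK ε p r := fun h => ho1 ⟨hr3, h⟩
    refine ⟨hK, hr0, ?_, ?_⟩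
    · unfold GB₀
      rw [if_pos hr3, if_neg hnK]
      unfold oK
      rw [if_pos hK]
    · rcases eq_or_lt_of_le hpre.1 with h | h
      · rw [← h, OutInjM_dl_half h0]
        have hs : sgm 0 = 0 := by simp [sgm]
        rw [hs]
        refine ⟨by simp, ?_⟩
        simp only [abs_zero, mul_zero]
        exact (NN_pos _ _).le
      · have hab : |p.re| < 1 / 2 := abs_lt.2 ⟨h, hpre.2⟩
        have hn : 3 ≤ nr (X2 ε (nsi ε p.re, zK ε p r)) := by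
          by_contra hc
          exact hnK ⟨hab, not_le.1 hc⟩
        have hz : ‖zK ε p r‖ ≤ 1 / 7 := by
          rw [OutInjM_norm_zK h0, div_le_iff₀ h0]
          linarith
        obtain ⟨hb1, hb2⟩ := X2_big h0 h1 hz hn
        obtain ⟨hd1, hd2⟩ := dl_ns h0 h1 hb1
        rw [ns_nsi h0 h1 hab] at hd1 hd2
        rw [hd2]
        exact ⟨hd1, hb2⟩
  · have hK' : ε / 8 ≤ ‖r‖ := not_lt.1 hK
    by_cases hT : 3 * ε ≤ ‖r‖ ∧ ‖p‖ < ε / 8
    · right; left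
      obtain ⟨hr3, hp8⟩ := hT
      have hp3 : ‖p‖ < 3 * ε := by linarith
      have hnT : ¬ InT ε p r := fun h => ho2 ⟨hr3, hp3, h⟩
      have hp0 : p ≠ 0 := by
        rintro rfl
        rcases eq_or_lt_of_le hrre.1 with h | h
        · apply hC
          refine ⟨GI_zero, -1, ?_⟩
          rw [← h]
          norm_num
        · apply hnT
          refine ⟨abs_lt.2 ⟨h, hrre.2⟩, ?_⟩
          rw [norm_zero]
          have := ww_pos (nsi ε r.re)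
          positivity
      refine ⟨hr3, hp8, hp0, ?_, ?_⟩
      · unfold GB₀
        rw [if_neg (not_lt.2 hr3), if_pos hp3, if_neg hnT]
        unfold oT
        rw [if_pos hp8]
      · rcases eq_or_lt_of_le hrre.1 with h | h
        · rw [← h, OutInjM_dl_half h0]
          simp
        · have hab : |r.re| < 1 / 2 := abs_lt.2 ⟨h, hrre.2⟩
          have hn : 3 * ε * ww (nsi ε r.re) ≤ ‖p‖ := by
            by_contra hc
            exact hnT ⟨hab, not_le.1 hc⟩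
          have hw := ww_pos (nsi ε r.re)
          have hs0 : 0 < ‖p‖ / ε := div_pos (norm_pos_iff.2 hp0) h0
          have hs1 : ‖p‖ / ε ≤ 1 / 7 := by
            rw [div_le_iff₀ h0]
            linarith
          have hs2 : 2 ≤ ‖p‖ / ε / ww (nsi ε r.re) := by
            rw [le_div_iff₀ hw, le_div_iff₀ h0]
            nlinarith [mul_pos h0 hw]
          obtain ⟨hb1, _⟩ := ww_pole hs0 hs1 hs2
          obtain ⟨hd1, _⟩ := dl_ns h0 h1 hb1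
          rwa [ns_nsi h0 h1 hab] at hd1
    · right; right
      have hT' : 3 * ε ≤ ‖r‖ → ε / 8 ≤ ‖p‖ := fun h => by
        by_contra hc
        exact hT ⟨h, not_le.1 hc⟩
      refine ⟨hK', hT', fun h h' => ho1 ⟨h, h'⟩, ⟨hW, ?_, hrOn⟩, ?_⟩
      · intro hpG
        have hp0 : p = 0 := by
          rw [← hp]
          exact fr_eq_zero.2 hpG
        subst hp0
        rcases lt_or_ge ‖r‖ (3 * ε) with h | h
        · exact ho1 ⟨h, InK_corner h0 h1 (by rw [norm_zero]; positivity) h⟩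
        · have := hT' h
          rw [norm_zero] at this
          linarith
      · unfold GB₀
        by_cases h : ‖r‖ < 3 * ε
        · rw [if_pos h, if_neg (fun h' => ho1 ⟨h, h'⟩)]
          unfold oK
          rw [if_neg hK]
        · rw [if_neg h]
          by_cases h' : ‖p‖ < 3 * ε
          · rw [if_pos h', if_neg (fun h'' => ho2 ⟨not_lt.1 h, h', h''⟩)]
            unfold oT
            rw [if_neg (not_lt.2 (hT' (not_lt.1 h)))]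
          · rw [if_neg h']

theorem OutInjM_yy (h0 : 0 < ε) (h1 : ε ≤ 1 / 1000) (σ u : ℝ) :
    1 / 4 ≤ ‖fr ((yy ε σ : ℝ) + (u : ℝ) * I)‖ := by
  have h := yy_lt h0 σ
  rw [abs_lt] at h
  refine le_trans ?_ (Complex.abs_re_le_norm _)
  rw [fr_re]
  have e : (((yy ε σ : ℝ) : ℂ) + (u : ℝ) * I).re = yy ε σ := by simp
  rw [e]
  have h2 := rd_mem (yy ε σ)
  by_contra hc
  rw [not_le, abs_lt] at hc
  have h3 : (round (yy ε σ) : ℝ) < 1 := by linarith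
  have h4 : (0 : ℝ) < (round (yy ε σ) : ℝ) := by linarith
  have h3' : round (yy ε σ) < 1 := by exact_mod_cast h3
  have h4' : 0 < round (yy ε σ) := by exact_mod_cast h4
  omega

theorem OutInjM_polar {z : ℂ} (h0 : 0 < ε) : (ε : ℂ) * (‖z‖ / ε : ℝ) = (‖z‖ : ℂ) := by
  have hε : (ε : ℂ) ≠ 0 := by exact_mod_cast h0.ne'
  push_cast
  field_simp

/-- value of type (K) as a value of `L.G` -/
theorem OutInjM_K (h0 : 0 < ε) (h1 : ε ≤ 1 / 1000) (h2 : 5 * ε < ρ)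
    (L : LS ε ρ k e X) {p r : ℂ} (hr : ‖r‖ < ε / 8) (hr0 : r ≠ 0)
    (hN : 3 * |sgm (dl ε p.re)| ≤ NN (sgm (dl ε p.re)) (zK ε p r)) :
    ∃ P R, Reg ρ P R ∧ 1 / 4 ≤ ‖fr P‖ ∧ ‖fr R‖ < ε / 8 ∧
      jKb L (qK ε k p r, TrS (sgm (dl ε p.re), zK ε p r)) = L.G (P, R) := by
  have hz : ‖zK ε p r‖ ≤ 1 / 4 := by
    rw [OutInjM_norm_zK h0, div_le_iff₀ h0]
    linarith
  have hT := norm_TrS hN hz
  have hs : 0 < ‖r‖ / ε := div_pos (norm_pos_iff.2 hr0) h0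
  have hd : zK ε p r = ((‖r‖ / ε : ℝ) : ℂ) * ex p.im := rfl
  rw [hd] at hT ⊢
  refine ⟨_, _, ?_, ?_, ?_, jKb_TrS L _ _ _ hs (by linarith)⟩
  · have hRn : ‖(ε : ℂ) * (‖r‖ / ε : ℝ) * ex (qK ε k p r + k * thc p.im)‖ = ‖r‖ := by
      rw [norm_mul, ex_norm, mul_one, OutInjM_polar h0, Complex.norm_real, norm_norm]
    have hfrR : fr ((ε : ℂ) * (‖r‖ / ε : ℝ) * ex (qK ε k p r + k * thc p.im)) =
        (ε : ℂ) * (‖r‖ / ε : ℝ) * ex (qK ε k p r + k * thc p.im) :=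
      fr_self' (by rw [hRn]; linarith)
    refine ⟨Or.inr ?_, ?_, ?_⟩
    · simp only
      rw [hfrR, hRn]
      linarith
    · intro hG
      have h3 := OutInjM_yy h0 h1 (sgm (dl ε p.re) * (‖r‖ / ε) / MZ ((‖r‖ / ε : ℝ) : ℂ)) p.im
      rw [fr_eq_zero.2 hG, norm_zero] at h3
      linarith
    · rintro ⟨hG, _⟩
      have h3 := fr_eq_zero.2 hG
      rw [hfrR] at h3
      rw [h3, norm_zero] at hRn
      exact hr0 (norm_eq_zero.1 hRn.symm)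
  · exact OutInjM_yy h0 h1 _ _
  · have hRn : ‖(ε : ℂ) * (‖r‖ / ε : ℝ) * ex (qK ε k p r + k * thc p.im)‖ = ‖r‖ := by
      rw [norm_mul, ex_norm, mul_one, OutInjM_polar h0, Complex.norm_real, norm_norm]
    rw [fr_self' (by rw [hRn]; linarith), hRn]
    exact hr

/-- value of type (T) as a value of `L.G` -/
theorem OutInjM_T (h0 : 0 < ε) (h1 : ε ≤ 1 / 1000) (h2 : 5 * ε < ρ) (h3 : ρ ≤ 1 / 8)
    (L : LS ε ρ k e X) {p r : ℂ} (hp : ‖p‖ < ε / 8) (hp0 : p ≠ 0) (σ : ℝ) :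
    ∃ P R, Reg ρ P R ∧ ‖fr P‖ < ε / 8 ∧
      jTb L (qT e p r, σ, zT ε p r) = L.G (P, R) := by
  have hs : 0 < ‖p‖ / ε := div_pos (norm_pos_iff.2 hp0) h0
  have hs' : ‖p‖ / ε < 5 := by
    rw [div_lt_iff₀ h0]
    linarith
  have hd : zT ε p r = ((‖p‖ / ε : ℝ) : ℂ) * ex r.im := rfl
  rw [hd]
  refine ⟨_, _, ?_, ?_, jTb_G L _ _ _ hs hs'⟩
  · exact Reg_T h0 h2 h3 hs hs' _
  · have hRn : ∀ q : ℝ, ‖(ε : ℂ) * (‖p‖ / ε : ℝ) * ex q‖ = ‖p‖ := by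
      intro q
      rw [norm_mul, ex_norm, mul_one, OutInjM_polar h0, Complex.norm_real, norm_norm]
    rw [fr_self' (by rw [hRn]; linarith), hRn]
    exact hp

theorem OutInjM_fr_eq {z w : ℂ} (h : w - z ∈ GI) : fr w = fr z := by
  have := fr_add (z := z) h
  rw [← this]
  congr 1
  ring

/-- equality of polar coordinates -/
theorem OutInjM_pol (h0 : 0 < ε) {a b : ℝ} (ha : 0 < a) (hb : 0 < b) {t t' : ℝ}
    (h : ((a / ε : ℝ) : ℂ) * ex t = ((b / ε : ℝ) : ℂ) * ex t') : a = b ∧ ex t = ex t' := by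
  have hn : ∀ (c u : ℝ), 0 < c → ‖((c / ε : ℝ) : ℂ) * ex u‖ = c / ε := by
    intro c u hc
    rw [norm_mul, ex_norm, mul_one, Complex.norm_real, Real.norm_of_nonneg (by positivity)]
  have h1 := hn a t ha
  rw [h, hn b t' hb, div_left_inj' h0.ne'] at h1
  subst h1
  refine ⟨rfl, ?_⟩
  have hne : ((b / ε : ℝ) : ℂ) ≠ 0 := by
    have : b / ε ≠ 0 := (div_pos hb h0).ne'
    exact_mod_cast this
  exact mul_left_cancel₀ hne h

theorem OutInjM_ex {t t' : ℝ} (h : ex t = ex t') (ht : -(1 / 2) ≤ t ∧ t < 1 / 2)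
    (ht' : -(1 / 2) ≤ t' ∧ t' < 1 / 2) : t' = t := by
  obtain ⟨n, hn⟩ := ex_eq_iff.1 h
  have h1 : (n : ℝ) < 1 := by linarith
  have h2 : (-1 : ℝ) < n := by linarith
  have h1' : n < 1 := by exact_mod_cast h1
  have h2' : -1 < n := by exact_mod_cast h2
  have : n = 0 := by omega
  rw [hn, this]
  simp

theorem OutInjM_arg {z w : ℂ} (hn : ‖z‖ = ‖w‖) {n : ℤ}
    (h : Complex.arg w / (2 * Real.pi) = Complex.arg z / (2 * Real.pi) + n) : w = z := by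
  rw [← ex_arg w, ← ex_arg z, h, ex_add, ex_int, mul_one, hn]

theorem out_inj (h0 : 0 < ε) (h1 : ε ≤ 1 / 1000) (h2 : 5 * ε < ρ) (h3 : ρ ≤ 1 / 8)
    (L : LS ε ρ k e X) (F : ℂ × ℂ → X) {p r p' r' : ℂ} (hp : fr p = p) (hr : fr r = r)
    (hp' : fr p' = p') (hr' : fr r' = r') (hR : RegB ρ p r) (hR' : RegB ρ p' r')
    (hout : ¬ InB ε p r) (hout' : ¬ InB ε p' r') (he : GB₀ L F p r = GB₀ L F p' r') :
    p' = p ∧ r' = r := by
  -- mixed cases, stated for later use in both orders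
  have KT : ∀ {p r p' r' : ℂ}, (‖r‖ < ε / 8 ∧ r ≠ 0 ∧
      GB₀ L F p r = jKb L (qK ε k p r, TrS (sgm (dl ε p.re), zK ε p r)) ∧ |dl ε p.re| < 1 ∧
      3 * |sgm (dl ε p.re)| ≤ NN (sgm (dl ε p.re)) (zK ε p r)) →
    (3 * ε ≤ ‖r'‖ ∧ ‖p'‖ < ε / 8 ∧ p' ≠ 0 ∧
      GB₀ L F p' r' = jTb L (qT e p' r', sgm (dl ε r'.re) * MZ (zT ε p' r') / ‖zT ε p' r'‖,
        zT ε p' r') ∧ |dl ε r'.re| < 1) → GB₀ L F p r = GB₀ L F p' r' → False := by
    rintro p r p' r' ⟨a1, a2, a3, -, a5⟩ ⟨-, b2, b3, b4, -⟩ he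
    obtain ⟨P, R, c1, c2, -, c4⟩ := OutInjM_K h0 h1 h2 L a1 a2 a5
    obtain ⟨P', R', d1, d2, d3⟩ := OutInjM_T h0 h1 h2 h3 L (r := r') b2 b3
      (sgm (dl ε r'.re) * MZ (zT ε p' r') / ‖zT ε p' r'‖)
    rw [a3, b4, c4, d3] at he
    have h := ((G_eq L c1 d1).1 he).1
    rw [OutInjM_fr_eq h] at d2
    linarith
  have KP : ∀ {p r p' r' : ℂ}, fr r' = r' → (‖r‖ < ε / 8 ∧ r ≠ 0 ∧
      GB₀ L F p r = jKb L (qK ε k p r, TrS (sgm (dl ε p.re), zK ε p r)) ∧ |dl ε p.re| < 1 ∧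
      3 * |sgm (dl ε p.re)| ≤ NN (sgm (dl ε p.re)) (zK ε p r)) →
    (ε / 8 ≤ ‖r'‖ ∧ (3 * ε ≤ ‖r'‖ → ε / 8 ≤ ‖p'‖) ∧ (‖r'‖ < 3 * ε → ¬ InK ε p' r') ∧ Reg ρ p' r' ∧
      GB₀ L F p' r' = L.G (p', r')) → GB₀ L F p r = GB₀ L F p' r' → False := by
    rintro p r p' r' hr' ⟨a1, a2, a3, -, a5⟩ ⟨b1, -, -, b4, b5⟩ he
    obtain ⟨P, R, c1, -, c3, c4⟩ := OutInjM_K h0 h1 h2 L a1 a2 a5
    rw [a3, b5, c4] at he
    have h := ((G_eq L c1 b4).1 he).2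
    have h' := OutInjM_fr_eq h
    rw [hr'] at h'
    rw [h'] at b1
    linarith
  have TP : ∀ {p r p' r' : ℂ}, fr p' = p' → (3 * ε ≤ ‖r‖ ∧ ‖p‖ < ε / 8 ∧ p ≠ 0 ∧
      GB₀ L F p r = jTb L (qT e p r, sgm (dl ε r.re) * MZ (zT ε p r) / ‖zT ε p r‖, zT ε p r) ∧
      |dl ε r.re| < 1) →
    (ε / 8 ≤ ‖r'‖ ∧ (3 * ε ≤ ‖r'‖ → ε / 8 ≤ ‖p'‖) ∧ (‖r'‖ < 3 * ε → ¬ InK ε p' r') ∧ Reg ρ p' r' ∧
      GB₀ L F p' r' = L.G (p', r')) → GB₀ L F p r = GB₀ L F p' r' → False := by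
    rintro p r p' r' hp' ⟨-, a2, a3, a4, -⟩ ⟨b1, b2, b3, b4, b5⟩ he
    obtain ⟨P, R, d1, d2, d3⟩ := OutInjM_T h0 h1 h2 h3 L (r := r) a2 a3
      (sgm (dl ε r.re) * MZ (zT ε p r) / ‖zT ε p r‖)
    rw [a4, b5, d3] at he
    have h := ((G_eq L d1 b4).1 he).1
    have h' := OutInjM_fr_eq h
    rw [hp'] at h'
    rw [← h'] at d2
    rcases lt_or_ge ‖r'‖ (3 * ε) with h4 | h4
    · exact b3 h4 (InK_corner h0 h1 (by linarith) h4)
    · have := b2 h4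
      linarith
  rcases OutInjM_type h0 h1 L F hp hr hR hout with hA | hA | hA <;>
    rcases OutInjM_type h0 h1 L F hp' hr' hR' hout' with hB | hB | hB
  · -- K K
    obtain ⟨a1, a2, a3, a4, a5⟩ := hA
    obtain ⟨b1, b2, b3, b4, b5⟩ := hB
    rw [a3, b3] at he
    have hz : ‖zK ε p r‖ ≤ 1 / 4 := by
      rw [OutInjM_norm_zK h0, div_le_iff₀ h0]
      linarith
    have hz' : ‖zK ε p' r'‖ ≤ 1 / 4 := by
      rw [OutInjM_norm_zK h0, div_le_iff₀ h0]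
      linarith
    have hn := norm_TrS a5 hz
    have hn' := norm_TrS b5 hz'
    have he' : jKb L (qK ε k p r, (TrS (sgm (dl ε p.re), zK ε p r)).1,
        (TrS (sgm (dl ε p.re), zK ε p r)).2) =
      jKb L (qK ε k p' r', (TrS (sgm (dl ε p'.re), zK ε p' r')).1,
        (TrS (sgm (dl ε p'.re), zK ε p' r')).2) := he
    obtain ⟨⟨n, hq⟩, hσ, hζ⟩ := jKb_inj L (by linarith) (by linarith) he'
    have hTr : TrS (sgm (dl ε p'.re), zK ε p' r') = TrS (sgm (dl ε p.re), zK ε p r) :=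
      Prod.ext hσ hζ
    have hTr' := congrArg TrSi hTr
    rw [TrSi_TrS, TrSi_TrS] at hTr'
    obtain ⟨e1, e2⟩ := Prod.ext_iff.1 hTr'
    simp only at e1 e2
    have hdl := sgm_inj b4 a4 e1
    have hre : p'.re = p.re := OutInjM_dl_inj h0 (OutInjM_re hp') (OutInjM_re hp) hdl
    obtain ⟨e3, e4⟩ := OutInjM_pol h0 (norm_pos_iff.2 b2) (norm_pos_iff.2 a2) e2
    have him : p.im = p'.im := OutInjM_ex e4 (OutInjM_im hp') (OutInjM_im hp)
    have hpp : p' = p := Complex.ext hre him.symm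
    refine ⟨hpp, ?_⟩
    subst hpp
    unfold qK at hq
    rw [e2] at hq
    exact OutInjM_arg e3.symm (n := n) (by linarith)
  · exact (KT hA hB he).elim
  · exact (KP hr' hA hB he).elim
  · exact (KT hB hA he.symm).elim
  · -- T T
    obtain ⟨a1, a2, a3, a4, a5⟩ := hA
    obtain ⟨b1, b2, b3, b4, b5⟩ := hB
    rw [a4, b4] at he
    have hz : ‖zT ε p r‖ < 5 := by
      rw [OutInjM_norm_zT h0, div_lt_iff₀ h0]
      linarith
    have hz' : ‖zT ε p' r'‖ < 5 := by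
      rw [OutInjM_norm_zT h0, div_lt_iff₀ h0]
      linarith
    obtain ⟨⟨n, hq⟩, hσ, hζ⟩ := jTb_inj h0 h1 L hz hz' he
    have hz0 : 0 < ‖zT ε p r‖ := by
      rw [OutInjM_norm_zT h0]
      exact div_pos (norm_pos_iff.2 a3) h0
    rw [hζ, div_left_inj' hz0.ne', mul_left_inj' (MZ_pos _).ne'] at hσ
    have hdl := sgm_inj b5 a5 hσ
    have hre : r'.re = r.re := OutInjM_dl_inj h0 (OutInjM_re hr') (OutInjM_re hr) hdl
    obtain ⟨e3, e4⟩ := OutInjM_pol h0 (norm_pos_iff.2 b3) (norm_pos_iff.2 a3) hζ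
    have him : r.im = r'.im := OutInjM_ex e4 (OutInjM_im hr') (OutInjM_im hr)
    have hrr : r' = r := Complex.ext hre him.symm
    refine ⟨?_, hrr⟩
    subst hrr
    unfold qT at hq
    exact OutInjM_arg e3.symm (n := n) (by linarith)
  · exact (TP hp' hA hB he).elim
  · exact (KP hr hB hA he.symm).elim
  · exact (TP hp hB hA he.symm).elim
  · -- P P
    obtain ⟨-, -, -, a4, a5⟩ := hA
    obtain ⟨-, -, -, b4, b5⟩ := hB
    rw [a5, b5] at he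
    obtain ⟨e1, e2⟩ := (G_eq L a4 b4).1 he
    have f1 := OutInjM_fr_eq e1
    have f2 := OutInjM_fr_eq e2
    rw [hp, hp'] at f1
    rw [hr, hr'] at f2
    exact ⟨f1, f2⟩

end Pool.Agent.TS
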