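import Pool.Agent.TS.InnM
import Pool.Agent.TS.FneM
import Pool.Agent.TS.OutInjM
import Pool.Agent.TS.LocInM
import Pool.Agent.TS.LocKOutM
import Pool.Agent.TS.LocTOutM

/-!
# TS/GBM: the new coordinate map
`GB_loc`: by `GB_add` we may assume `p`, `r` reduced.  `‖r‖ < 3 ε`: if `|p.re| < 1/2` and not `Far 4 (bK)`: `GB_ld_K`;
otherwise `GB_ld_Kout`.  `‖r‖ ≥ 3 ε`, `‖p‖ < 3 ε`: if `|r.re| < 1/2` and not `Far 4 (bT)`: `GB_ld_T`; otherwise
`GB_ld_Tout` (`p ≠ 0`: `RegB` if `r.re = -1/2`; if `p = 0` and `|r.re| < 1/2` then `nT = 0`, not far by `OmC_far`).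
Otherwise `GB_ld_G`.
`GB_inj`: reduce; inner/inner: `bB_inj` after `hF.inj` (`far_mono`); outer/outer: `out_inj`; mixed: `F_ne_G`, `out_G`.
(Translating back: `fr p' = fr p` gives `p' - p ∈ GI`.)
-/

open scoped Manifold ContDiff Topology
open Complex (I)
open Set Filter

namespace Pool.Agent.TS
open Pool.Agent.CSG

variable {X : Type*} [TopologicalSpace X] [ChartedSpace E4 X] {ε ρ : ℝ} {k e : ℤ}

theorem GBM_RegB_fr {p r : ℂ} (h : RegB ρ p r) : RegB ρ (fr p) (fr r) := by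
  rw [RegB_iff] at h ⊢
  exact Reg_fr.2 h

theorem GBM_translate (c x : ℂ × ℂ) :
    IsLocalDiffeomorphAt 𝓘(ℝ, ℂ × ℂ) 𝓘(ℝ, ℂ × ℂ) ∞ (fun a : ℂ × ℂ => a + c) x := by
  have h := ld_of_perm (f := (Equiv.addRight c : ℂ × ℂ ≃ ℂ × ℂ))
    (contDiff_id.add contDiff_const) (by
      have : ContDiff ℝ ∞ fun a : ℂ × ℂ => a + -c := contDiff_id.add contDiff_const
      exact this) x
  exact h

theorem GBM_loc_red (h0 : 0 < ε) (h1 : ε ≤ 1 / 1000) (h2 : 5 * ε < ρ) (h3 : ρ ≤ 1 / 8)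
    {L : LS ε ρ k e X} {F : ℂ × ℂ → X} (hF : IsF L F) {p r : ℂ} (hp : fr p = p) (hr : fr r = r)
    (h : RegB ρ p r) :
    IsLocalDiffeomorphAt 𝓘(ℝ, ℂ × ℂ) (𝓡 4) ∞ (GB L F) (p, r) := by
  obtain ⟨hW, hrG, hC⟩ := h
  have hr0 : r ≠ 0 := by
    rintro rfl
    exact hrG GI_zero
  have hpre := OutInjM_re hp
  have hrre := OutInjM_re hr
  rcases lt_or_ge ‖r‖ (3 * ε) with hr3 | hr3
  · by_cases hA : |p.re| < 1 / 2 ∧ ¬ Far 4 (bK ε k p r)
    · exact GB_ld_K h0 h1 h2 h3 hF hr0 hr3 hA.1 hA.2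
    · refine GB_ld_Kout h0 h1 h2 h3 L F hr0 hr3 hpre.1 hpre.2 ?_
      rcases eq_or_lt_of_le hpre.1 with h4 | h4
      · exact Or.inl h4.symm
      · right
        by_contra hc
        exact hA ⟨abs_lt.2 ⟨h4, hpre.2⟩, hc⟩
  · have hr3' : 3 * ε ≤ ‖fr r‖ := by rwa [hr]
    rcases lt_or_ge ‖p‖ (3 * ε) with hp3 | hp3
    · by_cases hA : |r.re| < 1 / 2 ∧ ¬ Far 4 (bT ε e p r)
      · exact GB_ld_T h0 h1 h2 h3 hF (by linarith) hp3 hA.1 hA.2
      · have hor : r.re = -(1 / 2) ∨ (|r.re| < 1 / 2 ∧ Far 4 (bT ε e p r)) := by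
          rcases eq_or_lt_of_le hrre.1 with h4 | h4
          · exact Or.inl h4.symm
          · right
            refine ⟨abs_lt.2 ⟨h4, hrre.2⟩, ?_⟩
            by_contra hc
            exact hA ⟨abs_lt.2 ⟨h4, hrre.2⟩, hc⟩
        have hp0 : p ≠ 0 := by
          rintro rfl
          rcases hor with h4 | ⟨h4, h5⟩
          · exact hC ⟨GI_zero, -1, by rw [h4]; norm_num⟩
          · have hE := E2_T h0 h1 h4 (c := 3) (by norm_num) (by norm_num) hr3'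
            have hn : nT ε e 0 r = 0 := by simp [nT]
            unfold bT at h5
            rw [far_sw, hn, OmC_far h0 h1 (by norm_num) 0 (by linarith)] at h5
            rw [norm_zero] at h5
            linarith [h5.1]
        refine GB_ld_Tout h0 h1 h2 h3 L F hp0 hp3 hr3' hrre.1 hrre.2 ?_
        rcases hor with h4 | ⟨h4, h5⟩
        · exact Or.inl h4
        · exact Or.inr h5
    · exact GB_ld_G h0 h1 h2 h3 hF hW (by rw [hp]; linarith) (by linarith)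

theorem GB_loc (h0 : 0 < ε) (h1 : ε ≤ 1 / 1000) (h2 : 5 * ε < ρ) (h3 : ρ ≤ 1 / 8)
    {L : LS ε ρ k e X} {F : ℂ × ℂ → X} (hF : IsF L F) {p r : ℂ} (h : RegB ρ p r) :
    IsLocalDiffeomorphAt 𝓘(ℝ, ℂ × ℂ) (𝓡 4) ∞ (GB L F) (p, r) := by
  have hA := GBM_loc_red h0 h1 h2 h3 hF (fr_fr p) (fr_fr r) (GBM_RegB_fr h)
  have e1 : (GB L F) = (GB L F) ∘ (fun a : ℂ × ℂ => a + (-rnd p, -rnd r)) := by
    funext a
    obtain ⟨x, y⟩ := a
    simp only [Function.comp_apply, Prod.mk_add_mk]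
    exact (GB_add L F (GI_neg (rnd_mem p)) (GI_neg (rnd_mem r))).symm
  have e2 : ((p, r) : ℂ × ℂ) + (-rnd p, -rnd r) = (fr p, fr r) := by
    simp only [Prod.mk_add_mk]
    rfl
  rw [e1]
  refine IsLocalDiffeomorphAt.comp (hf := GBM_translate (-rnd p, -rnd r) (p, r)) (hg := ?_) ..
  rw [e2]
  exact hA

theorem GBM_inj_red (h0 : 0 < ε) (h1 : ε ≤ 1 / 1000) (h2 : 5 * ε < ρ) (h3 : ρ ≤ 1 / 8)
    {L : LS ε ρ k e X} {F : ℂ × ℂ → X} (hF : IsF L F) {p r p' r' : ℂ} (hp : fr p = p)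
    (hr : fr r = r) (hp' : fr p' = p') (hr' : fr r' = r') (h : RegB ρ p r)
    (h' : RegB ρ p' r') (he : GB₀ L F p r = GB₀ L F p' r') : p' = p ∧ r' = r := by
  have hne : ∀ {p r : ℂ}, RegB ρ p r → r ≠ 0 := by
    rintro p r hR rfl
    exact hR.2.1 GI_zero
  by_cases hin : InB ε p r <;> by_cases hin' : InB ε p' r'
  · rw [GB₀_in hin, GB₀_in hin'] at he
    have hn : ∀ {p r : ℂ}, fr p = p → fr r = r → InB ε p r → ¬ Far 4 (bB ε k e p r) :=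
      fun a b c d => bB_notFar h0 h1 a b c (far_mono (by norm_num) (by norm_num) d)
    have hb := hF.inj _ _ (hn hp hr hin) (hn hp' hr' hin') he
    exact bB_inj h0 h1 hp hr hp' hr' hin hin' (hne h) (hne h') hb
  · obtain ⟨P, R, c1, c2, c3, -⟩ := out_G h0 h1 h2 h3 L F hp' hr' h' hin'
    rw [GB₀_in hin, c3] at he
    exact (F_ne_G h0 h1 h2 h3 hF (bB_notFar h0 h1 hp hr hin) c1 c2 he).elim
  · obtain ⟨P, R, c1, c2, c3, -⟩ := out_G h0 h1 h2 h3 L F hp hr h hin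
    rw [GB₀_in hin', c3] at he
    exact (F_ne_G h0 h1 h2 h3 hF (bB_notFar h0 h1 hp' hr' hin') c1 c2 he.symm).elim
  · exact out_inj h0 h1 h2 h3 L F hp hr hp' hr' h h' hin hin' he

theorem GBM_sub_mem {p p' : ℂ} (h : fr p' = fr p) : p' - p ∈ GI := by
  have e1 : p' - p = (p' - fr p') - (p - fr p) := by rw [h]; ring
  rw [e1]
  exact GI_sub (sub_fr_mem p') (sub_fr_mem p)

theorem GB_inj (h0 : 0 < ε) (h1 : ε ≤ 1 / 1000) (h2 : 5 * ε < ρ) (h3 : ρ ≤ 1 / 8)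
    {L : LS ε ρ k e X} {F : ℂ × ℂ → X} (hF : IsF L F) {p r p' r' : ℂ} (h : RegB ρ p r)
    (h' : RegB ρ p' r') (he : GB L F (p, r) = GB L F (p', r')) : p' - p ∈ GI ∧ r' - r ∈ GI := by
  obtain ⟨e1, e2⟩ := GBM_inj_red h0 h1 h2 h3 hF (fr_fr p) (fr_fr r) (fr_fr p') (fr_fr r')
    (GBM_RegB_fr h) (GBM_RegB_fr h') he
  exact ⟨GBM_sub_mem e1, GBM_sub_mem e2⟩

end Pool.Agent.TS
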