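import Pool.Agent.TS.ConsKM
import Pool.Agent.TS.ConsTM

/-!
# TS/CornM: the corner
`bK_eq_bT`: `‖p‖ < 3 ε`, `2 ε ≤ ‖r‖ ≤ 497/100 ε`: all of `p.re, p.im, r.re, r.im` are tiny: `nsi ε p.re = p.re`,
`nsi ε r.re = r.re` (`ns_small`, `nsi_ns`), `thc = 0`, `ww = 1`; with `s = ‖r‖/ε ≥ 2`: `X2 ε (p.re, s ex p.im) = s • E2 ε p
= s • st (p/ε)` (`X2_polar`, `E2_corner`), `qK = arg r / 2π` (`twc (s ex t) = thc t - t = -t`), `E2 ε r = st (r/ε) =
st (s ex qK)`, `nT = p/ε`; `OmT_corner`.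
`GB_T'`: for `2 ε < ‖r‖ < 3 ε`, `‖p‖ < 3 ε` use `GB_K` and `bK_eq_bT`; otherwise `GB_T`.
`GB_G0`: reduce `p`, `r` to `fr p`, `fr r` (`GB_add`, `G_fr`).  If `‖r‖ < 3 ε`: inner: `p.re ≠ -1/2`, `nr X2 < 3`:
`ConsK'`; outer: `GB_eq_G`.  If `‖r‖ ≥ 3 ε`, `‖p‖ < 3 ε`: inner: `ConsT'`; outer: `GB_eq_G`.  Else: `GB_eq_G`.
-/

open scoped Manifold ContDiff Topology
open Complex (I)
open Set Filter

namespace Pool.Agent.TS
open Pool.Agent.CSG

variable {X : Type*} [TopologicalSpace X] [ChartedSpace E4 X] {ε ρ : ℝ} {k e : ℤ}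

theorem CornM_nsi (h0 : 0 < ε) (h1 : ε ≤ 1 / 1000) {x : ℝ} (h : |x| ≤ 1 / 5) : nsi ε x = x := by
  have h2 := nsi_ns h0 h1 x
  rwa [ns_small h] at h2

theorem CornM_ex_zero : ex 0 = 1 := by
  have h := ex_int 0
  simpa using h

theorem bK_eq_bT (h0 : 0 < ε) (h1 : ε ≤ 1 / 1000) (k e : ℤ) {p r : ℂ} (hp : ‖p‖ < 3 * ε)
    (hr : 2 * ε ≤ ‖r‖) (hr' : ‖r‖ ≤ 497 / 100 * ε) : bK ε k p r = bT ε e p r := by
  have hpre := Complex.abs_re_le_norm p
  have hpim := Complex.abs_im_le_norm p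
  have hrre := Complex.abs_re_le_norm r
  have hrim := Complex.abs_im_le_norm r
  have e1 : nsi ε p.re = p.re := CornM_nsi h0 h1 (by linarith)
  have e2 : nsi ε r.re = r.re := CornM_nsi h0 h1 (by linarith)
  have t1 : thc p.im = 0 := by
    have := abs_le.1 hpim
    exact thc_zero (by linarith) (by linarith)
  have t2 : thc r.im = 0 := by
    have := abs_le.1 hrim
    exact thc_zero (by linarith) (by linarith)
  have w1 : ww p.re = 1 := ww_small (by linarith)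
  have w2 : ww r.re = 1 := ww_small (by linarith)
  have hs : 2 ≤ ‖r‖ / ε := by rw [le_div_iff₀ h0]; exact hr
  have hεc : (ε : ℂ) ≠ 0 := by exact_mod_cast h0.ne'
  have q1 : qK ε k p r = Complex.arg r / (2 * Real.pi) := by
    unfold qK zK
    rw [twc_big (by linarith), t1]
    ring
  have hpp : (p.re : ℂ) + p.im * I = p := Complex.re_add_im p
  have hrr : (r.re : ℂ) + r.im * I = r := Complex.re_add_im r
  have x1 : X2 ε (p.re, ((‖r‖ / ε : ℝ) : ℂ) * ex p.im) = (‖r‖ / ε) • st (p / ε) := by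
    have h := (X2_nr' h0 h1 (y := p.re) (u := p.im) (by linarith : 1 ≤ ‖r‖ / ε)).2
    rw [w1, div_one, hpp, E2_corner h0 h1 (by linarith)] at h
    exact h
  have n1 : nT ε e p r = p / ε := by
    unfold nT
    rw [e2, w2, t2, mul_zero, neg_zero, CornM_ex_zero, mul_one, mul_one]
  have x2 : E2 ε r = st (((‖r‖ / ε : ℝ) : ℂ) * ex (Complex.arg r / (2 * Real.pi))) := by
    rw [E2_corner h0 h1 hr']
    congr 1
    have h := ex_arg r
    have h' : ((‖r‖ / ε : ℝ) : ℂ) * ex (Complex.arg r / (2 * Real.pi)) =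
        ((‖r‖ : ℂ) * ex (Complex.arg r / (2 * Real.pi))) / ε := by
      push_cast
      field_simp
    rw [h', h]
  unfold bK bT
  rw [e1, e2, hrr, n1, q1]
  unfold zK
  rw [OmT_corner hs x1 x2]

theorem CornM_red {r : ℂ} (hr : |r.re| < 1 / 2) : r = fr r + (round r.im : ℤ) * I := by
  have h := abs_lt.1 hr
  have h1 : round r.re = 0 := rd_self h.1.le h.2
  have h2 := sub_fr r
  have h3 : r = fr r + rnd r := by rw [← h2]; ring
  conv_lhs => rw [h3]
  rw [rnd, h1]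
  push_cast
  ring

theorem GB_T' (h0 : 0 < ε) (h1 : ε ≤ 1 / 1000) (h2 : 5 * ε < ρ) (h3 : ρ ≤ 1 / 8)
    {L : LS ε ρ k e X} {F : ℂ × ℂ → X} (hF : IsF L F) {p r : ℂ} (hr' : 2 * ε < ‖fr r‖)
    (hp : ‖p‖ < 3 * ε) (hr : |r.re| < 1 / 2) (hb : ¬ Far 4 (bT ε e p r)) :
    GB L F (p, r) = F (bT ε e p r) := by
  rcases lt_or_ge ‖fr r‖ (3 * ε) with h | h
  · have hred := CornM_red hr
    have hbT : bT ε e p r = bT ε e p (fr r) := by
      conv_lhs => rw [hred]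
      rw [bT_per]
    have hKT := bK_eq_bT h0 h1 k e hp hr'.le (by linarith : ‖fr r‖ ≤ 497 / 100 * ε)
    have hG : GB L F (p, r) = GB L F (p, fr r) := by
      have h4 := GB_add L F (p := p) (r := fr r) GI_zero (sub_fr_mem r)
      rw [add_zero] at h4
      rw [← h4]
      congr 2
      ring
    have hne : fr r ≠ 0 := by
      intro h5
      rw [h5, norm_zero] at hr'
      linarith
    have hpre : |p.re| < 1 / 2 := by
      have := Complex.abs_re_le_norm p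
      linarith
    rw [hbT] at hb ⊢
    rw [← hKT] at hb ⊢
    rw [hG]
    exact GB_K h0 h1 h2 h3 hF hne h hpre hb
  · exact GB_T h0 h1 h2 h3 hF h hp hr hb

theorem GB_G0 (h0 : 0 < ε) (h1 : ε ≤ 1 / 1000) (h2 : 5 * ε < ρ) (h3 : ρ ≤ 1 / 8)
    {L : LS ε ρ k e X} {F : ℂ × ℂ → X} (hF : IsF L F) {p r : ℂ} (hW : (p, r) ∈ Wd ρ)
    (hp : 2 * ε < ‖fr p‖) (hr : 2 * ε < ‖fr r‖) : GB L F (p, r) = L.G (p, r) := by
  have hGB : GB L F (p, r) = GB L F (fr p, fr r) := by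
    have h4 := GB_add L F (p := fr p) (r := fr r) (sub_fr_mem p) (sub_fr_mem r)
    rw [← h4]
    congr 2 <;> ring
  have hWf : (fr p, fr r) ∈ Wd ρ := by
    have : ‖fr p‖ < ρ ∨ ‖fr r‖ < ρ := hW
    change ‖fr (fr p)‖ < ρ ∨ ‖fr (fr r)‖ < ρ
    rw [fr_fr, fr_fr]
    exact this
  have hLG : L.G (p, r) = L.G (fr p, fr r) := by
    have h4 := L.G_per (fr p) (fr r) _ _ hWf (sub_fr_mem p) (sub_fr_mem r)
    rw [← h4]
    congr 2 <;> ring
  rcases lt_or_ge ‖fr r‖ (3 * ε) with h | h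
  · by_cases hin : InK ε (fr p) (fr r)
    · have h5 := GB_eq_K h0 h2 h3 L F (p := fr p) h hin.1
      rw [if_pos hin] at h5
      rw [hGB, h5, hLG]
      have h6 := hin.2
      exact ConsK' h0 h1 h2 h3 hF hr h hin.1 (by linarith) (by rw [fr_fr]; exact hp)
    · exact GB_eq_G h0 h2 h3 L F hW (fun _ => ⟨by linarith, hin⟩) (fun h7 => by linarith)
  · rcases lt_or_ge ‖fr p‖ (3 * ε) with h' | h'
    · by_cases hin : InT ε (fr p) (fr r)
      · have h5 := GB_eq_T h0 h2 h3 L F (p := fr p) (r := fr r) (by rw [fr_fr]; exact h) h' hin.1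
        rw [if_pos hin] at h5
        rw [hGB, h5, hLG]
        have h6 := hin.2
        have h7 : 0 < ε * ww (nsi ε (fr r).re) := mul_pos h0 (ww_pos _)
        exact ConsT' h0 h1 h2 h3 hF h' hp hin.1 (by rw [fr_fr]; exact h) (by nlinarith)
      · exact GB_eq_G h0 h2 h3 L F hW (fun h7 => by linarith) (fun _ _ => ⟨by linarith, hin⟩)
    · exact GB_eq_G h0 h2 h3 L F hW (fun h7 => by linarith) (fun _ h8 => by linarith)

end Pool.Agent.TS
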