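import Pool.Agent.TS.PerM
import Pool.Agent.TS.ConsTM
import Pool.Agent.TS.BrM
import Pool.Agent.TS.OutDef
import Pool.Agent.TS.CornM

/-!
# TS/LocKM: the new surgery chart is a local diffeomorphism at its core
`jKof ε e G' (cKB L F) (Y, ζ)` with `G' a = GB L F (a.2, a.1)`: for `ζ = s ex u ≠ 0` (`u = arg ζ/2π`) it is
`GB L F (ε s ex (e thc u) yc Y, (1/2 + ε s Y₀) + i u)`.
CASE A: `‖yc Y‖ < 4 |Y₀|`.  Hemisphere chart `Y = hS sg ν` (`eq_hS`), `‖ν‖ < 4`; it is enough that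
`(ν, ζ) ↦ jKof (hS sg ν, ζ)` is a local diffeomorphism (`hS_ld`, `prod_ld_S2`, `ld_of_comp_left`); near `(ν, 0)` it equals
`F (sw (OmP ε sg (ν, ζ)))`: for `0 < s < 1/8`, `n = √(1 + ‖ν‖^2)`: `p = ε s ex (e thc u) ν/n`, `r.re = 1/2 - sg ε s/n`
(reduce by `1` if `sg = -1`), `ŷ = nsi ε r.re` satisfies `sech (2 π ŷ) = s/n`, `sg ŷ > 0` (`ns_big`, `nsi_ns`), so
`EE (ŷ + i u) = Ep sg (ζ/n)` (`EE_eq_Ep`), `nT = ν`, `bT = sw (OmC (ŷ + i u, ν)) = sw (OmP sg (ν, ζ))` (`OmC_eq_OmP`), not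
far (`OmP_far`), `GB_T`.  For `ζ = 0`: by definition if `‖ν‖ < 3`; if `3 ≤ x := ‖ν‖ < 4`, `ν = x ex q`: with `y` such that
`sinh (2 π y) = 20 x sg`: `X2 (y, 0) = x • DD ε (Ep sg 0)` (`X2_pole`), `OmT_swP`, `hF.T`, `fT_jTb`:
`F (sw (OmP sg (ν, 0))) = jTb L (q, sg/(20 x), 0)`, and `TrSi (-Y₀/‖yc Y‖, 0) = (sg/(20 x), 0)`.
`hF.loc`, `OmP_ld`, `sw_ld`.
CASE B: `‖yc Y‖ ≥ 4 |Y₀|`.  Band chart `Y = bS (q, σ₁)` (`eq_bS`), `|σ₁| ≤ 1/4`; near `(q, σ₁, 0)` the function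
`(q, σ₁, ζ) ↦ jKof (bS (q, σ₁), ζ)` equals `jTb L (q, TrSi (σ₁, ζ))`: for `0 < s < 1/8`: `‖p‖ = ε s/√(1+σ₁^2) < ε/8`,
`Y₀ = -σ₁/√(1+σ₁^2)`, not `InT` (`‖nT‖ = 1/|σ₁| > 3` or `σ₁ = 0`), `GB_eq_oT` (`c = 1/2`): `zT = ζ/√(1+σ₁^2)`, `qT = q`
modulo `1`, `sgm (-s Y₀) MZ/‖zT‖ = σ₁ MZ/√(1 - σ₁^2 ‖zT‖^2)`.  `jTb_ld`, `TrSi_ld`, `bS_ld`, `jTb_per`.
-/

open scoped Manifold ContDiff Topology
open Complex (I)
open Set Filter

namespace Pool.Agent.TS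
open Pool.Agent.CSG

section
variable {E F E' F' : Type*} [NormedAddCommGroup E] [NormedSpace ℝ E] [NormedAddCommGroup F]
  [NormedSpace ℝ F] [NormedAddCommGroup E'] [NormedSpace ℝ E'] [NormedAddCommGroup F']
  [NormedSpace ℝ F'] {H₁ H₂ H₁' H₂' : Type*} [TopologicalSpace H₁] [TopologicalSpace H₂]
  [TopologicalSpace H₁'] [TopologicalSpace H₂']
  {I₁ : ModelWithCorners ℝ E H₁} {J₁ : ModelWithCorners ℝ F H₂}
  {I₂ : ModelWithCorners ℝ E' H₁'} {J₂ : ModelWithCorners ℝ F' H₂'}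
  {M N M' N' : Type*} [TopologicalSpace M] [TopologicalSpace N] [TopologicalSpace M']
  [TopologicalSpace N'] [ChartedSpace H₁ M] [ChartedSpace H₂ N] [ChartedSpace H₁' M']
  [ChartedSpace H₂' N']

theorem LocKM_prod {f : M → N} {g : M' → N'} {x : M} {y : M'}
    (hf : IsLocalDiffeomorphAt I₁ J₁ ∞ f x) (hg : IsLocalDiffeomorphAt I₂ J₂ ∞ g y) :
    IsLocalDiffeomorphAt (I₁.prod I₂) (J₁.prod J₂) ∞ (Prod.map f g) (x, y) := by
  obtain ⟨Φ, hx, hΦ⟩ := hf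
  obtain ⟨Ψ, hy, hΨ⟩ := hg
  refine ⟨{ toPartialEquiv := Φ.toPartialEquiv.prod Ψ.toPartialEquiv
            open_source := Φ.open_source.prod Ψ.open_source
            open_target := Φ.open_target.prod Ψ.open_target
            contMDiffOn_toFun := Φ.contMDiffOn_toFun.prodMap Ψ.contMDiffOn_toFun
            contMDiffOn_invFun := Φ.contMDiffOn_invFun.prodMap Ψ.contMDiffOn_invFun },
    ⟨hx, hy⟩, ?_⟩
  rintro ⟨a, b⟩ ⟨ha, hb⟩
  exact Prod.ext (hΦ ha) (hΨ hb)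

theorem LocKM_prodV {f : E → F} {g : E' → F'} {x : E} {y : E'}
    (hf : IsLocalDiffeomorphAt 𝓘(ℝ, E) 𝓘(ℝ, F) ∞ f x)
    (hg : IsLocalDiffeomorphAt 𝓘(ℝ, E') 𝓘(ℝ, F') ∞ g y) :
    IsLocalDiffeomorphAt 𝓘(ℝ, E × E') 𝓘(ℝ, F × F') ∞ (Prod.map f g) (x, y) := by
  rw [modelWithCornersSelf_prod, modelWithCornersSelf_prod, ← chartedSpaceSelf_prod,
    ← chartedSpaceSelf_prod]
  exact LocKM_prod hf hg

end

variable {X : Type*} [TopologicalSpace X] [ChartedSpace E4 X] {ε ρ : ℝ} {k e : ℤ}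

theorem LocKM_sg {sg : ℝ} (hs : sg ^ 2 = 1) : sg = 1 ∨ sg = -1 := by
  have h : (sg - 1) * (sg + 1) = 0 := by
    have : (sg - 1) * (sg + 1) = sg ^ 2 - 1 := by ring
    rw [this, hs, sub_self]
  rcases mul_eq_zero.1 h with h | h
  · left; linarith
  · right; linarith

theorem LocKM_sech : 1 / 8 < sech (2 * Real.pi * (3 / 10)) := by
  have hpi : Real.pi < 3.15 := Real.pi_lt_d2
  have hpi0 := Real.pi_pos
  have hx : 2 * Real.pi * (3 / 10) < 2 := by linarith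
  have h1 : Real.exp (2 * Real.pi * (3 / 10)) < 8 := by
    have a1 : Real.exp (2 * Real.pi * (3 / 10)) < Real.exp 2 := Real.exp_lt_exp.2 hx
    have a2 : Real.exp 2 = Real.exp 1 * Real.exp 1 := by
      rw [← Real.exp_add]; norm_num
    have a3 := Real.exp_one_lt_d9
    have a4 := Real.exp_pos 1
    nlinarith
  have h2 : Real.exp (-(2 * Real.pi * (3 / 10))) ≤ 1 := Real.exp_le_one_iff.2 (by linarith)
  have h3 : Real.cosh (2 * Real.pi * (3 / 10)) < 8 := by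
    rw [Real.cosh_eq]; linarith
  have h4 := Real.cosh_pos (2 * Real.pi * (3 / 10))
  rw [sech, one_div]
  exact inv_strictAnti₀ h4 h3

theorem LocKM_nsi (h0 : 0 < ε) (h1 : ε ≤ 1 / 1000) {t : ℝ} (ht : 0 < t) (ht' : t ≤ 1 / 8) {sg : ℝ}
    (hs : sg ^ 2 = 1) {y : ℝ} (hy : y = sg * (1 / 2 - ε * t)) :
    |y| < 1 / 2 ∧ sech (2 * Real.pi * nsi ε y) = t ∧ 3 / 10 ≤ sg * nsi ε y := by
  have hεt : 0 < ε * t := mul_pos h0 ht
  have hεt' : ε * t < 1 / 4 := by nlinarith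
  have hse := LocKM_sech
  rcases LocKM_sg hs with rfl | rfl
  · have hy' : |y| < 1 / 2 := by
      rw [hy, one_mul, abs_lt]; constructor <;> linarith
    have h2 : ns ε (nsi ε y) = 1 / 2 - ε * t := by rw [ns_nsi h0 h1 hy', hy, one_mul]
    have h3 : ns ε (3 / 10) < ns ε (nsi ε y) := by
      rw [ns_big le_rfl, h2]; nlinarith
    have h4 := (ns_strictMono h0 h1).lt_iff_lt.1 h3
    rw [ns_big h4.le] at h2
    refine ⟨hy', ?_, by linarith⟩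
    have : ε * sech (2 * Real.pi * nsi ε y) = ε * t := by linarith
    exact mul_left_cancel₀ h0.ne' this
  · have hy' : |y| < 1 / 2 := by
      rw [hy, abs_lt]; constructor <;> linarith
    have h2 : ns ε (nsi ε y) = -(1 / 2) + ε * t := by rw [ns_nsi h0 h1 hy', hy]; ring
    have h3 : ns ε (nsi ε y) < ns ε (-(3 / 10)) := by
      rw [ns_neg, ns_big le_rfl, h2]; nlinarith
    have h4 := (ns_strictMono h0 h1).lt_iff_lt.1 h3
    rw [ns_big_neg h4.le] at h2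
    refine ⟨hy', ?_, by linarith⟩
    have : ε * sech (2 * Real.pi * nsi ε y) = ε * t := by linarith
    exact mul_left_cancel₀ h0.ne' this

theorem LocKM_ww (h0 : 0 < ε) (h1 : ε ≤ 1 / 1000) {t : ℝ} (ht : 0 < t) (ht' : t ≤ 1 / 8) {sg : ℝ}
    (hs : sg ^ 2 = 1) {y : ℝ} (hy : y = sg * (1 / 2 - ε * t)) : ww (nsi ε y) = t := by
  obtain ⟨_, a2, a3⟩ := LocKM_nsi h0 h1 ht ht' hs hy
  rw [ww_big, a2]
  have h5 : |sg * nsi ε y| = |nsi ε y| := by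
    rw [abs_mul]
    rcases LocKM_sg hs with rfl | rfl <;> simp
  rw [← h5]
  have := le_abs_self (sg * nsi ε y)
  linarith

/-- reduction of `1/2 - sg δ` modulo `1` -/
theorem LocKM_red {sg : ℝ} (hs : sg ^ 2 = 1) (δ : ℝ) :
    ∃ m : ℤ, 1 / 2 - sg * δ - m = sg * (1 / 2 - δ) := by
  rcases LocKM_sg hs with rfl | rfl
  · exact ⟨0, by push_cast; ring⟩
  · exact ⟨1, by push_cast; ring⟩

theorem LocKM_exneg (x : ℝ) : ex x * ex (-x) = 1 := by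
  rw [← ex_add, add_neg_cancel]
  have := ex_int 0
  rwa [Int.cast_zero] at this

theorem LocKM_pr (a u : ℝ) (m : ℤ) : (((a : ℝ) : ℂ) + (u : ℂ) * I - m).re = a - m ∧
    (((a : ℝ) : ℂ) + (u : ℂ) * I - m).im = u := by
  constructor <;> simp

theorem LocKM_A1 (h0 : 0 < ε) (h1 : ε ≤ 1 / 1000) (h2 : 5 * ε < ρ) (h3 : ρ ≤ 1 / 8)
    {L : LS ε ρ k e X} {F : ℂ × ℂ → X} (hF : IsF L F) {sg : ℝ} (hs : sg ^ 2 = 1) {ν ζ : ℂ}
    (hν : ‖ν‖ < 4) (hζ : ζ ≠ 0) (hζ' : ‖ζ‖ < 1 / 8) {u : ℝ} (hu : (‖ζ‖ : ℂ) * ex u = ζ) :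
    GB L F ((ε : ℂ) * ‖ζ‖ * ex (e * thc u) * yc (hS sg ν),
      ((1 / 2 + ε * ‖ζ‖ * ((hS sg ν : S2) : E3) 0 : ℝ) : ℂ) + (u : ℂ) * I) =
      F (sw (OmP ε sg (ν, ζ))) := by
  obtain ⟨n, hn⟩ : ∃ n : ℝ, n = √(1 + ‖ν‖ ^ 2) := ⟨_, rfl⟩
  have hn1 : 1 ≤ n := by
    rw [hn, Real.one_le_sqrt]
    nlinarith [sq_nonneg ‖ν‖]
  have hn0 : 0 < n := by linarith
  have hnC : (n : ℂ) ≠ 0 := by exact_mod_cast hn0.ne'
  have hνn : ‖ν‖ ≤ n := by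
    rw [hn]
    apply Real.le_sqrt_of_sq_le
    linarith
  have hs0 := norm_pos_iff.2 hζ
  obtain ⟨t, ht⟩ : ∃ t : ℝ, t = ‖ζ‖ / n := ⟨_, rfl⟩
  have ht0 : 0 < t := by rw [ht]; positivity
  have ht8 : t ≤ 1 / 8 := by
    rw [ht, div_le_iff₀ hn0]; nlinarith
  obtain ⟨m, hm⟩ := LocKM_red hs (ε * t)
  rw [hS_zero hs, hS_yc hs, ← hn]
  obtain ⟨p, hp⟩ : ∃ p : ℂ, p = (ε : ℂ) * ‖ζ‖ * ex (e * thc u) * (ν / n) := ⟨_, rfl⟩
  obtain ⟨r, hr⟩ : ∃ r : ℂ, r = ((1 / 2 + ε * ‖ζ‖ * (-sg / n) : ℝ) : ℂ) + (u : ℂ) * I - m := ⟨_, rfl⟩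
  have hrre : r.re = sg * (1 / 2 - ε * t) := by
    rw [← hm, hr, (LocKM_pr _ _ _).1, ht]
    field_simp
    ring
  have hrim : r.im = u := by rw [hr, (LocKM_pr _ _ _).2]
  obtain ⟨b1, b2, b3⟩ := LocKM_nsi h0 h1 ht0 ht8 hs hrre
  have b4 := LocKM_ww h0 h1 ht0 ht8 hs hrre
  have hrm : ((1 / 2 + ε * ‖ζ‖ * (-sg / n) : ℝ) : ℂ) + (u : ℂ) * I = r + m := by rw [hr]; ring
  have hadd := GB_add L F (p := p) (r := r) (a := 0) (b := (m : ℂ)) GI_zero ⟨m, 0, by simp⟩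
  rw [add_zero] at hadd
  rw [← hp, hrm, hadd]
  have hnT : nT ε e p r = ν := by
    have c1 : (ε : ℂ) ≠ 0 := by exact_mod_cast h0.ne'
    have c2 : (‖ζ‖ : ℂ) ≠ 0 := by exact_mod_cast hs0.ne'
    have c3 := LocKM_exneg (e * thc u)
    rw [nT, b4, hrim, hp, ht]
    push_cast
    have c4 : (ε : ℂ) * ‖ζ‖ * ex (e * thc u) * (ν / n) * ex (-(e * thc u)) =
        (ε : ℂ) * ‖ζ‖ * (ν / n) * (ex (e * thc u) * ex (-(e * thc u))) := by ring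
    rw [c4, c3]
    field_simp
  have hEE : EE ((nsi ε r.re : ℂ) + u * I) = Ep sg (ζ / (√(1 + ‖ν‖ ^ 2) : ℂ)) := by
    have c1 : ((nsi ε r.re : ℂ) + u * I).re = nsi ε r.re := by simp
    have c2 : ((nsi ε r.re : ℂ) + u * I).im = u := by simp
    rw [EE_eq_Ep hs (by rw [c1]; linarith), c1, c2, b2, ← hn, ht]
    congr 1
    rw [← hu]
    have c3 : ‖(‖ζ‖ : ℂ) * ex u‖ = ‖ζ‖ := by rw [hu]
    rw [c3]
    push_cast
    field_simp
  have hζn : ‖ζ / (√(1 + ‖ν‖ ^ 2) : ℂ)‖ < 1 / 4 := by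
    rw [← hn, norm_div, Complex.norm_real, Real.norm_of_nonneg hn0.le, ← ht]
    linarith
  have hE2 : (E2 ε ((nsi ε r.re : ℂ) + u * I)).1 < 0 := by
    have c1 := VV_Ep hs hζn one_pos
    rw [one_smul] at c1
    rw [E2, hEE, c1]
    have := DD_Ep_neg h0 h1 hs hζn
    linarith
  have hbT : bT ε e p r = sw (OmP ε sg (ν, ζ)) := by
    rw [bT, hnT, hrim]
    congr 1
    exact (OmC_eq_OmP h0 h1 hs hE2 (by linarith)).2 ⟨rfl, hEE⟩
  rw [GB_T h0 h1 h2 h3 hF ?_ ?_ b1 ?_, hbT]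
  · have c1 := Complex.abs_re_le_norm (fr r)
    have c2 : (fr r).re = r.re := by
      have := abs_lt.1 b1
      rw [fr_re, rd_self this.1.le this.2]
      simp
    have c3 : |r.re| = 1 / 2 - ε * t := by
      have hpos : 0 < 1 / 2 - ε * t := by nlinarith
      rw [hrre, abs_mul, abs_of_pos hpos]
      rcases LocKM_sg hs with rfl | rfl <;> simp
    rw [c2, c3] at c1
    nlinarith
  · have c1 : ‖p‖ = ε * ‖ζ‖ * (‖ν‖ / n) := by
      rw [hp, norm_mul, norm_mul, norm_mul, ex_norm, norm_div, Complex.norm_real, Complex.norm_real,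
        Complex.norm_real, Real.norm_of_nonneg h0.le, Real.norm_of_nonneg hs0.le,
        Real.norm_of_nonneg hn0.le, mul_one]
    have c2 : ‖ν‖ / n ≤ 1 := by rwa [div_le_one hn0]
    have c3 : 0 < ε * ‖ζ‖ := by positivity
    rw [c1]
    nlinarith
  · rw [hbT, far_sw, OmP_far h0 h1 (by norm_num) le_rfl hs ν (by linarith)]
    exact not_le.2 hν

theorem LocKM_TrSi0 (σ : ℝ) : TrSi (σ, 0) = (σ / 20, 0) := by
  rw [TrSi]
  simp only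
  rw [zero_div, MZ_zero, norm_zero]
  refine Prod.ext ?_ rfl
  simp only
  rw [show (1 : ℝ) - σ ^ 2 * 0 ^ 2 = 1 by ring, Real.sqrt_one]
  ring

theorem LocKM_A0 (h0 : 0 < ε) (h1 : ε ≤ 1 / 1000) {L : LS ε ρ k e X} {F : ℂ × ℂ → X}
    (hF : IsF L F) {sg : ℝ} (hs : sg ^ 2 = 1) {ν : ℂ} (hν : ‖ν‖ < 4) :
    cKB L F (hS sg ν) = F (sw (OmP ε sg (ν, 0))) := by
  obtain ⟨n, hn⟩ : ∃ n : ℝ, n = √(1 + ‖ν‖ ^ 2) := ⟨_, rfl⟩
  have hn1 : 1 ≤ n := by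
    rw [hn, Real.one_le_sqrt]
    nlinarith [sq_nonneg ‖ν‖]
  have hn0 : 0 < n := by linarith
  have hnC : (n : ℂ) ≠ 0 := by exact_mod_cast hn0.ne'
  have hY0 : ((hS sg ν : S2) : E3) 0 = -sg / n := by rw [hS_zero hs, ← hn]
  have hYc : yc (hS sg ν) = ν / n := by rw [hS_yc hs, ← hn]
  have habs : |((hS sg ν : S2) : E3) 0| = 1 / n := by
    rw [hY0, abs_div, abs_neg, abs_of_pos hn0]
    rcases LocKM_sg hs with rfl | rfl <;> simp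
  have hnYc : ‖yc (hS sg ν)‖ = ‖ν‖ / n := by
    rw [hYc, norm_div, Complex.norm_real, Real.norm_of_nonneg hn0.le]
  have hif : (if 0 < ((hS sg ν : S2) : E3) 0 then (-1 : ℝ) else 1) = sg := by
    rw [hY0]
    rcases LocKM_sg hs with rfl | rfl
    · rw [if_neg]
      have : 0 < 1 / n := by positivity
      rw [neg_div]
      linarith
    · rw [if_pos]
      rw [neg_neg]
      positivity
  have hquot : yc (hS sg ν) / ((|((hS sg ν : S2) : E3) 0| : ℝ) : ℂ) = ν := by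
    rw [hYc, habs]
    push_cast
    field_simp
  rw [cKB, hif, hquot]
  by_cases h3 : ‖ν‖ < 3
  · rw [if_pos]
    rw [hnYc, habs, mul_one_div]
    exact div_lt_div_of_pos_right h3 hn0
  · rw [if_neg]
    · have hx := not_lt.1 h3
      obtain ⟨x, hxd⟩ : ∃ x : ℝ, x = ‖ν‖ := ⟨_, rfl⟩
      rw [← hxd] at hx hν hnYc
      have hx0 : 0 < x := by linarith
      obtain ⟨q, hq⟩ : ∃ q : ℝ, q = Complex.arg (yc (hS sg ν)) / (2 * Real.pi) := ⟨_, rfl⟩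
      have hνq : ν = (x : ℂ) * ex q := by
        have c1 := ex_arg (yc (hS sg ν))
        rw [← hq, hnYc, hYc] at c1
        have c2 : ν = (n : ℂ) * (ν / n) := by field_simp
        rw [c2, ← c1]
        push_cast
        field_simp
      have hσ : -((hS sg ν : S2) : E3) 0 / ‖yc (hS sg ν)‖ = sg / x := by
        rw [hY0, hnYc]
        field_simp
      rw [← hq, hσ, LocKM_TrSi0]
      -- the height `y`
      have hpi := Real.pi_pos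
      have hsg : sg ≠ 0 := by
        rintro rfl
        norm_num at hs
      obtain ⟨y, hy⟩ : ∃ y : ℝ, y = Real.arsinh (20 * x * sg) / (2 * Real.pi) := ⟨_, rfl⟩
      have hsinh : Real.sinh (2 * Real.pi * y) = 20 * x * sg := by
        rw [hy, mul_div_cancel₀ _ (by positivity), Real.sinh_arsinh]
      have hsy : 0 < sg * y := by
        have c1 : 0 < Real.sinh (2 * Real.pi * (sg * y)) := by
          rcases LocKM_sg hs with rfl | rfl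
          · rw [one_mul, hsinh]; linarith
          · rw [show 2 * Real.pi * (-1 * y) = -(2 * Real.pi * y) by ring, Real.sinh_neg, hsinh]
            linarith
        rw [Real.sinh_pos_iff] at c1
        exact (mul_pos_iff_of_pos_left (by positivity)).1 c1
      have hnr : nr (io (y, 0)) = x := by
        have c1 := nr_io (y, 0)
        simp only at c1
        rw [hsinh, MZ_zero, norm_zero] at c1
        have c2 : nr (io (y, 0)) ^ 2 = x ^ 2 := by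
          rw [c1]
          have : (0 : ℝ) ^ 2 + (1 / 20 * (20 * x * sg)) ^ 2 = x ^ 2 * sg ^ 2 := by ring
          rw [this, hs, mul_one]
        have c3 := nr_nonneg (io (y, 0))
        nlinarith
      have hX2 := X2_pole h0 h1 (y := y) (Z := 0) (by rw [hnr]; linarith)
        (by rw [hnr, norm_zero]; linarith) hs hsy
      rw [hnr] at hX2
      have hnX : nr (X2 ε (y, 0)) = x := by
        rw [hX2, nr_smul hx0.le, nr_DD h0 h1, nr_Ep hs (by simp), mul_one]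
      have hsw := OmT_swP h0 h1 hs (q := q) (x := x) (y := y) (Z := 0) (ζ := 0) (by linarith)
        (by norm_num) (by rw [hX2]; simp)
      have hy3 : 3 / 10 ≤ |y| := (X2_big h0 h1 (ζ := 0) (by norm_num) (by rw [hnX]; exact hx)).1
      have hT := hF.T q y 0 (by rw [hnX]; exact hν)
      rw [fT_jTb L q 0 hy3, hsinh] at hT
      rw [hνq]
      have : sw (OmP ε sg ((x : ℂ) * ex q, 0)) = OmT ε (q, y, 0) := hsw.symm
      rw [this, hT]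
      congr 3
      have hs2 : sg * sg = 1 := by rw [← sq]; exact hs
      rw [div_div, div_eq_div_iff (by positivity) (by positivity)]
      linear_combination (20 * x) * hs2
    · rw [hnYc, habs, mul_one_div]
      exact not_lt.2 (div_le_div_of_nonneg_right (not_lt.1 h3) hn0.le)

theorem LocKM_A (h0 : 0 < ε) (h1 : ε ≤ 1 / 1000) (h2 : 5 * ε < ρ) (h3 : ρ ≤ 1 / 8)
    {L : LS ε ρ k e X} {F : ℂ × ℂ → X} (hF : IsF L F) {sg : ℝ} (hs : sg ^ 2 = 1) {ν : ℂ}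
    (hν : ‖ν‖ < 4) : IsLocalDiffeomorphAt ((𝓡 2).prod 𝓘(ℝ, ℂ)) (𝓡 4) ∞
      (jKof ε e (fun a : ℂ × ℂ => GB L F (a.2, a.1)) (cKB L F)) (hS sg ν, 0) := by
  have l1 := prod_ld_S2 (hS_ld hs ν) 0
  have l2 := OmP_ld h0 h1 hs ν (ζ := 0) (by norm_num)
  have l3 : IsLocalDiffeomorphAt 𝓘(ℝ, ℂ × ℂ) 𝓘(ℝ, ℂ × ℂ) ∞ (sw ∘ OmP ε sg) (ν, 0) :=
    IsLocalDiffeomorphAt.comp (hf := l2) (hg := sw_ld _) ..
  have hfar : ¬ Far 4 (sw (OmP ε sg (ν, 0))) := by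
    rw [far_sw, OmP_far h0 h1 (by norm_num) le_rfl hs ν (by norm_num)]
    exact not_le.2 hν
  have l4 : IsLocalDiffeomorphAt 𝓘(ℝ, ℂ × ℂ) (𝓡 4) ∞ (F ∘ (sw ∘ OmP ε sg)) (ν, 0) :=
    IsLocalDiffeomorphAt.comp (hf := l3) (hg := hF.loc _ hfar) ..
  refine ld_of_comp_left (f := fun a : ℂ × ℂ => (hS sg a.1, a.2)) (x := (ν, 0)) ?_ l1
  refine ld_congr l4 ?_
  have e1 : ∀ᶠ a : ℂ × ℂ in 𝓝 (ν, 0), ‖a.1‖ < 4 := by
    have c : ContinuousAt (fun a : ℂ × ℂ => ‖a.1‖) (ν, 0) := by fun_prop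
    exact c.eventually_lt_const hν
  have e2 : ∀ᶠ a : ℂ × ℂ in 𝓝 (ν, 0), ‖a.2‖ < 1 / 8 := by
    have c : ContinuousAt (fun a : ℂ × ℂ => ‖a.2‖) (ν, 0) := by fun_prop
    exact c.eventually_lt_const (by simp)
  filter_upwards [e1, e2]
  rintro ⟨ν', ζ⟩ hν' hζ
  simp only at hν' hζ
  show jKof ε e (fun a : ℂ × ℂ => GB L F (a.2, a.1)) (cKB L F) (hS sg ν', ζ) =
    F (sw (OmP ε sg (ν', ζ)))
  by_cases hζ0 : ζ = 0
  · subst hζ0
    rw [jKof]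
    simp only
    rw [if_pos trivial]
    exact LocKM_A0 h0 h1 hF hs hν'
  · rw [jKof]
    simp only
    rw [if_neg hζ0]
    exact LocKM_A1 h0 h1 h2 h3 hF hs hν' hζ0 hζ (ex_arg ζ)

theorem LocKM_arg {s w : ℝ} (hs : 0 < s) :
    ∃ n : ℤ, Complex.arg ((s : ℂ) * ex w) / (2 * Real.pi) = w + n := by
  have h1 := ex_arg ((s : ℂ) * ex w)
  have hn : ‖(s : ℂ) * ex w‖ = s := by
    rw [norm_mul, ex_norm, mul_one, Complex.norm_real, Real.norm_of_nonneg hs.le]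
  rw [hn] at h1
  have h2 : ex (Complex.arg ((s : ℂ) * ex w) / (2 * Real.pi)) = ex w :=
    mul_left_cancel₀ (by exact_mod_cast hs.ne') h1
  obtain ⟨n, hn⟩ := ex_eq_iff.1 h2
  exact ⟨-n, by push_cast; linarith⟩

theorem LocKM_B0 (L : LS ε ρ k e X) (F : ℂ × ℂ → X) (q : ℝ) {σ : ℝ} (hσ : |σ| < 1 / 3) :
    cKB L F (bS (q, σ)) = jTb L (q, TrSi (σ, 0)) := by
  obtain ⟨w, hw⟩ : ∃ w : ℝ, w = √(1 + σ ^ 2) := ⟨_, rfl⟩
  have hw0 : 0 < w := by rw [hw]; positivity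
  have hwC : (w : ℂ) ≠ 0 := by exact_mod_cast hw0.ne'
  have hY0 : ((bS (q, σ) : S2) : E3) 0 = -σ / w := by rw [bS_zero, ← hw]
  have hYc : yc (bS (q, σ)) = ((1 / w : ℝ) : ℂ) * ex q := by
    rw [bS_yc, ← hw]
    push_cast
    field_simp
  have hnYc : ‖yc (bS (q, σ))‖ = 1 / w := by
    rw [hYc, norm_mul, ex_norm, mul_one, Complex.norm_real, Real.norm_of_nonneg (by positivity)]
  rw [cKB, if_neg]
  · obtain ⟨n, hn⟩ := LocKM_arg (s := 1 / w) (w := q) (by positivity)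
    rw [← hYc] at hn
    have hq : -((bS (q, σ) : S2) : E3) 0 / ‖yc (bS (q, σ))‖ = σ := by
      rw [hY0, hnYc]
      field_simp
    rw [hn, hq, jTb_per]
  · rw [hnYc, hY0, abs_div, abs_neg, abs_of_pos hw0, not_lt, ← mul_div_assoc]
    exact div_le_div_of_nonneg_right (by linarith) hw0.le

theorem LocKM_B1 (h0 : 0 < ε) (h1 : ε ≤ 1 / 1000) (h2 : 5 * ε < ρ) (h3 : ρ ≤ 1 / 8)
    (L : LS ε ρ k e X) (F : ℂ × ℂ → X) (q : ℝ) {σ : ℝ} (hσ : |σ| < 1 / 3) {ζ : ℂ} (hζ : ζ ≠ 0)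
    (hζ' : ‖ζ‖ < 1 / 8) {u : ℝ} (hu : (‖ζ‖ : ℂ) * ex u = ζ) :
    GB L F ((ε : ℂ) * ‖ζ‖ * ex (e * thc u) * yc (bS (q, σ)),
      ((1 / 2 + ε * ‖ζ‖ * ((bS (q, σ) : S2) : E3) 0 : ℝ) : ℂ) + (u : ℂ) * I) =
      jTb L (q, TrSi (σ, ζ)) := by
  obtain ⟨w, hw⟩ : ∃ w : ℝ, w = √(1 + σ ^ 2) := ⟨_, rfl⟩
  have hw1 : 1 ≤ w := by
    rw [hw, Real.one_le_sqrt]
    nlinarith [sq_nonneg σ]
  have hw0 : 0 < w := by linarith
  have hwC : (w : ℂ) ≠ 0 := by exact_mod_cast hw0.ne'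
  have hs0 := norm_pos_iff.2 hζ
  rw [bS_zero, bS_yc, ← hw]
  obtain ⟨s, hs⟩ : ∃ s : ℝ, s = ‖ζ‖ := ⟨_, rfl⟩
  rw [← hs] at hs0 hζ' hu ⊢
  obtain ⟨t, ht⟩ : ∃ t : ℝ, t = s / w := ⟨_, rfl⟩
  have ht0 : 0 < t := by rw [ht]; positivity
  have ht8 : t < 1 / 8 := by
    rw [ht, div_lt_iff₀ hw0]; nlinarith
  obtain ⟨p, hp⟩ : ∃ p : ℂ, p = (ε : ℂ) * s * ex (e * thc u) * (ex q / w) := ⟨_, rfl⟩
  obtain ⟨r, hr⟩ : ∃ r : ℂ, r = ((1 / 2 + ε * s * (-σ / w) : ℝ) : ℂ) + (u : ℂ) * I := ⟨_, rfl⟩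
  rw [← hp, ← hr]
  have hp' : p = ((ε * t : ℝ) : ℂ) * ex (q + e * thc u) := by
    rw [hp, ht, ex_add]
    push_cast
    field_simp
  have hεt : 0 < ε * t := mul_pos h0 ht0
  have hpn : ‖p‖ = ε * t := by
    rw [hp', norm_mul, ex_norm, mul_one, Complex.norm_real, Real.norm_of_nonneg hεt.le]
  have hrre : r.re = 1 / 2 - ε * (t * σ) := by
    have : r.re = 1 / 2 + ε * s * (-σ / w) := by rw [hr]; simp
    rw [this, ht]
    ring
  have hrim : r.im = u := by rw [hr]; simp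
  have hσ' := abs_lt.1 hσ
  have htσ : |ε * (t * σ)| < 1 / 4 := by
    rw [abs_mul, abs_mul, abs_of_pos h0, abs_of_pos ht0]
    have := abs_nonneg σ
    have h5 : t * |σ| ≤ 1 := by nlinarith
    nlinarith
  have hzT : zT ε p r = ζ / w := by
    rw [zT, hpn, hrim, ← hu, ht]
    push_cast
    have : (ε : ℂ) ≠ 0 := by exact_mod_cast h0.ne'
    field_simp
  have hzn : ‖zT ε p r‖ = t := by
    rw [hzT, norm_div, Complex.norm_real, Real.norm_of_nonneg hw0.le, ← hs, ht]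
  obtain ⟨n, hn⟩ := LocKM_arg (s := ε * t) (w := q + e * thc u) hεt
  have hqT : qT e p r = q + n := by
    rw [← hp'] at hn
    rw [qT, hn, hrim]
    ring
  have hout : ¬ InT ε p (fr r) := by
    rintro ⟨a1, a2⟩
    -- `σ ≠ 0`
    have hσ0 : σ ≠ 0 := by
      rintro rfl
      have c1 : (fr r).re = -(1 / 2) := by
        rw [fr_re, hrre]
        have : round (1 / 2 - ε * (t * 0) : ℝ) = 1 := by
          rw [round_eq]; norm_num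
        rw [this]; norm_num
      rw [c1, abs_neg, abs_of_pos (by norm_num)] at a1
      exact absurd a1 (lt_irrefl _)
    obtain ⟨sg, hsg, hsσ⟩ : ∃ sg : ℝ, sg ^ 2 = 1 ∧ σ = sg * |σ| := by
      rcases lt_or_gt_of_ne hσ0 with h | h
      · exact ⟨-1, by norm_num, by rw [abs_of_neg h]; ring⟩
      · exact ⟨1, by norm_num, by rw [abs_of_pos h]; ring⟩
    have hab := abs_pos.2 hσ0
    obtain ⟨m, hm⟩ := LocKM_red hsg (ε * (t * |σ|))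
    have c1 : r.re = sg * (1 / 2 - ε * (t * |σ|)) + m := by
      rw [← hm, hrre]
      nth_rewrite 1 [hsσ]
      ring
    have hts : 0 < t * |σ| := by positivity
    have hts8 : t * |σ| ≤ 1 / 8 := by nlinarith
    obtain ⟨b1, b2, b3⟩ := LocKM_nsi h0 h1 hts hts8 hsg rfl
    have b4 := LocKM_ww h0 h1 hts hts8 hsg rfl
    have b1' := abs_lt.1 b1
    have c2 : (fr r).re = sg * (1 / 2 - ε * (t * |σ|)) := by
      rw [fr_re, c1, round_add_intCast, rd_self b1'.1.le b1'.2]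
      push_cast
      ring
    rw [c2, b4, hpn] at a2
    have : 3 * |σ| < 1 := by linarith
    nlinarith
  rw [GB_eq_oT h0 h2 h3 L F (by rw [hpn]; nlinarith) (c := 1 / 2) (Or.inl rfl)
    (by rw [hrre, show 1 / 2 - ε * (t * σ) - 1 / 2 = -(ε * (t * σ)) by ring, abs_neg]; exact htσ)
    hout, hqT, jTb_per]
  congr 2
  rw [TrSi]
  refine Prod.ext ?_ ?_
  · simp only
    rw [← hw, ← hzT, hzn, hrre, sgm]
    have c1 : (1 / 2 - (1 / 2 - ε * (t * σ))) / ε = t * σ := by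
      field_simp
      ring
    rw [c1, show (t * σ) ^ 2 = σ ^ 2 * t ^ 2 by ring]
    field_simp
  · simp only
    rw [← hw, ← hzT]

theorem LocKM_B (h0 : 0 < ε) (h1 : ε ≤ 1 / 1000) (h2 : 5 * ε < ρ) (h3 : ρ ≤ 1 / 8)
    (L : LS ε ρ k e X) (F : ℂ × ℂ → X) (q : ℝ) {σ : ℝ} (hσ : |σ| < 1 / 3) :
    IsLocalDiffeomorphAt ((𝓡 2).prod 𝓘(ℝ, ℂ)) (𝓡 4) ∞
      (jKof ε e (fun a : ℂ × ℂ => GB L F (a.2, a.1)) (cKB L F)) (bS (q, σ), 0) := by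
  have l1 := prod_ld_S2 (bS_ld (q, σ)) 0
  have l0 : IsLocalDiffeomorphAt 𝓘(ℝ, (ℝ × ℝ) × ℂ) 𝓘(ℝ, ℝ × ℝ × ℂ) ∞
      (fun a : (ℝ × ℝ) × ℂ => (a.1.1, a.1.2, a.2)) ((q, σ), 0) :=
    ld_of_perm (f := Equiv.prodAssoc ℝ ℝ ℂ)
      (by
        show ContDiff ℝ ∞ fun a : (ℝ × ℝ) × ℂ => (a.1.1, a.1.2, a.2)
        fun_prop)
      (by
        show ContDiff ℝ ∞ fun a : ℝ × ℝ × ℂ => ((a.1, a.2.1), a.2.2)
        fun_prop) ((q, σ), 0)
  have l2 : IsLocalDiffeomorphAt 𝓘(ℝ, ℝ × ℂ) 𝓘(ℝ, ℝ × ℂ) ∞ TrSi (σ, 0) := TrSi_ld (by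
    simp only
    rw [norm_zero]
    nlinarith [sq_nonneg σ])
  have l3 : IsLocalDiffeomorphAt 𝓘(ℝ, ℝ × ℝ × ℂ) 𝓘(ℝ, ℝ × ℝ × ℂ) ∞
      (Prod.map id TrSi) (q, σ, 0) :=
    LocKM_prodV (ld_id (I := 𝓘(ℝ, ℝ)) (n := ∞) q) l2
  have l4 : IsLocalDiffeomorphAt 𝓘(ℝ, ℝ × ℝ × ℂ) (𝓡 4) ∞
      (jTb L ∘ Prod.map id TrSi) (q, σ, 0) := by
    refine IsLocalDiffeomorphAt.comp (hf := l3) (hg := jTb_ld h0 L ?_) ..
    show ‖(TrSi (σ, 0)).2‖ < 5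
    rw [LocKM_TrSi0]
    simp
  have l5 : IsLocalDiffeomorphAt 𝓘(ℝ, (ℝ × ℝ) × ℂ) (𝓡 4) ∞
      ((jTb L ∘ Prod.map id TrSi) ∘ fun a : (ℝ × ℝ) × ℂ => (a.1.1, a.1.2, a.2)) ((q, σ), 0) :=
    IsLocalDiffeomorphAt.comp (hf := l0) (hg := l4) ..
  refine ld_of_comp_left (f := fun a : (ℝ × ℝ) × ℂ => (bS a.1, a.2)) (x := ((q, σ), 0)) ?_ l1
  refine ld_congr l5 ?_
  have e1 : ∀ᶠ a : (ℝ × ℝ) × ℂ in 𝓝 ((q, σ), 0), |a.1.2| < 1 / 3 := by
    have c : ContinuousAt (fun a : (ℝ × ℝ) × ℂ => |a.1.2|) ((q, σ), 0) := by fun_prop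
    exact c.eventually_lt_const hσ
  have e2 : ∀ᶠ a : (ℝ × ℝ) × ℂ in 𝓝 ((q, σ), 0), ‖a.2‖ < 1 / 8 := by
    have c : ContinuousAt (fun a : (ℝ × ℝ) × ℂ => ‖a.2‖) ((q, σ), 0) := by fun_prop
    exact c.eventually_lt_const (by simp)
  filter_upwards [e1, e2]
  rintro ⟨⟨q', σ'⟩, ζ⟩ hσ' hζ
  simp only at hσ' hζ
  show jKof ε e (fun a : ℂ × ℂ => GB L F (a.2, a.1)) (cKB L F) (bS (q', σ'), ζ) =
    jTb L (q', TrSi (σ', ζ))
  by_cases hζ0 : ζ = 0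
  · subst hζ0
    rw [jKof]
    simp only
    rw [if_pos trivial]
    exact LocKM_B0 L F q' hσ'
  · rw [jKof]
    simp only
    rw [if_neg hζ0]
    exact LocKM_B1 h0 h1 h2 h3 L F q' hσ' hζ0 hζ (ex_arg ζ)

theorem jKB_ld (h0 : 0 < ε) (h1 : ε ≤ 1 / 1000) (h2 : 5 * ε < ρ) (h3 : ρ ≤ 1 / 8)
    {L : LS ε ρ k e X} {F : ℂ × ℂ → X} (hF : IsF L F) (Y : S2) :
    IsLocalDiffeomorphAt ((𝓡 2).prod 𝓘(ℝ, ℂ)) (𝓡 4) ∞
      (jKof ε e (fun a : ℂ × ℂ => GB L F (a.2, a.1)) (cKB L F)) (Y, 0) := by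
  have hsq := S2_sq Y
  by_cases h : ‖yc Y‖ < 4 * |(Y : E3) 0|
  · have hY0 : (Y : E3) 0 ≠ 0 := by
      intro hc
      rw [hc, abs_zero, mul_zero] at h
      exact absurd h (not_lt.2 (norm_nonneg _))
    have hpos := abs_pos.2 hY0
    rw [eq_hS hY0]
    refine LocKM_A h0 h1 h2 h3 hF ?_ ?_
    · split_ifs <;> norm_num
    · rw [norm_div, Complex.norm_real, Real.norm_of_nonneg hpos.le, div_lt_iff₀ hpos]
      exact h
  · have h' := not_lt.1 h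
    have hyc : 0 < ‖yc Y‖ := by
      by_contra hc
      have hc' : ‖yc Y‖ = 0 := le_antisymm (not_lt.1 hc) (norm_nonneg _)
      rw [hc'] at h' hsq
      have : |(Y : E3) 0| = 0 := le_antisymm (by linarith) (abs_nonneg _)
      rw [abs_eq_zero] at this
      rw [this] at hsq
      norm_num at hsq
    rw [eq_bS (norm_pos_iff.1 hyc)]
    refine LocKM_B h0 h1 h2 h3 L F _ ?_
    rw [abs_div, abs_neg, abs_of_pos hyc, div_lt_iff₀ hyc]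
    have := abs_nonneg ((Y : E3) 0)
    linarith

end Pool.Agent.TS
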