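import Pool.Agent.TS.PerM
import Pool.Agent.TS.ConsKM
import Pool.Agent.TS.BrM
import Pool.Agent.TS.OutDef

/-!
# TS/LocTM: the new log chart is a local diffeomorphism at its core
`jTof ε k G' (cTB L F) (q, x, ζ)` with `G' a = GB L F (a.2, a.1)`: for `ζ = s ex t ≠ 0` (`t = arg ζ/2π`) it is
`GB L F (x + i t, ε s ex (q + k t))`.  With `p = x + i t`, `r = ε s ex (q + k t)`: `zK p r = ζ`, and for `s ≤ 1/32`
(`twc = 0`) `qK = q` modulo `1`.
CASE A: `|x - m| < 1/2` for an integer `m` (`m = round x`) and `nr X2 (nsi ε (x - m), 0) < 4`: near `(q, x, 0)` the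
function is `F (sw (OmT ε (q, nsi ε (x - m), ζ)))`: for `ζ ≠ 0` by `GB_K` (after the translation by `m`, `GB_add`; not
far by `OmT_far`, open condition); for `ζ = 0` by definition if `nr X2 < 3`, otherwise
(`3 ≤ n := nr X2 (x̂, 0) < 4`): `X2_core`: `X2 = n • DD ε (Ep sg 0)`, `OmT_swP` (`ζ = 0`): `sw (OmT (q, x̂, 0)) =
OmP sg (n ex q, 0)`, `hF.P`, `fP_eq_jKb`: `jKb L (q, sg/n, 0)`, and `TrS (sgm (dl ..), 0) = (20 σ, 0)`,
`σ = 1 / sinh (2 π x̂) = sg / (20 n)` (`dl_ns`, `X2_big`).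
`hF.loc`, `OmT_ld`, `nsi_ld`, `sw_ld`.
CASE B: otherwise (`x = m - 1/2`, or `nr X2 ≥ 4`): near `(q, x, 0)` all points are outer and the function is
`jKb L (q, TrS (sgm ((c' - x)/ε), ζ))`, `c' = m ± 1/2` (`GB_eq_oK` for `0 < s < 1/8`; `ζ = 0` by definition).
`jKb_ld`, `TrS_ld`, `sgm_ld` (`|c' - x| < ε`: `X2_big`, `dl_ns`).
-/

open scoped Manifold ContDiff Topology
open Complex (I)
open Set Filter

namespace Pool.Agent.TS
open Pool.Agent.CSG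

section
variable {E F E' F' : Type*} [NormedAddCommGroup E] [NormedSpace ℝ E] [NormedAddCommGroup F]
  [NormedSpace ℝ F] [NormedAddCommGroup E'] [NormedSpace ℝ E'] [NormedAddCommGroup F']
  [NormedSpace ℝ F'] {H₁ H₂ H₁' H₂' : Type*} [TopologicalSpace H₁] [TopologicalSpace H₂]
  [TopologicalSpace H₁'] [TopologicalSpace H₂']
  {I₁ : ModelWithCorners ℝ E H₁} {J₁ : ModelWithCorners ℝ F H₂}
  {I₂ : ModelWithCorners ℝ E' H₁'} {J₂ : ModelWithCorners ℝ F' H₂'}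
  {M N M' N' : Type*} [TopologicalSpace M] [TopologicalSpace N] [TopologicalSpace M']
  [TopologicalSpace N'] [ChartedSpace H₁ M] [ChartedSpace H₂ N] [ChartedSpace H₁' M']
  [ChartedSpace H₂' N']

theorem LocTM_prod {f : M → N} {g : M' → N'} {x : M} {y : M'}
    (hf : IsLocalDiffeomorphAt I₁ J₁ ∞ f x) (hg : IsLocalDiffeomorphAt I₂ J₂ ∞ g y) :
    IsLocalDiffeomorphAt (I₁.prod I₂) (J₁.prod J₂) ∞ (Prod.map f g) (x, y) := by
  obtain ⟨Φ, hx, hΦ⟩ := hf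
  obtain ⟨Ψ, hy, hΨ⟩ := hg
  refine ⟨{ toPartialEquiv := Φ.toPartialEquiv.prod Ψ.toPartialEquiv
            open_source := Φ.open_source.prod Ψ.open_source
            open_target := Φ.open_target.prod Ψ.open_target
            contMDiffOn_toFun := Φ.contMDiffOn_toFun.prodMap Ψ.contMDiffOn_toFun
            contMDiffOn_invFun := Φ.contMDiffOn_invFun.prodMap Ψ.contMDiffOn_invFun },
    ⟨hx, hy⟩, ?_⟩
  rintro ⟨a, b⟩ ⟨ha, hb⟩
  exact Prod.ext (hΦ ha) (hΨ hb)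

theorem LocTM_prodV {f : E → F} {g : E' → F'} {x : E} {y : E'}
    (hf : IsLocalDiffeomorphAt 𝓘(ℝ, E) 𝓘(ℝ, F) ∞ f x)
    (hg : IsLocalDiffeomorphAt 𝓘(ℝ, E') 𝓘(ℝ, F') ∞ g y) :
    IsLocalDiffeomorphAt 𝓘(ℝ, E × E') 𝓘(ℝ, F × F') ∞ (Prod.map f g) (x, y) := by
  rw [modelWithCornersSelf_prod, modelWithCornersSelf_prod, ← chartedSpaceSelf_prod,
    ← chartedSpaceSelf_prod]
  exact LocTM_prod hf hg

end

variable {X : Type*} [TopologicalSpace X] [ChartedSpace E4 X] {ε ρ : ℝ} {k e : ℤ}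

/-- the size of `X2` near the poles -/
theorem LocTM_big (h0 : 0 < ε) (h1 : ε ≤ 1 / 1000) {y : ℝ} {ζ : ℂ} (hζ : ‖ζ‖ < 3 / 4)
    (hy : 3 ≤ |MZ ζ * Real.sinh (2 * Real.pi * y)|) : 3 ≤ nr (X2 ε (y, ζ)) := by
  have h2 := nr_io (y, ζ)
  simp only at h2
  have h3 := nr_nonneg (io (y, ζ))
  have h4 : 3 ≤ nr (io (y, ζ)) := by
    have h5 : (9 : ℝ) ≤ (MZ ζ * Real.sinh (2 * Real.pi * y)) ^ 2 := by
      rw [← sq_abs]
      nlinarith
    nlinarith [sq_nonneg ‖ζ‖]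
  have hy0 : y ≠ 0 := by
    rintro rfl
    simp at hy
    linarith
  have key : ∀ sg : ℝ, sg ^ 2 = 1 → 0 < sg * y → 3 ≤ nr (X2 ε (y, ζ)) := by
    intro sg hs hsy
    have h6 : ‖ζ / (nr (io (y, ζ)) : ℂ)‖ < 1 / 4 := by
      rw [norm_div, Complex.norm_real, Real.norm_of_nonneg h3, div_lt_iff₀ (by linarith)]
      linarith
    rw [X2_pole h0 h1 (by linarith) (by linarith) hs hsy, nr_smul h3, nr_DD h0 h1, nr_Ep hs h6,
      mul_one]
    exact h4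
  rcases lt_or_gt_of_ne hy0 with h | h
  · exact key (-1) (by norm_num) (by linarith)
  · exact key 1 (by norm_num) (by linarith)

theorem LocTM_fr_re {z : ℂ} {x : ℝ} (n : ℤ) (h : z.re = x + n) (h1 : -(1 / 2) ≤ x) (h2 : x < 1 / 2) :
    (fr z).re = x := by
  rw [fr_re, h, round_add_intCast, rd_self h1 h2]
  push_cast
  ring

theorem LocTM_dl {z : ℂ} {y c : ℝ} {m : ℤ} (hc : c = 1 / 2 ∨ c = -(1 / 2)) (hz : z.re = y + m)
    (hy : |y - c| < 1 / 4) : dl ε (fr z).re = (c - y) / ε := by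
  have hy' := abs_lt.1 hy
  rcases hc with rfl | rfl
  · rcases lt_or_ge y (1 / 2) with h | h
    · rw [LocTM_fr_re m hz (by linarith) h, dl, if_pos (by linarith)]
    · have hz' : z.re = (y - 1) + ((m + 1 : ℤ) : ℝ) := by rw [hz]; push_cast; ring
      rw [LocTM_fr_re (m + 1) hz' (by linarith) (by linarith), dl, if_neg (by linarith)]
      congr 1
      ring
  · rcases lt_or_ge y (-(1 / 2)) with h | h
    · have hz' : z.re = (y + 1) + ((m - 1 : ℤ) : ℝ) := by rw [hz]; push_cast; ring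
      rw [LocTM_fr_re (m - 1) hz' (by linarith) (by linarith), dl, if_pos (by linarith)]
      congr 1
      ring
    · rw [LocTM_fr_re m hz h (by linarith), dl, if_neg (by linarith)]

theorem LocTM_arg {s w : ℝ} (hs : 0 < s) :
    ∃ n : ℤ, Complex.arg ((s : ℂ) * ex w) / (2 * Real.pi) = w + n := by
  have h1 := ex_arg ((s : ℂ) * ex w)
  have hn : ‖(s : ℂ) * ex w‖ = s := by
    rw [norm_mul, ex_norm, mul_one, Complex.norm_real, Real.norm_of_nonneg hs.le]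
  rw [hn] at h1
  have h2 : ex (Complex.arg ((s : ℂ) * ex w) / (2 * Real.pi)) = ex w :=
    mul_left_cancel₀ (by exact_mod_cast hs.ne') h1
  obtain ⟨n, hn⟩ := ex_eq_iff.1 h2
  exact ⟨-n, by push_cast; linarith⟩

/-- the point of the torus coordinates belonging to `(q, x, ζ)` -/
theorem LocTM_rnorm (h0 : 0 < ε) (ζ : ℂ) (w : ℝ) : ‖(ε : ℂ) * ‖ζ‖ * ex w‖ = ε * ‖ζ‖ := by
  rw [norm_mul, norm_mul, ex_norm, mul_one, Complex.norm_real, Complex.norm_real,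
    Real.norm_of_nonneg h0.le, Real.norm_of_nonneg (norm_nonneg _)]

theorem LocTM_zK (h0 : 0 < ε) (ζ : ℂ) (w : ℝ) {p : ℂ} {n : ℤ}
    (hp : p.im = Complex.arg ζ / (2 * Real.pi) + n) : zK ε p ((ε : ℂ) * ‖ζ‖ * ex w) = ζ := by
  rw [zK, LocTM_rnorm h0, hp, ex_add, ex_int, mul_one, mul_div_cancel_left₀ _ h0.ne']
  exact ex_arg ζ

theorem LocTM_qK (h0 : 0 < ε) {ζ : ℂ} (hζ : ζ ≠ 0) (hζ' : ‖ζ‖ ≤ 1 / 32) (k : ℤ) (q : ℝ) {p : ℂ}
    (hp : p.im = Complex.arg ζ / (2 * Real.pi)) :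
    ∃ n : ℤ, qK ε k p ((ε : ℂ) * ‖ζ‖ * ex (q + k * (Complex.arg ζ / (2 * Real.pi)))) = q + n := by
  have hpos : 0 < ε * ‖ζ‖ := mul_pos h0 (norm_pos_iff.2 hζ)
  obtain ⟨n, hn⟩ := LocTM_arg (w := q + k * (Complex.arg ζ / (2 * Real.pi))) hpos
  refine ⟨n, ?_⟩
  have h1 := LocTM_zK h0 ζ (q + k * (Complex.arg ζ / (2 * Real.pi))) (n := 0) (p := p)
    (by rw [hp]; simp)
  push_cast at hn
  rw [qK, h1, twc_zero hζ', hn, hp]
  ring

theorem LocTM_X2_cont (h0 : 0 < ε) (h1 : ε ≤ 1 / 1000) {x : ℝ} {m : ℤ} (hx : |x - m| < 1 / 2) :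
    ContinuousAt (fun a : ℝ × ℂ => nr (X2 ε (nsi ε (a.1 - m), a.2))) (x, 0) := by
  have c1 : ContinuousAt (fun a : ℝ × ℂ => nsi ε (a.1 - m)) (x, 0) := by
    have c2 : ContinuousAt (fun a : ℝ × ℂ => a.1 - m) (x, 0) := by fun_prop
    exact ContinuousAt.comp (g := nsi ε) (f := fun a : ℝ × ℂ => a.1 - m) (nsi_continuousAt h0 h1 hx) c2
  have c3 : ContinuousAt (fun a : ℝ × ℂ => (nsi ε (a.1 - m), a.2)) (x, 0) :=
    c1.prodMk continuousAt_snd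
  have c4 := ld_continuousAt (X2_ld h0 h1 (nsi ε (x - m), 0))
  have c5 : ContinuousAt (fun a : ℝ × ℂ => X2 ε (nsi ε (a.1 - m), a.2)) (x, 0) :=
    ContinuousAt.comp (g := X2 ε) (f := fun a : ℝ × ℂ => (nsi ε (a.1 - m), a.2)) c4 c3
  exact ContinuousAt.comp (g := nr) (f := fun a : ℝ × ℂ => X2 ε (nsi ε (a.1 - m), a.2))
    nr_continuous.continuousAt c5

theorem LocTM_sub_ld (m x : ℝ) : IsLocalDiffeomorphAt 𝓘(ℝ, ℝ) 𝓘(ℝ, ℝ) ∞ (fun y : ℝ => y - m) x :=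
  ld_of_perm (f := Equiv.subRight m) (by
    show ContDiff ℝ ∞ fun y : ℝ => y - m
    fun_prop) (by
    show ContDiff ℝ ∞ fun y : ℝ => y + m
    fun_prop) x

theorem LocTM_p (x' t : ℝ) (m : ℤ) : ((x' : ℂ) + (t : ℂ) * I - m).re = x' - m ∧
    ((x' : ℂ) + (t : ℂ) * I - m).im = t := by
  constructor <;> simp

theorem LocTM_sw (b : ℂ × ℂ) : sw (sw b) = b := rfl

theorem LocTM_TrS0 {σ : ℝ} : TrS (σ, 0) = (20 * σ, 0) := by
  have h : NN σ 0 = 1 / 20 := by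
    rw [NN, MZ_zero, norm_zero]
    rw [show (0 : ℝ) ^ 2 * σ ^ 2 + (1 / 20) ^ 2 = (1 / 20) ^ 2 by ring]
    exact Real.sqrt_sq (by norm_num)
  rw [TrS]
  simp only
  rw [h, mul_zero]
  refine Prod.ext ?_ rfl
  simp only
  field_simp

theorem LocTM_A (h0 : 0 < ε) (h1 : ε ≤ 1 / 1000) (h2 : 5 * ε < ρ) (h3 : ρ ≤ 1 / 8)
    {L : LS ε ρ k e X} {F : ℂ × ℂ → X} (hF : IsF L F) (q : ℝ) {x : ℝ} {m : ℤ}
    (hx : |x - m| < 1 / 2) (hn : nr (X2 ε (nsi ε (x - m), 0)) < 4) :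
    IsLocalDiffeomorphAt 𝓘(ℝ, ℝ × ℝ × ℂ) (𝓡 4) ∞
      (jTof ε k (fun a : ℂ × ℂ => GB L F (a.2, a.1)) (cTB L F)) (q, x, 0) := by
  have l1 : IsLocalDiffeomorphAt 𝓘(ℝ, ℝ × ℝ × ℂ) 𝓘(ℝ, ℝ × ℝ × ℂ) ∞
      (fun a : ℝ × ℝ × ℂ => (a.1, nsi ε (a.2.1 - m), a.2.2)) (q, x, 0) := by
    have a1 : IsLocalDiffeomorphAt 𝓘(ℝ, ℝ) 𝓘(ℝ, ℝ) ∞ (nsi ε ∘ fun y : ℝ => y - m) x :=
      IsLocalDiffeomorphAt.comp (hf := LocTM_sub_ld (m : ℝ) x) (hg := nsi_ld h0 h1 hx) ..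
    have a2 := LocTM_prodV a1 (ld_id (I := 𝓘(ℝ, ℂ)) (n := ∞) (0 : ℂ))
    exact LocTM_prodV (ld_id (I := 𝓘(ℝ, ℝ)) (n := ∞) q) a2
  have l2 := OmT_ld h0 h1 (q, nsi ε (x - m), 0)
  have l3 : IsLocalDiffeomorphAt 𝓘(ℝ, ℝ × ℝ × ℂ) 𝓘(ℝ, ℂ × ℂ) ∞
      (OmT ε ∘ fun a : ℝ × ℝ × ℂ => (a.1, nsi ε (a.2.1 - m), a.2.2)) (q, x, 0) :=
    IsLocalDiffeomorphAt.comp (hf := l1) (hg := l2) ..
  have l4 : IsLocalDiffeomorphAt 𝓘(ℝ, ℝ × ℝ × ℂ) 𝓘(ℝ, ℂ × ℂ) ∞
      (sw ∘ (OmT ε ∘ fun a : ℝ × ℝ × ℂ => (a.1, nsi ε (a.2.1 - m), a.2.2))) (q, x, 0) :=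
    IsLocalDiffeomorphAt.comp (hf := l3) (hg := sw_ld _) ..
  have hfar : ¬ Far 4 (sw (OmT ε (q, nsi ε (x - m), 0))) := by
    rw [far_sw, OmT_far (by norm_num)]
    rintro ⟨h, -⟩
    linarith
  have l5 : IsLocalDiffeomorphAt 𝓘(ℝ, ℝ × ℝ × ℂ) (𝓡 4) ∞
      (F ∘ (sw ∘ (OmT ε ∘ fun a : ℝ × ℝ × ℂ => (a.1, nsi ε (a.2.1 - m), a.2.2)))) (q, x, 0) :=
    IsLocalDiffeomorphAt.comp (hf := l4) (hg := hF.loc _ hfar) ..
  refine ld_congr l5 ?_
  have e1 : ∀ᶠ a : ℝ × ℝ × ℂ in 𝓝 (q, x, 0), |a.2.1 - m| < 1 / 2 := by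
    have c : ContinuousAt (fun a : ℝ × ℝ × ℂ => |a.2.1 - m|) (q, x, 0) := by fun_prop
    exact c.eventually_lt_const hx
  have e2 : ∀ᶠ a : ℝ × ℝ × ℂ in 𝓝 (q, x, 0), nr (X2 ε (nsi ε (a.2.1 - m), a.2.2)) < 4 := by
    have c : ContinuousAt (fun a : ℝ × ℝ × ℂ => nr (X2 ε (nsi ε (a.2.1 - m), a.2.2))) (q, x, 0) :=
      ContinuousAt.comp (g := fun a : ℝ × ℂ => nr (X2 ε (nsi ε (a.1 - m), a.2)))
        (f := fun a : ℝ × ℝ × ℂ => a.2) (LocTM_X2_cont h0 h1 hx) continuousAt_snd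
    exact c.eventually_lt_const hn
  have e3 : ∀ᶠ a : ℝ × ℝ × ℂ in 𝓝 (q, x, 0), ‖a.2.2‖ < 1 / 32 := by
    have c : ContinuousAt (fun a : ℝ × ℝ × ℂ => ‖a.2.2‖) (q, x, 0) := by fun_prop
    exact c.eventually_lt_const (by simp)
  filter_upwards [e1, e2, e3]
  rintro ⟨q', x', ζ⟩ hx' hn' hζ
  simp only at hx' hn' hζ
  show jTof ε k (fun a : ℂ × ℂ => GB L F (a.2, a.1)) (cTB L F) (q', x', ζ) =
    F (sw (OmT ε (q', nsi ε (x' - m), ζ)))
  have hx'' := abs_lt.1 hx'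
  by_cases hζ0 : ζ = 0
  · -- the core
    subst hζ0
    rw [jTof]
    simp only
    rw [if_pos trivial, cTB]
    simp only
    have hfr : (fr (x' : ℂ)).re = x' - m :=
      LocTM_fr_re m (by rw [Complex.ofReal_re]; ring) hx''.1.le hx''.2
    rw [hfr]
    by_cases h3' : nr (X2 ε (nsi ε (x' - m), 0)) < 3
    · rw [if_pos ⟨hx', h3'⟩]
    · rw [if_neg (fun h => h3' h.2)]
      have h4 := not_lt.1 h3'
      obtain ⟨xh, hxh⟩ : ∃ xh, xh = nsi ε (x' - m) := ⟨_, rfl⟩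
      have hns : ns ε xh = x' - m := by rw [hxh, ns_nsi h0 h1 hx']
      rw [← hxh] at h4 hn' ⊢
      have h5 := (X2_big h0 h1 (ζ := 0) (by norm_num) h4).1
      have h6 := (dl_ns h0 h1 h5).2
      rw [hns] at h6
      have key : ∀ sg : ℝ, sg ^ 2 = 1 → 0 < sg * xh →
          jKb L (q', TrS (sgm (dl ε (x' - m)), 0)) = F (sw (OmT ε (q', xh, 0))) := by
        intro sg hs hsx
        obtain ⟨h7, h8⟩ := X2_core h0 h1 hs hsx (by linarith)
        obtain ⟨n, hn⟩ : ∃ n, n = sg * Real.sinh (2 * Real.pi * xh) / 20 := ⟨_, rfl⟩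
        rw [← hn] at h7 h8
        rw [h7] at h4 hn'
        have hn0 : 0 < n := by linarith
        have h9 := OmT_swP h0 h1 hs (q := q') (x := n) (y := xh) (Z := 0) (ζ := 0) (by linarith)
          (by norm_num) (by rw [zero_div]; exact h8)
        rw [h9, LocTM_sw, hF.P sg _ _ hs (by
          rw [norm_mul, ex_norm, mul_one, Complex.norm_real, Real.norm_of_nonneg hn0.le]
          exact hn') (by norm_num), fP_eq_jKb L hs hn0, LocTM_TrS0, h6]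
        congr 3
        rw [hn]
        have hsh : Real.sinh (2 * Real.pi * xh) ≠ 0 := by
          intro hc
          rw [hn, hc] at hn0
          simp at hn0
        have hsg : sg ≠ 0 := by
          rintro rfl
          simp at hs
        field_simp
      rcases le_abs.1 h5 with h | h
      · exact key 1 (by norm_num) (by linarith)
      · exact key (-1) (by norm_num) (by linarith)
  · rw [jTof]
    simp only
    rw [if_neg hζ0]
    obtain ⟨p, hp⟩ : ∃ p : ℂ, p = (x' : ℂ) + ((Complex.arg ζ / (2 * Real.pi) : ℝ) : ℂ) * I - m :=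
      ⟨_, rfl⟩
    obtain ⟨r, hr⟩ : ∃ r : ℂ, r = (ε : ℂ) * ‖ζ‖ * ex (q' + k * (Complex.arg ζ / (2 * Real.pi))) :=
      ⟨_, rfl⟩
    have hpre : p.re = x' - m := by rw [hp]; exact (LocTM_p _ _ _).1
    have hpim : p.im = Complex.arg ζ / (2 * Real.pi) := by rw [hp]; exact (LocTM_p _ _ _).2
    have hrn : ‖r‖ = ε * ‖ζ‖ := by rw [hr]; exact LocTM_rnorm h0 _ _
    have hζp := norm_pos_iff.2 hζ0
    have hr0 : r ≠ 0 := by
      rw [← norm_pos_iff, hrn]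
      positivity
    have hz : zK ε p r = ζ := by
      rw [hr]
      exact LocTM_zK h0 ζ _ (n := 0) (by rw [hpim]; simp)
    obtain ⟨n, hn2⟩ := LocTM_qK h0 hζ0 hζ.le k q' hpim
    rw [← hr] at hn2
    have hbK : bK ε k p r = sw (OmT ε (q', nsi ε (x' - m), ζ)) := by
      rw [bK, hz, hn2, hpre, OmT_per]
    have hadd := GB_add L F (p := p) (r := r) (a := (m : ℂ)) (b := 0) ⟨m, 0, by simp⟩ GI_zero
    rw [add_zero] at hadd
    have hpm : p + m = (x' : ℂ) + ((Complex.arg ζ / (2 * Real.pi) : ℝ) : ℂ) * I := by rw [hp]; ring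
    rw [← hr, ← hpm, hadd, GB_K h0 h1 h2 h3 hF hr0 (by rw [hrn]; nlinarith) (by rw [hpre]; exact hx')
      (by
        rw [hbK, far_sw, OmT_far (by norm_num)]
        rintro ⟨h, -⟩
        linarith), hbK]

theorem LocTM_B (h0 : 0 < ε) (h1 : ε ≤ 1 / 1000) (h2 : 5 * ε < ρ) (h3 : ρ ≤ 1 / 8)
    (L : LS ε ρ k e X) (F : ℂ × ℂ → X) (q : ℝ) {x c : ℝ} {m : ℤ}
    (hc : c = 1 / 2 ∨ c = -(1 / 2)) (hx : |(c - (x - m)) / ε| < 1)
    (hout : ∀ᶠ a : ℝ × ℂ in 𝓝 (x, 0),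
      ¬ (|(fr (a.1 : ℂ)).re| < 1 / 2 ∧ nr (X2 ε (nsi ε (fr (a.1 : ℂ)).re, a.2)) < 3)) :
    IsLocalDiffeomorphAt 𝓘(ℝ, ℝ × ℝ × ℂ) (𝓡 4) ∞
      (jTof ε k (fun a : ℂ × ℂ => GB L F (a.2, a.1)) (cTB L F)) (q, x, 0) := by
  have l1 : IsLocalDiffeomorphAt 𝓘(ℝ, ℝ) 𝓘(ℝ, ℝ) ∞ (fun y : ℝ => (c - (y - m)) / ε) x := by
    refine ld_of_perm (f := ⟨fun y : ℝ => (c - (y - m)) / ε, fun z => c + m - z * ε,
      fun y => ?_, fun z => ?_⟩) ?_ ?_ x
    · simp only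
      field_simp
      ring
    · simp only
      field_simp
      ring
    · show ContDiff ℝ ∞ fun y : ℝ => (c - (y - m)) / ε
      fun_prop
    · show ContDiff ℝ ∞ fun z : ℝ => c + m - z * ε
      fun_prop
  have l2 : IsLocalDiffeomorphAt 𝓘(ℝ, ℝ) 𝓘(ℝ, ℝ) ∞
      (sgm ∘ fun y : ℝ => (c - (y - m)) / ε) x :=
    IsLocalDiffeomorphAt.comp (hf := l1) (hg := sgm_ld hx) ..
  have l3 := LocTM_prodV l2 (ld_id (I := 𝓘(ℝ, ℂ)) (n := ∞) (0 : ℂ))
  have l4 := IsLocalDiffeomorphAt.comp (hf := l3) (hg := TrS_ld _) ..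
  have l5 := LocTM_prodV (ld_id (I := 𝓘(ℝ, ℝ)) (n := ∞) q) l4
  have l6 : IsLocalDiffeomorphAt 𝓘(ℝ, ℝ × ℝ × ℂ) (𝓡 4) ∞
      (jKb L ∘ fun a : ℝ × ℝ × ℂ => (a.1, TrS (sgm ((c - (a.2.1 - m)) / ε), a.2.2))) (q, x, 0) := by
    refine IsLocalDiffeomorphAt.comp (hf := l5) (hg := jKb_ld L ?_) ..
    show ‖(TrS (sgm ((c - (x - m)) / ε), 0)).2‖ < 1
    rw [LocTM_TrS0]
    simp
  refine ld_congr l6 ?_
  have hxε : |x - m - c| < 1 / 4 := by
    rw [abs_div, abs_of_pos h0, div_lt_one h0] at hx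
    rw [show x - m - c = -(c - (x - m)) by ring, abs_neg]
    linarith
  have e1 : ∀ᶠ a : ℝ × ℝ × ℂ in 𝓝 (q, x, 0), |a.2.1 - m - c| < 1 / 4 := by
    have c : ContinuousAt (fun a : ℝ × ℝ × ℂ => |a.2.1 - m - c|) (q, x, 0) := by fun_prop
    exact c.eventually_lt_const hxε
  have e2 : ∀ᶠ a : ℝ × ℝ × ℂ in 𝓝 (q, x, 0), ¬ (|(fr (a.2.1 : ℂ)).re| < 1 / 2 ∧
      nr (X2 ε (nsi ε (fr (a.2.1 : ℂ)).re, a.2.2)) < 3) :=
    (continuousAt_snd (p := ((q, x, 0) : ℝ × ℝ × ℂ))).eventually hout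
  have e3 : ∀ᶠ a : ℝ × ℝ × ℂ in 𝓝 (q, x, 0), ‖a.2.2‖ < 1 / 32 := by
    have c : ContinuousAt (fun a : ℝ × ℝ × ℂ => ‖a.2.2‖) (q, x, 0) := by fun_prop
    exact c.eventually_lt_const (by simp)
  filter_upwards [e1, e2, e3]
  rintro ⟨q', x', ζ⟩ hx' hn' hζ
  simp only at hx' hn' hζ
  show jTof ε k (fun a : ℂ × ℂ => GB L F (a.2, a.1)) (cTB L F) (q', x', ζ) =
    jKb L (q', TrS (sgm ((c - (x' - m)) / ε), ζ))
  by_cases hζ0 : ζ = 0
  · subst hζ0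
    rw [jTof]
    simp only
    rw [if_pos trivial, cTB]
    simp only
    rw [if_neg hn', LocTM_dl (y := x' - m) (m := m) hc (by rw [Complex.ofReal_re]; ring) hx']
  · rw [jTof]
    simp only
    rw [if_neg hζ0]
    obtain ⟨p, hp⟩ : ∃ p : ℂ, p = (x' : ℂ) + ((Complex.arg ζ / (2 * Real.pi) : ℝ) : ℂ) * I - m :=
      ⟨_, rfl⟩
    obtain ⟨r, hr⟩ : ∃ r : ℂ, r = (ε : ℂ) * ‖ζ‖ * ex (q' + k * (Complex.arg ζ / (2 * Real.pi))) :=
      ⟨_, rfl⟩
    have hpre : p.re = x' - m := by rw [hp]; exact (LocTM_p _ _ _).1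
    have hpim : p.im = Complex.arg ζ / (2 * Real.pi) := by rw [hp]; exact (LocTM_p _ _ _).2
    have hrn : ‖r‖ = ε * ‖ζ‖ := by rw [hr]; exact LocTM_rnorm h0 _ _
    have hz : zK ε p r = ζ := by
      rw [hr]
      exact LocTM_zK h0 ζ _ (n := 0) (by rw [hpim]; simp)
    obtain ⟨n, hn2⟩ := LocTM_qK h0 hζ0 hζ.le k q' hpim
    rw [← hr] at hn2
    have hadd := GB_add L F (p := p) (r := r) (a := (m : ℂ)) (b := 0) ⟨m, 0, by simp⟩ GI_zero
    rw [add_zero] at hadd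
    have hpm : p + m = (x' : ℂ) + ((Complex.arg ζ / (2 * Real.pi) : ℝ) : ℂ) * I := by rw [hp]; ring
    have hfre : (fr p).re = (fr (x' : ℂ)).re := by
      rw [fr_re, fr_re, hpre, Complex.ofReal_re, round_sub_intCast]
      push_cast
      ring
    have hz' : zK ε (fr p) r = ζ := by
      rw [hr]
      refine LocTM_zK h0 ζ _ (n := -round p.im) ?_
      rw [fr_im, hpim]
      push_cast
      ring
    have hK := GB_eq_oK h0 h2 h3 L F (p := p) (r := r) (by rw [hrn]; nlinarith) hc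
      (by rw [hpre]; exact hx') (by
        rintro ⟨a1, a2⟩
        rw [hfre] at a1 a2
        rw [hz'] at a2
        exact hn' ⟨a1, a2⟩)
    rw [← hr, ← hpm, hadd, hK, hz, hn2, hpre, jKb_per]

theorem jTB_ld (h0 : 0 < ε) (h1 : ε ≤ 1 / 1000) (h2 : 5 * ε < ρ) (h3 : ρ ≤ 1 / 8)
    {L : LS ε ρ k e X} {F : ℂ × ℂ → X} (hF : IsF L F) (q x : ℝ) :
    IsLocalDiffeomorphAt 𝓘(ℝ, ℝ × ℝ × ℂ) (𝓡 4) ∞
      (jTof ε k (fun a : ℂ × ℂ => GB L F (a.2, a.1)) (cTB L F)) (q, x, 0) := by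
  obtain ⟨m, hm⟩ : ∃ m : ℤ, m = round x := ⟨_, rfl⟩
  have hxm := rd_mem x
  rw [← hm] at hxm
  rcases eq_or_lt_of_le hxm.1 with hx | hx
  · -- `x = m - 1/2`
    have hx0 : (-(1 / 2) - (x - m)) / ε = 0 := by
      rw [← hx]; simp
    refine LocTM_B h0 h1 h2 h3 L F q (c := -(1 / 2)) (m := m) (Or.inr rfl) ?_ ?_
    · rw [hx0]; simp
    · have c0 : ContinuousAt (fun a : ℝ × ℂ => (-(1 / 2) - (a.1 - m)) / ε) (x, 0) := by fun_prop
      have e1 : ∀ᶠ a : ℝ × ℂ in 𝓝 (x, 0), |a.1 - m - -(1 / 2)| < 1 / 4 := by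
        have c : ContinuousAt (fun a : ℝ × ℂ => |a.1 - m - -(1 / 2)|) (x, 0) := by fun_prop
        refine c.eventually_lt_const ?_
        show |x - m - -(1 / 2)| < 1 / 4
        rw [← hx]
        simp
      have e2 : ∀ᶠ a : ℝ × ℂ in 𝓝 (x, 0),
          |(-(1 / 2) - (a.1 - m)) / ε| < sech (2 * Real.pi * (3 / 10)) := by
        refine (continuous_abs.continuousAt.comp c0).eventually_lt_const ?_
        show |(-(1 / 2) - (x - m)) / ε| < _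
        rw [hx0, abs_zero]
        exact sech_pos _
      have e3 : ∀ᶠ a : ℝ × ℂ in 𝓝 (x, 0),
          3 * |sgm ((-(1 / 2) - (a.1 - m)) / ε)| - MZ a.2 < 0 := by
        have c1 : ContinuousAt sgm ((-(1 / 2) - (x - m)) / ε) := by
          rw [hx0]
          exact (sgm_smoothAt (by simp)).continuousAt
        have c2 : ContinuousAt (fun a : ℝ × ℂ => sgm ((-(1 / 2) - (a.1 - m)) / ε)) (x, 0) :=
          ContinuousAt.comp (g := sgm) (f := fun a : ℝ × ℂ => (-(1 / 2) - (a.1 - m)) / ε) c1 c0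
        have c3 : ContinuousAt (fun a : ℝ × ℂ => MZ a.2) (x, 0) :=
          (MZ_smooth.continuous.comp continuous_snd).continuousAt
        have c4 : ContinuousAt (fun a : ℝ × ℂ =>
            3 * |sgm ((-(1 / 2) - (a.1 - m)) / ε)| - MZ a.2) (x, 0) :=
          (c2.abs.const_mul 3).sub c3
        refine c4.eventually_lt_const ?_
        show 3 * |sgm ((-(1 / 2) - (x - m)) / ε)| - MZ 0 < 0
        rw [hx0, MZ_zero]
        simp [sgm]
      have e4 : ∀ᶠ a : ℝ × ℂ in 𝓝 (x, 0), ‖a.2‖ < 1 / 32 := by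
        have c : ContinuousAt (fun a : ℝ × ℂ => ‖a.2‖) (x, 0) := by fun_prop
        exact c.eventually_lt_const (by simp)
      filter_upwards [e1, e2, e3, e4]
      rintro ⟨x', ζ⟩ b1 b2 b3 b4 ⟨hlt, hn⟩
      simp only at b1 b2 b3 b4 hlt hn
      have hd := LocTM_dl (ε := ε) (z := (x' : ℂ)) (y := x' - m) (c := -(1 / 2)) (m := m)
        (Or.inr rfl) (by rw [Complex.ofReal_re]; ring) b1
      obtain ⟨y, hy⟩ : ∃ y, y = (fr (x' : ℂ)).re := ⟨_, rfl⟩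
      rw [← hy] at hd hlt hn
      rw [← hd] at b2 b3
      obtain ⟨xh, hxh⟩ : ∃ xh, xh = nsi ε y := ⟨_, rfl⟩
      have hns : ns ε xh = y := by rw [hxh, ns_nsi h0 h1 hlt]
      rw [← hxh] at hn
      have hbig : 3 / 10 ≤ |xh| := by
        rw [dl, abs_div, abs_of_pos h0, div_lt_iff₀ h0] at b2
        by_cases hy0 : 0 < y
        · rw [if_pos hy0] at b2
          have b5 := (abs_lt.1 b2).2
          have : ns ε (3 / 10) < ns ε xh := by
            rw [ns_big le_rfl, hns]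
            nlinarith
          have := (ns_strictMono h0 h1).lt_iff_lt.1 this
          exact le_abs.2 (Or.inl this.le)
        · rw [if_neg hy0] at b2
          have b5 := (abs_lt.1 b2).1
          have : ns ε xh < ns ε (-(3 / 10)) := by
            rw [ns_neg, ns_big le_rfl, hns]
            nlinarith
          have := (ns_strictMono h0 h1).lt_iff_lt.1 this
          exact le_abs.2 (Or.inr (by linarith))
      have h7 := (dl_ns h0 h1 hbig).2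
      rw [hns] at h7
      rw [h7] at b3
      have hM := MZ_pos ζ
      have hsh : Real.sinh (2 * Real.pi * xh) ≠ 0 := by
        rw [Ne, Real.sinh_eq_zero]
        intro hc
        have hpi := Real.pi_pos
        have : xh = 0 := by
          rcases mul_eq_zero.1 hc with h | h
          · exfalso; linarith
          · exact h
        rw [this, abs_zero] at hbig
        linarith
      have h8 : 3 ≤ |MZ ζ * Real.sinh (2 * Real.pi * xh)| := by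
        rw [abs_mul, abs_of_pos hM]
        rw [abs_div, abs_one] at b3
        have h9 := abs_pos.2 hsh
        have h10 : 3 * (1 / |Real.sinh (2 * Real.pi * xh)|) < MZ ζ := by linarith
        rw [mul_one_div, div_lt_iff₀ h9] at h10
        exact h10.le
      have h9 := LocTM_big h0 h1 (by linarith) h8
      linarith
  · have habs : |x - m| < 1 / 2 := abs_lt.2 ⟨hx, hxm.2⟩
    by_cases hn : nr (X2 ε (nsi ε (x - m), 0)) < 4
    · exact LocTM_A h0 h1 h2 h3 hF q habs hn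
    · have hn' := not_lt.1 hn
      have hbig := (X2_big h0 h1 (ζ := 0) (by norm_num) (show 3 ≤ _ by linarith)).1
      have hd := (dl_ns h0 h1 hbig).1
      rw [ns_nsi h0 h1 habs] at hd
      have hout : ∀ᶠ a : ℝ × ℂ in 𝓝 (x, 0),
          ¬ (|(fr (a.1 : ℂ)).re| < 1 / 2 ∧ nr (X2 ε (nsi ε (fr (a.1 : ℂ)).re, a.2)) < 3) := by
        have e1 : ∀ᶠ a : ℝ × ℂ in 𝓝 (x, 0), |a.1 - m| < 1 / 2 := by
          have c : ContinuousAt (fun a : ℝ × ℂ => |a.1 - m|) (x, 0) := by fun_prop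
          exact c.eventually_lt_const habs
        have e2 : ∀ᶠ a : ℝ × ℂ in 𝓝 (x, 0), 3 < nr (X2 ε (nsi ε (a.1 - m), a.2)) :=
          (LocTM_X2_cont h0 h1 habs).eventually_const_lt (show 3 < nr (X2 ε (nsi ε (x - m), 0)) by
            linarith)
        filter_upwards [e1, e2]
        rintro ⟨x', ζ⟩ b1 b2 ⟨hlt, hn3⟩
        simp only at b1 b2 hlt hn3
        have b1' := abs_lt.1 b1
        rw [LocTM_fr_re m (by rw [Complex.ofReal_re]; ring) b1'.1.le b1'.2] at hn3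
        linarith
      rw [dl] at hd
      by_cases hpos : 0 < x - m
      · rw [if_pos hpos] at hd
        exact LocTM_B h0 h1 h2 h3 L F q (c := 1 / 2) (m := m) (Or.inl rfl) hd hout
      · rw [if_neg hpos] at hd
        exact LocTM_B h0 h1 h2 h3 L F q (c := -(1 / 2)) (m := m) (Or.inr rfl) hd hout

end Pool.Agent.TS
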