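import Pool.Agent.TS.RgBM

/-!
# TS/RgCM: every regular point of `L.Rg` is in the image of the new structure
See the header of TS/RgBM, `G_mem_Im`.
-/

open scoped Manifold ContDiff Topology
open Complex (I)
open Set Filter

namespace Pool.Agent.TS
open Pool.Agent.CSG

variable {X : Type*} [TopologicalSpace X] [ChartedSpace E4 X] {ε ρ : ℝ} {k e : ℤ}

theorem RgCM_sgm_yy (h0 : 0 < ε) (σ : ℝ) : sgm ((1 / 2 - yy ε σ) / ε) = σ :=
  yy_inj h0 (yy_surj h0 (yy_lt h0 σ))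

theorem RgCM_frre (h0 : 0 < ε) (h1 : ε ≤ 1 / 1000) {σ y : ℝ} (_hσ : σ ≠ 0)
    (hy : Real.sinh (2 * Real.pi * y) = 1 / σ) (h4 : 3 / 10 ≤ |y|) {z : ℂ} (hz : z.re = yy ε σ) :
    (fr z).re = ns ε y := by
  have h5 : 1 / Real.sinh (2 * Real.pi * y) = σ := by rw [hy, one_div_one_div]
  have hn := abs_lt.1 (ns_lt h0 h1 y)
  rw [fr_re, hz]
  rcases le_abs.1 h4 with h8 | h8
  · have h9 := ns_yy (ε := ε) h8
    rw [h5] at h9
    rw [← h9, rd_self hn.1.le hn.2]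
    simp
  · have h9 := ns_yy' (ε := ε) (x := y) (by linarith)
    rw [h5] at h9
    have h10 : yy ε σ = ns ε y + 1 := by rw [h9]; ring
    have h11 : round (yy ε σ) = 1 := by
      rw [h10, round_eq]
      have : ⌊ns ε y + 1 + 1 / 2⌋ = 1 := by
        rw [Int.floor_eq_iff]
        push_cast
        constructor <;> linarith [hn.1, hn.2]
      exact this
    rw [h11, h10]; simp

theorem RgCM_frre0 {z : ℂ} (hz : z.re = yy ε 0) : (fr z).re = -(1 / 2) := by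
  have h2 : yy ε 0 = 1 / 2 := by simp [yy]
  rw [fr_re, hz, h2]
  have : round (1 / 2 : ℝ) = 1 := by
    rw [round_eq]; norm_num
  rw [this]; norm_num

/-- `sinh (2 π y) = 1 / σ` has a solution, near the pole if `3 |σ| ≤ NN σ s` -/
theorem RgCM_y (h0 : 0 < ε) (h1 : ε ≤ 1 / 1000) {s σ : ℝ} (hs : 0 < s) (hs' : s ≤ 1 / 7)
    (hσ : σ ≠ 0) (h : 3 * |σ| ≤ NN σ (s : ℂ)) : ∃ y, Real.sinh (2 * Real.pi * y) = 1 / σ ∧
      3 / 10 ≤ |y| ∧ ∀ u : ℝ, 3 ≤ nr (X2 ε (y, s * ex u)) := by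
  have hpi := Real.pi_pos
  have h2 : Real.sinh (2 * Real.pi * (Real.arsinh (1 / σ) / (2 * Real.pi))) = 1 / σ := by
    rw [mul_div_cancel₀ _ (by positivity), Real.sinh_arsinh]
  have h3 : ∀ u : ℝ, 3 ≤ nr (X2 ε (Real.arsinh (1 / σ) / (2 * Real.pi), s * ex u)) :=
    fun u => X2_of_sigma h0 h1 hs hs' hσ h2 h
  refine ⟨_, h2, (X2_big h0 h1 ?_ (h3 0)).1, h3⟩
  rw [norm_mul, ex_norm, Complex.norm_real, Real.norm_of_nonneg hs.le, mul_one]
  exact hs'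

theorem RgCM_norm {s : ℝ} (hs : 0 ≤ s) (u : ℝ) : ‖(s : ℂ) * ex u‖ = s := by
  rw [norm_mul, ex_norm, Complex.norm_real, Real.norm_of_nonneg hs, mul_one]

theorem RgCM_NN {s : ℝ} (hs : 0 ≤ s) (σ u : ℝ) : NN σ ((s : ℂ) * ex u) = NN σ (s : ℂ) := by
  have h1 : ‖(s : ℂ) * ex u‖ = ‖(s : ℂ)‖ := by
    rw [RgCM_norm hs, Complex.norm_real, Real.norm_of_nonneg hs]
  rw [NN, NN, MZ_norm h1, h1]

theorem RgCM_NN_sq {s : ℝ} (σ : ℝ) : NN σ (s : ℂ) ^ 2 = s ^ 2 * σ ^ 2 + MZ (s : ℂ) ^ 2 := by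
  rw [NN, Real.sq_sqrt (by positivity), Complex.norm_real, Real.norm_eq_abs, sq_abs]

/-- `σ ↦ σ MZ / s` -/
theorem RgCM_up {s σ : ℝ} (hs : 0 < s) (h : 3 * |σ| ≤ s * √(1 + σ ^ 2)) :
    3 * |σ * MZ (s : ℂ) / s| ≤ NN (σ * MZ (s : ℂ) / s) (s : ℂ) := by
  have hM := MZ_pos (s : ℂ)
  have h2 : NN (σ * MZ (s : ℂ) / s) (s : ℂ) = MZ (s : ℂ) * √(1 + σ ^ 2) := by
    have h3 : NN (σ * MZ (s : ℂ) / s) (s : ℂ) ^ 2 = (MZ (s : ℂ) * √(1 + σ ^ 2)) ^ 2 := by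
      rw [RgCM_NN_sq, mul_pow, Real.sq_sqrt (by positivity)]
      field_simp
      ring
    exact (sq_eq_sq₀ (NN_pos _ _).le (by positivity)).1 h3
  rw [h2, abs_div, abs_mul, abs_of_pos hM, abs_of_pos hs, ← mul_div_assoc, div_le_iff₀ hs]
  nlinarith

/-- `σ ↦ σ s / MZ` -/
theorem RgCM_down {s σ : ℝ} (hs : 0 < s) (hs' : s ≤ 1 / 7) (h : 3 * |σ| ≤ NN σ (s : ℂ)) :
    3 * |σ * s / MZ (s : ℂ)| ≤ NN (σ * s / MZ (s : ℂ)) (s : ℂ) ∧
      3 * |σ * s / MZ (s : ℂ)| ≤ s * √(1 + (σ * s / MZ (s : ℂ)) ^ 2) := by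
  have hM := MZ_pos (s : ℂ)
  have hsM : s ≤ MZ (s : ℂ) := by
    have := norm_le_MZ (s : ℂ)
    rwa [Complex.norm_real, Real.norm_of_nonneg hs.le] at this
  have h2 : (3 * |σ|) ^ 2 ≤ NN σ (s : ℂ) ^ 2 :=
    pow_le_pow_left₀ (by positivity) h 2
  rw [RgCM_NN_sq, mul_pow, sq_abs] at h2
  have key : (3 * |σ * s / MZ (s : ℂ)|) ^ 2 ≤ (s * √(1 + (σ * s / MZ (s : ℂ)) ^ 2)) ^ 2 := by
    rw [mul_pow, sq_abs, mul_pow, Real.sq_sqrt (by positivity), div_pow]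
    rw [← sub_nonneg]
    have h4 : s ^ 2 * (1 + (σ * s) ^ 2 / MZ (s : ℂ) ^ 2) - 3 ^ 2 * ((σ * s) ^ 2 / MZ (s : ℂ) ^ 2) =
        s ^ 2 / MZ (s : ℂ) ^ 2 * (s ^ 2 * σ ^ 2 + MZ (s : ℂ) ^ 2 - 3 ^ 2 * σ ^ 2) := by
      field_simp
      ring
    rw [h4]
    exact mul_nonneg (by positivity) (by linarith)
  have hB : 3 * |σ * s / MZ (s : ℂ)| ≤ s * √(1 + (σ * s / MZ (s : ℂ)) ^ 2) :=
    (sq_le_sq₀ (by positivity) (by positivity)).1 key
  refine ⟨?_, hB⟩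
  refine hB.trans ?_
  refine (sq_le_sq₀ (by positivity) (NN_pos _ _).le).1 ?_
  rw [RgCM_NN_sq, mul_pow, Real.sq_sqrt (by positivity)]
  have : s ^ 2 ≤ MZ (s : ℂ) ^ 2 := pow_le_pow_left₀ hs.le hsM 2
  linarith

/-- `sech` in terms of `σ = 1 / sinh` -/
theorem RgCM_sech {σ y : ℝ} (hσ : σ ≠ 0) (hy : Real.sinh (2 * Real.pi * y) = 1 / σ) :
    sech (2 * Real.pi * y) * √(1 + σ ^ 2) = |σ| := by
  have h1 : Real.cosh (2 * Real.pi * y) = √(1 + σ ^ 2) / |σ| := by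
    have h2 := Real.cosh_sq (2 * Real.pi * y)
    have h3 : Real.cosh (2 * Real.pi * y) ^ 2 = (√(1 + σ ^ 2) / |σ|) ^ 2 := by
      rw [h2, hy, div_pow, div_pow, Real.sq_sqrt (by positivity : (0 : ℝ) ≤ 1 + σ ^ 2), sq_abs]
      field_simp
    exact (sq_eq_sq₀ (Real.cosh_pos _).le (by positivity)).1 h3
  have h4 : (0 : ℝ) < √(1 + σ ^ 2) := Real.sqrt_pos.2 (by positivity)
  have h5 : 0 < |σ| := abs_pos.2 hσ
  rw [sech, h1]
  field_simp

/-- a small nonzero number is not in `GI` -/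
theorem RgCM_notGI {z : ℂ} (h : z ≠ 0) (h' : ‖z‖ < 1) : z ∉ GI := fun hz => h (GI_norm_lt hz h')

theorem RgCM_yy_notGI (h0 : 0 < ε) (h1 : ε ≤ 1 / 1000) {σ : ℝ} {z : ℂ} (hz : z.re = yy ε σ) :
    z ∉ GI := by
  intro h
  obtain ⟨⟨a, ha⟩, -⟩ := mem_GI.1 h
  have h2 := abs_lt.1 (yy_lt h0 σ)
  rw [← hz, ha] at h2
  have h3 : (0 : ℝ) < a := by linarith [h2.1]
  have h4 : (a : ℝ) < 1 := by linarith [h2.2]
  have h5 : 0 < a := by exact_mod_cast h3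
  have h6 : a < 1 := by exact_mod_cast h4
  omega

/-- polar form -/
theorem RgCM_polar (h0 : 0 < ε) (z : ℂ) :
    (ε : ℂ) * ((‖z‖ / ε : ℝ) : ℂ) * ex (Complex.arg z / (2 * Real.pi)) = z := by
  have h2 : (ε : ℂ) * ((‖z‖ / ε : ℝ) : ℂ) = (‖z‖ : ℂ) := by
    have : (ε : ℂ) ≠ 0 := by exact_mod_cast h0.ne'
    push_cast
    field_simp
  rw [h2, ex_arg]

/-- the argument of `ε s ex a` -/
theorem RgCM_arg (h0 : 0 < ε) {s : ℝ} (hs : 0 < s) (a : ℝ) :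
    ∃ n : ℤ, Complex.arg ((ε : ℂ) * s * ex a) / (2 * Real.pi) = a + n := by
  have h2 := ex_arg ((ε : ℂ) * s * ex a)
  have h3 : ‖(ε : ℂ) * s * ex a‖ = ε * s := by
    rw [norm_mul, norm_mul, ex_norm, Complex.norm_real, Complex.norm_real,
      Real.norm_of_nonneg h0.le, Real.norm_of_nonneg hs.le, mul_one]
  rw [h3] at h2
  have h4 : ((ε * s : ℝ) : ℂ) ≠ 0 := by exact_mod_cast (mul_pos h0 hs).ne'
  have h5 : ((ε * s : ℝ) : ℂ) * ex (Complex.arg ((ε : ℂ) * s * ex a) / (2 * Real.pi)) =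
      ((ε * s : ℝ) : ℂ) * ex a := by
    rw [h2]; push_cast; ring
  have h6 := mul_left_cancel₀ h4 h5
  obtain ⟨n, hn⟩ := ex_eq_iff.1 h6.symm
  exact ⟨n, hn⟩

theorem RgCM_norm3 (h0 : 0 < ε) {s : ℝ} (hs : 0 < s) (a : ℝ) : ‖(ε : ℂ) * s * ex a‖ = ε * s := by
  rw [norm_mul, norm_mul, ex_norm, Complex.norm_real, Complex.norm_real,
    Real.norm_of_nonneg h0.le, Real.norm_of_nonneg hs.le, mul_one]

/-- `P.re` is `yy ε σ'` up to an integer -/
theorem RgCM_yydl (h0 : 0 < ε) {x : ℝ} (h : |dl ε x| < 1) :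
    ∃ n : ℤ, yy ε (sgm (dl ε x)) = x + n := by
  rw [yy_sgm h, dl]
  split_ifs with hx
  · refine ⟨0, ?_⟩
    rw [mul_div_cancel₀ _ h0.ne']; push_cast; ring
  · refine ⟨1, ?_⟩
    rw [mul_div_cancel₀ _ h0.ne']; push_cast; ring

theorem RgCM_G_shift (L : LS ε ρ k e X) {P R : ℂ} (hW : (P, R) ∈ Wd ρ) {x : ℝ} {n : ℤ}
    (hx : x = P.re + n) : L.G ((x : ℂ) + (P.im : ℝ) * I, R) = L.G (P, R) := by
  have h2 : (x : ℂ) + (P.im : ℝ) * I = P + ((n : ℂ) + (0 : ℤ) * I) := by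
    apply Complex.ext <;> simp [hx]
  have h3 := L.G_per P R ((n : ℂ) + (0 : ℤ) * I) 0 hW (GI_mk n 0) GI_zero
  rw [add_zero] at h3
  rw [h2, h3]

theorem RgCM_G_shift' (L : LS ε ρ k e X) {P R : ℂ} (hW : (P, R) ∈ Wd ρ) {x : ℝ} {n : ℤ}
    (hx : x = R.re + n) : L.G (P, (x : ℂ) + (R.im : ℝ) * I) = L.G (P, R) := by
  have h2 : (x : ℂ) + (R.im : ℝ) * I = R + ((n : ℂ) + (0 : ℤ) * I) := by
    apply Complex.ext <;> simp [hx]
  have h3 := L.G_per P R 0 ((n : ℂ) + (0 : ℤ) * I) hW GI_zero (GI_mk n 0)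
  rw [add_zero] at h3
  rw [h2, h3]

theorem RgCM_half {x : ℝ} (h1 : -(1 / 2) ≤ x) (h2 : x < 1 / 2) (h : ¬ |x| < 1 / 2) :
    x = -(1 / 2) := by
  rcases le_or_gt x (-(1 / 2)) with h8 | h8
  · linarith
  · exact absurd (abs_lt.2 ⟨h8, h2⟩) h

theorem RgCM_dl0 (ε : ℝ) : dl ε (-(1 / 2)) = 0 := by
  rw [dl]; norm_num

/-- (a) -/
theorem RgCM_a (h0 : 0 < ε) (h1 : ε ≤ 1 / 1000) (h2 : 5 * ε < ρ) (h3 : ρ ≤ 1 / 8)
    {L : LS ε ρ k e X} {F : ℂ × ℂ → X} (hF : IsF L F) {P R : ℂ} (hP0 : P ≠ 0) (hP : ‖P‖ < 3 * ε)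
    (hR : |R.re| < 1 / 2) (hn : nr (X2 ε (nsi ε R.re, zT ε P R)) < 3) : ImB L F (L.G (P, R)) := by
  have hs : 0 < ‖P‖ / ε := div_pos (norm_pos_iff.2 hP0) h0
  have hs5 : ‖P‖ / ε < 5 := by rw [div_lt_iff₀ h0]; linarith
  have h4 := fT_G L (Complex.arg P / (2 * Real.pi) - e * twc (((‖P‖ / ε : ℝ) : ℂ) * ex R.im) -
    e * R.im) (nsi ε R.re) R.im hs hs5
  have h5 : Complex.arg P / (2 * Real.pi) - e * twc (((‖P‖ / ε : ℝ) : ℂ) * ex R.im) -
    e * R.im + e * twc (((‖P‖ / ε : ℝ) : ℂ) * ex R.im) + e * R.im =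
      Complex.arg P / (2 * Real.pi) := by ring
  rw [h5, RgCM_polar h0, ns_nsi h0 h1 hR, Complex.re_add_im] at h4
  rw [← h4]
  have h6 := hF.T (Complex.arg P / (2 * Real.pi) - e * twc (((‖P‖ / ε : ℝ) : ℂ) * ex R.im) -
    e * R.im) (nsi ε R.re) (((‖P‖ / ε : ℝ) : ℂ) * ex R.im) (lt_trans hn (by norm_num))
  rw [← h6]
  refine F_mem_Im h0 h1 h2 h3 hF ?_
  rw [OmT_far (by norm_num)]
  rintro ⟨h7, -⟩
  exact absurd hn (not_lt.2 h7)

/-- (b) -/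
theorem RgCM_b (h0 : 0 < ε) (h1 : ε ≤ 1 / 1000) (h2 : 5 * ε < ρ) (h3 : ρ ≤ 1 / 8)
    {L : LS ε ρ k e X} {F : ℂ × ℂ → X} (hF : IsF L F) {P R : ℂ}
    (hP : 3 * ε ≤ ‖fr P‖) (hPre : |P.re| < 1 / 2) (hR : ‖R‖ < 3 * ε * ww (nsi ε P.re)) :
    ImB L F (L.G (P, R)) := by
  have hw := ww_pos (nsi ε P.re)
  have hew : 0 < ε * ww (nsi ε P.re) := mul_pos h0 hw
  have hE := E2_T h0 h1 hPre (c := 3) (by norm_num) (by norm_num) hP
  norm_num at hE
  have hν : ‖nT ε k R P‖ < 3 := by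
    rw [nT, norm_div, norm_mul, ex_norm, Complex.norm_real, Real.norm_of_nonneg hew.le, mul_one,
      div_lt_iff₀ hew]
    linarith
  have h6 := hF.C ((nsi ε P.re : ℂ) + P.im * I) (nT ε k R P) (by linarith) (by linarith)
  have hre : ((nsi ε P.re : ℂ) + P.im * I).re = nsi ε P.re := by simp
  have him : ((nsi ε P.re : ℂ) + P.im * I).im = P.im := by simp
  have h7 : fC L ((nsi ε P.re : ℂ) + P.im * I, nT ε k R P) = L.G (P, R) := by
    rw [fC]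
    simp only [hre, him]
    congr 1
    refine Prod.ext ?_ ?_
    · show (ns ε (nsi ε P.re) : ℂ) + P.im * I = P
      rw [ns_nsi h0 h1 hPre, Complex.re_add_im]
    · show ((ε * ww (nsi ε P.re) : ℝ) : ℂ) * ex (k * thc P.im) * nT ε k R P = R
      have h8 : ((ε * ww (nsi ε P.re) : ℝ) : ℂ) ≠ 0 := by exact_mod_cast hew.ne'
      have h9 : ex (k * thc P.im) * ex (-(k * thc P.im)) = 1 := by
        rw [← ex_add, add_neg_cancel]
        simpa using ex_int 0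
      rw [nT]
      calc ((ε * ww (nsi ε P.re) : ℝ) : ℂ) * ex (k * thc P.im) *
            (R * ex (-(k * thc P.im)) / ((ε * ww (nsi ε P.re) : ℝ) : ℂ))
          = R * (ex (k * thc P.im) * ex (-(k * thc P.im))) *
            (((ε * ww (nsi ε P.re) : ℝ) : ℂ) / ((ε * ww (nsi ε P.re) : ℝ) : ℂ)) := by ring
        _ = R := by rw [h9, div_self h8, mul_one, mul_one]
  rw [← h7, ← h6]
  refine F_mem_Im h0 h1 h2 h3 hF ?_
  rw [OmC_far h0 h1 (by norm_num) _ (by linarith)]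
  rintro ⟨h8, -⟩
  linarith

/-- (c1b) -/
theorem RgCM_c1 (h0 : 0 < ε) (h1 : ε ≤ 1 / 1000) (h2 : 5 * ε < ρ) (h3 : ρ ≤ 1 / 8)
    (L : LS ε ρ k e X) (F : ℂ × ℂ → X) {P R : ℂ} (hW : (P, R) ∈ Wd ρ) (hPf : fr P = P)
    (hR0 : R ≠ 0) (hR : ‖R‖ < ε / 8) (hd : |dl ε P.re| < 1)
    (hσ : 3 * |sgm (dl ε P.re)| ≤ ‖R‖ / ε * √(1 + sgm (dl ε P.re) ^ 2)) :
    ImB L F (L.G (P, R)) := by
  have hs : 0 < ‖R‖ / ε := div_pos (norm_pos_iff.2 hR0) h0
  have hs8 : ‖R‖ / ε < 1 / 8 := by rw [div_lt_iff₀ h0]; linarith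
  set s : ℝ := ‖R‖ / ε with hsdef
  set t : ℝ := P.im with htdef
  have hM := MZ_pos (s : ℂ)
  set σ : ℝ := sgm (dl ε P.re) * MZ (s : ℂ) / s with hσdef
  have hN : 3 * |σ| ≤ NN σ (s : ℂ) := RgCM_up hs hσ
  set q : ℝ := Complex.arg R / (2 * Real.pi) - k * thc t with hq
  set r : ℂ := (ε : ℂ) * s * ex (q + k * t + k * twc ((s : ℂ) * ex t)) with hr
  set p : ℂ := (yy ε σ : ℂ) + (t : ℝ) * I with hp
  have hpre : p.re = yy ε σ := by simp [hp]
  have hpim : p.im = t := by simp [hp]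
  have hrn : ‖r‖ = ε * s := RgCM_norm3 h0 hs _
  have hεs : ε * s = ‖R‖ := by rw [hsdef, mul_div_cancel₀ _ h0.ne']
  have hr8 : ‖r‖ < ε / 8 := by rw [hrn, hεs]; exact hR
  have hr0 : r ≠ 0 := by
    rw [← norm_pos_iff, hrn]; positivity
  have htm := fr_im_mem P
  rw [hPf] at htm
  have hfrpim : (fr p).im = t := by
    rw [fr_im, hpim, rd_self htm.1 htm.2]; simp
  have hz : zK ε p r = (s : ℂ) * ex t := by
    rw [zK, hrn, hpim, mul_div_cancel_left₀ _ h0.ne']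
  have hz' : zK ε (fr p) r = (s : ℂ) * ex t := by
    rw [zK, hrn, hfrpim, mul_div_cancel_left₀ _ h0.ne']
  have hout : ¬ InK ε (fr p) r := by
    rintro ⟨ha, hb⟩
    rw [hz'] at hb
    by_cases hσ0 : σ = 0
    · have hpre0 := hpre
      rw [hσ0] at hpre0
      rw [RgCM_frre0 hpre0] at ha
      norm_num at ha
    · obtain ⟨y, hy1, hy2, hy3⟩ := RgCM_y h0 h1 hs (by linarith) hσ0 hN
      rw [RgCM_frre h0 h1 hσ0 hy1 hy2 hpre, nsi_ns h0 h1] at hb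
      linarith [hy3 t]
  have hyl := yy_lt h0 σ
  have h4 := GB_eq_oK h0 h2 h3 L F hr8 (Or.inl rfl) (p := p) (by rw [hpre]; linarith) hout
  rw [hpre, RgCM_sgm_yy h0, hz] at h4
  obtain ⟨n, hn⟩ := RgCM_arg h0 hs (q + k * t + k * twc ((s : ℂ) * ex t))
  have hqK : qK ε k p r = q + n := by
    rw [qK, hz, hpim, ← hr] at *
    rw [hn]; ring
  have hTr := norm_TrS (σ := σ) (ζ := (s : ℂ) * ex t) (by rw [RgCM_NN hs.le]; exact hN)
    (by rw [RgCM_norm hs.le]; linarith)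
  rw [hqK, jKb_per, jKb_TrS L q σ t hs (by linarith)] at h4
  have h5 : σ * s / MZ (s : ℂ) = sgm (dl ε P.re) := by
    rw [hσdef]; field_simp
  have h6 : (ε : ℂ) * s * ex (q + k * thc t) = R := by
    have : q + k * thc t = Complex.arg R / (2 * Real.pi) := by rw [hq]; ring
    rw [this, hsdef, RgCM_polar h0]
  rw [h5, h6] at h4
  obtain ⟨m, hm⟩ := RgCM_yydl h0 hd
  rw [RgCM_G_shift L hW hm] at h4
  refine Or.inl ⟨p, r, Or.inr ?_, RgCM_notGI hr0 (by linarith), ?_, h4.symm⟩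
  · rw [fr_self' (by linarith)]; linarith
  · rintro ⟨h7, -⟩
    exact RgCM_yy_notGI h0 h1 hpre h7

/-- (c2b) -/
theorem RgCM_c2 (h0 : 0 < ε) (h1 : ε ≤ 1 / 1000) (h2 : 5 * ε < ρ) (h3 : ρ ≤ 1 / 8)
    (L : LS ε ρ k e X) (F : ℂ × ℂ → X) {P R : ℂ} (hW : (P, R) ∈ Wd ρ) (hRf : fr R = R)
    (hP0 : P ≠ 0) (hP : ‖P‖ < ε / 8) (hd : |dl ε R.re| < 1)
    (hσ : 3 * |sgm (dl ε R.re)| ≤ NN (sgm (dl ε R.re)) ((‖P‖ / ε : ℝ) : ℂ)) :
    ImB L F (L.G (P, R)) := by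
  have hs : 0 < ‖P‖ / ε := div_pos (norm_pos_iff.2 hP0) h0
  have hs8 : ‖P‖ / ε < 1 / 8 := by rw [div_lt_iff₀ h0]; linarith
  set s : ℝ := ‖P‖ / ε with hsdef
  set u : ℝ := R.im with hudef
  have hM := MZ_pos (s : ℂ)
  set σ : ℝ := sgm (dl ε R.re) * s / MZ (s : ℂ) with hσdef
  obtain ⟨hN, hB⟩ := RgCM_down hs (by linarith) hσ
  rw [← hσdef] at hN hB
  set q : ℝ := Complex.arg P / (2 * Real.pi) - e * twc ((s : ℂ) * ex u) - e * u with hq
  set p : ℂ := (ε : ℂ) * s * ex (q + e * thc u) with hp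
  set r : ℂ := (yy ε σ : ℂ) + (u : ℝ) * I with hr
  have hrre : r.re = yy ε σ := by simp [hr]
  have hrim : r.im = u := by simp [hr]
  have hpn : ‖p‖ = ε * s := RgCM_norm3 h0 hs _
  have hεs : ε * s = ‖P‖ := by rw [hsdef, mul_div_cancel₀ _ h0.ne']
  have hp8 : ‖p‖ < ε / 8 := by rw [hpn, hεs]; exact hP
  have hp0 : p ≠ 0 := by
    rw [← norm_pos_iff, hpn]; positivity
  have hz : zT ε p r = (s : ℂ) * ex u := by
    rw [zT, hpn, hrim, mul_div_cancel_left₀ _ h0.ne']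
  have hout : ¬ InT ε p (fr r) := by
    rintro ⟨ha, hb⟩
    by_cases hσ0 : σ = 0
    · have hpre0 := hrre
      rw [hσ0] at hpre0
      rw [RgCM_frre0 hpre0] at ha
      norm_num at ha
    · obtain ⟨y, hy1, hy2, hy3⟩ := RgCM_y h0 h1 hs (by linarith) hσ0 hN
      rw [RgCM_frre h0 h1 hσ0 hy1 hy2 hrre, nsi_ns h0 h1, ww_big (by linarith), hpn] at hb
      have h5 := RgCM_sech hσ0 hy1
      have h6 : (0 : ℝ) < √(1 + σ ^ 2) := Real.sqrt_pos.2 (by positivity)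
      have h7 : s < 3 * sech (2 * Real.pi * y) := by
        have : ε * s < ε * (3 * sech (2 * Real.pi * y)) := by linarith
        exact lt_of_mul_lt_mul_left this h0.le
      have h8 := mul_lt_mul_of_pos_right h7 h6
      rw [mul_assoc, h5] at h8
      linarith
  have hyl := yy_lt h0 σ
  have h4 := GB_eq_oT h0 h2 h3 L F hp8 (Or.inl rfl) (r := r) (by rw [hrre]; linarith) hout
  rw [hrre, RgCM_sgm_yy h0, hz, RgCM_norm hs.le] at h4
  obtain ⟨n, hn⟩ := RgCM_arg h0 hs (q + e * thc u)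
  have hqT : qT e p r = q + n := by
    rw [qT, hrim, hp, hn]; ring
  have hMe : MZ ((s : ℂ) * ex u) = MZ (s : ℂ) := by
    apply MZ_norm
    rw [RgCM_norm hs.le, Complex.norm_real, Real.norm_of_nonneg hs.le]
  have h5 : σ * MZ (s : ℂ) / s = sgm (dl ε R.re) := by
    rw [hσdef]; field_simp
  rw [hqT, jTb_per, hMe, h5, jTb_G L q _ u hs (by linarith)] at h4
  have h6 : (ε : ℂ) * s * ex (q + e * twc ((s : ℂ) * ex u) + e * u) = P := by
    have : q + e * twc ((s : ℂ) * ex u) + e * u = Complex.arg P / (2 * Real.pi) := by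
      rw [hq]; ring
    rw [this, hsdef, RgCM_polar h0]
  rw [h6] at h4
  obtain ⟨m, hm⟩ := RgCM_yydl h0 hd
  rw [RgCM_G_shift' L hW hm] at h4
  refine Or.inl ⟨p, r, Or.inl ?_, RgCM_yy_notGI h0 h1 hrre, ?_, h4.symm⟩
  · rw [fr_self' (by linarith)]; linarith
  · rintro ⟨h7, -⟩
    exact RgCM_notGI hp0 (by linarith) h7

theorem RgCM_red (h0 : 0 < ε) (h1 : ε ≤ 1 / 1000) (h2 : 5 * ε < ρ) (h3 : ρ ≤ 1 / 8)
    {L : LS ε ρ k e X} {F : ℂ × ℂ → X} (hF : IsF L F) {P R : ℂ} (hPf : fr P = P) (hRf : fr R = R)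
    (hn : ‖P‖ < 3 * ε ∨ ‖R‖ < 3 * ε) (hreg : Reg ρ P R) : ImB L F (L.G (P, R)) := by
  have hP0 : P ≠ 0 := by
    rintro rfl
    exact hreg.2.1 GI_zero
  by_cases hP : ‖P‖ < 3 * ε
  · by_cases ha : |R.re| < 1 / 2 ∧ nr (X2 ε (nsi ε R.re, zT ε P R)) < 3
    · exact RgCM_a h0 h1 h2 h3 hF hP0 hP ha.1 ha.2
    · have hR : 3 * ε ≤ ‖R‖ := by
        by_contra hcon
        exact ha (InK_corner' h0 h1 (by linarith [not_le.1 hcon]) hP)
      have hR0 : R ≠ 0 := by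
        rw [← norm_pos_iff]; linarith
      have hRG : R ∉ GI := by
        intro h
        rw [← fr_eq_zero, hRf] at h
        exact hR0 h
      by_cases h8 : ε / 8 ≤ ‖P‖
      · have h4 : GB L F (P, R) = L.G (P, R) := by
          refine GB_eq_G h0 h2 h3 L F hreg.1 ?_ ?_
          · intro h
            rw [hRf] at h
            linarith
          · intro _ _
            rw [hPf, hRf]
            refine ⟨h8, ?_⟩
            rintro ⟨hc, hd⟩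
            have h5 : 3 ≤ nr (X2 ε (nsi ε R.re, ((‖P‖ / ε : ℝ) : ℂ) * ex R.im)) := by
              by_contra hcon
              exact ha ⟨hc, not_le.1 hcon⟩
            rw [X2_big_Z h0 h1 (by rw [le_div_iff₀ h0]; linarith), le_div_iff₀ h0] at h5
            linarith
        rw [← h4]
        refine Or.inl ⟨P, R, Or.inl (by rw [hPf]; exact hP), hRG, ?_, rfl⟩
        rintro ⟨h5, -⟩
        exact hreg.2.1 h5
      · have h8' : ‖P‖ < ε / 8 := not_le.1 h8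
        have hs : 0 < ‖P‖ / ε := div_pos (norm_pos_iff.2 hP0) h0
        have hs8 : ‖P‖ / ε < 1 / 8 := by rw [div_lt_iff₀ h0]; linarith
        by_cases hc : |R.re| < 1 / 2
        · have h5 : 3 ≤ nr (X2 ε (nsi ε R.re, ((‖P‖ / ε : ℝ) : ℂ) * ex R.im)) := by
            by_contra hcon
            exact ha ⟨hc, not_le.1 hcon⟩
          obtain ⟨h6, h7⟩ := X2_big h0 h1 (by rw [RgCM_norm hs.le]; linarith) h5
          obtain ⟨h9, h10⟩ := dl_ns h0 h1 h6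
          rw [ns_nsi h0 h1 hc] at h9 h10
          rw [← h10, RgCM_NN hs.le] at h7
          exact RgCM_c2 h0 h1 h2 h3 L F hreg.1 hRf hP0 h8' h9 h7
        · have hm := fr_re_mem R
          rw [hRf] at hm
          have h5 := RgCM_half hm.1 hm.2 hc
          refine RgCM_c2 h0 h1 h2 h3 L F hreg.1 hRf hP0 h8' ?_ ?_
          · rw [h5, RgCM_dl0]; norm_num
          · rw [h5, RgCM_dl0]
            have : sgm 0 = 0 := by simp [sgm]
            rw [this, abs_zero, mul_zero]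
            exact (NN_pos _ _).le
  · have hR : ‖R‖ < 3 * ε := hn.resolve_left hP
    have hP3 : 3 * ε ≤ ‖P‖ := not_lt.1 hP
    by_cases hb : |P.re| < 1 / 2 ∧ ‖R‖ < 3 * ε * ww (nsi ε P.re)
    · exact RgCM_b h0 h1 h2 h3 hF (by rw [hPf]; exact hP3) hb.1 hb.2
    · by_cases h8 : ε / 8 ≤ ‖R‖
      · have hR0 : R ≠ 0 := by
          rw [← norm_pos_iff]; linarith
        have hRG : R ∉ GI := by
          intro h
          rw [← fr_eq_zero, hRf] at h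
          exact hR0 h
        have h4 : GB L F (P, R) = L.G (P, R) := by
          refine GB_eq_G h0 h2 h3 L F hreg.1 ?_ ?_
          · intro _
            rw [hPf, hRf]
            refine ⟨h8, ?_⟩
            rintro ⟨hc, hd⟩
            have h5 : 3 * ε * ww (nsi ε P.re) ≤ ‖R‖ := by
              by_contra hcon
              exact hb ⟨hc, not_le.1 hcon⟩
            have h6 : 3 ≤ nr (X2 ε (nsi ε P.re, ((‖R‖ / ε : ℝ) : ℂ) * ex P.im)) := by
              rw [X2_big_Z h0 h1 (by rw [le_div_iff₀ h0]; linarith), le_div_iff₀ h0]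
              linarith
            exact absurd hd (not_lt.2 h6)
          · intro h
            rw [hRf] at h
            linarith
        rw [← h4]
        refine Or.inl ⟨P, R, Or.inr (by rw [hRf]; exact hR), hRG, ?_, rfl⟩
        rintro ⟨h5, -⟩
        exact hreg.2.1 h5
      · have h8' : ‖R‖ < ε / 8 := not_le.1 h8
        have hm := fr_re_mem P
        rw [hPf] at hm
        have hR0 : R ≠ 0 := by
          rintro rfl
          by_cases hc : |P.re| < 1 / 2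
          · exact hb ⟨hc, by rw [norm_zero]; have := ww_pos (nsi ε P.re); positivity⟩
          · have h5 := RgCM_half hm.1 hm.2 hc
            exact hreg.2.2 ⟨GI_zero, -1, by rw [h5]; norm_num⟩
        have hs : 0 < ‖R‖ / ε := div_pos (norm_pos_iff.2 hR0) h0
        have hs8 : ‖R‖ / ε < 1 / 8 := by rw [div_lt_iff₀ h0]; linarith
        by_cases hc : |P.re| < 1 / 2
        · have h5 : 3 * ε * ww (nsi ε P.re) ≤ ‖R‖ := by
            by_contra hcon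
            exact hb ⟨hc, not_le.1 hcon⟩
          have hw := ww_pos (nsi ε P.re)
          have h5' : 3 ≤ ‖R‖ / ε / ww (nsi ε P.re) := by
            rw [le_div_iff₀ hw, le_div_iff₀ h0]; linarith
          obtain ⟨h6, h7⟩ := ww_pole hs (by linarith) (le_trans (by norm_num) h5')
          obtain ⟨h9, h10⟩ := dl_ns h0 h1 h6
          rw [ns_nsi h0 h1 hc] at h9 h10
          refine RgCM_c1 h0 h1 h2 h3 L F hreg.1 hPf hR0 h8' h9 ?_
          have hsinh : Real.sinh (2 * Real.pi * nsi ε P.re) ≠ 0 := by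
            intro h
            rw [Real.sinh_eq_zero] at h
            have hpi := Real.pi_pos
            have : nsi ε P.re = 0 := by
              rcases mul_eq_zero.1 h with h' | h'
              · linarith
              · exact h'
            rw [this] at h6
            norm_num at h6
          have hσ0 : sgm (dl ε P.re) ≠ 0 := by
            rw [h10]; exact one_div_ne_zero hsinh
          have h11 : Real.sinh (2 * Real.pi * nsi ε P.re) = 1 / sgm (dl ε P.re) := by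
            rw [h10, one_div_one_div]
          rw [← RgCM_sech hσ0 h11, ← h7, ← mul_assoc]
          refine mul_le_mul_of_nonneg_right ?_ (Real.sqrt_nonneg _)
          rw [le_div_iff₀ h0]; linarith
        · have h5 := RgCM_half hm.1 hm.2 hc
          refine RgCM_c1 h0 h1 h2 h3 L F hreg.1 hPf hR0 h8' ?_ ?_
          · rw [h5, RgCM_dl0]; norm_num
          · rw [h5, RgCM_dl0]
            have : sgm 0 = 0 := by simp [sgm]
            rw [this, abs_zero, mul_zero]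
            positivity

theorem RgCM_Wd (h2 : 5 * ε < ρ) (h0 : 0 < ε) {p r : ℂ} (hn : ‖fr p‖ < 3 * ε ∨ ‖fr r‖ < 3 * ε) :
    (p, r) ∈ Wd ρ := by
  rcases hn with h | h
  · exact Or.inl (by show ‖fr p‖ < ρ; linarith)
  · exact Or.inr (by show ‖fr r‖ < ρ; linarith)

theorem G_mem_Im (h0 : 0 < ε) (h1 : ε ≤ 1 / 1000) (h2 : 5 * ε < ρ) (h3 : ρ ≤ 1 / 8)
    {L : LS ε ρ k e X} {F : ℂ × ℂ → X} (hF : IsF L F) {P R : ℂ}
    (hn : ‖fr P‖ < 3 * ε ∨ ‖fr R‖ < 3 * ε) (hP : P ∉ GI) (hC : ¬ OnCK P R) :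
    ImB L F (L.G (P, R)) := by
  have hW : (P, R) ∈ Wd ρ := RgCM_Wd h2 h0 hn
  have hreg : Reg ρ P R := ⟨hW, hP, hC⟩
  rw [← G_fr L hW]
  exact RgCM_red h0 h1 h2 h3 hF (fr_fr P) (fr_fr R) hn (Reg_fr.2 hreg)

theorem Im_sub_Rg (h0 : 0 < ε) (h1 : ε ≤ 1 / 1000) (h2 : 5 * ε < ρ) (h3 : ρ ≤ 1 / 8)
    {L : LS ε ρ k e X} {F : ℂ × ℂ → X} (hF : IsF L F) {x : X} (hx : ImB L F x) : x ∈ L.Rg := by
  rcases hx with ⟨p, r, hn, hr, hC, rfl⟩ | ⟨Y, rfl⟩ | ⟨q, y, rfl⟩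
  · have hreg : RegB ρ p r := ⟨RgCM_Wd h2 h0 hn, hr, hC⟩
    have hR := CoreM_Reg hreg
    by_cases hin : InB ε (fr p) (fr r)
    · have h4 : GB L F (p, r) = F (bB ε k e (fr p) (fr r)) := by
        rw [GB]
        exact GB₀_in hin
      rw [h4]
      exact F_mem_Rg h0 h1 h2 h3 hF (bB_notFar h0 h1 (fr_fr p) (fr_fr r) hin)
    · obtain ⟨P, R, h4, h5, h6, h7⟩ := out_G h0 h1 h2 h3 L F (fr_fr p) (fr_fr r) hR hin
      have h8 : GB L F (p, r) = L.G (P, R) := h6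
      rw [h8]
      exact Or.inl ⟨P, R, h7 hn, h4.2.1, h4.2.2, rfl⟩
  · by_cases hY : InCK Y
    · obtain ⟨sg, ν, hs, hν, -, hc⟩ := CoreM_cKB_in L F hY
      rw [hc]
      exact F_mem_Rg h0 h1 h2 h3 hF (coreK_notFar h0 h1 hs hν)
    · obtain ⟨q, y, -, hy⟩ := cKB_out h0 h1 L F hY
      rw [hy]
      exact Or.inr (Or.inr ⟨q, y, rfl⟩)
  · by_cases hy : InCT ε y
    · rw [CoreM_cTB_in L F hy]
      exact F_mem_Rg h0 h1 h2 h3 hF (coreT_notFar h0 h1 hy.2)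
    · obtain ⟨Y, -, hY⟩ := cTB_out h0 h1 L F (q := q) hy
      rw [hY]
      exact Or.inr (Or.inl ⟨Y, rfl⟩)

end Pool.Agent.TS
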