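import Pool.Agent.TS.FExM
import Pool.Agent.TS.GBM
import Pool.Agent.TS.CorMid
import Pool.Agent.TS.LocTM
import Pool.Agent.TS.LocKM
import Pool.Agent.TS.RgCM
import Pool.Agent.TS.OfCoreM

/-!
# TS/Swap: the local theorem
`exists_F`; `exists_LS` with `k := e`, `e := k`, `G a := GB L F (a.2, a.1)`, `cK := cKB L F`, `cT := cTB L F`
(`RegB_iff`; composition with the swap of the factors is a local diffeomorphism; `Wd` is symmetric).
`L'.Rg = L.Rg`: `L'.Rg` is `{x | ImB L F x}` (up to exchanging the variables), `Im_sub_Rg`, `G_mem_Im`, `core_mem_Im`.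
Far: `GB_G0` (`3 ε ≤` implies `2 ε <`).
-/

open scoped Manifold ContDiff Topology
open Complex (I)
open Set Filter

namespace Pool.Agent.TS
open Pool.Agent.CSG

theorem swap (X : Type*) [TopologicalSpace X] [ChartedSpace E4 X] : SwapStatement X := by
  intro ε ρ k e h0 h1 h2 h3 L
  obtain ⟨F, hF⟩ := exists_F h0 h1 h2 h3 L
  have hswap : ∀ a : ℂ × ℂ, IsLocalDiffeomorphAt 𝓘(ℝ, ℂ × ℂ) 𝓘(ℝ, ℂ × ℂ) ∞
      (fun a : ℂ × ℂ => (a.2, a.1)) a := by
    intro a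
    exact ld_of_perm (f := (⟨fun a : ℂ × ℂ => (a.2, a.1), fun a : ℂ × ℂ => (a.2, a.1),
      fun a => rfl, fun a => rfl⟩ : ℂ × ℂ ≃ ℂ × ℂ)) (contDiff_snd.prodMk contDiff_fst)
      (contDiff_snd.prodMk contDiff_fst) a
  obtain ⟨L', hG, hK, hT⟩ := exists_LS (X := X) (k := e) (e := k) h0 h1 h2 h3
    (G := fun a => GB L F (a.2, a.1)) (cK := cKB L F) (cT := cTB L F)
    (fun p r a b _ ha hb => GB_add L F hb ha)
    (fun p r h => by
      have h' : RegB ρ r p := RegB_iff.2 h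
      exact IsLocalDiffeomorphAt.comp (hf := hswap (p, r)) (hg := GB_loc h0 h1 h2 h3 hF h') ..)
    (fun p r p' r' h h' he => by
      have := GB_inj h0 h1 h2 h3 hF (RegB_iff.2 h) (RegB_iff.2 h') he
      exact ⟨this.2, this.1⟩)
    (cKB_inj h0 h1 h2 h3 hF)
    (fun q y a b => cTB_per L F q y a b)
    (fun q y q' y' he => cTB_inj h0 h1 h2 h3 hF he)
    (fun Y p r h => cKB_ne_GB h0 h1 h2 h3 hF Y (RegB_iff.2 h))
    (fun a p r h => cTB_ne_GB h0 h1 h2 h3 hF a (RegB_iff.2 h))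
    (fun Y a => cKB_ne_cTB h0 h1 h2 h3 hF Y a)
    (fun Y => jKB_ld h0 h1 h2 h3 hF Y)
    (fun q y => jTB_ld h0 h1 h2 h3 hF q y)
  refine ⟨L', ?_, ?_⟩
  · ext x
    constructor
    · intro hx
      refine Im_sub_Rg h0 h1 h2 h3 hF ?_
      rcases hx with ⟨p, r, hn, hp, hc, rfl⟩ | ⟨Y, rfl⟩ | ⟨q, y, rfl⟩
      · exact Or.inl ⟨r, p, hn.symm, hp, hc, by rw [hG]⟩
      · exact Or.inr (Or.inl ⟨Y, hK Y⟩)
      · exact Or.inr (Or.inr ⟨q, y, hT q y⟩)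
    · intro hx
      have hI : ImB L F x := by
        rcases hx with ⟨p, r, hn, hp, hc, rfl⟩ | ⟨Y, rfl⟩ | ⟨q, y, rfl⟩
        · exact G_mem_Im h0 h1 h2 h3 hF hn hp hc
        · exact (core_mem_Im h0 h1 h2 h3 hF).1 Y
        · exact (core_mem_Im h0 h1 h2 h3 hF).2 q y
      rcases hI with ⟨p, r, hn, hp, hc, rfl⟩ | ⟨Y, rfl⟩ | ⟨q, y, rfl⟩
      · exact Or.inl ⟨r, p, hn.symm, hp, hc, by rw [hG]⟩
      · exact Or.inr (Or.inl ⟨Y, (hK Y).symm⟩)
      · exact Or.inr (Or.inr ⟨q, y, (hT q y).symm⟩)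
  · intro p r hW hp hr
    rw [hG]
    exact GB_G0 h0 h1 h2 h3 hF hW (by linarith) (by linarith)

end Pool.Agent.TS
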