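import Pool.Agent.TS.PDef

/-!
# TS/PLin: P-data with linear monodromy and an arbitrary tube around the surgered circle

`PDlin C X`: as `PD`, but the monodromy is the linear map `act C` (`C e₀ = e₀`), the collar of the binding is
linear with respect to a framing `P t` (`act C (P (t+1) z) = P t z`, `P t e₀ = e₀`), and near the surgered circle
`C_u = {x 0 = x 2 = 1/2, t = 1/2}` (direction `u = x 1`) the chart `jc : S² × D² → X` is related to `H` by an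
arbitrary smooth tube function `f u : (ball 0 δ) → R³`, `f u 0 = 0`, with derivative `N u` at `0`:
`H (pt (1/2 + v 0) u (1/2 + v 2), 1/2 + v 1) = jc (f u v / |f u v|, |f u v| e^{2πiu})`.
-/

open scoped Manifold ContDiff
open Complex (I)

namespace Pool.Agent.TS
open Pool.Agent.CSG

/-- a point of the sphere (junk value for `z = 0`) -/
noncomputable def dir (z : E3) : S2 :=
  if h : z = 0 then ⟨EuclideanSpace.single 0 1, by simp⟩ else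
    ⟨‖z‖⁻¹ • z, by simp [norm_smul, norm_ne_zero_iff.2 h]⟩

structure PDlin (C : Matrix (Fin 3) (Fin 3) ℤ) (X : Type*) [TopologicalSpace X]
    [ChartedSpace E4 X] where
  H : E3 × ℝ → X
  jb : ℝ × ℝ × ℂ → X
  jc : S2 × ℂ → X
  P : ℝ → E3 ≃L[ℝ] E3
  δ : ℝ
  f : ℝ × E3 → E3
  N : ℝ → E3 ≃L[ℝ] E3
  H_loc : ∀ x t, -(1 / 8) < t → t < 9 / 8 → OffAx x → ¬ OnC x t →
    IsLocalDiffeomorphAt 𝓘(ℝ, E3 × ℝ) (𝓡 4) ∞ H (x, t)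
  H_per : ∀ x t m, -(1 / 8) < t → t < 9 / 8 → OffAx x → H (x + vec m, t) = H (x, t)
  H_mon : ∀ x t, -(1 / 8) < t → t < 1 / 8 → OffAx x → H (act C x, t) = H (x, t + 1)
  H_inj : ∀ x y s t, OffAx x → ¬ OnC x s → OffAx y → ¬ OnC y t → 0 ≤ s → s < 1 → 0 ≤ t → t < 1 →
    H (x, s) = H (y, t) → s = t ∧ ∃ m, y = x + vec m
  P_smooth : ContDiff ℝ ∞ fun q : ℝ × E3 => P q.1 q.2
  P_mon : ∀ t z, act C (P (t + 1) z) = P t z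
  P_ax : ∀ t a, P t (pt a 0 0) = pt a 0 0
  P_size : ∀ t a y₁ y₂, y₁ ^ 2 + y₂ ^ 2 < 1 → |P t (pt a y₁ y₂) 1| < 1 / 4 ∧ |P t (pt a y₁ y₂) 2| < 1 / 4
  jb_per : ∀ θ x ζ (a b : ℤ), jb (θ + a, x + b, ζ) = jb (θ, x, ζ)
  jb_loc : ∀ θ x ζ, ‖ζ‖ < 1 → IsLocalDiffeomorphAt 𝓘(ℝ, ℝ × ℝ × ℂ) (𝓡 4) ∞ jb (θ, x, ζ)
  jb_inj : ∀ θ x ζ θ' x' ζ', ‖ζ‖ < 1 → ‖ζ'‖ < 1 → jb (θ, x, ζ) = jb (θ', x', ζ') →
    (∃ a : ℤ, θ' = θ + a) ∧ (∃ b : ℤ, x' = x + b) ∧ ζ' = ζ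
  jc_loc : ∀ y ζ, ‖ζ‖ < 1 →
    IsLocalDiffeomorphAt ((𝓡 2).prod 𝓘(ℝ, ℂ)) (𝓡 4) ∞ jc (y, ζ)
  jc_inj : ∀ y y' ζ ζ', ‖ζ‖ < 1 → ‖ζ'‖ < 1 → jc (y, ζ) = jc (y', ζ') → y = y' ∧ ζ = ζ'
  glueb : ∀ θ x t s : ℝ, -(1 / 8) < t → t < 9 / 8 → 0 < s → s < 1 →
    jb (θ, x, s * ex t) = H (P t (pt x (s * Real.cos (2 * Real.pi * θ))
      (s * Real.sin (2 * Real.pi * θ))), t)
  δ_pos : 0 < δ
  δ_lt : δ < 1 / 8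
  f_smooth : ∀ u v, ‖v‖ < δ → ContDiffAt ℝ ∞ f (u, v)
  f_per : ∀ u v, f (u + 1, v) = f (u, v)
  f_zero : ∀ u, f (u, 0) = 0
  f_ne : ∀ u v, ‖v‖ < δ → v ≠ 0 → f (u, v) ≠ 0
  f_lt : ∀ u v, ‖v‖ < δ → ‖f (u, v)‖ < 1
  N_smooth : ContDiff ℝ ∞ fun q : ℝ × E3 => N q.1 q.2
  f_deriv : ∀ u, HasFDerivAt (fun v => f (u, v)) (N u : E3 →L[ℝ] E3) 0
  gluec : ∀ (u : ℝ) (v : E3), ‖v‖ < δ → v ≠ 0 →
    H (pt (1 / 2 + v 0) u (1 / 2 + v 2), 1 / 2 + v 1) =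
      jc (dir (f (u, v)), (‖f (u, v)‖ : ℂ) * ex u)
  disjb : ∀ θ x₀ x t, OffAx x → ¬ OnC x t → 0 ≤ t → t < 1 → jb (θ, x₀, 0) ≠ H (x, t)
  disjc : ∀ y x t, OffAx x → ¬ OnC x t → 0 ≤ t → t < 1 → jc (y, 0) ≠ H (x, t)
  disjbc : ∀ y θ x₀, jc (y, 0) ≠ jb (θ, x₀, 0)
  cover : ∀ q : X, (∃ θ x₀, q = jb (θ, x₀, 0)) ∨ (∃ y, q = jc (y, 0)) ∨
    ∃ x t, OffAx x ∧ ¬ OnC x t ∧ 0 ≤ t ∧ t < 1 ∧ q = H (x, t)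

end Pool.Agent.TS
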