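import Pool.Agent.TS.RadM
import Pool.Agent.TS.WwM

/-!
# TS/RdM: the second step `Rd` (radial)

`AX` is smooth off `0` (where `‖zc X‖ / nr X` is not smooth, `zc X = 0`, so `X.2.re ^ 2 / nr X ^ 2 = 1 ≥ 1/25` and the
factor `1 - stp` vanishes nearby), homogeneous of degree `0`, `1/2 < AX ≤ 1` (as in WwM:
`(‖zc X‖ / nr X) ^ 2 = 1 - X.2.re ^ 2 / nr X ^ 2`).  `rad` applies to `φ X = 1/2 + tau (nr X) (AX X - 1/2)`: constant
`1/2` for `nr X < 1/2`, along rays `tau (l nr X) (AX X - 1/2)` is nondecreasing.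
-/

open scoped Manifold ContDiff Topology
open Complex (I)
open Set Filter

namespace Pool.Agent.TS
open Pool.Agent.CSG

theorem RdM_t_le (X : R3) : ‖zc X‖ / nr X ≤ 1 := by
  apply div_le_one_of_le₀ _ (nr_nonneg X)
  have h := nr_sq' X
  have h1 := nr_nonneg X
  have h2 := norm_nonneg (zc X)
  nlinarith [sq_nonneg X.2.re]

theorem RdM_t_nonneg (X : R3) : 0 ≤ ‖zc X‖ / nr X := div_nonneg (norm_nonneg _) (nr_nonneg X)

theorem AX_le_one (X : R3) : AX X ≤ 1 := by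
  unfold AX
  have h1 := RdM_t_le X
  have h2 := stp_le_one (1 / 100) (1 / 25) (X.2.re ^ 2 / nr X ^ 2)
  nlinarith [mul_nonneg (sub_nonneg.2 h2) (sub_nonneg.2 h1)]

/-- `AX = 1` near the axis -/
theorem AX_axis {X : R3} (h : nr X ^ 2 ≤ 25 * X.2.re ^ 2) (h0 : X ≠ 0) : AX X = 1 := by
  have h1 : 0 < nr X ^ 2 := pow_pos (nr_pos.2 h0) 2
  have h2 : (1 : ℝ) / 25 ≤ X.2.re ^ 2 / nr X ^ 2 := by
    rw [le_div_iff₀ h1]
    linarith
  unfold AX
  rw [stp_one (by norm_num) h2]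
  ring

theorem half_lt_AX {X : R3} (h : X ≠ 0) : 1 / 2 < AX X := by
  by_cases hc : nr X ^ 2 ≤ 25 * X.2.re ^ 2
  · rw [AX_axis hc h]
    norm_num
  · rw [not_le] at hc
    have hn : 0 < nr X := nr_pos.2 h
    have hz : 1 / 2 < ‖zc X‖ / nr X := by
      rw [lt_div_iff₀ hn]
      have h1 := nr_sq' X
      by_contra hcon
      rw [not_lt] at hcon
      have h2 : ‖zc X‖ ^ 2 ≤ (1 / 2 * nr X) ^ 2 := pow_le_pow_left₀ (norm_nonneg _) hcon 2
      nlinarith [pow_pos hn 2]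
    unfold AX
    have h1 := RdM_t_le X
    have h2 := stp_nonneg (1 / 100) (1 / 25) (X.2.re ^ 2 / nr X ^ 2)
    nlinarith [mul_nonneg h2 (sub_nonneg.2 h1)]

theorem RdM_zc_smul (l : ℝ) (X : R3) : zc (l • X) = (l : ℂ) * zc X := by
  unfold zc
  apply Complex.ext
  · simp
  · simp

theorem RdM_re_smul (l : ℝ) (X : R3) : (l • X).2.re = l * X.2.re := by simp

theorem AX_smul {l : ℝ} (hl : 0 < l) (X : R3) : AX (l • X) = AX X := by
  unfold AX
  rw [nr_smul hl.le, RdM_zc_smul, RdM_re_smul, norm_mul, Complex.norm_real, Real.norm_eq_abs,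
    abs_of_pos hl, mul_div_mul_left _ _ hl.ne', mul_pow, mul_pow,
    mul_div_mul_left _ _ (pow_pos hl 2).ne']

theorem RdM_zc_smooth : ContDiff ℝ ∞ zc := by
  have h : zc = fun X : R3 => (X.1 : ℂ) + (X.2.im : ℂ) * I := by
    funext X
    unfold zc
    apply Complex.ext <;> simp
  rw [h]
  have h1 : ContDiff ℝ ∞ (fun X : R3 => ((X.1 : ℝ) : ℂ)) :=
    Complex.ofRealCLM.contDiff.comp contDiff_fst
  have h2 : ContDiff ℝ ∞ (fun X : R3 => ((X.2.im : ℝ) : ℂ)) :=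
    Complex.ofRealCLM.contDiff.comp (Complex.imCLM.contDiff.comp contDiff_snd)
  exact h1.add (h2.mul contDiff_const)

theorem RdM_re_smooth : ContDiff ℝ ∞ (fun X : R3 => X.2.re) :=
  Complex.reCLM.contDiff.comp contDiff_snd

theorem AX_smoothAt {X : R3} (h : X ≠ 0) : ContDiffAt ℝ ∞ AX X := by
  by_cases hz : zc X = 0
  · have h1 := nr_sq' X
    rw [hz, norm_zero] at h1
    have hn : 0 < nr X ^ 2 := pow_pos (nr_pos.2 h) 2
    have h2 : nr X ^ 2 < 25 * X.2.re ^ 2 := by nlinarith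
    have hev : ∀ᶠ Y in 𝓝 X, nr Y ^ 2 < 25 * Y.2.re ^ 2 := by
      apply ContinuousAt.eventually_lt _ _ h2
      · exact (nr_continuous.pow 2).continuousAt
      · exact (continuous_const.mul (RdM_re_smooth.continuous.pow 2)).continuousAt
    have hev0 : ∀ᶠ Y in 𝓝 X, Y ≠ 0 := isOpen_ne.mem_nhds h
    have hc : AX =ᶠ[𝓝 X] fun _ => (1 : ℝ) := by
      filter_upwards [hev, hev0] with Y h3 h4
      exact AX_axis h3.le h4
    exact contDiffAt_const.congr_of_eventuallyEq hc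
  · have hn : ContDiffAt ℝ ∞ nr X := nr_smoothAt h
    have hn0 : nr X ≠ 0 := (nr_pos.2 h).ne'
    have hzs : ContDiffAt ℝ ∞ (fun Y : R3 => ‖zc Y‖) X :=
      (contDiffAt_norm ℝ hz).comp X RdM_zc_smooth.contDiffAt
    have hs : ContDiffAt ℝ ∞ (fun Y : R3 => stp (1 / 100) (1 / 25) (Y.2.re ^ 2 / nr Y ^ 2)) X :=
      (stp_smooth (1 / 100) (1 / 25)).contDiffAt.comp X
        ((RdM_re_smooth.contDiffAt.pow 2).div (hn.pow 2) (pow_ne_zero 2 hn0))
    exact contDiffAt_const.add ((contDiffAt_const.sub hs).mul ((hzs.div hn hn0).sub contDiffAt_const))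

theorem RdM_sech_tanh (x : ℝ) : sech x ^ 2 + Real.tanh x ^ 2 = 1 := by
  unfold sech
  rw [Real.tanh_eq_sinh_div_cosh]
  have h := Real.cosh_sq x
  have h1 := (Real.cosh_pos x).ne'
  field_simp
  rw [h]
  ring

theorem AX_EE (p : ℂ) : AX (EE p) = aw p.re := by
  have hs := sech_pos (2 * Real.pi * p.re)
  have hst := RdM_sech_tanh (2 * Real.pi * p.re)
  have hcs := Real.cos_sq_add_sin_sq (2 * Real.pi * p.im)
  have hz : ‖zc (EE p)‖ = sech (2 * Real.pi * p.re) := by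
    rw [← abs_of_pos hs, ← Real.sqrt_sq_eq_abs, Complex.norm_def]
    congr 1
    unfold zc EE
    rw [Complex.normSq_apply]
    simp only
    linear_combination (sech (2 * Real.pi * p.re) ^ 2) * hcs
  have hre : (EE p).2.re = Real.tanh (2 * Real.pi * p.re) := rfl
  have hn : nr (EE p) = 1 := by
    have h1 := nr_sq' (EE p)
    rw [hz, hre, hst] at h1
    have h2 := nr_nonneg (EE p)
    nlinarith
  unfold AX aw
  rw [hz, hre, hn]
  norm_num

/-- the factor of `Rd` -/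
noncomputable def RdM_phi (X : R3) : ℝ := 1 / 2 + tau (nr X) * (AX X - 1 / 2)

theorem RdM_eq : Rd = fun X => RdM_phi X • X := rfl

theorem RdM_tau_nonneg (x : ℝ) : 0 ≤ tau x := stp_nonneg _ _ _

theorem RdM_tau_le_one (x : ℝ) : tau x ≤ 1 := stp_le_one _ _ _

theorem RdM_tau_zero {x : ℝ} (h : x ≤ 1 / 2) : tau x = 0 := stp_zero (by norm_num) h

theorem RdM_tau_one {x : ℝ} (h : 1 ≤ x) : tau x = 1 := stp_one (by norm_num) h

theorem RdM_tau_mono : Monotone tau := stp_mono (by norm_num)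

theorem RdM_tau_smooth : ContDiff ℝ ∞ tau := stp_smooth _ _

theorem RdM_nr_zero : nr (0 : R3) = 0 := nr_eq_zero.2 rfl

theorem RdM_phi_ge (X : R3) : 1 / 2 ≤ RdM_phi X := by
  unfold RdM_phi
  by_cases h : X = 0
  · rw [h, RdM_nr_zero, RdM_tau_zero (by norm_num)]
    norm_num
  · have h1 := half_lt_AX h
    have h2 := RdM_tau_nonneg (nr X)
    nlinarith [mul_nonneg h2 (sub_nonneg.2 h1.le)]

theorem RdM_phi_le (X : R3) : RdM_phi X ≤ 1 := by
  unfold RdM_phi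
  by_cases h : X = 0
  · rw [h, RdM_nr_zero, RdM_tau_zero (by norm_num)]
    norm_num
  · have h1 := half_lt_AX h
    have h2 := RdM_tau_le_one (nr X)
    have h3 := AX_le_one X
    nlinarith [mul_nonneg (sub_nonneg.2 h2) (sub_nonneg.2 h1.le)]

theorem RdM_phi_smooth (X : R3) : ContDiffAt ℝ ∞ RdM_phi X := by
  by_cases h : X = 0
  · subst h
    have hev : ∀ᶠ Y in 𝓝 (0 : R3), nr Y < 1 / 2 := by
      apply nr_continuous.continuousAt.eventually_lt continuousAt_const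
      rw [RdM_nr_zero]
      norm_num
    have hc : RdM_phi =ᶠ[𝓝 (0 : R3)] fun _ => (1 / 2 : ℝ) := by
      filter_upwards [hev] with Y hY
      unfold RdM_phi
      rw [RdM_tau_zero hY.le]
      ring
    exact contDiffAt_const.congr_of_eventuallyEq hc
  · have h1 : ContDiffAt ℝ ∞ (fun Y : R3 => tau (nr Y)) X :=
      RdM_tau_smooth.contDiffAt.comp X (nr_smoothAt h)
    exact contDiffAt_const.add (h1.mul ((AX_smoothAt h).sub contDiffAt_const))

theorem RdM_phi_mono (X : R3) (l m : ℝ) (hl : 0 < l) (hlm : l ≤ m) :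
    RdM_phi (l • X) ≤ RdM_phi (m • X) := by
  by_cases h : X = 0
  · subst h
    rw [smul_zero, smul_zero]
  · unfold RdM_phi
    have hm : 0 < m := hl.trans_le hlm
    rw [AX_smul hl, AX_smul hm, nr_smul hl.le, nr_smul hm.le]
    have h1 := half_lt_AX h
    have h2 : tau (l * nr X) ≤ tau (m * nr X) :=
      RdM_tau_mono (mul_le_mul_of_nonneg_right hlm (nr_nonneg X))
    have h3 := mul_le_mul_of_nonneg_right h2 (sub_nonneg.2 h1.le)
    linarith

theorem RdM_rad : Function.Bijective (fun X => RdM_phi X • X) ∧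
    ∀ X, IsLocalDiffeomorphAt 𝓘(ℝ, R3) 𝓘(ℝ, R3) ∞ (fun X => RdM_phi X • X) X :=
  rad RdM_phi_smooth (fun X => lt_of_lt_of_le (by norm_num : (0 : ℝ) < 1 / 2) (RdM_phi_ge X))
    RdM_phi_mono

theorem Rd_bij : Function.Bijective Rd := RdM_rad.1

theorem Rd_ld (X : R3) : IsLocalDiffeomorphAt 𝓘(ℝ, R3) 𝓘(ℝ, R3) ∞ Rd X := RdM_rad.2 X

theorem Rd_big {X : R3} (h : 1 ≤ nr X) : Rd X = AX X • X := by
  have h1 : RdM_phi X = AX X := by
    unfold RdM_phi
    rw [RdM_tau_one h]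
    ring
  rw [RdM_eq]
  simp only
  rw [h1]

theorem Rd_small {X : R3} (h : nr X ≤ 1 / 2) : Rd X = (1 / 2 : ℝ) • X := by
  have h1 : RdM_phi X = 1 / 2 := by
    unfold RdM_phi
    rw [RdM_tau_zero h]
    ring
  rw [RdM_eq]
  simp only
  rw [h1]

theorem RdM_nr (X : R3) : nr (Rd X) = RdM_phi X * nr X := by
  rw [RdM_eq]
  exact nr_smul (le_trans (by norm_num) (RdM_phi_ge X)) X

/-- the size of `Rd X` -/
theorem nr_Rd_le (X : R3) : nr (Rd X) ≤ nr X := by
  rw [RdM_nr]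
  nlinarith [mul_nonneg (sub_nonneg.2 (RdM_phi_le X)) (nr_nonneg X)]

theorem half_nr_le_nr_Rd (X : R3) : nr X / 2 ≤ nr (Rd X) := by
  rw [RdM_nr]
  nlinarith [mul_nonneg (sub_nonneg.2 (RdM_phi_ge X)) (nr_nonneg X)]

end Pool.Agent.TS
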