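import Pool.Agent.TS.EEM
import Pool.Agent.TS.PolM
import Pool.Agent.TS.RdM
import Pool.Agent.TS.IoM

/-!
# TS/X2M: the composition `X2 = DD ∘ VV ∘ Rd ∘ io`

Bijective and local diffeomorphism: composition.
`X2_polar`: `io (y, s ex u) = (s ex u; MZ sinh (2 π y)) = (s ex u; s sinh (2 π y')) = s cosh (2 π y') • EE (y' + i u)`;
norm `x = s cosh (2 π y')`, `AX = aw y'`, so `Rd = x aw y' • EE` if `x ≥ 1` (`x ≥ x aw = s / ww y' ≥ 1`), then
`VV`, `DD` are homogeneous.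
`X2_pole`: similarly with `io (y, Z) = x • Ep sg (Z / x)`, `x = nr (io (y, Z))`; `AX = 1` there.
-/

open scoped Manifold ContDiff Topology
open Complex (I)
open Set Filter

namespace Pool.Agent.TS
open Pool.Agent.CSG

variable {ε : ℝ}

theorem X2_bij (h0 : 0 < ε) (h1 : ε ≤ 1 / 1000) : Function.Bijective (X2 ε) :=
  (DD_bij h0 h1).comp (VV_bij.comp (Rd_bij.comp io_bij))

theorem X2_ld (h0 : 0 < ε) (h1 : ε ≤ 1 / 1000) (a : ℝ × ℂ) :
    IsLocalDiffeomorphAt 𝓘(ℝ, ℝ × ℂ) 𝓘(ℝ, R3) ∞ (X2 ε) a := by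
  have e1 : IsLocalDiffeomorphAt 𝓘(ℝ, ℝ × ℂ) 𝓘(ℝ, R3) ∞ (Rd ∘ io) a :=
    IsLocalDiffeomorphAt.comp (hf := io_ld a) (hg := Rd_ld (io a)) ..
  have e2 : IsLocalDiffeomorphAt 𝓘(ℝ, ℝ × ℂ) 𝓘(ℝ, R3) ∞ (VV ∘ (Rd ∘ io)) a :=
    IsLocalDiffeomorphAt.comp (hf := e1) (hg := VV_ld ((Rd ∘ io) a)) ..
  have e3 : IsLocalDiffeomorphAt 𝓘(ℝ, ℝ × ℂ) 𝓘(ℝ, R3) ∞ (DD ε ∘ (VV ∘ (Rd ∘ io))) a :=
    IsLocalDiffeomorphAt.comp (hf := e2) (hg := DD_ld h0 h1 ((VV ∘ (Rd ∘ io)) a)) ..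
  exact e3

theorem X2M_ex_re (u : ℝ) : (ex u).re = Real.cos (2 * Real.pi * u) := by
  unfold ex; rw [Complex.exp_ofReal_mul_I_re]

theorem X2M_ex_im (u : ℝ) : (ex u).im = Real.sin (2 * Real.pi * u) := by
  unfold ex; rw [Complex.exp_ofReal_mul_I_im]

theorem X2M_io_polar {s y y' u : ℝ} (hs : 0 < s)
    (hy : MZ (s : ℂ) * Real.sinh (2 * Real.pi * y) = s * Real.sinh (2 * Real.pi * y')) :
    io (y, s * ex u) = (s * Real.cosh (2 * Real.pi * y')) • EE ((y' : ℂ) + u * I) := by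
  have hM : MZ ((s : ℂ) * ex u) = MZ (s : ℂ) := by
    apply MZ_norm
    rw [norm_mul, ex_norm, mul_one]
  have hc : Real.cosh (2 * Real.pi * y') ≠ 0 := (Real.cosh_pos _).ne'
  have hre : ((y' : ℂ) + u * I).re = y' := by simp
  have him : ((y' : ℂ) + u * I).im = u := by simp
  have e1 : ((s : ℂ) * ex u).re = s * Real.cos (2 * Real.pi * u) := by
    rw [Complex.re_ofReal_mul, X2M_ex_re]
  have e2 : ((s : ℂ) * ex u).im = s * Real.sin (2 * Real.pi * u) := by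
    rw [Complex.im_ofReal_mul, X2M_ex_im]
  unfold io EE sech
  simp only [hre, him]
  refine Prod.ext ?_ (Complex.ext ?_ ?_)
  · simp only [Prod.smul_fst, smul_eq_mul]
    rw [e1]
    field_simp
  · simp only [Prod.smul_snd]
    rw [hM, Complex.smul_re, smul_eq_mul, Real.tanh_eq_sinh_div_cosh]
    simp only
    rw [hy]
    field_simp
  · simp only [Prod.smul_snd]
    rw [Complex.smul_im, smul_eq_mul]
    simp only
    rw [e2]
    field_simp

theorem X2_polar (h0 : 0 < ε) (h1 : ε ≤ 1 / 1000) {s y y' u : ℝ} (hs : 0 < s)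
    (hy : MZ (s : ℂ) * Real.sinh (2 * Real.pi * y) = s * Real.sinh (2 * Real.pi * y'))
    (hx : 1 ≤ s / ww y') :
    X2 ε (y, s * ex u) = (s / ww y') • E2 ε ((y' : ℂ) + u * I) := by
  have hc : 0 < Real.cosh (2 * Real.pi * y') := Real.cosh_pos _
  have haw : 0 < aw y' := by have := half_lt_aw y'; linarith
  have haw1 := aw_le_one y'
  have hre : ((y' : ℂ) + u * I).re = y' := by simp
  have e1 : s / ww y' = aw y' * (s * Real.cosh (2 * Real.pi * y')) := by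
    unfold ww sech
    field_simp
  have hX : 0 < s * Real.cosh (2 * Real.pi * y') := mul_pos hs hc
  have hx1 : 1 ≤ s * Real.cosh (2 * Real.pi * y') := by
    rw [e1] at hx
    have : aw y' * (s * Real.cosh (2 * Real.pi * y')) ≤ 1 * (s * Real.cosh (2 * Real.pi * y')) :=
      mul_le_mul_of_nonneg_right haw1 hX.le
    linarith
  have hnr : nr ((s * Real.cosh (2 * Real.pi * y')) • EE ((y' : ℂ) + u * I)) =
      s * Real.cosh (2 * Real.pi * y') := by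
    rw [nr_smul hX.le, nr_EE, mul_one]
  have hRd : Rd (io (y, s * ex u)) = (s / ww y') • EE ((y' : ℂ) + u * I) := by
    rw [X2M_io_polar hs hy, Rd_big (by rw [hnr]; exact hx1), AX_smul hX, AX_EE, hre, smul_smul, e1]
  unfold X2 E2
  rw [hRd, VV_smul (by rw [nr_EE]) hx, DD_smul h0 h1 (by rw [nr_VV, nr_EE]) hx]

theorem X2_pole (h0 : 0 < ε) (h1 : ε ≤ 1 / 1000) {y : ℝ} {Z : ℂ} (hx : 1 ≤ nr (io (y, Z)))
    (hZ : ‖Z‖ < nr (io (y, Z)) / 4) {sg : ℝ} (hs : sg ^ 2 = 1) (hy : 0 < sg * y) :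
    X2 ε (y, Z) = nr (io (y, Z)) • DD ε (Ep sg (Z / (nr (io (y, Z)) : ℂ))) := by
  have hn := nr_io (y, Z)
  have hre := io_re (y, Z)
  have hzc := zc_io (y, Z)
  simp only at hn hre hzc
  have hmd : ∃ m : ℝ, m = MZ Z * Real.sinh (2 * Real.pi * y) := ⟨_, rfl⟩
  obtain ⟨m, hm⟩ := hmd
  rw [← hm] at hn hre
  have hsm : 0 < sg * m := by
    have hM := MZ_pos Z
    have hpi := Real.pi_pos
    have hsq : sg = 1 ∨ sg = -1 := by
      have : (sg - 1) * (sg + 1) = 0 := by linear_combination hs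
      rcases mul_eq_zero.1 this with h | h
      · left; linarith
      · right; linarith
    rcases hsq with h | h
    · subst h
      rw [one_mul] at hy ⊢
      rw [hm]
      exact mul_pos hM (Real.sinh_pos_iff.2 (by positivity))
    · subst h
      have hy' : y < 0 := by linarith
      have : Real.sinh (2 * Real.pi * y) < 0 := Real.sinh_neg_iff.2 (by nlinarith)
      rw [hm]
      nlinarith
  have hx0 : 0 < nr (io (y, Z)) := by linarith
  have hxd : ∃ x : ℝ, x = nr (io (y, Z)) := ⟨_, rfl⟩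
  obtain ⟨x, hxe⟩ := hxd
  rw [← hxe] at hx hZ hn hx0 ⊢
  have hZx : ‖Z / (x : ℂ)‖ < 1 / 4 := by
    rw [norm_div, Complex.norm_real, Real.norm_eq_abs, abs_of_pos hx0, div_lt_iff₀ hx0]
    linarith
  have hZ0 := norm_nonneg Z
  have hio : io (y, Z) = x • Ep sg (Z / (x : ℂ)) := by
    unfold io Ep
    refine Prod.ext ?_ (Complex.ext ?_ ?_)
    · simp only [Prod.smul_fst, smul_eq_mul]
      rw [Complex.div_ofReal_re]
      field_simp
    · simp only [Prod.smul_snd]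
      rw [Complex.smul_re, smul_eq_mul]
      simp only
      rw [← hm]
      have e1 : x * √(1 - ‖Z / (x : ℂ)‖ ^ 2) = sg * m := by
        have e2 : x * √(1 - ‖Z / (x : ℂ)‖ ^ 2) = √(x ^ 2 * (1 - ‖Z / (x : ℂ)‖ ^ 2)) := by
          rw [Real.sqrt_mul (by positivity), Real.sqrt_sq hx0.le]
        rw [e2]
        have e3 : x ^ 2 * (1 - ‖Z / (x : ℂ)‖ ^ 2) = (sg * m) ^ 2 := by
          rw [norm_div, Complex.norm_real, Real.norm_eq_abs, abs_of_pos hx0, div_pow]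
          have : x ^ 2 * (1 - ‖Z‖ ^ 2 / x ^ 2) = x ^ 2 - ‖Z‖ ^ 2 := by field_simp
          rw [this, mul_pow, hs, hn]
          ring
        rw [e3, Real.sqrt_sq hsm.le]
      calc m = sg ^ 2 * m := by rw [hs, one_mul]
        _ = sg * (sg * m) := by ring
        _ = sg * (x * √(1 - ‖Z / (x : ℂ)‖ ^ 2)) := by rw [e1]
        _ = x * (sg * √(1 - ‖Z / (x : ℂ)‖ ^ 2)) := by ring
    · simp only [Prod.smul_snd]
      rw [Complex.smul_im, smul_eq_mul]
      simp only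
      rw [Complex.div_ofReal_im]
      field_simp
  have hne : io (y, Z) ≠ 0 := by
    apply nr_pos.1
    rw [← hxe]; exact hx0
  have hAX : AX (io (y, Z)) = 1 := by
    apply AX_axis _ hne
    rw [← hxe, hre, hn]
    nlinarith
  have hRd : Rd (io (y, Z)) = x • Ep sg (Z / (x : ℂ)) := by
    rw [Rd_big (by rw [← hxe]; exact hx), hAX, one_smul, hio]
  unfold X2
  rw [hRd, VV_Ep hs hZx hx0, DD_smul h0 h1 (by rw [nr_Ep hs hZx]) hx]

/-- `nr X2 < 4` bounds `‖Z‖` -/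
theorem norm_Z_le (h0 : 0 < ε) (h1 : ε ≤ 1 / 1000) (y : ℝ) (Z : ℂ) (h : 1 ≤ ‖Z‖) :
    ‖Z‖ ≤ nr (X2 ε (y, Z)) := by
  unfold X2
  rw [nr_DD h0 h1, nr_VV]
  have hzc : zc (io (y, Z)) = Z := zc_io (y, Z)
  have hsq := nr_sq' (io (y, Z))
  generalize io (y, Z) = X at hzc hsq
  rw [← hzc] at h ⊢
  have hn0 := nr_nonneg X
  have hZn : ‖zc X‖ ≤ nr X := by
    apply le_of_sq_le_sq _ hn0
    nlinarith [sq_nonneg X.2.re]
  have hn : 1 ≤ nr X := h.trans hZn
  have hn1 : 0 < nr X := by linarith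
  have hAX : ‖zc X‖ / nr X ≤ AX X := by
    unfold AX
    have s1 := stp_le_one (1 / 100) (1 / 25) (X.2.re ^ 2 / nr X ^ 2)
    have s0 := stp_nonneg (1 / 100) (1 / 25) (X.2.re ^ 2 / nr X ^ 2)
    have s2 : ‖zc X‖ / nr X ≤ 1 := (div_le_one hn1).2 hZn
    nlinarith
  have hA0 : 0 ≤ AX X := le_trans (by positivity) hAX
  rw [Rd_big hn, nr_smul hA0]
  rwa [div_le_iff₀ hn1] at hAX

end Pool.Agent.TS
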