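import Pool.Agent.TS.ACM
import Pool.Agent.TS.ATM
import Pool.Agent.TS.X2M

/-!
# TS/ATCM: the relation between `fT` and `fC`
`fT_eq_fC`: `E2_far` with `c = 2`: `‖p - n i‖ ≥ 2 ε` for all `n`.  `Z ≠ 0` (`disjT`), `Z = s ex u`.  By `G_eq`:
(1) `ns ε y + i u ≡ R' := ε ww ex (k thc p.im) ν`, `‖R'‖ < 5 ε`; `|ns ε y| < 1/2`, so `ns ε y = R'.re`, `|y| < 5 ε`,
`ns ε y = y`, and `u = R'.im + m`; replace `u` by `R'.im` (`ex u` unchanged, `thc u = 0`);
(2) `P := ε s ex (q + e twc Z + e u) ≡ ns ε p.re + i p.im`, `‖P‖ < 5 ε`, so `p.re = P.re` and `p = P + n i`, hence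
`s ε = ‖P‖ ≥ 2 ε`, `s ≥ 2`, `twc Z + u = thc u = 0`, `P = ε s ex q`; `ww p.re = 1` (`|p.re| < 5 ε < 1/64`),
`thc p.im = n` (`|P.im| < 1/4`), so `R' = ε ν`.
Now `E2 ε p = E2 ε (ε s ex q) = st (s ex q)` (`E2_per`, `E2_corner`), and `X2 ε (y, Z) = s • E2 ε (y + i u) =
s • E2 ε (ε ν) = s • st ν` (`X2_polar` with `y' = y`, `MZ = s`, `ww y = 1`).
`fC_eq_fT`: `st (s ex q) = E2 ε (ε s ex q)`, `E2_inj`: `p = ε s ex q + n i`; `s • st ν = s • E2 ε (ε ν) =
X2 ε ((ε ν).re, s ex (ε ν).im)` (`X2_polar`), `X2_bij`: `y = (ε ν).re`, `Z = s ex (ε ν).im`; compute both sides with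
`fT_G'`, `G_per`.
-/

open scoped Manifold ContDiff Topology
open Complex (I)
open Set Filter

namespace Pool.Agent.TS
open Pool.Agent.CSG

variable {X : Type*} [TopologicalSpace X] [ChartedSpace E4 X] {ε ρ : ℝ} {k e : ℤ}

theorem ATCM_re {a b : ℝ} : ((a : ℂ) + (b : ℂ) * I).re = a := by simp

theorem ATCM_im {a b : ℝ} : ((a : ℂ) + (b : ℂ) * I).im = b := by simp

theorem ATCM_int_zero {x y : ℝ} {a : ℤ} (hx : |x| < 1 / 2) (hy : |y| < 1 / 2)
    (h : x - y = a) : x = y := by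
  rw [abs_lt] at hx hy
  have h1 : (-1 : ℝ) < a := by linarith
  have h2 : (a : ℝ) < 1 := by linarith
  have h3 : (-1 : ℤ) < a := by exact_mod_cast h1
  have h4 : a < 1 := by exact_mod_cast h2
  have h5 : a = 0 := by omega
  rw [h5] at h
  push_cast at h
  linarith

/-- the coordinates of a common point -/
theorem ATCM_rel (h0 : 0 < ε) (h1 : ε ≤ 1 / 1000) (h2 : 5 * ε < ρ) (h3 : ρ ≤ 1 / 8)
    (L : LS ε ρ k e X) {q y s u : ℝ} {p ν : ℂ} (hs : 0 < s) (hs5 : s < 5)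
    (hν : ww p.re * ‖ν‖ < 5) (hp : ∀ n : ℤ, p ≠ n * I)
    (h : fT L (q, y, s * ex u) = fC L (p, ν)) :
    (∃ n : ℤ, p = ε * s * ex (q + e * twc (s * ex u) + e * u) + n * I) ∧
      y = ((ε * ww p.re : ℝ) * ex (k * thc p.im) * ν).re ∧
      ∃ m : ℤ, ((ε * ww p.re : ℝ) * ex (k * thc p.im) * ν).im - u = m := by
  set P : ℂ := ε * s * ex (q + e * twc (s * ex u) + e * u) with hP
  set R : ℂ := (ε * ww p.re : ℝ) * ex (k * thc p.im) * ν with hR
  have hPn : ‖P‖ = ε * s := by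
    rw [hP, norm_mul, norm_mul, ex_norm, mul_one, Complex.norm_real, Complex.norm_real,
      Real.norm_of_nonneg h0.le, Real.norm_of_nonneg hs.le]
  have hw := ww_pos p.re
  have hRn : ‖R‖ = ε * (ww p.re * ‖ν‖) := by
    rw [hR, norm_mul, norm_mul, ex_norm, mul_one, Complex.norm_real,
      Real.norm_of_nonneg (by positivity)]
    ring
  have hR5 : ‖R‖ < 5 * ε := by
    rw [hRn]
    nlinarith
  have hP5 : ‖P‖ < 5 * ε := by
    rw [hPn]
    nlinarith
  rw [fT_G L q y u hs hs5] at h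
  have hreg1 := Reg_T h0 h2 h3 (q := q + e * twc (s * ex u) + e * u) hs hs5
    ((ns ε y : ℝ) + (u : ℝ) * I)
  have hreg2 := fC_Reg (k := k) h0 h1 h2 h3 hν hp
  have h4 := (G_eq L hreg1 hreg2).1 h
  obtain ⟨ha, hb⟩ := h4
  rw [mem_GI] at ha hb
  obtain ⟨⟨a1, ha1⟩, a2, ha2⟩ := ha
  obtain ⟨⟨b1, hb1⟩, b2, hb2⟩ := hb
  rw [← hP] at ha1 ha2
  rw [← hR] at hb1 hb2
  rw [Complex.sub_re, ATCM_re] at ha1 hb1
  rw [Complex.sub_im, ATCM_im] at ha2 hb2
  have hPre : |P.re| < 5 * ε := lt_of_le_of_lt (Complex.abs_re_le_norm _) hP5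
  have hRre : |R.re| < 5 * ε := lt_of_le_of_lt (Complex.abs_re_le_norm _) hR5
  have e1 : ns ε p.re = P.re := by
    apply ATCM_int_zero (ns_lt h0 h1 _) _ ha1
    linarith
  have e2 : R.re = ns ε y := by
    apply ATCM_int_zero _ (ns_lt h0 h1 _) hb1
    linarith
  have e3 : p.re = P.re := by
    have h5 : |ns ε p.re| ≤ 1 / 5 := by
      rw [e1]
      linarith
    have h6 := ns_abs_small h0 h1 h5
    rw [ns_small h6] at e1
    exact e1
  have e4 : y = R.re := by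
    have h5 : |ns ε y| ≤ 1 / 5 := by
      rw [← e2]
      linarith
    have h6 := ns_abs_small h0 h1 h5
    rw [ns_small h6] at e2
    exact e2.symm
  refine ⟨⟨a2, ?_⟩, e4, ⟨b2, hb2⟩⟩
  apply Complex.ext
  · rw [e3]
    simp
  · rw [Complex.add_im]
    simp only [Complex.mul_im, Complex.intCast_re, Complex.intCast_im, Complex.I_re, Complex.I_im]
    linarith

theorem fT_eq_fC (h0 : 0 < ε) (h1 : ε ≤ 1 / 1000) (h2 : 5 * ε < ρ) (h3 : ρ ≤ 1 / 8)
    (L : LS ε ρ k e X) {q y : ℝ} {Z p ν : ℂ} (hZ : ‖Z‖ < 5) (hν : ww p.re * ‖ν‖ < 5)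
    (hp : (E2 ε p).1 ≤ -(3 / 5)) (h : fT L (q, y, Z) = fC L (p, ν)) :
    2 ≤ ‖Z‖ ∧ (‖Z‖ ≤ 497 / 100 → E2 ε p = st (‖Z‖ * ex q)) ∧
      (‖ν‖ ≤ 497 / 100 → X2 ε (y, Z) = ‖Z‖ • st ν) := by
  have hfar : ∀ n : ℤ, 2 * ε ≤ ‖p - n * I‖ := by
    intro n
    by_contra hn
    push Not at hn
    have h4 := (E2_far h0 h1 (c := 2) (by norm_num) (by norm_num) p).2 ⟨n, hn⟩
    norm_num at h4
    linarith
  have hpne : ∀ n : ℤ, p ≠ n * I := by
    intro n hn
    have h4 := hfar n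
    rw [hn, sub_self, norm_zero] at h4
    linarith
  have hreg := fC_Reg (k := k) h0 h1 h2 h3 hν hpne
  have hZ0 : Z ≠ 0 := by
    intro hZ0
    rw [hZ0, fT_core] at h
    exact L.disjT q (ns ε y) _ _ hreg.1 hreg.2.1 hreg.2.2 h
  obtain ⟨u₀, hu₀⟩ := exists_polar (Z := Z)
  obtain ⟨s, hs⟩ : ∃ s, s = ‖Z‖ := ⟨_, rfl⟩
  rw [← hs] at hu₀ hZ ⊢
  have hs0 : 0 < s := by
    rw [hs]
    exact norm_pos_iff.2 hZ0
  -- choice of the argument
  obtain ⟨u, hu, hRim⟩ : ∃ u : ℝ, Z = s * ex u ∧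
      ((ε * ww p.re : ℝ) * ex (k * thc p.im) * ν).im = u := by
    have h4 := h
    rw [hu₀] at h4
    obtain ⟨_, _, m, hm⟩ := ATCM_rel h0 h1 h2 h3 L hs0 hZ hν hpne h4
    refine ⟨u₀ + m, ?_, by linarith⟩
    rw [hu₀, ex_eq_iff.2 ⟨m, rfl⟩]
  rw [hu] at h ⊢
  obtain ⟨⟨n, hn⟩, hy, _⟩ := ATCM_rel h0 h1 h2 h3 L hs0 hZ hν hpne h
  set P : ℂ := ε * s * ex (q + e * twc (s * ex u) + e * u) with hP
  set R : ℂ := (ε * ww p.re : ℝ) * ex (k * thc p.im) * ν with hR
  have hPn : ‖P‖ = ε * s := by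
    rw [hP, norm_mul, norm_mul, ex_norm, mul_one, Complex.norm_real, Complex.norm_real,
      Real.norm_of_nonneg h0.le, Real.norm_of_nonneg hs0.le]
  have hw := ww_pos p.re
  have hRn : ‖R‖ = ε * (ww p.re * ‖ν‖) := by
    rw [hR, norm_mul, norm_mul, ex_norm, mul_one, Complex.norm_real,
      Real.norm_of_nonneg (by positivity)]
    ring
  have hR5 : ‖R‖ < 5 * ε := by
    rw [hRn]
    nlinarith
  have hP5 : ‖P‖ < 5 * ε := by
    rw [hPn]
    nlinarith
  have hPre : |P.re| < 5 * ε := lt_of_le_of_lt (Complex.abs_re_le_norm _) hP5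
  have hPim : |P.im| < 5 * ε := lt_of_le_of_lt (Complex.abs_im_le_norm _) hP5
  have hRre : |R.re| < 5 * ε := lt_of_le_of_lt (Complex.abs_re_le_norm _) hR5
  have hRim' : |R.im| < 5 * ε := lt_of_le_of_lt (Complex.abs_im_le_norm _) hR5
  have hs2 : 2 ≤ s := by
    have h4 := hfar n
    have h5 : p - n * I = P := by
      rw [hn]
      ring
    rw [h5, hPn] at h4
    by_contra h6
    push Not at h6
    nlinarith
  have hthu : thc u = 0 := by
    rw [← hRim]
    rw [abs_lt] at hRim'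
    apply thc_zero <;> linarith
  have hPq : P = ε * s * ex q := by
    have h4 : twc (s * ex u) = -u := by
      rw [twc_big (by linarith), hthu]
      ring
    rw [hP, h4]
    congr 2
    ring
  have hpre : p.re = P.re := by
    rw [hn]
    simp
  have hpim : p.im = P.im + n := by
    rw [hn]
    simp
  have hwp : ww p.re = 1 := by
    apply ww_small
    rw [hpre]
    linarith
  have hthp : thc p.im = n := by
    rw [hpim, thc_add_int, thc_zero]
    · ring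
    · rw [abs_lt] at hPim
      linarith
    · rw [abs_lt] at hPim
      linarith
  have hRν : R = ε * ν := by
    have h4 : ex (k * thc p.im) = 1 := by
      rw [hthp]
      have : ((k : ℝ) * (n : ℝ)) = ((k * n : ℤ) : ℝ) := by push_cast; ring
      rw [this, ex_int]
    rw [hR, hwp, h4, mul_one, mul_one]
  have hεc : (ε : ℂ) ≠ 0 := by
    exact_mod_cast h0.ne'
  refine ⟨hs2, ?_, ?_⟩
  · intro hs'
    rw [hn, E2_per, E2_corner h0 h1 (by rw [hPn]; nlinarith), hPq]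
    congr 1
    field_simp
  · intro hν'
    have hR' : ‖R‖ ≤ 497 / 100 * ε := by
      rw [hRn, hwp]
      nlinarith
    have hwy : ww y = 1 := by
      apply ww_small
      rw [hy]
      linarith
    have hsn : ‖(s : ℂ)‖ = s := by
      rw [Complex.norm_real, Real.norm_of_nonneg hs0.le]
    have hMZ : MZ (s : ℂ) = s := by
      rw [MZ_big, hsn]
      rw [hsn]
      linarith
    rw [X2_polar h0 h1 (y' := y) hs0 (by rw [hMZ]) (by rw [hwy]; linarith), hwy, div_one]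
    have h4 : (y : ℂ) + u * I = R := by
      apply Complex.ext
      · simp [hy]
      · simp [← hRim]
    rw [h4, E2_corner h0 h1 hR', hRν]
    congr 2
    field_simp

theorem fC_eq_fT (h0 : 0 < ε) (h1 : ε ≤ 1 / 1000) (h2 : 5 * ε < ρ) (h3 : ρ ≤ 1 / 8)
    (L : LS ε ρ k e X) {q y x : ℝ} {Z p ν : ℂ} (h2x : 2 ≤ x) (hx : x ≤ 497 / 100)
    (hν : ‖ν‖ ≤ 497 / 100) (hE : E2 ε p = st (x * ex q)) (hX : X2 ε (y, Z) = x • st ν) :
    fT L (q, y, Z) = fC L (p, ν) := by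
  have hεc : (ε : ℂ) ≠ 0 := by
    exact_mod_cast h0.ne'
  have hx0 : 0 < x := by linarith
  set P : ℂ := ε * x * ex q with hP
  set R : ℂ := ε * ν with hR
  have hPn : ‖P‖ = ε * x := by
    rw [hP, norm_mul, norm_mul, ex_norm, mul_one, Complex.norm_real, Complex.norm_real,
      Real.norm_of_nonneg h0.le, Real.norm_of_nonneg hx0.le]
  have hRn : ‖R‖ = ε * ‖ν‖ := by
    rw [hR, norm_mul, Complex.norm_real, Real.norm_of_nonneg h0.le]
  have hP5' : ‖P‖ ≤ 497 / 100 * ε := by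
    rw [hPn]
    nlinarith
  have hR5' : ‖R‖ ≤ 497 / 100 * ε := by
    rw [hRn]
    nlinarith
  have hP5 : ‖P‖ < 5 * ε := by linarith
  have hR5 : ‖R‖ < 5 * ε := by linarith
  have hPre : |P.re| < 5 * ε := lt_of_le_of_lt (Complex.abs_re_le_norm _) hP5
  have hPim : |P.im| < 5 * ε := lt_of_le_of_lt (Complex.abs_im_le_norm _) hP5
  have hRre : |R.re| < 5 * ε := lt_of_le_of_lt (Complex.abs_re_le_norm _) hR5
  have hRim : |R.im| < 5 * ε := lt_of_le_of_lt (Complex.abs_im_le_norm _) hR5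
  have h4 : E2 ε P = E2 ε p := by
    rw [E2_corner h0 h1 hP5', hE, hP]
    congr 1
    field_simp
  obtain ⟨n, hn⟩ := E2_inj h0 h1 h4
  have hxn : ‖(x : ℂ)‖ = x := by
    rw [Complex.norm_real, Real.norm_of_nonneg hx0.le]
  have hMZ : MZ (x : ℂ) = x := by
    rw [MZ_big, hxn]
    rw [hxn]
    linarith
  have hwR : ww R.re = 1 := by
    apply ww_small
    linarith
  have h5 : X2 ε (R.re, x * ex R.im) = X2 ε (y, Z) := by
    rw [X2_polar h0 h1 (y' := R.re) hx0 (by rw [hMZ]) (by rw [hwR]; linarith), hwR, div_one, hX]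
    have h6 : (R.re : ℂ) + R.im * I = R := Complex.re_add_im R
    rw [h6, E2_corner h0 h1 hR5', hR]
    congr 2
    field_simp
  have h6 := (X2_bij h0 h1).1 h5
  rw [Prod.mk.injEq] at h6
  rw [← h6.1, ← h6.2, fT_G' L q R.re R.im (by linarith) (by linarith)]
  have hthR : thc R.im = 0 := by
    rw [abs_lt] at hRim
    apply thc_zero <;> linarith
  have hnsR : ns ε R.re = R.re := ns_small (by linarith)
  have e1 : ((ns ε R.re : ℝ) : ℂ) + (R.im : ℝ) * I = R := by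
    rw [hnsR]
    exact Complex.re_add_im R
  have e2 : (ε : ℂ) * x * ex (q + e * thc R.im) = P := by
    rw [hthR, mul_zero, add_zero]
  rw [e1, e2]
  have hpre : p.re = P.re := by
    rw [hn]
    simp
  have hpim : p.im = P.im + n := by
    rw [hn]
    simp
  have hwp : ww p.re = 1 := by
    apply ww_small
    rw [hpre]
    linarith
  have hthp : thc p.im = n := by
    rw [hpim, thc_add_int, thc_zero]
    · ring
    · rw [abs_lt] at hPim
      linarith
    · rw [abs_lt] at hPim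
      linarith
  have e3 : (ns ε p.re : ℂ) + p.im * I = P + n * I := by
    rw [hpre, ns_small (by linarith), hpim]
    apply Complex.ext <;> simp
  have e4 : ((ε * ww p.re : ℝ) : ℂ) * ex (k * thc p.im) * ν = R + 0 := by
    have h7 : ex (k * thc p.im) = 1 := by
      rw [hthp]
      have : ((k : ℝ) * (n : ℝ)) = ((k * n : ℤ) : ℝ) := by push_cast; ring
      rw [this, ex_int]
    rw [hwp, h7, mul_one, mul_one, hR, add_zero]
  unfold fC
  rw [e3, e4, L.G_per]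
  · right
    rw [fr_self' (by linarith)]
    show ‖R‖ < ρ
    linarith
  · exact ⟨0, n, by simp⟩
  · exact GI_zero

end Pool.Agent.TS
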