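import Pool.Agent.TS.StepLip
import Pool.Agent.TS.TwM

/-!
# TS/BbM: the direction correction `bb`

`artanh v = (log (1 + v) - log (1 - v)) / 2` for `‖v‖ < 1`, derivative `1 / (1 - v^2)`.  On `‖v‖ ≤ 1/30`:
`‖artanh v - v‖ ≤ (1/800) ‖v‖` (mean value: the derivative of `artanh v - v` is `v^2/(1-v^2)`, norm `≤ 1/899`).
Lipschitz: for `‖v‖, ‖w‖ ≤ 1/30`: `bb v - bb w = χ(v) (d v - d w) + (χ v - χ w) d w`, `d = artanh - id`,
`|χ v - χ w| ≤ 8 * 60 |‖v‖ - ‖w‖|` (`stp_lip`), `‖d w‖ ≤ (1/899) (1/30)`, total `≤ (1/899 + 480/26970) ‖v - w‖`.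
If `‖w‖ > 1/30 ≥ ‖v‖` then `bb w = 0` and `|χ v| = |χ v - χ w| ≤ 480 ‖v - w‖`.
-/

open scoped Manifold ContDiff Topology
open Complex (I)
open Set Filter

namespace Pool.Agent.TS
open Pool.Agent.CSG

theorem BbM_ne {v : ℂ} (h : ‖v‖ < 1) : 1 - v ≠ 0 ∧ 1 + v ≠ 0 := by
  constructor
  · intro h1
    have : v = 1 := (sub_eq_zero.1 h1).symm
    rw [this] at h; simp at h
  · intro h1
    have : v = -1 := by linear_combination h1
    rw [this] at h; simp at h

theorem BbM_re {v : ℂ} (h : ‖v‖ < 1) : 0 < ((1 + v) / (1 - v)).re := by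
  have hne := (BbM_ne h).1
  have hN : 0 < Complex.normSq (1 - v) := Complex.normSq_pos.2 hne
  have hv : v.re ^ 2 + v.im ^ 2 < 1 := by
    have h1 : Complex.normSq v < 1 := by
      rw [Complex.normSq_eq_norm_sq]
      have := norm_nonneg v
      nlinarith
    rw [Complex.normSq_apply] at h1
    nlinarith
  rw [Complex.div_re, ← add_div]
  apply div_pos _ hN
  simp only [Complex.add_re, Complex.one_re, Complex.sub_re, Complex.add_im, Complex.one_im,
    Complex.sub_im]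
  nlinarith

theorem BbM_slit {v : ℂ} (h : ‖v‖ < 1) : (1 + v) / (1 - v) ∈ Complex.slitPlane :=
  Or.inl (BbM_re h)

theorem BbM_smooth {v : ℂ} (h : ‖v‖ < 1) : ContDiffAt ℝ ∞ artanh v := by
  have h1 : ContDiffAt ℂ ∞ (fun v : ℂ => (1 + v) / (1 - v)) v :=
    (contDiffAt_const.add contDiffAt_id).div (contDiffAt_const.sub contDiffAt_id) (BbM_ne h).1
  have h2 : ContDiffAt ℂ ∞ artanh v := by
    unfold artanh
    exact (ContDiffAt.comp (g := Complex.log) (f := fun v : ℂ => (1 + v) / (1 - v)) v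
      (Complex.contDiffAt_log (BbM_slit h)) h1).div_const 2
  exact h2.restrict_scalars ℝ

theorem BbM_deriv {v : ℂ} (h : ‖v‖ < 1) :
    HasDerivAt (fun v : ℂ => artanh v - v) (v ^ 2 / (1 - v ^ 2)) v := by
  have hne := BbM_ne h
  have h1 : HasDerivAt (fun v : ℂ => (1 + v) / (1 - v)) (2 / (1 - v) ^ 2) v := by
    have := ((hasDerivAt_id v).const_add 1).div ((hasDerivAt_id v).const_sub 1) hne.1
    refine this.congr_deriv ?_
    simp only [id]
    ring
  have h2 := (h1.clog (BbM_slit h)).div_const 2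
  have h3 := h2.sub (hasDerivAt_id v)
  refine h3.congr_deriv ?_
  have e1 : (1 : ℂ) - v ^ 2 ≠ 0 := by
    have : (1 : ℂ) - v ^ 2 = (1 - v) * (1 + v) := by ring
    rw [this]
    exact mul_ne_zero hne.1 hne.2
  have := hne.1
  have := hne.2
  field_simp
  ring

theorem BbM_d_lip {v w : ℂ} (hv : ‖v‖ ≤ 1 / 30) (hw : ‖w‖ ≤ 1 / 30) :
    ‖(artanh v - v) - (artanh w - w)‖ ≤ (1 / 899) * ‖v - w‖ := by
  have hc : Convex ℝ (Metric.closedBall (0 : ℂ) (1 / 30)) := convex_closedBall _ _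
  refine hc.norm_image_sub_le_of_norm_hasDerivWithin_le (f := fun v : ℂ => artanh v - v)
    (f' := fun v => v ^ 2 / (1 - v ^ 2)) ?_ ?_ ?_ ?_
  · intro x hx
    have hx' : ‖x‖ ≤ 1 / 30 := by simpa using hx
    exact (BbM_deriv (by linarith)).hasDerivWithinAt
  · intro x hx
    have hx' : ‖x‖ ≤ 1 / 30 := by simpa using hx
    rw [norm_div, norm_pow]
    have h1 : ‖x‖ ^ 2 ≤ 1 / 900 := by
      have := norm_nonneg x
      nlinarith
    have h2 : 899 / 900 ≤ ‖1 - x ^ 2‖ := by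
      have := norm_sub_norm_le (1 : ℂ) (x ^ 2)
      rw [norm_one, norm_pow] at this
      linarith
    rw [div_le_iff₀ (by linarith)]
    linarith
  · simpa using hw
  · simpa using hv

theorem BbM_artanh_zero : artanh 0 = 0 := by
  unfold artanh; simp

theorem BbM_d_bound {v : ℂ} (hv : ‖v‖ ≤ 1 / 30) : ‖artanh v - v‖ ≤ (1 / 899) * ‖v‖ := by
  have := BbM_d_lip hv (w := 0) (by simp)
  simpa [BbM_artanh_zero] using this

theorem bb_zero {v : ℂ} (h : 1 / 30 ≤ ‖v‖) : bb v = 0 := by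
  unfold bb; rw [stp_one (by norm_num) h]; simp

theorem bb_small {v : ℂ} (h : ‖v‖ ≤ 1 / 60) : bb v = artanh v - v := by
  unfold bb; rw [stp_zero (by norm_num) h]; simp

theorem bb_smooth : ContDiff ℝ ∞ bb := by
  rw [contDiff_iff_contDiffAt]
  intro v
  rcases lt_or_ge ‖v‖ (1 / 60) with h | h
  · have : bb =ᶠ[𝓝 v] fun v => artanh v - v := by
      have ho : IsOpen {w : ℂ | ‖w‖ < 1 / 60} := isOpen_lt continuous_norm continuous_const
      filter_upwards [ho.mem_nhds h] with w hw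
      exact bb_small (le_of_lt hw)
    exact ((BbM_smooth (by linarith)).sub contDiffAt_id).congr_of_eventuallyEq this
  rcases lt_or_ge (1 / 30) ‖v‖ with h' | h'
  · have : bb =ᶠ[𝓝 v] fun _ => 0 := by
      have ho : IsOpen {w : ℂ | 1 / 30 < ‖w‖} := isOpen_lt continuous_const continuous_norm
      filter_upwards [ho.mem_nhds h'] with w hw
      exact bb_zero (le_of_lt hw)
    exact contDiffAt_const.congr_of_eventuallyEq this
  · have hv : v ≠ 0 := by
      rintro rfl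
      simp at h
      linarith
    have h1 : ContDiffAt ℝ ∞ (fun v : ℂ => ‖v‖) v := contDiffAt_norm ℝ hv
    have h2 : ContDiffAt ℝ ∞ (fun v : ℂ => stp (1 / 60) (1 / 30) ‖v‖) v :=
      ContDiffAt.comp (g := stp (1 / 60) (1 / 30)) (f := fun v : ℂ => ‖v‖) v
        (stp_smooth _ _).contDiffAt h1
    have h3 : ContDiffAt ℝ ∞ (fun v : ℂ => ((1 - stp (1 / 60) (1 / 30) ‖v‖ : ℝ) : ℂ)) v :=
      Complex.ofRealCLM.contDiff.contDiffAt.comp v (contDiffAt_const.sub h2)
    unfold bb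
    exact h3.mul ((BbM_smooth (by linarith)).sub contDiffAt_id)

theorem BbM_chi_bound (v : ℂ) : ‖((1 - stp (1 / 60) (1 / 30) ‖v‖ : ℝ) : ℂ)‖ ≤ 1 := by
  rw [Complex.norm_real, Real.norm_eq_abs, abs_le]
  have h1 := stp_nonneg (1 / 60) (1 / 30) ‖v‖
  have h2 := stp_le_one (1 / 60) (1 / 30) ‖v‖
  constructor <;> linarith

theorem BbM_chi_lip (v w : ℂ) :
    ‖((1 - stp (1 / 60) (1 / 30) ‖v‖ : ℝ) : ℂ) - ((1 - stp (1 / 60) (1 / 30) ‖w‖ : ℝ) : ℂ)‖ ≤
      480 * ‖v - w‖ := by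
  rw [← Complex.ofReal_sub, Complex.norm_real, Real.norm_eq_abs]
  have h1 := stp_lip (a := 1 / 60) (b := 1 / 30) (by norm_num) ‖w‖ ‖v‖
  have h2 := abs_norm_sub_norm_le w v
  rw [norm_sub_rev w v] at h2
  have e : (1 - stp (1 / 60) (1 / 30) ‖v‖) - (1 - stp (1 / 60) (1 / 30) ‖w‖) =
      stp (1 / 60) (1 / 30) ‖w‖ - stp (1 / 60) (1 / 30) ‖v‖ := by ring
  rw [e]
  refine h1.trans ?_
  norm_num
  linarith

theorem bb_bound (v : ℂ) : ‖bb v‖ ≤ (1 / 800) * ‖v‖ := by
  have h0 := norm_nonneg v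
  rcases le_total (1 / 30) ‖v‖ with h | h
  · rw [bb_zero h]; simp
  · unfold bb
    rw [norm_mul]
    calc _ ≤ 1 * ‖artanh v - v‖ := mul_le_mul_of_nonneg_right (BbM_chi_bound v) (norm_nonneg _)
      _ ≤ (1 / 899) * ‖v‖ := by rw [one_mul]; exact BbM_d_bound h
      _ ≤ (1 / 800) * ‖v‖ := by linarith

theorem BbM_lip_out {v w : ℂ} (hv : ‖v‖ ≤ 1 / 30) (hw : 1 / 30 ≤ ‖w‖) :
    ‖bb v - bb w‖ ≤ (1 / 4) * ‖v - w‖ := by
  have h0 := norm_nonneg (v - w)
  rw [bb_zero hw, sub_zero]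
  have h1 := BbM_chi_lip v w
  have e : ((1 - stp (1 / 60) (1 / 30) ‖w‖ : ℝ) : ℂ) = 0 := by
    rw [stp_one (by norm_num) hw]; simp
  rw [e, sub_zero] at h1
  unfold bb
  rw [norm_mul]
  have h2 : ‖artanh v - v‖ ≤ (1 / 899) * (1 / 30) := by
    have := BbM_d_bound hv
    linarith
  calc _ ≤ (480 * ‖v - w‖) * ((1 / 899) * (1 / 30)) :=
        mul_le_mul h1 h2 (norm_nonneg _) (by positivity)
    _ ≤ (1 / 4) * ‖v - w‖ := by linarith

theorem bb_lip (v w : ℂ) : ‖bb v - bb w‖ ≤ (1 / 4) * ‖v - w‖ := by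
  rcases le_total (1 / 30) ‖w‖ with hw | hw
  · rcases le_total (1 / 30) ‖v‖ with hv | hv
    · rw [bb_zero hw, bb_zero hv]; simp
    · exact BbM_lip_out hv hw
  · rcases le_total (1 / 30) ‖v‖ with hv | hv
    · rw [norm_sub_rev, norm_sub_rev v w]
      exact BbM_lip_out hw hv
    · have h0 := norm_nonneg (v - w)
      have e : bb v - bb w = ((1 - stp (1 / 60) (1 / 30) ‖v‖ : ℝ) : ℂ) *
          ((artanh v - v) - (artanh w - w)) +
          (((1 - stp (1 / 60) (1 / 30) ‖v‖ : ℝ) : ℂ) - ((1 - stp (1 / 60) (1 / 30) ‖w‖ : ℝ) : ℂ)) *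
            (artanh w - w) := by
        unfold bb; ring
      rw [e]
      refine (norm_add_le _ _).trans ?_
      rw [norm_mul, norm_mul]
      have h1 := mul_le_mul (BbM_chi_bound v) (BbM_d_lip hv hw) (norm_nonneg _) zero_le_one
      have h2 : ‖artanh w - w‖ ≤ (1 / 899) * (1 / 30) := by
        have := BbM_d_bound hw
        linarith
      have h3 := mul_le_mul (BbM_chi_lip v w) h2 (norm_nonneg _) (by positivity)
      linarith

theorem BbM_tau_lip {τ : ℝ} (h0 : 0 ≤ τ) (h1 : τ ≤ 1) (v w : ℂ) :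
    ‖(τ : ℂ) * bb v - (τ : ℂ) * bb w‖ ≤ (1 / 4) * ‖v - w‖ := by
  rw [← mul_sub, norm_mul, Complex.norm_real, Real.norm_eq_abs, abs_of_nonneg h0]
  calc τ * ‖bb v - bb w‖ ≤ 1 * ‖bb v - bb w‖ := mul_le_mul_of_nonneg_right h1 (norm_nonneg _)
    _ ≤ _ := by rw [one_mul]; exact bb_lip v w

theorem BbM_inj {τ : ℝ} (h0 : 0 ≤ τ) (h1 : τ ≤ 1) :
    Function.Injective fun v : ℂ => v + (τ : ℂ) * bb v := by
  intro v w h
  have h' : v + (τ : ℂ) * bb v = w + (τ : ℂ) * bb w := h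
  have e : v - w = -((τ : ℂ) * bb v - (τ : ℂ) * bb w) := by linear_combination h'
  have h2 := BbM_tau_lip h0 h1 v w
  have h3 : ‖v - w‖ ≤ (1 / 4) * ‖v - w‖ := by
    rw [← norm_neg, ← e] at h2
    exact h2
  have h4 := norm_nonneg (v - w)
  have h5 : ‖v - w‖ = 0 := by linarith
  exact sub_eq_zero.1 (norm_eq_zero.1 h5)

/-- `v ↦ v + τ bb v` is a bijection of the plane (Banach fixed point theorem). -/
theorem bb_bij {τ : ℝ} (h0 : 0 ≤ τ) (h1 : τ ≤ 1) :
    Function.Bijective fun v : ℂ => v + (τ : ℂ) * bb v := by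
  refine ⟨BbM_inj h0 h1, ?_⟩
  intro z
  have hc : ContractingWith (1 / 4) (fun v : ℂ => z - (τ : ℂ) * bb v) := by
    refine ⟨by
      rw [← NNReal.coe_lt_coe]
      norm_num, LipschitzWith.of_dist_le_mul ?_⟩
    intro v w
    rw [dist_eq_norm, dist_eq_norm]
    have e : (z - (τ : ℂ) * bb v) - (z - (τ : ℂ) * bb w) =
        -((τ : ℂ) * bb v - (τ : ℂ) * bb w) := by ring
    rw [e, norm_neg]
    refine (BbM_tau_lip h0 h1 v w).trans (le_of_eq ?_)
    norm_num
  refine ⟨hc.fixedPoint _, ?_⟩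
  have h := hc.fixedPoint_isFixedPt
  have h2 : z - (τ : ℂ) * bb (hc.fixedPoint _) = hc.fixedPoint _ := h
  show hc.fixedPoint _ + (τ : ℂ) * bb (hc.fixedPoint _) = z
  linear_combination -h2

theorem bb_disc {τ : ℝ} (h0 : 0 ≤ τ) (h1 : τ ≤ 1) (v : ℂ) :
    ‖v + (τ : ℂ) * bb v‖ < 1 / 30 ↔ ‖v‖ < 1 / 30 := by
  constructor
  · intro h
    by_contra hv
    rw [not_lt] at hv
    rw [bb_zero hv] at h
    simp at h
    linarith
  · intro h
    by_contra hv
    rw [not_lt] at hv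
    have h2 := bb_zero hv
    have h3 : (fun v : ℂ => v + (τ : ℂ) * bb v) (v + (τ : ℂ) * bb v) =
        (fun v : ℂ => v + (τ : ℂ) * bb v) v := by
      simp only
      rw [h2]
      simp
    have h4 := BbM_inj h0 h1 h3
    rw [h4] at hv
    linarith

/-- the derivative is injective -/
theorem bb_fderiv {τ : ℝ} (h0 : 0 ≤ τ) (h1 : τ ≤ 1) (v w : ℂ)
    (h : w + (τ : ℂ) * fderiv ℝ bb v w = 0) : w = 0 := by
  have hl : LipschitzWith (1 / 4) bb := by
    apply LipschitzWith.of_dist_le_mul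
    intro v w
    rw [dist_eq_norm, dist_eq_norm]
    refine (bb_lip v w).trans (le_of_eq ?_)
    norm_num
  have h2 : ‖fderiv ℝ bb v‖ ≤ 1 / 4 := by
    have := norm_fderiv_le_of_lipschitz ℝ (x₀ := v) hl
    refine this.trans (le_of_eq ?_)
    norm_num
  have h3 : ‖fderiv ℝ bb v w‖ ≤ (1 / 4) * ‖w‖ :=
    ((fderiv ℝ bb v).le_opNorm w).trans (mul_le_mul_of_nonneg_right h2 (norm_nonneg _))
  have e : w = -((τ : ℂ) * fderiv ℝ bb v w) := by linear_combination h
  have h4 : ‖w‖ ≤ (1 / 4) * ‖w‖ := by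
    calc ‖w‖ = ‖(τ : ℂ) * fderiv ℝ bb v w‖ := by
          conv_lhs => rw [e]
          rw [norm_neg]
      _ = τ * ‖fderiv ℝ bb v w‖ := by
          rw [norm_mul, Complex.norm_real, Real.norm_eq_abs, abs_of_nonneg h0]
      _ ≤ 1 * ‖fderiv ℝ bb v w‖ := mul_le_mul_of_nonneg_right h1 (norm_nonneg _)
      _ ≤ _ := by rw [one_mul]; exact h3
  have h5 := norm_nonneg w
  exact norm_eq_zero.1 (by linarith)

theorem tanh_artanh {v : ℂ} (h : ‖v‖ < 1) : Complex.tanh (artanh v) = v := by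
  have hne := BbM_ne h
  have hu : (1 + v) / (1 - v) ≠ 0 := div_ne_zero hne.2 hne.1
  have he : Complex.exp (artanh v) * Complex.exp (artanh v) = (1 + v) / (1 - v) := by
    rw [← Complex.exp_add]
    unfold artanh
    rw [add_halves, Complex.exp_log hu]
  have hc := Complex.cosh_add_sinh (artanh v)
  have hs := Complex.cosh_sub_sinh (artanh v)
  rw [Complex.exp_neg] at hs
  have hE : Complex.exp (artanh v) ≠ 0 := Complex.exp_ne_zero _
  generalize Complex.exp (artanh v) = E at he hc hs hE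
  have e1 : Complex.cosh (artanh v) = (E + E⁻¹) / 2 := by linear_combination (hc + hs) / 2
  have e2 : Complex.sinh (artanh v) = (E - E⁻¹) / 2 := by linear_combination (hc - hs) / 2
  rw [Complex.tanh_eq_sinh_div_cosh, e1, e2]
  have h1 : E * E * (1 - v) = 1 + v := by
    rw [he]; field_simp [hne.1]
  have h2 : E + E⁻¹ ≠ 0 := by
    intro h0
    have h3 : E * E + 1 = 0 := by
      have : E * (E + E⁻¹) = 0 := by rw [h0, mul_zero]
      rw [mul_add, mul_inv_cancel₀ hE] at this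
      exact this
    have h4 : (E * E + 1) * (1 - v) = 2 := by linear_combination h1
    rw [h3, zero_mul] at h4
    norm_num at h4
  rw [div_div_div_cancel_right₀ (by norm_num : (2 : ℂ) ≠ 0), div_eq_iff h2]
  have h5 : E * (E - E⁻¹) = E * (v * (E + E⁻¹)) := by
    have h6 : E * (E - E⁻¹) = E * E - 1 := by rw [mul_sub, mul_inv_cancel₀ hE]
    have h7 : E * (v * (E + E⁻¹)) = v * (E * E + 1) := by
      have : E * (v * (E + E⁻¹)) = v * (E * E + E * E⁻¹) := by ring
      rw [this, mul_inv_cancel₀ hE]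
    rw [h6, h7]
    linear_combination h1
  exact mul_left_cancel₀ hE h5

theorem BbM_cosh {z : ℂ} (h : |z.im| < Real.pi / 4) : Complex.cosh z ≠ 0 := by
  intro h0
  have h1 : Complex.exp (2 * z) = -1 := by
    have hc := Complex.cosh_add_sinh z
    have hs := Complex.cosh_sub_sinh z
    have h2 : Complex.exp z = -Complex.exp (-z) := by
      rw [← hc, ← hs, h0]; ring
    have h3 : Complex.exp (2 * z) = Complex.exp z * Complex.exp z := by
      rw [← Complex.exp_add]; ring_nf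
    have h4 : Complex.exp z * Complex.exp (-z) = 1 := by
      rw [← Complex.exp_add]; simp
    rw [h3]
    nth_rw 2 [h2]
    linear_combination -h4
  have h2 : 0 < (Complex.exp (2 * z)).re := by
    rw [Complex.exp_re]
    apply mul_pos (Real.exp_pos _)
    apply Real.cos_pos_of_mem_Ioo
    have h5 := abs_lt.1 h
    have h6 : (2 * z).im = 2 * z.im := by simp
    rw [h6]
    constructor <;> linarith [h5.1, h5.2]
  rw [h1] at h2
  norm_num at h2

theorem BbM_tanh {z : ℂ} (h : |z.im| < Real.pi / 4) :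
    1 + Complex.tanh z = Complex.exp z / Complex.cosh z ∧
      1 - Complex.tanh z = Complex.exp (-z) / Complex.cosh z := by
  have hc := BbM_cosh h
  rw [Complex.tanh_eq_sinh_div_cosh, ← Complex.cosh_add_sinh, ← Complex.cosh_sub_sinh]
  constructor <;> field_simp

theorem tanh_ne {z : ℂ} (h : |z.im| < Real.pi / 4) :
    1 + Complex.tanh z ≠ 0 ∧ 1 - Complex.tanh z ≠ 0 := by
  obtain ⟨h1, h2⟩ := BbM_tanh h
  rw [h1, h2]
  exact ⟨div_ne_zero (Complex.exp_ne_zero _) (BbM_cosh h),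
    div_ne_zero (Complex.exp_ne_zero _) (BbM_cosh h)⟩

theorem artanh_tanh {z : ℂ} (h : |z.im| < Real.pi / 4) : artanh (Complex.tanh z) = z := by
  obtain ⟨h1, h2⟩ := BbM_tanh h
  unfold artanh
  rw [h1, h2, div_div_div_cancel_right₀ (BbM_cosh h), ← Complex.exp_sub]
  have e : z - -z = 2 * z := by ring
  have h5 := abs_lt.1 h
  have h6 : (2 * z).im = 2 * z.im := by simp
  have hp := Real.pi_pos
  rw [e, Complex.log_exp (by rw [h6]; linarith [h5.1]) (by rw [h6]; linarith [h5.2])]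
  ring

end Pool.Agent.TS
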