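import Pool.Agent.TS.BDef

/-!
# TS/LiftM: a set theoretic lift lemma
`F b` := `f i a` for a choice of `(i, a)` with `a ∈ U i`, `Om i a = b` if it exists, else arbitrary.
-/

open scoped Manifold ContDiff Topology
open Complex (I)
open Set Filter

namespace Pool.Agent.TS
open Pool.Agent.CSG

theorem lift {B X ι : Type*} {A : ι → Type*} [Nonempty X] (U : ∀ i, Set (A i)) (Om : ∀ i, A i → B)
    (f : ∀ i, A i → X)
    (h : ∀ i j a b, a ∈ U i → b ∈ U j → (Om i a = Om j b ↔ f i a = f j b)) :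
    ∃ F : B → X, (∀ i a, a ∈ U i → F (Om i a) = f i a) ∧
      ∀ i j a b, a ∈ U i → b ∈ U j → F (Om i a) = F (Om j b) → Om i a = Om j b := by
  classical
  have key : ∀ b : B, ∃ x : X, ∀ i a, a ∈ U i → Om i a = b → x = f i a := by
    intro b
    by_cases hb : ∃ i a, a ∈ U i ∧ Om i a = b
    · obtain ⟨i, a, ha, hab⟩ := hb
      refine ⟨f i a, fun j a' ha' hab' => ?_⟩
      exact (h i j a a' ha ha').1 (by rw [hab, hab'])
    · refine ⟨Classical.arbitrary X, fun j a' ha' hab' => ?_⟩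
      exact absurd ⟨j, a', ha', hab'⟩ hb
  choose F hF using key
  refine ⟨F, fun i a ha => hF _ i a ha rfl, fun i j a b ha hb hab => ?_⟩
  rw [hF _ i a ha rfl, hF _ j b hb rfl] at hab
  exact (h i j a b ha hb).2 hab

end Pool.Agent.TS
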