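import Pool.Agent.TS.CovM
import Pool.Agent.TS.APM
import Pool.Agent.TS.ATCM
import Pool.Agent.TS.LiftM

/-!
# TS/FExM: the map `F`
`lift` with the charts T: `nr (X2 (y, Z)) < 4`; C: `‖ν‖ < 4`, `(E2 ε p).1 < -3/5`; P (`sg = ± 1`): `‖ν‖ < 4`, `‖ζ‖ < 1/4`
(index type: `Unit ⊕ Unit ⊕ {sg // sg^2 = 1}` or similar).  Note `nr X2 < 4` implies `‖Z‖ < 4` (`norm_Z_le`),
`(E2 ε p).1 < -3/5` implies `p ≠ n i` (`E2_corner` at `0`: `E2 ε (n i) = st 0 = (1, 0)`), `ww ≤ 1`.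
T-T: `OmT_inj`, `OmT_per`, `fT_inj`, `fT_per`.  C-C, P-P similar.
T-C: `OmT = OmC` gives (`OmT_eq_OmC`) `x = nr X2 ∈ [2, 4)`, `X2 = x • st ν`, `E2 = st (x ex q)`, so `fC_eq_fT`.
Conversely `fT_eq_fC`: `2 ≤ ‖Z‖ ≤ nr X2 < 4`, so `OmT_corner` with `x = ‖Z‖`.
T-P: both false (`OmT_eq_OmP`, `jK_ne_fT`).  C-P: `OmC_eq_OmP`, `fP_eq_fC`, `fP_fC`.
`loc`: `cover` with `R = 4` (`-15/17 < -3/5`): `F ∘ Om = f` near the point (the chart domains are open), use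
`ld_of_comp_left`.  `inj` from the lift lemma and `cover`.
-/

open scoped Manifold ContDiff Topology
open Complex (I)
open Set Filter

namespace Pool.Agent.TS
open Pool.Agent.CSG

variable {X : Type*} [TopologicalSpace X] [ChartedSpace E4 X] {ε ρ : ℝ} {k e : ℤ}

/-- the chart domains -/
def FExM_U (ε : ℝ) : Set ((ℝ × ℝ × ℂ) ⊕ (ℂ × ℂ) ⊕ (ℝ × ℂ × ℂ)) :=
  {a | match a with
    | .inl b => nr (X2 ε b.2) < 4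
    | .inr (.inl b) => ‖b.2‖ < 4 ∧ (E2 ε b.1).1 < -(3 / 5)
    | .inr (.inr b) => b.1 ^ 2 = 1 ∧ ‖b.2.1‖ < 4 ∧ ‖b.2.2‖ < 1 / 4}

noncomputable def FExM_Om (ε : ℝ) : (ℝ × ℝ × ℂ) ⊕ (ℂ × ℂ) ⊕ (ℝ × ℂ × ℂ) → ℂ × ℂ
  | .inl b => OmT ε b
  | .inr (.inl b) => OmC ε b
  | .inr (.inr b) => OmP ε b.1 b.2

noncomputable def FExM_f (L : LS ε ρ k e X) : (ℝ × ℝ × ℂ) ⊕ (ℂ × ℂ) ⊕ (ℝ × ℂ × ℂ) → X
  | .inl b => fT L b
  | .inr (.inl b) => fC L b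
  | .inr (.inr b) => fP L b.1 b.2

theorem FExM_Z (h0 : 0 < ε) (h1 : ε ≤ 1 / 1000) {y : ℝ} {Z : ℂ} (h : nr (X2 ε (y, Z)) < 4) :
    ‖Z‖ < 4 := by
  rcases le_or_gt 1 ‖Z‖ with h2 | h2
  · exact lt_of_le_of_lt (norm_Z_le h0 h1 y Z h2) h
  · linarith

theorem FExM_ww {p ν : ℂ} (h : ‖ν‖ < 4) : ww p.re * ‖ν‖ < 5 := by
  have h1 := ww_le_one p.re
  have h2 := ww_pos p.re
  have h3 := norm_nonneg ν
  nlinarith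

theorem FExM_ne (h0 : 0 < ε) (h1 : ε ≤ 1 / 1000) {p : ℂ} (h : (E2 ε p).1 < -(3 / 5)) :
    ∀ n : ℤ, p ≠ n * I := by
  intro n hn
  have h2 : p = 0 + n * I := by rw [hn, zero_add]
  rw [h2, E2_per, E2_corner h0 h1 (by rw [norm_zero]; positivity), zero_div] at h
  simp [st] at h
  linarith

theorem FExM_TT (h0 : 0 < ε) (h1 : ε ≤ 1 / 1000) (L : LS ε ρ k e X) {q y q' y' : ℝ} {Z Z' : ℂ}
    (h : nr (X2 ε (y, Z)) < 4) (h' : nr (X2 ε (y', Z')) < 4) :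
    OmT ε (q, y, Z) = OmT ε (q', y', Z') ↔ fT L (q, y, Z) = fT L (q', y', Z') := by
  have hZ := FExM_Z h0 h1 h
  have hZ' := FExM_Z h0 h1 h'
  constructor
  · intro he
    obtain ⟨⟨n, rfl⟩, rfl, rfl⟩ := OmT_inj h0 h1 he
    rw [fT_per]
  · intro he
    obtain ⟨⟨n, rfl⟩, rfl, rfl⟩ := fT_inj h0 h1 L (by linarith) (by linarith) he
    rw [OmT_per]

theorem FExM_CC (h0 : 0 < ε) (h1 : ε ≤ 1 / 1000) (h2 : 5 * ε < ρ) (h3 : ρ ≤ 1 / 8)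
    (L : LS ε ρ k e X) {p ν p' ν' : ℂ} (hν : ‖ν‖ < 4) (h : (E2 ε p).1 < -(3 / 5)) (hν' : ‖ν'‖ < 4)
    (h' : (E2 ε p').1 < -(3 / 5)) :
    OmC ε (p, ν) = OmC ε (p', ν') ↔ fC L (p, ν) = fC L (p', ν') := by
  constructor
  · intro he
    obtain ⟨⟨n, rfl⟩, rfl⟩ := OmC_inj h0 h1 (by linarith) (by linarith) he
    rw [fC_per h0 h2 h3 L (FExM_ww hν)]
  · intro he
    obtain ⟨⟨n, rfl⟩, rfl⟩ := fC_inj h0 h1 h2 h3 L (FExM_ww hν) (FExM_ww hν')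
      (FExM_ne h0 h1 h) (FExM_ne h0 h1 h') he
    rw [OmC_per]

theorem FExM_PP (h0 : 0 < ε) (h1 : ε ≤ 1 / 1000)
    (L : LS ε ρ k e X) {sg sg' : ℝ} (hs : sg ^ 2 = 1) (hs' : sg' ^ 2 = 1) {ν ζ ν' ζ' : ℂ}
    (h : ‖ζ‖ < 1 / 4) (h' : ‖ζ'‖ < 1 / 4) :
    OmP ε sg (ν, ζ) = OmP ε sg' (ν', ζ') ↔ fP L sg (ν, ζ) = fP L sg' (ν', ζ') := by
  constructor
  · intro he
    obtain ⟨rfl, rfl, rfl⟩ := OmP_inj h0 h1 hs hs' h h' he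
    rfl
  · intro he
    obtain ⟨rfl, rfl, rfl⟩ := fP_inj L hs hs' (by linarith) (by linarith) he
    rfl

theorem FExM_TC (h0 : 0 < ε) (h1 : ε ≤ 1 / 1000) (h2 : 5 * ε < ρ) (h3 : ρ ≤ 1 / 8)
    (L : LS ε ρ k e X) {q y : ℝ} {Z p ν : ℂ} (h : nr (X2 ε (y, Z)) < 4) (hν : ‖ν‖ < 4)
    (hp : (E2 ε p).1 < -(3 / 5)) :
    OmT ε (q, y, Z) = OmC ε (p, ν) ↔ fT L (q, y, Z) = fC L (p, ν) := by
  constructor
  · intro he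
    obtain ⟨a1, a2, a3⟩ := OmT_eq_OmC h0 h1 hp.le he
    exact fC_eq_fT h0 h1 h2 h3 L a1 (by linarith) (by linarith) a3 a2
  · intro he
    have hZ := FExM_Z h0 h1 h
    obtain ⟨a1, a2, a3⟩ := fT_eq_fC h0 h1 h2 h3 L (by linarith) (FExM_ww hν) hp.le he
    exact OmT_corner a1 (a3 (by linarith)) (a2 (by linarith))

theorem FExM_TP (h0 : 0 < ε) (h1 : ε ≤ 1 / 1000) (h2 : 5 * ε < ρ) (h3 : ρ ≤ 1 / 8)
    (L : LS ε ρ k e X) {q y sg : ℝ} {Z ν ζ : ℂ} (h : nr (X2 ε (y, Z)) < 4) (hs : sg ^ 2 = 1)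
    (hζ : ‖ζ‖ < 1 / 4) :
    OmT ε (q, y, Z) = OmP ε sg (ν, ζ) ↔ fT L (q, y, Z) = fP L sg (ν, ζ) := by
  constructor
  · intro he
    have := OmT_eq_OmP h0 h1 hs hζ he
    linarith
  · intro he
    have hZ := FExM_Z h0 h1 h
    exact absurd he.symm (jK_ne_fT h0 h1 h2 h3 L (Y := hS sg ν) (ζ := ζ) (by linarith)
      (by linarith))

theorem FExM_CP (h0 : 0 < ε) (h1 : ε ≤ 1 / 1000) (h2 : 5 * ε < ρ) (h3 : ρ ≤ 1 / 8)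
    (L : LS ε ρ k e X) {sg : ℝ} {p ν ν' ζ : ℂ} (hν : ‖ν‖ < 4)
    (hp : (E2 ε p).1 < -(3 / 5)) (hs : sg ^ 2 = 1) (hζ : ‖ζ‖ < 1 / 4) :
    OmC ε (p, ν) = OmP ε sg (ν', ζ) ↔ fC L (p, ν) = fP L sg (ν', ζ) := by
  rw [OmC_eq_OmP h0 h1 hs (by linarith) hζ]
  constructor
  · rintro ⟨rfl, a2⟩
    exact (fP_eq_fC h0 h1 h2 h3 L hs hζ a2).symm
  · intro he
    obtain ⟨rfl, a2⟩ := fP_fC h0 h1 h2 h3 L hs hζ (FExM_ww hν) (FExM_ne h0 h1 hp) he.symm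
    exact ⟨rfl, a2⟩

theorem FExM_rel (h0 : 0 < ε) (h1 : ε ≤ 1 / 1000) (h2 : 5 * ε < ρ) (h3 : ρ ≤ 1 / 8)
    (L : LS ε ρ k e X) (a b) (ha : a ∈ FExM_U ε) (hb : b ∈ FExM_U ε) :
    FExM_Om ε a = FExM_Om ε b ↔ FExM_f L a = FExM_f L b := by
  rcases a with ⟨q, y, Z⟩ | ⟨p, ν⟩ | ⟨sg, ν, ζ⟩ <;> rcases b with ⟨q', y', Z'⟩ | ⟨p', ν'⟩ | ⟨sg', ν', ζ'⟩
  · exact FExM_TT h0 h1 L ha hb
  · exact FExM_TC h0 h1 h2 h3 L ha hb.1 hb.2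
  · exact FExM_TP h0 h1 h2 h3 L ha hb.1 hb.2.2
  · rw [eq_comm, eq_comm (a := FExM_f L _)]
    exact FExM_TC h0 h1 h2 h3 L hb ha.1 ha.2
  · exact FExM_CC h0 h1 h2 h3 L ha.1 ha.2 hb.1 hb.2
  · exact FExM_CP h0 h1 h2 h3 L ha.1 ha.2 hb.1 hb.2.2
  · rw [eq_comm, eq_comm (a := FExM_f L _)]
    exact FExM_TP h0 h1 h2 h3 L hb ha.1 ha.2.2
  · rw [eq_comm, eq_comm (a := FExM_f L _)]
    exact FExM_CP h0 h1 h2 h3 L hb.1 hb.2 ha.1 ha.2.2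
  · exact FExM_PP h0 h1 L ha.1 hb.1 ha.2.2 hb.2.2

theorem exists_F (h0 : 0 < ε) (h1 : ε ≤ 1 / 1000) (h2 : 5 * ε < ρ) (h3 : ρ ≤ 1 / 8)
    (L : LS ε ρ k e X) : ∃ F, IsF L F := by
  haveI : Nonempty X := ⟨L.G (0, 0)⟩
  obtain ⟨F, hF, hinj⟩ := lift (ι := Unit) (fun _ => FExM_U ε) (fun _ => FExM_Om ε)
    (fun _ => FExM_f L) (fun _ _ a b ha hb => FExM_rel h0 h1 h2 h3 L a b ha hb)
  have hF' : ∀ a ∈ FExM_U ε, F (FExM_Om ε a) = FExM_f L a := fun a ha => hF () a ha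
  have hinj' : ∀ a ∈ FExM_U ε, ∀ b ∈ FExM_U ε, F (FExM_Om ε a) = F (FExM_Om ε b) →
      FExM_Om ε a = FExM_Om ε b := fun a ha b hb => hinj () () a b ha hb
  have hcov : ∀ b, ¬ Far 4 b → (∃ q y Z, nr (X2 ε (y, Z)) < 4 ∧ b = OmT ε (q, y, Z)) ∨
    (∃ p ν, ‖ν‖ < 4 ∧ (E2 ε p).1 < -(3 / 5) ∧ b = OmC ε (p, ν)) ∨
    (∃ (sg : ℝ) (ν : ℂ), sg ^ 2 = 1 ∧ ‖ν‖ < 4 ∧ b = OmP ε sg (ν, 0)) := by
    intro b hb
    rcases cover h0 h1 (R := 4) (by norm_num) (by norm_num) hb with h | ⟨p, ν, a1, a2, a3⟩ | h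
    · exact Or.inl h
    · refine Or.inr (Or.inl ⟨p, ν, a1, ?_, a3⟩)
      norm_num at a2
      linarith
    · exact Or.inr (Or.inr h)
  have hcov' : ∀ b, ¬ Far 4 b → ∃ a ∈ FExM_U ε, b = FExM_Om ε a := by
    intro b hb
    rcases hcov b hb with ⟨q, y, Z, a1, a2⟩ | ⟨p, ν, a1, a2, a3⟩ | ⟨sg, ν, a1, a2, a3⟩
    · exact ⟨.inl (q, y, Z), a1, a2⟩
    · exact ⟨.inr (.inl (p, ν)), ⟨a1, a2⟩, a3⟩
    · exact ⟨.inr (.inr (sg, ν, 0)), ⟨a1, a2, by simp⟩, a3⟩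
  have hT : ∀ q y Z, nr (X2 ε (y, Z)) < 4 → F (OmT ε (q, y, Z)) = fT L (q, y, Z) :=
    fun q y Z h => hF' (.inl (q, y, Z)) h
  have hC : ∀ p ν, ‖ν‖ < 4 → (E2 ε p).1 < -(3 / 5) → F (OmC ε (p, ν)) = fC L (p, ν) :=
    fun p ν h h' => hF' (.inr (.inl (p, ν))) ⟨h, h'⟩
  have hP : ∀ sg ν ζ, sg ^ 2 = 1 → ‖ν‖ < 4 → ‖ζ‖ < 1 / 4 → F (OmP ε sg (ν, ζ)) = fP L sg (ν, ζ) :=
    fun sg ν ζ h h' h'' => hF' (.inr (.inr (sg, ν, ζ))) ⟨h, h', h''⟩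
  refine ⟨F, ⟨hT, hC, hP, ?_, ?_⟩⟩
  · intro b hb
    rcases hcov b hb with ⟨q, y, Z, a1, rfl⟩ | ⟨p, ν, a1, a2, rfl⟩ | ⟨sg, ν, a1, a2, rfl⟩
    · have hZ := FExM_Z h0 h1 a1
      refine ld_of_comp_left (I := 𝓘(ℝ, ℝ × ℝ × ℂ)) (f := OmT ε) ?_ (OmT_ld h0 h1 _)
      refine ld_congr (fT_ld h0 h1 L (a := (q, y, Z)) (show ‖Z‖ < 5 by linarith)) ?_
      have hc : ContinuousAt (fun a : ℝ × ℝ × ℂ => nr (X2 ε a.2)) (q, y, Z) :=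
        nr_continuous.continuousAt.comp
          ((ld_continuousAt (X2_ld h0 h1 (y, Z))).comp (f := fun a : ℝ × ℝ × ℂ => a.2)
            (x := (q, y, Z)) continuous_snd.continuousAt)
      filter_upwards [hc.eventually_lt_const a1] with a ha
      exact hT a.1 a.2.1 a.2.2 ha
    · refine ld_of_comp_left (I := 𝓘(ℝ, ℂ × ℂ)) (f := OmC ε) ?_
        (OmC_ld h0 h1 ν (by linarith))
      refine ld_congr (fC_ld h0 h1 h2 h3 L (FExM_ww a1) (FExM_ne h0 h1 a2)) ?_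
      have hc1 : Continuous fun a : ℂ × ℂ => ‖a.2‖ := continuous_snd.norm
      have hc2 : Continuous fun a : ℂ × ℂ => (E2 ε a.1).1 :=
        continuous_fst.comp ((E2_smooth h0 h1).continuous.comp continuous_fst)
      filter_upwards [(hc1.continuousAt (x := (p, ν))).eventually_lt_const a1,
        (hc2.continuousAt (x := (p, ν))).eventually_lt_const a2] with a ha ha'
      exact hC a.1 a.2 ha ha'
    · refine ld_of_comp_left (I := 𝓘(ℝ, ℂ × ℂ)) (f := OmP ε sg) ?_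
        (OmP_ld h0 h1 a1 ν (by simp))
      refine ld_congr (fP_ld L a1 ν (ζ := 0) (by simp)) ?_
      have hc1 : Continuous fun a : ℂ × ℂ => ‖a.1‖ := continuous_fst.norm
      have hc2 : Continuous fun a : ℂ × ℂ => ‖a.2‖ := continuous_snd.norm
      filter_upwards [(hc1.continuousAt (x := (ν, 0))).eventually_lt_const a2,
        (hc2.continuousAt (x := (ν, 0))).eventually_lt_const
          (show ‖((ν, 0) : ℂ × ℂ).2‖ < 1 / 4 by simp)] with a ha ha'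
      exact hP sg a.1 a.2 a1 ha ha'
  · intro b b' hb hb' he
    obtain ⟨a, ha, rfl⟩ := hcov' b hb
    obtain ⟨a', ha', rfl⟩ := hcov' b' hb'
    exact hinj' a ha a' ha' he

end Pool.Agent.TS
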