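import Pool.Agent.TS.PDef

/-!
# TS/Fn: the explicit functions of the local theorem `swap`

`R3 = ℝ × ℂ` is used as `R^3` with the euclidean norm `nr`.  The ball model is `ℂ × ℂ`.
All functions depend on the parameter `ε` (`0 < ε ≤ 1/1000`), `h = π ε`.

Charts of the ball model (see TS/blueprint.md):
* `OmT ε (q, y, Z)`: the side of the torus with the logarithmic transform,
* `OmC ε (p, ν)`: the side of the surgered torus, `p ∈ ℂ` modulo `i`, normal coordinate `ν`,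
* `OmP ε sg (ν, ζ)`: the same near the two poles (`sg = ± 1`).
-/

open scoped Manifold ContDiff
open Complex (I)

namespace Pool.Agent.TS
open Pool.Agent.CSG

/-- `R^3 = ℝ × ℂ` -/
abbrev R3 := ℝ × ℂ

/-- euclidean norm of `R^3` -/
noncomputable def nr (X : R3) : ℝ := √(X.1 ^ 2 + ‖X.2‖ ^ 2)

/-- inverse stereographic projection (from the point `(-1, 0)`) -/
noncomputable def st (v : ℂ) : R3 := (1 + ‖v‖ ^ 2)⁻¹ • ((1 - ‖v‖ ^ 2, 2 * v) : R3)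

noncomputable def sech (x : ℝ) : ℝ := (Real.cosh x)⁻¹

/-- step from `0` (`x ≤ 1/2`) to `1` (`x ≥ 1`) -/
noncomputable def tau (x : ℝ) : ℝ := stp (1 / 2) 1 x

/-- the profile function, a diffeomorphism `ℝ → (-1/2, 1/2)` -/
noncomputable def ns (ε x : ℝ) : ℝ :=
  x + stp (1 / 5) (3 / 10) x * (1 / 2 - ε * sech (2 * Real.pi * x) - x) +
    stp (1 / 5) (3 / 10) (-x) * (-(1 / 2) + ε * sech (2 * Real.pi * x) - x)

/-- `sech / ww` -/
noncomputable def aw (y : ℝ) : ℝ :=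
  1 + (1 - stp (1 / 100) (1 / 25) (Real.tanh (2 * Real.pi * y) ^ 2)) * (sech (2 * Real.pi * y) - 1)

/-- `1` near `0`, `sech (2 π y)` for `|y| ≥ 1/30` -/
noncomputable def ww (y : ℝ) : ℝ := sech (2 * Real.pi * y) / aw y

/-- `‖Z‖` for `‖Z‖ ≥ 1/8`, positive everywhere -/
noncomputable def MZ (Z : ℂ) : ℝ := √(‖Z‖ ^ 2 + (1 / 400) * (1 - stp (1 / 16) (1 / 8) ‖Z‖))

/-- first step: `(y, Z) ↦ (Z; MZ sinh 2πy)`, where `(Z; H)` is `(Re Z, H + i Im Z)` -/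
noncomputable def io (a : ℝ × ℂ) : R3 := (a.2.re, ⟨MZ a.2 * Real.sinh (2 * Real.pi * a.1), a.2.im⟩)

noncomputable def zc (X : R3) : ℂ := ⟨X.1, X.2.im⟩

noncomputable def AX (X : R3) : ℝ :=
  1 + (1 - stp (1 / 100) (1 / 25) (X.2.re ^ 2 / nr X ^ 2)) * (‖zc X‖ / nr X - 1)

/-- second step, radial -/
noncomputable def Rd (X : R3) : R3 := (1 / 2 + tau (nr X) * (AX X - 1 / 2)) • X

noncomputable def artanh (v : ℂ) : ℂ := Complex.log ((1 + v) / (1 - v)) / 2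

noncomputable def bb (v : ℂ) : ℂ := ((1 - stp (1 / 60) (1 / 30) ‖v‖ : ℝ) : ℂ) * (artanh v - v)

/-- third step: norm preserving, changes the direction `v ↦ v + tau * bb v` -/
noncomputable def VV (X : R3) : R3 :=
  if ‖X.2‖ < (1 / 30) * (nr X + X.1) then
    nr X • st (X.2 / ((nr X + X.1 : ℝ) : ℂ) +
      (tau (nr X) : ℂ) * bb (X.2 / ((nr X + X.1 : ℝ) : ℂ)))
  else X

/-- dilation `v ↦ v / η` of the directions -/
noncomputable def Mb (η : ℝ) (X : R3) : R3 :=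
  (nr X / ((1 + η ^ 2) * nr X - (1 - η ^ 2) * X.1)) •
    (((1 + η ^ 2) * X.1 - (1 - η ^ 2) * nr X, (2 * η : ℝ) * X.2) : R3)

noncomputable def eta (ε x : ℝ) : ℝ := 1 - tau x * (1 - Real.pi * ε)

/-- fourth step -/
noncomputable def DD (ε : ℝ) (X : R3) : R3 := Mb (eta ε (nr X)) X

noncomputable def X2 (ε : ℝ) (a : ℝ × ℂ) : R3 := DD ε (VV (Rd (io a)))

noncomputable def P5 (σ : ℝ) : ℝ := (1 - stp (1 / 4) (1 / 2) σ) / 4 + stp (1 / 4) (1 / 2) σ * σ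

/-- the gauge -/
noncomputable def Gam (X : R3) : ℝ :=
  (1 - stp (3 / 2) 2 (nr X)) * 4 +
    stp (3 / 2) 2 (nr X) * (2 * nr X ^ 2 / (nr X ^ 2 - 1) * P5 (-X.1 / nr X))

/-- fifth step, radial -/
noncomputable def Gm (X : R3) : R3 := (Gam X)⁻¹ • X

/-- the ball model: `(c; s, c') ↦ (c, c') / (|(c, s, c')| + s)` -/
noncomputable def St (c : ℂ) (X : R3) : ℂ × ℂ :=
  (√(‖c‖ ^ 2 + nr X ^ 2) + X.1)⁻¹ • ((c, X.2) : ℂ × ℂ)

noncomputable def T0 (a : ℝ × R3) : ℂ × ℂ := St (ex a.1) a.2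

noncomputable def gg (ν : ℂ) : ℝ := (1 + ‖ν‖ ^ 2) * P5 ((‖ν‖ ^ 2 - 1) / (1 + ‖ν‖ ^ 2))

noncomputable def S0 (a : ℂ × ℂ) : ℂ × ℂ := St (gg a.2 * a.1) (1 - ‖a.2‖ ^ 2, 2 * a.2)

/-- the point of the sphere with Mercator coordinate `p` (modulo `i`) -/
noncomputable def EE (p : ℂ) : R3 :=
  (sech (2 * Real.pi * p.re) * Real.cos (2 * Real.pi * p.im),
    ⟨Real.tanh (2 * Real.pi * p.re), sech (2 * Real.pi * p.re) * Real.sin (2 * Real.pi * p.im)⟩)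

noncomputable def E2 (ε : ℝ) (p : ℂ) : R3 := DD ε (VV (EE p))

noncomputable def aa (E : R3) : ℂ := -(E.2 / (E.1 : ℂ))

/-- the point of the unit sphere near the pole `sg` with `Z`-coordinate `Z` -/
noncomputable def Ep (sg : ℝ) (Z : ℂ) : R3 := (Z.re, ⟨sg * √(1 - ‖Z‖ ^ 2), Z.im⟩)

noncomputable def OmT (ε : ℝ) (a : ℝ × ℝ × ℂ) : ℂ × ℂ := T0 (a.1, Gm (X2 ε a.2))

noncomputable def OmC (ε : ℝ) (a : ℂ × ℂ) : ℂ × ℂ := S0 (aa (E2 ε a.1), a.2)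

noncomputable def OmP (ε sg : ℝ) (a : ℂ × ℂ) : ℂ × ℂ :=
  S0 (aa (DD ε (Ep sg (a.2 / (√(1 + ‖a.1‖ ^ 2) : ℂ)))), a.1)

noncomputable def sw (b : ℂ × ℂ) : ℂ × ℂ := (b.2, b.1)

noncomputable def kap (R : ℝ) : ℝ := 2 * R / (R ^ 2 - 1)

/-- the far region `|ν|, |ν'| ≥ R` of the ball model -/
def Far (R : ℝ) (b : ℂ × ℂ) : Prop :=
  2 * ‖b.1‖ ≤ kap R * (‖b.1‖ ^ 2 + ‖b.2‖ ^ 2 - 1) ∧
    2 * ‖b.2‖ ≤ kap R * (‖b.1‖ ^ 2 + ‖b.2‖ ^ 2 - 1)

/-- the twist `thc u - u`, `u = arg Z / 2π`, cut off near `Z = 0` -/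
noncomputable def twc (Z : ℂ) : ℝ :=
  (thc (Complex.arg Z / (2 * Real.pi)) - Complex.arg Z / (2 * Real.pi)) *
    stp (1 / 32) (1 / 16) ‖Z‖

/-- the inverse of `ns ε` -/
noncomputable def nsi (ε y : ℝ) : ℝ := Function.invFun (ns ε) y

/-- a point of the unit sphere of `E3` in the hemisphere `sign Y₀ = -sg`, central projection `ν = Y_c / |Y₀|` -/
noncomputable def hemi (sg : ℝ) (ν : ℂ) : E3 :=
  (√(1 + ‖ν‖ ^ 2))⁻¹ • pt (-sg) ν.re ν.im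

section
variable {X : Type*} [TopologicalSpace X] [ChartedSpace E4 X] {ε ρ : ℝ} {k e : ℤ}

/-- the chart of the torus with the logarithmic transform (`q` linearised) -/
noncomputable def fT (L : LS ε ρ k e X) (a : ℝ × ℝ × ℂ) : X :=
  L.jT (a.1 + e * twc a.2.2, ns ε a.2.1, a.2.2)

/-- the chart of the surgered torus -/
noncomputable def fC (L : LS ε ρ k e X) (a : ℂ × ℂ) : X :=
  L.G ((ns ε a.1.re : ℂ) + a.1.im * I, (ε * ww a.1.re : ℝ) * ex (k * thc a.1.im) * a.2)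

end

end Pool.Agent.TS
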