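import Pool.Agent.TS.RadM
import Pool.Agent.CSG.FunBasic

/-!
# TS/GmM: the gauge `Gam` and the fifth step `Gm`

`P5`: `1/4` for `σ ≤ 1/4`, `σ` for `σ ≥ 1/2`, between `1/4` and `σ` in between.
`Gam = (1 - τ) 4 + τ G2`, `G2 = 2 x^2/(x^2-1) P5 (-X.1/x)`, `τ = stp (3/2) 2 x`, `x = nr X`.  Along a ray `P5` is
constant `≤ 1`, `G2` is decreasing in `x > 1` and `G2 ≤ 18/5 < 4` for `x ≥ 3/2`, so `Gam` is nonincreasing; hence
`rad` applies to `φ = Gam⁻¹` (constant `1/4` for `nr X ≤ 3/2`).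
`Gam_lt`: for `0 < x < 2`: `4 > (4/3) x P5` and `G2 > (4/3) x P5` (`2 x^2/(x^2-1) > (4/3) x` for `1 < x < 2`).
-/

open scoped Manifold ContDiff Topology
open Complex (I)
open Set Filter

namespace Pool.Agent.TS
open Pool.Agent.CSG

theorem P5_smooth : ContDiff ℝ ∞ P5 := by
  unfold P5
  exact ((contDiff_const.sub (stp_smooth _ _)).div_const _).add ((stp_smooth _ _).mul contDiff_id)

theorem GmM_P5_eq (σ : ℝ) : P5 σ = 1 / 4 + stp (1 / 4) (1 / 2) σ * (σ - 1 / 4) := by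
  unfold P5; ring

theorem P5_big {σ : ℝ} (h : 1 / 2 ≤ σ) : P5 σ = σ := by
  rw [GmM_P5_eq, stp_one (by norm_num) h]; ring

theorem P5_ge (σ : ℝ) : 1 / 4 ≤ P5 σ := by
  rw [GmM_P5_eq]
  rcases le_total σ (1 / 4) with h | h
  · rw [stp_zero (by norm_num) h]; simp
  · have := mul_nonneg (stp_nonneg (1 / 4) (1 / 2) σ) (sub_nonneg.2 h)
    linarith

/-- `σ ≤ P5 σ` fails only for `1/4 < σ < 1/2` -/
theorem P5_le (σ : ℝ) : P5 σ ≤ max (1 / 4) σ := by
  rw [GmM_P5_eq]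
  rcases le_total σ (1 / 4) with h | h
  · rw [stp_zero (by norm_num) h]; simp
  · have h1 : stp (1 / 4) (1 / 2) σ * (σ - 1 / 4) ≤ 1 * (σ - 1 / 4) :=
      mul_le_mul_of_nonneg_right (stp_le_one _ _ _) (sub_nonneg.2 h)
    refine le_trans ?_ (le_max_right _ _)
    linarith

theorem P5_le_one {σ : ℝ} (h : σ ≤ 1) : P5 σ ≤ 1 :=
  (P5_le σ).trans (max_le (by norm_num) h)

theorem Gam_small {X : R3} (h : nr X ≤ 3 / 2) : Gam X = 4 := by
  unfold Gam; rw [stp_zero (by norm_num) h]; ring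

theorem Gam_big {X : R3} (h : 2 ≤ nr X) :
    Gam X = 2 * nr X ^ 2 / (nr X ^ 2 - 1) * P5 (-X.1 / nr X) := by
  unfold Gam; rw [stp_one (by norm_num) h]; ring

/-- the gauge as a function of the norm and the value of `P5` -/
noncomputable def GmM_g (P t : ℝ) : ℝ :=
  (1 - stp (3 / 2) 2 t) * 4 + stp (3 / 2) 2 t * (2 * t ^ 2 / (t ^ 2 - 1) * P)

theorem GmM_Gam (X : R3) : Gam X = GmM_g (P5 (-X.1 / nr X)) (nr X) := rfl

theorem GmM_le {P t : ℝ} (hP : 1 / 4 ≤ P) (hP1 : P ≤ 1) (ht : 3 / 2 ≤ t) :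
    0 < 2 * t ^ 2 / (t ^ 2 - 1) * P ∧ 2 * t ^ 2 / (t ^ 2 - 1) * P ≤ 18 / 5 := by
  have h1 : 0 < t ^ 2 - 1 := by nlinarith
  have h2 : 0 < t ^ 2 := by positivity
  have h3 : 2 * t ^ 2 / (t ^ 2 - 1) ≤ 18 / 5 := by
    rw [div_le_iff₀ h1]; nlinarith
  have h4 : 0 < 2 * t ^ 2 / (t ^ 2 - 1) := by positivity
  refine ⟨mul_pos h4 (by linarith), ?_⟩
  calc 2 * t ^ 2 / (t ^ 2 - 1) * P ≤ 2 * t ^ 2 / (t ^ 2 - 1) * 1 :=
        mul_le_mul_of_nonneg_left hP1 h4.le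
    _ ≤ 18 / 5 := by rw [mul_one]; exact h3

theorem GmM_anti {P t t' : ℝ} (hP : 1 / 4 ≤ P) (hP1 : P ≤ 1) (h : t ≤ t') :
    GmM_g P t' ≤ GmM_g P t := by
  unfold GmM_g
  rcases le_total t (3 / 2) with ht | ht
  · rw [stp_zero (by norm_num) ht]
    rcases le_total t' (3 / 2) with ht' | ht'
    · rw [stp_zero (by norm_num) ht']; simp
    · have h1 := (GmM_le hP hP1 ht').2
      have h2 := stp_nonneg (3 / 2) 2 t'
      nlinarith
  · have ht' : 3 / 2 ≤ t' := ht.trans h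
    have h1 := GmM_le hP hP1 ht
    have h2 := GmM_le hP hP1 ht'
    have h3 := stp_nonneg (3 / 2) 2 t
    have h4 : stp (3 / 2) 2 t ≤ stp (3 / 2) 2 t' := stp_mono (by norm_num) h
    have h5 : 2 * t' ^ 2 / (t' ^ 2 - 1) * P ≤ 2 * t ^ 2 / (t ^ 2 - 1) * P := by
      apply mul_le_mul_of_nonneg_right _ (by linarith)
      have e1 : 0 < t ^ 2 - 1 := by nlinarith
      have e2 : 0 < t' ^ 2 - 1 := by nlinarith
      rw [div_le_div_iff₀ e2 e1]
      nlinarith [mul_self_le_mul_self (by linarith : (0:ℝ) ≤ t) h]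
    have h6 : stp (3 / 2) 2 t * (4 - 2 * t ^ 2 / (t ^ 2 - 1) * P) ≤
        stp (3 / 2) 2 t' * (4 - 2 * t' ^ 2 / (t' ^ 2 - 1) * P) :=
      mul_le_mul h4 (by linarith) (by linarith [h1.2]) (h3.trans h4)
    linarith

theorem GmM_sigma {X : R3} (h : X ≠ 0) : -X.1 / nr X ≤ 1 := by
  have h0 := nr_pos.2 h
  rw [div_le_one h0]
  have := abs_fst_le_nr X
  linarith [neg_abs_le X.1]

theorem GmM_P5_le (X : R3) : P5 (-X.1 / nr X) ≤ 1 := by
  apply P5_le_one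
  by_cases h : X = 0
  · subst h; simp
  · exact GmM_sigma h

theorem Gam_pos (X : R3) : 0 < Gam X := by
  rcases le_total (nr X) (3 / 2) with h | h
  · rw [Gam_small h]; norm_num
  · rw [GmM_Gam]
    unfold GmM_g
    have h1 := GmM_le (P5_ge (-X.1 / nr X)) (GmM_P5_le X) h
    have h3 := stp_nonneg (3 / 2) 2 (nr X)
    have h4 := stp_le_one (3 / 2) 2 (nr X)
    rcases h3.eq_or_lt with h5 | h5
    · rw [← h5]; norm_num
    · have := mul_pos h5 h1.1
      have h6 : 0 ≤ (1 - stp (3 / 2) 2 (nr X)) * 4 := by linarith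
      linarith

theorem Gam_lt {X : R3} (h0 : X ≠ 0) (h : nr X < 2) : (4 / 3) * nr X * P5 (-X.1 / nr X) < Gam X := by
  have hx := nr_pos.2 h0
  have hP := P5_ge (-X.1 / nr X)
  have hP1 := GmM_P5_le X
  rw [GmM_Gam]
  generalize P5 (-X.1 / nr X) = P at hP hP1
  generalize nr X = t at h hx
  have a1 : (4 / 3) * t * P < 4 := by nlinarith
  unfold GmM_g
  rcases le_total t (3 / 2) with ht | ht
  · rw [stp_zero (by norm_num) ht]; linarith
  · have e1 : 0 < t ^ 2 - 1 := by nlinarith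
    have a2 : (4 / 3) * t * P < 2 * t ^ 2 / (t ^ 2 - 1) * P := by
      apply mul_lt_mul_of_pos_right _ (by linarith)
      rw [lt_div_iff₀ e1]
      nlinarith [mul_pos hx (mul_pos (by linarith : (0:ℝ) < 2 * t + 1) (sub_pos.2 h))]
    have h3 := stp_nonneg (3 / 2) 2 t
    have h4 := stp_le_one (3 / 2) 2 t
    rcases h3.eq_or_lt with h5 | h5
    · rw [← h5]; linarith
    · have b1 := mul_lt_mul_of_pos_left a2 h5
      have b2 := mul_le_mul_of_nonneg_left a1.le (sub_nonneg.2 h4)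
      nlinarith

theorem GmM_smooth (X : R3) : ContDiffAt ℝ ∞ Gam X := by
  rcases lt_or_ge (nr X) (3 / 2) with h | h
  · have : Gam =ᶠ[𝓝 X] fun _ => (4 : ℝ) := by
      have ho : IsOpen {Y : R3 | nr Y < 3 / 2} := isOpen_lt nr_continuous continuous_const
      filter_upwards [ho.mem_nhds h] with Y hY
      exact Gam_small (le_of_lt hY)
    exact contDiffAt_const.congr_of_eventuallyEq this
  · have hX : X ≠ 0 := nr_pos.1 (by linarith)
    have h1 : ContDiffAt ℝ ∞ nr X := nr_smoothAt hX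
    have h2 : nr X ≠ 0 := by linarith
    have h3 : nr X ^ 2 - 1 ≠ 0 := by nlinarith
    have h4 : ContDiffAt ℝ ∞ (fun X : R3 => stp (3 / 2) 2 (nr X)) X :=
      ContDiffAt.comp (g := stp (3 / 2) 2) (f := nr) X (stp_smooth _ _).contDiffAt h1
    have h5 : ContDiffAt ℝ ∞ (fun X : R3 => P5 (-X.1 / nr X)) X :=
      ContDiffAt.comp (g := P5) (f := fun X : R3 => -X.1 / nr X) X P5_smooth.contDiffAt
        (contDiffAt_fst.neg.div h1 h2)
    unfold Gam
    exact ((contDiffAt_const.sub h4).mul contDiffAt_const).add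
      (h4.mul (((contDiffAt_const.mul (h1.pow 2)).div ((h1.pow 2).sub contDiffAt_const) h3).mul h5))

theorem GmM_rad : Function.Bijective (fun X : R3 => (Gam X)⁻¹ • X) ∧
      ∀ X, IsLocalDiffeomorphAt 𝓘(ℝ, R3) 𝓘(ℝ, R3) ∞ (fun X => (Gam X)⁻¹ • X) X := by
  refine rad (φ := fun X => (Gam X)⁻¹) (fun X => (GmM_smooth X).inv (Gam_pos X).ne')
    (fun X => inv_pos.2 (Gam_pos X)) ?_
  intro X l m hl hlm
  apply inv_anti₀ (Gam_pos _)
  have hm : 0 < m := lt_of_lt_of_le hl hlm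
  by_cases hX : X = 0
  · subst hX; simp
  · have hx := nr_pos.2 hX
    have e : ∀ c : ℝ, 0 < c → Gam (c • X) = GmM_g (P5 (-X.1 / nr X)) (c * nr X) := by
      intro c hc
      rw [GmM_Gam, nr_smul hc.le]
      congr 2
      simp only [Prod.smul_fst, smul_eq_mul]
      field_simp
    rw [e l hl, e m hm]
    exact GmM_anti (P5_ge _) (GmM_P5_le X) (mul_le_mul_of_nonneg_right hlm hx.le)

theorem Gm_bij : Function.Bijective Gm := GmM_rad.1

theorem Gm_ld (X : R3) : IsLocalDiffeomorphAt 𝓘(ℝ, R3) 𝓘(ℝ, R3) ∞ Gm X := GmM_rad.2 X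

end Pool.Agent.TS
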