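import Pool.Agent.TS.OutDef
import Pool.Agent.TS.CornM

/-!
# TS/InnM: inner points of the new structure
`GB₀ = F (bB)` by definition.  Not far: `OmT_far`, `OmC_far` (`‖nT‖ = ‖p‖/(ε ww) < 3`; `(E2 ..).1 < 0` by `E2_T` with
`c = 3`; for reduced `r`, `fr r = r`), `far_sw`.
`bB_inj`: (K,K): `OmT_inj`: `nsi ε p.re = nsi ε p'.re`, so `p.re = p'.re` (`ns_nsi`); `zK = zK'`: `‖r‖ = ‖r'‖`,
`p'.im - p.im ∈ Z`; `qK' = qK + n`, so `arg r' = arg r` modulo `2π`, `r = r'`.  (T,T): `OmC_inj`: `r.re = r'.re`,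
`r'.im - r.im ∈ Z`, `nT = nT'`, so `p = p'`.  (K,T): `OmT (q, nsi p.re, zK p r) = OmC (r̂', ν)` with
`(E2 ε r̂').1 ≤ -4/5` (`‖r'‖ ≥ 3 ε`) and `n := nr X2 < 3`: `OmT_eq_OmC` gives `E2 ε r̂' = st (n ex q)`, whose first
coordinate is `(1 - n^2)/(1 + n^2) > -4/5`: contradiction.
Core T: `sw (OmT (q, y, 0))`, `nr X2 < 3`.  Core K: `sw (OmP sg (ν, 0))`, `‖ν‖ < 3`.  `OmT_eq_OmP` (`10 < nr X2`).
`bB` versus core T: (K): `OmT_inj` gives `zK = 0`, `r = 0`, contradiction; (T): as (K,T).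
`bB` versus core K: (K): `OmT_eq_OmP`; (T): `OmC_eq_OmP`: `EE r̂ = Ep sg 0`, but `zc (EE r̂) ≠ 0`.
-/

open scoped Manifold ContDiff Topology
open Complex (I)
open Set Filter

namespace Pool.Agent.TS
open Pool.Agent.CSG

variable {X : Type*} [TopologicalSpace X] [ChartedSpace E4 X] {ε ρ : ℝ} {k e : ℤ}

theorem GB₀_in {L : LS ε ρ k e X} {F : ℂ × ℂ → X} {p r : ℂ} (h : InB ε p r) :
    GB₀ L F p r = F (bB ε k e p r) := by
  unfold GB₀ bB
  rcases h with ⟨h1, h2⟩ | ⟨h1, h2, h3⟩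
  · rw [if_pos h1, if_pos h2, if_pos h1]
  · rw [if_neg (not_lt.mpr h1), if_pos h2, if_pos h3, if_neg (not_lt.mpr h1)]

theorem InnM_sw_inj {b b' : ℂ × ℂ} (h : sw b = sw b') : b = b' := by
  have h1 := congrArg sw h
  simpa [sw] using h1

theorem InnM_E2 (h0 : 0 < ε) (h1 : ε ≤ 1 / 1000) {r : ℂ} (hr : fr r = r) (h : 3 * ε ≤ ‖r‖)
    (hre : |r.re| < 1 / 2) : (E2 ε ((nsi ε r.re : ℂ) + r.im * I)).1 ≤ -(4 / 5) := by
  have := E2_T h0 h1 hre (c := 3) (by norm_num) (by norm_num) (by rw [hr]; exact h)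
  norm_num at this
  linarith

theorem InnM_nT (h0 : 0 < ε) {p r : ℂ} (h : ‖p‖ < 3 * ε * ww (nsi ε r.re)) : ‖nT ε e p r‖ < 3 := by
  have hw := ww_pos (nsi ε r.re)
  unfold nT
  rw [norm_div, norm_mul, ex_norm, mul_one, Complex.norm_real, Real.norm_of_nonneg (by positivity),
    div_lt_iff₀ (by positivity)]
  linarith

theorem InnM_st (x q : ℝ) (hx : 0 ≤ x) : (st (x * ex q)).1 = (1 - x ^ 2) / (1 + x ^ 2) := by
  have h : ‖(x : ℂ) * ex q‖ = x := by
    rw [norm_mul, ex_norm, mul_one, Complex.norm_real, Real.norm_of_nonneg hx]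
  simp only [st, Prod.smul_fst, smul_eq_mul, h]
  field_simp

theorem InnM_mixed (h0 : 0 < ε) (h1 : ε ≤ 1 / 1000) {r ν : ℂ} (hr : fr r = r) (h : 3 * ε ≤ ‖r‖)
    (hre : |r.re| < 1 / 2) {q y : ℝ} {Z : ℂ} (hn : nr (X2 ε (y, Z)) < 3)
    (he : OmT ε (q, y, Z) = OmC ε ((nsi ε r.re : ℂ) + r.im * I, ν)) : False := by
  have hE := InnM_E2 h0 h1 hr h hre
  obtain ⟨e1, _, e3⟩ := OmT_eq_OmC h0 h1 (by linarith) he
  rw [e3, InnM_st _ _ (nr_nonneg _)] at hE
  have hp : 0 < 1 + nr (X2 ε (y, Z)) ^ 2 := by positivity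
  rw [div_le_iff₀ hp] at hE
  nlinarith

theorem bB_notFar (h0 : 0 < ε) (h1 : ε ≤ 1 / 1000) {p r : ℂ} (hp : fr p = p) (hr : fr r = r)
    (h : InB ε p r) : ¬ Far 3 (bB ε k e p r) := by
  unfold bB
  rcases h with ⟨a1, a2⟩ | ⟨a1, a2, a3⟩
  · rw [if_pos a1]
    unfold bK
    rw [far_sw, OmT_far (by norm_num)]
    intro hc
    exact absurd hc.1 (not_le.mpr a2.2)
  · rw [if_neg (not_lt.mpr a1)]
    unfold bT
    rw [far_sw, OmC_far h0 h1 (by norm_num) _ (by linarith [InnM_E2 h0 h1 hr a1 a3.1])]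
    intro hc
    exact absurd hc.1 (not_le.mpr (InnM_nT h0 a3.2))

theorem InnM_ex_ne (x : ℝ) : ex x ≠ 0 := by
  intro h
  have := ex_norm x
  rw [h] at this
  simp at this

/-- reduced points with the same real part and imaginary parts equal modulo `1` -/
theorem InnM_red {z w : ℂ} (hz : fr z = z) (hw : fr w = w) (h : z.re = w.re) {n : ℤ}
    (h' : z.im = w.im + n) : z = w := by
  have h1 := fr_im_mem z
  have h2 := fr_im_mem w
  rw [hz] at h1
  rw [hw] at h2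
  have h3 : (n : ℝ) < 1 := by linarith
  have h4 : (-1 : ℝ) < n := by linarith
  have h5 : n < 1 := by exact_mod_cast h3
  have h6 : -1 < n := by exact_mod_cast h4
  have h7 : n = 0 := by omega
  apply Complex.ext h
  rw [h', h7]; simp

theorem bB_inj (h0 : 0 < ε) (h1 : ε ≤ 1 / 1000) {p r p' r' : ℂ} (hp : fr p = p) (hr : fr r = r)
    (hp' : fr p' = p') (hr' : fr r' = r') (h : InB ε p r) (h' : InB ε p' r') (h00 : r ≠ 0)
    (h00' : r' ≠ 0) (he : bB ε k e p r = bB ε k e p' r') : p' = p ∧ r' = r := by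
  unfold bB at he
  rcases h with ⟨a1, a2⟩ | ⟨a1, a2, a3⟩
  · rcases h' with ⟨b1, b2⟩ | ⟨b1, b2, b3⟩
    · rw [if_pos a1, if_pos b1] at he
      unfold bK at he
      obtain ⟨⟨n, hn⟩, hy, hZ⟩ := OmT_inj h0 h1 (InnM_sw_inj he)
      have hre : p'.re = p.re := by
        have := congrArg (ns ε) hy
        rwa [ns_nsi h0 h1 a2.1, ns_nsi h0 h1 b2.1] at this
      have hZ2 := hZ
      unfold zK at hZ
      have hnorm : ‖r'‖ = ‖r‖ := by
        have e1 := congrArg norm hZ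
        rw [norm_mul, norm_mul, ex_norm, ex_norm, mul_one, mul_one, Complex.norm_real,
          Complex.norm_real, Real.norm_of_nonneg (by positivity), Real.norm_of_nonneg (by positivity)]
          at e1
        field_simp at e1
        exact e1
      have hrn : (‖r‖ : ℝ) ≠ 0 := norm_ne_zero_iff.mpr h00
      rw [hnorm] at hZ
      have hc : ((‖r‖ / ε : ℝ) : ℂ) ≠ 0 := by
        have : ‖r‖ / ε ≠ 0 := div_ne_zero hrn h0.ne'
        exact_mod_cast this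
      have hex := mul_left_cancel₀ hc hZ
      obtain ⟨m, hm⟩ := ex_eq_iff.mp hex.symm
      have hpp : p' = p := InnM_red hp' hp hre hm
      refine ⟨hpp, ?_⟩
      subst hpp
      unfold qK at hn
      rw [hZ2] at hn
      have harg : Complex.arg r' / (2 * Real.pi) = Complex.arg r / (2 * Real.pi) + n := by linarith
      have hexr : ex (Complex.arg r' / (2 * Real.pi)) = ex (Complex.arg r / (2 * Real.pi)) := by
        rw [harg, ex_add, ex_int, mul_one]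
      rw [← ex_arg r', ← ex_arg r, hexr, hnorm]
    · exfalso
      rw [if_pos a1, if_neg (not_lt.mpr b1)] at he
      exact InnM_mixed h0 h1 hr' b1 b3.1 a2.2 (InnM_sw_inj he)
  · rcases h' with ⟨b1, b2⟩ | ⟨b1, b2, b3⟩
    · exfalso
      rw [if_neg (not_lt.mpr a1), if_pos b1] at he
      exact InnM_mixed h0 h1 hr a1 a3.1 b2.2 (InnM_sw_inj he).symm
    · rw [if_neg (not_lt.mpr a1), if_neg (not_lt.mpr b1)] at he
      unfold bT at he
      obtain ⟨⟨n, hn⟩, hν⟩ := OmC_inj h0 h1 (by linarith [InnM_E2 h0 h1 hr a1 a3.1])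
        (by linarith [InnM_E2 h0 h1 hr' b1 b3.1]) (InnM_sw_inj he)
      have h3 : nsi ε r'.re = nsi ε r.re := by
        have := congrArg Complex.re hn
        simpa using this
      have h4 : r'.im = r.im + n := by
        have := congrArg Complex.im hn
        simpa using this
      have hre : r'.re = r.re := by
        have := congrArg (ns ε) h3
        rwa [ns_nsi h0 h1 a3.1, ns_nsi h0 h1 b3.1] at this
      have hrr : r' = r := InnM_red hr' hr hre h4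
      subst hrr
      refine ⟨?_, rfl⟩
      unfold nT at hν
      have hw := ww_pos (nsi ε r'.re)
      have hc : ((ε * ww (nsi ε r'.re) : ℝ) : ℂ) ≠ 0 := by
        have : ε * ww (nsi ε r'.re) ≠ 0 := (mul_pos h0 hw).ne'
        exact_mod_cast this
      rw [div_left_inj' hc] at hν
      exact mul_right_cancel₀ (InnM_ex_ne _) hν

theorem bB_ne_coreT (h0 : 0 < ε) (h1 : ε ≤ 1 / 1000) {p r : ℂ} (hp : fr p = p) (hr : fr r = r)
    (h : InB ε p r) (h00 : r ≠ 0) {q y : ℝ} (hy : nr (X2 ε (y, 0)) < 3) :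
    bB ε k e p r ≠ sw (OmT ε (q, y, 0)) := by
  intro he
  unfold bB at he
  rcases h with ⟨a1, a2⟩ | ⟨a1, a2, a3⟩
  · rw [if_pos a1] at he
    unfold bK at he
    obtain ⟨_, _, hZ⟩ := OmT_inj h0 h1 (InnM_sw_inj he)
    unfold zK at hZ
    have hrn : (‖r‖ : ℝ) ≠ 0 := norm_ne_zero_iff.mpr h00
    have hc : ((‖r‖ / ε : ℝ) : ℂ) ≠ 0 := by
      have : ‖r‖ / ε ≠ 0 := div_ne_zero hrn h0.ne'
      exact_mod_cast this
    exact (mul_ne_zero hc (InnM_ex_ne _)) hZ.symm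
  · rw [if_neg (not_lt.mpr a1)] at he
    exact InnM_mixed h0 h1 hr a1 a3.1 hy (InnM_sw_inj he).symm

theorem bB_ne_coreK (h0 : 0 < ε) (h1 : ε ≤ 1 / 1000) {p r : ℂ} (hp : fr p = p) (hr : fr r = r)
    (h : InB ε p r) {sg : ℝ} (hs : sg ^ 2 = 1) {ν : ℂ} (hν : ‖ν‖ < 3) :
    bB ε k e p r ≠ sw (OmP ε sg (ν, 0)) := by
  intro he
  unfold bB at he
  rcases h with ⟨a1, a2⟩ | ⟨a1, a2, a3⟩
  · rw [if_pos a1] at he
    have := OmT_eq_OmP h0 h1 hs (by simp) (InnM_sw_inj he)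
    have h2 := a2.2
    linarith
  · rw [if_neg (not_lt.mpr a1)] at he
    unfold bT at he
    have h2 := (OmC_eq_OmP h0 h1 hs (by linarith [InnM_E2 h0 h1 hr a1 a3.1]) (by simp)).mp
      (InnM_sw_inj he)
    have h3 := congrArg zc h2.2
    rw [zc_EE, zc_Ep, zero_div] at h3
    have h4 : (sech (2 * Real.pi * ((nsi ε r.re : ℂ) + r.im * I).re) : ℂ) ≠ 0 := by
      exact_mod_cast (sech_pos _).ne'
    exact (mul_ne_zero h4 (InnM_ex_ne _)) h3

theorem coreT_ne_coreK (h0 : 0 < ε) (h1 : ε ≤ 1 / 1000) {q y : ℝ} (hy : nr (X2 ε (y, 0)) < 3)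
    {sg : ℝ} (hs : sg ^ 2 = 1) (ν : ℂ) : sw (OmT ε (q, y, 0)) ≠ sw (OmP ε sg (ν, 0)) := by
  intro he
  have := OmT_eq_OmP h0 h1 hs (by simp) (InnM_sw_inj he)
  linarith

theorem coreT_notFar (h0 : 0 < ε) (h1 : ε ≤ 1 / 1000) {q y : ℝ} (hy : nr (X2 ε (y, 0)) < 3) :
    ¬ Far 3 (sw (OmT ε (q, y, 0))) := by
  rw [far_sw, OmT_far (by norm_num)]
  intro hc
  linarith [hc.1]

theorem coreK_notFar (h0 : 0 < ε) (h1 : ε ≤ 1 / 1000) {sg : ℝ} (hs : sg ^ 2 = 1) {ν : ℂ}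
    (hν : ‖ν‖ < 3) : ¬ Far 3 (sw (OmP ε sg (ν, 0))) := by
  rw [far_sw, OmP_far h0 h1 (by norm_num) (by norm_num) hs ν (by simp)]
  exact not_le.mpr hν

end Pool.Agent.TS
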