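import Pool.Agent.CSG.Fun

/-!
# TS/LSDef: the local structure near a pair of tori

Two fibre tori `K` and `T` meeting in one point.  Coordinates `(p, r) ∈ C × C` modulo `Z[i] × Z[i]`:
`K = {r ∈ Z[i]}`, `T = {p ∈ Z[i]}`.  `p = x + i t`, `r = y + i u`.

`LS ε k e X`: the torus `K` is surgered along its circle `x = 1/2` (direction `t`) with framing twist `k`
(chart `jK : S^2 x D^2 → X`), and a logarithmic transform is performed on `T` such that the curve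
`u ↦ (arg p = e u, r = y + i u)` bounds (chart `jT (q, y, Z)`, `q, y` mod 1, `Z` in the disc of radius 5).
The map `G` gives the coordinates on the complement, near `K ∪ T` (distance `< ρ`).

The local theorem `swap` (TS/Swap): given `LS ε k e X` there is `LS ε e k X` with the roles of `K` and `T`
exchanged (`T` is surgered along `y = 1/2` with twist `e`, and `K` carries a logarithmic transform with twist `k`),
equal to the given one away from `K ∪ T`, with the same image.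
-/

open scoped Manifold ContDiff
open Complex (I)

namespace Pool.Agent.TS
open Pool.Agent.CSG

/-- Gaussian integers as complex numbers -/
def GI : Set ℂ := {z | ∃ a b : ℤ, z = a + b * I}

/-- the nearest Gaussian integer -/
noncomputable def rnd (z : ℂ) : ℂ := (round z.re : ℂ) + (round z.im : ℂ) * I

/-- `z` minus the nearest Gaussian integer -/
noncomputable def fr (z : ℂ) : ℂ := z - rnd z

/-- the domain: near `K ∪ T` -/
def Wd (ρ : ℝ) : Set (ℂ × ℂ) := {a | ‖fr a.1‖ < ρ ∨ ‖fr a.2‖ < ρ}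

/-- the surgered circle of `K` -/
def OnCK (p r : ℂ) : Prop := r ∈ GI ∧ ∃ a : ℤ, p.re = a + 1 / 2

/-- `exp (2 π i x)` -/
noncomputable def ex (x : ℝ) : ℂ := Complex.exp ((2 * Real.pi * x : ℝ) * I)

/-- the complex part of a point of the sphere -/
noncomputable def yc (y : S2) : ℂ := ((y : E3) 1 : ℂ) + ((y : E3) 2 : ℂ) * I

structure LS (ε ρ : ℝ) (k e : ℤ) (X : Type*) [TopologicalSpace X] [ChartedSpace E4 X] where
  G : ℂ × ℂ → X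
  jK : S2 × ℂ → X
  jT : ℝ × ℝ × ℂ → X
  G_per : ∀ (p r : ℂ) (a b : ℂ), (p, r) ∈ Wd ρ → a ∈ GI → b ∈ GI → G (p + a, r + b) = G (p, r)
  G_loc : ∀ p r, (p, r) ∈ Wd ρ → p ∉ GI → ¬ OnCK p r →
    IsLocalDiffeomorphAt 𝓘(ℝ, ℂ × ℂ) (𝓡 4) ∞ G (p, r)
  G_inj : ∀ p r p' r', (p, r) ∈ Wd ρ → p ∉ GI → ¬ OnCK p r → (p', r') ∈ Wd ρ → p' ∉ GI →
    ¬ OnCK p' r' → G (p, r) = G (p', r') → p' - p ∈ GI ∧ r' - r ∈ GI
  jK_loc : ∀ y ζ, ‖ζ‖ < 1 →
    IsLocalDiffeomorphAt ((𝓡 2).prod 𝓘(ℝ, ℂ)) (𝓡 4) ∞ jK (y, ζ)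
  jK_inj : ∀ y y' ζ ζ', ‖ζ‖ < 1 → ‖ζ'‖ < 1 → jK (y, ζ) = jK (y', ζ') → y = y' ∧ ζ = ζ'
  jT_per : ∀ q y Z (a b : ℤ), jT (q + a, y + b, Z) = jT (q, y, Z)
  jT_loc : ∀ q y Z, ‖Z‖ < 5 → IsLocalDiffeomorphAt 𝓘(ℝ, ℝ × ℝ × ℂ) (𝓡 4) ∞ jT (q, y, Z)
  jT_inj : ∀ q y Z q' y' Z', ‖Z‖ < 5 → ‖Z'‖ < 5 → jT (q, y, Z) = jT (q', y', Z') →
    (∃ a : ℤ, q' = q + a) ∧ (∃ b : ℤ, y' = y + b) ∧ Z' = Z
  glueK : ∀ (y : S2) (t s : ℝ), 0 < s → s < 1 →
    jK (y, s * ex t) = G ((1 / 2 + ε * s * (y : E3) 0 : ℝ) + (t : ℝ) * I, ε * s * ex (k * thc t) * yc y)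
  glueT : ∀ q y u s : ℝ, 0 < s → s < 5 →
    jT (q, y, s * ex u) = G (ε * s * ex (q + e * u), (y : ℝ) + (u : ℝ) * I)
  disjK : ∀ y p r, (p, r) ∈ Wd ρ → p ∉ GI → ¬ OnCK p r → jK (y, 0) ≠ G (p, r)
  disjT : ∀ q y p r, (p, r) ∈ Wd ρ → p ∉ GI → ¬ OnCK p r → jT (q, y, 0) ≠ G (p, r)
  disjKT : ∀ y q y', jK (y, 0) ≠ jT (q, y', 0)

end Pool.Agent.TS
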