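import Pool.Agent.TS.PDef

/-!
# TS/QDef: Cappell-Shaneson data seen from the complement of a fibre torus

`QD κ ε k e X`: coordinates `x = pt x0 u y`, monodromy `κ` (`= 1` near the axes).
* `B (x, t)`, `-1/8 < t < 9/8`, `x` not in the lattice, `(x, t)` not on the torus `T = {x0 ∈ Z + 1/2, t = 1/2}`;
* `jK`: surgery along the section over the lattice points,
  `jK (Y, s e^{2πi(t - 1/2)}) = B (pt (ε s Y_0) (Im r) (Re r), t)`, `r = ε s e^{2πi k thc (t - 1/2)} (Y_1 + i Y_2)`;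
* `jT (q, y, Z)`, `|Z| < 5`: logarithmic transform of `T`:
  `jT (q, y, s e^{2πiu}) = B (pt (1/2 + Re P) u y, 1/2 + Im P)`, `P = ε s e^{2πi(q + e u)}`.
-/

open scoped Manifold ContDiff
open Complex (I)

namespace Pool.Agent.TS
open Pool.Agent.CSG

/-- on the torus `T` -/
def OnT (x : E3) (t : ℝ) : Prop := t = 1 / 2 ∧ ∃ a : ℤ, x 0 = a + 1 / 2

structure QD (κ : Equiv.Perm E3) (ε : ℝ) (k e : ℤ) (X : Type*) [TopologicalSpace X]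
    [ChartedSpace E4 X] where
  B : E3 × ℝ → X
  jK : S2 × ℂ → X
  jT : ℝ × ℝ × ℂ → X
  B_loc : ∀ x t, -(1 / 8) < t → t < 9 / 8 → ¬ IsLat x → ¬ OnT x t →
    IsLocalDiffeomorphAt 𝓘(ℝ, E3 × ℝ) (𝓡 4) ∞ B (x, t)
  B_per : ∀ x t m, -(1 / 8) < t → t < 9 / 8 → ¬ IsLat x → ¬ OnT x t → B (x + vec m, t) = B (x, t)
  B_mon : ∀ x t, -(1 / 8) < t → t < 1 / 8 → ¬ IsLat x → B (κ x, t) = B (x, t + 1)
  B_inj : ∀ x y s t, ¬ IsLat x → ¬ OnT x s → ¬ IsLat y → ¬ OnT y t → 0 ≤ s → s < 1 → 0 ≤ t →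
    t < 1 → B (x, s) = B (y, t) → s = t ∧ ∃ m, y = x + vec m
  jK_loc : ∀ y ζ, ‖ζ‖ < 1 →
    IsLocalDiffeomorphAt ((𝓡 2).prod 𝓘(ℝ, ℂ)) (𝓡 4) ∞ jK (y, ζ)
  jK_inj : ∀ y y' ζ ζ', ‖ζ‖ < 1 → ‖ζ'‖ < 1 → jK (y, ζ) = jK (y', ζ') → y = y' ∧ ζ = ζ'
  jT_per : ∀ q y Z (a b : ℤ), jT (q + a, y + b, Z) = jT (q, y, Z)
  jT_loc : ∀ q y Z, ‖Z‖ < 5 → IsLocalDiffeomorphAt 𝓘(ℝ, ℝ × ℝ × ℂ) (𝓡 4) ∞ jT (q, y, Z)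
  jT_inj : ∀ q y Z q' y' Z', ‖Z‖ < 5 → ‖Z'‖ < 5 → jT (q, y, Z) = jT (q', y', Z') →
    (∃ a : ℤ, q' = q + a) ∧ (∃ b : ℤ, y' = y + b) ∧ Z' = Z
  glueK : ∀ (Y : S2) (t s : ℝ), -(1 / 8) < t → t < 9 / 8 → 0 < s → s < 1 →
    jK (Y, s * ex (t - 1 / 2)) =
      B (pt (ε * s * (Y : E3) 0) (ε * s * ex (k * thc (t - 1 / 2)) * yc Y).im
        (ε * s * ex (k * thc (t - 1 / 2)) * yc Y).re, t)
  glueT : ∀ q y u s : ℝ, 0 < s → s < 5 →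
    jT (q, y, s * ex u) =
      B (pt (1 / 2 + (ε * s * ex (q + e * u)).re) u y, 1 / 2 + (ε * s * ex (q + e * u)).im)
  disjK : ∀ Y x t, ¬ IsLat x → ¬ OnT x t → 0 ≤ t → t < 1 → jK (Y, 0) ≠ B (x, t)
  disjT : ∀ q y x t, ¬ IsLat x → ¬ OnT x t → 0 ≤ t → t < 1 → jT (q, y, 0) ≠ B (x, t)
  disjKT : ∀ Y q y, jK (Y, 0) ≠ jT (q, y, 0)
  cover : ∀ a : X, (∃ Y, a = jK (Y, 0)) ∨ (∃ q y, a = jT (q, y, 0)) ∨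
    ∃ x t, ¬ IsLat x ∧ ¬ OnT x t ∧ 0 ≤ t ∧ t < 1 ∧ a = B (x, t)

end Pool.Agent.TS
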