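import Pool.Agent.TS.NrB

/-!
# TS/RadM: radial maps of `R3`

`F X = φ X • X` with `φ` smooth, positive, nondecreasing along rays.
Injective: `F X = F Y` implies `Y = c • X`, `c > 0` (or both zero), `φ X = c φ (c X)`; if `c ≥ 1` then
`c φ (c X) ≥ c φ X`, so `c = 1`; symmetric.
Surjective: on the ray of `X ≠ 0` the function `l ↦ l φ (l X)` is continuous, tends to `0` at `0` (`φ (l X) ≤ φ X`
for `l ≤ 1`) and is `≥ l φ X` for `l ≥ 1`: intermediate value theorem.
Local diffeomorphism (`ld_of_fderiv`): the derivative is `v ↦ φ X v + (Dφ v) X`; if it vanishes, `v = μ X`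
(`φ X ≠ 0`), then `μ (φ X + Dφ X) X = 0`, and `Dφ X = d/dl φ (l X)` at `l = 1` is `≥ 0` (monotone).
-/

open scoped Manifold ContDiff Topology
open Complex (I)
open Set Filter

namespace Pool.Agent.TS
open Pool.Agent.CSG

theorem RadM_deriv_nonneg {φ : R3 → ℝ} (hs : ∀ X, ContDiffAt ℝ ∞ φ X)
    (hm : ∀ (X : R3) (l m : ℝ), 0 < l → l ≤ m → φ (l • X) ≤ φ (m • X)) (X : R3) :
    0 ≤ fderiv ℝ φ X X := by
  have hn : (∞ : WithTop ℕ∞) ≠ 0 := by simp
  have hmono : MonotoneOn (fun l : ℝ => φ (l • X)) (Ioi 0) := by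
    intro l hl m _ hlm
    exact hm X l m hl hlm
  have h1 : 0 ≤ derivWithin (fun l : ℝ => φ (l • X)) (Ioi 0) 1 := hmono.derivWithin_nonneg
  have h2 : derivWithin (fun l : ℝ => φ (l • X)) (Ioi 0) 1 = deriv (fun l : ℝ => φ (l • X)) 1 :=
    derivWithin_of_mem_nhds (Ioi_mem_nhds one_pos)
  have h3 : HasDerivAt (fun l : ℝ => l • X) X 1 := by
    simpa using (hasDerivAt_id (1 : ℝ)).smul_const X
  have h4 : HasFDerivAt φ (fderiv ℝ φ X) ((1 : ℝ) • X) := by
    rw [one_smul]
    exact ((hs X).differentiableAt hn).hasFDerivAt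
  have h5 : HasDerivAt (fun l : ℝ => φ (l • X)) (fderiv ℝ φ X X) 1 := h4.comp_hasDerivAt 1 h3
  rw [← h5.deriv, ← h2]
  exact h1

theorem rad {φ : R3 → ℝ} (hs : ∀ X, ContDiffAt ℝ ∞ φ X) (hp : ∀ X, 0 < φ X)
    (hm : ∀ (X : R3) (l m : ℝ), 0 < l → l ≤ m → φ (l • X) ≤ φ (m • X)) :
    Function.Bijective (fun X => φ X • X) ∧
      ∀ X, IsLocalDiffeomorphAt 𝓘(ℝ, R3) 𝓘(ℝ, R3) ∞ (fun X => φ X • X) X := by
  have hn : (∞ : WithTop ℕ∞) ≠ 0 := by simp
  have hcont : Continuous φ := continuous_iff_continuousAt.2 fun X => (hs X).continuousAt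
  refine ⟨⟨?_, ?_⟩, ?_⟩
  · intro X Y hXY
    have hXY' : φ X • X = φ Y • Y := hXY
    set c : ℝ := φ X / φ Y with hc
    have hcpos : 0 < c := div_pos (hp X) (hp Y)
    have hY : Y = c • X := by
      rw [hc, div_eq_inv_mul, mul_smul, hXY', ← mul_smul, inv_mul_cancel₀ (hp Y).ne', one_smul]
    by_cases hX : X = 0
    · rw [hY, hX, smul_zero]
    · have h1 : φ X = φ (c • X) * c := by
        have h2 : φ X • X = (φ (c • X) * c) • X := by
          rw [mul_smul, ← hY]; exact hXY'
        exact smul_left_injective ℝ hX h2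
      have h3 := hp (c • X)
      rcases le_or_gt 1 c with h | h
      · have h4 := hm X 1 c one_pos h
        rw [one_smul] at h4
        have h5 : c = 1 := by
          by_contra hne
          have h6 : 1 < c := lt_of_le_of_ne h (Ne.symm hne)
          nlinarith
        rw [hY, h5, one_smul]
      · exfalso
        have h4 := hm X c 1 hcpos h.le
        rw [one_smul] at h4
        have h5 := hp X
        nlinarith
  · intro Y
    by_cases hY : Y = 0
    · exact ⟨0, by rw [hY]; simp⟩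
    · have hh : Continuous (fun l : ℝ => l * φ (l • Y)) :=
        continuous_id.mul (hcont.comp (continuous_id.smul continuous_const))
      set L : ℝ := max 1 (φ Y)⁻¹ with hL
      have hL1 : 1 ≤ L := le_max_left _ _
      have hL2 : (φ Y)⁻¹ ≤ L := le_max_right _ _
      have h1 : 1 ≤ L * φ (L • Y) := by
        have h2 := hm Y 1 L one_pos hL1
        rw [one_smul] at h2
        have h3 : 1 ≤ L * φ Y := by
          have h4 : (φ Y)⁻¹ * φ Y ≤ L * φ Y := mul_le_mul_of_nonneg_right hL2 (hp Y).le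
          rwa [inv_mul_cancel₀ (hp Y).ne'] at h4
        have h5 : L * φ Y ≤ L * φ (L • Y) := mul_le_mul_of_nonneg_left h2 (by linarith)
        linarith
      have h0 : (fun l : ℝ => l * φ (l • Y)) 0 ≤ 1 := by simp
      obtain ⟨l, hl, hl1⟩ := intermediate_value_Icc (by linarith : (0 : ℝ) ≤ L) hh.continuousOn ⟨h0, h1⟩
      refine ⟨l • Y, ?_⟩
      have hl1' : l * φ (l • Y) = 1 := hl1
      show φ (l • Y) • (l • Y) = Y
      rw [← mul_smul, mul_comm, hl1', one_smul]
  · intro X
    refine ld_of_fderiv (Eventually.of_forall fun Y => (hs Y).smul contDiffAt_id) rfl ?_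
    intro v hv
    have hd : HasFDerivAt (fun X : R3 => φ X • X)
        (φ X • ContinuousLinearMap.id ℝ R3 + (fderiv ℝ φ X).smulRight X) X :=
      (((hs X).differentiableAt hn).hasFDerivAt).smul (hasFDerivAt_id X)
    rw [hd.fderiv] at hv
    have hv' : φ X • v + (fderiv ℝ φ X v) • X = 0 := by simpa using hv
    have hφ := (hp X).ne'
    set μ : ℝ := -((fderiv ℝ φ X v) / φ X) with hμ
    have hvX : v = μ • X := by
      have h1 : φ X • v = -((fderiv ℝ φ X v) • X) := eq_neg_of_add_eq_zero_left hv'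
      calc v = (φ X)⁻¹ • (φ X • v) := by rw [← mul_smul, inv_mul_cancel₀ hφ, one_smul]
        _ = μ • X := by rw [h1, smul_neg, ← mul_smul, ← neg_smul, hμ, div_eq_inv_mul]
    by_cases hX : X = 0
    · rw [hvX, hX, smul_zero]
    · rw [hvX, map_smul, ← mul_smul, ← add_smul, smul_eq_mul] at hv'
      have h2 : φ X * μ + μ * (fderiv ℝ φ X) X = 0 := (smul_eq_zero.1 hv').resolve_right hX
      have h3 := RadM_deriv_nonneg hs hm X
      have h4 : μ * (φ X + (fderiv ℝ φ X) X) = 0 := by linarith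
      have h5 : φ X + (fderiv ℝ φ X) X ≠ 0 := by have := hp X; linarith
      have h6 : μ = 0 := (mul_eq_zero.1 h4).resolve_right h5
      rw [hvX, h6, zero_smul]

end Pool.Agent.TS
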