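import Pool.Agent.TS.InnM
import Pool.Agent.TS.FneM
import Pool.Agent.TS.OutGM
import Pool.Agent.TS.SizeM
import Pool.Agent.TS.CorMid
import Pool.Agent.TS.CcM

/-!
# TS/RgBM: every point of `L.Rg` is in the image of the new structure
`Im L F q` : `q` is a value `GB (p, r)` with `RegB` and `‖fr p‖ < 3 ε` or `‖fr r‖ < 3 ε`, or a value of `cKB`, `cTB`.
`F_mem_Im`: not `Far 3 b`: apply `cover` (`R = 3`) to `sw b` (`far_sw`): (T) `b = sw (OmT (q, x̂, ζ))`, `nr X2 < 3`: `ζ = 0`: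
`cTB (q, ns ε x̂)` (`|ns| < 1/2`, `nsi_ns`); `ζ = s ex t`: `GB (p, r)`, `p = ns ε x̂ + i t`,
`r = ε s ex (q + k t + k twc ζ)` (`s < 3` by `norm_Z_le`): `bK = b`, `InK` (`InK_per`).  (C) `b = sw (OmC (r̂, ν))`, `‖ν‖ < 3`,
`(E2 ε r̂).1 ≤ -4/5`: `r = ns ε r̂.re + i r̂.im`, `p = ε ww ex (e thc r̂.im) ν`: `3 ε ≤ ‖fr r‖` (`E2_far`, `c = 3`), `InT`, `bT = b`.
(P) `b = sw (OmP sg (ν, 0))`: `cKB (hS sg ν)`.
`G_mem_Im`: `Reg ρ P R`, reduced, `‖P‖ < 3 ε` or `‖R‖ < 3 ε`.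
 (a) `‖P‖ < 3 ε`, `|R.re| < 1/2`, `nr X2 (nsi ε R.re, zT P R) < 3`: `L.G (P, R) = fT L (q, ŷ, zT) = F (OmT ..)`, `hF.T`,
 not far (`OmT_far`), `F_mem_Im`.
 (b) `‖R‖ < 3 ε`, `|P.re| < 1/2`, `‖R‖ < 3 ε ww (nsi ε P.re)`, and `3 ε ≤ ‖P‖`: `L.G (P, R) = fC L (p̂, ν)`, `‖ν‖ < 3`,
 `(E2 ε p̂).1 ≤ -4/5 < -3/5`: `hF.C`.
 (If `‖P‖, ‖R‖ < 3 ε` then `nsi = id`, `ww = 1`, `nr X2 = ‖zT‖ < 3` or `< 1`: case (a).)
 (c) otherwise `OutA ε P R`.  If `‖R‖ < 3 ε` and `ε/8 ≤ ‖R‖`: `GB (P, R) = L.G (P, R)` (`GB_eq_G`: not `InK`: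
 `nr X2 (nsi P.re, zK) = ‖zK‖/ww ≥ 3`).  If `‖R‖ < ε/8`: `R ≠ 0` (else `P.re = -1/2`, `OnCK`); `s = ‖R‖/ε`,
 `σ' = sgm (dl ε P.re)`, `σ = σ' MZ/s`, `p = yy ε σ + i P.im`, `r = ε s ex (q + k t + k twc ζ)` with
 `R = ε s ex (q + k thc t)`, `ζ = s ex t`, `t = P.im`: outer (`X2_of_sigma`: `NN σ ζ/|σ| = s/ww = ‖ν‖ ≥ 3`), `GB_eq_oK`,
 `jKb_TrS`.  If `‖R‖ ≥ 3 ε`, `‖P‖ < 3 ε`: similar: `ε/8 ≤ ‖P‖`: `GB (P, R) = L.G (P, R)`
 (not `InT`: `‖P‖/(ε ww) = nr X2 ≥ 3`); `‖P‖ < ε/8`: `s = ‖P‖/ε`, `σ_A = sgm (dl ε R.re)`, `σ = σ_A s/MZ`, `r = yy ε σ + i R.im`,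
 `p = ε s ex (q + e thc u)` with `P = ε s ex (q + e twc Z + e u)`, `GB_eq_oT`, `jTb_G`.
`core_mem_Im`: `L.jK (Y, 0)`: `‖yc Y‖ < 3 |Y₀|`: `= fP L sg (ν, 0) = F (OmP ..)`; else `= jKb L (q, σ₁, 0)
= cTB (q, x)`, `x = yy ε (σ₁/20)`.  `L.jT (q, y, 0)`: `InCT`: `= fT L (q, ŷ, 0) = F (OmT ..)`; else `= jTb L (q, σ, 0) =
cKB (bS (q, 20 σ))`.
-/

open scoped Manifold ContDiff Topology
open Complex (I)
open Set Filter

namespace Pool.Agent.TS
open Pool.Agent.CSG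

variable {X : Type*} [TopologicalSpace X] [ChartedSpace E4 X] {ε ρ : ℝ} {k e : ℤ}

def ImB (L : LS ε ρ k e X) (F : ℂ × ℂ → X) (x : X) : Prop :=
  (∃ p r, (‖fr p‖ < 3 * ε ∨ ‖fr r‖ < 3 * ε) ∧ r ∉ GI ∧ ¬ OnCK r p ∧ x = GB L F (p, r)) ∨
    (∃ Y, x = cKB L F Y) ∨ ∃ q y, x = cTB L F (q, y)

theorem RgBM_half {x : ℝ} (h : |x| < 1 / 2) (a : ℤ) : x ≠ a + 1 / 2 := by
  intro he
  rw [he] at h
  have h1 := abs_lt.1 h
  have h2 : (-1 : ℝ) < a := by linarith [h1.1]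
  have h3 : (a : ℝ) < 0 := by linarith [h1.2]
  have h4 : (-1 : ℤ) < a := by exact_mod_cast h2
  have h5 : a < (0 : ℤ) := by exact_mod_cast h3
  omega

theorem RgBM_fr_re {z : ℂ} (h : |z.re| < 1 / 2) : (fr z).re = z.re := by
  have h1 := abs_lt.1 h
  rw [fr_re, rd_self h1.1.le h1.2]
  simp

theorem RgBM_ex_ne (u : ℝ) : ex u ≠ 0 := by
  unfold ex
  exact Complex.exp_ne_zero _

theorem RgBM_arg {l : ℝ} (hl : 0 < l) (v : ℝ) : ∃ n : ℤ,
    Complex.arg ((l : ℂ) * ex v) / (2 * Real.pi) = v + n := by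
  have h1 := ex_arg ((l : ℂ) * ex v)
  have h2 : ‖(l : ℂ) * ex v‖ = l := by
    rw [norm_mul, ex_norm, mul_one, Complex.norm_real, Real.norm_eq_abs, abs_of_pos hl]
  rw [h2] at h1
  have hl' : (l : ℂ) ≠ 0 := by exact_mod_cast hl.ne'
  exact ex_eq_iff.1 (mul_left_cancel₀ hl' h1).symm

theorem RgBM_T (h0 : 0 < ε) (h1 : ε ≤ 1 / 1000) (h2 : 5 * ε < ρ) (h3 : ρ ≤ 1 / 8)
    (L : LS ε ρ k e X) (F : ℂ × ℂ → X) {q y : ℝ} {Z : ℂ} (hn : nr (X2 ε (y, Z)) < 3) :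
    ImB L F (F (sw (OmT ε (q, y, Z)))) := by
  have hns := ns_lt h0 h1 y
  have hnsi := nsi_ns h0 h1 y
  by_cases hZ : Z = 0
  · subst hZ
    refine Or.inr (Or.inr ⟨q, ns ε y, ?_⟩)
    have hfr : (fr ((ns ε y : ℝ) : ℂ)).re = ns ε y := by
      rw [RgBM_fr_re (by rw [Complex.ofReal_re]; exact hns), Complex.ofReal_re]
    unfold cTB
    simp only
    rw [hfr, if_pos ⟨hns, by rw [hnsi]; exact hn⟩, hnsi]
  · obtain ⟨t, ht⟩ := exists_polar (Z := Z)
    have hs : 0 < ‖Z‖ := norm_pos_iff.2 hZ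
    have hs3 : ‖Z‖ < 3 := by
      rcases lt_or_ge ‖Z‖ 1 with h | h
      · linarith
      · exact lt_of_le_of_lt (norm_Z_le h0 h1 y Z h) hn
    generalize hsd : ‖Z‖ = s at ht hs hs3
    have hεs : 0 < ε * s := mul_pos h0 hs
    set v : ℝ := q + k * t + k * twc Z with hv
    have hrn : ‖((ε * s : ℝ) : ℂ) * ex v‖ = ε * s := by
      rw [norm_mul, ex_norm, mul_one, Complex.norm_real, Real.norm_eq_abs, abs_of_pos hεs]
    have hεs3 : ε * s < 3 * ε := by nlinarith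
    have hre : (((ns ε y : ℝ) : ℂ) + (t : ℂ) * I).re = ns ε y := by simp
    have him : (((ns ε y : ℝ) : ℂ) + (t : ℂ) * I).im = t := by simp
    have hzK : zK ε (((ns ε y : ℝ) : ℂ) + (t : ℂ) * I) (((ε * s : ℝ) : ℂ) * ex v) = Z := by
      unfold zK
      rw [hrn, him, ht]
      congr 2
      field_simp
    have hIn : InK ε (((ns ε y : ℝ) : ℂ) + (t : ℂ) * I) (((ε * s : ℝ) : ℂ) * ex v) := by
      refine ⟨by rw [hre]; exact hns, ?_⟩
      rw [hzK, hre, hnsi]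
      exact hn
    have hfr : fr (((ε * s : ℝ) : ℂ) * ex v) = ((ε * s : ℝ) : ℂ) * ex v :=
      fr_self' (by rw [hrn]; linarith)
    refine Or.inl ⟨((ns ε y : ℝ) : ℂ) + (t : ℂ) * I, ((ε * s : ℝ) : ℂ) * ex v, Or.inr ?_, ?_, ?_, ?_⟩
    · rw [hfr, hrn]
      exact hεs3
    · intro hG
      have := GI_norm_lt hG (by rw [hrn]; linarith)
      rw [this, norm_zero] at hrn
      linarith
    · rintro ⟨-, a, ha⟩
      refine RgBM_half ?_ a ha
      refine lt_of_le_of_lt (Complex.abs_re_le_norm _) ?_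
      rw [hrn]
      linarith
    · rw [GB_eq_K h0 h2 h3 L F (by rw [hrn]; exact hεs3) (by rw [hre]; exact hns), if_pos hIn]
      unfold bK
      rw [hzK, hre, hnsi]
      obtain ⟨n, hn'⟩ := RgBM_arg hεs v
      have hq : qK ε k (((ns ε y : ℝ) : ℂ) + (t : ℂ) * I) (((ε * s : ℝ) : ℂ) * ex v) = q + n := by
        unfold qK
        rw [hzK, him, hn', hv]
        ring
      rw [hq, OmT_per]

theorem RgBM_C (h0 : 0 < ε) (h1 : ε ≤ 1 / 1000) (h2 : 5 * ε < ρ) (h3 : ρ ≤ 1 / 8)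
    (L : LS ε ρ k e X) (F : ℂ × ℂ → X) {p ν : ℂ} (hν : ‖ν‖ < 3) (hE : (E2 ε p).1 ≤ -(4 / 5)) :
    ImB L F (F (sw (OmC ε (p, ν)))) := by
  have hns := ns_lt h0 h1 p.re
  have hnsi := nsi_ns h0 h1 p.re
  have hw := ww_pos p.re
  have hw1 := ww_le_one p.re
  have hεw : 0 < ε * ww p.re := mul_pos h0 hw
  have hfar : ∀ n : ℤ, 3 * ε ≤ ‖p - n * I‖ := by
    intro n
    by_contra hlt
    have := (E2_far h0 h1 (c := 3) (by norm_num) (by norm_num) p).2 ⟨n, not_le.1 hlt⟩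
    norm_num at this
    linarith
  have hrre : (((ns ε p.re : ℝ) : ℂ) + (p.im : ℂ) * I).re = ns ε p.re := by simp
  have hrim : (((ns ε p.re : ℝ) : ℂ) + (p.im : ℂ) * I).im = p.im := by simp
  have hfr : 3 * ε ≤ ‖fr (((ns ε p.re : ℝ) : ℂ) + (p.im : ℂ) * I)‖ := by
    have hfre : (fr (((ns ε p.re : ℝ) : ℂ) + (p.im : ℂ) * I)).re = ns ε p.re := by
      rw [RgBM_fr_re (by rw [hrre]; exact hns), hrre]
    rcases le_or_gt |ns ε p.re| (1 / 5) with h | h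
    · have hx := ns_abs_small h0 h1 h
      have hx' := ns_small (ε := ε) hx
      have : fr (((ns ε p.re : ℝ) : ℂ) + (p.im : ℂ) * I) = p - (round p.im : ℤ) * I := by
        apply Complex.ext
        · rw [hfre, hx']
          simp
        · rw [fr_im, hrim]
          simp
      rw [this]
      exact hfar _
    · have := Complex.abs_re_le_norm (fr (((ns ε p.re : ℝ) : ℂ) + (p.im : ℂ) * I))
      rw [hfre] at this
      linarith
  have hpn : ‖((ε * ww p.re : ℝ) : ℂ) * ex (e * thc p.im) * ν‖ = ε * ww p.re * ‖ν‖ := by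
    rw [norm_mul, norm_mul, ex_norm, mul_one, Complex.norm_real, Real.norm_eq_abs,
      abs_of_pos hεw]
  have hpn1 : ε * ww p.re * ‖ν‖ < 3 * ε * ww p.re := by nlinarith
  have hpn2 : 3 * ε * ww p.re ≤ 3 * ε := by nlinarith
  have hIn : InT ε (((ε * ww p.re : ℝ) : ℂ) * ex (e * thc p.im) * ν)
      (((ns ε p.re : ℝ) : ℂ) + (p.im : ℂ) * I) := by
    refine ⟨by rw [hrre]; exact hns, ?_⟩
    rw [hrre, hnsi, hpn]
    exact hpn1
  have hfrp : fr (((ε * ww p.re : ℝ) : ℂ) * ex (e * thc p.im) * ν) =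
      ((ε * ww p.re : ℝ) : ℂ) * ex (e * thc p.im) * ν := fr_self' (by rw [hpn]; linarith)
  refine Or.inl ⟨((ε * ww p.re : ℝ) : ℂ) * ex (e * thc p.im) * ν,
    ((ns ε p.re : ℝ) : ℂ) + (p.im : ℂ) * I, Or.inl ?_, ?_, ?_, ?_⟩
  · rw [hfrp, hpn]
    linarith
  · intro hG
    rw [fr_eq_zero.2 hG, norm_zero] at hfr
    linarith
  · rintro ⟨-, a, ha⟩
    exact RgBM_half (by rw [hrre]; exact hns) a ha
  · rw [GB_eq_T h0 h2 h3 L F hfr (by rw [hpn]; linarith) (by rw [hrre]; exact hns), if_pos hIn]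
    unfold bT
    rw [hrre, hrim, hnsi]
    have hnT : nT ε e (((ε * ww p.re : ℝ) : ℂ) * ex (e * thc p.im) * ν)
        (((ns ε p.re : ℝ) : ℂ) + (p.im : ℂ) * I) = ν := by
      unfold nT
      rw [hrre, hrim, hnsi]
      have h6 : ((ε * ww p.re : ℝ) : ℂ) ≠ 0 := by exact_mod_cast hεw.ne'
      have hex : ex (e * thc p.im) * ex (-(e * thc p.im)) = 1 := by
        rw [← ex_add, add_neg_cancel]
        simpa using ex_int 0
      generalize ((ε * ww p.re : ℝ) : ℂ) = w at h6 ⊢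
      calc w * ex (e * thc p.im) * ν * ex (-(e * thc p.im)) / w
          = (ex (e * thc p.im) * ex (-(e * thc p.im))) * ν * (w / w) := by ring
        _ = ν := by rw [hex, div_self h6]; ring
    rw [hnT, Complex.re_add_im]

theorem RgBM_P (L : LS ε ρ k e X) (F : ℂ × ℂ → X) {sg : ℝ} (hs : sg ^ 2 = 1) {ν : ℂ}
    (hν : ‖ν‖ < 3) : ImB L F (F (sw (OmP ε sg (ν, 0)))) := by
  refine Or.inr (Or.inl ⟨hS sg ν, ?_⟩)
  have hsq : sg = 1 ∨ sg = -1 := by
    have : (sg - 1) * (sg + 1) = 0 := by linear_combination hs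
    rcases mul_eq_zero.1 this with h | h
    · left; linarith
    · right; linarith
  have hn : 0 < √(1 + ‖ν‖ ^ 2) := Real.sqrt_pos.2 (by positivity)
  have hnC : ((√(1 + ‖ν‖ ^ 2) : ℝ) : ℂ) ≠ 0 := by exact_mod_cast hn.ne'
  have hz := hS_zero hs ν
  have hy := hS_yc hs ν
  have habs : |-sg| = 1 := by
    rcases hsq with h | h <;> simp [h]
  have hz' : |((hS sg ν : S2) : E3) 0| = 1 / √(1 + ‖ν‖ ^ 2) := by
    rw [hz, abs_div, habs, abs_of_pos hn]
  have hy' : ‖yc (hS sg ν)‖ = ‖ν‖ / √(1 + ‖ν‖ ^ 2) := by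
    rw [hy, norm_div, Complex.norm_real, Real.norm_eq_abs, abs_of_pos hn]
  have hcond : ‖yc (hS sg ν)‖ < 3 * |((hS sg ν : S2) : E3) 0| := by
    rw [hy', hz', mul_one_div]
    exact div_lt_div_of_pos_right hν hn
  unfold cKB
  rw [if_pos hcond, hz', hy]
  have e1 : ν / ((√(1 + ‖ν‖ ^ 2) : ℝ) : ℂ) / ((1 / √(1 + ‖ν‖ ^ 2) : ℝ) : ℂ) = ν := by
    push_cast
    field_simp
  have e2 : (if 0 < ((hS sg ν : S2) : E3) 0 then (-1 : ℝ) else 1) = sg := by
    rw [hz]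
    rcases hsq with h | h
    · subst h
      have : ¬ (0 : ℝ) < -1 / √(1 + ‖ν‖ ^ 2) := by
        rw [not_lt]
        exact div_nonpos_of_nonpos_of_nonneg (by norm_num) hn.le
      rw [if_neg this]
    · subst h
      have : (0 : ℝ) < - -1 / √(1 + ‖ν‖ ^ 2) := div_pos (by norm_num) hn
      rw [if_pos this]
  rw [e1, e2]

theorem F_mem_Im (h0 : 0 < ε) (h1 : ε ≤ 1 / 1000) (h2 : 5 * ε < ρ) (h3 : ρ ≤ 1 / 8)
    {L : LS ε ρ k e X} {F : ℂ × ℂ → X} (hF : IsF L F) {b : ℂ × ℂ} (hb : ¬ Far 3 b) :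
    ImB L F (F b) := by
  have hb' : ¬ Far 3 (sw b) := fun h => hb (far_sw.1 h)
  have hsw : ∀ c : ℂ × ℂ, sw b = c → b = sw c := by
    intro c hc
    rw [← hc]
    rfl
  rcases cover h0 h1 (by norm_num : (2 : ℝ) < 3) (by norm_num) hb' with
    ⟨q, y, Z, hn, hc⟩ | ⟨p, ν, hν, hE, hc⟩ | ⟨sg, ν, hs, hν, hc⟩
  · rw [hsw _ hc]
    exact RgBM_T h0 h1 h2 h3 L F hn
  · rw [hsw _ hc]
    exact RgBM_C h0 h1 h2 h3 L F hν (by norm_num at hE ⊢; exact hE)
  · rw [hsw _ hc]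
    exact RgBM_P L F hs hν

theorem RgBM_NN (σ : ℝ) : NN σ 0 = 1 / 20 := by
  unfold NN
  rw [norm_zero, MZ_zero]
  have : (0 : ℝ) ^ 2 * σ ^ 2 + (1 / 20) ^ 2 = (1 / 20) ^ 2 := by ring
  rw [this, Real.sqrt_sq (by norm_num)]

theorem RgBM_TrS (σ : ℝ) : TrS (σ, 0) = (20 * σ, 0) := by
  unfold TrS
  simp only [RgBM_NN, mul_zero]
  refine Prod.ext ?_ rfl
  simp only
  ring

theorem RgBM_TrSi (σ : ℝ) : TrSi (σ, 0) = (σ / 20, 0) := by
  unfold TrSi
  refine Prod.ext ?_ ?_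
  · simp only [zero_div, norm_zero]
    rw [MZ_zero]
    simp
    ring
  · simp

theorem RgBM_sinh {y : ℝ} (h : |y| < 3 / 10) : |Real.sinh (2 * Real.pi * y)| < 4 := by
  have hpi := Real.pi_pos
  have hpi2 : Real.pi < 315 / 100 := by linarith [Real.pi_lt_d2]
  have e1 : |Real.sinh (2 * Real.pi * y)| = Real.sinh |2 * Real.pi * y| := Real.abs_sinh _
  have e2 : |2 * Real.pi * y| = 2 * Real.pi * |y| := by
    rw [abs_mul, abs_of_pos (by positivity)]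
  have hb : 2 * Real.pi * |y| ≤ 2 := by
    have := abs_nonneg y
    nlinarith
  rw [e1, e2]
  have h3 : Real.sinh (2 * Real.pi * |y|) ≤ Real.sinh 2 := Real.sinh_le_sinh.2 hb
  refine lt_of_le_of_lt h3 ?_
  rw [Real.sinh_eq]
  have h4 : Real.exp 2 < 8 := by
    have h5 : Real.exp 2 = Real.exp 1 * Real.exp 1 := by
      rw [← Real.exp_add]
      norm_num
    have h6 := Real.exp_one_lt_d9
    have h7 := Real.exp_pos 1
    rw [h5]
    nlinarith
  have h8 := Real.exp_pos (-2)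
  linarith

theorem RgBM_sgm {σ : ℝ} : |σ / √(1 + σ ^ 2)| < 1 ∧ sgm (σ / √(1 + σ ^ 2)) = σ := by
  have hs : 0 < √(1 + σ ^ 2) := Real.sqrt_pos.2 (by positivity)
  have hs2 : √(1 + σ ^ 2) ^ 2 = 1 + σ ^ 2 := Real.sq_sqrt (by positivity)
  constructor
  · rw [abs_div, abs_of_pos hs, div_lt_one hs]
    apply lt_of_pow_lt_pow_left₀ 2 hs.le
    rw [hs2, sq_abs]
    linarith
  · unfold sgm
    have e1 : 1 - (σ / √(1 + σ ^ 2)) ^ 2 = (1 / √(1 + σ ^ 2)) ^ 2 := by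
      rw [div_pow, div_pow, hs2]
      field_simp
      ring
    rw [e1, Real.sqrt_sq (by positivity)]
    field_simp

theorem RgBM_size (h0 : 0 < ε) (h1 : ε ≤ 1 / 1000) {x : ℝ}
    (h : 60 ≤ |Real.sinh (2 * Real.pi * x)|) : 3 ≤ nr (X2 ε (x, 0)) := by
  have hn := nr_io (x, 0)
  have hre := io_re (x, 0)
  simp only [MZ_zero, norm_zero] at hn hre
  have hsq : 60 ^ 2 ≤ Real.sinh (2 * Real.pi * x) ^ 2 := by
    rw [← sq_abs (Real.sinh _)]
    exact pow_le_pow_left₀ (by norm_num) h 2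
  have h3 : 3 ≤ nr (io (x, 0)) := by
    apply le_of_sq_le_sq _ (nr_nonneg _)
    rw [hn]
    nlinarith
  have hAX : AX (io (x, 0)) = 1 := by
    apply AX_axis
    · rw [hre, hn]
      nlinarith
    · apply nr_pos.1
      linarith
  unfold X2
  rw [nr_DD h0 h1, nr_VV, Rd_big (by linarith), hAX, one_smul]
  exact h3

theorem RgBM_jTb (L : LS ε ρ k e X) (F : ℂ × ℂ → X) {q σ : ℝ} (hσ : |σ| ≤ 1 / 60) :
    ImB L F (jTb L (q, σ, 0)) := by
  refine Or.inr (Or.inl ⟨bS (q, 20 * σ), ?_⟩)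
  have hs : 0 < √(1 + (20 * σ) ^ 2) := Real.sqrt_pos.2 (by positivity)
  have hz := bS_zero q (20 * σ)
  have hy := bS_yc q (20 * σ)
  have hyn : ‖yc (bS (q, 20 * σ))‖ = 1 / √(1 + (20 * σ) ^ 2) := by
    rw [hy, norm_div, ex_norm, Complex.norm_real, Real.norm_eq_abs, abs_of_pos hs]
  have hzn : |((bS (q, 20 * σ) : S2) : E3) 0| = 20 * |σ| / √(1 + (20 * σ) ^ 2) := by
    rw [hz, abs_div, abs_neg, abs_mul, abs_of_pos (by norm_num : (0 : ℝ) < 20), abs_of_pos hs]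
  have hcond : ¬ ‖yc (bS (q, 20 * σ))‖ < 3 * |((bS (q, 20 * σ) : S2) : E3) 0| := by
    rw [hyn, hzn, not_lt, ← mul_div_assoc]
    apply div_le_div_of_nonneg_right _ hs.le
    linarith
  unfold cKB
  rw [if_neg hcond]
  have e1 : -(((bS (q, 20 * σ) : S2) : E3) 0) / ‖yc (bS (q, 20 * σ))‖ = 20 * σ := by
    rw [hyn, hz]
    field_simp
  have e2 : ∃ n : ℤ, Complex.arg (yc (bS (q, 20 * σ))) / (2 * Real.pi) = q + n := by
    rw [hy]
    have e3 : ex q / ((√(1 + (20 * σ) ^ 2) : ℝ) : ℂ) =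
        ((1 / √(1 + (20 * σ) ^ 2) : ℝ) : ℂ) * ex q := by
      push_cast
      ring
    rw [e3]
    exact RgBM_arg (by positivity) q
  obtain ⟨n, hn⟩ := e2
  rw [e1, hn, RgBM_TrSi, jTb_per]
  congr 3
  ring

/-- the point `yy ε (σ / 20)` of the core is outer -/
theorem RgBM_out (h0 : 0 < ε) (h1 : ε ≤ 1 / 1000) {σ : ℝ} (hσ : |σ| ≤ 1 / 60) :
    sgm (dl ε (fr ((yy ε σ : ℝ) : ℂ)).re) = σ ∧
      ¬ (|(fr ((yy ε σ : ℝ) : ℂ)).re| < 1 / 2 ∧
        nr (X2 ε (nsi ε (fr ((yy ε σ : ℝ) : ℂ)).re, 0)) < 3) := by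
  have hs : 0 < √(1 + σ ^ 2) := Real.sqrt_pos.2 (by positivity)
  have hyl := abs_lt.1 (yy_lt h0 σ)
  have hδ := (RgBM_sgm (σ := σ)).2
  have hyd : yy ε σ = 1 / 2 - ε * (σ / √(1 + σ ^ 2)) := by
    unfold yy
    ring
  rcases lt_trichotomy σ 0 with hneg | hz | hpos
  · -- σ < 0
    have hδn : σ / √(1 + σ ^ 2) < 0 := div_neg_of_neg_of_pos hneg hs
    have hy1 : 1 / 2 < yy ε σ := by
      rw [hyd]
      nlinarith
    have hfr : (fr ((yy ε σ : ℝ) : ℂ)).re = yy ε σ - 1 := by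
      have e1 : fr ((yy ε σ : ℝ) : ℂ) = fr (((yy ε σ - 1 : ℝ) : ℂ)) := by
        have e2 : ((yy ε σ : ℝ) : ℂ) = ((yy ε σ - 1 : ℝ) : ℂ) + 1 := by
          push_cast
          ring
        rw [e2]
        exact fr_add ⟨1, 0, by simp⟩
      rw [e1, RgBM_fr_re, Complex.ofReal_re]
      rw [Complex.ofReal_re, abs_lt]
      constructor <;> linarith [hyl.1, hyl.2]
    rw [hfr]
    have hdl : dl ε (yy ε σ - 1) = σ / √(1 + σ ^ 2) := by
      unfold dl
      rw [if_neg (by linarith [hyl.1, hyl.2]), hyd]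
      field_simp
      ring
    refine ⟨by rw [hdl]; exact hδ, ?_⟩
    rintro ⟨-, h4⟩
    set x : ℝ := Real.arsinh (1 / σ) / (2 * Real.pi) with hx
    have hsx : Real.sinh (2 * Real.pi * x) = 1 / σ := by
      rw [hx, mul_div_cancel₀ _ (by positivity), Real.sinh_arsinh]
    have hx0 : x < 0 := by
      rw [hx]
      apply div_neg_of_neg_of_pos _ (by positivity)
      rw [Real.arsinh_neg_iff]
      exact one_div_neg.2 hneg
    have habs : 60 ≤ |1 / σ| := by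
      rw [abs_div, abs_one, le_div_iff₀ (abs_pos.2 hneg.ne)]
      linarith
    have hx3 : 3 / 10 ≤ |x| := by
      by_contra hlt
      have := RgBM_sinh (not_le.1 hlt)
      rw [hsx] at this
      linarith
    have hx3' : x ≤ -(3 / 10) := by
      rw [abs_of_neg hx0] at hx3
      linarith
    have hnsx : ns ε x = yy ε σ - 1 := by
      rw [ns_yy' hx3', hsx, one_div_one_div]
    rw [← hnsx, nsi_ns h0 h1] at h4
    exact absurd h4 (not_lt.2 (RgBM_size h0 h1 (by rw [hsx]; exact habs)))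
  · -- σ = 0
    subst hz
    have hy : yy ε 0 = 1 / 2 := by
      rw [hyd]
      simp
    have hfr : (fr ((yy ε 0 : ℝ) : ℂ)).re = -(1 / 2) := by
      rw [hy, fr_re, Complex.ofReal_re]
      have : round (1 / 2 : ℝ) = 1 := by
        rw [round_eq]
        norm_num
      rw [this]
      norm_num
    rw [hfr]
    constructor
    · unfold dl sgm
      rw [if_neg (by norm_num)]
      norm_num
    · rintro ⟨h4, -⟩
      rw [abs_neg, abs_of_pos (by norm_num)] at h4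
      exact lt_irrefl _ h4
  · -- 0 < σ
    have hδn : 0 < σ / √(1 + σ ^ 2) := div_pos hpos hs
    have hy1 : yy ε σ < 1 / 2 := by
      rw [hyd]
      nlinarith
    have hfr : (fr ((yy ε σ : ℝ) : ℂ)).re = yy ε σ := by
      rw [RgBM_fr_re, Complex.ofReal_re]
      rw [Complex.ofReal_re, abs_lt]
      constructor <;> linarith [hyl.1, hyl.2]
    rw [hfr]
    have hdl : dl ε (yy ε σ) = σ / √(1 + σ ^ 2) := by
      unfold dl
      rw [if_pos (by linarith [hyl.1, hyl.2]), hyd]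
      field_simp
      ring
    refine ⟨by rw [hdl]; exact hδ, ?_⟩
    rintro ⟨-, h4⟩
    set x : ℝ := Real.arsinh (1 / σ) / (2 * Real.pi) with hx
    have hsx : Real.sinh (2 * Real.pi * x) = 1 / σ := by
      rw [hx, mul_div_cancel₀ _ (by positivity), Real.sinh_arsinh]
    have hx0 : 0 < x := by
      rw [hx]
      apply div_pos _ (by positivity)
      rw [Real.arsinh_pos_iff]
      exact one_div_pos.2 hpos
    have habs : 60 ≤ |1 / σ| := by
      rw [abs_div, abs_one, le_div_iff₀ (abs_pos.2 hpos.ne')]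
      linarith
    have hx3 : 3 / 10 ≤ |x| := by
      by_contra hlt
      have := RgBM_sinh (not_le.1 hlt)
      rw [hsx] at this
      linarith
    have hx3' : 3 / 10 ≤ x := by
      rwa [abs_of_pos hx0] at hx3
    have hnsx : ns ε x = yy ε σ := by
      rw [ns_yy hx3', hsx, one_div_one_div]
    rw [← hnsx, nsi_ns h0 h1] at h4
    exact absurd h4 (not_lt.2 (RgBM_size h0 h1 (by rw [hsx]; exact habs)))

theorem core_mem_Im (h0 : 0 < ε) (h1 : ε ≤ 1 / 1000) (h2 : 5 * ε < ρ) (h3 : ρ ≤ 1 / 8)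
    {L : LS ε ρ k e X} {F : ℂ × ℂ → X} (hF : IsF L F) :
    (∀ Y, ImB L F (L.jK (Y, 0))) ∧ ∀ q y, ImB L F (L.jT (q, y, 0)) := by
  constructor
  · intro Y
    by_cases hY : ‖yc Y‖ < 3 * |(Y : E3) 0|
    · have hY0 : (Y : E3) 0 ≠ 0 := by
        intro h
        rw [h, abs_zero, mul_zero] at hY
        exact absurd hY (not_lt.2 (norm_nonneg _))
      have hpos : 0 < |(Y : E3) 0| := abs_pos.2 hY0
      have hEq := eq_hS hY0
      set sg : ℝ := if 0 < (Y : E3) 0 then -1 else 1 with hsg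
      set ν : ℂ := yc Y / ((|(Y : E3) 0| : ℝ) : ℂ) with hνd
      have hs : sg ^ 2 = 1 := by
        rw [hsg]
        split_ifs <;> norm_num
      have hν : ‖ν‖ < 3 := by
        rw [hνd, norm_div, Complex.norm_real, Real.norm_eq_abs, abs_abs, div_lt_iff₀ hpos]
        exact hY
      have e1 : L.jK (Y, 0) = F (OmP ε sg (ν, 0)) := by
        rw [hF.P sg ν 0 hs (by linarith) (by rw [norm_zero]; norm_num)]
        unfold fP
        simp only
        rw [← hEq]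
      rw [e1]
      apply F_mem_Im h0 h1 h2 h3 hF
      rw [OmP_far h0 h1 (by norm_num) (by norm_num) hs ν (by rw [norm_zero]; norm_num)]
      exact not_le.2 hν
    · have hY' : 3 * |(Y : E3) 0| ≤ ‖yc Y‖ := not_lt.1 hY
      have hyc : yc Y ≠ 0 := by
        intro h
        rw [h, norm_zero] at hY'
        have h5 : (Y : E3) 0 = 0 := abs_eq_zero.1 (by have := abs_nonneg ((Y : E3) 0); linarith)
        have h6 := S2_sq Y
        rw [h, h5, norm_zero] at h6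
        norm_num at h6
      have hn := norm_pos_iff.2 hyc
      have hEq := eq_bS hyc
      set q : ℝ := Complex.arg (yc Y) / (2 * Real.pi) with hq
      set σ₁ : ℝ := -((Y : E3) 0) / ‖yc Y‖ with hσ
      have hσ1 : |σ₁| ≤ 1 / 3 := by
        rw [hσ, abs_div, abs_neg, abs_of_pos hn, div_le_iff₀ hn]
        linarith
      obtain ⟨g1, g2⟩ := RgBM_out h0 h1 (σ := σ₁ / 20) (by
        rw [abs_div, abs_of_pos (by norm_num : (0 : ℝ) < 20)]
        linarith)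
      refine Or.inr (Or.inr ⟨q, yy ε (σ₁ / 20), ?_⟩)
      unfold cTB
      rw [if_neg g2, g1, RgBM_TrS]
      unfold jKb
      simp only
      rw [mul_div_cancel₀ _ (by norm_num : (20 : ℝ) ≠ 0), ← hEq]
  · intro q y
    have hy0 : L.jT (q, y, 0) = L.jT (q, (fr (y : ℂ)).re, 0) := by
      have h5 := L.jT_per q (fr (y : ℂ)).re 0 0 (round y)
      rw [fr_re, Complex.ofReal_re] at h5 ⊢
      rw [← h5]
      congr 2
      · simp
      · congr 1
        ring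
    rw [hy0]
    have hmem := fr_re_mem (y : ℂ)
    generalize (fr (y : ℂ)).re = y₀ at hmem ⊢
    by_cases hI : |y₀| < 1 / 2
    · have hnn := ns_nsi h0 h1 hI
      have hc : L.jT (q, y₀, 0) = fT L (q, nsi ε y₀, 0) := by
        rw [fT_core, hnn]
      rw [hc]
      by_cases hn : nr (X2 ε (nsi ε y₀, 0)) < 3
      · rw [← hF.T q (nsi ε y₀) 0 (by linarith)]
        apply F_mem_Im h0 h1 h2 h3 hF
        rw [OmT_far (by norm_num)]
        rintro ⟨h5, -⟩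
        linarith
      · obtain ⟨g1, g2⟩ := X2_big h0 h1 (y := nsi ε y₀) (ζ := 0) (by rw [norm_zero]; norm_num)
          (not_lt.1 hn)
        rw [RgBM_NN] at g2
        rw [fT_jTb L q 0 g1]
        exact RgBM_jTb L F (by linarith)
    · have hy2 : y₀ = -(1 / 2) := by
        rw [abs_lt, not_and_or] at hI
        rcases hI with h | h
        · linarith [hmem.1]
        · exact absurd hmem.2 h
      have e1 : L.jT (q, y₀, 0) = jTb L (q, 0, 0) := by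
        unfold jTb
        simp only
        have h5 := L.jT_per q y₀ 0 0 1
        rw [twc_zero (by rw [norm_zero]; norm_num)]
        rw [← h5]
        congr 2
        · simp
        · congr 1
          rw [hy2]
          unfold yy
          norm_num
      rw [e1]
      exact RgBM_jTb L F (by rw [abs_zero]; norm_num)

end Pool.Agent.TS
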