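import Pool.Agent.TS.NrB
import Pool.Agent.TS.TwM

/-!
# TS/StA: the chart `T0 (q, Y) = St (ex q) Y` of the ball model (range: first component `≠ 0`)

`St c X` is `(c, X.2) / D`, `D = √(‖c‖^2 + nr X^2) + X.1 > 0` if `c ≠ 0` or `nr X + X.1 > 0`.
Put `b = St c X`.  Then `(2 b.1, 1 - ‖b.1‖^2 - ‖b.2‖^2, 2 b.2)` is the positive multiple `2/D` of `(c, X.1, X.2)`
(`D^2 - ‖c‖^2 - ‖X.2‖^2 = 2 X.1 D`).  Inverse of `T0`: `Y = (1 - ‖b‖^2, 2 b.2) / (2 ‖b.1‖)`, `ex q = b.1 / ‖b.1‖`.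
Local diffeomorphism: `ld_of_leftInv` with a local argument (`q = q₀ + arg (b.1 / ex q₀) / 2π`).
-/

open scoped Manifold ContDiff Topology
open Complex (I)
open Set Filter

namespace Pool.Agent.TS
open Pool.Agent.CSG

theorem sta_D_pos {c : ℂ} {X : R3} (h : c ≠ 0 ∨ 0 < nr X + X.1) :
    0 < √(‖c‖ ^ 2 + nr X ^ 2) + X.1 := by
  have h1 : |X.1| ≤ nr X := abs_fst_le_nr X
  have h2 : -X.1 ≤ |X.1| := neg_le_abs X.1
  rcases h with h | h
  · have h3 : nr X < √(‖c‖ ^ 2 + nr X ^ 2) := by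
      apply Real.lt_sqrt_of_sq_lt
      have : 0 < ‖c‖ ^ 2 := by positivity
      linarith
    linarith
  · have h3 : nr X ≤ √(‖c‖ ^ 2 + nr X ^ 2) := by
      apply Real.le_sqrt_of_sq_le
      have : 0 ≤ ‖c‖ ^ 2 := by positivity
      linarith
    linarith

theorem sta_fst (c : ℂ) (X : R3) : (St c X).1 = ((√(‖c‖ ^ 2 + nr X ^ 2) + X.1)⁻¹ : ℝ) * c := by
  simp only [St, Prod.smul_fst, Complex.real_smul]

theorem sta_snd (c : ℂ) (X : R3) : (St c X).2 = ((√(‖c‖ ^ 2 + nr X ^ 2) + X.1)⁻¹ : ℝ) * X.2 := by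
  simp only [St, Prod.smul_snd, Complex.real_smul]

theorem St_key {c : ℂ} {X : R3} (h : c ≠ 0 ∨ 0 < nr X + X.1) :
    0 < √(‖c‖ ^ 2 + nr X ^ 2) + X.1 ∧
    2 * (St c X).1 = (2 / (√(‖c‖ ^ 2 + nr X ^ 2) + X.1) : ℝ) * c ∧
    1 - ‖(St c X).1‖ ^ 2 - ‖(St c X).2‖ ^ 2 = 2 / (√(‖c‖ ^ 2 + nr X ^ 2) + X.1) * X.1 ∧
    2 * (St c X).2 = (2 / (√(‖c‖ ^ 2 + nr X ^ 2) + X.1) : ℝ) * X.2 := by
  have hD := sta_D_pos h
  refine ⟨hD, ?_, ?_, ?_⟩
  · rw [sta_fst]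
    push_cast
    ring
  · rw [sta_fst, sta_snd, norm_mul, norm_mul, Complex.norm_real, Real.norm_eq_abs, mul_pow, mul_pow,
      sq_abs]
    set S := √(‖c‖ ^ 2 + nr X ^ 2) with hS
    have hS2 : S ^ 2 = ‖c‖ ^ 2 + nr X ^ 2 := Real.sq_sqrt (by positivity)
    rw [nr_sq X] at hS2
    field_simp
    nlinarith [hS2]
  · rw [sta_snd]
    push_cast
    ring

theorem St_smul {c : ℂ} {X : R3} {l : ℝ} (hl : 0 < l) : St (l * c) (l • X) = St c X := by
  have h1 : √(‖(l : ℂ) * c‖ ^ 2 + nr (l • X) ^ 2) = l * √(‖c‖ ^ 2 + nr X ^ 2) := by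
    rw [nr_smul hl.le, norm_mul, Complex.norm_real, Real.norm_eq_abs, abs_of_pos hl,
      show (l * ‖c‖) ^ 2 + (l * nr X) ^ 2 = l ^ 2 * (‖c‖ ^ 2 + nr X ^ 2) by ring,
      Real.sqrt_mul (by positivity), Real.sqrt_sq hl.le]
  have h2 : √(‖(l : ℂ) * c‖ ^ 2 + nr (l • X) ^ 2) + (l • X).1 = l * (√(‖c‖ ^ 2 + nr X ^ 2) + X.1) := by
    rw [h1, Prod.smul_fst, smul_eq_mul]; ring
  have hl' : (l : ℂ) ≠ 0 := by exact_mod_cast hl.ne'
  apply Prod.ext
  · rw [sta_fst, sta_fst, h2, mul_inv]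
    push_cast
    field_simp
  · rw [sta_snd, sta_snd, h2, mul_inv, Prod.smul_snd, Complex.real_smul]
    push_cast
    field_simp

/-- `St` is injective up to positive multiples -/
theorem St_eq {c c' : ℂ} {X X' : R3} (h : c ≠ 0 ∨ 0 < nr X + X.1) (h' : c' ≠ 0 ∨ 0 < nr X' + X'.1)
    (he : St c X = St c' X') : ∃ l : ℝ, 0 < l ∧ c' = l * c ∧ X' = l • X := by
  obtain ⟨hD, h1, h2, h3⟩ := St_key h
  obtain ⟨hD', h1', h2', h3'⟩ := St_key h'
  set D := √(‖c‖ ^ 2 + nr X ^ 2) + X.1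
  set D' := √(‖c'‖ ^ 2 + nr X' ^ 2) + X'.1
  rw [← he] at h1' h2' h3'
  rw [h1] at h1'
  rw [h2] at h2'
  rw [h3] at h3'
  have hDc : (D : ℂ) ≠ 0 := by exact_mod_cast hD.ne'
  have hDc' : (D' : ℂ) ≠ 0 := by exact_mod_cast hD'.ne'
  refine ⟨D' / D, by positivity, ?_, ?_⟩
  · push_cast at h1' ⊢
    field_simp at h1' ⊢
    linear_combination -h1'
  · apply Prod.ext
    · rw [Prod.smul_fst, smul_eq_mul]
      field_simp at h2' ⊢
      linarith
    · rw [Prod.smul_snd, Complex.real_smul]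
      push_cast at h3' ⊢
      field_simp at h3' ⊢
      linear_combination -h3'

theorem St_surj {b : ℂ × ℂ} :
    St (2 * b.1) (1 - ‖b.1‖ ^ 2 - ‖b.2‖ ^ 2, 2 * b.2) = b := by
  have h1 : √(‖2 * b.1‖ ^ 2 + nr (1 - ‖b.1‖ ^ 2 - ‖b.2‖ ^ 2, 2 * b.2) ^ 2) +
      ((1 - ‖b.1‖ ^ 2 - ‖b.2‖ ^ 2, 2 * b.2) : R3).1 = 2 := by
    rw [nr_sq]
    simp only [norm_mul, Complex.norm_ofNat]
    rw [show (2 * ‖b.1‖) ^ 2 + ((1 - ‖b.1‖ ^ 2 - ‖b.2‖ ^ 2) ^ 2 + (2 * ‖b.2‖) ^ 2) =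
      (1 + ‖b.1‖ ^ 2 + ‖b.2‖ ^ 2) ^ 2 by ring, Real.sqrt_sq (by positivity)]
    ring
  apply Prod.ext
  · rw [sta_fst, h1]
    push_cast
    ring
  · rw [sta_snd, h1]
    push_cast
    ring

theorem St_smoothAt {c : ℂ} {X : R3} (h : c ≠ 0 ∨ 0 < nr X + X.1) :
    ContDiffAt ℝ ∞ (fun a : ℂ × R3 => St a.1 a.2) (c, X) := by
  have hD := sta_D_pos h
  have h0 : ‖c‖ ^ 2 + nr X ^ 2 ≠ 0 := by
    rcases h with h | h
    · have : 0 < ‖c‖ ^ 2 := by positivity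
      positivity
    · have h1 : |X.1| ≤ nr X := abs_fst_le_nr X
      have h2 : X.1 ≤ |X.1| := le_abs_self X.1
      have h3 : 0 < nr X := by linarith
      positivity
  have e1 : ContDiffAt ℝ ∞ (fun a : ℂ × R3 => ‖a.1‖ ^ 2 + nr a.2 ^ 2) (c, X) := by
    apply ContDiffAt.add
    · exact (contDiff_norm_sq ℝ |>.comp contDiff_fst).contDiffAt
    · exact (nr_sq_smooth.comp contDiff_snd).contDiffAt
  have e2 : ContDiffAt ℝ ∞ (fun a : ℂ × R3 => (√(‖a.1‖ ^ 2 + nr a.2 ^ 2) + a.2.1)⁻¹) (c, X) := by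
    apply ContDiffAt.inv
    · apply ContDiffAt.add
      · exact e1.sqrt h0
      · exact (contDiff_fst.comp contDiff_snd).contDiffAt
    · exact hD.ne'
  unfold St
  apply e2.smul
  apply ContDiffAt.prodMk
  · exact contDiff_fst.contDiffAt
  · exact (contDiff_snd.comp contDiff_snd).contDiffAt

theorem sta_ex_ne (x : ℝ) : ex x ≠ 0 := by
  rw [← norm_pos_iff, ex_norm]
  exact one_pos

theorem T0_ne (a : ℝ × R3) : (T0 a).1 ≠ 0 := by
  have hD := sta_D_pos (X := a.2) (Or.inl (sta_ex_ne a.1))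
  unfold T0
  rw [sta_fst]
  refine mul_ne_zero ?_ (sta_ex_ne a.1)
  exact_mod_cast (inv_pos.2 hD).ne'

theorem T0_per (q : ℝ) (Y : R3) (n : ℤ) : T0 (q + n, Y) = T0 (q, Y) := by
  unfold T0
  simp only [ex_add, ex_int, mul_one]

theorem T0_inj {q q' : ℝ} {Y Y' : R3} (h : T0 (q, Y) = T0 (q', Y')) :
    (∃ n : ℤ, q' = q + n) ∧ Y' = Y := by
  obtain ⟨l, hl, h1, h2⟩ := St_eq (Or.inl (sta_ex_ne q)) (Or.inl (sta_ex_ne q')) h
  have h3 : l = 1 := by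
    have := congrArg norm h1
    rw [ex_norm, norm_mul, ex_norm, Complex.norm_real, Real.norm_eq_abs, abs_of_pos hl] at this
    linarith
  subst h3
  have h2' : Y' = (1 : ℝ) • Y := h2
  refine ⟨?_, by rw [h2', one_smul]⟩
  apply ex_eq_iff.1
  rw [h1]; simp

theorem T0_surj {b : ℂ × ℂ} (h : b.1 ≠ 0) : ∃ q Y, T0 (q, Y) = b := by
  obtain ⟨u, hu⟩ := exists_polar (Z := 2 * b.1)
  have hpos : 0 < ‖2 * b.1‖ := by
    rw [norm_pos_iff]
    exact mul_ne_zero two_ne_zero h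
  refine ⟨u, ‖2 * b.1‖⁻¹ • (1 - ‖b.1‖ ^ 2 - ‖b.2‖ ^ 2, 2 * b.2), ?_⟩
  have h1 := St_surj (b := b)
  unfold T0
  simp only
  rw [← St_smul (l := ‖2 * b.1‖) hpos, smul_inv_smul₀ hpos.ne', ← hu]
  exact h1

theorem sta_T0_smooth : ContDiff ℝ ∞ T0 := by
  rw [contDiff_iff_contDiffAt]
  intro a
  have h1 := St_smoothAt (X := a.2) (Or.inl (sta_ex_ne a.1))
  have h2 : ContDiffAt ℝ ∞ (fun a : ℝ × R3 => ((ex a.1, a.2) : ℂ × R3)) a :=
    ((ex_smooth.comp contDiff_fst).prodMk contDiff_snd).contDiffAt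
  exact ContDiffAt.comp a (g := fun a : ℂ × R3 => St a.1 a.2)
    (f := fun a : ℝ × R3 => ((ex a.1, a.2) : ℂ × R3)) h1 h2

theorem sta_arg_ex {r x : ℝ} (hr : 0 < r) (h1 : -(1 / 2) < x) (h2 : x ≤ 1 / 2) :
    Complex.arg (r * ex x) = 2 * Real.pi * x := by
  rw [Complex.arg_real_mul _ hr, ex, Complex.arg_exp_mul_I, toIocMod_eq_self]
  constructor
  · nlinarith [Real.pi_pos]
  · nlinarith [Real.pi_pos]

theorem T0_ld (a : ℝ × R3) : IsLocalDiffeomorphAt 𝓘(ℝ, ℝ × R3) 𝓘(ℝ, ℂ × ℂ) ∞ T0 a := by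
  obtain ⟨q₀, Y₀⟩ := a
  let g : ℂ × ℂ → ℝ × R3 := fun b =>
    (q₀ + Complex.arg (b.1 * ex (-q₀)) / (2 * Real.pi),
      (2 * ‖b.1‖)⁻¹ • ((1 - ‖b.1‖ ^ 2 - ‖b.2‖ ^ 2, 2 * b.2) : R3))
  have hk : ∀ q Y, T0 (q, Y) = St (ex q) Y := fun q Y => rfl
  have harg : ∀ q Y, |q - q₀| < 1 / 2 →
      Complex.arg ((T0 (q, Y)).1 * ex (-q₀)) = 2 * Real.pi * (q - q₀) := by
    intro q Y hq
    have hD := sta_D_pos (X := Y) (Or.inl (sta_ex_ne q))
    rw [hk, sta_fst, mul_assoc, ← ex_add, ← sub_eq_add_neg]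
    rw [abs_lt] at hq
    exact sta_arg_ex (inv_pos.2 hD) (by linarith) (by linarith)
  refine ld_of_leftInv (g := g) ?_ ?_ ?_ ?_
  · simp [Complex.finrank_real_complex]
  · exact Eventually.of_forall fun y => sta_T0_smooth.contDiffAt
  · have hD := sta_D_pos (X := Y₀) (Or.inl (sta_ex_ne q₀))
    have hne := T0_ne (q₀, Y₀)
    have hslit : (T0 (q₀, Y₀)).1 * ex (-q₀) ∈ Complex.slitPlane := by
      rw [hk, sta_fst, mul_assoc, ← ex_add, add_neg_cancel]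
      have : ex 0 = 1 := by
        have := ex_int 0
        simpa using this
      rw [this, mul_one]
      exact Complex.ofReal_mem_slitPlane.2 (inv_pos.2 hD)
    apply DifferentiableAt.prodMk
    · apply DifferentiableAt.const_add
      have h1 : (fun b : ℂ × ℂ => Complex.arg (b.1 * ex (-q₀))) =
          fun b : ℂ × ℂ => (Complex.log (b.1 * ex (-q₀))).im := by
        ext b; rw [Complex.log_im]
      have h2 : DifferentiableAt ℝ (fun b : ℂ × ℂ => Complex.log (b.1 * ex (-q₀))) (T0 (q₀, Y₀)) := by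
        have h3 : DifferentiableAt ℂ Complex.log ((T0 (q₀, Y₀)).1 * ex (-q₀)) :=
          Complex.differentiableAt_log hslit
        have h4 := h3.restrictScalars ℝ
        exact DifferentiableAt.comp (T0 (q₀, Y₀)) (g := Complex.log)
          (f := fun b : ℂ × ℂ => b.1 * ex (-q₀)) h4 (differentiableAt_fst.mul_const _)
      have h5 : DifferentiableAt ℝ (fun b : ℂ × ℂ => Complex.arg (b.1 * ex (-q₀))) (T0 (q₀, Y₀)) := by
        rw [h1]
        exact (Complex.imCLM.differentiableAt).comp (T0 (q₀, Y₀)) h2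
      exact h5.mul_const (2 * Real.pi)⁻¹
    · have hn : DifferentiableAt ℝ (fun b : ℂ × ℂ => ‖b.1‖) (T0 (q₀, Y₀)) :=
        (differentiableAt_fst).norm ℝ hne
      apply DifferentiableAt.fun_smul
      · apply DifferentiableAt.inv
        · exact hn.const_mul 2
        · have : 0 < ‖(T0 (q₀, Y₀)).1‖ := norm_pos_iff.2 hne
          positivity
      · apply DifferentiableAt.prodMk
        · apply DifferentiableAt.sub
          · apply DifferentiableAt.const_sub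
            exact hn.pow 2
          · exact ((contDiff_norm_sq ℝ (n := 1)).differentiable (by simp)).differentiableAt.comp _
              differentiableAt_snd
        · exact differentiableAt_snd.const_mul 2
  · have hev : ∀ᶠ y : ℝ × R3 in 𝓝 (q₀, Y₀), |y.1 - q₀| < 1 / 2 := by
      have hc : Continuous fun y : ℝ × R3 => |y.1 - q₀| := by fun_prop
      have := hc.continuousAt (x := (q₀, Y₀))
      apply this.eventually_lt_const
      simp
    filter_upwards [hev] with y hy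
    obtain ⟨q, Y⟩ := y
    obtain ⟨hD, k1, k2, k3⟩ := St_key (X := Y) (Or.inl (sta_ex_ne q))
    apply Prod.ext
    · change q₀ + Complex.arg ((T0 (q, Y)).1 * ex (-q₀)) / (2 * Real.pi) = q
      rw [harg q Y hy]
      field_simp
      ring
    · change (2 * ‖(T0 (q, Y)).1‖)⁻¹ • ((1 - ‖(T0 (q, Y)).1‖ ^ 2 - ‖(T0 (q, Y)).2‖ ^ 2,
        2 * (T0 (q, Y)).2) : R3) = Y
      rw [hk, k2, k3]
      have h5 : 2 * ‖(St (ex q) Y).1‖ = 2 / (√(‖ex q‖ ^ 2 + nr Y ^ 2) + Y.1) := by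
        rw [sta_fst, norm_mul, ex_norm, Complex.norm_real, Real.norm_eq_abs]
        rw [ex_norm] at hD
        rw [abs_of_pos (inv_pos.2 hD)]
        ring
      rw [h5]
      set D := √(‖ex q‖ ^ 2 + nr Y ^ 2) + Y.1
      apply Prod.ext
      · rw [Prod.smul_fst, smul_eq_mul]
        change (2 / D)⁻¹ * (2 / D * Y.1) = Y.1
        field_simp
      · rw [Prod.smul_snd, Complex.real_smul]
        change ((2 / D)⁻¹ : ℝ) * (((2 / D : ℝ) : ℂ) * Y.2) = Y.2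
        rw [← mul_assoc, ← Complex.ofReal_mul, inv_mul_cancel₀ (by positivity), Complex.ofReal_one,
          one_mul]

end Pool.Agent.TS
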