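import Pool.Agent.TS.StA
import Pool.Agent.TS.GmM

/-!
# TS/StB: the chart `S0 (a, ν) = St (gg ν * a) (1 - ‖ν‖^2, 2 ν)` and its relations with `T0`

`gg ν > 0` smooth; `nr (1 - ‖ν‖^2, 2 ν) = 1 + ‖ν‖^2`, `nr + X.1 = 2 > 0`.  Inverse: from `b` the triple
`(c, s, c') = (2 b.1, 1 - ‖b‖^2, 2 b.2)`, `ν = c' / (√(s^2 + ‖c'‖^2) + s)`, `a = c (1 + ‖ν‖^2) / (√(..) gg ν)`, smooth
where `√(s^2 + ‖c'‖^2) + s > 0`.  (For `b.2 = 0`: `s = 1 - ‖b.1‖^2 > 0` iff `‖b.1‖ < 1`.)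
`S0_eq_T0`: `St_eq`: `gg ν a = l ex q`, `(1 - ‖ν‖^2, 2 ν) = (1 + ‖ν‖^2) • st ν = l • Y`, `l = gg ν ‖a‖`.
(O1) `O1`: `T0 (q, Gm (x • st ν)) = S0 (aa (st (x ex q)), ν)` for `x ≥ 2`: `aa (st w) = 2 w / (‖w‖^2 - 1)`.
(O3) `O3`: `x ≥ 2`, `E.1 ≤ -3/5`, `nr E = 1`: `T0 (q, Gm (x • E)) = sw (S0 (aa E, x ex q))`:
both sides are `St`/`sw St` of positive multiples of `(-2 x E.1 ex q; (x^2-1) E.1, (x^2-1) E.2)` (`P5 = id` as
`-E.1 ≥ 1/2`; `gg (x ex q) = x^2 - 1` as `(x^2-1)/(1+x^2) ≥ 3/5`).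
`TC`: `S0 (a, ν) = T0 (q, Gm X)`, `‖a‖ ≤ 4/3`: by `S0_eq_T0` `X` is a positive multiple `x • st ν` and
`‖a‖ P5 (..) = Gam X / x`; for `x < 2` this contradicts `Gam_lt`; for `x ≥ 2` `‖a‖ = 2 x / (x^2 - 1)`.
-/

open scoped Manifold ContDiff Topology
open Complex (I)
open Set Filter

namespace Pool.Agent.TS
open Pool.Agent.CSG

theorem gg_pos (ν : ℂ) : 0 < gg ν := by
  have h := P5_ge ((‖ν‖ ^ 2 - 1) / (1 + ‖ν‖ ^ 2))
  unfold gg
  have : 0 < P5 ((‖ν‖ ^ 2 - 1) / (1 + ‖ν‖ ^ 2)) := by linarith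
  positivity

theorem gg_smooth : ContDiff ℝ ∞ gg := by
  have h1 : ContDiff ℝ ∞ fun ν : ℂ => ‖ν‖ ^ 2 := contDiff_norm_sq ℝ
  have h2 : ContDiff ℝ ∞ fun ν : ℂ => (‖ν‖ ^ 2 - 1) / (1 + ‖ν‖ ^ 2) := by
    apply ContDiff.div
    · exact h1.sub contDiff_const
    · exact contDiff_const.add h1
    · intro ν
      positivity
  exact (contDiff_const.add h1).mul (P5_smooth.comp h2)

theorem gg_big {ν : ℂ} (h : 2 ≤ ‖ν‖) : gg ν = ‖ν‖ ^ 2 - 1 := by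
  unfold gg
  rw [P5_big]
  · field_simp
  · rw [div_le_div_iff₀ (by norm_num) (by positivity)]
    nlinarith

/-- the point `(1 - ‖ν‖², 2 ν)` -/
theorem stb_nr (ν : ℂ) : nr ((1 - ‖ν‖ ^ 2, 2 * ν) : R3) = 1 + ‖ν‖ ^ 2 := by
  have h := nr_sq ((1 - ‖ν‖ ^ 2, 2 * ν) : R3)
  simp only [norm_mul, Complex.norm_ofNat] at h
  have h1 := nr_nonneg ((1 - ‖ν‖ ^ 2, 2 * ν) : R3)
  have h2 : nr ((1 - ‖ν‖ ^ 2, 2 * ν) : R3) ^ 2 = (1 + ‖ν‖ ^ 2) ^ 2 := by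
    rw [h]; ring
  exact (pow_left_inj₀ h1 (by positivity) two_ne_zero).1 h2

theorem stb_two (ν : ℂ) :
    nr ((1 - ‖ν‖ ^ 2, 2 * ν) : R3) + ((1 - ‖ν‖ ^ 2, 2 * ν) : R3).1 = 2 := by
  rw [stb_nr]
  change 1 + ‖ν‖ ^ 2 + (1 - ‖ν‖ ^ 2) = 2
  ring

theorem stb_pos (ν : ℂ) :
    0 < nr ((1 - ‖ν‖ ^ 2, 2 * ν) : R3) + ((1 - ‖ν‖ ^ 2, 2 * ν) : R3).1 := by
  rw [stb_two]; norm_num

theorem stb_st (ν : ℂ) : ((1 - ‖ν‖ ^ 2, 2 * ν) : R3) = (1 + ‖ν‖ ^ 2) • st ν := by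
  unfold st
  rw [smul_inv_smul₀ (by positivity)]

theorem stb_S0 (a ν : ℂ) : S0 (a, ν) = St (gg ν * a) (1 - ‖ν‖ ^ 2, 2 * ν) := rfl

theorem S0_inj : Function.Injective S0 := by
  rintro ⟨a, ν⟩ ⟨a', ν'⟩ h
  rw [stb_S0, stb_S0] at h
  obtain ⟨l, hl, h1, h2⟩ := St_eq (Or.inr (stb_pos ν)) (Or.inr (stb_pos ν')) h
  have h3 := stb_two ν'
  rw [h2, nr_smul hl.le, Prod.smul_fst, smul_eq_mul, ← mul_add, stb_two] at h3
  have h4 : l = 1 := by linarith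
  subst h4
  rw [one_smul] at h2
  have h5 : 2 * ν' = 2 * ν := congrArg Prod.snd h2
  have h6 : ν' = ν := mul_left_cancel₀ two_ne_zero h5
  subst h6
  have hg : (gg ν' : ℂ) ≠ 0 := by exact_mod_cast (gg_pos ν').ne'
  rw [Complex.ofReal_one, one_mul] at h1
  rw [mul_left_cancel₀ hg h1]

theorem S0_surj {b : ℂ × ℂ} (h : b.2 ≠ 0 ∨ ‖b.1‖ < 1) : ∃ a, S0 a = b := by
  set X : R3 := (1 - ‖b.1‖ ^ 2 - ‖b.2‖ ^ 2, 2 * b.2) with hX
  have hpos : 0 < nr X + X.1 := by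
    apply nr_add_pos
    by_cases hb : b.2 = 0
    · right
      rw [hX]
      change 0 < 1 - ‖b.1‖ ^ 2 - ‖b.2‖ ^ 2
      have h1 : ‖b.1‖ < 1 := by
        rcases h with h | h
        · exact absurd hb h
        · exact h
      rw [hb, norm_zero]
      nlinarith [norm_nonneg b.1]
    · left
      exact mul_ne_zero two_ne_zero hb
  have hX0 : X ≠ 0 := by
    intro h0
    have : nr X = 0 := nr_eq_zero.2 h0
    rw [this, h0] at hpos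
    simp at hpos
  have hn : 0 < nr X := nr_pos.2 hX0
  set ν : ℂ := X.2 / ((nr X + X.1 : ℝ) : ℂ) with hν
  have hst : X = nr X • st ν := eq_st hpos
  set l : ℝ := nr X / (1 + ‖ν‖ ^ 2) with hl
  have hl0 : 0 < l := by positivity
  have hg := gg_pos ν
  have hgc : (gg ν : ℂ) ≠ 0 := by exact_mod_cast hg.ne'
  have hlc : (l : ℂ) ≠ 0 := by exact_mod_cast hl0.ne'
  refine ⟨(2 * b.1 / (l * gg ν), ν), ?_⟩
  rw [stb_S0, ← St_smul hl0, stb_st, smul_smul]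
  have e1 : l * (1 + ‖ν‖ ^ 2) = nr X := by
    rw [hl]; field_simp
  rw [e1, ← hst]
  have e2 : (l : ℂ) * (gg ν * (2 * b.1 / (l * gg ν))) = 2 * b.1 := by
    field_simp
  rw [e2]
  exact St_surj

theorem stb_smooth : ContDiff ℝ ∞ S0 := by
  rw [contDiff_iff_contDiffAt]
  rintro ⟨a, ν⟩
  have h1 := St_smoothAt (c := gg ν * a) (Or.inr (stb_pos ν))
  have h2 : ContDiff ℝ ∞ (fun a : ℂ × ℂ => (((gg a.2 : ℂ) * a.1, (1 - ‖a.2‖ ^ 2, 2 * a.2)) : ℂ × R3)) := by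
    apply ContDiff.prodMk
    · apply ContDiff.mul
      · exact Complex.ofRealCLM.contDiff.comp (gg_smooth.comp contDiff_snd)
      · exact contDiff_fst
    · apply ContDiff.prodMk
      · exact contDiff_const.sub ((contDiff_norm_sq ℝ).comp contDiff_snd)
      · exact contDiff_const.mul contDiff_snd
  exact ContDiffAt.comp (a, ν) (g := fun a : ℂ × R3 => St a.1 a.2)
    (f := fun a : ℂ × ℂ => (((gg a.2 : ℂ) * a.1, (1 - ‖a.2‖ ^ 2, 2 * a.2)) : ℂ × R3)) h1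
    h2.contDiffAt

theorem S0_ld (a : ℂ × ℂ) : IsLocalDiffeomorphAt 𝓘(ℝ, ℂ × ℂ) 𝓘(ℝ, ℂ × ℂ) ∞ S0 a := by
  let Xf : ℂ × ℂ → R3 := fun b => (1 - ‖b.1‖ ^ 2 - ‖b.2‖ ^ 2, 2 * b.2)
  let νf : ℂ × ℂ → ℂ := fun b => (Xf b).2 / ((nr (Xf b) + (Xf b).1 : ℝ) : ℂ)
  let g : ℂ × ℂ → ℂ × ℂ := fun b =>
    (((1 + ‖νf b‖ ^ 2) / (nr (Xf b) * gg (νf b)) : ℝ) * (2 * b.1), νf b)
  have key : ∀ a ν : ℂ, ∃ m : ℝ, 0 < m ∧ Xf (S0 (a, ν)) = m • ((1 - ‖ν‖ ^ 2, 2 * ν) : R3) ∧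
      2 * (S0 (a, ν)).1 = m * (gg ν * a) := by
    intro a ν
    obtain ⟨hD, h1, h2, h3⟩ := St_key (c := gg ν * a) (Or.inr (stb_pos ν))
    set D := √(‖(gg ν : ℂ) * a‖ ^ 2 + nr ((1 - ‖ν‖ ^ 2, 2 * ν) : R3) ^ 2) +
      ((1 - ‖ν‖ ^ 2, 2 * ν) : R3).1
    refine ⟨2 / D, by positivity, ?_, h1⟩
    apply Prod.ext
    · rw [Prod.smul_fst, smul_eq_mul]
      exact h2
    · rw [Prod.smul_snd, Complex.real_smul]
      exact h3
  obtain ⟨a, ν⟩ := a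
  refine ld_of_leftInv (g := g) rfl ?_ ?_ ?_
  · exact Eventually.of_forall fun y => stb_smooth.contDiffAt
  · obtain ⟨m, hm, hX, -⟩ := key a ν
    have hXs : ContDiff ℝ 1 Xf := by
      apply ContDiff.prodMk
      · exact (contDiff_const.sub ((contDiff_norm_sq ℝ).comp contDiff_fst)).sub
          ((contDiff_norm_sq ℝ).comp contDiff_snd)
      · exact contDiff_const.mul contDiff_snd
    have hnr : nr (Xf (S0 (a, ν))) = m * (1 + ‖ν‖ ^ 2) := by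
      rw [hX, nr_smul hm.le, stb_nr]
    have hX0 : Xf (S0 (a, ν)) ≠ 0 := by
      rw [← nr_pos, hnr]
      positivity
    have hsum : nr (Xf (S0 (a, ν))) + (Xf (S0 (a, ν))).1 = m * 2 := by
      rw [hX, nr_smul hm.le, Prod.smul_fst, smul_eq_mul, ← mul_add, stb_two]
    have hnrs : ContDiffAt ℝ 1 (fun b => nr (Xf b)) (S0 (a, ν)) :=
      ContDiffAt.comp (S0 (a, ν)) (g := nr) (f := Xf) ((nr_smoothAt hX0).of_le (by norm_cast))
        hXs.contDiffAt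
    have hνs : ContDiffAt ℝ 1 νf (S0 (a, ν)) := by
      have hνe : νf = fun b => (Xf b).2 * (((nr (Xf b) + (Xf b).1 : ℝ) : ℂ))⁻¹ := rfl
      rw [hνe]
      apply ContDiffAt.mul
      · exact (contDiff_snd.comp hXs).contDiffAt
      · apply ContDiffAt.inv
        · apply Complex.ofRealCLM.contDiff.contDiffAt.comp
          exact hnrs.add (contDiff_fst.comp hXs).contDiffAt
        · rw [hsum]
          exact_mod_cast (by positivity : m * 2 ≠ 0)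
    have hgs : ContDiffAt ℝ 1 (fun b => gg (νf b)) (S0 (a, ν)) :=
      ContDiffAt.comp (S0 (a, ν)) (g := gg) (f := νf)
        ((gg_smooth.contDiffAt).of_le (by norm_cast)) hνs
    have hns : ContDiffAt ℝ 1 (fun b => ‖νf b‖ ^ 2) (S0 (a, ν)) :=
      ContDiffAt.comp (S0 (a, ν)) (g := fun z : ℂ => ‖z‖ ^ 2) (f := νf)
        (contDiff_norm_sq ℝ).contDiffAt hνs
    have hgd : ContDiffAt ℝ 1 g (S0 (a, ν)) := by
      apply ContDiffAt.prodMk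
      · apply ContDiffAt.mul
        · apply Complex.ofRealCLM.contDiff.contDiffAt.comp
          apply ContDiffAt.div
          · exact contDiffAt_const.add hns
          · exact hnrs.mul hgs
          · have := gg_pos (νf (S0 (a, ν)))
            rw [hnr]
            positivity
        · exact (contDiff_const.mul contDiff_fst).contDiffAt
      · exact hνs
    exact hgd.differentiableAt (by simp)
  · refine Eventually.of_forall ?_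
    rintro ⟨a, ν⟩
    obtain ⟨m, hm, hX, h1⟩ := key a ν
    have hnr : nr (Xf (S0 (a, ν))) = m * (1 + ‖ν‖ ^ 2) := by
      rw [hX, nr_smul hm.le, stb_nr]
    have hsum : nr (Xf (S0 (a, ν))) + (Xf (S0 (a, ν))).1 = m * 2 := by
      rw [hX, nr_smul hm.le, Prod.smul_fst, smul_eq_mul, ← mul_add, stb_two]
    have hmc : (m : ℂ) ≠ 0 := by exact_mod_cast hm.ne'
    have hνv : νf (S0 (a, ν)) = ν := by
      change (Xf (S0 (a, ν))).2 / ((nr (Xf (S0 (a, ν))) + (Xf (S0 (a, ν))).1 : ℝ) : ℂ) = ν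
      rw [hsum, hX, Prod.smul_snd, Complex.real_smul]
      push_cast
      field_simp
    apply Prod.ext
    · change (((1 + ‖νf (S0 (a, ν))‖ ^ 2) / (nr (Xf (S0 (a, ν))) * gg (νf (S0 (a, ν)))) : ℝ) : ℂ) *
        (2 * (S0 (a, ν)).1) = a
      rw [hνv, hnr, h1]
      have hg := gg_pos ν
      have e : (1 + ‖ν‖ ^ 2) / (m * (1 + ‖ν‖ ^ 2) * gg ν) = (m * gg ν)⁻¹ := by
        field_simp
      have hgc : (gg ν : ℂ) ≠ 0 := by exact_mod_cast hg.ne'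
      rw [e]
      push_cast
      field_simp
    · exact hνv

theorem S0_eq_T0 {a ν : ℂ} {q : ℝ} {Y : R3} :
    S0 (a, ν) = T0 (q, Y) ↔ a ≠ 0 ∧ a = ‖a‖ * ex q ∧
      (‖a‖ * P5 ((‖ν‖ ^ 2 - 1) / (1 + ‖ν‖ ^ 2))) • Y = st ν := by
  have hg := gg_pos ν
  have hgc : (gg ν : ℂ) ≠ 0 := by exact_mod_cast hg.ne'
  have hP : 0 < P5 ((‖ν‖ ^ 2 - 1) / (1 + ‖ν‖ ^ 2)) := by
    have := P5_ge ((‖ν‖ ^ 2 - 1) / (1 + ‖ν‖ ^ 2)); linarith
  have hgdef : gg ν = (1 + ‖ν‖ ^ 2) * P5 ((‖ν‖ ^ 2 - 1) / (1 + ‖ν‖ ^ 2)) := rfl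
  set P := P5 ((‖ν‖ ^ 2 - 1) / (1 + ‖ν‖ ^ 2)) with hPd
  have hexn : ∀ q : ℝ, ex q ≠ 0 := fun q => by
    rw [← norm_pos_iff, ex_norm]; exact one_pos
  constructor
  · intro h
    have ha : a ≠ 0 := by
      intro ha
      have h1 := T0_ne (q, Y)
      rw [← h, stb_S0, ha, mul_zero] at h1
      apply h1
      simp [St]
    have han : 0 < ‖a‖ := norm_pos_iff.2 ha
    have h' : St (gg ν * a) (1 - ‖ν‖ ^ 2, 2 * ν) = St (ex q) Y := h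
    obtain ⟨l, hl, h1, h2⟩ := St_eq (Or.inr (stb_pos ν)) (Or.inl (hexn q)) h'
    have h3 : l * (gg ν * ‖a‖) = 1 := by
      have := congrArg norm h1
      rw [ex_norm, norm_mul, norm_mul, Complex.norm_real, Complex.norm_real, Real.norm_eq_abs,
        Real.norm_eq_abs, abs_of_pos hl, abs_of_pos hg] at this
      exact this.symm
    refine ⟨ha, ?_, ?_⟩
    · rw [h1]
      have h3c : (l : ℂ) * (gg ν * (‖a‖ : ℂ)) = 1 := by exact_mod_cast h3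
      linear_combination (-a) * h3c
    · rw [h2, stb_st, smul_smul, smul_smul]
      have : ‖a‖ * P * l * (1 + ‖ν‖ ^ 2) = 1 := by
        linear_combination h3 - l * ‖a‖ * hgdef
      rw [this, one_smul]
  · rintro ⟨ha, h1, h2⟩
    have han : 0 < ‖a‖ := norm_pos_iff.2 ha
    change St (gg ν * a) (1 - ‖ν‖ ^ 2, 2 * ν) = St (ex q) Y
    have hl : 0 < gg ν * ‖a‖ := by positivity
    rw [← St_smul (c := ex q) (X := Y) hl, stb_st, ← h2, smul_smul]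
    have e1 : (1 + ‖ν‖ ^ 2) * (‖a‖ * P) = gg ν * ‖a‖ := by rw [hgdef]; ring
    rw [e1]
    have e2 : (gg ν : ℂ) * a = ((gg ν * ‖a‖ : ℝ) : ℂ) * ex q := by
      push_cast
      rw [mul_assoc, ← h1]
    rw [e2]

theorem stb_st_fst (ν : ℂ) : -(st ν).1 = (‖ν‖ ^ 2 - 1) / (1 + ‖ν‖ ^ 2) := by
  unfold st
  rw [Prod.smul_fst, smul_eq_mul]
  field_simp
  ring

theorem aa_st {w : ℂ} (h : 1 < ‖w‖) : aa (st w) = (2 / (‖w‖ ^ 2 - 1) : ℝ) * w := by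
  have h1 : 0 < ‖w‖ ^ 2 - 1 := by nlinarith
  have h2 : (1 + (‖w‖ : ℂ) ^ 2) ≠ 0 := by
    exact_mod_cast (by positivity : 1 + ‖w‖ ^ 2 ≠ 0)
  have h3 : ((‖w‖ : ℂ) ^ 2 - 1) ≠ 0 := by
    exact_mod_cast h1.ne'
  have h4 : (1 - (‖w‖ : ℂ) ^ 2) ≠ 0 := by
    intro h4
    apply h3
    linear_combination -h4
  unfold aa st
  rw [Prod.smul_fst, Prod.smul_snd, smul_eq_mul, Complex.real_smul]
  push_cast
  field_simp
  ring

theorem stb_smul_ex_norm {x : ℝ} (hx : 0 ≤ x) (q : ℝ) : ‖(x : ℂ) * ex q‖ = x := by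
  rw [norm_mul, ex_norm, Complex.norm_real, Real.norm_eq_abs, abs_of_nonneg hx, mul_one]

theorem O1 {x : ℝ} (hx : 2 ≤ x) (q : ℝ) (ν : ℂ) :
    T0 (q, Gm (x • st ν)) = S0 (aa (st (x * ex q)), ν) := by
  symm
  have hx0 : 0 < x := by linarith
  have hx1 : 0 < x ^ 2 - 1 := by nlinarith
  have hn := stb_smul_ex_norm hx0.le q
  have ha : aa (st (x * ex q)) = ((2 * x / (x ^ 2 - 1) : ℝ) : ℂ) * ex q := by
    rw [aa_st (by rw [hn]; linarith), hn]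
    push_cast
    ring
  have hr : 0 < 2 * x / (x ^ 2 - 1) := by positivity
  have han : ‖aa (st (x * ex q))‖ = 2 * x / (x ^ 2 - 1) := by
    rw [ha]; exact stb_smul_ex_norm hr.le q
  rw [S0_eq_T0]
  refine ⟨?_, ?_, ?_⟩
  · rw [← norm_pos_iff, han]; exact hr
  · rw [han, ha]
  · rw [han]
    have hnr : nr (x • st ν) = x := by rw [nr_smul hx0.le, nr_st, mul_one]
    have hG : Gam (x • st ν) = 2 * x ^ 2 / (x ^ 2 - 1) * P5 ((‖ν‖ ^ 2 - 1) / (1 + ‖ν‖ ^ 2)) := by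
      rw [Gam_big (by rw [hnr]; exact hx), hnr, Prod.smul_fst, smul_eq_mul, ← stb_st_fst]
      congr 2
      field_simp
    have hP : 0 < P5 ((‖ν‖ ^ 2 - 1) / (1 + ‖ν‖ ^ 2)) := by
      have := P5_ge ((‖ν‖ ^ 2 - 1) / (1 + ‖ν‖ ^ 2)); linarith
    unfold Gm
    rw [hG, smul_smul, smul_smul]
    set P := P5 ((‖ν‖ ^ 2 - 1) / (1 + ‖ν‖ ^ 2))
    have : 2 * x / (x ^ 2 - 1) * P * (2 * x ^ 2 / (x ^ 2 - 1) * P)⁻¹ * x = 1 := by
      field_simp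
    rw [this, one_smul]

theorem stb_sw (c c' : ℂ) (s : ℝ) : St c (s, c') = sw (St c' (s, c)) := by
  have e : ‖c'‖ ^ 2 + nr (s, c) ^ 2 = ‖c‖ ^ 2 + nr (s, c') ^ 2 := by
    rw [nr_sq, nr_sq]
    ring
  unfold St sw
  rw [e]
  rfl

theorem O3 {x : ℝ} (hx : 2 ≤ x) (q : ℝ) {E : R3} (hE : nr E = 1) (h : E.1 ≤ -(3 / 5)) :
    T0 (q, Gm (x • E)) = sw (S0 (aa E, x * ex q)) := by
  have hx0 : 0 < x := by linarith
  have hx1 : 0 < x ^ 2 - 1 := by nlinarith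
  have hn := stb_smul_ex_norm hx0.le q
  have hE0 : 0 < -E.1 := by linarith
  have hEc : (E.1 : ℂ) ≠ 0 := by
    have : E.1 ≠ 0 := by linarith
    exact_mod_cast this
  have hnr : nr (x • E) = x := by rw [nr_smul hx0.le, hE, mul_one]
  have hG : Gam (x • E) = 2 * x ^ 2 / (x ^ 2 - 1) * (-E.1) := by
    rw [Gam_big (by rw [hnr]; exact hx), hnr, Prod.smul_fst, smul_eq_mul]
    have : -(x * E.1) / x = -E.1 := by field_simp
    rw [this, P5_big (by linarith)]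
  have hG0 : 0 < Gam (x • E) := Gam_pos _
  -- left hand side
  have hL : T0 (q, Gm (x • E)) =
      St (((2 * x * (-E.1) : ℝ) : ℂ) * ex q) ((x ^ 2 - 1) • E) := by
    change St (ex q) ((Gam (x • E))⁻¹ • (x • E)) = _
    have hl : 0 < (x ^ 2 - 1) / x * Gam (x • E) := by positivity
    rw [← St_smul (c := ex q) hl]
    congr 1
    · congr 2
      rw [hG]
      field_simp
    · rw [smul_smul, smul_smul]
      congr 1
      field_simp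
  have hR : S0 (aa E, x * ex q) =
      St (((x ^ 2 - 1 : ℝ) : ℂ) * E.2) ((x ^ 2 - 1) * E.1, ((2 * x * (-E.1) : ℝ) : ℂ) * ex q) := by
    change St (gg (x * ex q) * aa E) (1 - ‖(x : ℂ) * ex q‖ ^ 2, 2 * ((x : ℂ) * ex q)) = _
    rw [gg_big (by rw [hn]; exact hx), hn, ← St_smul hE0]
    congr 1
    · unfold aa
      push_cast
      field_simp
    · apply Prod.ext
      · rw [Prod.smul_fst, smul_eq_mul]
        change -E.1 * (1 - x ^ 2) = (x ^ 2 - 1) * E.1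
        ring
      · rw [Prod.smul_snd, Complex.real_smul]
        change ((-E.1 : ℝ) : ℂ) * (2 * ((x : ℂ) * ex q)) = ((2 * x * (-E.1) : ℝ) : ℂ) * ex q
        push_cast
        ring
  rw [hL, hR]
  have e : (x ^ 2 - 1) • E = ((x ^ 2 - 1) * E.1, ((x ^ 2 - 1 : ℝ) : ℂ) * E.2) := by
    apply Prod.ext
    · rw [Prod.smul_fst, smul_eq_mul]
    · rw [Prod.smul_snd, Complex.real_smul]
  rw [e]
  exact stb_sw _ _ _

theorem TC {a ν : ℂ} {q : ℝ} {X : R3} (ha : ‖a‖ ≤ 4 / 3) (h : S0 (a, ν) = T0 (q, Gm X)) :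
    2 ≤ nr X ∧ X = nr X • st ν ∧ a = (2 * nr X / (nr X ^ 2 - 1) : ℝ) * ex q := by
  obtain ⟨h0, h1, h2⟩ := S0_eq_T0.1 h
  have hP : 0 < P5 ((‖ν‖ ^ 2 - 1) / (1 + ‖ν‖ ^ 2)) := by
    have := P5_ge ((‖ν‖ ^ 2 - 1) / (1 + ‖ν‖ ^ 2)); linarith
  have hG := Gam_pos X
  have han : 0 < ‖a‖ := norm_pos_iff.2 h0
  unfold Gm at h2
  rw [smul_smul] at h2
  set P := P5 ((‖ν‖ ^ 2 - 1) / (1 + ‖ν‖ ^ 2)) with hPd
  have hm : 0 < ‖a‖ * P * (Gam X)⁻¹ := by positivity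
  have h3 : ‖a‖ * P * (Gam X)⁻¹ * nr X = 1 := by
    rw [← nr_smul hm.le, h2, nr_st]
  have hXn : 0 < nr X := by
    by_contra hc
    have : nr X = 0 := le_antisymm (not_lt.1 hc) (nr_nonneg X)
    rw [this, mul_zero] at h3
    exact zero_ne_one h3
  have hXs : X = nr X • st ν := by
    rw [← h2, smul_smul]
    rw [show nr X * (‖a‖ * P * (Gam X)⁻¹) = 1 by rw [← h3]; ring, one_smul]
  have hσ : -X.1 / nr X = (‖ν‖ ^ 2 - 1) / (1 + ‖ν‖ ^ 2) := by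
    rw [← stb_st_fst]
    have : X.1 = nr X * (st ν).1 := congrArg Prod.fst hXs
    rw [this]
    field_simp
  have h4 : ‖a‖ * P * nr X = Gam X := by
    have : ‖a‖ * P * (Gam X)⁻¹ * nr X * Gam X = 1 * Gam X := by rw [h3]
    rw [one_mul] at this
    rw [← this]
    field_simp
  have hX0 : X ≠ 0 := nr_pos.1 hXn
  have h5 : 2 ≤ nr X := by
    by_contra hc
    have h6 := Gam_lt hX0 (not_le.1 hc)
    rw [hσ, ← h4, ← hPd] at h6
    have : ‖a‖ * (P * nr X) ≤ 4 / 3 * (P * nr X) := by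
      apply mul_le_mul_of_nonneg_right ha
      positivity
    nlinarith
  refine ⟨h5, hXs, ?_⟩
  have h7 := Gam_big h5
  rw [hσ, ← hPd, ← h4] at h7
  have hx1 : 0 < nr X ^ 2 - 1 := by nlinarith
  have h8 : ‖a‖ = 2 * nr X / (nr X ^ 2 - 1) := by
    rw [eq_div_iff hx1.ne']
    rw [div_mul_eq_mul_div, eq_div_iff hx1.ne'] at h7
    have h9 : (‖a‖ * (nr X ^ 2 - 1)) * (P * nr X) = (2 * nr X) * (P * nr X) := by
      rw [← sub_eq_zero]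
      rw [← sub_eq_zero] at h7
      rw [← h7]; ring
    exact mul_right_cancel₀ (by positivity) h9
  rw [← h8]
  exact h1

end Pool.Agent.TS
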