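import Pool.Agent.TS.BbM
import Pool.Agent.TS.NrB

/-!
# TS/VVM: the third step `VV`

For `X = x • st v` (`x > 0`): `VV X = x • st (v + tau x * bb v)` (the condition of the definition is `‖v‖ < 1/30`;
outside `bb v = 0`).  For `X.1 = - nr X` (negative axis, and `X = 0`) `VV X = X`, also in a neighbourhood when
`X ≠ 0`; for `nr X < 1/2` `VV = id` (`tau = 0`).  Norm preserving.  Bijective: `bb_bij` for each `x`.
Local diffeomorphism at `X = x • st v`: `VV ∘ polar = polar ∘ ((x, v) ↦ (x, v + tau x bb v))`; the last map has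
injective derivative by `bb_fderiv` (triangular); use `polar_ld`, `ld_of_comp_left`.
-/

open scoped Manifold ContDiff Topology
open Complex (I)
open Set Filter

namespace Pool.Agent.TS
open Pool.Agent.CSG

theorem VVM_tau0 (x : ℝ) : 0 ≤ tau x := stp_nonneg _ _ _

theorem VVM_tau1 (x : ℝ) : tau x ≤ 1 := stp_le_one _ _ _

theorem VVM_tau_smooth : ContDiff ℝ ∞ tau := by
  unfold tau; exact stp_smooth _ _

theorem VVM_nr {x : ℝ} (hx : 0 < x) (v : ℂ) : nr (x • st v) = x := by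
  rw [nr_smul hx.le, nr_st, mul_one]

theorem VVM_pos {x : ℝ} (hx : 0 < x) (v : ℂ) : 0 < nr (x • st v) + (x • st v).1 := by
  rw [VVM_nr hx, Prod.smul_fst, smul_eq_mul]
  have := st_fst_ne v
  nlinarith

/-- the condition in the definition of `VV` in terms of the direction -/
theorem VVM_cond {x : ℝ} (hx : 0 < x) (v : ℂ) :
    ‖(x • st v).2‖ < (1 / 30) * (nr (x • st v) + (x • st v).1) ↔ ‖v‖ < 1 / 30 := by
  have h1 := VVM_pos hx v
  have h2 := st_coord hx v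
  have h3 : ‖v‖ = ‖(x • st v).2‖ / (nr (x • st v) + (x • st v).1) := by
    conv_lhs => rw [← h2]
    rw [norm_div, Complex.norm_real, Real.norm_eq_abs, abs_of_pos h1]
  rw [h3, div_lt_iff₀ h1]

theorem VV_id {X : R3} (h : (1 / 30) * (nr X + X.1) ≤ ‖X.2‖) : VV X = X := by
  unfold VV
  rw [if_neg (not_lt.2 h)]

theorem VV_st {x : ℝ} (hx : 0 < x) (v : ℂ) :
    VV (x • st v) = x • st (v + (tau x : ℂ) * bb v) := by
  by_cases h : ‖v‖ < 1 / 30
  · unfold VV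
    rw [if_pos ((VVM_cond hx v).2 h), st_coord hx v, VVM_nr hx]
  · rw [VV_id (not_lt.1 fun h' => h ((VVM_cond hx v).1 h')), bb_zero (not_lt.1 h)]
    simp

theorem VVM_eq {X : R3} (h : ‖X.2‖ < (1 / 30) * (nr X + X.1)) :
    0 < nr X ∧ X = nr X • st (X.2 / ((nr X + X.1 : ℝ) : ℂ)) ∧
      ‖X.2 / ((nr X + X.1 : ℝ) : ℂ)‖ < 1 / 30 := by
  have h0 : 0 < nr X + X.1 := by
    have := norm_nonneg X.2
    nlinarith
  have h1 : 0 < nr X := by
    have := abs_fst_le_nr X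
    have := le_abs_self X.1
    linarith
  refine ⟨h1, eq_st h0, ?_⟩
  have e := eq_st h0
  generalize X.2 / ((nr X + X.1 : ℝ) : ℂ) = v at e
  rw [e] at h
  exact (VVM_cond h1 v).1 h

theorem VV_small {X : R3} (h : nr X ≤ 1 / 2) : VV X = X := by
  by_cases hc : ‖X.2‖ < (1 / 30) * (nr X + X.1)
  · obtain ⟨h1, h2, -⟩ := VVM_eq hc
    have ht : tau (nr X) = 0 := stp_zero (by norm_num) h
    generalize X.2 / ((nr X + X.1 : ℝ) : ℂ) = v at h2
    generalize nr X = x at *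
    rw [h2, VV_st h1, ht]
    simp
  · exact VV_id (not_lt.1 hc)

theorem nr_VV (X : R3) : nr (VV X) = nr X := by
  by_cases hc : ‖X.2‖ < (1 / 30) * (nr X + X.1)
  · obtain ⟨h1, h2, -⟩ := VVM_eq hc
    generalize X.2 / ((nr X + X.1 : ℝ) : ℂ) = v at h2
    have e : nr (VV (nr X • st v)) = nr X := by rw [VV_st h1, VVM_nr h1]
    rw [← h2] at e
    exact e
  · rw [VV_id (not_lt.1 hc)]

theorem VVM_cond_iff (X : R3) : ‖(VV X).2‖ < (1 / 30) * (nr (VV X) + (VV X).1) ↔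
    ‖X.2‖ < (1 / 30) * (nr X + X.1) := by
  by_cases hc : ‖X.2‖ < (1 / 30) * (nr X + X.1)
  · obtain ⟨h1, h2, h3⟩ := VVM_eq hc
    generalize X.2 / ((nr X + X.1 : ℝ) : ℂ) = v at h2 h3
    have e : ‖(VV (nr X • st v)).2‖ < (1 / 30) * (nr (VV (nr X • st v)) + (VV (nr X • st v)).1) ↔
        ‖(nr X • st v).2‖ < (1 / 30) * (nr (nr X • st v) + (nr X • st v).1) := by
      rw [VV_st h1, VVM_cond h1, VVM_cond h1]
      exact bb_disc (VVM_tau0 _) (VVM_tau1 _) v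
    rw [← h2] at e
    exact e
  · rw [VV_id (not_lt.1 hc)]

theorem VV_bij : Function.Bijective VV := by
  constructor
  · intro X Y h
    have hn : nr X = nr Y := by rw [← nr_VV X, ← nr_VV Y, h]
    have hX := VVM_cond_iff X
    have hY := VVM_cond_iff Y
    rw [h] at hX
    have hXY := hX.symm.trans hY
    by_cases hc : ‖X.2‖ < (1 / 30) * (nr X + X.1)
    · obtain ⟨h1, h2, -⟩ := VVM_eq hc
      obtain ⟨h1', h2', -⟩ := VVM_eq (hXY.1 hc)
      generalize X.2 / ((nr X + X.1 : ℝ) : ℂ) = v at h2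
      generalize Y.2 / ((nr Y + Y.1 : ℝ) : ℂ) = w at h2'
      rw [← hn] at h2' h1'
      generalize nr X = x at h1 h2 h2' h1'
      rw [h2, h2', VV_st h1, VV_st h1] at h
      have h3 : st (v + (tau x : ℂ) * bb v) = st (w + (tau x : ℂ) * bb w) :=
        smul_right_injective R3 h1.ne' h
      have h4 := (bb_bij (VVM_tau0 x) (VVM_tau1 x)).1 (st_inj h3)
      rw [h2, h2', h4]
    · rw [VV_id (not_lt.1 hc), VV_id (not_lt.1 fun h' => hc (hXY.2 h'))] at h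
      exact h
  · intro Y
    by_cases hc : ‖Y.2‖ < (1 / 30) * (nr Y + Y.1)
    · obtain ⟨h1, h2, -⟩ := VVM_eq hc
      obtain ⟨v, hv⟩ := (bb_bij (VVM_tau0 (nr Y)) (VVM_tau1 (nr Y))).2
        (Y.2 / ((nr Y + Y.1 : ℝ) : ℂ))
      refine ⟨nr Y • st v, ?_⟩
      have hv' : v + (tau (nr Y) : ℂ) * bb v = Y.2 / ((nr Y + Y.1 : ℝ) : ℂ) := hv
      rw [VV_st h1, hv', ← h2]
    · exact ⟨Y, VV_id (not_lt.1 hc)⟩

theorem VVM_phi_ld (x : ℝ) (v : ℂ) : IsLocalDiffeomorphAt 𝓘(ℝ, ℝ × ℂ) 𝓘(ℝ, ℝ × ℂ) ∞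
    (fun q : ℝ × ℂ => (q.1, q.2 + ((tau q.1 : ℝ) : ℂ) * bb q.2)) (x, v) := by
  have hn : (∞ : WithTop ℕ∞) ≠ 0 := by simp
  have hts : ContDiff ℝ ∞ (fun q : ℝ × ℂ => ((tau q.1 : ℝ) : ℂ)) :=
    Complex.ofRealCLM.contDiff.comp (VVM_tau_smooth.comp contDiff_fst)
  have hs : ContDiff ℝ ∞ (fun q : ℝ × ℂ => (q.1, q.2 + ((tau q.1 : ℝ) : ℂ) * bb q.2)) :=
    contDiff_fst.prodMk (contDiff_snd.add (hts.mul (bb_smooth.comp contDiff_snd)))
  refine ld_of_fderiv (Eventually.of_forall fun y => hs.contDiffAt) rfl ?_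
  rintro ⟨a, w⟩ h
  have ht : HasFDerivAt (fun q : ℝ × ℂ => ((tau q.1 : ℝ) : ℂ))
      (Complex.ofRealCLM.comp ((fderiv ℝ tau x).comp (ContinuousLinearMap.fst ℝ ℝ ℂ))) (x, v) := by
    have h1 : HasFDerivAt tau (fderiv ℝ tau x) x :=
      (VVM_tau_smooth.differentiable hn x).hasFDerivAt
    have h2 : HasFDerivAt (fun q : ℝ × ℂ => tau q.1)
        ((fderiv ℝ tau x).comp (ContinuousLinearMap.fst ℝ ℝ ℂ)) (x, v) :=
      HasFDerivAt.comp (x, v) h1 hasFDerivAt_fst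
    exact HasFDerivAt.comp (x, v) Complex.ofRealCLM.hasFDerivAt h2
  have hb : HasFDerivAt (fun q : ℝ × ℂ => bb q.2)
      ((fderiv ℝ bb v).comp (ContinuousLinearMap.snd ℝ ℝ ℂ)) (x, v) := by
    have h1 : HasFDerivAt bb (fderiv ℝ bb v) v := (bb_smooth.differentiable hn v).hasFDerivAt
    exact HasFDerivAt.comp (g := bb) (f := (Prod.snd : ℝ × ℂ → ℂ)) (x, v) h1 hasFDerivAt_snd
  have hd : HasFDerivAt (fun q : ℝ × ℂ => (q.1, q.2 + ((tau q.1 : ℝ) : ℂ) * bb q.2)) _ (x, v) :=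
    (hasFDerivAt_fst (𝕜 := ℝ) (p := (x, v))).prodMk
    ((hasFDerivAt_snd (𝕜 := ℝ) (p := (x, v))).add (ht.mul hb))
  rw [hd.fderiv] at h
  have h1 : a = 0 := congrArg Prod.fst h
  subst h1
  have h2 := congrArg Prod.snd h
  have h3 : w + ((tau x : ℝ) : ℂ) * fderiv ℝ bb v w = 0 := by
    simpa using h2
  rw [bb_fderiv (VVM_tau0 x) (VVM_tau1 x) v w h3]
  rfl

theorem VVM_ld_st {x : ℝ} (hx : 0 < x) (v : ℂ) :
    IsLocalDiffeomorphAt 𝓘(ℝ, R3) 𝓘(ℝ, R3) ∞ VV (x • st v) := by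
  have h1 := VVM_phi_ld x v
  have h2 := polar_ld hx (v + ((tau x : ℝ) : ℂ) * bb v)
  have h3 : IsLocalDiffeomorphAt 𝓘(ℝ, ℝ × ℂ) 𝓘(ℝ, R3) ∞
      ((fun a : ℝ × ℂ => a.1 • st a.2) ∘
        (fun q : ℝ × ℂ => (q.1, q.2 + ((tau q.1 : ℝ) : ℂ) * bb q.2))) (x, v) :=
    IsLocalDiffeomorphAt.comp (hf := h1) (hg := h2) ..
  have h4 : IsLocalDiffeomorphAt 𝓘(ℝ, ℝ × ℂ) 𝓘(ℝ, R3) ∞
      (VV ∘ (fun a : ℝ × ℂ => a.1 • st a.2)) (x, v) := by
    refine ld_congr h3 ?_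
    have ho : IsOpen {q : ℝ × ℂ | 0 < q.1} := isOpen_lt continuous_const continuous_fst
    filter_upwards [ho.mem_nhds (show 0 < (x, v).1 from hx)] with q hq
    exact VV_st hq q.2
  exact ld_of_comp_left (f := fun a : ℝ × ℂ => a.1 • st a.2) h4 (polar_ld hx v)

theorem VV_ld (X : R3) : IsLocalDiffeomorphAt 𝓘(ℝ, R3) 𝓘(ℝ, R3) ∞ VV X := by
  rcases lt_or_ge (nr X) (1 / 2) with h | h
  · refine ld_congr (ld_id X) ?_
    have ho : IsOpen {Y : R3 | nr Y < 1 / 2} := isOpen_lt nr_continuous continuous_const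
    filter_upwards [ho.mem_nhds h] with Y hY
    exact VV_small (le_of_lt hY)
  · rcases lt_or_ge 0 (nr X + X.1) with h1 | h1
    · rw [eq_st h1]
      exact VVM_ld_st (by linarith) _
    · have hX : X.1 < 0 := by linarith
      refine ld_congr (ld_id X) ?_
      have ho : IsOpen {Y : R3 | Y.1 < 0} := isOpen_lt continuous_fst continuous_const
      filter_upwards [ho.mem_nhds hX] with Y hY
      have hY' : Y.1 < 0 := hY
      apply VV_id
      have a1 := nr_sq Y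
      have a2 := norm_nonneg Y.2
      have a3 := nr_nonneg Y
      have a4 := norm_snd_le_nr Y
      have a5 := abs_fst_le_nr Y
      have a6 := neg_abs_le Y.1
      have a7 : (nr Y + Y.1) * (nr Y - Y.1) = ‖Y.2‖ ^ 2 := by nlinarith
      by_contra hcon
      rw [not_le] at hcon
      have a8 : 0 < nr Y - Y.1 := by linarith
      have a9 : (nr Y + Y.1) * ‖Y.2‖ ≤ ‖Y.2‖ ^ 2 := by
        rw [← a7]
        apply mul_le_mul_of_nonneg_left _ (by linarith)
        linarith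
      rcases a2.eq_or_lt with h0 | h0
      · rw [← h0] at hcon a7
        have : nr Y + Y.1 = 0 := by
          have : (nr Y + Y.1) * (nr Y - Y.1) = 0 := by rw [a7]; norm_num
          rcases mul_eq_zero.1 this with h' | h'
          · exact h'
          · linarith
        rw [this] at hcon
        norm_num at hcon
      · have : nr Y + Y.1 ≤ ‖Y.2‖ := by
          have := (mul_le_mul_iff_of_pos_right h0).1 (by nlinarith : (nr Y + Y.1) * ‖Y.2‖ ≤ ‖Y.2‖ * ‖Y.2‖)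
          exact this
        linarith

theorem VV_smul {X : R3} (h : 1 ≤ nr X) {l : ℝ} (hl : 1 ≤ l) : VV (l • X) = l • VV X := by
  have hl0 : 0 < l := by linarith
  have e1 : nr (l • X) + (l • X).1 = l * (nr X + X.1) := by
    rw [nr_smul hl0.le, Prod.smul_fst, smul_eq_mul]; ring
  have e2 : ‖(l • X).2‖ = l * ‖X.2‖ := by
    rw [Prod.smul_snd, norm_smul, Real.norm_eq_abs, abs_of_pos hl0]
  by_cases hc : ‖X.2‖ < (1 / 30) * (nr X + X.1)
  · obtain ⟨h1, h2, -⟩ := VVM_eq hc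
    generalize X.2 / ((nr X + X.1 : ℝ) : ℂ) = v at h2
    have t1 : tau (nr X) = 1 := stp_one (by norm_num) h
    have t2 : tau (l * nr X) = 1 := stp_one (by norm_num) (by nlinarith)
    generalize nr X = x at h1 h2 t1 t2
    rw [h2, smul_smul, VV_st h1, VV_st (mul_pos hl0 h1), t1, t2, smul_smul]
  · rw [VV_id (not_lt.1 hc), VV_id]
    rw [e1, e2]
    have := not_lt.1 hc
    nlinarith

end Pool.Agent.TS
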